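import Pool.Agent.HPS.DefsB

/-!
# Module HPS-Rem: removing two adjacent strands from a half twist; index sets

`hthr`: every other strand `w` goes straight through the crossings with `u` and `u + 1` (`P w u false ~ P w (u+1) true`).
-/

set_option autoImplicit false

open Finset MvPolynomial

namespace Pool.HPS

variable {Pt : Type} {W W' : Setoid Pt} {P : ℕ → ℕ → Bool → Pt} {m u : ℕ}

private lemma sk_lt {u i : ℕ} (h : i < u) : sk u i = i := by simp [sk, h]

private lemma sk_ge {u i : ℕ} (h : u ≤ i) : sk u i = i + 2 := by simp [sk, not_lt.2 h]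

theorem Lin_rem (h : Lin (m + 2) P W) (hle : W ≤ W') (hu : u < m + 1)
    (hthr : ∀ w, w < m + 2 → w ≠ u → w ≠ u + 1 → W' (P w u false) (P w (u + 1) true)) :
    Lin m (skP u P) W' := by
  have ha : ∀ i j, i < m + 2 → j + 1 < m + 2 → j ≠ i → j + 1 ≠ i →
      W' (P i j true) (P i (j + 1) false) := fun i j h1 h2 h3 h4 => hle (h.a i j h1 h2 h3 h4)
  have hb : ∀ i, i + 2 < m + 2 → W' (P (i + 1) i true) (P (i + 1) (i + 2) false) :=
    fun i h1 => hle (h.b i h1)
  refine ⟨?_, ?_⟩
  · intro i j hi hj hji hji1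
    change W' (P (sk u i) (sk u j) true) (P (sk u i) (sk u (j + 1)) false)
    rcases lt_trichotomy (j + 1) u with h1 | h1 | h1
    · rw [sk_lt h1, sk_lt (by omega : j < u)]
      rcases lt_or_ge i u with h2 | h2
      · rw [sk_lt h2]
        exact ha i j (by omega) (by omega) hji hji1
      · rw [sk_ge h2]
        exact ha (i + 2) j (by omega) (by omega) (by omega) (by omega)
    · subst h1
      rw [sk_lt (by omega : j < j + 1), sk_ge (le_refl (j + 1))]
      rcases lt_or_ge i (j + 1) with h2 | h2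
      · rw [sk_lt h2]
        exact W'.trans (ha i j (by omega) (by omega) hji hji1)
          (W'.trans (hthr i (by omega) (by omega) (by omega))
            (ha i (j + 2) (by omega) (by omega) (by omega) (by omega)))
      · rw [sk_ge h2]
        exact W'.trans (ha (i + 2) j (by omega) (by omega) (by omega) (by omega))
          (W'.trans (hthr (i + 2) (by omega) (by omega) (by omega))
            (ha (i + 2) (j + 2) (by omega) (by omega) (by omega) (by omega)))
    · rw [sk_ge (by omega : u ≤ j), sk_ge (by omega : u ≤ j + 1)]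
      rcases lt_or_ge i u with h2 | h2
      · rw [sk_lt h2]
        exact ha i (j + 2) (by omega) (by omega) (by omega) (by omega)
      · rw [sk_ge h2]
        exact ha (i + 2) (j + 2) (by omega) (by omega) (by omega) (by omega)
  · intro i hi
    change W' (P (sk u (i + 1)) (sk u i) true) (P (sk u (i + 1)) (sk u (i + 2)) false)
    rcases lt_trichotomy (i + 2) u with h1 | h1 | h1
    · rw [sk_lt h1, sk_lt (by omega : i + 1 < u), sk_lt (by omega : i < u)]
      exact hb i (by omega)
    · subst h1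
      rw [sk_ge (le_refl (i + 2)), sk_lt (by omega : i + 1 < i + 2), sk_lt (by omega : i < i + 2)]
      exact W'.trans (hb i (by omega)) (W'.trans (hthr (i + 1) (by omega) (by omega) (by omega))
        (ha (i + 1) (i + 3) (by omega) (by omega) (by omega) (by omega)))
    · rcases Nat.lt_or_ge i u with h2 | h2
      · obtain rfl : u = i + 1 := by omega
        rw [sk_ge (by omega : i + 1 ≤ i + 2), sk_ge (le_refl (i + 1)), sk_lt (by omega : i < i + 1)]
        exact W'.trans (ha (i + 1 + 2) i (by omega) (by omega) (by omega) (by omega))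
          (W'.trans (hthr (i + 1 + 2) (by omega) (by omega) (by omega)) (hb (i + 2) (by omega)))
      · rw [sk_ge (by omega : u ≤ i + 2), sk_ge (by omega : u ≤ i + 1), sk_ge h2]
        exact hb (i + 2) (by omega)

theorem Cyc_rem (h : Cyc (m + 2) P W) (hle : W ≤ W') (hu : u < m + 1) (hm : 2 ≤ m)
    (hthr : ∀ w, w < m + 2 → w ≠ u → w ≠ u + 1 → W' (P w u false) (P w (u + 1) true)) :
    Cyc m (skP u P) W' := by
  have ha : ∀ i j, i < m + 2 → j + 1 < m + 2 → j ≠ i → j + 1 ≠ i →
      W' (P i j true) (P i (j + 1) false) := fun i j h1 h2 h3 h4 => hle (h.a i j h1 h2 h3 h4)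
  have hb : ∀ i, i + 2 < m + 2 → W' (P (i + 1) i true) (P (i + 1) (i + 2) false) :=
    fun i h1 => hle (h.b i h1)
  refine ⟨Lin_rem h.toLin hle hu hthr, ?_⟩
  intro i hi
  change W' (P (sk u i) (sk u (lst m i)) true) (P (sk u i) (sk u (fst' i)) false)
  have hw : sk u i < m + 2 := by
    unfold sk
    split_ifs <;> omega
  have hc := hle (h.c (sk u i) hw)
  have hA : W' (P (sk u i) (sk u (lst m i)) true) (P (sk u i) (lst (m + 2) (sk u i)) true) := by
    obtain ⟨n, rfl⟩ : ∃ n, m = n + 2 := ⟨m - 2, by omega⟩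
    by_cases h1 : i + 1 = n + 2
    · obtain rfl : i = n + 1 := by omega
      have hL : lst (n + 2) (n + 1) = n := by simp [lst]
      rw [hL]
      rcases Nat.lt_or_ge n u with h2 | h2
      · rw [sk_lt h2]
        rcases Nat.lt_or_ge (n + 1) u with h3 | h3
        · obtain rfl : u = n + 2 := by omega
          rw [sk_lt h3]
          have h4 : lst (n + 2 + 2) (n + 1) = n + 3 := by simp [lst]
          rw [h4]
          exact W'.trans (hb n (by omega)) (hthr (n + 1) (by omega) (by omega) (by omega))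
        · obtain rfl : u = n + 1 := by omega
          rw [sk_ge h3]
          have h4 : lst (n + 2 + 2) (n + 1 + 2) = n + 2 := by simp [lst]
          rw [h4]
          exact W'.trans (ha (n + 1 + 2) n (by omega) (by omega) (by omega) (by omega))
            (hthr (n + 1 + 2) (by omega) (by omega) (by omega))
      · rw [sk_ge h2, sk_ge (by omega : u ≤ n + 1)]
        have h4 : lst (n + 2 + 2) (n + 1 + 2) = n + 2 := by simp [lst]
        rw [h4]
    · have hL : lst (n + 2) i = n + 1 := by simp [lst]; omega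
      rw [hL]
      rcases Nat.lt_or_ge (n + 1) u with h2 | h2
      · obtain rfl : u = n + 2 := by omega
        rw [sk_lt h2, sk_lt hi]
        have h4 : lst (n + 2 + 2) i = n + 3 := by simp [lst]; omega
        rw [h4]
        exact W'.trans (ha i (n + 1) (by omega) (by omega) (by omega) (by omega))
          (hthr i (by omega) (by omega) (by omega))
      · rw [sk_ge h2]
        have h4 : lst (n + 2 + 2) (sk u i) = n + 1 + 2 := by
          unfold lst sk
          split_ifs <;> omega
        rw [h4]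
  have hB : W' (P (sk u i) (fst' (sk u i)) false) (P (sk u i) (sk u (fst' i)) false) := by
    rcases Nat.eq_zero_or_pos i with h1 | h1
    · subst h1
      have hF : fst' 0 = 1 := by simp [fst']
      rw [hF]
      rcases Nat.lt_or_ge 1 u with h2 | h2
      · rw [sk_lt (by omega : 0 < u), sk_lt h2, hF]
      · rcases Nat.eq_zero_or_pos u with h3 | h3
        · subst h3
          rw [sk_ge (le_refl 0), sk_ge (by omega : 0 ≤ 1)]
          have h4 : fst' (0 + 2) = 0 := by simp [fst']
          rw [h4]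
          exact W'.trans (hthr (0 + 2) (by omega) (by omega) (by omega)) (hb 1 (by omega))
        · obtain rfl : u = 1 := by omega
          rw [sk_lt (by omega : 0 < 1), sk_ge (le_refl 1), hF]
          exact W'.trans (hthr 0 (by omega) (by omega) (by omega))
            (ha 0 2 (by omega) (by omega) (by omega) (by omega))
    · have hF : fst' i = 0 := by simp [fst']; omega
      have hF' : fst' (sk u i) = 0 := by
        unfold fst' sk
        split_ifs <;> omega
      rw [hF, hF']
      rcases Nat.eq_zero_or_pos u with h3 | h3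
      · subst h3
        rw [sk_ge (Nat.zero_le i), sk_ge (le_refl 0)]
        exact W'.trans (hthr (i + 2) (by omega) (by omega) (by omega))
          (ha (i + 2) 1 (by omega) (by omega) (by omega) (by omega))
      · rw [sk_lt h3]
  exact W'.trans hA (W'.trans hc hB)

theorem Lin_of_Cyc {n : ℕ} (h : Cyc (n + 1) P W) : Lin n P W :=
  ⟨fun i j h1 h2 h3 h4 => h.a i j (by omega) (by omega) h3 h4, fun i h1 => h.b i (by omega)⟩

theorem LinT_of_Lin {n : ℕ} (h : Lin (n + 1) P W) : LinT (n + 1) n P W :=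
  ⟨fun i j h1 h2 h3 h4 _ _ => h.a i j h1 h2 h3 h4, fun i h1 _ => h.b i h1⟩

theorem Lin_of_LinT {n : ℕ} (h : LinT (n + 1) n P W) : Lin (n + 1) P W :=
  ⟨fun i j h1 h2 h3 h4 => h.a i j h1 h2 h3 h4 (by omega) (by omega),
    fun i h1 => h.b i h1 (by omega)⟩

theorem LinT_mono {j j' : ℕ} (h : LinT m j P W) (hj : j' ≤ j) (hle : W ≤ W') :
    LinT m j' P W' :=
  ⟨fun i l h1 h2 h3 h4 h5 h6 => hle (h.a i l h1 h2 h3 h4 (fun h => (h5 h).trans_le hj)
      (fun h => (h6 h).trans_le hj)),
    fun i h1 h2 => hle (h.b i h1 (fun h => (h2 h).trans_le hj))⟩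

theorem Lin_mono (h : Lin m P W) (hle : W ≤ W') : Lin m P W' :=
  ⟨fun i j h1 h2 h3 h4 => hle (h.a i j h1 h2 h3 h4), fun i h1 => hle (h.b i h1)⟩

theorem Lin_of_LinT0 {n : ℕ} (h : LinT (n + 1) 0 P W) : Lin n P W :=
  ⟨fun i j h1 h2 h3 h4 => h.a i j (by omega) (by omega) h3 h4 (by omega) (by omega),
    fun i h1 => h.b i (by omega) (by omega)⟩

private lemma mem_fl {m i j : ℕ} : (i, j) ∈ fl m ↔ i < j ∧ j < m := by
  simp only [fl, Finset.mem_filter, Finset.mem_product, Finset.mem_range]
  omega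

private lemma mem_tr {m k i j : ℕ} :
    (i, j) ∈ tr m k ↔ i < j ∧ j < m ∧ (j + 1 = m → i < k) := by
  simp only [tr, Finset.mem_filter, Finset.mem_product, Finset.mem_range]
  omega

private lemma mem_Tall {m u i j : ℕ} :
    (i, j) ∈ Tall m u ↔ i < j ∧ j < m ∧ (i = u ∨ i = u + 1 ∨ j = u ∨ j = u + 1) := by
  simp only [Tall, Finset.mem_filter, mem_fl]
  omega

private lemma mem_skf_fl {m u i j : ℕ} (hu : u < m + 1) : (i, j) ∈ (fl m).image (skf u) ↔
    i < j ∧ j < m + 2 ∧ i ≠ u ∧ i ≠ u + 1 ∧ j ≠ u ∧ j ≠ u + 1 := by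
  rw [Finset.mem_image]
  constructor
  · rintro ⟨⟨a, b⟩, h1, h2⟩
    rw [mem_fl] at h1
    have h3 : sk u a = i := congrArg Prod.fst h2
    have h4 : sk u b = j := congrArg Prod.snd h2
    unfold sk at h3 h4
    split_ifs at h3 h4 <;> omega
  · rintro ⟨h1, h2, h3, h4, h5, h6⟩
    refine ⟨(if i < u then i else i - 2, if j < u then j else j - 2), ?_, ?_⟩
    · rw [mem_fl]
      split_ifs <;> omega
    · refine Prod.ext ?_ ?_
      · change sk u (if i < u then i else i - 2) = i
        unfold sk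
        split_ifs <;> omega
      · change sk u (if j < u then j else j - 2) = j
        unfold sk
        split_ifs <;> omega

private lemma mem_skf_tr {m u i j : ℕ} (hu : u < m) : (i, j) ∈ (tr m u).image (skf u) ↔
    i < j ∧ j < m + 2 ∧ (j = m + 1 → i < u) ∧ i ≠ u ∧ i ≠ u + 1 ∧ j ≠ u ∧ j ≠ u + 1 := by
  rw [Finset.mem_image]
  constructor
  · rintro ⟨⟨a, b⟩, h1, h2⟩
    rw [mem_tr] at h1
    have h3 : sk u a = i := congrArg Prod.fst h2
    have h4 : sk u b = j := congrArg Prod.snd h2
    unfold sk at h3 h4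
    split_ifs at h3 h4 <;> omega
  · rintro ⟨h1, h2, h3, h4, h5, h6, h7⟩
    refine ⟨(if i < u then i else i - 2, if j < u then j else j - 2), ?_, ?_⟩
    · rw [mem_tr]
      split_ifs <;> omega
    · refine Prod.ext ?_ ?_
      · change sk u (if i < u then i else i - 2) = i
        unfold sk
        split_ifs <;> omega
      · change sk u (if j < u then j else j - 2) = j
        unfold sk
        split_ifs <;> omega

private lemma op_eq {a b i j : ℕ} (h : a ≠ b) :
    op a b = (i, j) ↔ (i = a ∧ j = b ∧ i < j) ∨ (i = b ∧ j = a ∧ i < j) := by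
  unfold op
  split_ifs with h1
  · rw [Prod.mk.injEq]
    omega
  · rw [Prod.mk.injEq]
    omega

private lemma mem_op {u i j : ℕ} :
    (i, j) ∈ ({op u (u + 1)} : Finset (ℕ × ℕ)) ↔ i = u ∧ j = u + 1 := by
  rw [Finset.mem_singleton, eq_comm, op_eq (by omega)]
  omega

private lemma mem_ev_lo {u i j : ℕ} :
    (i, j) ∈ ev u (u + 1) 0 u ↔ i < u ∧ (j = u ∨ j = u + 1) := by
  simp only [ev, Finset.mem_union, Finset.mem_image, Finset.mem_Ico]
  constructor
  · rintro (⟨w, ⟨_, hw⟩, h1⟩ | ⟨w, ⟨_, hw⟩, h1⟩)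
    · rw [op_eq (by omega)] at h1
      omega
    · rw [op_eq (by omega)] at h1
      omega
  · rintro ⟨h1, h2 | h2⟩
    · exact Or.inl ⟨i, ⟨Nat.zero_le _, h1⟩, (op_eq (by omega)).2 (by omega)⟩
    · exact Or.inr ⟨i, ⟨Nat.zero_le _, h1⟩, (op_eq (by omega)).2 (by omega)⟩

private lemma mem_ev_hi {u i j hi : ℕ} :
    (i, j) ∈ ev u (u + 1) (u + 2) hi ↔ (i = u ∨ i = u + 1) ∧ u + 2 ≤ j ∧ j < hi := by
  simp only [ev, Finset.mem_union, Finset.mem_image, Finset.mem_Ico]
  constructor
  · rintro (⟨w, ⟨hw1, hw2⟩, h1⟩ | ⟨w, ⟨hw1, hw2⟩, h1⟩)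
    · rw [op_eq (by omega)] at h1
      omega
    · rw [op_eq (by omega)] at h1
      omega
  · rintro ⟨h2 | h2, h3, h4⟩
    · exact Or.inl ⟨j, ⟨h3, h4⟩, (op_eq (by omega)).2 (by omega)⟩
    · exact Or.inr ⟨j, ⟨h3, h4⟩, (op_eq (by omega)).2 (by omega)⟩

theorem tr_full (n : ℕ) : tr (n + 1) n = fl (n + 1) := by
  ext ⟨i, j⟩
  rw [mem_tr, mem_fl]
  omega

theorem tr_zero (n : ℕ) : tr (n + 1) 0 = fl n := by
  ext ⟨i, j⟩
  rw [mem_tr, mem_fl]
  omega

theorem tr_succ {n k : ℕ} (hk : k < n) : tr (n + 1) (k + 1) = insert (k, n) (tr (n + 1) k) := by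
  ext ⟨i, j⟩
  rw [Finset.mem_insert, mem_tr, mem_tr, Prod.mk.injEq]
  omega

theorem not_mem_tr {n k : ℕ} : (k, n) ∉ tr (n + 1) k := by
  rw [mem_tr]
  omega

theorem skf_inj (u : ℕ) : Function.Injective (skf u) := by
  rintro ⟨a, b⟩ ⟨c, d⟩ h
  have h1 : sk u a = sk u c := congrArg Prod.fst h
  have h2 : sk u b = sk u d := congrArg Prod.snd h
  rw [Prod.mk.injEq]
  unfold sk at h1 h2
  constructor
  · split_ifs at h1 <;> omega
  · split_ifs at h2 <;> omega

theorem fl_split (hu : u < m + 1) :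
    fl (m + 2) = (fl m).image (skf u) ∪ Tall (m + 2) u ∧
      Disjoint ((fl m).image (skf u)) (Tall (m + 2) u) := by
  constructor
  · ext ⟨i, j⟩
    rw [Finset.mem_union, mem_skf_fl hu, mem_Tall, mem_fl]
    omega
  · rw [Finset.disjoint_left]
    rintro ⟨i, j⟩ h1 h2
    rw [mem_skf_fl hu] at h1
    rw [mem_Tall] at h2
    omega

/-- The crossings removed in the absorption. -/
theorem Tall_abs (hu : u < m + 1) :
    Tall (m + 2) u = (ev u (u + 1) (u + 2) (m + 2) ∪ {op u (u + 1)}) ∪ ev u (u + 1) 0 u ∧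
      Disjoint (ev u (u + 1) (u + 2) (m + 2)) {op u (u + 1)} ∧
      Disjoint (ev u (u + 1) (u + 2) (m + 2) ∪ {op u (u + 1)}) (ev u (u + 1) 0 u) := by
  refine ⟨?_, ?_, ?_⟩
  · ext ⟨i, j⟩
    rw [Finset.mem_union, Finset.mem_union, mem_Tall, mem_ev_hi, mem_ev_lo, mem_op]
    omega
  · rw [Finset.disjoint_left]
    rintro ⟨i, j⟩ h1 h2
    rw [mem_ev_hi] at h1
    rw [mem_op] at h2
    omega
  · rw [Finset.disjoint_left]
    rintro ⟨i, j⟩ h1 h2
    rw [Finset.mem_union, mem_ev_hi, mem_op] at h1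
    rw [mem_ev_lo] at h2
    omega

/-- The crossings removed in the step `(n, k) → (n - 2, k - 1)`, `n = m + 2`, `2 ≤ k`. -/
theorem tr_split (hu : u < m) :
    tr (m + 2) u = (tr m u).image (skf u) ∪
        ((ev u (u + 1) 0 u ∪ {op u (u + 1)}) ∪ ev u (u + 1) (u + 2) (m + 1)) ∧
      Disjoint ((tr m u).image (skf u))
        ((ev u (u + 1) 0 u ∪ {op u (u + 1)}) ∪ ev u (u + 1) (u + 2) (m + 1)) ∧
      Disjoint (ev u (u + 1) 0 u) {op u (u + 1)} ∧
      Disjoint (ev u (u + 1) 0 u ∪ {op u (u + 1)}) (ev u (u + 1) (u + 2) (m + 1)) := by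
  refine ⟨?_, ?_, ?_, ?_⟩
  · ext ⟨i, j⟩
    rw [Finset.mem_union, Finset.mem_union, Finset.mem_union, mem_skf_tr hu, mem_tr, mem_ev_hi,
      mem_ev_lo, mem_op]
    omega
  · rw [Finset.disjoint_left]
    rintro ⟨i, j⟩ h1 h2
    rw [mem_skf_tr hu] at h1
    rw [Finset.mem_union, Finset.mem_union, mem_ev_hi, mem_ev_lo, mem_op] at h2
    omega
  · rw [Finset.disjoint_left]
    rintro ⟨i, j⟩ h1 h2
    rw [mem_ev_lo] at h1
    rw [mem_op] at h2
    omega
  · rw [Finset.disjoint_left]
    rintro ⟨i, j⟩ h1 h2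
    rw [Finset.mem_union, mem_ev_lo, mem_op] at h1
    rw [mem_ev_hi] at h2
    omega

/-- The crossings removed in the step `(n, 1) → (n - 2, 1)`, `n = m + 2`. -/
theorem tr_split1 (m : ℕ) :
    tr (m + 2) m = fl m ∪ ev m (m + 1) 0 m ∧ Disjoint (fl m) (ev m (m + 1) 0 m) := by
  constructor
  · ext ⟨i, j⟩
    rw [Finset.mem_union, mem_tr, mem_fl, mem_ev_lo]
    omega
  · rw [Finset.disjoint_left]
    rintro ⟨i, j⟩ h1 h2
    rw [mem_fl] at h1
    rw [mem_ev_lo] at h2
    omega

private lemma card_tr (n : ℕ) : ∀ k, k ≤ n → (tr (n + 1) k).card = (fl n).card + k := by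
  intro k
  induction k with
  | zero =>
    intro _
    rw [tr_zero, add_zero]
  | succ k ih =>
    intro hk
    rw [tr_succ (by omega), Finset.card_insert_of_notMem not_mem_tr, ih (by omega), add_assoc]

private lemma card_fl' : ∀ m : ℕ, 2 * (fl m).card = m * (m - 1)
  | 0 => by simp [fl]
  | m + 1 => by
    have h := card_fl' m
    rw [← tr_full, card_tr m m le_rfl, mul_add, h]
    cases m with
    | zero => rfl
    | succ k =>
      simp only [Nat.add_sub_cancel]
      ring

theorem card_fl (m : ℕ) : (fl m).card = m * (m - 1) / 2 := by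
  have := card_fl' m
  omega

theorem card_Tall (hu : u < m + 1) : (Tall (m + 2) u).card = 2 * m + 1 := by
  obtain ⟨h1, h2⟩ := fl_split hu
  have h3 := congrArg Finset.card h1
  rw [Finset.card_union_of_disjoint h2, Finset.card_image_of_injective _ (skf_inj u)] at h3
  have h4 := card_fl' (m + 2)
  have h5 := card_fl' m
  cases m with
  | zero =>
    rw [Nat.zero_mul] at h5
    rw [show (0 + 2) * (0 + 2 - 1) = 2 from rfl] at h4
    omega
  | succ k =>
    simp only [Nat.add_sub_cancel] at h5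
    have h6 : (k + 1 + 2) * (k + 1 + 2 - 1) = (k + 1) * k + 2 * (2 * (k + 1) + 1) := by
      rw [show k + 1 + 2 - 1 = k + 2 from rfl]
      ring
    rw [h6] at h4
    omega

end Pool.HPS
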