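import Pool.Agent.HPS.Sad

/-!
# Module HPS-Triv: trivial cases

Exactness when there are no states in the degree or when the predicate fails on all of them,
exactness for a parity-like predicate from exactness with the trivial predicate, and systems
without crossings.
-/

set_option autoImplicit false

open Finset MvPolynomial

namespace Pool.HPS

variable {Pt ι : Type} [DecidableEq ι] {W : Setoid Pt} {x : ι → Fin 4 → Pt} {S : Finset ι}
  {E : Setoid Pt → ℕ → Prop}

theorem Ex_card {h : ℕ} (hS : S.card < h) : Ex E W x S h := by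
  intro f _
  refine ⟨fun _ => 0, fun r hr hc => ?_⟩
  exact absurd (Finset.card_le_card hr) (by omega)

theorem Ex_not {h : ℕ} (hN : ∀ r, r ⊆ S → r.card = h → ¬ E (U W x S r) h) : Ex E W x S h := by
  intro f _
  refine ⟨fun _ => 0, fun r hr hc => ?_⟩
  rw [J_not (hN r hr hc)]
  exact Submodule.mem_top

theorem kap_neutral2 (hE : EOk E) (h : Legit W x S) {r : Finset ι}
    (hr : r ⊆ S) {c : ι} (hc : c ∈ r) {k : ℕ} (h0 : E (U W x S (r.erase c)) k)
    (h1 : ¬ E (U W x S r) (k + 1)) :
    kap (U W x S (r.erase c)) (x c) ∈ I (U W x S r) := by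
  have hcS : c ∈ S := hr hc
  have e0 : U W x S (r.erase c) = U W x (S.erase c) (r.erase c) ⊔ s0 (x c) :=
    U_last0 hcS (Finset.notMem_erase c r)
  have e1 : U W x S r = U W x (S.erase c) (r.erase c) ⊔ s1 (x c) := by
    rw [U_last1 hcS hc]
    congr 1
    apply U_congr
    intro d hd
    have hne : d ≠ c := (Finset.mem_erase.1 hd).1
    simp [hne]
  have hl := legit_one h hcS (r.erase c)
  rw [e0] at h0
  rw [e1] at h1
  rw [e0, e1]
  rcases sad_U hl with ⟨_, h3, h4⟩ | ⟨h2, _, h4⟩ | ⟨h2, h3, _⟩
  · exfalso
    rw [h4] at h0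
    exact h1 ((hE.dn _ _ _ _ h3).1 h0)
  · exfalso
    rw [h4] at h1
    exact h1 ((hE.up _ _ _ _ h2).2 h0)
  · rw [kap, if_pos h2]
    exact mem_I h3

theorem Ex_of_tt (hE : EOk E) (hL : Legit W x S) {h : ℕ} (H : Ex tt W x S h) :
    Ex E W x S h := by
  classical
  intro f hf
  have hH := H (fun r => if E (U W x S r) h then f r else 0) ?_
  · obtain ⟨g, hg⟩ := hH
    refine ⟨g, fun r hr hc => ?_⟩
    by_cases hEr : E (U W x S r) h
    · have h1 := hg r hr hc
      rw [J_of (E := tt) (V := U W x S r) (k := h) trivial] at h1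
      simp only [if_pos hEr] at h1
      rw [J_of hEr]
      exact h1
    · rw [J_not hEr]
      exact Submodule.mem_top
  · intro r hr hc
    rw [J_of (E := tt) (V := U W x S r) (k := h + 1) trivial]
    by_cases hEr : E (U W x S r) (h + 1)
    · have h1 := hf r hr hc
      rw [J_of hEr] at h1
      have h2 : bd W x S (fun r => if E (U W x S r) h then f r else 0) r =
          bd W x S f r - ∑ c ∈ r, kap (U W x S (r.erase c)) (x c) *
            (if E (U W x S (r.erase c)) h then 0 else f (r.erase c)) := by
        rw [bd, bd, ← Finset.sum_sub_distrib]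
        apply Finset.sum_congr rfl
        intro c _
        by_cases h3 : E (U W x S (r.erase c)) h
        · simp only [if_pos h3]
          ring
        · simp only [if_neg h3]
          ring
      rw [h2]
      refine Ideal.sub_mem _ h1 (Ideal.sum_mem _ fun c hcr => ?_)
      by_cases h3 : E (U W x S (r.erase c)) h
      · rw [if_pos h3, mul_zero]
        exact Ideal.zero_mem _
      · rw [if_neg h3]
        exact Ideal.mul_mem_right _ _ (kap_neutral hE hL hr hcr h3 hEr)
    · rw [bd]
      refine Ideal.sum_mem _ fun c hcr => ?_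
      by_cases h3 : E (U W x S (r.erase c)) h
      · simp only [if_pos h3]
        exact Ideal.mul_mem_right _ _ (kap_neutral2 hE hL hr hcr h3 hEr)
      · simp only [if_neg h3, mul_zero]
        exact Ideal.zero_mem _

theorem Bd_empty {t : Rg Pt} (H : Bd E W x ∅ ∅ t) : t ∈ J E W 0 := by
  obtain ⟨g, hg⟩ := H
  have h1 := hg ∅ (Finset.Subset.refl _) rfl
  rw [if_pos rfl, bd, Finset.sum_empty, add_zero, U_empty, Finset.card_empty] at h1
  exact h1

/-- Exactness with the trivial predicate does not depend on shifts. -/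
theorem Ex_tt_shN {N h : ℕ} : Ex (shN N tt) W x S h ↔ Ex tt W x S h := Iff.rfl

end Pool.HPS
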