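import Pool.Agent.HPS.Run
import Pool.Agent.HPS.Rem
import Pool.Agent.HPS.Triv

/-!
# Module HPS-Absorb: a half twist on `m + 2` strands with two adjacent ends joined

The finger formed by the ends of the strands `u` and `u + 1` is retracted across all other
strands; the remaining half twist has `m` strands.
-/

set_option autoImplicit false

open Finset MvPolynomial

namespace Pool.HPS

theorem sq_div (m : ℕ) : (m + 2) ^ 2 / 4 = m ^ 2 / 4 + m + 1 := by
  have h : (m + 2) ^ 2 = m ^ 2 + 4 * (m + 1) := by ring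
  rw [h]
  omega

private lemma U_comp {Pt ι : Type} [DecidableEq ι] {W : Setoid Pt} {x : ι → Fin 4 → Pt}
    {T r T' r' : Finset ι} (hT : Disjoint T T') (hr : r ⊆ T) (hr' : r' ⊆ T') :
    U W x (T ∪ T') (r ∪ r') = U (U W x T r) x T' r' := by
  rw [U_union]
  have h1 : U W x T (r ∪ r') = U W x T r := by
    apply U_congr
    intro c hc
    constructor
    · intro h
      rcases Finset.mem_union.1 h with h | h
      · exact h
      · exact absurd (hr' h) (Finset.disjoint_left.1 hT hc)
    · intro h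
      exact Finset.mem_union_left _ h
  rw [h1]
  apply U_congr
  intro c hc
  constructor
  · intro h
    rcases Finset.mem_union.1 h with h | h
    · exact absurd hc (Finset.disjoint_left.1 hT (hr h))
    · exact h
  · intro h
    exact Finset.mem_union_right _ h

private lemma on_sub_ev {u v lo hi : ℕ} : on v lo hi ⊆ ev u v lo hi :=
  Finset.subset_union_right

private lemma ev_empty {u v lo : ℕ} : ev u v lo lo = ∅ := by
  simp [ev]

private lemma on_empty {v lo : ℕ} : on v lo lo = ∅ := by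
  simp [on]

private lemma stepA {m u : ℕ} (hu : u < m + 1) {Pt : Type} {W : Setoid Pt}
    {P : ℕ → ℕ → Bool → Pt} (hLin : Lin (m + 2) P W)
    (ht : W (P u (lst (m + 2) u) true) (P (u + 1) (lst (m + 2) (u + 1)) true)) :
    Rd W (qd P) (ev u (u + 1) (u + 2) (m + 2)) (on (u + 1) (u + 2) (m + 2)) (m - u) ∧
    (∀ w, u + 2 ≤ w → w < m + 2 →
      U W (qd P) (ev u (u + 1) (u + 2) (m + 2)) (on (u + 1) (u + 2) (m + 2))
        (P w u false) (P w (u + 1) true)) ∧
    U W (qd P) (ev u (u + 1) (u + 2) (m + 2)) (on (u + 1) (u + 2) (m + 2))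
      (P u (u + 1) true) (P (u + 1) u true) := by
  rcases Nat.lt_or_ge u m with hum | hum
  · have hW : Wir W P u (u + 1) (u + 2) (m + 2) :=
      ⟨fun w h1 h2 => hLin.a w u h2 (by omega) (by omega) (by omega),
       fun w h1 h2 => hLin.a u w (by omega) h2 (by omega) (by omega),
       fun w h1 h2 => hLin.a (u + 1) w (by omega) h2 (by omega) (by omega)⟩
    have l1 : lst (m + 2) u = m + 1 := by
      rw [lst, if_neg (by omega)]
      omega
    have l2 : lst (m + 2) (u + 1) = m + 1 := by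
      rw [lst, if_neg (by omega)]
      omega
    rw [l1, l2] at ht
    obtain ⟨hR, -, hF⟩ := ET_run (u := u) (v := u + 1) (lo := u + 2) (hi := m + 2) (by omega)
      (by simp) (by simp) (by omega) hW ht
    have hN : m + 2 - (u + 2) = m - u := by omega
    rw [hN] at hR
    refine ⟨hR, fun w h1 h2 => (hF w h1 h2).2.2, ?_⟩
    have f1 := (hF (u + 2) (le_refl _) (by omega)).1
    have f2 := le_U (W := W) (x := qd P) (S := ev u (u + 1) (u + 2) (m + 2))
      (r := on (u + 1) (u + 2) (m + 2)) (hLin.a u (u + 1) (by omega) (by omega) (by omega)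
        (by omega))
    have f3 := le_U (W := W) (x := qd P) (S := ev u (u + 1) (u + 2) (m + 2))
      (r := on (u + 1) (u + 2) (m + 2)) (hLin.b u (by omega))
    exact Setoid.trans' _ f2 (Setoid.trans' _ f1 (Setoid.symm' _ f3))
  · have hum' : u = m := by omega
    subst hum'
    have l1 : lst (u + 2) u = u + 1 := by
      rw [lst, if_neg (by omega)]
      omega
    have l2 : lst (u + 2) (u + 1) = u := by
      rw [lst, if_pos (by omega)]
      omega
    rw [l1, l2] at ht
    rw [ev_empty, on_empty, Nat.sub_self, U_empty]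
    exact ⟨Rd_zero W (qd P), fun w h1 h2 => by omega, ht⟩

private lemma stepB {u : ℕ} {Pt : Type} {W : Setoid Pt} {P : ℕ → ℕ → Bool → Pt}
    (ht : W (P u (u + 1) true) (P (u + 1) u true)) :
    Rd W (qd P) {op u (u + 1)} ∅ 1 ∧
      U W (qd P) {op u (u + 1)} ∅ (P u (u + 1) false) (P (u + 1) u false) := by
  refine ⟨KE (by omega) ht, ?_⟩
  have h1 := U_rel0 (W := W) (x := qd P) (S := {op u (u + 1)}) (r := ∅) (c := op u (u + 1))
    (Finset.mem_singleton_self _) (Finset.notMem_empty _)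
  have h2 : op u (u + 1) = (u, u + 1) := by
    rw [op, if_pos (by omega)]
  have h3 := le_U (W := W) (x := qd P) (S := {op u (u + 1)}) (r := ∅) ht
  have h4 : U W (qd P) {op u (u + 1)} ∅ (P u (u + 1) false) (P (u + 1) u true) := by
    have := h1.1
    rw [h2] at this ⊢
    simpa [qd] using this
  have h5 : U W (qd P) {op u (u + 1)} ∅ (P (u + 1) u false) (P u (u + 1) true) := by
    have := h1.2
    rw [h2] at this ⊢
    simpa [qd] using this
  exact Setoid.trans' _ h4 (Setoid.trans' _ (Setoid.symm' _ h3) (Setoid.symm' _ h5))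

private lemma stepC {m u : ℕ} (hu : u < m + 1) {Pt : Type} {W : Setoid Pt}
    {P : ℕ → ℕ → Bool → Pt} (hLin : Lin (m + 2) P W)
    (ht : W (P u (u + 1) false) (P (u + 1) u false)) :
    Rd W (qd P) (ev u (u + 1) 0 u) (on (u + 1) 0 u) u ∧
    (∀ w, w < u → U W (qd P) (ev u (u + 1) 0 u) (on (u + 1) 0 u)
        (P w u false) (P w (u + 1) true)) := by
  rcases Nat.eq_zero_or_pos u with h0 | h0
  · subst h0
    rw [ev_empty, on_empty]
    exact ⟨Rd_zero W (qd P), fun w h1 => by omega⟩
  · have hW : Wir W P u (u + 1) 0 u :=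
      ⟨fun w h1 h2 => hLin.a w u (by omega) (by omega) (by omega) (by omega),
       fun w h1 h2 => hLin.a u w (by omega) (by omega) (by omega) (by omega),
       fun w h1 h2 => hLin.a (u + 1) w (by omega) (by omega) (by omega) (by omega)⟩
    have f1 : W (P u (u - 1) true) (P u (u + 1) false) := by
      have := hLin.b (u - 1) (by omega)
      have e1 : u - 1 + 1 = u := by omega
      have e2 : u - 1 + 2 = u + 1 := by omega
      rw [e1, e2] at this
      exact this
    have f2 : W (P (u + 1) (u - 1) true) (P (u + 1) u false) := by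
      have := hLin.a (u + 1) (u - 1) (by omega) (by omega) (by omega) (by omega)
      have e1 : u - 1 + 1 = u := by omega
      rw [e1] at this
      exact this
    obtain ⟨hR, -, hF⟩ := ET_run (u := u) (v := u + 1) (lo := 0) (hi := u) (by omega)
      (by simp) (by simp) h0 hW
      (Setoid.trans' _ f1 (Setoid.trans' _ ht (Setoid.symm' _ f2)))
    rw [Nat.sub_zero] at hR
    exact ⟨hR, fun w h1 => (hF w (Nat.zero_le _) h1).2.2⟩

theorem absorb {m u : ℕ} (hB : BB m) (hu : u < m + 1) {Pt : Type} {W : Setoid Pt}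
    {P : ℕ → ℕ → Bool → Pt} (hLin : Lin (m + 2) P W) (hL : Legit W (qd P) (fl (m + 2)))
    (ht : W (P u (lst (m + 2) u) true) (P (u + 1) (lst (m + 2) (u + 1)) true)) {h : ℕ}
    (hh : (m + 2) ^ 2 / 4 < h) : Ex tt W (qd P) (fl (m + 2)) h := by
  obtain ⟨hTall, hd1, hd2⟩ := Tall_abs hu
  obtain ⟨hsplit, hd3⟩ := fl_split hu
  obtain ⟨RA, FA, tA⟩ := stepA hu hLin ht
  obtain ⟨RB, tB⟩ := stepB tA
  have hr1 : on (u + 1) (u + 2) (m + 2) ⊆ ev u (u + 1) (u + 2) (m + 2) := on_sub_ev
  have hr2 : (∅ : Finset (ℕ × ℕ)) ⊆ {op u (u + 1)} := Finset.empty_subset _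
  have hr12 : on (u + 1) (u + 2) (m + 2) ∪ ∅ ⊆
      ev u (u + 1) (u + 2) (m + 2) ∪ {op u (u + 1)} := Finset.union_subset_union hr1 hr2
  have hr3 : on (u + 1) 0 u ⊆ ev u (u + 1) 0 u := on_sub_ev
  have RAB := Rd_comp hd1 hr1 hr2 RA RB
  rw [← U_comp hd1 hr1 hr2] at tB
  have hLinB : Lin (m + 2) P (U W (qd P) (ev u (u + 1) (u + 2) (m + 2) ∪ {op u (u + 1)})
      (on (u + 1) (u + 2) (m + 2) ∪ ∅)) := Lin_mono hLin le_U
  obtain ⟨RC, FC⟩ := stepC hu hLinB tB
  have R := Rd_comp hd2 hr12 hr3 RAB RC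
  rw [← U_comp hd2 hr12 hr3] at FC
  rw [← hTall] at R FC
  have hthr : ∀ w, w < m + 2 → w ≠ u → w ≠ u + 1 →
      U W (qd P) (Tall (m + 2) u) (on (u + 1) (u + 2) (m + 2) ∪ ∅ ∪ on (u + 1) 0 u)
        (P w u false) (P w (u + 1) true) := by
    intro w h1 h2 h3
    rcases Nat.lt_or_ge w u with h4 | h4
    · exact FC w h4
    · have h5 := FA w (by omega) h1
      rw [hTall, U_comp hd2 hr12 hr3, U_comp hd1 hr1 hr2]
      exact le_U (le_U h5)
  have hLm : Lin m (skP u P) (U W (qd P) (Tall (m + 2) u)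
      (on (u + 1) (u + 2) (m + 2) ∪ ∅ ∪ on (u + 1) 0 u)) := Lin_rem hLin le_U hu hthr
  rw [hsplit] at hL
  have hinj : Set.InjOn (skf u) ((fl m : Finset (ℕ × ℕ)) : Set (ℕ × ℕ)) :=
    (skf_inj u).injOn
  have hLg := legit_image (skf u) (fl m) hinj (legit_U hL hd3
    (on (u + 1) (u + 2) (m + 2) ∪ ∅ ∪ on (u + 1) 0 u))
  have hsq := sq_div m
  have hEx := hB Pt _ (skP u P) hLm hLg (h - (m + 1)) (by omega)
  have hEx2 := Ex_image (E := tt) (x := qd P) (skf u) (fl m) hinj hEx
  have hEx3 := R tt EOk_tt ((fl m).image (skf u)) hd3 hL (h - (m + 1)) (Ex_tt_shN.2 hEx2)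
  have hN : h - (m + 1) + (m - u + 1 + u) = h := by omega
  rw [hN, ← hsplit] at hEx3
  exact hEx3

end Pool.HPS
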