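import Pool.Agent.HPS.Dd

/-!
# Module HPS-Cone: the cone of a crossing (imports Dd; use it)

PLAN (`cone`).  `f` a cocycle of `insert c S` in degree `h + 1`.  For `r ⊆ S`, `|r| = h + 2`: `bd_ins0` shows that `f` is a cocycle
of `(W ⊔ s0 (x c), S)`; let `g0` be the primitive given by `h0`.  Let `f1 r := f (insert c r) + kap (U (W ⊔ s0 (x c)) x S r) (x c) * g0 r`
for `r ⊆ S`, `|r| = h`.  Claim: `f1` is a cocycle of `(W ⊔ s1 (x c), S)` in degree `h` for `shE E`: for `|r| = h + 1`, the cocycle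
condition of `f` at `insert c r` (card `h + 2`) reads (`bd_ins1`) `kap(U0 r) * f r + bd1 (f (insert c ·)) r ∈ J E (U (insert c r)) (h+2)`;
and `kap(U0 r) * f r ≡ kap(U0 r) * bd0 g0 r` (as `f r + bd0 g0 r ∈ J E (U0 r) (h+1)` and `kap_JU`), and
`kap(U0 r) * bd0 g0 r + bd1 (kap * g0) r ∈ I`, which is `bd_bd` at `insert c r` for the extension of `g0` by zero
(`g0' s = if c ∈ s then 0 else g0 s`).  Let `g1` be the primitive of `f1`; then `g s := if c ∈ s then g1 (s.erase c) else g0 s` works: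
for `r ⊆ S` it is the choice of `g0`; for `insert c r` use `bd_ins1`.
`U W x (insert c S) r = U (W ⊔ s0 (x c)) x S r` for `c ∉ r` and `U W x (insert c S) (insert c r) = U (W ⊔ s1 (x c)) x S (insert c r)
= U (W ⊔ s1 (x c)) x S r` (`U_ins0`, `U_ins1`, `U_congr`).  `cone_bd`: the same with the cochain concentrated at `insert c r0`:
on the 0-face `g` is a cocycle in degree `r0.card`, hence `g = bd0 h0` there; put `g1 s := g (insert c s) + kap * h0 s`.
-/

set_option autoImplicit false

open Finset MvPolynomial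

namespace Pool.HPS

variable {Pt ι : Type} [DecidableEq ι] {W : Setoid Pt} {x : ι → Fin 4 → Pt} {S : Finset ι}
  {c : ι} {E : Setoid Pt → ℕ → Prop}

private theorem cn_U1 (hc : c ∉ S) (r : Finset ι) :
    U W x (insert c S) (insert c r) = U (W ⊔ s1 (x c)) x S r := by
  rw [U_ins1 (Finset.mem_insert_self c _)]
  refine U_congr fun e he => ?_
  have hec : e ≠ c := fun h => hc (h ▸ he)
  simp [hec]

private theorem cn_two (a : Rg Pt) : a + a = 0 := CharTwo.add_self_eq_zero a

private theorem cn_J (E : Setoid Pt → ℕ → Prop) (V : Setoid Pt) (k : ℕ) :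
    J (shE E) V k = J E V (k + 1) := rfl

private theorem cn_mem {K : Ideal (Rg Pt)} {T A B C D : Rg Pt} (h1 : T + (A + B) ∈ K)
    (h2 : A + C ∈ K) (h3 : C + D ∈ K) : T + (B + D) ∈ K := by
  have h := K.add_mem (K.add_mem h1 h2) h3
  have e : T + (A + B) + (A + C) + (C + D) = T + (B + D) + (A + A) + (C + C) := by ring
  rw [e, cn_two, cn_two, add_zero, add_zero] at h
  exact h

private theorem cn_bdbd (hc : c ∉ S) (hL : Legit W x (insert c S)) (g0 : Finset ι → Rg Pt)
    {r : Finset ι} (hr : r ⊆ S) :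
    kap (U (W ⊔ s0 (x c)) x S r) (x c) * bd (W ⊔ s0 (x c)) x S g0 r +
      bd (W ⊔ s1 (x c)) x S (fun s => kap (U (W ⊔ s0 (x c)) x S s) (x c) * g0 s) r
      ∈ I (U (W ⊔ s1 (x c)) x S r) := by
  have hcr : ∀ {s : Finset ι}, s ⊆ S → c ∉ s := fun hs h => hc (hs h)
  have h := bd_bd hL (fun s => if c ∈ s then 0 else g0 s)
    (Finset.insert_subset_insert c hr)
  rw [cn_U1 hc, bd_ins1 hc _ hr, bd_ins0 hc _ hr] at h
  have e1 : bd (W ⊔ s0 (x c)) x S (fun s => if c ∈ s then 0 else g0 s) r =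
      bd (W ⊔ s0 (x c)) x S g0 r := by
    refine bd_congr fun d _ => ?_
    rw [if_neg (hcr ((Finset.erase_subset d r).trans hr))]
  have e2 : bd (W ⊔ s1 (x c)) x S
      (fun s => bd W x (insert c S) (fun s => if c ∈ s then 0 else g0 s) (insert c s)) r =
      bd (W ⊔ s1 (x c)) x S (fun s => kap (U (W ⊔ s0 (x c)) x S s) (x c) * g0 s) r := by
    refine bd_congr fun d _ => ?_
    have hs : r.erase d ⊆ S := (Finset.erase_subset d r).trans hr
    rw [bd_ins1 hc _ hs]
    simp only [Finset.mem_insert_self, if_true]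
    rw [if_neg (hcr hs)]
    have e3 : bd (W ⊔ s1 (x c)) x S (fun _ => (0 : Rg Pt)) (r.erase d) = 0 := by
      unfold bd
      exact Finset.sum_eq_zero fun _ _ => mul_zero _
    rw [e3, add_zero]
  rw [e1, e2] at h
  exact h

/-- The saddle at `c` applied to an element of the ideal of the 0-face. -/
private theorem cn_kap (hE : EOk E) (hc : c ∉ S) (hL : Legit W x (insert c S))
    {r : Finset ι} (hr : r ⊆ S) {k : ℕ} {f : Rg Pt} (hf : f ∈ J E (U (W ⊔ s0 (x c)) x S r) k) :
    kap (U (W ⊔ s0 (x c)) x S r) (x c) * f ∈ J E (U (W ⊔ s1 (x c)) x S r) (k + 1) := by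
  have hcr : c ∉ r := fun h => hc (hr h)
  have h := kap_JU (f := f) (k := k) hE hL (Finset.insert_subset_insert c hr)
    (Finset.mem_insert_self c r)
  rw [Finset.erase_insert hcr, U_ins0 hcr, cn_U1 hc] at h
  exact h hf

theorem cone (hE : EOk E) (hc : c ∉ S) (hL : Legit W x (insert c S)) {h : ℕ}
    (h0 : Ex E (W ⊔ s0 (x c)) x S (h + 1)) (h1 : Ex (shE E) (W ⊔ s1 (x c)) x S h) :
    Ex E W x (insert c S) (h + 1) := by
  intro f hf
  have hcr : ∀ {s : Finset ι}, s ⊆ S → c ∉ s := fun hs h => hc (hs h)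
  obtain ⟨g0, hg0⟩ := h0 f (by
    intro r hr hk
    have h2 := hf r (hr.trans (Finset.subset_insert c S)) hk
    rw [bd_ins0 hc _ hr, U_ins0 (hcr hr)] at h2
    exact h2)
  obtain ⟨g1, hg1⟩ := h1
    (fun r => f (insert c r) + kap (U (W ⊔ s0 (x c)) x S r) (x c) * g0 r) (by
    intro r hr hk
    have h2 := hf (insert c r) (Finset.insert_subset_insert c hr) (by
      rw [Finset.card_insert_of_notMem (hcr hr), hk])
    rw [bd_ins1 hc _ hr, cn_U1 hc] at h2
    have h3 := cn_kap hE hc hL hr (hg0 r hr hk)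
    rw [mul_add] at h3
    have h4 := I_le_J (E := E) (k := h + 1 + 1) (cn_bdbd hc hL g0 hr)
    rw [cn_J, bd_add]
    have h5 := cn_mem (T := 0) (by rw [zero_add]; exact h2) h3 h4
    rw [zero_add] at h5
    exact h5)
  refine ⟨fun s => if c ∈ s then g1 (s.erase c) else g0 s, fun r hr hk => ?_⟩
  by_cases hcr' : c ∈ r
  · have hr' : r.erase c ⊆ S := by
      intro d hd
      rw [Finset.mem_erase] at hd
      exact (Finset.mem_insert.1 (hr hd.2)).resolve_left hd.1
    have hk' : (r.erase c).card = h := by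
      rw [Finset.card_erase_of_mem hcr', hk]
      rfl
    have h2 := hg1 _ hr' hk'
    rw [cn_J] at h2
    rw [← Finset.insert_erase hcr', bd_ins1 hc _ hr', cn_U1 hc, if_neg (Finset.notMem_erase c r)]
    have e1 : bd (W ⊔ s1 (x c)) x S
        (fun s => if c ∈ insert c s then g1 ((insert c s).erase c) else g0 (insert c s))
        (r.erase c) = bd (W ⊔ s1 (x c)) x S g1 (r.erase c) := by
      refine bd_congr fun d _ => ?_
      rw [if_pos (Finset.mem_insert_self _ _), Finset.erase_insert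
        (hcr ((Finset.erase_subset d _).trans hr'))]
    rw [e1, ← add_assoc]
    exact h2
  · have hr' : r ⊆ S := by
      intro d hd
      refine (Finset.mem_insert.1 (hr hd)).resolve_left ?_
      rintro rfl
      exact hcr' hd
    have h2 := hg0 r hr' hk
    rw [bd_ins0 hc _ hr', U_ins0 hcr']
    have e1 : bd (W ⊔ s0 (x c)) x S (fun s => if c ∈ s then g1 (s.erase c) else g0 s) r =
        bd (W ⊔ s0 (x c)) x S g0 r := by
      refine bd_congr fun d _ => ?_
      rw [if_neg (hcr ((Finset.erase_subset d r).trans hr'))]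
    rw [e1]
    exact h2

theorem cone_bd (hE : EOk E) (hc : c ∉ S) (hL : Legit W x (insert c S)) {r0 : Finset ι}
    (hr : r0 ⊆ S) (h0 : Ex E (W ⊔ s0 (x c)) x S r0.card) {t : Rg Pt}
    (h : Bd E W x (insert c S) (insert c r0) t) :
    Bd (shE E) (W ⊔ s1 (x c)) x S r0 t := by
  have hcr : ∀ {s : Finset ι}, s ⊆ S → c ∉ s := fun hs h => hc (hs h)
  have hck : (insert c r0).card = r0.card + 1 := Finset.card_insert_of_notMem (hcr hr)
  obtain ⟨g, hg⟩ := h
  rw [hck] at hg
  obtain ⟨k0, hk0⟩ := h0 g (by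
    intro r hr' hk
    have h2 := hg r (hr'.trans (Finset.subset_insert c S)) hk
    have hne : r ≠ insert c r0 := fun h => hcr hr' (h ▸ Finset.mem_insert_self c r0)
    rw [if_neg hne, zero_add, bd_ins0 hc _ hr', U_ins0 (hcr hr')] at h2
    exact h2)
  refine ⟨fun s => g (insert c s) + kap (U (W ⊔ s0 (x c)) x S s) (x c) * k0 s,
    fun r hr' hk => ?_⟩
  have h2 := hg (insert c r) (Finset.insert_subset_insert c hr') (by
    rw [Finset.card_insert_of_notMem (hcr hr'), hk])
  rw [bd_ins1 hc _ hr', cn_U1 hc] at h2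
  have e1 : (if insert c r = insert c r0 then t else 0) = if r = r0 then t else 0 := by
    by_cases h3 : r = r0
    · rw [h3, if_pos rfl, if_pos rfl]
    · rw [if_neg h3, if_neg]
      intro h4
      apply h3
      rw [← Finset.erase_insert (hcr hr'), h4, Finset.erase_insert (hcr hr)]
  rw [e1] at h2
  have h3 := cn_kap hE hc hL hr' (hk0 r hr' hk)
  rw [mul_add] at h3
  have h4 := I_le_J (E := E) (k := r0.card + 1) (cn_bdbd hc hL k0 hr')
  rw [cn_J, bd_add]
  exact cn_mem h2 h3 h4

end Pool.HPS
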