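import Pool.Agent.HPS.Absorb
import Pool.Agent.HPS.Cone

/-!
# Module HPS-QTop: full half twists with extra crossings and a cap

Induction on the number of extra crossings, each of them resolved by the cone lemma; without extra
crossings the half twist with a cap is absorbed.
-/

set_option autoImplicit false

open Finset MvPolynomial

namespace Pool.HPS

theorem ts_succ (m j t : ℕ) : ts m j (t + 1) = insert (Sum.inr t) (ts m j t) := by
  ext c
  rcases c with c | k
  · rw [Finset.mem_insert, ts, ts, Finset.inl_mem_disjSum, Finset.inl_mem_disjSum]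
    constructor
    · intro h
      exact Or.inr h
    · rintro (h | h)
      · exact absurd h (by simp)
      · exact h
  · rw [Finset.mem_insert, ts, ts, Finset.inr_mem_disjSum, Finset.inr_mem_disjSum,
      Finset.mem_range, Finset.mem_range, Sum.inr.injEq]
    omega

theorem not_mem_ts (m j t : ℕ) : (Sum.inr t : IX) ∉ ts m j t := by
  rw [ts, Finset.inr_mem_disjSum, Finset.mem_range]
  omega

private theorem ts_zero (m : ℕ) : ts (m + 2) (m + 1) 0 = (fl (m + 2)).image Sum.inl := by
  have h : tr (m + 2) (m + 1) = fl (m + 2) := tr_full (m + 1)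
  ext c
  rcases c with c | k
  · rw [ts, Finset.inl_mem_disjSum, h, Finset.mem_image]
    constructor
    · intro hc
      exact ⟨c, hc, rfl⟩
    · rintro ⟨d, hd, he⟩
      rw [Sum.inl.injEq] at he
      exact he ▸ hd
  · rw [ts, Finset.inr_mem_disjSum, Finset.mem_image]
    constructor
    · intro hc
      exact absurd hc (by simp)
    · rintro ⟨d, hd, he⟩
      exact absurd he (by simp)

private theorem tp_top {Pt : Type} (m : ℕ) (P : ℕ → ℕ → Bool → Pt) (i : ℕ) (hi : i < m + 2) :
    tp (m + 2) (m + 1) P i = P i (lst (m + 2) i) true := by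
  unfold tp lst
  rcases Nat.lt_or_ge i (m + 1) with h | h
  · rw [if_pos h, if_neg (by omega)]
  · have : i = m + 1 := by omega
    subst this
    rw [if_neg (by omega), if_pos rfl, if_pos (by omega)]
    rfl

theorem QQ_top {m : ℕ} (hB : BB m) (t : ℕ) : QQ (m + 2) (m + 1) t := by
  induction t with
  | zero =>
    intro Pt W P y hLin hL hTB h hh
    have hinj : Set.InjOn (Sum.inl : ℕ × ℕ → IX) ((fl (m + 2) : Finset (ℕ × ℕ)) : Set (ℕ × ℕ)) :=
      Sum.inl_injective.injOn
    rw [ts_zero] at hL ⊢
    have hL' := legit_image Sum.inl (fl (m + 2)) hinj hL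
    obtain ⟨i, hi, hW⟩ := hTB
    rw [tp_top m P i (by omega), tp_top m P (i + 1) hi] at hW
    apply Ex_image Sum.inl (fl (m + 2)) hinj
    exact absorb hB (u := i) (by omega) (Lin_of_LinT hLin) hL' hW (by omega)
  | succ t ih =>
    intro Pt W P y hLin hL hTB h hh
    rw [ts_succ] at hL ⊢
    obtain ⟨h', rfl⟩ : ∃ h', h = h' + 1 := ⟨h - 1, by omega⟩
    apply cone EOk_tt (not_mem_ts (m + 2) (m + 1) t) hL
    · exact ih Pt _ P y (LinT_mono hLin (le_refl _) le_sup_left)
        (legit0 hL (not_mem_ts (m + 2) (m + 1) t)) hTB.1 _ (by omega)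
    · exact ih Pt _ P y (LinT_mono hLin (le_refl _) le_sup_left)
        (legit1 hL (not_mem_ts (m + 2) (m + 1) t)) hTB.2 _ (by omega)

end Pool.HPS
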