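import Pool.Agent.HPS.InsG
import Pool.Agent.HPS.Rem
import Pool.Agent.HPS.QTop

/-!
# Module HPS-InsB2: inserting a pair of crossings into truncated half twists
(imports InsG, Rem, Tr, Leg, QTop (`ts_succ`, `not_mem_ts`); use them)

Notation `z = m - 1` (last strand), `3 ≤ m`.

PLAN for `QQ_step` (`1 ≤ j`, `j + 1 < m`).  Given a system for `(j, t)` with `Pt, W, P, y`.  The top point of `z` is `P z (j-1) true`: it is the
point of the label `l = (inl (j-1, z), 1)` (`qd P (j-1, z) 1 = P z (j-1) true`), and the top point of `j` is `P j ℓ true`, `ℓ = lst (m-1) j`, of the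
label `μ = (inl (j, ℓ), 3)` if `j < ℓ` (`j + 2 < m`) and `(inl (ℓ, j), 1)` if `j + 2 = m` (`ℓ = m - 3`).  New points `Pt' = Pt ⊕ Fin 4`, environment `sumS 4 W`,
crossings `x' = ins2 (qx P y) l μ (inr t) (inl (j, z))` on `insert (inr t) (insert (inl (j, z)) (ts m j t)) = ts m (j+1) (t+1)`
(`tr_succ`, `ts_succ`).  `x' = qx P' y'` on this set, with
`P' i i' s := if (i,i',s) = (z, j-1, true) then inr 0 else if (i,i',s) = (j, ℓ, true) then inr 1 else if (i,i',s) = (z, j, false) then inr 0 else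
 if (i,i',s) = (j, z, false) then inr 1 else if (i,i',s) = (z, j, true) then inr 2 else if (i,i',s) = (j, z, true) then inr 3 else inl (P i i' s)`,
`y' s := if s = t then ![inr 2, inr 3, inl (P j ℓ true), inl (P z (j-1) true)] else fun k => inl (y s k)`.
(1) `LinT m (j+1) P' (sumS 4 W)`: the only new wires are `P' z (j-1) true ~ P' z j false` (both `inr 0`) and `P' j ℓ true ~ P' j z false` (both `inr 1`); the others
come from `LinT m j P W` and do not involve the changed points (the tops are not the source of another wire, and the other changed points are new).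
(2) `TB m (j+1) P' y' (t+1) (sumS 4 W)`.  0-smoothing of `y' t`: `inr 2 ~ inr 3`, and `tp m (j+1) P' j = P' j z true = inr 3`, `tp m (j+1) P' (j+1) =
P' z j true = inr 2`: the two adjacent tops `j, j+1` are joined, whatever happens later (`TB` is monotone in `W` and holds if two adjacent tops are
joined: prove `TB_of_rel`).  1-smoothing of `y' t`: `inr 2 ~ inl (P j ℓ true)`, `inr 3 ~ inl (P z (j-1) true)`; so `inl (tp m j P i) ~ tp m (j+1) P' i` for all
`i < m` (`i = j`: old top of `z` ~ `inr 3 = P' j z true`; `i = j+1`: old top of `j` ~ `inr 2 = P' z j true`; other `i`: the same point), and `TB` is functorial: if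
`W a b → W' (ψ a) (ψ b)`, `W' (tp m (j+1) P' i) (ψ (tp m j P i))` and `y' s = ψ ∘ y s` for `s < t`, then `TB m j P y t W → TB m (j+1) P' y' t W'` (prove
`TB_map` by induction on `t`).
(3) `ins2_legit`, `ins2_Ex`, `legit_congr`, `Ex_congr_x`; the degree: `m^2/4 + t < h → m^2/4 + (t + 1) < h + 1`.
-/

set_option autoImplicit false

open Finset MvPolynomial

namespace Pool.HPS

theorem TB_of_rel {m j : ℕ} {Pt : Type} {P : ℕ → ℕ → Bool → Pt} {y : ℕ → Fin 4 → Pt} (t : ℕ)
    {W : Setoid Pt} {i : ℕ} (hi : i + 1 < m) (h : W (tp m j P i) (tp m j P (i + 1))) :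
    TB m j P y t W := by
  induction t generalizing W with
  | zero => exact ⟨i, hi, h⟩
  | succ t ih => exact ⟨ih ((le_sup_left : W ≤ W ⊔ s0 (y t)) h),
      ih ((le_sup_left : W ≤ W ⊔ s1 (y t)) h)⟩

theorem TB_map {m j j' : ℕ} {Pt Pt' : Type} {P : ℕ → ℕ → Bool → Pt} {y : ℕ → Fin 4 → Pt}
    {P' : ℕ → ℕ → Bool → Pt'} {y' : ℕ → Fin 4 → Pt'} (ψ : Pt → Pt') (t : ℕ)
    (hy : ∀ s, s < t → y' s = fun k => ψ (y s k))
    {W : Setoid Pt} {W' : Setoid Pt'} (hW : ∀ a b, W a b → W' (ψ a) (ψ b))
    (htp : ∀ i, i < m → W' (tp m j' P' i) (ψ (tp m j P i))) (h : TB m j P y t W) :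
    TB m j' P' y' t W' := by
  induction t generalizing W W' with
  | zero =>
    obtain ⟨i, hi, hr⟩ := h
    exact ⟨i, hi, W'.trans (htp i (by omega)) (W'.trans (hW _ _ hr) (W'.symm (htp (i + 1) hi)))⟩
  | succ t ih =>
    obtain ⟨h0, h1⟩ := h
    have hyt : y' t = fun k => ψ (y t k) := hy t (by omega)
    refine ⟨ih (fun s hs => hy s (by omega)) ?_ (fun i hi => ?_) h0,
      ih (fun s hs => hy s (by omega)) ?_ (fun i hi => ?_) h1⟩
    · have h2 : W ⊔ s0 (y t) ≤ Setoid.comap ψ (W' ⊔ s0 (y' t)) := by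
        refine sup_le (fun a b hab => ?_) (s0_le.2 ⟨?_, ?_⟩)
        · exact (le_sup_left : W' ≤ W' ⊔ s0 (y' t)) (hW a b hab)
        · have h3 := (s0_le.1 (le_sup_right : s0 (y' t) ≤ W' ⊔ s0 (y' t))).1
          rw [hyt] at h3 ⊢
          exact h3
        · have h3 := (s0_le.1 (le_sup_right : s0 (y' t) ≤ W' ⊔ s0 (y' t))).2
          rw [hyt] at h3 ⊢
          exact h3
      exact fun a b hab => h2 hab
    · exact (le_sup_left : W' ≤ W' ⊔ s0 (y' t)) (htp i hi)
    · have h2 : W ⊔ s1 (y t) ≤ Setoid.comap ψ (W' ⊔ s1 (y' t)) := by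
        refine sup_le (fun a b hab => ?_) (s1_le.2 ⟨?_, ?_⟩)
        · exact (le_sup_left : W' ≤ W' ⊔ s1 (y' t)) (hW a b hab)
        · have h3 := (s1_le.1 (le_sup_right : s1 (y' t) ≤ W' ⊔ s1 (y' t))).1
          rw [hyt] at h3 ⊢
          exact h3
        · have h3 := (s1_le.1 (le_sup_right : s1 (y' t) ≤ W' ⊔ s1 (y' t))).2
          rw [hyt] at h3 ⊢
          exact h3
      exact fun a b hab => h2 hab
    · exact (le_sup_left : W' ≤ W' ⊔ s1 (y' t)) (htp i hi)

/-- the points after the insertion -/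
private def P2 {Pt : Type} (m j l : ℕ) (P : ℕ → ℕ → Bool → Pt) (i i' : ℕ) : Bool → Pt ⊕ Fin 4
  | false => if i = m - 1 ∧ i' = j then Sum.inr 0 else if i = j ∧ i' = m - 1 then Sum.inr 1
      else Sum.inl (P i i' false)
  | true => if i = m - 1 ∧ i' = j - 1 then Sum.inr 0 else if i = j ∧ i' = l then Sum.inr 1
      else if i = m - 1 ∧ i' = j then Sum.inr 2 else if i = j ∧ i' = m - 1 then Sum.inr 3
      else Sum.inl (P i i' true)

/-- the extra crossings after the insertion -/
private def y2 {Pt : Type} (m j l t : ℕ) (P : ℕ → ℕ → Bool → Pt) (y : ℕ → Fin 4 → Pt)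
    (s : ℕ) : Fin 4 → Pt ⊕ Fin 4 :=
  if s = t then ![Sum.inr 2, Sum.inr 3, Sum.inl (P j l true), Sum.inl (P (m - 1) (j - 1) true)]
  else fun k => Sum.inl (y s k)

section

variable {Pt : Type} {m j l : ℕ} {P : ℕ → ℕ → Bool → Pt}

private theorem P2f {i i' : ℕ} (h1 : ¬ (i = m - 1 ∧ i' = j)) (h2 : ¬ (i = j ∧ i' = m - 1)) :
    P2 m j l P i i' false = Sum.inl (P i i' false) := by
  rw [P2, if_neg h1, if_neg h2]

private theorem P2t {i i' : ℕ} (h1 : ¬ (i = m - 1 ∧ i' = j - 1)) (h2 : ¬ (i = j ∧ i' = l))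
    (h3 : ¬ (i = m - 1 ∧ i' = j)) (h4 : ¬ (i = j ∧ i' = m - 1)) :
    P2 m j l P i i' true = Sum.inl (P i i' true) := by
  rw [P2, if_neg h1, if_neg h2, if_neg h3, if_neg h4]

private theorem P2zf : P2 m j l P (m - 1) j false = Sum.inr 0 := by
  rw [P2, if_pos ⟨rfl, rfl⟩]

private theorem P2jf (h : j ≠ m - 1) : P2 m j l P j (m - 1) false = Sum.inr 1 := by
  rw [P2, if_neg (by omega), if_pos ⟨rfl, rfl⟩]

private theorem P2l : P2 m j l P (m - 1) (j - 1) true = Sum.inr 0 := by
  rw [P2, if_pos ⟨rfl, rfl⟩]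

private theorem P2m (h : j ≠ m - 1) : P2 m j l P j l true = Sum.inr 1 := by
  rw [P2, if_neg (by omega), if_pos ⟨rfl, rfl⟩]

private theorem P2zt (h : j ≠ m - 1) (hj : 1 ≤ j) : P2 m j l P (m - 1) j true = Sum.inr 2 := by
  rw [P2, if_neg (by omega), if_neg (by omega), if_pos ⟨rfl, rfl⟩]

private theorem P2jt (h : j ≠ m - 1) (hl : l ≠ m - 1) :
    P2 m j l P j (m - 1) true = Sum.inr 3 := by
  rw [P2, if_neg (by omega), if_neg (by omega), if_neg (by omega), if_pos ⟨rfl, rfl⟩]

private theorem sum_inl {W : Setoid Pt} {a b : Pt} (h : W a b) :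
    sumS 4 W (Sum.inl a) (Sum.inl b) := Or.inl ⟨a, b, rfl, rfl, h⟩

/-- the wires after the insertion -/
private theorem lin2 {W : Setoid Pt} (hm : 3 ≤ m) (hj : 1 ≤ j) (hj2 : j + 1 < m)
    (hl : (j + 2 < m ∧ l = m - 2) ∨ (j + 2 = m ∧ l = m - 3)) (h : LinT m j P W) :
    LinT m (j + 1) (P2 m j l P) (sumS 4 W) := by
  constructor
  · intro i i' hi hi' h1 h2 h3 h4
    by_cases hiz : i = m - 1
    · subst hiz
      by_cases h5 : i' = j - 1
      · subst h5
        have e1 : P2 m j l P (m - 1) (j - 1) true = Sum.inr 0 := P2l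
        have e2 : P2 m j l P (m - 1) (j - 1 + 1) false = Sum.inr 0 := by
          rw [show j - 1 + 1 = j by omega]
          exact P2zf
        rw [e1, e2]
      · rw [P2t (by omega) (by omega) (by omega) (by omega), P2f (by omega) (by omega)]
        exact sum_inl (h.a _ _ hi hi' h1 h2 (by omega) (by omega))
    · by_cases hij : i = j
      · subst hij
        by_cases h5 : i' = l
        · subst h5
          rw [P2m (by omega), show i' + 1 = m - 1 by omega, P2jf (by omega)]
        · rw [P2t (by omega) (by omega) (by omega) (by omega), P2f (by omega) (by omega)]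
          exact sum_inl (h.a _ _ hi hi' h1 h2 (by omega) (by omega))
      · rw [P2t (by omega) (by omega) (by omega) (by omega), P2f (by omega) (by omega)]
        exact sum_inl (h.a _ _ hi hi' h1 h2 (by omega) (by omega))
  · intro i hi h1
    by_cases hij : i + 1 = j
    · by_cases h5 : i = l
      · subst h5
        subst hij
        rw [P2m (by omega), show i + 2 = m - 1 by omega, P2jf (by omega)]
      · rw [P2t (by omega) (by omega) (by omega) (by omega), P2f (by omega) (by omega)]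
        exact sum_inl (h.b _ hi (by omega))
    · rw [P2t (by omega) (by omega) (by omega) (by omega), P2f (by omega) (by omega)]
      exact sum_inl (h.b _ hi (by omega))

/-- the crossings after the insertion -/
private theorem crs2 {t : ℕ} {y : ℕ → Fin 4 → Pt} (hm : 3 ≤ m) (hj : 1 ≤ j) (hj2 : j + 1 < m)
    (hl : (j + 2 < m ∧ l = m - 2) ∨ (j + 2 = m ∧ l = m - 3)) {μ : IX × Fin 4}
    (hμv : qx P y μ.1 μ.2 = P j l true)
    (hμk : ∀ a b k, a < b → (((Sum.inl (a, b), k) : IX × Fin 4) = μ ↔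
      (k = 3 ∧ a = j ∧ b = l) ∨ (k = 1 ∧ b = j ∧ a = l)))
    (hμs : ∀ s k, ((Sum.inr s, k) : IX × Fin 4) ≠ μ) :
    ∀ c ∈ ts m (j + 1) (t + 1), qx (P2 m j l P) (y2 m j l t P y) c =
      ins2 (qx P y) (Sum.inl (j - 1, m - 1), 1) μ (Sum.inr t) (Sum.inl (j, m - 1)) c := by
  rintro (⟨a, b⟩ | s) hc
  · rw [ts, Finset.inl_mem_disjSum, tr, mem_filter, mem_product, mem_range, mem_range] at hc
    obtain ⟨⟨ha, hb⟩, hab, hb2⟩ := hc
    simp only at ha hb hab hb2
    by_cases h1 : a = j ∧ b = m - 1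
    · obtain ⟨rfl, rfl⟩ := h1
      funext k
      rw [ins2, if_neg (by simp), if_pos rfl]
      have hjm : a ≠ m - 1 := by omega
      have hlm : l ≠ m - 1 := by omega
      fin_cases k
      · exact P2jf (l := l) hjm
      · exact P2zt (l := l) hjm hj
      · exact P2zf (l := l)
      · exact P2jt hjm hlm
    · have hk4 : ∀ k : Fin 4, k = 0 ∨ k = 1 ∨ k = 2 ∨ k = 3 := by decide
      have n1 : ¬ (a = j - 1 ∧ b = m - 1) → ¬ (b = m - 1 ∧ a = j - 1) := fun h h' => h ⟨h'.2, h'.1⟩
      have n2 : ¬ (b = m - 1 ∧ a = j) := fun h => h1 ⟨h.2, h.1⟩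
      have n3 : ¬ (b = j ∧ a = m - 1) := by omega
      have n4 : ¬ (a = m - 1 ∧ b = j) := by omega
      have n5 : ¬ (a = m - 1 ∧ b = j - 1) := by omega
      have hjm : j ≠ m - 1 := by omega
      funext k
      have e1 : ¬ ((Sum.inl (a, b) : IX) = Sum.inl (j, m - 1)) := by
        intro h
        rw [Sum.inl.injEq, Prod.mk.injEq] at h
        exact h1 h
      have e2 : ((Sum.inl (a, b), k) : IX × Fin 4) = (Sum.inl (j - 1, m - 1), 1) ↔
          (a = j - 1 ∧ b = m - 1) ∧ k = 1 := by
        rw [Prod.mk.injEq, Sum.inl.injEq, Prod.mk.injEq]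
      rw [ins2, if_neg (by simp), if_neg e1]
      simp only [e2, hμk a b k hab]
      rcases hk4 k with rfl | rfl | rfl | rfl
      · rw [if_neg (fun h => absurd h.2 (by decide)), if_neg (by
          rintro (h | h)
          · exact absurd h.1 (by decide)
          · exact absurd h.1 (by decide))]
        exact P2f (l := l) n4 h1
      · by_cases h2 : a = j - 1 ∧ b = m - 1
        · rw [if_pos ⟨h2, rfl⟩, h2.1, h2.2]
          exact P2l
        · rw [if_neg (fun h => h2 h.1)]
          by_cases h3 : b = j ∧ a = l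
          · rw [if_pos (Or.inr ⟨rfl, h3⟩), h3.1, h3.2]
            exact P2m hjm
          · rw [if_neg (by
              rintro (h | h)
              · exact absurd h.1 (by decide)
              · exact h3 h.2)]
            exact P2t (n1 h2) h3 n2 n3
      · rw [if_neg (fun h => absurd h.2 (by decide)), if_neg (by
          rintro (h | h)
          · exact absurd h.1 (by decide)
          · exact absurd h.1 (by decide))]
        exact P2f (l := l) n2 n3
      · rw [if_neg (fun h => absurd h.2 (by decide))]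
        by_cases h3 : a = j ∧ b = l
        · rw [if_pos (Or.inl ⟨rfl, h3⟩), h3.1, h3.2]
          exact P2m hjm
        · rw [if_neg (by
              rintro (h | h)
              · exact h3 h.2
              · exact absurd h.1 (by decide))]
          exact P2t n5 h3 n4 h1
  · by_cases hs : s = t
    · subst hs
      funext k
      rw [ins2, if_pos rfl, hμv]
      show y2 m j l s P y s k = _
      rw [y2, if_pos rfl]
      rfl
    · funext k
      have e1 : ¬ ((Sum.inr s : IX) = Sum.inr t) := by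
        intro h
        exact hs (Sum.inr.inj h)
      rw [ins2, if_neg e1, if_neg (by simp), if_neg (by simp), if_neg (hμs s k)]
      show y2 m j l t P y s k = _
      rw [y2, if_neg hs]
      rfl

/-- the index sets -/
private theorem set2 {t : ℕ} (hm : 3 ≤ m) (hj2 : j + 1 < m) : ts m (j + 1) (t + 1) =
    insert (Sum.inr t) (insert (Sum.inl (j, m - 1)) (ts m j t)) := by
  obtain ⟨n, rfl⟩ : ∃ n, m = n + 1 := ⟨m - 1, by omega⟩
  rw [ts_succ, Nat.add_sub_cancel, ts, tr_succ (by omega), ts]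
  congr 1
  ext c
  rcases c with c | c
  · rw [Finset.inl_mem_disjSum, mem_insert, mem_insert, Finset.inl_mem_disjSum, Sum.inl.injEq]
  · rw [Finset.inr_mem_disjSum, mem_insert, Finset.inr_mem_disjSum]
    simp

end

theorem QQ_step {m j t : ℕ} (hm : 3 ≤ m) (hj : 1 ≤ j) (hj2 : j + 1 < m)
    (H : QQ m (j + 1) (t + 1)) : QQ m j t := by
  intro Pt W P y hlin hL hTB h hh
  obtain ⟨l, hlv, hl⟩ : ∃ l, lst (m - 1) j = l ∧
      ((j + 2 < m ∧ l = m - 2) ∨ (j + 2 = m ∧ l = m - 3)) := by
    refine ⟨_, rfl, ?_⟩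
    rw [lst]
    split_ifs <;> omega
  obtain ⟨μ, hμS, hμv, hlμ, hμk, hμs⟩ : ∃ μ : IX × Fin 4, μ.1 ∈ ts m j t ∧
      qx P y μ.1 μ.2 = P j l true ∧ ((Sum.inl (j - 1, m - 1), 1) : IX × Fin 4) ≠ μ ∧
      (∀ a b k, a < b → (((Sum.inl (a, b), k) : IX × Fin 4) = μ ↔
        (k = 3 ∧ a = j ∧ b = l) ∨ (k = 1 ∧ b = j ∧ a = l))) ∧
      (∀ s k, ((Sum.inr s, k) : IX × Fin 4) ≠ μ) := by
    rcases hl with ⟨h1, rfl⟩ | ⟨h1, rfl⟩
    · refine ⟨(Sum.inl (j, m - 2), 3), ?_, rfl, ?_, ?_, ?_⟩
      · rw [ts, Finset.inl_mem_disjSum, tr, mem_filter, mem_product, mem_range, mem_range]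
        simp only
        omega
      · simp
      · intro a b k hab
        rw [Prod.mk.injEq, Sum.inl.injEq, Prod.mk.injEq]
        constructor
        · rintro ⟨⟨rfl, rfl⟩, rfl⟩
          exact Or.inl ⟨rfl, rfl, rfl⟩
        · rintro (⟨rfl, rfl, rfl⟩ | ⟨-, h2, h3⟩)
          · exact ⟨⟨rfl, rfl⟩, rfl⟩
          · omega
      · intro s k
        simp
    · refine ⟨(Sum.inl (m - 3, j), 1), ?_, rfl, ?_, ?_, ?_⟩
      · rw [ts, Finset.inl_mem_disjSum, tr, mem_filter, mem_product, mem_range, mem_range]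
        simp only
        omega
      · intro h2
        rw [Prod.mk.injEq, Sum.inl.injEq, Prod.mk.injEq] at h2
        omega
      · intro a b k hab
        rw [Prod.mk.injEq, Sum.inl.injEq, Prod.mk.injEq]
        constructor
        · rintro ⟨⟨rfl, rfl⟩, rfl⟩
          exact Or.inr ⟨rfl, rfl, rfl⟩
        · rintro (⟨-, h2, h3⟩ | ⟨rfl, rfl, rfl⟩)
          · omega
          · exact ⟨⟨rfl, rfl⟩, rfl⟩
      · intro s k
        simp
  have hlS : ((Sum.inl (j - 1, m - 1), 1) : IX × Fin 4).1 ∈ ts m j t := by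
    rw [ts, Finset.inl_mem_disjSum, tr, mem_filter, mem_product, mem_range, mem_range]
    simp only
    omega
  have h1S : (Sum.inr t : IX) ∉ ts m j t := not_mem_ts m j t
  have h2S : (Sum.inl (j, m - 1) : IX) ∉ ts m j t := by
    rw [ts, Finset.inl_mem_disjSum, tr, mem_filter, mem_product, mem_range, mem_range]
    simp only
    omega
  have h12 : (Sum.inr t : IX) ≠ Sum.inl (j, m - 1) := by simp
  have hcrs := crs2 (t := t) hm hj hj2 hl hμv hμk hμs
  have hset := set2 (t := t) hm hj2
  refine ins2_Ex hL hlS hμS hlμ h12 h1S h2S ?_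
  rw [← hset]
  refine Ex_congr_x hcrs ?_
  refine H (Pt ⊕ Fin 4) (sumS 4 W) (P2 m j l P) (y2 m j l t P y) (lin2 hm hj hj2 hl hlin)
    ?_ ?_ (h + 1) (by omega)
  · have h3 := ins2_legit hL hlS hμS hlμ h12 h1S h2S
    rw [← hset] at h3
    exact legit_congr h3 fun c hc => (hcrs c hc).symm
  · have hyt : y2 m j l t P y t =
        ![Sum.inr 2, Sum.inr 3, Sum.inl (P j l true), Sum.inl (P (m - 1) (j - 1) true)] := by
      rw [y2, if_pos rfl]
    have hjm : j ≠ m - 1 := by omega
    have t1 : tp m (j + 1) (P2 m j l P) j = Sum.inr 3 := by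
      rw [tp, if_pos (by omega)]
      exact P2jt hjm (by omega)
    have t2 : tp m (j + 1) (P2 m j l P) (j + 1) = Sum.inr 2 := by
      rw [tp, if_neg (by omega), if_pos rfl, Nat.add_sub_cancel]
      exact P2zt hjm hj
    refine ⟨TB_of_rel t hj2 ?_, TB_map Sum.inl t ?_ ?_ ?_ hTB⟩
    · rw [t1, t2]
      have h3 := (s0_le.1 (le_sup_right : s0 (y2 m j l t P y t) ≤
        sumS 4 W ⊔ s0 (y2 m j l t P y t))).1
      rw [hyt] at h3 ⊢
      exact Setoid.symm' _ h3
    · intro s hs
      rw [y2, if_neg (by omega)]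
    · intro a b hab
      exact (le_sup_left : sumS 4 W ≤ sumS 4 W ⊔ s1 (y2 m j l t P y t)) (sum_inl hab)
    · intro i hi
      rcases lt_trichotomy i j with h4 | h4 | h4
      · have e1 : tp m (j + 1) (P2 m j l P) i = Sum.inl (tp m j P i) := by
          rw [tp, if_pos (by omega), tp, if_pos h4]
          exact P2t (by omega) (by omega) (by omega) (by omega)
        rw [e1]
      · subst h4
        have e2 : tp m i P i = P (m - 1) (i - 1) true := by
          rw [tp, if_neg (by omega), if_pos rfl]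
        rw [t1, e2]
        have h3 := (s1_le.1 (le_sup_right : s1 (y2 m i l t P y t) ≤
          sumS 4 W ⊔ s1 (y2 m i l t P y t))).2
        rw [hyt] at h3 ⊢
        exact h3
      · by_cases h5 : i = j + 1
        · subst h5
          have e2 : tp m j P (j + 1) = P j l true := by
            rw [tp, if_neg (by omega), if_neg (by omega), Nat.add_sub_cancel, hlv]
          rw [t2, e2]
          have h3 := (s1_le.1 (le_sup_right : s1 (y2 m j l t P y t) ≤
            sumS 4 W ⊔ s1 (y2 m j l t P y t))).1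
          rw [hyt] at h3 ⊢
          exact h3
        · have e1 : tp m (j + 1) (P2 m j l P) i = Sum.inl (tp m j P i) := by
            rw [tp, if_neg (by omega), if_neg h5, tp, if_neg (by omega), if_neg (by omega)]
            exact P2t (by omega) (by omega) (by omega) (by omega)
          rw [e1]

end Pool.HPS
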