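import Pool.Agent.HPS.InsB1
import Pool.Agent.HPS.InsB2

/-!
# Module HPS-Bk: no cohomology above `⌊m²/4⌋` (assembly of block B)
-/

set_option autoImplicit false

open Finset MvPolynomial

namespace Pool.HPS

theorem QQ_all {m : ℕ} (hB : BB m) (hm : 1 ≤ m) (i : ℕ) :
    ∀ t, i ≤ m → QQ (m + 2) (m + 1 - i) t := by
  induction i with
  | zero => intro t _; exact QQ_top hB t
  | succ i ih =>
    intro t hi
    have h1 := ih (t + 1) (by omega)
    have h2 : m + 1 - i = (m + 1 - (i + 1)) + 1 := by omega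
    rw [h2] at h1
    exact QQ_step (by omega) (by omega) (by omega) h1

theorem Bk_step {m : ℕ} (hm : 1 ≤ m) (h1 : BB (m + 1)) (h2 : BB m) (k : ℕ) :
    k ≤ m + 1 → ∀ (Pt : Type) (W : Setoid Pt) (P : ℕ → ℕ → Bool → Pt), LinT (m + 2) k P W →
      Legit W (qd P) (tr (m + 2) k) → ∀ h, (m + 2) ^ 2 / 4 < h →
        Ex tt W (qd P) (tr (m + 2) k) h := by
  induction k with
  | zero =>
    intro _ Pt W P hLin hL h hh
    rw [tr_zero] at hL ⊢
    refine h1 Pt W P (Lin_of_LinT0 hLin) hL h (lt_of_le_of_lt ?_ hh)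
    apply Nat.div_le_div_right
    exact Nat.pow_le_pow_left (by omega) 2
  | succ k ih =>
    intro hk Pt W P hLin hL h hh
    obtain ⟨h', rfl⟩ : ∃ h', h = h' + 1 := ⟨h - 1, by omega⟩
    have hL' := hL
    rw [tr_succ (by omega)] at hL ⊢
    refine cone EOk_tt not_mem_tr hL ?_ ?_
    · exact ih (by omega) Pt _ P (LinT_mono hLin (by omega) le_sup_left) (legit0 hL not_mem_tr) _ hh
    · have hq : QQ (m + 2) (k + 1) 0 := by
        have := QQ_all h2 hm (m - k) 0 (by omega)
        rwa [show m + 1 - (m - k) = k + 1 by omega] at this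
      exact P1E (m := m + 2) (by omega) (by omega) hq hLin hL' (by omega)

theorem BB_all (m : ℕ) : BB m := by
  induction m using Nat.strong_induction_on with
  | _ m ih =>
    rcases Nat.lt_or_ge m 3 with hm | hm
    · intro Pt W P _ _ h hh
      apply Ex_card
      refine lt_of_le_of_lt ?_ hh
      rw [card_fl]
      interval_cases m <;> decide
    · obtain ⟨m, rfl⟩ : ∃ m', m = m' + 2 := ⟨m - 2, by omega⟩
      intro Pt W P hLin hL h hh
      have := Bk_step (m := m) (by omega) (ih (m + 1) (by omega)) (ih m (by omega)) (m + 1) le_rfl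
        Pt W P (LinT_of_Lin hLin) (by rw [tr_full]; exact hL) h hh
      rwa [tr_full] at this

end Pool.HPS
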