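import Pool.Agent.HPS.DAsm

/-!
# Module HPS-CircO: the oriented state of the closed half twist on `2p` strands has `p` circles
(plus the extra loops)

Statement: `circ (ro p) + p (2p - 1) * 2 = p + Nat.card (Quotient W)`, i.e.
`#circles = p + (card W - 2p(2p-1))`.  Induction on `p`: the last two strands are removed after a
rotation of the labels.
-/

set_option autoImplicit false

open Finset MvPolynomial

namespace Pool.HPS

private theorem step_U {Pt : Type} (W : Setoid Pt) (P' : ℕ → ℕ → Bool → Pt) (q : ℕ) :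
    U (Wb (2 * q) q P' W) (qd P') (fl (2 * q)) (ro q) =
      U W (qd P') (fl (2 * q + 2)) (ror (q + 1)) := by
  obtain ⟨r1, r2⟩ := ror_split q
  obtain ⟨f1, f2, f3⟩ := fl_split1 (m := 2 * q) (b := q) (by omega)
  have hsub : ro q ⊆ fl (2 * q) := Finset.filter_subset _ _
  have hon : on (2 * q) 0 q ∪ on (2 * q + 1) q (2 * q) ⊆
      ev (2 * q) (2 * q + 1) 0 q ∪ ev (2 * q) (2 * q + 1) q (2 * q) := by
    apply Finset.union_subset_union
    · exact Finset.subset_union_left
    · exact Finset.subset_union_right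
  have e0 : U W (qd P') (fl (2 * q + 2)) (ror (q + 1)) =
      U (U (W ⊔ s1 (qd P' (2 * q, 2 * q + 1))) (qd P')
        (ev (2 * q) (2 * q + 1) 0 q ∪ ev (2 * q) (2 * q + 1) q (2 * q))
        (insert (2 * q, 2 * q + 1) (ro q ∪ (on (2 * q) 0 q ∪ on (2 * q + 1) q (2 * q)))))
        (qd P') (fl (2 * q))
        (insert (2 * q, 2 * q + 1) (ro q ∪ (on (2 * q) 0 q ∪ on (2 * q + 1) q (2 * q)))) := by
    rw [f1, r1, U_ins1 (by simp), Finset.union_comm (fl (2 * q))]
    exact U_union _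
  rw [e0]
  have hd2 : ∀ c ∈ ev (2 * q) (2 * q + 1) 0 q ∪ ev (2 * q) (2 * q + 1) q (2 * q),
      c ∉ ro q ∧ c ≠ (2 * q, 2 * q + 1) := by
    intro c hc
    refine ⟨fun h => Finset.disjoint_left.1 f3 (hsub h) hc, ?_⟩
    rintro rfl
    exact f2 (Finset.mem_union_right _ hc)
  have e1 : U (W ⊔ s1 (qd P' (2 * q, 2 * q + 1))) (qd P')
      (ev (2 * q) (2 * q + 1) 0 q ∪ ev (2 * q) (2 * q + 1) q (2 * q))
      (insert (2 * q, 2 * q + 1) (ro q ∪ (on (2 * q) 0 q ∪ on (2 * q + 1) q (2 * q)))) =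
      U (W ⊔ s1 (qd P' (2 * q, 2 * q + 1))) (qd P')
      (ev (2 * q) (2 * q + 1) 0 q ∪ ev (2 * q) (2 * q + 1) q (2 * q))
      (on (2 * q) 0 q ∪ on (2 * q + 1) q (2 * q)) := by
    apply U_congr
    intro c hc
    have := hd2 c hc
    simp only [Finset.mem_insert, Finset.mem_union]
    tauto
  rw [e1, env1 (by omega)]
  apply U_congr
  intro c hc
  have h1 : c ∉ on (2 * q) 0 q ∪ on (2 * q + 1) q (2 * q) := fun h =>
    Finset.disjoint_left.1 f3 hc (hon h)
  have h2 : c ≠ (2 * q, 2 * q + 1) := by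
    rintro rfl
    exact f2 (Finset.mem_union_left _ hc)
  simp only [Finset.mem_insert, Finset.mem_union] at h1 ⊢
  tauto

private theorem base_case {Pt : Type} [Finite Pt] {W : Setoid Pt}
    {P : ℕ → ℕ → Bool → Pt} (hC : Cyc 2 P W) (hL : Legit W (qd P) (fl 2)) :
    Nat.card (Quotient (U W (qd P) (fl 2) (ro 1))) + 2 = 1 + Nat.card (Quotient W) := by
  have hfl : fl 2 = insert (0, 1) ∅ := by decide
  have hro : ro 1 = insert (0, 1) ∅ := by decide
  have hU : U W (qd P) (fl 2) (ro 1) = W ⊔ s1 (qd P (0, 1)) := by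
    rw [hfl, hro, U_ins1 (by simp), U_empty]
  have h0 : W (P 0 1 true) (P 0 1 false) := hC.c 0 (by norm_num)
  have h1 : W (P 1 0 true) (P 1 0 false) := hC.c 1 (by norm_num)
  have hV : W ⊔ s1 (qd P (0, 1)) = W ⊔ pr (P 0 1 false) (P 1 0 false) := by
    apply le_antisymm
    · refine sup_le le_sup_left (s1_le.2 ?_)
      set Z := W ⊔ pr (P 0 1 false) (P 1 0 false) with hZ
      have h2 : Z (P 0 1 false) (P 1 0 false) := pr_le.1 le_sup_right
      have h3 : Z (P 0 1 true) (P 0 1 false) := Setoid.le_def.1 (le_sup_left : W ≤ Z) h0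
      have h4 : Z (P 1 0 true) (P 1 0 false) := Setoid.le_def.1 (le_sup_left : W ≤ Z) h1
      refine ⟨h2, ?_⟩
      change Z (P 1 0 true) (P 0 1 true)
      exact Z.trans h4 (Z.trans (Z.symm h2) (Z.symm h3))
    · refine sup_le le_sup_left (pr_le.2 ?_)
      exact (s1_le.1 (le_sup_right : s1 (qd P (0, 1)) ≤ W ⊔ s1 (qd P (0, 1)))).1
  have hne : ¬ W (P 0 1 false) (P 1 0 false) := by
    intro h2
    have hmem : ∀ k : Fin 4, ((0, 1), k) ∈ {l : (ℕ × ℕ) × Fin 4 | l.1 ∈ fl 2} := by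
      intro k
      show (0, 1) ∈ fl 2
      decide
    obtain ⟨l', -, -, -, hu⟩ := hL ((0, 1), 0) (hmem 0)
    have e1 := hu ((0, 1), 2) (hmem 2) (by simp) h2
    have e2 := hu ((0, 1), 3) (hmem 3) (by simp) (W.symm h0)
    have e3 := e1.trans e2.symm
    simp at e3
  rw [hU, hV]
  have hcard := card_join W hne
  omega

theorem card_ror {p : ℕ} (hp : 1 ≤ p) {Pt : Type} [Finite Pt] {W : Setoid Pt}
    {P : ℕ → ℕ → Bool → Pt} (hC : Cyc (2 * p) P W) (hL : Legit W (qd P) (fl (2 * p))) :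
    Nat.card (Quotient (U W (qd P) (fl (2 * p)) (ro p))) + 2 * (p * (2 * p - 1)) =
      p + Nat.card (Quotient W) := by
  induction p, hp using Nat.le_induction generalizing W P with
  | base => exact base_case hC hL
  | succ q hq ih =>
    have hC' := Cyc_rot (by omega) hC (q + 1 + 1)
    have hL' := Legit_rot (by omega) hL (q + 1 + 1)
    rw [← U_rot (by omega)]
    set P' := rotP (2 * (q + 1)) (q + 1 + 1) P with hP'
    clear_value P'
    clear hC hL
    rw [show 2 * (q + 1) = 2 * q + 2 by ring] at hC' hL' ⊢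
    have h3 := ih (cyc1 hC' (by omega) (by omega)) (leg1 hL' q)
    have hp := par1 hC' hL' (b := q) (by omega) hq (by omega)
    rw [step_U] at h3
    obtain ⟨k, rfl⟩ : ∃ k, q = k + 1 := ⟨q - 1, by omega⟩
    have e1 : 2 * (k + 1) - 1 = 2 * k + 1 := by omega
    have e2 : 2 * (k + 1) + 2 - 1 = 2 * k + 3 := by omega
    rw [e1] at h3
    rw [e2]
    have e3 : 2 * ((k + 1 + 1) * (2 * k + 3)) =
        2 * ((k + 1) * (2 * k + 1)) + 2 * (2 * (2 * (k + 1)) + 1) := by ring
    rw [e3]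
    omega

end Pool.HPS
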