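import Pool.Agent.HPS.Eps

/-!
# Module HPS-Cocy: the Lee generators are cocycles
-/

set_option autoImplicit false

open Finset MvPolynomial

namespace Pool.HPS

theorem eo_flip (q : ℕ) (c : ℕ × ℕ) : eo q (hx q c 2) = -eo q (hx q c 1) := by
  have h1 : hx q c 2 = he q c.2 c.1 false := rfl
  have h2 : hx q c 1 = he q c.2 c.1 true := rfl
  rw [h1, h2, eo, eo, he, he]
  simp

theorem hx_ne (q : ℕ) {c : ℕ × ℕ} (hc : c ∈ cr q) : hx q c 0 ≠ hx q c 2 := by
  intro h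
  have h1 : hx q c 0 = he q c.1 c.2 false := rfl
  have h2 : hx q c 2 = he q c.2 c.1 false := rfl
  rw [h1, h2] at h
  have h3 := congrArg (fun z : HE q => (z.1 : ℕ)) h
  simp only [he] at h3
  simp only [cr, fl, Finset.mem_filter, Finset.mem_product, Finset.mem_range] at hc
  rw [Fin.val_ofNat, Fin.val_ofNat, Nat.mod_eq_of_lt hc.1.1, Nat.mod_eq_of_lt hc.1.2] at h3
  omega

theorem sO_mem (q : ℕ) {d : ℤ} (hd : d = 1 ∨ d = -1) {c : ℕ × ℕ} (hc : c ∈ cr q)
    (hr : c ∉ rO q) : sO q d (rO q) ∈ IL ℚ q (insert c (rO q)) := by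
  classical
  rw [sO, if_pos rfl]
  have hne := hx_ne q hc
  rw [← Finset.mul_prod_erase Finset.univ _ (Finset.mem_univ (hx q c 0)),
    ← Finset.mul_prod_erase (Finset.univ.erase (hx q c 0)) _
      (Finset.mem_erase.2 ⟨hne.symm, Finset.mem_univ (hx q c 2)⟩), ← mul_assoc]
  apply Ideal.mul_mem_right
  have he : eo q (hx q c 2) = -eo q (hx q c 0) := by
    rw [eo_flip, ((cons_eo q).a0 c hc hr).1]
  have hpm := (cons_eo q).pm (hx q c 0)
  rw [he]
  set a := hx q c 0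
  set b := hx q c 2
  set e := eo q a
  have m1 : (X a - X b : MvPolynomial (HE q) ℚ) ∈ IL ℚ q (insert c (rO q)) := by
    apply Ideal.subset_span
    exact Or.inr ⟨c, hc, Finset.mem_insert_self _ _, Or.inl rfl⟩
  have m2 : (X a ^ 2 - 1 : MvPolynomial (HE q) ℚ) ∈ IL ℚ q (insert c (rO q)) := by
    apply Ideal.subset_span
    exact Or.inl (Or.inl (Or.inl ⟨a, rfl⟩))
  have hde : (C ((d * e : ℤ) : ℚ) : MvPolynomial (HE q) ℚ) ^ 2 = 1 := by
    rw [← map_pow]
    have : ((d * e : ℤ) : ℚ) ^ 2 = 1 := by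
      rcases hd with h | h <;> rcases hpm with h' | h' <;> rw [h, h'] <;> norm_num
    rw [this, map_one]
  have hneg : (C ((d * -e : ℤ) : ℚ) : MvPolynomial (HE q) ℚ) = - C ((d * e : ℤ) : ℚ) := by
    rw [mul_neg, Int.cast_neg, map_neg]
  rw [hneg]
  have : (C (1 / 2) * (1 + C ((d * e : ℤ) : ℚ) * X a) *
      (C (1 / 2) * (1 + -C ((d * e : ℤ) : ℚ) * X b)) : MvPolynomial (HE q) ℚ) =
      C (1 / 2) * C (1 / 2) * (-(X a ^ 2 - 1) +
        (C ((d * e : ℤ) : ℚ) + X a) * (X a - X b)) := by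
    have e2 : (C ((d * e : ℤ) : ℚ) : MvPolynomial (HE q) ℚ) * C ((d * e : ℤ) : ℚ) = 1 := by
      rw [← sq]; exact hde
    linear_combination (-C (1 / 2) * C (1 / 2) * X a * X b : MvPolynomial (HE q) ℚ) * e2
  rw [this]
  apply Ideal.mul_mem_left
  exact Ideal.add_mem _ (neg_mem m2) (Ideal.mul_mem_left _ _ m1)

/-- The Lee generators are cocycles. -/
theorem sO_cocycle (q : ℕ) (σ : Finset (ℕ × ℕ) → ℕ × ℕ → ℤ) {d : ℤ} (hd : d = 1 ∨ d = -1)
    {r : Finset (ℕ × ℕ)} (hr : r ⊆ cr q) :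
    dL ℚ (wires q) (hx q) (cr q) σ (sO q d) r ∈ IL ℚ q r := by
  unfold dL
  apply Ideal.sum_mem
  intro c hc
  apply Ideal.mul_mem_left
  by_cases h : r.erase c = rO q
  · rw [h]
    have h1 : r = insert c (rO q) := by rw [← h, Finset.insert_erase hc]
    have h2 : c ∉ rO q := by rw [← h]; exact Finset.notMem_erase _ _
    rw [h1]
    exact sO_mem q hd (hr hc) h2
  · rw [sO, if_neg h]
    exact zero_mem _

end Pool.HPS
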