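import Pool.Agent.HPS.DefsB

/-!
# Project HPS, definitions for block C (closed half twists)
-/

set_option autoImplicit false

open Finset MvPolynomial

namespace Pool.HPS

variable {Pt : Type}

/-- The environment in which the crossings `(i, n - 1)`, `j ≤ i < n - 1`, are 0-smoothed. -/
def Wj (n j : ℕ) (P : ℕ → ℕ → Bool → Pt) (W : Setoid Pt) : Setoid Pt :=
  W ⊔ (Finset.Ico j (n - 1)).sup (fun i => s0 (qd P (i, n - 1)))

/-- The 1-smoothed crossings of the removal of `u`, `u + 1` from `n` strands (start tip). -/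
def ron (n u : ℕ) : Finset (ℕ × ℕ) := on u 0 u ∪ on u (u + 2) n

/-- The environment after the removal of `u`, `u + 1`. -/
def Wrem (n u : ℕ) (P : ℕ → ℕ → Bool → Pt) (W : Setoid Pt) : Setoid Pt :=
  U W (qd P) (Tall n u) (ron n u)

/-- The 1-smoothed crossings of the removal of the last two strands `m, m + 1`: start tip across
`w < b`, end tip across `b ≤ w < m`. -/
def rb (m b : ℕ) : Finset (ℕ × ℕ) := insert (m, m + 1) (on m 0 b ∪ on (m + 1) b m)

/-- The environment after the removal of the last two strands. -/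
def Wb (m b : ℕ) (P : ℕ → ℕ → Bool → Pt) (W : Setoid Pt) : Setoid Pt :=
  U W (qd P) (Tall (m + 2) m) (rb m b)

/-- Exactness in degree `h` for closed half twists on `n` strands, the last strand crossing only
the strands `i < j`. -/
def DD (n j h : ℕ) : Prop := ∀ (Pt : Type) [Finite Pt] (W : Setoid Pt) (P : ℕ → ℕ → Bool → Pt),
  Cyc n P W → Legit W (qd P) (fl n) →
    Ex (par (Nat.card (Quotient W))) (Wj n j P W) (qd P) (tr n j) h

/-- The oriented state of the closed half twist on `2p` strands. -/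
def ro (p : ℕ) : Finset (ℕ × ℕ) := (fl (2 * p)).filter (fun c => c.1 < p ∧ p ≤ c.2)

/-- Boundaries concentrated at the oriented state are zero. -/
def NB (p : ℕ) : Prop := ∀ (Pt : Type) [Finite Pt] (W : Setoid Pt) (P : ℕ → ℕ → Bool → Pt),
  Cyc (2 * p) P W → Legit W (qd P) (fl (2 * p)) → ∀ t : Rg Pt,
    Bd (par (Nat.card (Quotient W))) W (qd P) (fl (2 * p)) (ro p) t →
      t ∈ J (par (Nat.card (Quotient W))) (U W (qd P) (fl (2 * p)) (ro p)) (p ^ 2)

/-- Rotated labels. -/
def rotP (n s : ℕ) (P : ℕ → ℕ → Bool → Pt) : ℕ → ℕ → Bool → Pt :=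
  fun i j b => P ((i + s) % n) ((j + s) % n) b

/-- The crossing of the rotated labels. -/
def rof (n s : ℕ) (c : ℕ × ℕ) : ℕ × ℕ := op ((c.1 + s) % n) ((c.2 + s) % n)

/-- The oriented state in rotated labels: pairs between `{p-1, …, 2p-2}` and
`{0, …, p-2} ∪ {2p-1}`. -/
def ror (p : ℕ) : Finset (ℕ × ℕ) :=
  (fl (2 * p)).filter (fun c => (c.1 + 1 < p ∧ p ≤ c.2 + 1 ∧ c.2 + 1 < 2 * p) ∨
    (p ≤ c.1 + 1 ∧ c.2 + 1 = 2 * p))

end Pool.HPS
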