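import Pool.Agent.HPS.Lee
import Pool.Agent.HPS.DefsC

/-!
# Module HPS-Conc: the diagram of `H_p` is a legitimate closed half twist

PLAN.
* `wires q a b ↔ wire q a = wire q b` (`Setoid.ker`).  For `i ≠ j`, `i, j < 2q+2`: `he q i j s = (i, pos, s)` with `pos = j` if `j < i` and `j - 1` if `i < j` (values `< 2q+1`), so
  `wire (he q i j true) = (i, pos)` and `wire (he q i j false) = (i, pos - 1)` in `Fin (2q+1)` (`0 - 1 = last`).
* `cyc_con`: `Lin.a`: `j + 1 ≠ i`, `j ≠ i`: `pos (j+1) = pos j + 1`; `Lin.b`: strand `i+1` between `i` and `i+2`: `pos = i` and `i + 1`; `c`: the last position is `2q`, the first is `0`.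
* `legit_con`: the labels `(c, k)`, `c ∈ fl (2q+2)`, `k : Fin 4`, correspond bijectively to the half-edges (`qd (he q) c k`): `(i,t,s)` with `j = t` (`t < i`) or `t+1`, `c = op i j`;
  and the class of a half-edge for `wires q` is `{(i,t,true), (i,t+1,false)}`.
* `card_wires`: `Quotient (Setoid.ker (wire q)) ≃ Set.range (wire q) = univ` (`Setoid.quotientKerEquivOfSurjective`), `(2q+2)(2q+1)` elements.
-/

set_option autoImplicit false

open Finset MvPolynomial

namespace Pool.HPS

private theorem wires_iff {q : ℕ} {h h' : HE q} : wires q h h' ↔ wire q h = wire q h' :=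
  Setoid.ker_def

private theorem fin_add_val {n : ℕ} (t : Fin (n + 1)) :
    ((t + 1 : Fin (n + 1)) : ℕ) = if (t : ℕ) = n then 0 else (t : ℕ) + 1 := by
  rw [Fin.val_add_one]
  by_cases h : t = Fin.last n
  · rw [if_pos h, if_pos (by rw [h]; rfl)]
  · rw [if_neg h, if_neg (fun e => h (Fin.ext (by rw [e]; rfl)))]

private theorem wire_true {q : ℕ} (i : Fin (2 * q + 2)) (t : Fin (2 * q + 1)) :
    wire q (i, t, true) = (i, t) := rfl

private theorem wire_false {q : ℕ} (i : Fin (2 * q + 2)) (t : Fin (2 * q + 1)) :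
    wire q (i, t, false) = (i, t - 1) := rfl

private theorem w_tf {q : ℕ} (i : Fin (2 * q + 2)) {t u : Fin (2 * q + 1)} (h : u = t + 1) :
    wires q (i, t, true) (i, u, false) := by
  rw [wires_iff, wire_true, wire_false, h, add_sub_cancel_right]

/-- The position of the crossing with the strand `j` on the strand `i`. -/
private def ps (i j : ℕ) : ℕ := if j < i then j else j - 1

private theorem ps_lt {q i j : ℕ} (hi : i < 2 * q + 2) (hj : j < 2 * q + 2) :
    ps i j < 2 * q + 1 := by
  unfold ps
  split_ifs <;> omega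

private theorem he_eq {q i j : ℕ} (hi : i < 2 * q + 2) (hj : j < 2 * q + 2) (s : Bool) :
    he q i j s = (⟨i, hi⟩, ⟨ps i j, ps_lt hi hj⟩, s) := by
  have h1 : (Fin.ofNat (2 * q + 2) i) = ⟨i, hi⟩ := Fin.ext (Nat.mod_eq_of_lt hi)
  have h2 : (Fin.ofNat (2 * q + 1) (if j < i then j else j - 1)) = ⟨ps i j, ps_lt hi hj⟩ :=
    Fin.ext (Nat.mod_eq_of_lt (ps_lt hi hj))
  rw [he, h1, h2]

private theorem he_tf {q i j k : ℕ} (hi : i < 2 * q + 2) (hj : j < 2 * q + 2)
    (hk : k < 2 * q + 2) (h : ps i k = if ps i j = 2 * q then 0 else ps i j + 1) :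
    wires q (he q i j true) (he q i k false) := by
  rw [he_eq hi hj, he_eq hi hk]
  apply w_tf
  apply Fin.ext
  rw [fin_add_val]
  exact h

theorem cyc_con (q : ℕ) : Cyc (2 * q + 2) (he q) (wires q) where
  a := by
    intro i j hi hj h1 h2
    apply he_tf hi (by omega) hj
    unfold ps
    split_ifs <;> omega
  b := by
    intro i hi
    apply he_tf (by omega) (by omega) hi
    unfold ps
    split_ifs <;> omega
  c := by
    intro i hi
    have h1 : lst (2 * q + 2) i < 2 * q + 2 := by
      unfold lst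
      split_ifs <;> omega
    have h2 : fst' i < 2 * q + 2 := by
      unfold fst'
      split_ifs <;> omega
    apply he_tf hi h1 h2
    unfold ps lst fst'
    split_ifs <;> omega

/-- The strand crossed at the position `t` of the strand `i`. -/
private def st (i t : ℕ) : ℕ := if t < i then t else t + 1

/-- The label of a half-edge. -/
private def lab {q : ℕ} (h : HE q) : (ℕ × ℕ) × Fin 4 :=
  (op h.1 (st h.1 h.2.1),
    if (h.1 : ℕ) < st h.1 h.2.1 then (if h.2.2 then 3 else 0) else (if h.2.2 then 1 else 2))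

private theorem ps_st {i t : ℕ} : ps i (st i t) = t := by
  unfold ps st
  split_ifs <;> omega

private theorem st_ps {i j : ℕ} (h : i ≠ j) : st i (ps i j) = j := by
  unfold ps st
  split_ifs <;> omega

private theorem st_ne {i t : ℕ} : st i t ≠ i := by
  unfold st
  split_ifs <;> omega

private theorem lab_mem {q : ℕ} (h : HE q) : (lab h).1 ∈ cr q := by
  have h1 := h.1.isLt
  have h2 := h.2.1.isLt
  have h3 : st h.1 h.2.1 ≠ h.1 := st_ne
  have h4 : st h.1 h.2.1 < 2 * q + 2 := by
    unfold st
    split_ifs <;> omega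
  unfold lab op cr fl
  rw [mem_filter, mem_product, mem_range, mem_range]
  dsimp only
  split_ifs <;> dsimp only <;> omega

private theorem hx_lab {q : ℕ} (h : HE q) : hx q (lab h).1 (lab h).2 = h := by
  obtain ⟨i, t, s⟩ := h
  have h1 := i.isLt
  have h2 := t.isLt
  have h3 : st i t ≠ i := st_ne
  have h4 : st i t < 2 * q + 2 := by
    unfold st
    split_ifs <;> omega
  have key : he q i (st i t) s = (i, t, s) := by
    rw [he_eq i.isLt h4]
    refine Prod.ext rfl (Prod.ext (Fin.ext ps_st) rfl)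
  by_cases h5 : (i : ℕ) < st i t
  · have e : lab (i, t, s) = ((((i : ℕ), st i t) : ℕ × ℕ), if s then 3 else 0) := by
      unfold lab op
      dsimp only
      rw [if_pos h5, if_pos h5]
    rw [e]
    cases s
    · exact key
    · exact key
  · have e : lab (i, t, s) = (((st i t, (i : ℕ)) : ℕ × ℕ), if s then 1 else 2) := by
      unfold lab op
      dsimp only
      rw [if_neg h5, if_neg h5]
    rw [e]
    cases s
    · exact key
    · exact key

private theorem lab_he {q i j : ℕ} (hi : i < 2 * q + 2) (hj : j < 2 * q + 2) (hij : i ≠ j)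
    (s : Bool) : lab (he q i j s) = (op i j, if i < j then (if s then 3 else 0) else
      (if s then 1 else 2)) := by
  rw [he_eq hi hj]
  unfold lab
  dsimp only
  rw [st_ps hij]

private theorem lab_hx {q : ℕ} {l : (ℕ × ℕ) × Fin 4} (hl : l.1 ∈ cr q) :
    lab (hx q l.1 l.2) = l := by
  obtain ⟨⟨a, b⟩, k⟩ := l
  unfold cr fl at hl
  rw [mem_filter, mem_product, mem_range, mem_range] at hl
  obtain ⟨⟨ha, hb⟩, hab⟩ := hl
  dsimp only at ha hb hab
  have o1 : op a b = (a, b) := by rw [op, if_pos hab]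
  have o2 : op b a = (a, b) := by rw [op, if_neg (by omega)]
  have k0 : lab (he q a b false) = ((a, b), 0) := by
    rw [lab_he ha hb (by omega), if_pos hab, o1]; rfl
  have k3 : lab (he q a b true) = ((a, b), 3) := by
    rw [lab_he ha hb (by omega), if_pos hab, o1]; rfl
  have k1 : lab (he q b a true) = ((a, b), 1) := by
    rw [lab_he hb ha (by omega), if_neg (by omega), o2]; rfl
  have k2 : lab (he q b a false) = ((a, b), 2) := by
    rw [lab_he hb ha (by omega), if_neg (by omega), o2]; rfl
  fin_cases k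
  · exact k0
  · exact k1
  · exact k2
  · exact k3

/-- The other end of the wire of a half-edge. -/
private def oth {q : ℕ} (h : HE q) : HE q :=
  if h.2.2 then (h.1, h.2.1 + 1, false) else (h.1, h.2.1 - 1, true)

private theorem oth_ne {q : ℕ} (h : HE q) : oth h ≠ h := by
  obtain ⟨i, t, s⟩ := h
  cases s
  · intro e
    have h1 : (true : Bool) = false := congrArg (fun x : HE q => x.2.2) e
    exact absurd h1 (by decide)
  · intro e
    have h1 : (false : Bool) = true := congrArg (fun x : HE q => x.2.2) e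
    exact absurd h1 (by decide)

private theorem wire_oth {q : ℕ} (h : HE q) : wire q h = wire q (oth h) := by
  obtain ⟨i, t, s⟩ := h
  cases s
  · show ((i, t - 1) : Fin (2 * q + 2) × Fin (2 * q + 1)) = (i, t - 1)
    rfl
  · show ((i, t) : Fin (2 * q + 2) × Fin (2 * q + 1)) = (i, t + 1 - 1)
    rw [add_sub_cancel_right]

private theorem wire_eq {q : ℕ} {h h' : HE q} (e : wire q h = wire q h') :
    h' = h ∨ h' = oth h := by
  obtain ⟨i, t, s⟩ := h
  obtain ⟨i', t', s'⟩ := h'
  cases s
  · cases s'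
    · rw [wire_false, wire_false] at e
      obtain ⟨e1, e2⟩ := Prod.mk.inj e
      left
      rw [e1, sub_left_injective e2]
    · rw [wire_false, wire_true] at e
      obtain ⟨e1, e2⟩ := Prod.mk.inj e
      right
      rw [← e1, ← e2]
      rfl
  · cases s'
    · rw [wire_true, wire_false] at e
      obtain ⟨e1, e2⟩ := Prod.mk.inj e
      right
      rw [← e1, e2]
      show (i, t', false) = (i, t' - 1 + 1, false)
      rw [sub_add_cancel]
    · rw [wire_true, wire_true] at e
      obtain ⟨e1, e2⟩ := Prod.mk.inj e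
      left
      rw [e1, e2]

theorem legit_con (q : ℕ) : Legit (wires q) (hx q) (cr q) := by
  intro l hl
  refine ⟨lab (oth (hx q l.1 l.2)), lab_mem _, ?_, ?_, ?_⟩
  · intro e
    have h1 : hx q (lab (oth (hx q l.1 l.2))).1 (lab (oth (hx q l.1 l.2))).2 = hx q l.1 l.2 := by
      rw [e]
    rw [hx_lab] at h1
    exact oth_ne _ h1
  · show wires q (hx q l.1 l.2) (hx q (lab (oth (hx q l.1 l.2))).1 (lab (oth (hx q l.1 l.2))).2)
    rw [hx_lab, wires_iff]
    exact wire_oth _
  · intro l'' hl'' hne hW
    have h1 : wires q (hx q l.1 l.2) (hx q l''.1 l''.2) := hW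
    rw [wires_iff] at h1
    rcases wire_eq h1 with h2 | h2
    · refine absurd ?_ hne
      rw [← lab_hx hl'', h2, lab_hx hl]
    · rw [← h2, lab_hx hl'']

theorem card_wires (q : ℕ) : Nat.card (Quotient (wires q)) = (2 * q + 2) * (2 * q + 1) := by
  have hs : Function.Surjective (wire q) := fun x => ⟨(x.1, x.2, true), rfl⟩
  have h1 := Nat.card_congr (Setoid.quotientKerEquivOfSurjective (wire q) hs)
  rw [wires, h1, Nat.card_eq_fintype_card, Fintype.card_prod, Fintype.card_fin, Fintype.card_fin]

/-- The ideal is not everything: product of one dot on each of several circles. -/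
theorem prod_not_mem {Pt : Type} [Finite Pt] {V : Setoid Pt} (R : Finset Pt)
    (hR : ∀ a ∈ R, ∀ b ∈ R, V a b → a = b) : (∏ h ∈ R, X h : Rg Pt) ∉ I V := by
  classical
  intro hmem
  let φ : Rg Pt →ₐ[ZMod 2] MvPolynomial (Quotient V) (ZMod 2) := aeval (fun p => X ⟦p⟧)
  have hφ : ∀ p : Pt, φ (X p) = X ⟦p⟧ := fun p => aeval_X _ p
  set M : Ideal (MvPolynomial (Quotient V) (ZMod 2)) :=
    Ideal.span ((fun s => monomial s (1 : ZMod 2)) ''
      {s : Quotient V →₀ ℕ | ∃ K, s = Finsupp.single K 2}) with hM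
  have h1 : I V ≤ M.comap φ := by
    refine Ideal.span_le.2 ?_
    rintro f (⟨p, rfl⟩ | ⟨a, b, hab, rfl⟩)
    · show φ (X p ^ 2) ∈ M
      rw [map_pow, hφ]
      refine Ideal.subset_span ⟨Finsupp.single ⟦p⟧ 2, ⟨⟦p⟧, rfl⟩, ?_⟩
      exact (X_pow_eq_monomial).symm
    · show φ (X a + X b) ∈ M
      have e : (⟦a⟧ : Quotient V) = ⟦b⟧ := Quotient.sound hab
      rw [map_add, hφ, hφ, e, CharTwo.add_self_eq_zero]
      exact Ideal.zero_mem _
  have h2 : φ (∏ h ∈ R, X h) = monomial (∑ h ∈ R, Finsupp.single (⟦h⟧ : Quotient V) 1)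
      (1 : ZMod 2) := by
    rw [map_prod, monomial_sum_one]
    exact Finset.prod_congr rfl fun h _ => hφ h
  have h3 : φ (∏ h ∈ R, X h) ∈ M := h1 hmem
  rw [h2, hM, mem_ideal_span_monomial_image] at h3
  obtain ⟨s, ⟨K, rfl⟩, hs⟩ := h3 _ (by
    rw [support_monomial, if_neg one_ne_zero]
    exact Finset.mem_singleton_self _)
  have h4 := hs K
  rw [Finsupp.single_eq_same, Finsupp.finsetSum_apply] at h4
  have h5 : ∑ h ∈ R, (Finsupp.single (⟦h⟧ : Quotient V) 1 : Quotient V →₀ ℕ) K ≤ 1 := by
    by_cases hK : ∃ a ∈ R, (⟦a⟧ : Quotient V) = K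
    · obtain ⟨a, ha, haK⟩ := hK
      rw [Finset.sum_eq_single_of_mem a ha]
      · rw [haK, Finsupp.single_eq_same]
      · intro b hb hba
        apply Finsupp.single_eq_of_ne
        intro e
        refine hba (hR b hb a ha (Quotient.exact ?_))
        rw [haK, e]
    · rw [Finset.sum_eq_zero]
      · exact Nat.zero_le _
      · intro b hb
        apply Finsupp.single_eq_of_ne
        intro e
        exact hK ⟨b, hb, e.symm⟩
  omega

end Pool.HPS
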