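import Pool.Agent.HPS.Stp

/-!
# Module HPS-Run: retracting a finger across several strands

`ST_run`: induction on `hi` with `ST`, `Rd_comp`, `RdB_comp`; `ET_run`: induction downwards on `lo` with `ET`. The relations
between the points (`st_facts`, `et_facts`) follow from the smoothings and the wires, strand by strand from the tip.
-/

set_option autoImplicit false

open Finset MvPolynomial

namespace Pool.HPS

variable {Pt : Type} {W : Setoid Pt} {P : ℕ → ℕ → Bool → Pt} {u v lo hi : ℕ}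

theorem op_inj {w w' : ℕ} (h : w ≠ u) (h' : w' ≠ u) (he : op w u = op w' u) : w = w' := by
  unfold op at he
  split_ifs at he <;> rw [Prod.mk.injEq] at he <;> omega

private theorem op_ne {w w' a b : ℕ} (hab : a ≠ b) (he : op w a = op w' b) : a = w' := by
  unfold op at he
  split_ifs at he <;> rw [Prod.mk.injEq] at he <;> omega

private theorem rel1 {w a : ℕ} {S r : Finset (ℕ × ℕ)} (h : op w a ∈ S) (h' : op w a ∈ r) :
    U W (qd P) S r (P w a false) (P a w false) ∧ U W (qd P) S r (P w a true) (P a w true) := by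
  have h1 := U_rel1 (W := W) (x := qd P) h h'
  unfold op at h1
  split_ifs at h1
  · exact ⟨h1.1, Setoid.symm' _ h1.2⟩
  · exact ⟨Setoid.symm' _ h1.1, h1.2⟩

private theorem rel0 {w a : ℕ} {S r : Finset (ℕ × ℕ)} (h : op w a ∈ S) (h' : op w a ∉ r) :
    U W (qd P) S r (P w a false) (P a w true) ∧ U W (qd P) S r (P a w false) (P w a true) := by
  have h1 := U_rel0 (W := W) (x := qd P) h h'
  unfold op at h1
  split_ifs at h1
  · exact ⟨h1.1, h1.2⟩
  · exact ⟨h1.2, h1.1⟩

private theorem mem_ev {c : ℕ × ℕ} : c ∈ ev u v lo hi ↔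
    (∃ w, (lo ≤ w ∧ w < hi) ∧ op w u = c) ∨ (∃ w, (lo ≤ w ∧ w < hi) ∧ op w v = c) := by
  simp only [ev, Finset.mem_union, Finset.mem_image, Finset.mem_Ico]

private theorem mem_on {c : ℕ × ℕ} : c ∈ on u lo hi ↔ ∃ w, (lo ≤ w ∧ w < hi) ∧ op w u = c := by
  simp only [on, Finset.mem_image, Finset.mem_Ico]

private theorem ev_succ (h : lo ≤ hi) :
    ev u v lo (hi + 1) = ev u v lo hi ∪ {op hi u, op hi v} := by
  ext c
  rw [Finset.mem_union, mem_ev, mem_ev, Finset.mem_insert, Finset.mem_singleton]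
  constructor
  · rintro (⟨w, ⟨h1, h2⟩, rfl⟩ | ⟨w, ⟨h1, h2⟩, rfl⟩)
    · rcases Nat.lt_succ_iff_lt_or_eq.1 h2 with h3 | rfl
      · exact Or.inl (Or.inl ⟨w, ⟨h1, h3⟩, rfl⟩)
      · exact Or.inr (Or.inl rfl)
    · rcases Nat.lt_succ_iff_lt_or_eq.1 h2 with h3 | rfl
      · exact Or.inl (Or.inr ⟨w, ⟨h1, h3⟩, rfl⟩)
      · exact Or.inr (Or.inr rfl)
  · rintro ((⟨w, ⟨h1, h2⟩, rfl⟩ | ⟨w, ⟨h1, h2⟩, rfl⟩) | (rfl | rfl))
    · exact Or.inl ⟨w, ⟨h1, by omega⟩, rfl⟩
    · exact Or.inr ⟨w, ⟨h1, by omega⟩, rfl⟩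
    · exact Or.inl ⟨hi, ⟨h, by omega⟩, rfl⟩
    · exact Or.inr ⟨hi, ⟨h, by omega⟩, rfl⟩

private theorem on_succ (h : lo ≤ hi) : on u lo (hi + 1) = on u lo hi ∪ {op hi u} := by
  ext c
  rw [Finset.mem_union, mem_on, mem_on, Finset.mem_singleton]
  constructor
  · rintro ⟨w, ⟨h1, h2⟩, rfl⟩
    rcases Nat.lt_succ_iff_lt_or_eq.1 h2 with h3 | rfl
    · exact Or.inl ⟨w, ⟨h1, h3⟩, rfl⟩
    · exact Or.inr rfl
  · rintro (⟨w, ⟨h1, h2⟩, rfl⟩ | rfl)
    · exact ⟨w, ⟨h1, by omega⟩, rfl⟩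
    · exact ⟨hi, ⟨h, by omega⟩, rfl⟩

private theorem ev_pred (h : lo < hi) :
    ev u v lo hi = ev u v (lo + 1) hi ∪ {op lo u, op lo v} := by
  ext c
  rw [Finset.mem_union, mem_ev, mem_ev, Finset.mem_insert, Finset.mem_singleton]
  constructor
  · rintro (⟨w, ⟨h1, h2⟩, rfl⟩ | ⟨w, ⟨h1, h2⟩, rfl⟩)
    · rcases Nat.lt_or_eq_of_le h1 with h3 | rfl
      · exact Or.inl (Or.inl ⟨w, ⟨h3, h2⟩, rfl⟩)
      · exact Or.inr (Or.inl rfl)
    · rcases Nat.lt_or_eq_of_le h1 with h3 | rfl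
      · exact Or.inl (Or.inr ⟨w, ⟨h3, h2⟩, rfl⟩)
      · exact Or.inr (Or.inr rfl)
  · rintro ((⟨w, ⟨h1, h2⟩, rfl⟩ | ⟨w, ⟨h1, h2⟩, rfl⟩) | (rfl | rfl))
    · exact Or.inl ⟨w, ⟨by omega, h2⟩, rfl⟩
    · exact Or.inr ⟨w, ⟨by omega, h2⟩, rfl⟩
    · exact Or.inl ⟨lo, ⟨le_rfl, h⟩, rfl⟩
    · exact Or.inr ⟨lo, ⟨le_rfl, h⟩, rfl⟩

private theorem on_pred (h : lo < hi) : on u lo hi = on u (lo + 1) hi ∪ {op lo u} := by
  ext c
  rw [Finset.mem_union, mem_on, mem_on, Finset.mem_singleton]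
  constructor
  · rintro ⟨w, ⟨h1, h2⟩, rfl⟩
    rcases Nat.lt_or_eq_of_le h1 with h3 | rfl
    · exact Or.inl ⟨w, ⟨h3, h2⟩, rfl⟩
    · exact Or.inr rfl
  · rintro (⟨w, ⟨h1, h2⟩, rfl⟩ | rfl)
    · exact ⟨w, ⟨by omega, h2⟩, rfl⟩
    · exact ⟨lo, ⟨le_rfl, h⟩, rfl⟩

private theorem on_sub_u : on u lo hi ⊆ ev u v lo hi := Finset.subset_union_left

private theorem on_sub_v : on v lo hi ⊆ ev u v lo hi := Finset.subset_union_right

private theorem ev_disj {w0 : ℕ} (huv : u ≠ v) (h : ∀ w, lo ≤ w → w < hi → w ≠ w0)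
    (hu0 : w0 ≠ u) (hv0 : w0 ≠ v) (hu : u ∉ Ico lo hi) (hv : v ∉ Ico lo hi) :
    Disjoint (ev u v lo hi) {op w0 u, op w0 v} := by
  rw [Finset.mem_Ico] at hu hv
  rw [Finset.disjoint_left]
  intro c hc hc'
  rw [mem_ev] at hc
  rw [Finset.mem_insert, Finset.mem_singleton] at hc'
  rcases hc with ⟨w, ⟨h1, h2⟩, rfl⟩ | ⟨w, ⟨h1, h2⟩, rfl⟩
  · rcases hc' with h3 | h3
    · exact h w h1 h2 (op_inj (show w ≠ u from fun e => hu (e ▸ ⟨h1, h2⟩)) hu0 h3)
    · exact hu0 (op_ne huv h3).symm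
  · rcases hc' with h3 | h3
    · exact hv0 (op_ne huv.symm h3).symm
    · exact h w h1 h2 (op_inj (show w ≠ v from fun e => hv (e ▸ ⟨h1, h2⟩)) hv0 h3)

private theorem not_on {w : ℕ} (huv : u ≠ v) (hv : v ∉ Ico lo hi) : op w v ∉ on u lo hi := by
  rw [Finset.mem_Ico] at hv
  rw [mem_on]
  rintro ⟨w', ⟨h1, h2⟩, h3⟩
  exact hv (op_ne huv.symm h3.symm ▸ ⟨h1, h2⟩)

private theorem W_le {S r : Finset (ℕ × ℕ)} {a b : Pt} (h : W a b) : U W (qd P) S r a b :=
  (le_U : W ≤ U W (qd P) S r) h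

/-- the relations along the retracted finger, start tip -/
private theorem st_facts (huv : u ≠ v) (hv : v ∉ Ico lo hi)
    (hW : Wir W P u v lo hi) (ht : W (P u lo false) (P v lo false)) (w : ℕ) (h1 : lo ≤ w)
    (h2 : w < hi) :
    U W (qd P) (ev u v lo hi) (on u lo hi) (P u w false) (P v w false) ∧
      U W (qd P) (ev u v lo hi) (on u lo hi) (P u w true) (P v w true) ∧
      U W (qd P) (ev u v lo hi) (on u lo hi) (P w u false) (P w v true) := by
  have step : ∀ w, lo ≤ w → w < hi →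
      U W (qd P) (ev u v lo hi) (on u lo hi) (P u w false) (P v w false) →
      U W (qd P) (ev u v lo hi) (on u lo hi) (P u w true) (P v w true) ∧
      U W (qd P) (ev u v lo hi) (on u lo hi) (P w u false) (P w v true) := by
    intro w h1 h2 hw
    have a := rel1 (W := W) (P := P) (w := w) (a := u) (S := ev u v lo hi) (r := on u lo hi)
      (mem_ev.2 (Or.inl ⟨w, ⟨h1, h2⟩, rfl⟩)) (mem_on.2 ⟨w, ⟨h1, h2⟩, rfl⟩)
    have b := rel0 (W := W) (P := P) (w := w) (a := v) (S := ev u v lo hi) (r := on u lo hi)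
      (mem_ev.2 (Or.inr ⟨w, ⟨h1, h2⟩, rfl⟩)) (not_on huv hv)
    have hc := W_le (P := P) (S := ev u v lo hi) (r := on u lo hi) (hW.cr w h1 h2)
    exact ⟨Setoid.trans' _ (Setoid.symm' _ a.2) (Setoid.trans' _ hc b.1),
      Setoid.trans' _ a.1 (Setoid.trans' _ hw b.2)⟩
  have main : ∀ w, lo ≤ w → w < hi →
      U W (qd P) (ev u v lo hi) (on u lo hi) (P u w false) (P v w false) := by
    intro w h1
    induction w, h1 using Nat.le_induction with
    | base =>
      intro _
      exact W_le ht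
    | succ w h1 ih =>
      intro h2
      have h3 := step w h1 (by omega) (ih (by omega))
      exact Setoid.trans' _ (Setoid.symm' _ (W_le (hW.su w h1 h2)))
        (Setoid.trans' _ h3.1 (W_le (hW.sv w h1 h2)))
  exact ⟨main w h1 h2, step w h1 h2 (main w h1 h2)⟩

/-- the relations along the retracted finger, end tip -/
private theorem et_facts (huv : u ≠ v) (hu : u ∉ Ico lo hi)
    (hW : Wir W P u v lo hi) (ht : W (P u (hi - 1) true) (P v (hi - 1) true)) (w : ℕ)
    (h1 : lo ≤ w) (h2 : w < hi) :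
    U W (qd P) (ev u v lo hi) (on v lo hi) (P u w false) (P v w false) ∧
      U W (qd P) (ev u v lo hi) (on v lo hi) (P u w true) (P v w true) ∧
      U W (qd P) (ev u v lo hi) (on v lo hi) (P w u false) (P w v true) := by
  have step : ∀ w, lo ≤ w → w < hi →
      U W (qd P) (ev u v lo hi) (on v lo hi) (P u w true) (P v w true) →
      U W (qd P) (ev u v lo hi) (on v lo hi) (P u w false) (P v w false) ∧
      U W (qd P) (ev u v lo hi) (on v lo hi) (P w u false) (P w v true) := by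
    intro w h1 h2 hw
    have a := rel0 (W := W) (P := P) (w := w) (a := u) (S := ev u v lo hi) (r := on v lo hi)
      (mem_ev.2 (Or.inl ⟨w, ⟨h1, h2⟩, rfl⟩)) (not_on huv.symm hu)
    have b := rel1 (W := W) (P := P) (w := w) (a := v) (S := ev u v lo hi) (r := on v lo hi)
      (mem_ev.2 (Or.inr ⟨w, ⟨h1, h2⟩, rfl⟩)) (mem_on.2 ⟨w, ⟨h1, h2⟩, rfl⟩)
    have hc := W_le (P := P) (S := ev u v lo hi) (r := on v lo hi) (hW.cr w h1 h2)
    exact ⟨Setoid.trans' _ a.2 (Setoid.trans' _ hc b.1),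
      Setoid.trans' _ a.1 (Setoid.trans' _ hw (Setoid.symm' _ b.2))⟩
  have main : ∀ k w, w + k + 1 = hi → lo ≤ w →
      U W (qd P) (ev u v lo hi) (on v lo hi) (P u w true) (P v w true) := by
    intro k
    induction k with
    | zero =>
      intro w hk _
      have e : w = hi - 1 := by omega
      rw [e]
      exact W_le ht
    | succ k ih =>
      intro w hk h1
      have h3 := step (w + 1) (by omega) (by omega) (ih (w + 1) (by omega) (by omega))
      exact Setoid.trans' _ (W_le (hW.su w h1 (by omega)))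
        (Setoid.trans' _ h3.1 (Setoid.symm' _ (W_le (hW.sv w h1 (by omega)))))
  have h3 := main (hi - w - 1) w (by omega) h1
  have h4 := step w h1 h2 h3
  exact ⟨h4.1, h3, h4.2⟩

private theorem wir_mono {lo' hi' : ℕ} (h : Wir W P u v lo hi) (h1 : lo ≤ lo') (h2 : hi' ≤ hi) :
    Wir W P u v lo' hi' :=
  ⟨fun w a b => h.cr w (by omega) (by omega), fun w a b => h.su w (by omega) (by omega),
    fun w a b => h.sv w (by omega) (by omega)⟩

private theorem ev_empty : ev u v lo lo = ∅ := by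
  simp [ev]

private theorem on_empty : on u lo lo = ∅ := by
  simp [on]

private theorem st_main (huv : u ≠ v) (ht : W (P u lo false) (P v lo false)) :
    ∀ hi, lo ≤ hi → u ∉ Ico lo hi → v ∉ Ico lo hi → Wir W P u v lo hi →
      Rd W (qd P) (ev u v lo hi) (on u lo hi) (hi - lo) ∧
        RdB W (qd P) (ev u v lo hi) (on u lo hi) := by
  intro hi h
  induction hi, h using Nat.le_induction with
  | base =>
    intro _ _ _
    rw [ev_empty, on_empty, Nat.sub_self]
    exact ⟨Rd_zero _ _, RdB_zero _ _⟩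
  | succ hi h ih =>
    intro hu hv hW
    have hu' := hu
    have hv' := hv
    rw [Finset.mem_Ico] at hu' hv'
    have hu1 : u ∉ Ico lo hi := by
      rw [Finset.mem_Ico]
      omega
    have hv1 : v ∉ Ico lo hi := by
      rw [Finset.mem_Ico]
      omega
    have hu2 : hi ≠ u := by omega
    have hv2 : hi ≠ v := by omega
    have hW1 : Wir W P u v lo hi := wir_mono hW le_rfl (by omega)
    obtain ⟨i1, i2⟩ := ih hu1 hv1 hW1
    have tip : U W (qd P) (ev u v lo hi) (on u lo hi) (P u hi false) (P v hi false) := by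
      rcases Nat.lt_or_eq_of_le h with h3 | h3
      · have h4 := (st_facts huv hv1 hW1 ht (hi - 1) (by omega) (by omega)).2.1
        have e : hi - 1 + 1 = hi := by omega
        have h5 := hW.su (hi - 1) (by omega) (by omega)
        have h6 := hW.sv (hi - 1) (by omega) (by omega)
        rw [e] at h5 h6
        exact Setoid.trans' _ (Setoid.symm' _ (W_le h5)) (Setoid.trans' _ h4 (W_le h6))
      · subst h3
        exact W_le ht
    have h7 := ST huv hu2 hv2 tip (W_le (hW.cr hi h (by omega)))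
    have hd : Disjoint (ev u v lo hi) {op hi u, op hi v} :=
      ev_disj huv (fun w _ hw => hw.ne) hu2 hv2 hu1 hv1
    have hs : ({op hi u} : Finset (ℕ × ℕ)) ⊆ {op hi u, op hi v} := by
      rw [Finset.singleton_subset_iff]
      exact Finset.mem_insert_self _ _
    have e : hi + 1 - lo = hi - lo + 1 := by omega
    rw [ev_succ h, on_succ h, e]
    exact ⟨Rd_comp hd on_sub_u hs i1 h7.1, RdB_comp hd on_sub_u hs i2 h7.2⟩

private theorem et_main (huv : u ≠ v) (ht : W (P u (hi - 1) true) (P v (hi - 1) true)) :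
    ∀ k lo, lo + k = hi → u ∉ Ico lo hi → v ∉ Ico lo hi → Wir W P u v lo hi →
      Rd W (qd P) (ev u v lo hi) (on v lo hi) (hi - lo) ∧
        RdB W (qd P) (ev u v lo hi) (on v lo hi) := by
  intro k
  induction k with
  | zero =>
    intro lo hk _ _ _
    have e : hi = lo := by omega
    rw [e, ev_empty, on_empty, Nat.sub_self]
    exact ⟨Rd_zero _ _, RdB_zero _ _⟩
  | succ k ih =>
    intro lo hk hu hv hW
    have hu' := hu
    have hv' := hv
    rw [Finset.mem_Ico] at hu' hv'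
    have hu1 : u ∉ Ico (lo + 1) hi := by
      rw [Finset.mem_Ico]
      omega
    have hv1 : v ∉ Ico (lo + 1) hi := by
      rw [Finset.mem_Ico]
      omega
    have hu2 : lo ≠ u := by omega
    have hv2 : lo ≠ v := by omega
    have hW1 : Wir W P u v (lo + 1) hi := wir_mono hW (by omega) le_rfl
    obtain ⟨i1, i2⟩ := ih (lo + 1) (by omega) hu1 hv1 hW1
    have tip : U W (qd P) (ev u v (lo + 1) hi) (on v (lo + 1) hi) (P u lo true) (P v lo true) := by
      rcases Nat.eq_zero_or_pos k with h3 | h3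
      · have e : lo = hi - 1 := by omega
        rw [← e] at ht
        exact W_le ht
      · have h4 := (et_facts huv hu1 hW1 ht (lo + 1) le_rfl (by omega)).1
        exact Setoid.trans' _ (W_le (hW.su lo le_rfl (by omega)))
          (Setoid.trans' _ h4 (Setoid.symm' _ (W_le (hW.sv lo le_rfl (by omega)))))
    have h7 := ET huv hu2 hv2 tip (W_le (hW.cr lo le_rfl (by omega)))
    have hd : Disjoint (ev u v (lo + 1) hi) {op lo u, op lo v} :=
      ev_disj huv (fun w hw _ => by omega) hu2 hv2 hu1 hv1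
    have hs : ({op lo v} : Finset (ℕ × ℕ)) ⊆ {op lo u, op lo v} := by
      rw [Finset.singleton_subset_iff]
      exact Finset.mem_insert_of_mem (Finset.mem_singleton_self _)
    have e : hi - lo = hi - (lo + 1) + 1 := by omega
    rw [ev_pred (by omega : lo < hi), on_pred (by omega : lo < hi), e]
    exact ⟨Rd_comp hd on_sub_v hs i1 h7.1, RdB_comp hd on_sub_v hs i2 h7.2⟩

theorem ST_run (huv : u ≠ v) (hu : u ∉ Ico lo hi) (hv : v ∉ Ico lo hi) (hlt : lo < hi)
    (hW : Wir W P u v lo hi) (ht : W (P u lo false) (P v lo false)) :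
    Rd W (qd P) (ev u v lo hi) (on u lo hi) (hi - lo) ∧
    RdB W (qd P) (ev u v lo hi) (on u lo hi) ∧
    ∀ w, lo ≤ w → w < hi →
      U W (qd P) (ev u v lo hi) (on u lo hi) (P u w false) (P v w false) ∧
      U W (qd P) (ev u v lo hi) (on u lo hi) (P u w true) (P v w true) ∧
      U W (qd P) (ev u v lo hi) (on u lo hi) (P w u false) (P w v true) := by
  have h := st_main huv ht hi hlt.le hu hv hW
  exact ⟨h.1, h.2, fun w h1 h2 => st_facts huv hv hW ht w h1 h2⟩

theorem ET_run (huv : u ≠ v) (hu : u ∉ Ico lo hi) (hv : v ∉ Ico lo hi) (hlt : lo < hi)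
    (hW : Wir W P u v lo hi) (ht : W (P u (hi - 1) true) (P v (hi - 1) true)) :
    Rd W (qd P) (ev u v lo hi) (on v lo hi) (hi - lo) ∧
    RdB W (qd P) (ev u v lo hi) (on v lo hi) ∧
    ∀ w, lo ≤ w → w < hi →
      U W (qd P) (ev u v lo hi) (on v lo hi) (P u w false) (P v w false) ∧
      U W (qd P) (ev u v lo hi) (on v lo hi) (P u w true) (P v w true) ∧
      U W (qd P) (ev u v lo hi) (on v lo hi) (P w u false) (P w v true) := by
  have h := et_main huv ht (hi - lo) lo (by omega) hu hv hW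
  exact ⟨h.1, h.2, fun w h1 h2 => et_facts huv hu hW ht w h1 h2⟩

end Pool.HPS
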