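import Pool.Agent.HPS.DefsC
import Pool.Agent.HPS.Rem
import Pool.Agent.HPS.Run

/-!
# Module HPS-Red1: the finger moves in the 1-face of the crossing `{m, m + 1}`

`red1`, `red1b`: `ST_run` from the start tip given by the closing wires, and `ET_run` from the end tip given by
the wires before the crossing `{m, m + 1}`. The other statements are bookkeeping of the index sets.
-/

set_option autoImplicit false

open Finset MvPolynomial

namespace Pool.HPS

variable {Pt : Type} {W : Setoid Pt} {P : ℕ → ℕ → Bool → Pt} {m b : ℕ}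

private theorem mem_on' {u lo hi i j : ℕ} (h : hi ≤ u) :
    (i, j) ∈ on u lo hi ↔ lo ≤ i ∧ i < hi ∧ j = u := by
  simp only [on, Finset.mem_image, Finset.mem_Ico]
  constructor
  · rintro ⟨w, ⟨h1, h2⟩, h3⟩
    unfold op at h3
    rw [if_pos (by omega), Prod.mk.injEq] at h3
    obtain ⟨rfl, rfl⟩ := h3
    exact ⟨h1, h2, rfl⟩
  · rintro ⟨h1, h2, rfl⟩
    refine ⟨i, ⟨h1, h2⟩, ?_⟩
    unfold op
    rw [if_pos (by omega)]

private theorem mem_ev' {m lo hi i j : ℕ} (h : hi ≤ m) :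
    (i, j) ∈ ev m (m + 1) lo hi ↔ lo ≤ i ∧ i < hi ∧ (j = m ∨ j = m + 1) := by
  have h1 := mem_on' (i := i) (j := j) (lo := lo) h
  have h2 := mem_on' (i := i) (j := j) (lo := lo) (by omega : hi ≤ m + 1)
  rw [on] at h1 h2
  rw [ev, Finset.mem_union, h1, h2]
  tauto

private theorem mem_fl' {m i j : ℕ} : (i, j) ∈ fl m ↔ i < j ∧ j < m := by
  simp only [fl, Finset.mem_filter, Finset.mem_product, Finset.mem_range]
  omega

private theorem mem_Tall' {m i j : ℕ} : (i, j) ∈ Tall (m + 2) m ↔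
    i < j ∧ (j = m ∨ j = m + 1) := by
  simp only [Tall, Finset.mem_filter, mem_fl']
  omega

private theorem ev_add (hb : b ≤ m) :
    ev m (m + 1) 0 b ∪ ev m (m + 1) b m = ev m (m + 1) 0 m := by
  ext ⟨i, j⟩
  rw [Finset.mem_union, mem_ev' hb, mem_ev' le_rfl, mem_ev' le_rfl]
  omega

private theorem Tall_eq : Tall (m + 2) m = insert (m, m + 1) (ev m (m + 1) 0 m) := by
  ext ⟨i, j⟩
  rw [Finset.mem_insert, mem_ev' le_rfl, mem_Tall', Prod.mk.injEq]
  omega

private theorem wires {W' : Setoid Pt} (hC : Cyc (m + 2) P W) (h : W ≤ W') {lo hi : ℕ}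
    (hhi : hi ≤ m) : Wir W' P m (m + 1) lo hi :=
  ⟨fun w _ h2 => h (hC.a w m (by omega) (by omega) (by omega) (by omega)),
    fun w _ h2 => h (hC.a m w (by omega) (by omega) (by omega) (by omega)),
    fun w _ h2 => h (hC.a (m + 1) w (by omega) (by omega) (by omega) (by omega))⟩

private theorem tips : (W ⊔ s1 (qd P (m, m + 1))) (P m (m + 1) false) (P (m + 1) m false) ∧
    (W ⊔ s1 (qd P (m, m + 1))) (P (m + 1) m true) (P m (m + 1) true) := by
  have h : s1 (qd P (m, m + 1)) ≤ W ⊔ s1 (qd P (m, m + 1)) := le_sup_right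
  rw [s1_le] at h
  exact h

private theorem start_tip (hC : Cyc (m + 2) P W) (hm : 1 ≤ m) :
    (W ⊔ s1 (qd P (m, m + 1))) (P m 0 false) (P (m + 1) 0 false) := by
  have h1 := hC.c m (by omega)
  have h2 := hC.c (m + 1) (by omega)
  have e1 : lst (m + 2) m = m + 1 := by
    unfold lst
    rw [if_neg (by omega)]
    omega
  have e2 : lst (m + 2) (m + 1) = m := by
    unfold lst
    rw [if_pos rfl]
    omega
  have e3 : fst' m = 0 := by
    unfold fst'
    rw [if_neg (by omega)]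
  have e4 : fst' (m + 1) = 0 := by
    unfold fst'
    rw [if_neg (by omega)]
  rw [e1, e3] at h1
  rw [e2, e4] at h2
  have hle : W ≤ W ⊔ s1 (qd P (m, m + 1)) := le_sup_left
  exact Setoid.trans' _ (Setoid.symm' _ (hle h1))
    (Setoid.trans' _ (Setoid.symm' _ tips.2) (hle h2))

private theorem end_tip (hC : Cyc (m + 2) P W) (hm : 1 ≤ m) :
    (W ⊔ s1 (qd P (m, m + 1))) (P m (m - 1) true) (P (m + 1) (m - 1) true) := by
  have h1 := hC.b (m - 1) (by omega)
  have h2 := hC.a (m + 1) (m - 1) (by omega) (by omega) (by omega) (by omega)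
  have e1 : m - 1 + 1 = m := by omega
  have e2 : m - 1 + 2 = m + 1 := by omega
  rw [e1, e2] at h1
  rw [e1] at h2
  have hle : W ≤ W ⊔ s1 (qd P (m, m + 1)) := le_sup_left
  exact Setoid.trans' _ (hle h1) (Setoid.trans' _ tips.1 (Setoid.symm' _ (hle h2)))

private theorem ev_nil {u v lo : ℕ} : ev u v lo lo = ∅ := by
  simp [ev]

private theorem on_nil {u lo : ℕ} : on u lo lo = ∅ := by
  simp [on]

theorem red1 (hC : Cyc (m + 2) P W) (hm : 1 ≤ m) :
    Rd (W ⊔ s1 (qd P (m, m + 1))) (qd P) (ev m (m + 1) 0 m) (on m 0 m) m := by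
  have h := ST_run (W := W ⊔ s1 (qd P (m, m + 1))) (P := P) (u := m) (v := m + 1) (lo := 0) (hi := m)
    (by omega) (by simp) (by simp) (by omega) (wires hC le_sup_left le_rfl) (start_tip hC hm)
  exact h.1

theorem red1b (hC : Cyc (m + 2) P W) (hb : b ≤ m) :
    RdB (W ⊔ s1 (qd P (m, m + 1))) (qd P) (ev m (m + 1) 0 b ∪ ev m (m + 1) b m)
      (on m 0 b ∪ on (m + 1) b m) := by
  have hd : Disjoint (ev m (m + 1) 0 b) (ev m (m + 1) b m) := by
    rw [Finset.disjoint_left]
    rintro ⟨i, j⟩ h1 h2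
    rw [mem_ev' hb] at h1
    rw [mem_ev' le_rfl] at h2
    omega
  refine RdB_comp hd Finset.subset_union_left Finset.subset_union_right ?_ ?_
  · rcases Nat.eq_zero_or_pos b with h0 | h0
    · rw [h0, ev_nil, on_nil]
      exact RdB_zero _ _
    · exact (ST_run (W := W ⊔ s1 (qd P (m, m + 1))) (P := P) (u := m) (v := m + 1) (lo := 0)
        (hi := b) (by omega) (by simpa using hb) (by simp; omega) h0
        (wires hC le_sup_left hb) (start_tip hC (by omega))).2.1
  · rcases Nat.lt_or_ge b m with h0 | h0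
    · have hle : W ⊔ s1 (qd P (m, m + 1)) ≤
          U (W ⊔ s1 (qd P (m, m + 1))) (qd P) (ev m (m + 1) 0 b) (on m 0 b) := le_U
      exact (ET_run (W := U (W ⊔ s1 (qd P (m, m + 1))) (qd P) (ev m (m + 1) 0 b) (on m 0 b))
        (P := P) (u := m) (v := m + 1) (lo := b) (hi := m) (by omega) (by simp) (by simp) h0
        (wires hC (le_sup_left.trans hle) le_rfl) (hle (end_tip hC (by omega)))).2.1
    · have e : m = b := by omega
      rw [← e, ev_nil, on_nil]
      exact RdB_zero _ _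

theorem env1 (hb : b ≤ m) :
    U (W ⊔ s1 (qd P (m, m + 1))) (qd P) (ev m (m + 1) 0 b ∪ ev m (m + 1) b m)
      (on m 0 b ∪ on (m + 1) b m) = Wb m b P W := by
  unfold Wb rb
  rw [Tall_eq, U_ins1 (Finset.mem_insert_self _ _), ev_add hb]
  refine U_congr ?_
  rintro ⟨i, j⟩ hc
  rw [mem_ev' le_rfl] at hc
  rw [Finset.mem_insert, Prod.mk.injEq]
  constructor
  · exact Or.inr
  · rintro (h | h)
    · omega
    · exact h

theorem env1m : U (W ⊔ s1 (qd P (m, m + 1))) (qd P) (ev m (m + 1) 0 m) (on m 0 m) =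
    Wb m m P W := by
  have h := env1 (W := W) (P := P) (le_refl m)
  rw [ev_nil, on_nil, Finset.union_empty, Finset.union_empty] at h
  exact h

theorem card_on (u lo hi : ℕ) (hu : u ∉ Ico lo hi) : (on u lo hi).card = hi - lo := by
  rw [on, Finset.card_image_of_injOn, Nat.card_Ico]
  intro w hw w' hw' h
  have h1 : w ∈ Ico lo hi := by simpa using hw
  have h2 : w' ∈ Ico lo hi := by simpa using hw'
  have e1 : w ≠ u := by
    rintro rfl
    exact hu h1
  have e2 : w' ≠ u := by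
    rintro rfl
    exact hu h2
  exact op_inj e1 e2 h

theorem card_onb (hb : b ≤ m) : (on m 0 b ∪ on (m + 1) b m).card = m := by
  rw [Finset.card_union_of_disjoint, card_on _ _ _ (by simpa using hb), card_on _ _ _ (by simp)]
  · omega
  · rw [Finset.disjoint_left]
    rintro ⟨i, j⟩ h1 h2
    rw [mem_on' hb] at h1
    rw [mem_on' (by omega)] at h2
    omega

/-- Sets for the step `NB (q + 1) → NB q`, `m = 2q`. -/
theorem ror_split (q : ℕ) :
    ror (q + 1) = insert (2 * q, 2 * q + 1)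
      (ro q ∪ (on (2 * q) 0 q ∪ on (2 * q + 1) q (2 * q))) ∧
    (2 * q, 2 * q + 1) ∉ ro q ∪ (on (2 * q) 0 q ∪ on (2 * q + 1) q (2 * q)) := by
  have key : ∀ i j : ℕ, (i, j) ∈ ro q ∪ (on (2 * q) 0 q ∪ on (2 * q + 1) q (2 * q)) ↔
      (i < j ∧ j < 2 * q ∧ i < q ∧ q ≤ j) ∨ ((i < q ∧ j = 2 * q) ∨
        (q ≤ i ∧ i < 2 * q ∧ j = 2 * q + 1)) := by
    intro i j
    rw [Finset.mem_union, Finset.mem_union, mem_on' (by omega), mem_on' (by omega), ro,
      Finset.mem_filter, mem_fl']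
    simp only [zero_le, true_and]
    tauto
  constructor
  · ext ⟨i, j⟩
    rw [Finset.mem_insert, key, Prod.mk.injEq, ror, Finset.mem_filter, mem_fl']
    simp only
    omega
  · rw [key]
    omega

theorem fl_split1 (hb : b ≤ m) :
    fl (m + 2) = insert (m, m + 1) (fl m ∪ (ev m (m + 1) 0 b ∪ ev m (m + 1) b m)) ∧
    (m, m + 1) ∉ fl m ∪ (ev m (m + 1) 0 b ∪ ev m (m + 1) b m) ∧
    Disjoint (fl m) (ev m (m + 1) 0 b ∪ ev m (m + 1) b m) := by
  rw [ev_add hb]
  refine ⟨?_, ?_, ?_⟩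
  · ext ⟨i, j⟩
    rw [Finset.mem_insert, Finset.mem_union, mem_ev' le_rfl, mem_fl', mem_fl', Prod.mk.injEq]
    omega
  · rw [Finset.mem_union, mem_ev' le_rfl, mem_fl']
    omega
  · rw [Finset.disjoint_left]
    rintro ⟨i, j⟩ h1 h2
    rw [mem_fl'] at h1
    rw [mem_ev' le_rfl] at h2
    omega

theorem card_ro (p : ℕ) : (ro p).card = p ^ 2 := by
  have e : ro p = (range p) ×ˢ (Ico p (2 * p)) := by
    ext ⟨i, j⟩
    rw [ro, Finset.mem_filter, mem_fl', Finset.mem_product, Finset.mem_range, Finset.mem_Ico]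
    simp only
    omega
  rw [e, Finset.card_product, Finset.card_range, Nat.card_Ico, sq]
  congr 1
  omega

end Pool.HPS
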