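import Pool.Agent.HPS.DefsC
import Pool.Agent.HPS.Rem
import Pool.Agent.HPS.Run

/-!
# Module HPS-Red2: the finger move in the 1-face of the crossing `{j, m + 1}`, `j < m` (imports Run, Stp, Rem; use them)

Let `z = m + 1`, `u = j`, `v = j + 1`, `W1 = Wj (m+2) (j+1) P W ⊔ s1 (qd P (j, m+1))`.  As `j + 1 ≤ m`, `W1` contains `s0 (qd P (v, z))`:
`P v z false ~ P z v true`, `P z v false ~ P v z true`, and `s1 (qd P (u, z))`: `P u z false ~ P z u false`, `P u z true ~ P z u true`.

PLAN `red2`.  Tip: `P u z true ~ P z u true ~ P z v false ~ P v z true` (`Lin.a` on `z`), closing wires of `u`, `v` (`lst (m+2) u = lst (m+2) v = z`): if `1 ≤ j`: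
`W1 (P u 0 false) (P v 0 false)`; if `j = 0`: `W1 (P 0 1 false) (P 1 0 false)`.  Run 1 (`ST_run`, `lo = 0`, `hi = j`, if `1 ≤ j`; `Rd_zero` if `j = 0`), then the kink (`KT`, tip from
`P u (j-1) true ~ P u v false` (`Lin.b`), `P v (j-1) true ~ P v u false` (`Lin.a`)), then run 2 (`ST_run`, `lo = j+2`, `hi = m+1`, if `j + 2 < m + 1`; tip from
`P u v true ~ P u (j+2) false` (`Lin.a`), `P v u true ~ P v (j+2) false` (`Lin.b`), and the kink: 0-smoothing + tip relate all four kink points), by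
`Rd_comp` twice (disjointness: `tr_split` or directly); all wires are from `Cyc (m+2) P W` (mono: `W ≤ W1 ≤ U ..`).  `j + 1 + (m + 1 - (j + 2)) = m`.
`env2`: equality of two suprema of setoids: both sides are `W ⊔` (all smoothings: 1 at `{w,u}` (`w ≠ u,v`, including `w = z`), 0 at `{w,v}` (including `z`), 0 at
`{u,v}`, 0 at `(i, z)`, `j + 2 ≤ i ≤ m`); prove `≤` and `≥` with `U ≤ Z ↔ W ≤ Z ∧ ∀ c ∈ S, .. ≤ Z` (`sup_le_iff`, `Finset.sup_le_iff`); for `Wj m j (skP j P) _` the terms are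
`s0 (qd (skP j P) (i, m-1)) = s0 (qd P (i+2, m+1))` for `j ≤ i < m - 1`.
-/

set_option autoImplicit false

open Finset MvPolynomial

namespace Pool.HPS

variable {Pt : Type} {W : Setoid Pt} {P : ℕ → ℕ → Bool → Pt} {m j : ℕ}

private theorem op_eq {a b i j' : ℕ} (h : a ≠ b) :
    op a b = (i, j') ↔ (i = a ∧ j' = b ∧ i < j') ∨ (i = b ∧ j' = a ∧ i < j') := by
  unfold op
  split_ifs with h1
  · rw [Prod.mk.injEq]
    omega
  · rw [Prod.mk.injEq]
    omega

private theorem mem_op {u i j' : ℕ} :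
    (i, j') ∈ ({op u (u + 1)} : Finset (ℕ × ℕ)) ↔ i = u ∧ j' = u + 1 := by
  rw [Finset.mem_singleton, eq_comm, op_eq (by omega)]
  omega

private theorem mem_ev_lo {u i j' : ℕ} :
    (i, j') ∈ ev u (u + 1) 0 u ↔ i < u ∧ (j' = u ∨ j' = u + 1) := by
  simp only [ev, Finset.mem_union, Finset.mem_image, Finset.mem_Ico]
  constructor
  · rintro (⟨w, ⟨_, hw⟩, h1⟩ | ⟨w, ⟨_, hw⟩, h1⟩)
    · rw [op_eq (by omega)] at h1
      omega
    · rw [op_eq (by omega)] at h1
      omega
  · rintro ⟨h1, h2 | h2⟩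
    · exact Or.inl ⟨i, ⟨Nat.zero_le _, h1⟩, (op_eq (by omega)).2 (by omega)⟩
    · exact Or.inr ⟨i, ⟨Nat.zero_le _, h1⟩, (op_eq (by omega)).2 (by omega)⟩

private theorem mem_ev_hi {u i j' K : ℕ} :
    (i, j') ∈ ev u (u + 1) (u + 2) K ↔ (i = u ∨ i = u + 1) ∧ u + 2 ≤ j' ∧ j' < K := by
  simp only [ev, Finset.mem_union, Finset.mem_image, Finset.mem_Ico]
  constructor
  · rintro (⟨w, ⟨_, hw⟩, h1⟩ | ⟨w, ⟨_, hw⟩, h1⟩)
    · rw [op_eq (by omega)] at h1
      omega
    · rw [op_eq (by omega)] at h1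
      omega
  · rintro ⟨h2 | h2, h3, h4⟩
    · exact Or.inl ⟨j', ⟨h3, h4⟩, (op_eq (by omega)).2 (by omega)⟩
    · exact Or.inr ⟨j', ⟨h3, h4⟩, (op_eq (by omega)).2 (by omega)⟩

private theorem mem_on_lo {u i j' : ℕ} : (i, j') ∈ on u 0 u ↔ i < u ∧ j' = u := by
  simp only [on, Finset.mem_image, Finset.mem_Ico]
  constructor
  · rintro ⟨w, ⟨_, hw⟩, h1⟩
    rw [op_eq (by omega)] at h1
    omega
  · rintro ⟨h1, h2⟩
    exact ⟨i, ⟨Nat.zero_le _, h1⟩, (op_eq (by omega)).2 (by omega)⟩

private theorem mem_on_hi {u i j' K : ℕ} :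
    (i, j') ∈ on u (u + 2) K ↔ i = u ∧ u + 2 ≤ j' ∧ j' < K := by
  simp only [on, Finset.mem_image, Finset.mem_Ico]
  constructor
  · rintro ⟨w, ⟨_, hw⟩, h1⟩
    rw [op_eq (by omega)] at h1
    omega
  · rintro ⟨h2, h3, h4⟩
    exact ⟨j', ⟨h3, h4⟩, (op_eq (by omega)).2 (by omega)⟩

private theorem mem_Tall' {n u i j' : ℕ} :
    (i, j') ∈ Tall n u ↔ i < j' ∧ j' < n ∧ (i = u ∨ i = u + 1 ∨ j' = u ∨ j' = u + 1) := by
  simp only [Tall, fl, Finset.mem_filter, Finset.mem_product, Finset.mem_range]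
  omega

private theorem U_le {ι : Type} [DecidableEq ι] {W Z : Setoid Pt} {x : ι → Fin 4 → Pt}
    {S r : Finset ι} :
    U W x S r ≤ Z ↔ W ≤ Z ∧ ∀ c ∈ S, (if c ∈ r then s1 (x c) else s0 (x c)) ≤ Z := by
  rw [U, sup_le_iff, Finset.sup_le_iff]

private theorem on_sub {u v lo hi : ℕ} : on u lo hi ⊆ ev u v lo hi := Finset.subset_union_left

private theorem ev_nil (u v lo : ℕ) : ev u v lo lo = ∅ := by
  simp [ev]

private theorem on_nil (u lo : ℕ) : on u lo lo = ∅ := by
  simp [on]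

theorem red2 (hC : Cyc (m + 2) P W) (hj : j < m) :
    Rd (Wj (m + 2) (j + 1) P W ⊔ s1 (qd P (j, m + 1))) (qd P)
      ((ev j (j + 1) 0 j ∪ {op j (j + 1)}) ∪ ev j (j + 1) (j + 2) (m + 1))
      ((on j 0 j ∪ ∅) ∪ on j (j + 2) (m + 1)) m := by
  obtain ⟨W1, hW1⟩ : ∃ W1, W1 = Wj (m + 2) (j + 1) P W ⊔ s1 (qd P (j, m + 1)) := ⟨_, rfl⟩
  rw [← hW1]
  obtain ⟨-, -, hd1, hd2⟩ := tr_split (m := m) (u := j) hj
  have hle : W ≤ W1 := by
    rw [hW1, Wj]
    exact le_sup_left.trans le_sup_left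
  have hs0 : s0 (qd P (j + 1, m + 1)) ≤ W1 := by
    rw [hW1, Wj]
    refine le_trans ?_ le_sup_left
    refine le_trans ?_ le_sup_right
    exact Finset.le_sup (f := fun i => s0 (qd P (i, m + 2 - 1))) (by
      rw [Finset.mem_Ico]
      omega)
  have hs1 : s1 (qd P (j, m + 1)) ≤ W1 := by
    rw [hW1]
    exact le_sup_right
  rw [s0_le] at hs0
  rw [s1_le] at hs1
  have q1 : W1 (P (j + 1) (m + 1) true) (P (m + 1) (j + 1) false) := Setoid.symm' _ hs0.2
  have q2 : W1 (P j (m + 1) true) (P (m + 1) j true) := Setoid.symm' _ hs1.2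
  have la : ∀ i l, i < m + 2 → l + 1 < m + 2 → l ≠ i → l + 1 ≠ i →
      W1 (P i l true) (P i (l + 1) false) := fun i l h1 h2 h3 h4 => hle (hC.a i l h1 h2 h3 h4)
  have lb : ∀ i, i + 2 < m + 2 → W1 (P (i + 1) i true) (P (i + 1) (i + 2) false) :=
    fun i h1 => hle (hC.b i h1)
  -- the tip
  have tip : W1 (P j (fst' j) false) (P (j + 1) 0 false) := by
    have c1 := hle (hC.c j (by omega))
    have c2 := hle (hC.c (j + 1) (by omega))
    have e1 : lst (m + 2) j = m + 1 := by
      unfold lst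
      split_ifs <;> omega
    have e2 : lst (m + 2) (j + 1) = m + 1 := by
      unfold lst
      split_ifs <;> omega
    have e3 : fst' (j + 1) = 0 := by
      unfold fst'
      rw [if_neg (by omega)]
    rw [e1] at c1
    rw [e2, e3] at c2
    exact Setoid.trans' _ (Setoid.symm' _ c1) (Setoid.trans' _ q2 (Setoid.trans' _
      (la (m + 1) j (by omega) (by omega) (by omega) (by omega))
      (Setoid.trans' _ (Setoid.symm' _ q1) c2)))
  -- first run
  have run1 : Rd W1 (qd P) (ev j (j + 1) 0 j) (on j 0 j) j ∧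
      U W1 (qd P) (ev j (j + 1) 0 j) (on j 0 j) (P j (j + 1) false) (P (j + 1) j false) := by
    rcases Nat.eq_zero_or_pos j with h0 | h0
    · subst h0
      rw [ev_nil, on_nil, U_empty]
      refine ⟨Rd_zero _ _, ?_⟩
      have e : fst' 0 = 1 := by simp [fst']
      rw [e] at tip
      exact tip
    · have e : fst' j = 0 := by
        unfold fst'
        rw [if_neg (by omega)]
      rw [e] at tip
      have hWir : Wir W1 P j (j + 1) 0 j :=
        ⟨fun w _ h2 => la w j (by omega) (by omega) (by omega) (by omega),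
          fun w _ h2 => la j w (by omega) (by omega) (by omega) (by omega),
          fun w _ h2 => la (j + 1) w (by omega) (by omega) (by omega) (by omega)⟩
      obtain ⟨r1, -, r3⟩ := ST_run (u := j) (v := j + 1) (lo := 0) (hi := j) (by omega)
        (by rw [Finset.mem_Ico]; omega) (by rw [Finset.mem_Ico]; omega) h0 hWir tip
      refine ⟨r1, ?_⟩
      have f := (r3 (j - 1) (by omega) (by omega)).2.1
      have g1 := lb (j - 1) (by omega)
      have g2 := la (j + 1) (j - 1) (by omega) (by omega) (by omega) (by omega)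
      have e5 : j - 1 + 1 = j := by omega
      have e6 : j - 1 + 2 = j + 1 := by omega
      rw [e5, e6] at g1
      rw [e5] at g2
      exact Setoid.trans' _ (Setoid.symm' _ (le_U g1)) (Setoid.trans' _ f (le_U g2))
  obtain ⟨r1, k1⟩ := run1
  -- the kink
  have kk := KT (W := U W1 (qd P) (ev j (j + 1) 0 j) (on j 0 j)) (P := P) (u := j) (v := j + 1)
    (by omega) k1
  have r2 := Rd_comp hd1 on_sub (Finset.empty_subset _) r1 kk
  have hU2 : U W1 (qd P) (ev j (j + 1) 0 j) (on j 0 j) ≤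
      U W1 (qd P) (ev j (j + 1) 0 j ∪ {op j (j + 1)}) (on j 0 j ∪ ∅) := by
    rw [U_union, Finset.union_empty]
    exact le_U
  have hW2 : W1 ≤ U W1 (qd P) (ev j (j + 1) 0 j ∪ {op j (j + 1)}) (on j 0 j ∪ ∅) := le_U
  have hop : op j (j + 1) = (j, j + 1) := by
    unfold op
    rw [if_pos (by omega)]
  have hn : op j (j + 1) ∉ on j 0 j ∪ ∅ := by
    rw [Finset.union_empty, hop, mem_on_lo]
    omega
  have z0 := U_rel0 (W := W1) (x := qd P) (S := ev j (j + 1) 0 j ∪ {op j (j + 1)})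
    (r := on j 0 j ∪ ∅) (c := op j (j + 1))
    (Finset.mem_union_right _ (Finset.mem_singleton_self _)) hn
  have hq : qd P (op j (j + 1)) = qd P (j, j + 1) := by rw [hop]
  rw [hq] at z0
  have z1 : U W1 (qd P) (ev j (j + 1) 0 j ∪ {op j (j + 1)}) (on j 0 j ∪ ∅)
      (P j (j + 1) false) (P (j + 1) j true) := z0.1
  have z2 : U W1 (qd P) (ev j (j + 1) 0 j ∪ {op j (j + 1)}) (on j 0 j ∪ ∅)
      (P (j + 1) j false) (P j (j + 1) true) := z0.2
  have k2 := hU2 k1
  have tip2 : U W1 (qd P) (ev j (j + 1) 0 j ∪ {op j (j + 1)}) (on j 0 j ∪ ∅)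
      (P j (j + 2) false) (P (j + 1) (j + 2) false) := by
    have a1 := hW2 (la j (j + 1) (by omega) (by omega) (by omega) (by omega))
    have a2 := hW2 (lb j (by omega))
    exact Setoid.trans' _ (Setoid.symm' _ a1) (Setoid.trans' _ (Setoid.symm' _ z2)
      (Setoid.trans' _ (Setoid.symm' _ k2) (Setoid.trans' _ z1 a2)))
  -- second run
  have run3 : Rd (U W1 (qd P) (ev j (j + 1) 0 j ∪ {op j (j + 1)}) (on j 0 j ∪ ∅)) (qd P)
      (ev j (j + 1) (j + 2) (m + 1)) (on j (j + 2) (m + 1)) (m + 1 - (j + 2)) := by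
    rcases Nat.lt_or_ge (j + 2) (m + 1) with h0 | h0
    · have hWir : Wir (U W1 (qd P) (ev j (j + 1) 0 j ∪ {op j (j + 1)}) (on j 0 j ∪ ∅))
          P j (j + 1) (j + 2) (m + 1) :=
        ⟨fun w _ h2 => hW2 (la w j (by omega) (by omega) (by omega) (by omega)),
          fun w _ h2 => hW2 (la j w (by omega) (by omega) (by omega) (by omega)),
          fun w _ h2 => hW2 (la (j + 1) w (by omega) (by omega) (by omega) (by omega))⟩
      exact (ST_run (u := j) (v := j + 1) (lo := j + 2) (hi := m + 1) (by omega)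
        (by rw [Finset.mem_Ico]; omega) (by rw [Finset.mem_Ico]; omega) h0 hWir tip2).1
    · have e : m + 1 = j + 2 := by omega
      rw [e, ev_nil, on_nil, Nat.sub_self]
      exact Rd_zero _ _
  have r3 := Rd_comp hd2 (Finset.union_subset_union on_sub (Finset.empty_subset _)) on_sub r2 run3
  have e : j + 1 + (m + 1 - (j + 2)) = m := by omega
  rw [e] at r3
  exact r3

private theorem qd_skP {i : ℕ} (hj : j < m) (h : j ≤ i) :
    qd (skP j P) (i, m - 1) = qd P (i + 2, m + 1) := by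
  have e1 : sk j i = i + 2 := by simp [sk, not_lt.2 h]
  have e2 : sk j (m - 1) = m + 1 := by
    unfold sk
    split_ifs <;> omega
  funext k
  simp only [qd, skP, e1, e2]

private theorem mem_T_of_Tall {a b : ℕ} (h : (a, b) ∈ Tall (m + 2) j) (hb : b ≠ m + 1) :
    (a, b) ∈ (ev j (j + 1) 0 j ∪ {op j (j + 1)}) ∪ ev j (j + 1) (j + 2) (m + 1) := by
  rw [mem_Tall'] at h
  rw [Finset.mem_union, Finset.mem_union, mem_ev_lo, mem_ev_hi, mem_op]
  omega

private theorem Tall_of_mem_T {a b : ℕ} (hj : j < m)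
    (h : (a, b) ∈ (ev j (j + 1) 0 j ∪ {op j (j + 1)}) ∪ ev j (j + 1) (j + 2) (m + 1)) :
    (a, b) ∈ Tall (m + 2) j ∧ b ≠ m + 1 := by
  rw [Finset.mem_union, Finset.mem_union, mem_ev_lo, mem_ev_hi, mem_op] at h
  rw [mem_Tall']
  omega

private theorem mem_r_iff {a b : ℕ} (hb : b ≠ m + 1) :
    (a, b) ∈ (on j 0 j ∪ ∅) ∪ on j (j + 2) (m + 1) ↔ (a, b) ∈ ron (m + 2) j := by
  rw [ron, Finset.union_empty, Finset.mem_union, Finset.mem_union, mem_on_lo, mem_on_hi, mem_on_hi]
  omega

theorem env2 (hj : j < m) :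
    U (Wj (m + 2) (j + 1) P W ⊔ s1 (qd P (j, m + 1))) (qd P)
      ((ev j (j + 1) 0 j ∪ {op j (j + 1)}) ∪ ev j (j + 1) (j + 2) (m + 1))
      ((on j 0 j ∪ ∅) ∪ on j (j + 2) (m + 1)) =
    Wj m j (skP j P) (Wrem (m + 2) j P W) := by
  have hL1 : Wj (m + 2) (j + 1) P W ⊔ s1 (qd P (j, m + 1)) ≤
      U (Wj (m + 2) (j + 1) P W ⊔ s1 (qd P (j, m + 1))) (qd P)
        ((ev j (j + 1) 0 j ∪ {op j (j + 1)}) ∪ ev j (j + 1) (j + 2) (m + 1))
        ((on j 0 j ∪ ∅) ∪ on j (j + 2) (m + 1)) := le_U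
  have hs0L : ∀ i, j + 1 ≤ i → i < m + 1 → s0 (qd P (i, m + 1)) ≤
      Wj (m + 2) (j + 1) P W ⊔ s1 (qd P (j, m + 1)) := by
    intro i h1 h2
    refine le_trans ?_ le_sup_left
    rw [Wj]
    refine le_trans ?_ le_sup_right
    exact Finset.le_sup (f := fun i => s0 (qd P (i, m + 2 - 1))) (by
      rw [Finset.mem_Ico]
      omega)
  have hR1 : Wrem (m + 2) j P W ≤ Wj m j (skP j P) (Wrem (m + 2) j P W) := by
    rw [Wj]
    exact le_sup_left
  have hTR : ∀ a b, (a, b) ∈ Tall (m + 2) j →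
      (if (a, b) ∈ ron (m + 2) j then s1 (qd P (a, b)) else s0 (qd P (a, b))) ≤
        Wj m j (skP j P) (Wrem (m + 2) j P W) := by
    intro a b hab
    have := (U_le.1 (le_refl (Wrem (m + 2) j P W))).2 (a, b) hab
    exact this.trans hR1
  apply le_antisymm
  · rw [U_le, sup_le_iff]
    refine ⟨⟨?_, ?_⟩, ?_⟩
    · rw [Wj, sup_le_iff]
      constructor
      · refine le_trans ?_ hR1
        rw [Wrem]
        exact le_U
      · rw [Finset.sup_le_iff]
        intro i hi
        rw [Finset.mem_Ico] at hi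
        change s0 (qd P (i, m + 1)) ≤ _
        rcases Nat.lt_or_ge (j + 1) i with h1 | h1
        · have e : qd P (i, m + 1) = qd (skP j P) (i - 2, m - 1) := by
            rw [qd_skP hj (by omega)]
            congr 2
            omega
          rw [e, Wj]
          refine le_trans ?_ le_sup_right
          exact Finset.le_sup (f := fun i => s0 (qd (skP j P) (i, m - 1))) (by
            rw [Finset.mem_Ico]
            omega)
        · have e : i = j + 1 := by omega
          subst e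
          have h2 := hTR (j + 1) (m + 1) (by rw [mem_Tall']; omega)
          rw [if_neg (by
            rw [ron, Finset.mem_union, mem_on_lo, mem_on_hi]
            omega)] at h2
          exact h2
    · have h2 := hTR j (m + 1) (by rw [mem_Tall']; omega)
      rw [if_pos (by
        rw [ron, Finset.mem_union, mem_on_lo, mem_on_hi]
        omega)] at h2
      exact h2
    · rintro ⟨a, b⟩ hc
      obtain ⟨h1, h2⟩ := Tall_of_mem_T hj hc
      have h3 := hTR a b h1
      by_cases h4 : (a, b) ∈ ron (m + 2) j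
      · rw [if_pos h4] at h3
        rw [if_pos ((mem_r_iff h2).2 h4)]
        exact h3
      · rw [if_neg h4] at h3
        rw [if_neg (fun h5 => h4 ((mem_r_iff h2).1 h5))]
        exact h3
  · rw [Wj, sup_le_iff]
    constructor
    · rw [Wrem, U_le]
      constructor
      · refine le_trans ?_ hL1
        rw [Wj]
        exact le_sup_left.trans le_sup_left
      · rintro ⟨a, b⟩ hc
        by_cases hb : b = m + 1
        · subst hb
          have h1 := mem_Tall'.1 hc
          have h2 : a = j ∨ a = j + 1 := by omega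
          rcases h2 with rfl | rfl
          · rw [if_pos (by
              rw [ron, Finset.mem_union, mem_on_lo, mem_on_hi]
              omega)]
            exact le_trans le_sup_right hL1
          · rw [if_neg (by
              rw [ron, Finset.mem_union, mem_on_lo, mem_on_hi]
              omega)]
            exact le_trans (hs0L (j + 1) le_rfl (by omega)) hL1
        · have h1 := mem_T_of_Tall hc hb
          have h3 := (U_le.1 (le_refl (U (Wj (m + 2) (j + 1) P W ⊔ s1 (qd P (j, m + 1))) (qd P)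
            ((ev j (j + 1) 0 j ∪ {op j (j + 1)}) ∪ ev j (j + 1) (j + 2) (m + 1))
            ((on j 0 j ∪ ∅) ∪ on j (j + 2) (m + 1))))).2 (a, b) h1
          by_cases h4 : (a, b) ∈ ron (m + 2) j
          · rw [if_pos h4]
            rw [if_pos ((mem_r_iff hb).2 h4)] at h3
            exact h3
          · rw [if_neg h4]
            rw [if_neg (fun h5 => h4 ((mem_r_iff hb).1 h5))] at h3
            exact h3
    · rw [Finset.sup_le_iff]
      intro i hi
      rw [Finset.mem_Ico] at hi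
      rw [qd_skP hj hi.1]
      exact le_trans (hs0L (i + 2) (by omega) (by omega)) hL1

/-- The number of 1-smoothed crossings in `red2`. -/
theorem card_r2 (hj : j < m) :
    ((on j 0 j ∪ ∅) ∪ on j (j + 2) (m + 1)).card = m - 1 := by
  rw [Finset.union_empty, on, on, ← Finset.image_union, Finset.card_image_of_injOn]
  · rw [Finset.card_union_of_disjoint, Nat.card_Ico, Nat.card_Ico]
    · omega
    · rw [Finset.disjoint_left]
      intro a h1 h2
      rw [Finset.mem_Ico] at h1 h2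
      omega
  · intro a ha b hb hab
    rw [Finset.mem_coe, Finset.mem_union, Finset.mem_Ico, Finset.mem_Ico] at ha hb
    exact op_inj (u := j) (by omega) (by omega) hab

end Pool.HPS
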