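import Pool.Agent.HPS.Leg

/-!
# Module HPS-Face: the two ways around a face agree

`Legit W x {c, c'}` says that `W` matches the 8 labels `(c, 0..3), (c', 0..3)` perfectly.  The classes of the four states
on the labels are computed by `fc_mrg` from the matching, and the kernel checks for all 105 matchings the criterion `FcGood`,
which implies that the two products of saddle coefficients agree modulo `I (V11)`.
-/

set_option autoImplicit false

open Finset MvPolynomial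

namespace Pool.HPS

/-- merge the classes of `a` and `b` -/
private def fcMrg (f : Fin 8 → ℕ) (a b : Fin 8) : Fin 8 → ℕ := fun i => if f i = f b then f a else f i

/-- the classes of a matching -/
private def fcBase (t : Fin 8 → Fin 8) : Fin 8 → ℕ := fun i => min i.val (t i).val

private def fc00 (t : Fin 8 → Fin 8) : Fin 8 → ℕ :=
  fcMrg (fcMrg (fcMrg (fcMrg (fcBase t) 0 1) 2 3) 4 5) 6 7

private def fc10 (t : Fin 8 → Fin 8) : Fin 8 → ℕ :=
  fcMrg (fcMrg (fcMrg (fcMrg (fcBase t) 0 2) 1 3) 4 5) 6 7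

private def fc01 (t : Fin 8 → Fin 8) : Fin 8 → ℕ :=
  fcMrg (fcMrg (fcMrg (fcMrg (fcBase t) 0 1) 2 3) 4 6) 5 7

private def fc11 (t : Fin 8 → Fin 8) : Fin 8 → ℕ :=
  fcMrg (fcMrg (fcMrg (fcMrg (fcBase t) 0 2) 1 3) 4 6) 5 7

/-- the product with flags `a`, `b` is zero -/
private def FcZero (f : Fin 8 → ℕ) (a b : Prop) : Prop :=
  (a ∧ ¬ b ∧ f 0 = f 1) ∨ (¬ a ∧ b ∧ f 4 = f 5) ∨
    (a ∧ b ∧ (f 0 = f 1 ∨ f 4 = f 5 ∨ (f 0 = f 4 ∧ f 1 = f 5) ∨ (f 0 = f 5 ∧ f 1 = f 4)))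

/-- the criterion -/
private def FcGood (f00 f10 f01 f11 : Fin 8 → ℕ) : Prop :=
  ((f00 0 = f00 2 ↔ f01 0 = f01 2) ∧ (f10 4 = f10 6 ↔ f00 4 = f00 6)) ∨
    (FcZero f11 (f00 0 = f00 2) (f10 4 = f10 6) ∧ FcZero f11 (f01 0 = f01 2) (f00 4 = f00 6)) ∨
    (((f11 0 = f11 4 ∧ f11 1 = f11 5) ∨ (f11 0 = f11 5 ∧ f11 1 = f11 4)) ∧
      ((f00 0 = f00 2 ∧ ¬ f10 4 = f10 6 ∧ ¬ f01 0 = f01 2 ∧ f00 4 = f00 6) ∨
        (¬ f00 0 = f00 2 ∧ f10 4 = f10 6 ∧ f01 0 = f01 2 ∧ ¬ f00 4 = f00 6)))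

private instance fcDecZero (f : Fin 8 → ℕ) (a b : Prop) [Decidable a] [Decidable b] :
    Decidable (FcZero f a b) := by
  unfold FcZero
  infer_instance

private instance fcDecGood (f00 f10 f01 f11 : Fin 8 → ℕ) : Decidable (FcGood f00 f10 f01 f11) := by
  unfold FcGood
  infer_instance

private def fcTab (t0 t1 t2 t3 t4 t5 t6 t7 : Fin 8) : Fin 8 → Fin 8 := fun i =>
  if i.val = 0 then t0 else if i.val = 1 then t1 else if i.val = 2 then t2 else if i.val = 3 then t3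
  else if i.val = 4 then t4 else if i.val = 5 then t5 else if i.val = 6 then t6 else t7

/-- compatibility of two values of a fixed point free involution -/
private def FcOk (j k tj tk : Fin 8) : Prop := (tj = k ↔ tk = j) ∧ tj ≠ tk

private instance fcDecOk (j k tj tk : Fin 8) : Decidable (FcOk j k tj tk) := by
  unfold FcOk
  infer_instance

private def FcA7 (t0 t1 t2 t3 t4 t5 t6 : Fin 8) : Prop :=
  ∀ t7 : Fin 8, t7 ≠ 7 ∧ FcOk 0 7 t0 t7 ∧ FcOk 1 7 t1 t7 ∧ FcOk 2 7 t2 t7 ∧ FcOk 3 7 t3 t7 ∧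
    FcOk 4 7 t4 t7 ∧ FcOk 5 7 t5 t7 ∧ FcOk 6 7 t6 t7 →
    FcGood (fc00 (fcTab t0 t1 t2 t3 t4 t5 t6 t7)) (fc10 (fcTab t0 t1 t2 t3 t4 t5 t6 t7))
      (fc01 (fcTab t0 t1 t2 t3 t4 t5 t6 t7)) (fc11 (fcTab t0 t1 t2 t3 t4 t5 t6 t7))

private instance fcDecA7 (t0 t1 t2 t3 t4 t5 t6 : Fin 8) : Decidable (FcA7 t0 t1 t2 t3 t4 t5 t6) := by
  unfold FcA7
  infer_instance

private def FcA6 (t0 t1 t2 t3 t4 t5 : Fin 8) : Prop :=
  ∀ t6 : Fin 8, t6 ≠ 6 ∧ FcOk 0 6 t0 t6 ∧ FcOk 1 6 t1 t6 ∧ FcOk 2 6 t2 t6 ∧ FcOk 3 6 t3 t6 ∧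
    FcOk 4 6 t4 t6 ∧ FcOk 5 6 t5 t6 → FcA7 t0 t1 t2 t3 t4 t5 t6

private instance fcDecA6 (t0 t1 t2 t3 t4 t5 : Fin 8) : Decidable (FcA6 t0 t1 t2 t3 t4 t5) := by
  unfold FcA6
  infer_instance

private def FcA5 (t0 t1 t2 t3 t4 : Fin 8) : Prop :=
  ∀ t5 : Fin 8, t5 ≠ 5 ∧ FcOk 0 5 t0 t5 ∧ FcOk 1 5 t1 t5 ∧ FcOk 2 5 t2 t5 ∧ FcOk 3 5 t3 t5 ∧
    FcOk 4 5 t4 t5 → FcA6 t0 t1 t2 t3 t4 t5

private instance fcDecA5 (t0 t1 t2 t3 t4 : Fin 8) : Decidable (FcA5 t0 t1 t2 t3 t4) := by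
  unfold FcA5
  infer_instance

private def FcA4 (t0 t1 t2 t3 : Fin 8) : Prop :=
  ∀ t4 : Fin 8, t4 ≠ 4 ∧ FcOk 0 4 t0 t4 ∧ FcOk 1 4 t1 t4 ∧ FcOk 2 4 t2 t4 ∧ FcOk 3 4 t3 t4 →
    FcA5 t0 t1 t2 t3 t4

private instance fcDecA4 (t0 t1 t2 t3 : Fin 8) : Decidable (FcA4 t0 t1 t2 t3) := by
  unfold FcA4
  infer_instance

private def FcA3 (t0 t1 t2 : Fin 8) : Prop :=
  ∀ t3 : Fin 8, t3 ≠ 3 ∧ FcOk 0 3 t0 t3 ∧ FcOk 1 3 t1 t3 ∧ FcOk 2 3 t2 t3 → FcA4 t0 t1 t2 t3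

private instance fcDecA3 (t0 t1 t2 : Fin 8) : Decidable (FcA3 t0 t1 t2) := by
  unfold FcA3
  infer_instance

private def FcA2 (t0 t1 : Fin 8) : Prop :=
  ∀ t2 : Fin 8, t2 ≠ 2 ∧ FcOk 0 2 t0 t2 ∧ FcOk 1 2 t1 t2 → FcA3 t0 t1 t2

private instance fcDecA2 (t0 t1 : Fin 8) : Decidable (FcA2 t0 t1) := by
  unfold FcA2
  infer_instance

private def FcA1 (t0 : Fin 8) : Prop :=
  ∀ t1 : Fin 8, t1 ≠ 1 ∧ FcOk 0 1 t0 t1 → FcA2 t0 t1

private instance fcDecA1 (t0 : Fin 8) : Decidable (FcA1 t0) := by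
  unfold FcA1
  infer_instance

private theorem fc_check : ∀ t0 : Fin 8, t0 ≠ 0 → FcA1 t0 := by
  decide +kernel

private theorem fc_good (t : Fin 8 → Fin 8) (h1 : ∀ i, t (t i) = i) (h2 : ∀ i, t i ≠ i) :
    FcGood (fc00 t) (fc10 t) (fc01 t) (fc11 t) := by
  have ht : t = fcTab (t 0) (t 1) (t 2) (t 3) (t 4) (t 5) (t 6) (t 7) := by
    funext i
    fin_cases i <;> rfl
  have hok : ∀ j k : Fin 8, j ≠ k → FcOk j k (t j) (t k) := by
    intro j k hjk
    refine ⟨⟨fun h => ?_, fun h => ?_⟩, fun h => ?_⟩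
    · rw [← h, h1]
    · rw [← h, h1]
    · apply hjk
      rw [← h1 j, h, h1]
  rw [ht]
  exact fc_check _ (h2 0) _ ⟨h2 1, hok 0 1 (by decide)⟩ _
    ⟨h2 2, hok 0 2 (by decide), hok 1 2 (by decide)⟩ _
    ⟨h2 3, hok 0 3 (by decide), hok 1 3 (by decide), hok 2 3 (by decide)⟩ _
    ⟨h2 4, hok 0 4 (by decide), hok 1 4 (by decide), hok 2 4 (by decide), hok 3 4 (by decide)⟩ _
    ⟨h2 5, hok 0 5 (by decide), hok 1 5 (by decide), hok 2 5 (by decide), hok 3 5 (by decide),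
      hok 4 5 (by decide)⟩ _
    ⟨h2 6, hok 0 6 (by decide), hok 1 6 (by decide), hok 2 6 (by decide), hok 3 6 (by decide),
      hok 4 6 (by decide), hok 5 6 (by decide)⟩ _
    ⟨h2 7, hok 0 7 (by decide), hok 1 7 (by decide), hok 2 7 (by decide), hok 3 7 (by decide),
      hok 4 7 (by decide), hok 5 7 (by decide), hok 6 7 (by decide)⟩

section ideal

variable {Pt : Type}

private theorem fc_sq (V : Setoid Pt) (p : Pt) : (X p ^ 2 : Rg Pt) ∈ I V :=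
  Ideal.subset_span (Or.inl ⟨p, rfl⟩)

private theorem fc_eq {V : Setoid Pt} {p q : Pt} (h : V p q) : (X p + X q : Rg Pt) ∈ I V :=
  Ideal.subset_span (Or.inr ⟨p, q, h, rfl⟩)

private theorem fc_two (a : Rg Pt) : a + a = 0 := by
  have h : (2 : Rg Pt) = 0 := by
    have h1 : ((2 : ZMod 2)) = 0 := by decide
    have h2 := congrArg (C : ZMod 2 → Rg Pt) h1
    rw [map_zero] at h2
    rw [← h2]
    exact (map_ofNat (C : ZMod 2 →+* Rg Pt) 2).symm
  rw [← two_mul, h, zero_mul]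

private theorem fc_sq2 (V : Setoid Pt) (p q : Pt) :
    ((X p + X q) * (X p + X q) : Rg Pt) ∈ I V := by
  have h : ((X p + X q) * (X p + X q) : Rg Pt) = X p ^ 2 + X q ^ 2 + (X p * X q + X p * X q) := by
    ring
  rw [h, fc_two, add_zero]
  exact (I V).add_mem (fc_sq V p) (fc_sq V q)

/-- `(X_a + X_b)(X_c + X_d)` vanishes if the sum of all four does. -/
private theorem fc_mul {V : Setoid Pt} {a b c d : Pt}
    (h : (X a + X b + (X c + X d) : Rg Pt) ∈ I V) :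
    ((X a + X b) * (X c + X d) : Rg Pt) ∈ I V := by
  have h1 : ((X a + X b) * (X c + X d) : Rg Pt) =
      (X a + X b) * (X a + X b + (X c + X d)) - (X a + X b) * (X a + X b) := by
    ring
  rw [h1]
  exact (I V).sub_mem ((I V).mul_mem_left _ h) (fc_sq2 V a b)

private theorem fc_rel {V : Setoid Pt} {z : Fin 8 → Pt} {f : Fin 8 → ℕ}
    (h : ∀ i j, V (z i) (z j) ↔ f i = f j)
    (hf : (f 0 = f 4 ∧ f 1 = f 5) ∨ (f 0 = f 5 ∧ f 1 = f 4)) :
    (X (z 0) + X (z 1) + (X (z 4) + X (z 5)) : Rg Pt) ∈ I V := by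
  rcases hf with ⟨h1, h2⟩ | ⟨h1, h2⟩
  · have h3 : (X (z 0) + X (z 1) + (X (z 4) + X (z 5)) : Rg Pt) =
        (X (z 0) + X (z 4)) + (X (z 1) + X (z 5)) := by ring
    rw [h3]
    exact (I V).add_mem (fc_eq ((h _ _).2 h1)) (fc_eq ((h _ _).2 h2))
  · have h3 : (X (z 0) + X (z 1) + (X (z 4) + X (z 5)) : Rg Pt) =
        (X (z 0) + X (z 5)) + (X (z 1) + X (z 4)) := by ring
    rw [h3]
    exact (I V).add_mem (fc_eq ((h _ _).2 h1)) (fc_eq ((h _ _).2 h2))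

open Classical in
private theorem fc_zero {V : Setoid Pt} {z : Fin 8 → Pt} {f : Fin 8 → ℕ}
    (h : ∀ i j, V (z i) (z j) ↔ f i = f j) {a b : Prop} (hz : FcZero f a b) :
    ((if a then X (z 0) + X (z 1) else 1) * (if b then X (z 4) + X (z 5) else 1) : Rg Pt) ∈ I V := by
  rcases hz with ⟨ha, hb, h1⟩ | ⟨ha, hb, h1⟩ | ⟨ha, hb, h1⟩
  · rw [if_pos ha, if_neg hb, mul_one]
    exact fc_eq ((h _ _).2 h1)
  · rw [if_neg ha, if_pos hb, one_mul]
    exact fc_eq ((h _ _).2 h1)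
  · rw [if_pos ha, if_pos hb]
    rcases h1 with h1 | h1 | h1
    · exact (I V).mul_mem_right _ (fc_eq ((h _ _).2 h1))
    · exact (I V).mul_mem_left _ (fc_eq ((h _ _).2 h1))
    · exact fc_mul (fc_rel h h1)

private theorem fc_case {V : Setoid Pt} {p q : Rg Pt} {A B C D : Prop} [Decidable A] [Decidable B]
    [Decidable C] [Decidable D]
    (h : (A ↔ D) ∧ (B ↔ C) ∨
      ((if A then p else 1) * (if B then q else 1) ∈ I V ∧
        (if D then p else 1) * (if C then q else 1) ∈ I V) ∨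
      (p + q ∈ I V ∧ ((A ∧ ¬ B ∧ ¬ D ∧ C) ∨ (¬ A ∧ B ∧ D ∧ ¬ C)))) :
    ((if A then p else 1) * (if B then q else 1) + (if C then q else 1) * (if D then p else 1)) ∈
      I V := by
  rcases h with ⟨h1, h2⟩ | ⟨h1, h2⟩ | ⟨hr, ⟨a1, a2, a3, a4⟩ | ⟨a1, a2, a3, a4⟩⟩
  · have e1 : (if A then p else 1) = (if D then p else 1) := by
      by_cases hA : A
      · rw [if_pos hA, if_pos (h1.1 hA)]
      · rw [if_neg hA, if_neg (fun hD => hA (h1.2 hD))]
    have e2 : (if B then q else 1) = (if C then q else 1) := by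
      by_cases hB : B
      · rw [if_pos hB, if_pos (h2.1 hB)]
      · rw [if_neg hB, if_neg (fun hC => hB (h2.2 hC))]
    rw [e1, e2, mul_comm, fc_two]
    exact (I V).zero_mem
  · refine (I V).add_mem h1 ?_
    rw [mul_comm]
    exact h2
  · rw [if_pos a1, if_neg a2, if_neg a3, if_pos a4, mul_one, mul_one]
    exact hr
  · rw [if_neg a1, if_pos a2, if_pos a3, if_neg a4, one_mul, one_mul, add_comm]
    exact hr

open Classical in
private theorem fc_final {V00 V10 V01 V11 : Setoid Pt} {z : Fin 8 → Pt}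
    {f00 f10 f01 f11 : Fin 8 → ℕ} (h00 : ∀ i j, V00 (z i) (z j) ↔ f00 i = f00 j)
    (h10 : ∀ i j, V10 (z i) (z j) ↔ f10 i = f10 j) (h01 : ∀ i j, V01 (z i) (z j) ↔ f01 i = f01 j)
    (h11 : ∀ i j, V11 (z i) (z j) ↔ f11 i = f11 j) (hg : FcGood f00 f10 f01 f11) :
    ((if V00 (z 0) (z 2) then X (z 0) + X (z 1) else 1) *
        (if V10 (z 4) (z 6) then X (z 4) + X (z 5) else 1) +
      (if V00 (z 4) (z 6) then X (z 4) + X (z 5) else 1) *
        (if V01 (z 0) (z 2) then X (z 0) + X (z 1) else 1) : Rg Pt) ∈ I V11 := by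
  have r1 := h00 0 2
  have r2 := h10 4 6
  have r3 := h00 4 6
  have r4 := h01 0 2
  apply fc_case
  rcases hg with ⟨hg1, hg2⟩ | ⟨hg1, hg2⟩ | ⟨hg1, hg2⟩
  · exact Or.inl ⟨r1.trans (hg1.trans r4.symm), r2.trans (hg2.trans r3.symm)⟩
  · refine Or.inr (Or.inl ⟨fc_zero h11 ?_, fc_zero h11 ?_⟩)
    · rw [r1, r2]
      exact hg1
    · rw [r3, r4]
      exact hg2
  · refine Or.inr (Or.inr ⟨fc_rel h11 hg1, ?_⟩)
    rw [r1, r2, r3, r4]
    exact hg2

private theorem fc_nat (x y a b : ℕ) : (x = y ∨ (x = a ∧ b = y) ∨ (x = b ∧ a = y)) ↔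
    ((if x = b then a else x) = (if y = b then a else y)) := by
  by_cases hx : x = b
  · by_cases hy : y = b
    · rw [if_pos hx, if_pos hy]
      exact ⟨fun _ => rfl, fun _ => Or.inl (hx.trans hy.symm)⟩
    · rw [if_pos hx, if_neg hy]
      constructor
      · rintro (h | ⟨h1, h2⟩ | ⟨h1, h2⟩)
        · exact absurd (h.symm.trans hx) hy
        · exact absurd h2.symm hy
        · exact h2
      · exact fun h => Or.inr (Or.inr ⟨hx, h⟩)
  · by_cases hy : y = b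
    · rw [if_neg hx, if_pos hy]
      constructor
      · rintro (h | ⟨h1, h2⟩ | ⟨h1, h2⟩)
        · exact absurd (h.trans hy) hx
        · exact h1
        · exact absurd h1 hx
      · exact fun h => Or.inr (Or.inl ⟨h, hy.symm⟩)
    · rw [if_neg hx, if_neg hy]
      constructor
      · rintro (h | ⟨h1, h2⟩ | ⟨h1, h2⟩)
        · exact h
        · exact absurd h2.symm hy
        · exact absurd h1 hx
      · exact fun h => Or.inl h

private theorem fc_mrg {V : Setoid Pt} {z : Fin 8 → Pt} {f : Fin 8 → ℕ}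
    (h : ∀ i j, V (z i) (z j) ↔ f i = f j) (a b : Fin 8) :
    ∀ i j, (V ⊔ pr (z a) (z b)) (z i) (z j) ↔ fcMrg f a b i = fcMrg f a b j := by
  intro i j
  rw [sup_pr, h, h, h, h, h]
  exact fc_nat (f i) (f j) (f a) (f b)

end ideal

variable {Pt ι : Type} [DecidableEq ι] {W : Setoid Pt} {x : ι → Fin 4 → Pt} {S : Finset ι}
  {c c' : ι}

private theorem fc_match (h : Legit W x {c, c'}) (hne : c ≠ c') :
    ∃ t : Fin 8 → Fin 8, (∀ i, t (t i) = i) ∧ (∀ i, t i ≠ i) ∧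
      ∀ i j, W ((![x c 0, x c 1, x c 2, x c 3, x c' 0, x c' 1, x c' 2, x c' 3] : Fin 8 → Pt) i)
        ((![x c 0, x c 1, x c 2, x c 3, x c' 0, x c' 1, x c' 2, x c' 3] : Fin 8 → Pt) j) ↔
        fcBase t i = fcBase t j := by
  set z : Fin 8 → Pt := ![x c 0, x c 1, x c 2, x c 3, x c' 0, x c' 1, x c' 2, x c' 3] with hz
  let lab : Fin 8 → ι × Fin 4 :=
    ![(c, 0), (c, 1), (c, 2), (c, 3), (c', 0), (c', 1), (c', 2), (c', 3)]
  have hlz : ∀ i, x (lab i).1 (lab i).2 = z i := by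
    intro i
    fin_cases i <;> rfl
  have hmem : ∀ i, (lab i).1 ∈ ({c, c'} : Finset ι) := by
    intro i
    rw [Finset.mem_insert, Finset.mem_singleton]
    fin_cases i
    · exact Or.inl rfl
    · exact Or.inl rfl
    · exact Or.inl rfl
    · exact Or.inl rfl
    · exact Or.inr rfl
    · exact Or.inr rfl
    · exact Or.inr rfl
    · exact Or.inr rfl
  have hnum : ∀ i, (lab i).2.val + (if (lab i).1 = c then 0 else 4) = i.val := by
    intro i
    fin_cases i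
    · exact congrArg (0 + ·) (if_pos rfl)
    · exact congrArg (1 + ·) (if_pos rfl)
    · exact congrArg (2 + ·) (if_pos rfl)
    · exact congrArg (3 + ·) (if_pos rfl)
    · exact congrArg (0 + ·) (if_neg hne.symm)
    · exact congrArg (1 + ·) (if_neg hne.symm)
    · exact congrArg (2 + ·) (if_neg hne.symm)
    · exact congrArg (3 + ·) (if_neg hne.symm)
  have hinj : Function.Injective lab := by
    intro i j hij
    apply Fin.ext
    rw [← hnum i, ← hnum j, hij]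
  have hsurj : ∀ l : ι × Fin 4, l.1 ∈ ({c, c'} : Finset ι) → ∃ i, lab i = l := by
    rintro ⟨d, k⟩ hl
    rw [Finset.mem_insert, Finset.mem_singleton] at hl
    rcases hl with hl | hl
    · have hd : d = c := hl
      subst hd
      fin_cases k
      · exact ⟨0, rfl⟩
      · exact ⟨1, rfl⟩
      · exact ⟨2, rfl⟩
      · exact ⟨3, rfl⟩
    · have hd : d = c' := hl
      subst hd
      fin_cases k
      · exact ⟨4, rfl⟩
      · exact ⟨5, rfl⟩
      · exact ⟨6, rfl⟩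
      · exact ⟨7, rfl⟩
  have hex : ∀ i : Fin 8, ∃ j : Fin 8, j ≠ i ∧ W (z i) (z j) ∧
      ∀ k : Fin 8, k ≠ i → W (z i) (z k) → k = j := by
    intro i
    obtain ⟨l', hl1, hl2, hl3, hl4⟩ := h (lab i) (hmem i)
    obtain ⟨j, rfl⟩ := hsurj l' hl1
    refine ⟨j, fun hji => hl2 (by rw [hji]), ?_, ?_⟩
    · have h5 : W (x (lab i).1 (lab i).2) (x (lab j).1 (lab j).2) := hl3
      rw [hlz, hlz] at h5
      exact h5
    · intro k hki hW
      apply hinj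
      refine hl4 (lab k) (hmem k) (fun h6 => hki (hinj h6)) ?_
      have h5 : W (x (lab i).1 (lab i).2) (x (lab k).1 (lab k).2) := by
        rw [hlz, hlz]
        exact hW
      exact h5
  choose t ht1 ht2 ht3 using hex
  have hinv : ∀ i, t (t i) = i := by
    intro i
    exact (ht3 (t i) i (fun h1 => ht1 i h1.symm) (W.symm (ht2 i))).symm
  refine ⟨t, hinv, ht1, ?_⟩
  intro i j
  constructor
  · intro hW
    by_cases hij : j = i
    · rw [hij]
    · have h1 := ht3 i j hij hW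
      unfold fcBase
      rw [h1, hinv, Nat.min_comm]
  · intro hf
    unfold fcBase at hf
    have h1 : i = j ∨ i = t j ∨ t i = j ∨ t i = t j := by
      rcases Nat.le_total i.val (t i).val with h2 | h2 <;>
        rcases Nat.le_total j.val (t j).val with h3 | h3
      · rw [Nat.min_eq_left h2, Nat.min_eq_left h3] at hf
        exact Or.inl (Fin.ext hf)
      · rw [Nat.min_eq_left h2, Nat.min_eq_right h3] at hf
        exact Or.inr (Or.inl (Fin.ext hf))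
      · rw [Nat.min_eq_right h2, Nat.min_eq_left h3] at hf
        exact Or.inr (Or.inr (Or.inl (Fin.ext hf)))
      · rw [Nat.min_eq_right h2, Nat.min_eq_right h3] at hf
        exact Or.inr (Or.inr (Or.inr (Fin.ext hf)))
    rcases h1 with h1 | h1 | h1 | h1
    · rw [h1]
    · rw [h1]
      exact W.symm (ht2 j)
    · rw [← h1]
      exact ht2 i
    · have h2 : i = j := by rw [← hinv i, h1, hinv]
      rw [h2]

theorem face (h : Legit W x {c, c'}) (hne : c ≠ c') :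
    kap (W ⊔ s0 (x c) ⊔ s0 (x c')) (x c) * kap (W ⊔ s1 (x c) ⊔ s0 (x c')) (x c') +
      kap (W ⊔ s0 (x c) ⊔ s0 (x c')) (x c') * kap (W ⊔ s0 (x c) ⊔ s1 (x c')) (x c)
      ∈ I (W ⊔ s1 (x c) ⊔ s1 (x c')) := by
  classical
  obtain ⟨t, ht1, ht2, ht3⟩ := fc_match h hne
  set z : Fin 8 → Pt := ![x c 0, x c 1, x c 2, x c 3, x c' 0, x c' 1, x c' 2, x c' 3] with hz
  have a0 : s0 (x c) = pr (z 0) (z 1) ⊔ pr (z 2) (z 3) := rfl
  have a1 : s1 (x c) = pr (z 0) (z 2) ⊔ pr (z 1) (z 3) := rfl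
  have b0 : s0 (x c') = pr (z 4) (z 5) ⊔ pr (z 6) (z 7) := rfl
  have b1 : s1 (x c') = pr (z 4) (z 6) ⊔ pr (z 5) (z 7) := rfl
  have k1 : ∀ V : Setoid Pt, kap V (x c) = if V (z 0) (z 2) then X (z 0) + X (z 1) else 1 :=
    fun _ => rfl
  have k2 : ∀ V : Setoid Pt, kap V (x c') = if V (z 4) (z 6) then X (z 4) + X (z 5) else 1 :=
    fun _ => rfl
  rw [k1, k2, k2, k1, a0, a1, b0, b1, ← sup_assoc, ← sup_assoc, ← sup_assoc, ← sup_assoc,
    ← sup_assoc, ← sup_assoc]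
  exact fc_final (fc_mrg (fc_mrg (fc_mrg (fc_mrg ht3 0 1) 2 3) 4 5) 6 7)
    (fc_mrg (fc_mrg (fc_mrg (fc_mrg ht3 0 2) 1 3) 4 5) 6 7)
    (fc_mrg (fc_mrg (fc_mrg (fc_mrg ht3 0 1) 2 3) 4 6) 5 7)
    (fc_mrg (fc_mrg (fc_mrg (fc_mrg ht3 0 2) 1 3) 4 6) 5 7) (fc_good t ht1 ht2)

end Pool.HPS
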