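import Pool.Agent.HPS.Sad
import Pool.Agent.HPS.Face

/-!
# Module HPS-Dd: `d² = 0` and small facts on `bd`

`face_U` is the face relation inside a system, `bd_bd` sums it over all pairs of crossings.
-/

set_option autoImplicit false

open Finset MvPolynomial

namespace Pool.HPS

variable {Pt ι : Type} [DecidableEq ι] {W : Setoid Pt} {x : ι → Fin 4 → Pt} {S : Finset ι}

theorem face_U (hL : Legit W x S) {r : Finset ι} (hr : r ⊆ S) {c c' : ι} (hc : c ∈ r)
    (hc' : c' ∈ r) (hne : c ≠ c') :
    kap (U W x S (r.erase c)) (x c) * kap (U W x S ((r.erase c).erase c')) (x c') +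
      kap (U W x S (r.erase c')) (x c') * kap (U W x S ((r.erase c').erase c)) (x c)
      ∈ I (U W x S r) := by
  have hcS : c ∈ S := hr hc
  have hcS' : c' ∈ S := hr hc'
  have hmem : c' ∈ S.erase c := Finset.mem_erase.2 ⟨hne.symm, hcS'⟩
  have h := face (legit_two hL hcS hcS' hne r) hne
  have hcg : ∀ r' : Finset ι, (∀ d, d ≠ c → d ≠ c' → (d ∈ r' ↔ d ∈ r)) →
      U W x ((S.erase c).erase c') r' = U W x ((S.erase c).erase c') r := by
    intro r' hr'
    refine U_congr fun d hd => hr' d ?_ ?_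
    · rintro rfl
      simp at hd
    · rintro rfl
      simp at hd
  have e1 : U W x S (r.erase c) =
      U W x ((S.erase c).erase c') r ⊔ s0 (x c) ⊔ s1 (x c') := by
    rw [U_last0 hcS (Finset.notMem_erase c r),
      U_last1 hmem (Finset.mem_erase.2 ⟨hne.symm, hc'⟩), hcg, sup_right_comm]
    intro d h1 h2
    simp [h1]
  have e2 : U W x S ((r.erase c).erase c') =
      U W x ((S.erase c).erase c') r ⊔ s0 (x c) ⊔ s0 (x c') := by
    rw [U_last0 hcS (by simp), U_last0 hmem (by simp), hcg, sup_right_comm]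
    intro d h1 h2
    simp [h1, h2]
  have e3 : U W x S (r.erase c') =
      U W x ((S.erase c).erase c') r ⊔ s1 (x c) ⊔ s0 (x c') := by
    rw [U_last1 hcS (Finset.mem_erase.2 ⟨hne, hc⟩), U_last0 hmem (by simp), hcg,
      sup_right_comm]
    intro d h1 h2
    simp [h2]
  have e4 : U W x S ((r.erase c').erase c) =
      U W x ((S.erase c).erase c') r ⊔ s0 (x c) ⊔ s0 (x c') := by
    rw [Finset.erase_right_comm, e2]
  have e5 : U W x S r = U W x ((S.erase c).erase c') r ⊔ s1 (x c) ⊔ s1 (x c') := by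
    rw [U_last1 hcS hc, U_last1 hmem hc', sup_right_comm]
  rw [e1, e2, e3, e4, e5]
  rw [add_comm, mul_comm (kap _ (x c')) (kap _ (x c)), mul_comm (kap _ (x c)) (kap _ (x c'))]
  convert h using 2 <;> ring

theorem bd_bd (hL : Legit W x S) (g : Finset ι → Rg Pt) {r : Finset ι} (hr : r ⊆ S) :
    bd W x S (bd W x S g) r ∈ I (U W x S r) := by
  rw [← Ideal.Quotient.eq_zero_iff_mem]
  unfold bd
  simp only [Finset.mul_sum]
  rw [Finset.sum_sigma', map_sum]
  refine Finset.sum_involution (fun p _ => ⟨p.2, p.1⟩) ?_ ?_ ?_ ?_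
  · rintro ⟨c, c'⟩ hp
    simp only [Finset.mem_sigma, Finset.mem_erase] at hp
    obtain ⟨hc, hne, hc'⟩ := hp
    rw [← map_add, Ideal.Quotient.eq_zero_iff_mem]
    have h := face_U hL hr hc hc' hne.symm
    have h2 := Ideal.mul_mem_right (g ((r.erase c).erase c')) _ h
    have h3 : (r.erase c').erase c = (r.erase c).erase c' := Finset.erase_right_comm
    convert h2 using 1
    simp only []
    rw [h3]
    ring
  · rintro ⟨c, c'⟩ hp _ heq
    simp only [Finset.mem_sigma, Finset.mem_erase] at hp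
    exact hp.2.1 (congrArg Sigma.fst heq)
  · rintro ⟨c, c'⟩ hp
    simp only [Finset.mem_sigma, Finset.mem_erase] at hp ⊢
    exact ⟨hp.2.2, hp.2.1.symm, hp.1⟩
  · rintro ⟨c, c'⟩ _
    rfl

theorem bd_add (f g : Finset ι → Rg Pt) (r : Finset ι) :
    bd W x S (fun s => f s + g s) r = bd W x S f r + bd W x S g r := by
  unfold bd
  rw [← Finset.sum_add_distrib]
  exact Finset.sum_congr rfl fun c _ => mul_add _ _ _

theorem bd_mul (a : Rg Pt) (f : Finset ι → Rg Pt) (r : Finset ι) :
    bd W x S (fun s => a * f s) r = a * bd W x S f r := by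
  unfold bd
  rw [Finset.mul_sum]
  exact Finset.sum_congr rfl fun c _ => mul_left_comm _ _ _

theorem bd_congr {f g : Finset ι → Rg Pt} {r : Finset ι}
    (h : ∀ c ∈ r, f (r.erase c) = g (r.erase c)) : bd W x S f r = bd W x S g r := by
  unfold bd
  exact Finset.sum_congr rfl fun c hc => by rw [h c hc]

theorem bd_mem {E : Setoid Pt → ℕ → Prop} (hE : EOk E) (hL : Legit W x S)
    {g : Finset ι → Rg Pt} {k : ℕ}
    (hg : ∀ r, r ⊆ S → r.card = k → g r ∈ J E (U W x S r) k) {r : Finset ι} (hr : r ⊆ S)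
    (hk : r.card = k + 1) : bd W x S g r ∈ J E (U W x S r) (k + 1) := by
  unfold bd
  refine Ideal.sum_mem _ fun c hc => kap_JU hE hL hr hc ?_
  refine hg _ ((Finset.erase_subset c r).trans hr) ?_
  rw [Finset.card_erase_of_mem hc, hk]
  rfl

/-- The coboundary of a system with one more crossing, away from that crossing. -/
theorem bd_ins0 {c : ι} (hc : c ∉ S) (g : Finset ι → Rg Pt) {r : Finset ι} (hr : r ⊆ S) :
    bd W x (insert c S) g r = bd (W ⊔ s0 (x c)) x S g r := by
  unfold bd
  refine Finset.sum_congr rfl fun d _ => ?_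
  rw [U_ins0 (fun h => hc (hr (Finset.mem_of_mem_erase h)))]

/-- The coboundary of a system with one more crossing, at that crossing. -/
theorem bd_ins1 {c : ι} (hc : c ∉ S) (g : Finset ι → Rg Pt) {r : Finset ι} (hr : r ⊆ S) :
    bd W x (insert c S) g (insert c r) =
      kap (U (W ⊔ s0 (x c)) x S r) (x c) * g r +
        bd (W ⊔ s1 (x c)) x S (fun s => g (insert c s)) r := by
  have hcr : c ∉ r := fun h => hc (hr h)
  unfold bd
  rw [Finset.sum_insert hcr, Finset.erase_insert hcr, U_ins0 hcr]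
  congr 1
  refine Finset.sum_congr rfl fun d hd => ?_
  have hdc : c ≠ d := fun h => hcr (h ▸ hd)
  rw [Finset.erase_insert_of_ne hdc, U_ins1 (Finset.mem_insert_self c _)]
  have h1 : U (W ⊔ s1 (x c)) x S (insert c (r.erase d)) =
      U (W ⊔ s1 (x c)) x S (r.erase d) := by
    refine U_congr fun e he => ?_
    have hec : e ≠ c := fun h => hc (h ▸ he)
    simp [hec]
  rw [h1]

end Pool.HPS
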