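import Pool.Agent.HPS.Loop
import Pool.Agent.HPS.Dd

/-!
# Module HPS-R1: first Reidemeister move

Pattern: `W (x c 0) (x c 2)`.  With `c` 1-smoothed, `{p | W (x c 0) p}` is a closed loop.  The coboundaries of the two smoothings of `c`
agree, and substituting `X (x c 1)` for the points of the loop maps the ideal of the 0-smoothing into the ideal of the 1-smoothing.
-/

set_option autoImplicit false

open Finset MvPolynomial

namespace Pool.HPS

variable {Pt ι : Type} [DecidableEq ι] {W : Setoid Pt} {x : ι → Fin 4 → Pt} {S : Finset ι}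
  {c : ι} {E : Setoid Pt → ℕ → Prop}

private def LL (W : Setoid Pt) (y : Fin 4 → Pt) : Set Pt := {p | W (y 0) p}

/-- The cochain with values `A` on the sets with `c` and `B` on the others. -/
private def glue (c : ι) (A B : Finset ι → Rg Pt) : Finset ι → Rg Pt :=
  fun t => if c ∈ t then A (t.erase c) else B t

private theorem glue1 (A B : Finset ι → Rg Pt) {r : Finset ι} (hr : c ∉ r) :
    glue c A B (insert c r) = A r := by
  unfold glue
  rw [if_pos (Finset.mem_insert_self _ _), Finset.erase_insert hr]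

private theorem glue0 (A B : Finset ι → Rg Pt) {r : Finset ι} (hr : c ∉ r) :
    glue c A B r = B r := by
  unfold glue
  rw [if_neg hr]

private theorem r1_out (hL : Legit W x (insert c S)) (hW : W (x c 0) (x c 2)) {c' : ι}
    (hc' : c' ∈ insert c S) {k : Fin 4} (h0 : (c', k) ≠ (c, 0)) (h2 : (c', k) ≠ (c, 2)) :
    x c' k ∉ LL W (x c) := by
  obtain ⟨l', -, -, -, hu⟩ := hL (c, 0) (Finset.mem_insert_self c S)
  intro h
  have e1 := hu (c, 2) (Finset.mem_insert_self c S) (by simp) hW
  have e2 := hu (c', k) hc' h0 h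
  exact h2 (e2.trans e1.symm)

private theorem r1_outS (hc : c ∉ S) (hL : Legit W x (insert c S)) (hW : W (x c 0) (x c 2))
    {c' : ι} (hc' : c' ∈ S) (k : Fin 4) : x c' k ∉ LL W (x c) := by
  have hne : c' ≠ c := fun h => hc (h ▸ hc')
  exact r1_out hL hW (Finset.mem_insert_of_mem hc') (fun h => hne (Prod.ext_iff.1 h).1)
    (fun h => hne (Prod.ext_iff.1 h).1)

private theorem r1_loop (hc : c ∉ S) (hL : Legit W x (insert c S)) (hW : W (x c 0) (x c 2))
    (r : Finset ι) : IsLoop (U (W ⊔ s1 (x c)) x S r) (LL W (x c)) (x c 0) := by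
  have hZ : U (W ⊔ s1 (x c)) x S r ≤ Setoid.ker (fun p => W (x c 0) p) := by
    unfold U
    refine sup_le (sup_le ?_ ?_) (Finset.sup_le fun c' hc' => ?_)
    · intro p q h
      exact propext ⟨fun h1 => W.trans h1 h, fun h1 => W.trans h1 (W.symm h)⟩
    · rw [s1_le]
      constructor
      · exact propext ⟨fun _ => hW, fun _ => W.refl _⟩
      · exact propext (iff_of_false
          (r1_out hL hW (Finset.mem_insert_self _ _) (by simp) (by simp))
          (r1_out hL hW (Finset.mem_insert_self _ _) (by simp) (by simp)))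
    · have ho := r1_outS hc hL hW hc'
      split_ifs
      · rw [s1_le]
        exact ⟨propext (iff_of_false (ho _) (ho _)), propext (iff_of_false (ho _) (ho _))⟩
      · rw [s0_le]
        exact ⟨propext (iff_of_false (ho _) (ho _)), propext (iff_of_false (ho _) (ho _))⟩
  intro p
  constructor
  · intro h
    exact le_U (Setoid.le_def.1 le_sup_left h)
  · intro h
    have h1 : W (x c 0) (x c 0) = W (x c 0) p := hZ h
    have h2 : W (x c 0) p := h1.mp (W.refl _)
    exact h2

private theorem r1_V0 (hW : W (x c 0) (x c 2)) (r : Finset ι) :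
    U (W ⊔ s0 (x c)) x S r = U (W ⊔ s1 (x c)) x S r ⊔ pr (x c 0) (x c 1) := by
  rw [U_sup, U_sup]
  have hU : U W x S r (x c 0) (x c 2) := le_U hW
  apply le_antisymm
  · refine sup_le (le_sup_left.trans le_sup_left) (s0_le.2 ?_)
    set Z := U W x S r ⊔ s1 (x c) ⊔ pr (x c 0) (x c 1) with hZ
    have h01 : Z (x c 0) (x c 1) := pr_le.1 le_sup_right
    have h02 : Z (x c 0) (x c 2) :=
      Setoid.le_def.1 (le_sup_left.trans le_sup_left : U W x S r ≤ Z) hU
    have h13 : Z (x c 1) (x c 3) :=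
      (s1_le.1 (le_sup_right.trans le_sup_left : s1 (x c) ≤ Z)).2
    exact ⟨h01, Z.trans (Z.symm h02) (Z.trans h01 h13)⟩
  · set Z := U W x S r ⊔ s0 (x c) with hZ
    have h01 : Z (x c 0) (x c 1) := (s0_le.1 (le_sup_right : s0 (x c) ≤ Z)).1
    have h23 : Z (x c 2) (x c 3) := (s0_le.1 (le_sup_right : s0 (x c) ≤ Z)).2
    have h02 : Z (x c 0) (x c 2) := Setoid.le_def.1 (le_sup_left : U W x S r ≤ Z) hU
    refine sup_le (sup_le le_sup_left (s1_le.2 ⟨h02, ?_⟩)) (pr_le.2 h01)
    exact Z.trans (Z.symm h01) (Z.trans h02 h23)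

private theorem r1_kap (hc : c ∉ S) (hL : Legit W x (insert c S)) (hW : W (x c 0) (x c 2))
    (r : Finset ι) {c' : ι} (hc' : c' ∈ S) :
    kap (U (W ⊔ s0 (x c)) x S r) (x c') = kap (U (W ⊔ s1 (x c)) x S r) (x c') := by
  have ho := r1_outS hc hL hW hc'
  have hl := r1_loop hc hL hW r
  have h1 : U (W ⊔ s0 (x c)) x S r (x c' 0) (x c' 2) ↔
      U (W ⊔ s1 (x c)) x S r (x c' 0) (x c' 2) := by
    rw [r1_V0 hW]
    refine (sup_pr _ _ _ _ _).trans ?_
    constructor
    · rintro (h | ⟨h, -⟩ | ⟨-, h⟩)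
      · exact h
      · exact absurd ((hl _).2 (Setoid.symm' _ h)) (ho 0)
      · exact absurd ((hl _).2 h) (ho 2)
    · exact Or.inl
  unfold kap
  by_cases h2 : U (W ⊔ s1 (x c)) x S r (x c' 0) (x c' 2)
  · rw [if_pos h2, if_pos (h1.2 h2)]
  · rw [if_neg h2, if_neg fun h3 => h2 (h1.1 h3)]

private theorem r1_uukap (hc : c ∉ S) (hL : Legit W x (insert c S)) (hW : W (x c 0) (x c 2))
    (r : Finset ι) {c' : ι} (hc' : c' ∈ S) :
    uu (LL W (x c)) (kap (U (W ⊔ s1 (x c)) x S r) (x c')) =
      kap (U (W ⊔ s1 (x c)) x S r) (x c') := by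
  have ho := r1_outS hc hL hW hc'
  unfold kap
  split_ifs
  · rw [uu_add, uu_X (ho 0), uu_X (ho 1)]
  · exact uu_one

private theorem r1_bd (hc : c ∉ S) (hL : Legit W x (insert c S)) (hW : W (x c 0) (x c 2))
    (g : Finset ι → Rg Pt) {r : Finset ι} (hr : r ⊆ S) :
    bd (W ⊔ s0 (x c)) x S g r = bd (W ⊔ s1 (x c)) x S g r := by
  unfold bd
  exact Finset.sum_congr rfl fun c' hc' => by rw [r1_kap hc hL hW _ (hr hc')]

private theorem r1_vvbd (hc : c ∉ S) (hL : Legit W x (insert c S)) (hW : W (x c 0) (x c 2))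
    (g : Finset ι → Rg Pt) {r : Finset ι} (hr : r ⊆ S) :
    vv (LL W (x c)) (bd (W ⊔ s1 (x c)) x S g r) =
      bd (W ⊔ s1 (x c)) x S (fun s => vv (LL W (x c)) (g s)) r := by
  unfold bd
  rw [vv_sum]
  refine Finset.sum_congr rfl fun c' hc' => ?_
  have h1 := r1_uukap hc hL hW (r.erase c') (hr hc')
  rw [vv_mul, h1, vv_of_nl h1, zero_mul, add_zero]

private theorem r1_rhobd (hc : c ∉ S) (hL : Legit W x (insert c S)) (hW : W (x c 0) (x c 2))
    (q : Pt) (g : Finset ι → Rg Pt) {r : Finset ι} (hr : r ⊆ S) :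
    rho (LL W (x c)) q (bd (W ⊔ s1 (x c)) x S g r) =
      bd (W ⊔ s1 (x c)) x S (fun s => rho (LL W (x c)) q (g s)) r := by
  unfold bd
  rw [map_sum]
  refine Finset.sum_congr rfl fun c' hc' => ?_
  have h1 := r1_uukap hc hL hW (r.erase c') (hr hc')
  rw [map_mul, rho_of_nl h1]

private theorem r1_kapc (hW : W (x c 0) (x c 2)) (r : Finset ι) :
    kap (U (W ⊔ s0 (x c)) x S r) (x c) = X (x c 0) + X (x c 1) := by
  unfold kap
  rw [if_pos]
  exact le_U (Setoid.le_def.1 le_sup_left hW)

private theorem r1_E (hE : EOk E) (hc : c ∉ S) (hL : Legit W x (insert c S))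
    (hW : W (x c 0) (x c 2)) (r : Finset ι) (k : ℕ) :
    E (U (W ⊔ s0 (x c)) x S r) k ↔ E (U (W ⊔ s1 (x c)) x S r) (k + 1) := by
  have hl := r1_loop hc hL hW r
  have hb : x c 1 ∉ LL W (x c) := r1_out hL hW (Finset.mem_insert_self _ _) (by simp) (by simp)
  rw [r1_V0 hW]
  exact hE.dn _ _ _ _ fun h => hb ((hl _).2 h)

private theorem r1_U0 (hc : c ∉ S) {r : Finset ι} (hr : r ⊆ S) :
    U W x (insert c S) r = U (W ⊔ s0 (x c)) x S r :=
  U_ins0 fun h => hc (hr h)

private theorem r1_U1 (hc : c ∉ S) (r : Finset ι) :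
    U W x (insert c S) (insert c r) = U (W ⊔ s1 (x c)) x S r := by
  rw [U_ins1 (Finset.mem_insert_self _ _)]
  refine U_congr fun c' hc' => ?_
  have hne : c' ≠ c := fun h => hc (h ▸ hc')
  rw [Finset.mem_insert]
  exact ⟨fun h => h.resolve_left hne, Or.inr⟩

private theorem r1_rho0 (hL : Legit W x (insert c S)) (hW : W (x c 0) (x c 2)) :
    rho (LL W (x c)) (x c 1) (X (x c 0) + X (x c 1) : Rg Pt) = 0 := by
  have hb : x c 1 ∉ LL W (x c) := r1_out hL hW (Finset.mem_insert_self _ _) (by simp) (by simp)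
  have ha : x c 0 ∈ LL W (x c) := W.refl _
  unfold rho
  rw [map_add, aeval_X, aeval_X, if_pos ha, if_neg hb]
  exact CharTwo.add_self_eq_zero _

/-- From `I V1` to `I V0`. -/
private theorem r1_up (hW : W (x c 0) (x c 2)) {r : Finset ι} {f : Rg Pt}
    (hf : f ∈ I (U (W ⊔ s1 (x c)) x S r)) : f ∈ I (U (W ⊔ s0 (x c)) x S r) := by
  rw [r1_V0 hW]
  exact I_mono le_sup_left hf

/-- From `I V0` to `I V1`, after the substitution. -/
private theorem r1_dn (hc : c ∉ S) (hL : Legit W x (insert c S)) (hW : W (x c 0) (x c 2))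
    {r : Finset ι} {f : Rg Pt} (hf : f ∈ I (U (W ⊔ s0 (x c)) x S r)) :
    rho (LL W (x c)) (x c 1) f ∈ I (U (W ⊔ s1 (x c)) x S r) := by
  have hb : x c 1 ∉ LL W (x c) := r1_out hL hW (Finset.mem_insert_self _ _) (by simp) (by simp)
  rw [r1_V0 hW] at hf
  exact rho_mem' (r1_loop hc hL hW r) hb hf

theorem R1dn (hE : EOk E) (hc : c ∉ S) (hL : Legit W x (insert c S)) (hW : W (x c 0) (x c 2))
    {h : ℕ} (H : Ex E (W ⊔ s0 (x c)) x S h) : Ex E W x (insert c S) (h + 1) := by
  intro f hf
  have hb : x c 1 ∉ LL W (x c) := r1_out hL hW (Finset.mem_insert_self _ _) (by simp) (by simp)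
  have ha : x c 0 ∈ LL W (x c) := W.refl _
  have hB : ∀ r, r ⊆ S → r.card = h + 1 → E (U (W ⊔ s1 (x c)) x S r) (h + 2) →
      (X (x c 0) + X (x c 1)) * f r + bd (W ⊔ s1 (x c)) x S (fun s => f (insert c s)) r ∈
        I (U (W ⊔ s1 (x c)) x S r) := by
    intro r hr hk hEr
    have h1 := hf (insert c r) (Finset.insert_subset_insert c hr)
      (by rw [Finset.card_insert_of_notMem (fun h' => hc (hr h')), hk])
    rw [bd_ins1 hc f hr, r1_U1 hc, J_of hEr, r1_kapc hW] at h1
    exact h1
  obtain ⟨g', hg'⟩ := H (fun s => rho (LL W (x c)) (x c 1) (f (insert c s))) (by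
    intro r hr hk
    by_cases hEr : E (U (W ⊔ s0 (x c)) x S r) (h + 1)
    · rw [J_of hEr, r1_bd hc hL hW _ hr]
      have h1 := hB r hr hk ((r1_E hE hc hL hW r (h + 1)).1 hEr)
      have h2 := r1_dn hc hL hW (r1_up hW h1)
      rw [map_add, map_mul, r1_rho0 hL hW, zero_mul, zero_add, r1_rhobd hc hL hW _ _ hr] at h2
      exact r1_up hW h2
    · rw [J_not hEr]
      exact Submodule.mem_top)
  refine ⟨glue c (fun s => rho (LL W (x c)) (x c 1) (g' s))
    (fun s => vv (LL W (x c)) (f (insert c s))), ?_⟩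
  intro t ht hk
  by_cases hct : c ∈ t
  · obtain ⟨r, hrt, hrS⟩ : ∃ r, insert c r = t ∧ r ⊆ S := by
      refine ⟨t.erase c, Finset.insert_erase hct, ?_⟩
      intro y hy
      rw [Finset.mem_erase] at hy
      exact (Finset.mem_insert.1 (ht hy.2)).resolve_left hy.1
    have hcr : c ∉ r := fun h' => hc (hrS h')
    rw [← hrt, Finset.card_insert_of_notMem hcr] at hk
    have hkr : r.card = h := by omega
    rw [← hrt, bd_ins1 hc _ hrS, r1_U1 hc, glue0 _ _ hcr, r1_kapc hW]
    by_cases hEr : E (U (W ⊔ s1 (x c)) x S r) (h + 1)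
    · rw [J_of hEr]
      have e1 : bd (W ⊔ s1 (x c)) x S (fun s =>
          glue c (fun s => rho (LL W (x c)) (x c 1) (g' s))
            (fun s => vv (LL W (x c)) (f (insert c s))) (insert c s)) r =
          bd (W ⊔ s1 (x c)) x S (fun s => rho (LL W (x c)) (x c 1) (g' s)) r := by
        apply bd_congr
        intro c' _
        exact glue1 _ _ fun h' => hcr (Finset.mem_of_mem_erase h')
      rw [e1, ← r1_rhobd hc hL hW _ _ hrS]
      have h1 := hg' r hrS hkr
      rw [J_of ((r1_E hE hc hL hW r h).2 hEr), r1_bd hc hL hW _ hrS] at h1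
      have h2 := r1_dn hc hL hW h1
      rw [map_add, rho_of_nl (uu_rho hb _)] at h2
      -- `f1 + (Xa + Xb) vv f1 + rho f1 ∈ I V1`
      have h3 := split_mem (r1_loop hc hL hW r) (f (insert c r))
      have h4 := r1_dn hc hL hW (r1_up hW h3)
      rw [map_add, map_add, map_mul, rho_of_nl (uu_uu _), rho_of_nl (uu_vv _)] at h4
      have h5 : rho (LL W (x c)) (x c 1) (X (x c 0) : Rg Pt) = X (x c 1) := by
        unfold rho
        rw [aeval_X, if_pos ha]
      rw [h5] at h4
      have h6 := Ideal.add_mem _ (Ideal.add_mem _ h3 h4) h2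
      have e2 : f (insert c r) + ((X (x c 0) + X (x c 1)) * vv (LL W (x c)) (f (insert c r)) +
            rho (LL W (x c)) (x c 1) (bd (W ⊔ s1 (x c)) x S g' r)) =
          f (insert c r) + (uu (LL W (x c)) (f (insert c r)) +
            X (x c 0) * vv (LL W (x c)) (f (insert c r))) +
          (rho (LL W (x c)) (x c 1) (f (insert c r)) + (uu (LL W (x c)) (f (insert c r)) +
            X (x c 1) * vv (LL W (x c)) (f (insert c r)))) +
          (rho (LL W (x c)) (x c 1) (f (insert c r)) +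
            rho (LL W (x c)) (x c 1) (bd (W ⊔ s1 (x c)) x S g' r)) := by
        have hu : uu (LL W (x c)) (f (insert c r)) + uu (LL W (x c)) (f (insert c r)) = 0 :=
          CharTwo.add_self_eq_zero _
        have hr' : rho (LL W (x c)) (x c 1) (f (insert c r)) +
            rho (LL W (x c)) (x c 1) (f (insert c r)) = 0 := CharTwo.add_self_eq_zero _
        linear_combination (-1 : Rg Pt) * hu - hr'
      rw [e2]
      exact h6
    · rw [J_not hEr]
      exact Submodule.mem_top
  · have htS : t ⊆ S := by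
      intro y hy
      exact (Finset.mem_insert.1 (ht hy)).resolve_left (fun h' => hct (h' ▸ hy))
    rw [bd_ins0 hc _ htS, r1_U0 hc htS]
    by_cases hEr : E (U (W ⊔ s0 (x c)) x S t) (h + 1)
    · rw [J_of hEr, r1_bd hc hL hW _ htS]
      have e1 : bd (W ⊔ s1 (x c)) x S (glue c (fun s => rho (LL W (x c)) (x c 1) (g' s))
            (fun s => vv (LL W (x c)) (f (insert c s)))) t =
          bd (W ⊔ s1 (x c)) x S (fun s => vv (LL W (x c)) (f (insert c s))) t := by
        apply bd_congr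
        intro c' _
        exact glue0 _ _ fun h' => hct (Finset.mem_of_mem_erase h')
      rw [e1]
      have h1 := hB t htS hk ((r1_E hE hc hL hW t (h + 1)).1 hEr)
      have h2 := vv_mem (r1_loop hc hL hW t) h1
      rw [vv_add, vv_mul, uu_add, vv_add, uu_X_mem ha, vv_X_mem ha, uu_X hb,
        vv_of_nl (uu_X hb), zero_add, add_zero, one_mul,
        r1_vvbd hc hL hW _ htS] at h2
      have h3 := r1_up hW h2
      have h4 := r1_up hW (split_mem (r1_loop hc hL hW t) (f t))
      have h5 : (X (x c 0) + X (x c 1) : Rg Pt) ∈ I (U (W ⊔ s0 (x c)) x S t) := by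
        apply mem_I
        rw [r1_V0 hW]
        exact pr_le.1 le_sup_right
      have h6 := Ideal.mul_mem_right (vv (LL W (x c)) (f t)) _ h5
      have h7 := Ideal.add_mem _ (Ideal.add_mem _ h4 h3) h6
      have e2 : f t + bd (W ⊔ s1 (x c)) x S (fun s => vv (LL W (x c)) (f (insert c s))) t =
          f t + (uu (LL W (x c)) (f t) + X (x c 0) * vv (LL W (x c)) (f t)) +
          (X (x c 1) * vv (LL W (x c)) (f t) + uu (LL W (x c)) (f t) +
            bd (W ⊔ s1 (x c)) x S (fun s => vv (LL W (x c)) (f (insert c s))) t) +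
          (X (x c 0) + X (x c 1)) * vv (LL W (x c)) (f t) := by
        have hu : uu (LL W (x c)) (f t) + uu (LL W (x c)) (f t) = 0 :=
          CharTwo.add_self_eq_zero _
        have hv : vv (LL W (x c)) (f t) + vv (LL W (x c)) (f t) = 0 :=
          CharTwo.add_self_eq_zero _
        linear_combination (-1 : Rg Pt) * hu - (X (x c 0) + X (x c 1)) * hv
      rw [e2]
      exact h7
    · rw [J_not hEr]
      exact Submodule.mem_top

theorem R1up (hE : EOk E) (hc : c ∉ S) (hL : Legit W x (insert c S)) (hW : W (x c 0) (x c 2))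
    {h : ℕ} (H : Ex E W x (insert c S) (h + 1)) : Ex E (W ⊔ s0 (x c)) x S h := by
  intro s hs
  have hb : x c 1 ∉ LL W (x c) := r1_out hL hW (Finset.mem_insert_self _ _) (by simp) (by simp)
  have hbF : ∀ r, r ⊆ S → bd (W ⊔ s1 (x c)) x S (fun u =>
      glue c (fun s' => rho (LL W (x c)) (x c 1) (s s')) (fun _ => 0) (insert c u)) r =
        rho (LL W (x c)) (x c 1) (bd (W ⊔ s1 (x c)) x S s r) := by
    intro r hr
    rw [r1_rhobd hc hL hW _ _ hr]
    apply bd_congr
    intro c' _
    exact glue1 _ _ fun h' => hc (hr (Finset.mem_of_mem_erase h'))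
  obtain ⟨G, hG⟩ := H (glue c (fun s' => rho (LL W (x c)) (x c 1) (s s')) (fun _ => 0)) (by
    intro t ht hk
    by_cases hct : c ∈ t
    · obtain ⟨r, hrt, hrS⟩ : ∃ r, insert c r = t ∧ r ⊆ S := by
        refine ⟨t.erase c, Finset.insert_erase hct, ?_⟩
        intro y hy
        rw [Finset.mem_erase] at hy
        exact (Finset.mem_insert.1 (ht hy.2)).resolve_left hy.1
      have hcr : c ∉ r := fun h' => hc (hrS h')
      rw [← hrt, Finset.card_insert_of_notMem hcr] at hk
      have hkr : r.card = h + 1 := by omega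
      rw [← hrt, bd_ins1 hc _ hrS, r1_U1 hc, glue0 _ _ hcr, mul_zero, zero_add, hbF r hrS]
      by_cases hEr : E (U (W ⊔ s1 (x c)) x S r) (h + 1 + 1)
      · rw [J_of hEr]
        have h1 := hs r hrS hkr
        rw [J_of ((r1_E hE hc hL hW r (h + 1)).2 hEr), r1_bd hc hL hW _ hrS] at h1
        exact r1_dn hc hL hW h1
      · rw [J_not hEr]
        exact Submodule.mem_top
    · have htS : t ⊆ S := by
        intro y hy
        exact (Finset.mem_insert.1 (ht hy)).resolve_left (fun h' => hct (h' ▸ hy))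
      rw [bd_ins0 hc _ htS]
      have e1 : bd (W ⊔ s0 (x c)) x S (glue c (fun s' => rho (LL W (x c)) (x c 1) (s s'))
          (fun _ => 0)) t = 0 := by
        unfold bd
        apply Finset.sum_eq_zero
        intro c' _
        rw [glue0 _ _ fun h' => hct (Finset.mem_of_mem_erase h'), mul_zero]
      rw [e1]
      exact Ideal.zero_mem _)
  refine ⟨fun u => rho (LL W (x c)) (x c 1) (G (insert c u)), ?_⟩
  intro r hr hk
  have hcr : c ∉ r := fun h' => hc (hr h')
  by_cases hEr : E (U (W ⊔ s0 (x c)) x S r) h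
  · rw [J_of hEr, r1_bd hc hL hW _ hr]
    have h1 := hG (insert c r) (Finset.insert_subset_insert c hr)
      (by rw [Finset.card_insert_of_notMem hcr, hk])
    rw [bd_ins1 hc _ hr, r1_U1 hc, glue1 _ _ hcr, J_of ((r1_E hE hc hL hW r h).1 hEr),
      r1_kapc hW] at h1
    have h2 := r1_up hW (r1_dn hc hL hW (r1_up hW h1))
    rw [map_add, map_add, map_mul, r1_rho0 hL hW, zero_mul, zero_add, rho_of_nl (uu_rho hb _),
      r1_rhobd hc hL hW _ _ hr] at h2
    have h3 : rho (LL W (x c)) (x c 1) (s r) + s r ∈ I (U (W ⊔ s0 (x c)) x S r) := by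
      rw [r1_V0 hW]
      exact rho_mem (r1_loop hc hL hW r) hb (s r)
    have h4 := Ideal.add_mem _ h2 h3
    have e2 : s r + bd (W ⊔ s1 (x c)) x S (fun u => rho (LL W (x c)) (x c 1)
          (G (insert c u))) r =
        rho (LL W (x c)) (x c 1) (s r) + bd (W ⊔ s1 (x c)) x S
          (fun u => rho (LL W (x c)) (x c 1) (G (insert c u))) r +
        (rho (LL W (x c)) (x c 1) (s r) + s r) := by
      have hr' : rho (LL W (x c)) (x c 1) (s r) + rho (LL W (x c)) (x c 1) (s r) = 0 :=
        CharTwo.add_self_eq_zero _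
      linear_combination (-1 : Rg Pt) * hr'
    rw [e2]
    exact h4
  · rw [J_not hEr]
    exact Submodule.mem_top

end Pool.HPS
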