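import Pool.Agent.HPS.R2C

/-!
# Module HPS-R2B: second Reidemeister move, from the small system to the big one
(imports R2C, R2A, Loop, Dd; write `S'` for `insert c1 (insert c2 S)` and `L = lp W (x c1)`)

The states of the big system are `r`, `insert c2 r`, `insert c1 r`, `insert c1 (insert c2 r)` (`r ⊆ S`): faces 00, 01, 10, 11.
Recall the differential out of them: 00 → 01 is multiplication by `X (x c2 0) + X (x c2 1)` (`kap2`; note `x c2 0 ∈ L`, and
`X (x c2 0) ≡ X (x c1 2) =: X_a` mod `I V01`), 01 → 11 is multiplication by `1` (`kap1`), 00 → 10 by `k1 r := kap V00 (x c1)` and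
10 → 11 by `k2 r := kap V10 (x c2)`, where `V00 = U W x S' r` etc.

PLAN for `R2dn` (all congruences modulo the ideals `J E _ _` of the states).
1. `f` a cocycle of degree `h + 1`.  `π f r := f (insert c1 r) + k1 r * vv L (f (insert c2 r))` for `r ⊆ S`, `|r| = h`.  It is a cocycle
   of the small system: for `|r| = h + 1`: (10-component of the cocycle condition at `insert c1 r`)
   `∑_{c ∈ r} kap V10(r.erase c)(x c) f(insert c1 (r.erase c)) + k1 r * f r ≡ 0`, (01-component at `insert c2 r`)
   `∑_{c ∈ r} κ_c f(insert c2 (r.erase c)) + (X (x c2 0) + X (x c2 1)) f r ≡ 0`; apply `vv L` to the latter (`vv_mem`, `kapS`: the κ_c contain no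
   loop points) after replacing `f r` by `rho L (x c2 1) (f r)` (allowed: `rho_mem`, `kap_JU`): `∑ κ_c vv(f(insert c2 (r.erase c))) + f r ≡ 0` in
   `J V01`, hence in `J V00` (`nl_mem`), multiply by `k1 r` (`kap_JU`: `J V00 → J V10`), and use `face_U` to move `k1` inside:
   `k1 r κ_c + k1 (r.erase c) κ_c' ∈ I V10`.
2. `H` gives `g'` with `π f + d g' ≡ 0`.  Put `e r := rho L (x c1 0) (k2 r * g' r)` and let `f2 := f + d (g' at 10, e at 01)`.  The 11-component of
   `d (g', e)` at `insert c1 (insert c2 r)` is `k2 g' + e ≡ 0` mod `J V11` (`rho_mem`).  `π f2 ≡ 0` because `vv L (e) = 0` and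
   `vv` of the 01-component `∑ κ_c e(r.erase c)` is `0`.
3. `f3 := f2 + d (vv L (f2 01) at 00)`: now the 01-component `u' := uu + X_(x c2 1) vv` has no loop points (mod `J V01`, `split_mem`), and
   the 10-component is `≡ 0`.
4. `f4 := f3 + d (rho L (x c1 0) (f3 11) at 01)`: the 11-component is `≡ 0` (`kap1`, `rho_mem`), the 10-component is unchanged and the
   01-component still has no loop points.
5. `f4` is a cocycle (`bd_bd`): its 11-condition says (10- and 11-components zero) that the 01-component `w` is `≡ 0` in `J V11`,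
   hence in `J V01` (`nl_mem`); then the 01-condition says `(X (x c2 0) + X (x c2 1)) f4(00) ≡ 0` in `J V01`; replace `f4(00)` by its `rho L (x c2 1)`,
   `zero_of`: it is `≡ 0` in `J V01`, hence in `J V00`.  So `f4 ≡ 0` and `f` is a coboundary.
If `E` fails at the three states 00, 01, 11 (they agree, `Pat.E`) all the corresponding ideals are `⊤` and everything is trivial there.
You may organise the computation differently (for instance first reduce to `f` with 00- and 01-components in a normal form).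
-/

set_option autoImplicit false

open Finset MvPolynomial

namespace Pool.HPS

variable {Pt ι : Type} [DecidableEq ι] {W : Setoid Pt} {x : ι → Fin 4 → Pt} {S : Finset ι}
  {c1 c2 : ι}

private theorem two0 : (2 : Rg Pt) = 0 := CharTwo.two_eq_zero

/-- The coboundary at a state with one more crossing. -/
private theorem bd_e1 {T : Finset ι} (g : Finset ι → Rg Pt) {r : Finset ι} {c : ι} (hc : c ∉ r) :
    bd W x T g (insert c r) = kap (U W x T r) (x c) * g r +
      ∑ c' ∈ r, kap (U W x T (insert c (r.erase c'))) (x c') * g (insert c (r.erase c')) := by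
  rw [bd, Finset.sum_insert hc, Finset.erase_insert hc]
  congr 1
  apply Finset.sum_congr rfl
  intro c' hc'
  have hne : c ≠ c' := fun h => hc (h ▸ hc')
  rw [Finset.erase_insert_of_ne hne]

/-- The coboundary at a state with two more crossings. -/
private theorem bd_e2 {T : Finset ι} (g : Finset ι → Rg Pt) {r : Finset ι} {c d : ι}
    (hcd : c ≠ d) (hc : c ∉ r) (hd : d ∉ r) :
    bd W x T g (insert c (insert d r)) =
      kap (U W x T (insert d r)) (x c) * g (insert d r) +
      (kap (U W x T (insert c r)) (x d) * g (insert c r) +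
      ∑ c' ∈ r, kap (U W x T (insert c (insert d (r.erase c')))) (x c') *
        g (insert c (insert d (r.erase c')))) := by
  have hc' : c ∉ insert d r := by
    rw [Finset.mem_insert, not_or]; exact ⟨hcd, hc⟩
  rw [bd_e1 g hc', Finset.sum_insert hd, Finset.erase_insert hd]
  congr 2
  apply Finset.sum_congr rfl
  intro c' hc'
  have hne : d ≠ c' := fun h => hd (h ▸ hc')
  rw [Finset.erase_insert_of_ne hne]

private theorem ins_sub (r : Finset ι) (hr : r ⊆ S) (c1 c2 : ι) :
    r ⊆ insert c1 (insert c2 S) ∧ insert c1 r ⊆ insert c1 (insert c2 S) ∧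
    insert c2 r ⊆ insert c1 (insert c2 S) ∧
    insert c1 (insert c2 r) ⊆ insert c1 (insert c2 S) := by
  refine ⟨fun y hy => ?_, fun y hy => ?_, fun y hy => ?_, fun y hy => ?_⟩
  · exact Finset.mem_insert_of_mem (Finset.mem_insert_of_mem (hr hy))
  · rcases Finset.mem_insert.1 hy with rfl | hy
    · exact Finset.mem_insert_self _ _
    · exact Finset.mem_insert_of_mem (Finset.mem_insert_of_mem (hr hy))
  · rcases Finset.mem_insert.1 hy with rfl | hy
    · exact Finset.mem_insert_of_mem (Finset.mem_insert_self _ _)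
    · exact Finset.mem_insert_of_mem (Finset.mem_insert_of_mem (hr hy))
  · exact Finset.insert_subset_insert _ (Finset.insert_subset_insert _ hr) hy

/-- The four faces of the cube. -/
private theorem four (hne : c1 ≠ c2) {r : Finset ι} (hr : r ⊆ insert c1 (insert c2 S)) :
    ∃ s, s ⊆ S ∧ (r = s ∨ r = insert c1 s ∨ r = insert c2 s ∨ r = insert c1 (insert c2 s)) := by
  refine ⟨(r.erase c1).erase c2, ?_, ?_⟩
  · intro y hy
    rw [Finset.mem_erase, Finset.mem_erase] at hy
    have := hr hy.2.2
    rw [Finset.mem_insert, Finset.mem_insert] at this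
    rcases this with h | h | h
    · exact absurd h hy.2.1
    · exact absurd h hy.1
    · exact h
  · by_cases h1 : c1 ∈ r
    · by_cases h2 : c2 ∈ r
      · right; right; right
        rw [Finset.insert_erase (Finset.mem_erase.2 ⟨hne.symm, h2⟩), Finset.insert_erase h1]
      · right; left
        rw [Finset.erase_eq_of_notMem (a := c2) (fun h => h2 (Finset.mem_of_mem_erase h)),
          Finset.insert_erase h1]
    · by_cases h2 : c2 ∈ r
      · right; right; left
        rw [Finset.erase_eq_of_notMem h1, Finset.insert_erase h2]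
      · left
        rw [Finset.erase_eq_of_notMem h1, Finset.erase_eq_of_notMem h2]

/-- `π` maps `J` to `J`. -/
private theorem piJ {E : Setoid Pt → ℕ → Prop} (hE : EOk E) (hP : Pat W x S c1 c2)
    {r : Finset ι} (hr : r ⊆ S) {k : ℕ} {f : Rg Pt}
    (hf : f ∈ J E (U W x (insert c1 (insert c2 S)) (insert c2 r)) (k + 1)) :
    kap (U W x (insert c1 (insert c2 S)) r) (x c1) * vv (lp W (x c1)) f ∈
      J E (U W x (insert c1 (insert c2 S)) (insert c1 r)) (k + 1) := by
  have h1r : c1 ∉ r := fun h => hP.h1 (hr h)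
  have hk := kap_JU hE hP.leg (r := insert c1 r) (c := c1) (k := k)
    (f := vv (lp W (x c1)) f)
    (ins_sub r hr c1 c2).2.1 (Finset.mem_insert_self _ _)
  rw [Finset.erase_insert h1r] at hk
  apply hk
  by_cases h0 : E (U W x (insert c1 (insert c2 S)) r) k
  · have h01 := ((hP.E hE hr k).1).1 h0
    rw [J_of h01] at hf
    rw [J_of h0]
    have hle : I (U W x (insert c1 (insert c2 S)) (insert c2 r)) ≤
        I (U W x (insert c1 (insert c2 S)) r) := by
      apply I_mono
      rw [hP.V00 hr]
      exact le_sup_left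
    exact hle (vv_mem (hP.isLoop hr) hf)
  · rw [J_not h0]
    exact Submodule.mem_top

/-- Adding a coboundary to a cocycle. -/
private theorem coc_add {E : Setoid Pt → ℕ → Prop} {T : Finset ι} (hL : Legit W x T)
    (g : Finset ι → Rg Pt) {f : Finset ι → Rg Pt} {k : ℕ}
    (hf : ∀ r, r ⊆ T → r.card = k → bd W x T f r ∈ J E (U W x T r) k) :
    ∀ r, r ⊆ T → r.card = k → bd W x T (fun s => f s + bd W x T g s) r ∈ J E (U W x T r) k := by
  intro r hr hk
  rw [bd_add]
  exact Ideal.add_mem _ (hf r hr hk) (I_le_J (bd_bd hL g hr))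

/-- The kill of the components 01 and 00. -/
private theorem last {E : Setoid Pt → ℕ → Prop} (hE : EOk E) (hP : Pat W x S c1 c2) {h : ℕ}
    {f m : Finset ι → Rg Pt}
    (hf : ∀ r, r ⊆ insert c1 (insert c2 S) → r.card = h + 1 + 1 →
      bd W x (insert c1 (insert c2 S)) f r ∈ J E (U W x (insert c1 (insert c2 S)) r) (h + 1 + 1))
    (h10 : ∀ r, r ⊆ S → r.card = h → f (insert c1 r) ∈
      J E (U W x (insert c1 (insert c2 S)) (insert c1 r)) (h + 1))
    (h11 : ∀ r, r ⊆ S → r.card + 1 = h → f (insert c1 (insert c2 r)) ∈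
      J E (U W x (insert c1 (insert c2 S)) (insert c1 (insert c2 r))) (h + 1))
    (h01 : ∀ r, r ⊆ S → r.card = h → f (insert c2 r) + m r ∈
      I (U W x (insert c1 (insert c2 S)) (insert c2 r)))
    (hm : ∀ r, r ⊆ S → r.card = h → uu (lp W (x c1)) (m r) = m r) :
    ∀ r, r ⊆ insert c1 (insert c2 S) → r.card = h + 1 →
      f r ∈ J E (U W x (insert c1 (insert c2 S)) r) (h + 1) := by
  have hne : c1 ≠ c2 := hP.ne
  have k01 : ∀ r, r ⊆ S → r.card = h → f (insert c2 r) ∈
      J E (U W x (insert c1 (insert c2 S)) (insert c2 r)) (h + 1) := by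
    intro r hr hcard
    by_cases h1 : E (U W x (insert c1 (insert c2 S)) (insert c2 r)) (h + 1)
    swap
    · rw [J_not h1]; exact Submodule.mem_top
    have h3 := ((hP.E hE hr h).2).2 h1
    have h1r : c1 ∉ r := fun h => hP.h1 (hr h)
    have h2r : c2 ∉ r := fun h => hP.h2 (hr h)
    have h12 : c1 ∉ insert c2 r := by
      rw [Finset.mem_insert, not_or]; exact ⟨hne, h1r⟩
    have hr11 := (ins_sub r hr c1 c2).2.2.2
    have hc11 : (insert c1 (insert c2 r)).card = h + 1 + 1 := by
      rw [Finset.card_insert_of_notMem h12, Finset.card_insert_of_notMem h2r, hcard]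
    have hD := hf _ hr11 hc11
    rw [bd_e2 f hne h1r h2r, hP.kap1 hr, one_mul] at hD
    have hA : kap (U W x (insert c1 (insert c2 S)) (insert c1 r)) (x c2) * f (insert c1 r) ∈
        J E (U W x (insert c1 (insert c2 S)) (insert c1 (insert c2 r))) (h + 1 + 1) := by
      have he2 : (insert c1 (insert c2 r)).erase c2 = insert c1 r := by
        rw [Finset.erase_insert_of_ne hne, Finset.erase_insert h2r]
      have hk := kap_JU hE hP.leg (r := insert c1 (insert c2 r)) (c := c2) (k := h + 1)
        (f := f (insert c1 r)) hr11 (Finset.mem_insert_of_mem (Finset.mem_insert_self _ _))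
      rw [he2] at hk
      exact hk (h10 r hr hcard)
    have hB : ∑ c' ∈ r, kap (U W x (insert c1 (insert c2 S))
        (insert c1 (insert c2 (r.erase c')))) (x c') * f (insert c1 (insert c2 (r.erase c'))) ∈
        J E (U W x (insert c1 (insert c2 S)) (insert c1 (insert c2 r))) (h + 1 + 1) := by
      apply Ideal.sum_mem
      intro c hc
      have hn1 : c1 ≠ c := fun h => h1r (h ▸ hc)
      have hn2 : c2 ≠ c := fun h => h2r (h ▸ hc)
      have he : (insert c1 (insert c2 r)).erase c = insert c1 (insert c2 (r.erase c)) := by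
        rw [Finset.erase_insert_of_ne hn1, Finset.erase_insert_of_ne hn2]
      have hk := kap_JU hE hP.leg (r := insert c1 (insert c2 r)) (c := c) (k := h + 1)
        (f := f (insert c1 (insert c2 (r.erase c)))) hr11
        (Finset.mem_insert_of_mem (Finset.mem_insert_of_mem hc))
      rw [he] at hk
      apply hk
      apply h11 _ ((Finset.erase_subset _ _).trans hr)
      rw [Finset.card_erase_add_one hc, hcard]
    have hw : f (insert c2 r) ∈
        J E (U W x (insert c1 (insert c2 S)) (insert c1 (insert c2 r))) (h + 1 + 1) :=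
      ((Submodule.add_mem_iff_left _ (Submodule.add_mem _ hA hB)).1 hD)
    rw [J_of h3] at hw
    rw [J_of h1]
    have hle : I (U W x (insert c1 (insert c2 S)) (insert c2 r)) ≤
        I (U W x (insert c1 (insert c2 S)) (insert c1 (insert c2 r))) := by
      apply I_mono
      rw [hP.V11 hr]
      exact le_sup_left
    have hmm : m r ∈ I (U W x (insert c1 (insert c2 S)) (insert c1 (insert c2 r))) :=
      (Submodule.add_mem_iff_right _ hw).1 (hle (h01 r hr hcard))
    rw [hP.V11 hr, nl_mem (hP.isLoop hr) hP.out1.1 (hm r hr hcard)] at hmm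
    exact (Submodule.add_mem_iff_left _ hmm).1 (h01 r hr hcard)
  have k00 : ∀ r, r ⊆ S → r.card = h + 1 → f r ∈
      J E (U W x (insert c1 (insert c2 S)) r) (h + 1) := by
    intro r hr hcard
    by_cases h0 : E (U W x (insert c1 (insert c2 S)) r) (h + 1)
    swap
    · rw [J_not h0]; exact Submodule.mem_top
    have h1 := ((hP.E hE hr (h + 1)).1).1 h0
    have h1r : c1 ∉ r := fun h => hP.h1 (hr h)
    have h2r : c2 ∉ r := fun h => hP.h2 (hr h)
    have hr01 := (ins_sub r hr c1 c2).2.2.1
    have hD := hf _ hr01 (by rw [Finset.card_insert_of_notMem h2r, hcard])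
    rw [bd_e1 f h2r, hP.kap2 hr] at hD
    have hB : ∑ c' ∈ r, kap (U W x (insert c1 (insert c2 S)) (insert c2 (r.erase c'))) (x c') *
        f (insert c2 (r.erase c')) ∈
        J E (U W x (insert c1 (insert c2 S)) (insert c2 r)) (h + 1 + 1) := by
      apply Ideal.sum_mem
      intro c hc
      have hn2 : c2 ≠ c := fun h => h2r (h ▸ hc)
      have hk := kap_JU hE hP.leg (r := insert c2 r) (c := c) (k := h + 1)
        (f := f (insert c2 (r.erase c))) hr01 (Finset.mem_insert_of_mem hc)
      rw [Finset.erase_insert_of_ne hn2] at hk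
      apply hk
      apply k01 _ ((Finset.erase_subset _ _).trans hr)
      rw [Finset.card_erase_of_mem hc, hcard]
      rfl
    have hw := (Submodule.add_mem_iff_left _ hB).1 hD
    rw [J_of h1] at hw
    rw [J_of h0]
    have hL := hP.isLoop hr
    have hq : x c2 1 ∉ lp W (x c1) := hP.out2.1
    -- replace `f r` by its `rho`
    have hrho : rho (lp W (x c1)) (x c2 1) (f r) + f r ∈
        I (U W x (insert c1 (insert c2 S)) r) := by
      rw [hP.V00 hr]
      exact rho_mem hL hq _
    have hk := kap_JU (E := tt) EOk_tt hP.leg (r := insert c2 r) (c := c2) (k := 0)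
      (f := rho (lp W (x c1)) (x c2 1) (f r) + f r) hr01 (Finset.mem_insert_self _ _)
    rw [Finset.erase_insert h2r] at hk
    have h4 := hk (I_le_J hrho)
    rw [J_of (show tt _ _ from trivial), hP.kap2 hr] at h4
    have hXX : (X (x c1 2) + X (x c2 0) : Rg Pt) ∈
        I (U W x (insert c1 (insert c2 S)) (insert c2 r)) := by
      apply mem_I
      exact (hL _).1 (Or.inr hP.b)
    have h5 : (X (x c1 2) + X (x c2 1)) * rho (lp W (x c1)) (x c2 1) (f r) ∈
        I (U W x (insert c1 (insert c2 S)) (insert c2 r)) := by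
      have h6 := Submodule.add_mem _ (Submodule.add_mem _ h4 hw)
        (Ideal.mul_mem_left _ (rho (lp W (x c1)) (x c2 1) (f r)) hXX)
      have e : (X (x c1 2) + X (x c2 1)) * rho (lp W (x c1)) (x c2 1) (f r) =
          (X (x c2 0) + X (x c2 1)) * (rho (lp W (x c1)) (x c2 1) (f r) + f r) +
            (X (x c2 0) + X (x c2 1)) * f r +
          rho (lp W (x c1)) (x c2 1) (f r) * (X (x c1 2) + X (x c2 0)) := by
        linear_combination (- (X (x c2 0) + X (x c2 1)) * f r -
          X (x c2 0) * rho (lp W (x c1)) (x c2 1) (f r)) * (two0 : (2 : Rg Pt) = 0)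
      rw [e]
      exact h6
    have h7 := zero_of hL hq (uu_rho hq (f r)) h5
    have hle : I (U W x (insert c1 (insert c2 S)) (insert c2 r)) ≤
        I (U W x (insert c1 (insert c2 S)) r) := by
      apply I_mono
      rw [hP.V00 hr]
      exact le_sup_left
    exact (Submodule.add_mem_iff_right _ (hle h7)).1 hrho
  intro r hr hcard
  obtain ⟨s, hs, hrs⟩ := four hne hr
  have h1s : c1 ∉ s := fun h => hP.h1 (hs h)
  have h2s : c2 ∉ s := fun h => hP.h2 (hs h)
  have h12 : c1 ∉ insert c2 s := by
    rw [Finset.mem_insert, not_or]; exact ⟨hne, h1s⟩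
  rcases hrs with rfl | rfl | rfl | rfl
  · exact k00 _ hs hcard
  · rw [Finset.card_insert_of_notMem h1s] at hcard
    exact h10 s hs (by omega)
  · rw [Finset.card_insert_of_notMem h2s] at hcard
    exact k01 s hs (by omega)
  · rw [Finset.card_insert_of_notMem h12, Finset.card_insert_of_notMem h2s] at hcard
    exact h11 s hs (by omega)

theorem R2dn {E : Setoid Pt → ℕ → Prop} (hE : EOk E) (hP : Pat W x S c1 c2) {h : ℕ}
    (H : Ex (shE E) (W ⊔ s1 (x c1) ⊔ s0 (x c2)) x S h) :
    Ex E W x (insert c1 (insert c2 S)) (h + 1) := by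
  intro f hf
  have hne : c1 ≠ c2 := hP.ne
  -- the projection is a cocycle of the small system
  obtain ⟨g', hg'⟩ := H (fun s => f (insert c1 s) +
      kap (U W x (insert c1 (insert c2 S)) s) (x c1) * vv (lp W (x c1)) (f (insert c2 s))) (by
    intro r hr hcard
    have h1r : c1 ∉ r := fun h => hP.h1 (hr h)
    have h2r : c2 ∉ r := fun h => hP.h2 (hr h)
    have hf1 := hf (insert c1 r) (ins_sub r hr c1 c2).2.1
      (by rw [Finset.card_insert_of_notMem h1r, hcard])
    have hf2 := hf (insert c2 r) (ins_sub r hr c1 c2).2.2.1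
      (by rw [Finset.card_insert_of_notMem h2r, hcard])
    have hf3 := piJ hE hP hr hf2
    have hpi := I_le_J (E := E) (k := h + 1 + 1) (pi_bd hP f hr)
    have hV : J (shE E) (U (W ⊔ s1 (x c1) ⊔ s0 (x c2)) x S r) (h + 1) =
        J E (U W x (insert c1 (insert c2 S)) (insert c1 r)) (h + 1 + 1) := by
      rw [hP.V10 hr]; rfl
    rw [hV]
    exact (Submodule.add_mem_iff_right _ (Submodule.add_mem _ hf1 hf3)).1 hpi)
  -- first correction
  obtain ⟨g1, hg1⟩ : ∃ g1 : Finset ι → Rg Pt, g1 = fun s =>
    if c1 ∈ s then (if c2 ∈ s then 0 else g' (s.erase c1)) else 0 := ⟨_, rfl⟩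
  have g10 : ∀ s, s ⊆ S → g1 (insert c1 s) = g' s := by
    intro s hs
    have h1 : c1 ∉ s := fun h => hP.h1 (hs h)
    have h2 : c2 ∉ s := fun h => hP.h2 (hs h)
    have h2' : c2 ∉ insert c1 s := by
      rw [Finset.mem_insert, not_or]; exact ⟨hne.symm, h2⟩
    rw [hg1]
    simp only [if_pos (Finset.mem_insert_self c1 s), if_neg h2', Finset.erase_insert h1]
  have g01 : ∀ s, s ⊆ S → g1 (insert c2 s) = 0 := by
    intro s hs
    have h1 : c1 ∉ s := fun h => hP.h1 (hs h)
    have h1' : c1 ∉ insert c2 s := by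
      rw [Finset.mem_insert, not_or]; exact ⟨hne, h1⟩
    rw [hg1]
    simp only [if_neg h1']
  obtain ⟨f1, hf1⟩ : ∃ f1 : Finset ι → Rg Pt, f1 = fun s =>
    f s + bd W x (insert c1 (insert c2 S)) g1 s := ⟨_, rfl⟩
  have c1c := coc_add hP.leg g1 hf
  rw [← hf1] at c1c
  have p1 : ∀ r, r ⊆ S → r.card = h → f1 (insert c1 r) +
      kap (U W x (insert c1 (insert c2 S)) r) (x c1) * vv (lp W (x c1)) (f1 (insert c2 r)) ∈
      J E (U W x (insert c1 (insert c2 S)) (insert c1 r)) (h + 1) := by
    intro r hr hcard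
    have hpi := I_le_J (E := E) (k := h + 1) (pi_bd hP g1 hr)
    have hV : J (shE E) (U (W ⊔ s1 (x c1) ⊔ s0 (x c2)) x S r) h =
        J E (U W x (insert c1 (insert c2 S)) (insert c1 r)) (h + 1) := by
      rw [hP.V10 hr]; rfl
    have hg2 := hg' r hr hcard
    rw [hV] at hg2
    have hcg : bd (W ⊔ s1 (x c1) ⊔ s0 (x c2)) x S (fun s => g1 (insert c1 s) +
          kap (U W x (insert c1 (insert c2 S)) s) (x c1) * vv (lp W (x c1)) (g1 (insert c2 s))) r =
        bd (W ⊔ s1 (x c1) ⊔ s0 (x c2)) x S g' r := by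
      apply bd_congr
      intro c hc
      have hs' : r.erase c ⊆ S := (Finset.erase_subset _ _).trans hr
      simp only [g10 _ hs', g01 _ hs', vv_zero, mul_zero, add_zero]
    rw [hcg] at hpi
    have h3 := Submodule.add_mem _ hg2 hpi
    rw [hf1]
    simp only [vv_add]
    have e : ∀ a b c d k e : Rg Pt, (a + k * (b)) + e + ((c + k * d) + e) =
        (a + c) + k * (b + d) := by
      intro a b c d k e
      linear_combination e * (two0 : (2 : Rg Pt) = 0)
    rw [e] at h3
    exact h3
  -- second correction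
  obtain ⟨g2, hg2⟩ : ∃ g2 : Finset ι → Rg Pt, g2 = fun s =>
    if c1 ∈ s then 0 else (if c2 ∈ s then 0 else vv (lp W (x c1)) (f1 (insert c2 s))) := ⟨_, rfl⟩
  have g2a : ∀ s, s ⊆ S → g2 s = vv (lp W (x c1)) (f1 (insert c2 s)) := by
    intro s hs
    have h1 : c1 ∉ s := fun h => hP.h1 (hs h)
    have h2 : c2 ∉ s := fun h => hP.h2 (hs h)
    rw [hg2]
    simp only [if_neg h1, if_neg h2]
  have g2b : ∀ s, g2 (insert c1 s) = 0 := by
    intro s
    rw [hg2]
    simp only [if_pos (Finset.mem_insert_self c1 s)]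
  have g2c : ∀ s, g2 (insert c2 s) = 0 := by
    intro s
    rw [hg2]
    simp only [if_pos (Finset.mem_insert_self c2 s), ite_self]
  obtain ⟨f2, hf2⟩ : ∃ f2 : Finset ι → Rg Pt, f2 = fun s =>
    f1 s + bd W x (insert c1 (insert c2 S)) g2 s := ⟨_, rfl⟩
  have c2c := coc_add hP.leg g2 c1c
  rw [← hf2] at c2c
  have p2 : ∀ r, r ⊆ S → r.card = h → f2 (insert c1 r) ∈
      J E (U W x (insert c1 (insert c2 S)) (insert c1 r)) (h + 1) := by
    intro r hr hcard
    have h1r : c1 ∉ r := fun h => hP.h1 (hr h)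
    have e : f2 (insert c1 r) = f1 (insert c1 r) +
        kap (U W x (insert c1 (insert c2 S)) r) (x c1) *
          vv (lp W (x c1)) (f1 (insert c2 r)) := by
      rw [hf2]
      simp only [bd_e1 g2 h1r, g2b, mul_zero, Finset.sum_const_zero, add_zero, g2a r hr]
    rw [e]
    exact p1 r hr hcard
  have q2 : ∀ r, r ⊆ S → f2 (insert c2 r) +
      (uu (lp W (x c1)) (f1 (insert c2 r)) + X (x c2 1) * vv (lp W (x c1)) (f1 (insert c2 r))) ∈
      I (U W x (insert c1 (insert c2 S)) (insert c2 r)) := by
    intro r hr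
    have h2r : c2 ∉ r := fun h => hP.h2 (hr h)
    have hL := hP.isLoop hr
    have hXX : (X (x c1 2) + X (x c2 0) : Rg Pt) ∈
        I (U W x (insert c1 (insert c2 S)) (insert c2 r)) := by
      apply mem_I
      exact (hL _).1 (Or.inr hP.b)
    have e : f2 (insert c2 r) = f1 (insert c2 r) +
        (X (x c2 0) + X (x c2 1)) * vv (lp W (x c1)) (f1 (insert c2 r)) := by
      rw [hf2]
      simp only [bd_e1 g2 h2r, g2c, mul_zero, Finset.sum_const_zero, add_zero, g2a r hr,
        hP.kap2 hr]
    rw [e]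
    have h3 := Submodule.add_mem _ (split_mem hL (f1 (insert c2 r)))
      (Ideal.mul_mem_left _ (vv (lp W (x c1)) (f1 (insert c2 r))) hXX)
    have e2 : f1 (insert c2 r) +
        (X (x c2 0) + X (x c2 1)) * vv (lp W (x c1)) (f1 (insert c2 r)) +
        (uu (lp W (x c1)) (f1 (insert c2 r)) +
          X (x c2 1) * vv (lp W (x c1)) (f1 (insert c2 r))) =
        f1 (insert c2 r) + (uu (lp W (x c1)) (f1 (insert c2 r)) +
          X (x c1 2) * vv (lp W (x c1)) (f1 (insert c2 r))) +
        vv (lp W (x c1)) (f1 (insert c2 r)) * (X (x c1 2) + X (x c2 0)) := by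
      linear_combination ((X (x c2 1) - X (x c1 2)) * vv (lp W (x c1)) (f1 (insert c2 r))) *
        (two0 : (2 : Rg Pt) = 0)
    rw [e2]
    exact h3
  -- third correction
  obtain ⟨g3, hg3⟩ : ∃ g3 : Finset ι → Rg Pt, g3 = fun s =>
    if c1 ∈ s then 0 else
      (if c2 ∈ s then rho (lp W (x c1)) (x c1 0) (f2 (insert c1 s)) else 0) := ⟨_, rfl⟩
  have g3a : ∀ s, s ⊆ S → g3 s = 0 := by
    intro s hs
    have h1 : c1 ∉ s := fun h => hP.h1 (hs h)
    have h2 : c2 ∉ s := fun h => hP.h2 (hs h)
    rw [hg3]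
    simp only [if_neg h1, if_neg h2]
  have g3b : ∀ s, g3 (insert c1 s) = 0 := by
    intro s
    rw [hg3]
    simp only [if_pos (Finset.mem_insert_self c1 s)]
  have g3c : ∀ s, s ⊆ S → g3 (insert c2 s) =
      rho (lp W (x c1)) (x c1 0) (f2 (insert c1 (insert c2 s))) := by
    intro s hs
    have h1 : c1 ∉ s := fun h => hP.h1 (hs h)
    have h1' : c1 ∉ insert c2 s := by
      rw [Finset.mem_insert, not_or]; exact ⟨hne, h1⟩
    rw [hg3]
    simp only [if_neg h1', if_pos (Finset.mem_insert_self c2 s)]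
  obtain ⟨f3, hf3⟩ : ∃ f3 : Finset ι → Rg Pt, f3 = fun s =>
    f2 s + bd W x (insert c1 (insert c2 S)) g3 s := ⟨_, rfl⟩
  have c3c := coc_add hP.leg g3 c2c
  rw [← hf3] at c3c
  have fin := last hE hP (h := h) (f := f3)
    (m := fun r => (uu (lp W (x c1)) (f1 (insert c2 r)) +
      X (x c2 1) * vv (lp W (x c1)) (f1 (insert c2 r))) +
      ∑ c' ∈ r, kap (U W x (insert c1 (insert c2 S)) (insert c2 (r.erase c'))) (x c') *
        g3 (insert c2 (r.erase c'))) c3c ?_ ?_ ?_ ?_
  · refine ⟨fun s => g1 s + (g2 s + g3 s), ?_⟩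
    intro r hr hcard
    have h4 := fin r hr hcard
    rw [hf3, hf2, hf1] at h4
    rw [bd_add, bd_add]
    simpa only [add_assoc] using h4
  · intro r hr hcard
    have h1r : c1 ∉ r := fun h => hP.h1 (hr h)
    have e : f3 (insert c1 r) = f2 (insert c1 r) := by
      rw [hf3]
      simp only [bd_e1 g3 h1r, g3b, mul_zero, Finset.sum_const_zero, add_zero, g3a r hr]
    rw [e]
    exact p2 r hr hcard
  · intro r hr _
    have h1r : c1 ∉ r := fun h => hP.h1 (hr h)
    have h2r : c2 ∉ r := fun h => hP.h2 (hr h)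
    have e : f3 (insert c1 (insert c2 r)) = f2 (insert c1 (insert c2 r)) +
        rho (lp W (x c1)) (x c1 0) (f2 (insert c1 (insert c2 r))) := by
      rw [hf3]
      simp only [bd_e2 g3 hne h1r h2r, g3b, mul_zero, Finset.sum_const_zero, add_zero,
        g3c r hr, hP.kap1 hr, one_mul]
    rw [e]
    apply I_le_J
    rw [hP.V11 hr, add_comm]
    exact rho_mem (hP.isLoop hr) hP.out1.1 _
  · intro r hr _
    have h2r : c2 ∉ r := fun h => hP.h2 (hr h)
    have e : f3 (insert c2 r) = f2 (insert c2 r) +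
        ∑ c' ∈ r, kap (U W x (insert c1 (insert c2 S)) (insert c2 (r.erase c'))) (x c') *
        g3 (insert c2 (r.erase c')) := by
      rw [hf3]
      simp only [bd_e1 g3 h2r, g3a r hr, mul_zero, zero_add]
    rw [e]
    have e2 : ∀ a b s : Rg Pt, a + s + (b + s) = a + b := by
      intro a b s
      linear_combination s * (two0 : (2 : Rg Pt) = 0)
    rw [e2]
    exact q2 r hr
  · intro r hr _
    rw [uu_add, uu_add, uu_uu, uu_mul, uu_X hP.out2.1, uu_vv, uu_sum]
    congr 1
    apply Finset.sum_congr rfl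
    intro c hc
    have hs' : r.erase c ⊆ S := (Finset.erase_subset _ _).trans hr
    rw [uu_mul, (hP.kapS hs' (hr hc)).2.2, g3c _ hs', uu_rho hP.out1.1]

end Pool.HPS
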