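import Pool.Agent.HPS.R2A
import Pool.Agent.HPS.Dd

/-!
# Module HPS-R2C: second Reidemeister move, from the big system to the small one, and for coboundaries
(imports R2A, Loop, Dd; use them; write `S'` for `insert c1 (insert c2 S)` and `L = lp W (x c1)`; `V00 = U W x S' r`,
`V01 = U W x S' (insert c2 r)`, `V10`, `V11` similarly, `k1 r := kap V00 (x c1)`, `k2 r := kap V10 (x c2)`)

PLAN.
* The chain map `π` (big → small): `π f r := f (insert c1 r) + k1 r * vv L (f (insert c2 r))`, `r ⊆ S`.  `pi_bd`: for every cochain `g` of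
  the big system and `r ⊆ S`: `π (d g) r + d (π g) r ∈ I V10` (`d = bd`).  Proof: expand `bd W x S' g` at `insert c1 r` (terms `c ∈ r`, and `c1`)
  and at `insert c2 r` (terms `c ∈ r`, and `c2`: `(X (x c2 0) + X (x c2 1)) * g r`, `kap2`).  Let `g r ≡ rho L (x c2 1) (g r) =: n` mod `I V00`
  (`rho_mem`); then `vv L ((X (x c2 0) + X (x c2 1)) * n) = n` (`vv_mul`, `x c2 0 ∈ L`, `x c2 1 ∉ L`), and `k1 r * g r + k1 r * n ∈ I V10`
  (`kap_JU` for `E = tt`).  The difference `(X_(c2 0) + X_(c2 1)) (g r + n) ∈ I V01`, so its `vv` is in `I V01 ≤ I V00` and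
  multiplied by `k1 r` lands in `I V10`.  The other terms: `k1 r κ_c + k1 (r.erase c) κ_c' ∈ I V10` by `face_U` where `κ_c` = saddle coefficient of `c`
  at 01 = at 00 (`kapS`), `κ_c'` that at 10; `vv L (κ_c * b) = κ_c * vv L b` (`kapS`).
* `R2nb`: apply `π` to a primitive `g` of the cochain concentrated at `insert c1 r0`: `π` of that cochain is concentrated at `r0` with the
  same value (`t`), `π` maps `J` to `J` (`vv_mem`, `kap_JU`, `Pat.E`), and `pi_bd`.
* `R2up`: `f` a cocycle of the small system in degree `h`.  Lift it: `F s := f s'` at `s = insert c1 s'` (10), `F s := rho L (x c1 0) (k2 s' * f s')` at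
  `s = insert c2 s'` (01), `0` at 00 and 11.  `F` is a cocycle of the big system in degree `h + 1`: at 10: the cocycle condition of `f`;
  at 11: `k2 f + 1 * rho(k2 f) ∈ I V11` (`rho_mem`); at 01: `∑ κ_c rho (k2 f(r.erase c))`: it has no loop points and is `≡ ∑ κ_c k2 f ≡ k2 ∑ κ_c' f ≡ 0`
  modulo `J V11` (`face_U`), so it is in `J V01` by `nl_mem`; at 00: nothing (no incoming terms).  `H` gives a primitive `g`; `π g` is a primitive
  of `π F ≡ f` (`vv L (rho ..) = 0`).
-/

set_option autoImplicit false

open Finset MvPolynomial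

namespace Pool.HPS

variable {Pt ι : Type} [DecidableEq ι] {W : Setoid Pt} {x : ι → Fin 4 → Pt} {S : Finset ι}
  {c1 c2 : ι}

private theorem two0 : (2 : Rg Pt) = 0 := CharTwo.two_eq_zero

/-- The coboundary at a state with one more crossing. -/
private theorem bd_e1 {T : Finset ι} (g : Finset ι → Rg Pt) {r : Finset ι} {c : ι} (hc : c ∉ r) :
    bd W x T g (insert c r) = kap (U W x T r) (x c) * g r +
      ∑ c' ∈ r, kap (U W x T (insert c (r.erase c'))) (x c') * g (insert c (r.erase c')) := by
  rw [bd, Finset.sum_insert hc, Finset.erase_insert hc]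
  congr 1
  apply Finset.sum_congr rfl
  intro c' hc'
  have hne : c ≠ c' := fun h => hc (h ▸ hc')
  rw [Finset.erase_insert_of_ne hne]

/-- The coboundary at a state with two more crossings. -/
private theorem bd_e2 {T : Finset ι} (g : Finset ι → Rg Pt) {r : Finset ι} {c d : ι}
    (hcd : c ≠ d) (hc : c ∉ r) (hd : d ∉ r) :
    bd W x T g (insert c (insert d r)) =
      kap (U W x T (insert d r)) (x c) * g (insert d r) +
      (kap (U W x T (insert c r)) (x d) * g (insert c r) +
      ∑ c' ∈ r, kap (U W x T (insert c (insert d (r.erase c')))) (x c') *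
        g (insert c (insert d (r.erase c')))) := by
  have hc' : c ∉ insert d r := by
    rw [Finset.mem_insert, not_or]; exact ⟨hcd, hc⟩
  rw [bd_e1 g hc', Finset.sum_insert hd, Finset.erase_insert hd]
  congr 2
  apply Finset.sum_congr rfl
  intro c' hc'
  have hne : d ≠ c' := fun h => hd (h ▸ hc')
  rw [Finset.erase_insert_of_ne hne]

private theorem ins_sub (r : Finset ι) (hr : r ⊆ S) (c1 c2 : ι) :
    r ⊆ insert c1 (insert c2 S) ∧ insert c1 r ⊆ insert c1 (insert c2 S) ∧
    insert c2 r ⊆ insert c1 (insert c2 S) ∧
    insert c1 (insert c2 r) ⊆ insert c1 (insert c2 S) := by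
  refine ⟨fun y hy => ?_, fun y hy => ?_, fun y hy => ?_, fun y hy => ?_⟩
  · exact Finset.mem_insert_of_mem (Finset.mem_insert_of_mem (hr hy))
  · rcases Finset.mem_insert.1 hy with rfl | hy
    · exact Finset.mem_insert_self _ _
    · exact Finset.mem_insert_of_mem (Finset.mem_insert_of_mem (hr hy))
  · rcases Finset.mem_insert.1 hy with rfl | hy
    · exact Finset.mem_insert_of_mem (Finset.mem_insert_self _ _)
    · exact Finset.mem_insert_of_mem (Finset.mem_insert_of_mem (hr hy))
  · exact Finset.insert_subset_insert _ (Finset.insert_subset_insert _ hr) hy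

/-- `vv` of a product with a factor without loop points. -/
private theorem vv_nl {L : Set Pt} {f g : Rg Pt} (hf : uu L f = f) :
    vv L (f * g) = f * vv L g := by
  rw [vv_mul, hf, vv_of_nl hf, zero_mul, add_zero]

/-- `K(r) * g + K(r) * vv ((X + X) * g) ∈ I V10`. -/
private theorem key0 (hP : Pat W x S c1 c2) (f : Rg Pt) {r : Finset ι} (hr : r ⊆ S) :
    kap (U W x (insert c1 (insert c2 S)) r) (x c1) *
      (f + vv (lp W (x c1)) ((X (x c2 0) + X (x c2 1)) * f))
      ∈ I (U W x (insert c1 (insert c2 S)) (insert c1 r)) := by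
  have h1r : c1 ∉ r := fun h => hP.h1 (hr h)
  have h2r : c2 ∉ r := fun h => hP.h2 (hr h)
  have hm0 : x c2 0 ∈ lp W (x c1) := Or.inr hP.b
  have hm1 : x c2 1 ∉ lp W (x c1) := hP.out2.1
  have hvv : vv (lp W (x c1)) ((X (x c2 0) + X (x c2 1)) * f) =
      X (x c2 1) * vv (lp W (x c1)) f + uu (lp W (x c1)) f := by
    rw [vv_mul, uu_add, vv_add, uu_X_mem hm0, uu_X hm1, vv_X_mem hm0, vv_of_nl (uu_X hm1)]
    ring
  have hsp := split_mem (hP.isLoop hr) f
  have hle : I (U W x (insert c1 (insert c2 S)) (insert c2 r)) ≤
      I (U W x (insert c1 (insert c2 S)) r) := by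
    apply I_mono
    rw [hP.V00 hr]
    exact le_sup_left
  have hsp' := hle hsp
  have hXX : (X (x c1 2) + X (x c2 1) : Rg Pt) ∈ I (U W x (insert c1 (insert c2 S)) r) := by
    apply mem_I
    rw [hP.V00 hr]
    exact (le_sup_right : pr (x c1 2) (x c2 1) ≤ _) (pr_rel _ _)
  have hmem : f + vv (lp W (x c1)) ((X (x c2 0) + X (x c2 1)) * f) ∈
      I (U W x (insert c1 (insert c2 S)) r) := by
    rw [hvv]
    have h3 := Ideal.add_mem _ hsp' (Ideal.mul_mem_left _ (vv (lp W (x c1)) f) hXX)
    have e : f + (X (x c2 1) * vv (lp W (x c1)) f + uu (lp W (x c1)) f) =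
        (f + (uu (lp W (x c1)) f + X (x c1 2) * vv (lp W (x c1)) f)) +
          vv (lp W (x c1)) f * (X (x c1 2) + X (x c2 1)) := by
      linear_combination (- X (x c1 2) * vv (lp W (x c1)) f) * (two0 : (2 : Rg Pt) = 0)
    rw [e]
    exact h3
  have hk := kap_JU (E := tt) EOk_tt hP.leg (r := insert c1 r) (c := c1) (k := 0)
    (f := f + vv (lp W (x c1)) ((X (x c2 0) + X (x c2 1)) * f))
    (ins_sub r hr c1 c2).2.1 (Finset.mem_insert_self _ _)
  rw [Finset.erase_insert h1r] at hk
  have h4 := hk (I_le_J hmem)
  rwa [J_of (show tt _ _ from trivial)] at h4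

theorem pi_bd (hP : Pat W x S c1 c2) (g : Finset ι → Rg Pt) {r : Finset ι} (hr : r ⊆ S) :
    (bd W x (insert c1 (insert c2 S)) g (insert c1 r) +
        kap (U W x (insert c1 (insert c2 S)) r) (x c1) *
          vv (lp W (x c1)) (bd W x (insert c1 (insert c2 S)) g (insert c2 r))) +
      bd (W ⊔ s1 (x c1) ⊔ s0 (x c2)) x S
        (fun s => g (insert c1 s) +
          kap (U W x (insert c1 (insert c2 S)) s) (x c1) * vv (lp W (x c1)) (g (insert c2 s))) r
      ∈ I (U W x (insert c1 (insert c2 S)) (insert c1 r)) := by
  have h1r : c1 ∉ r := fun h => hP.h1 (hr h)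
  have h2r : c2 ∉ r := fun h => hP.h2 (hr h)
  rw [bd_e1 g h1r, bd_e1 g h2r, vv_add, vv_sum, hP.kap2 hr]
  have hs : ∑ i ∈ r, vv (lp W (x c1))
      (kap (U W x (insert c1 (insert c2 S)) (insert c2 (r.erase i))) (x i) *
        g (insert c2 (r.erase i))) =
      ∑ i ∈ r, kap (U W x (insert c1 (insert c2 S)) (insert c2 (r.erase i))) (x i) *
        vv (lp W (x c1)) (g (insert c2 (r.erase i))) := by
    apply Finset.sum_congr rfl
    intro c hc
    exact vv_nl (hP.kapS ((Finset.erase_subset _ _).trans hr) (hr hc)).2.2
  rw [hs]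
  have hb : bd (W ⊔ s1 (x c1) ⊔ s0 (x c2)) x S
        (fun s => g (insert c1 s) +
          kap (U W x (insert c1 (insert c2 S)) s) (x c1) * vv (lp W (x c1)) (g (insert c2 s))) r =
      ∑ i ∈ r, kap (U W x (insert c1 (insert c2 S)) (insert c1 (r.erase i))) (x i) *
        (g (insert c1 (r.erase i)) + kap (U W x (insert c1 (insert c2 S)) (r.erase i)) (x c1) *
          vv (lp W (x c1)) (g (insert c2 (r.erase i)))) := by
    rw [bd]
    apply Finset.sum_congr rfl
    intro c hc
    rw [hP.V10 ((Finset.erase_subset _ _).trans hr)]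
  rw [hb]
  have hk := key0 hP (g r) hr
  have hf : ∑ i ∈ r, (kap (U W x (insert c1 (insert c2 S)) r) (x c1) *
        kap (U W x (insert c1 (insert c2 S)) (insert c2 (r.erase i))) (x i) +
        kap (U W x (insert c1 (insert c2 S)) (insert c1 (r.erase i))) (x i) *
        kap (U W x (insert c1 (insert c2 S)) (r.erase i)) (x c1)) *
        vv (lp W (x c1)) (g (insert c2 (r.erase i))) ∈
      I (U W x (insert c1 (insert c2 S)) (insert c1 r)) := by
    apply Ideal.sum_mem
    intro c hc
    apply Ideal.mul_mem_right
    have hne : c1 ≠ c := fun h => h1r (h ▸ hc)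
    have h5 := face_U hP.leg (r := insert c1 r) (ins_sub r hr c1 c2).2.1 (c := c1) (c' := c)
      (Finset.mem_insert_self _ _) (Finset.mem_insert_of_mem hc) hne
    rw [Finset.erase_insert h1r, Finset.erase_insert_of_ne hne,
      Finset.erase_insert (fun h => h1r (Finset.mem_of_mem_erase h)),
      (hP.kapS ((Finset.erase_subset _ _).trans hr) (hr hc)).1] at h5
    exact h5
  have hsum := Ideal.add_mem _ hk hf
  have e : kap (U W x (insert c1 (insert c2 S)) r) (x c1) * g r +
          ∑ c' ∈ r, kap (U W x (insert c1 (insert c2 S)) (insert c1 (r.erase c'))) (x c') *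
            g (insert c1 (r.erase c')) +
        kap (U W x (insert c1 (insert c2 S)) r) (x c1) *
          (vv (lp W (x c1)) ((X (x c2 0) + X (x c2 1)) * g r) +
            ∑ i ∈ r, kap (U W x (insert c1 (insert c2 S)) (insert c2 (r.erase i))) (x i) *
              vv (lp W (x c1)) (g (insert c2 (r.erase i)))) +
      ∑ i ∈ r, kap (U W x (insert c1 (insert c2 S)) (insert c1 (r.erase i))) (x i) *
        (g (insert c1 (r.erase i)) + kap (U W x (insert c1 (insert c2 S)) (r.erase i)) (x c1) *
          vv (lp W (x c1)) (g (insert c2 (r.erase i)))) =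
      kap (U W x (insert c1 (insert c2 S)) r) (x c1) *
      (g r + vv (lp W (x c1)) ((X (x c2 0) + X (x c2 1)) * g r)) +
      ∑ i ∈ r, (kap (U W x (insert c1 (insert c2 S)) r) (x c1) *
        kap (U W x (insert c1 (insert c2 S)) (insert c2 (r.erase i))) (x i) +
        kap (U W x (insert c1 (insert c2 S)) (insert c1 (r.erase i))) (x i) *
        kap (U W x (insert c1 (insert c2 S)) (r.erase i)) (x c1)) *
        vv (lp W (x c1)) (g (insert c2 (r.erase i))) := by
    have e1 : ∑ i ∈ r, kap (U W x (insert c1 (insert c2 S)) (insert c1 (r.erase i))) (x i) *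
        (g (insert c1 (r.erase i)) + kap (U W x (insert c1 (insert c2 S)) (r.erase i)) (x c1) *
          vv (lp W (x c1)) (g (insert c2 (r.erase i)))) =
        ∑ i ∈ r, kap (U W x (insert c1 (insert c2 S)) (insert c1 (r.erase i))) (x i) *
          g (insert c1 (r.erase i)) +
        ∑ i ∈ r, kap (U W x (insert c1 (insert c2 S)) (insert c1 (r.erase i))) (x i) *
          kap (U W x (insert c1 (insert c2 S)) (r.erase i)) (x c1) *
          vv (lp W (x c1)) (g (insert c2 (r.erase i))) := by
      rw [← Finset.sum_add_distrib]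
      apply Finset.sum_congr rfl
      intro c hc
      ring
    have e2 : ∑ i ∈ r, (kap (U W x (insert c1 (insert c2 S)) r) (x c1) *
        kap (U W x (insert c1 (insert c2 S)) (insert c2 (r.erase i))) (x i) +
        kap (U W x (insert c1 (insert c2 S)) (insert c1 (r.erase i))) (x i) *
        kap (U W x (insert c1 (insert c2 S)) (r.erase i)) (x c1)) *
        vv (lp W (x c1)) (g (insert c2 (r.erase i))) =
        kap (U W x (insert c1 (insert c2 S)) r) (x c1) *
          ∑ i ∈ r, kap (U W x (insert c1 (insert c2 S)) (insert c2 (r.erase i))) (x i) *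
              vv (lp W (x c1)) (g (insert c2 (r.erase i))) +
        ∑ i ∈ r, kap (U W x (insert c1 (insert c2 S)) (insert c1 (r.erase i))) (x i) *
          kap (U W x (insert c1 (insert c2 S)) (r.erase i)) (x c1) *
          vv (lp W (x c1)) (g (insert c2 (r.erase i))) := by
      rw [Finset.mul_sum, ← Finset.sum_add_distrib]
      apply Finset.sum_congr rfl
      intro c hc
      ring
    rw [e1, e2]
    linear_combination (∑ i ∈ r, kap (U W x (insert c1 (insert c2 S)) (insert c1 (r.erase i)))
      (x i) * g (insert c1 (r.erase i))) * (two0 : (2 : Rg Pt) = 0)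
  rw [e]
  exact hsum

/-- `π` maps `J` to `J`. -/
private theorem piJ {E : Setoid Pt → ℕ → Prop} (hE : EOk E) (hP : Pat W x S c1 c2)
    {r : Finset ι} (hr : r ⊆ S) {k : ℕ} {f : Rg Pt}
    (hf : f ∈ J E (U W x (insert c1 (insert c2 S)) (insert c2 r)) (k + 1)) :
    kap (U W x (insert c1 (insert c2 S)) r) (x c1) * vv (lp W (x c1)) f ∈
      J E (U W x (insert c1 (insert c2 S)) (insert c1 r)) (k + 1) := by
  have h1r : c1 ∉ r := fun h => hP.h1 (hr h)
  have hk := kap_JU hE hP.leg (r := insert c1 r) (c := c1) (k := k)
    (f := vv (lp W (x c1)) f)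
    (ins_sub r hr c1 c2).2.1 (Finset.mem_insert_self _ _)
  rw [Finset.erase_insert h1r] at hk
  apply hk
  by_cases h0 : E (U W x (insert c1 (insert c2 S)) r) k
  · have h01 := ((hP.E hE hr k).1).1 h0
    rw [J_of h01] at hf
    rw [J_of h0]
    have hle : I (U W x (insert c1 (insert c2 S)) (insert c2 r)) ≤
        I (U W x (insert c1 (insert c2 S)) r) := by
      apply I_mono
      rw [hP.V00 hr]
      exact le_sup_left
    exact hle (vv_mem (hP.isLoop hr) hf)
  · rw [J_not h0]
    exact Submodule.mem_top

theorem R2up {E : Setoid Pt → ℕ → Prop} (hE : EOk E) (hP : Pat W x S c1 c2) {h : ℕ}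
    (H : Ex E W x (insert c1 (insert c2 S)) (h + 1)) :
    Ex (shE E) (W ⊔ s1 (x c1) ⊔ s0 (x c2)) x S h := by
  intro f hf
  have hne : c1 ≠ c2 := hP.ne
  obtain ⟨F, hF⟩ : ∃ F : Finset ι → Rg Pt, F = fun s =>
    if c1 ∈ s then (if c2 ∈ s then 0 else f (s.erase c1))
    else (if c2 ∈ s then rho (lp W (x c1)) (x c1 0)
      (kap (U W x (insert c1 (insert c2 S)) (insert c1 (s.erase c2))) (x c2) * f (s.erase c2))
      else 0) := ⟨_, rfl⟩
  have F00 : ∀ s, s ⊆ S → F s = 0 := by
    intro s hs
    have h1 : c1 ∉ s := fun h => hP.h1 (hs h)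
    have h2 : c2 ∉ s := fun h => hP.h2 (hs h)
    rw [hF]
    simp only [if_neg h1, if_neg h2]
  have F10 : ∀ s, s ⊆ S → F (insert c1 s) = f s := by
    intro s hs
    have h1 : c1 ∉ s := fun h => hP.h1 (hs h)
    have h2 : c2 ∉ s := fun h => hP.h2 (hs h)
    have h2' : c2 ∉ insert c1 s := by
      rw [Finset.mem_insert, not_or]; exact ⟨hne.symm, h2⟩
    rw [hF]
    simp only [if_pos (Finset.mem_insert_self c1 s), if_neg h2', Finset.erase_insert h1]
  have F01 : ∀ s, s ⊆ S → F (insert c2 s) = rho (lp W (x c1)) (x c1 0)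
      (kap (U W x (insert c1 (insert c2 S)) (insert c1 s)) (x c2) * f s) := by
    intro s hs
    have h1 : c1 ∉ s := fun h => hP.h1 (hs h)
    have h2 : c2 ∉ s := fun h => hP.h2 (hs h)
    have h1' : c1 ∉ insert c2 s := by
      rw [Finset.mem_insert, not_or]; exact ⟨hne, h1⟩
    rw [hF]
    simp only [if_neg h1', if_pos (Finset.mem_insert_self c2 s), Finset.erase_insert h2]
  have F11 : ∀ s, s ⊆ S → F (insert c1 (insert c2 s)) = 0 := by
    intro s hs
    rw [hF]
    simp only [if_pos (Finset.mem_insert_self c1 (insert c2 s)),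
      if_pos (Finset.mem_insert_of_mem (Finset.mem_insert_self c2 s))]
  have hbf : ∀ r, r ⊆ S → bd (W ⊔ s1 (x c1) ⊔ s0 (x c2)) x S f r =
      ∑ i ∈ r, kap (U W x (insert c1 (insert c2 S)) (insert c1 (r.erase i))) (x i) *
        f (r.erase i) := by
    intro r hr
    rw [bd]
    apply Finset.sum_congr rfl
    intro c hc
    rw [hP.V10 ((Finset.erase_subset _ _).trans hr)]
  have hcoc : ∀ r, r ⊆ insert c1 (insert c2 S) → r.card = h + 1 + 1 →
      bd W x (insert c1 (insert c2 S)) F r ∈
        J E (U W x (insert c1 (insert c2 S)) r) (h + 1 + 1) := by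
    intro r hr hcard
    by_cases h1 : c1 ∈ r
    · by_cases h2 : c2 ∈ r
      · -- 11
        obtain ⟨s, hs, h1s, h2s, rfl⟩ : ∃ s, s ⊆ S ∧ c1 ∉ s ∧ c2 ∉ s ∧
            r = insert c1 (insert c2 s) := by
          refine ⟨(r.erase c1).erase c2, ?_, ?_, ?_, ?_⟩
          · intro y hy
            rw [Finset.mem_erase, Finset.mem_erase] at hy
            have := hr hy.2.2
            rw [Finset.mem_insert, Finset.mem_insert] at this
            rcases this with h | h | h
            · exact absurd h hy.2.1
            · exact absurd h hy.1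
            · exact h
          · intro h; rw [Finset.mem_erase, Finset.mem_erase] at h; exact h.2.1 rfl
          · intro h; rw [Finset.mem_erase, Finset.mem_erase] at h; exact h.1 rfl
          · rw [Finset.insert_erase (Finset.mem_erase.2 ⟨hne.symm, h2⟩), Finset.insert_erase h1]
        rw [bd_e2 F hne h1s h2s, F01 s hs, F10 s hs, hP.kap1 hs, one_mul]
        have hz : ∑ c' ∈ s, kap (U W x (insert c1 (insert c2 S))
            (insert c1 (insert c2 (s.erase c')))) (x c') *
            F (insert c1 (insert c2 (s.erase c'))) = 0 := by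
          apply Finset.sum_eq_zero
          intro c hc
          rw [F11 _ ((Finset.erase_subset _ _).trans hs), mul_zero]
        rw [hz, add_zero]
        apply I_le_J
        rw [hP.V11 hs]
        exact rho_mem (hP.isLoop hs) hP.out1.1 _
      · -- 10
        obtain ⟨s, hs, h1s, h2s, rfl⟩ : ∃ s, s ⊆ S ∧ c1 ∉ s ∧ c2 ∉ s ∧
            r = insert c1 s := by
          refine ⟨r.erase c1, ?_, ?_, ?_, ?_⟩
          · intro y hy
            rw [Finset.mem_erase] at hy
            have := hr hy.2
            rw [Finset.mem_insert, Finset.mem_insert] at this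
            rcases this with h | h | h
            · exact absurd h hy.1
            · exact absurd (h ▸ hy.2) h2
            · exact h
          · intro h; rw [Finset.mem_erase] at h; exact h.1 rfl
          · intro h; rw [Finset.mem_erase] at h; exact h2 h.2
          · rw [Finset.insert_erase h1]
        rw [Finset.card_insert_of_notMem h1s] at hcard
        have hcs : s.card = h + 1 := by omega
        rw [bd_e1 F h1s, F00 s hs, mul_zero, zero_add]
        have hz : ∑ c' ∈ s, kap (U W x (insert c1 (insert c2 S))
            (insert c1 (s.erase c'))) (x c') * F (insert c1 (s.erase c')) =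
            bd (W ⊔ s1 (x c1) ⊔ s0 (x c2)) x S f s := by
          rw [hbf s hs]
          apply Finset.sum_congr rfl
          intro c hc
          rw [F10 _ ((Finset.erase_subset _ _).trans hs)]
        rw [hz, hP.V10 hs]
        exact hf s hs hcs
    · by_cases h2 : c2 ∈ r
      · -- 01
        obtain ⟨s, hs, h1s, h2s, rfl⟩ : ∃ s, s ⊆ S ∧ c1 ∉ s ∧ c2 ∉ s ∧
            r = insert c2 s := by
          refine ⟨r.erase c2, ?_, ?_, ?_, ?_⟩
          · intro y hy
            rw [Finset.mem_erase] at hy
            have := hr hy.2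
            rw [Finset.mem_insert, Finset.mem_insert] at this
            rcases this with h | h | h
            · exact absurd (h ▸ hy.2) h1
            · exact absurd h hy.1
            · exact h
          · intro h; rw [Finset.mem_erase] at h; exact h1 h.2
          · intro h; rw [Finset.mem_erase] at h; exact h.1 rfl
          · rw [Finset.insert_erase h2]
        rw [Finset.card_insert_of_notMem h2s] at hcard
        have hcs : s.card = h + 1 := by omega
        rw [bd_e1 F h2s, F00 s hs, mul_zero, zero_add]
        by_cases hE1 : E (U W x (insert c1 (insert c2 S)) (insert c2 s)) (h + 1 + 1)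
        · rw [J_of hE1]
          have hE3 := ((hP.E hE hs (h + 1)).2).2 hE1
          have hnl : uu (lp W (x c1)) (∑ c' ∈ s, kap (U W x (insert c1 (insert c2 S))
            (insert c2 (s.erase c'))) (x c') * F (insert c2 (s.erase c'))) =
            ∑ c' ∈ s, kap (U W x (insert c1 (insert c2 S))
            (insert c2 (s.erase c'))) (x c') * F (insert c2 (s.erase c')) := by
            rw [uu_sum]
            apply Finset.sum_congr rfl
            intro c hc
            have hs' : s.erase c ⊆ S := (Finset.erase_subset _ _).trans hs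
            rw [uu_mul, (hP.kapS hs' (hs hc)).2.2, F01 _ hs', uu_rho hP.out1.1]
          rw [← nl_mem (hP.isLoop hs) hP.out1.1 hnl, ← hP.V11 hs]
          -- the value at 11
          have hr11 := (ins_sub s hs c1 c2).2.2.2
          have he2 : (insert c1 (insert c2 s)).erase c2 = insert c1 s := by
            rw [Finset.erase_insert_of_ne hne, Finset.erase_insert h2s]
          have hA : kap (U W x (insert c1 (insert c2 S)) (insert c1 s)) (x c2) *
              bd (W ⊔ s1 (x c1) ⊔ s0 (x c2)) x S f s ∈
              I (U W x (insert c1 (insert c2 S)) (insert c1 (insert c2 s))) := by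
            have hk := kap_JU hE hP.leg (r := insert c1 (insert c2 s)) (c := c2) (k := h + 1 + 1)
              (f := bd (W ⊔ s1 (x c1) ⊔ s0 (x c2)) x S f s) hr11
              (Finset.mem_insert_of_mem (Finset.mem_insert_self _ _))
            rw [he2] at hk
            have h6 : bd (W ⊔ s1 (x c1) ⊔ s0 (x c2)) x S f s ∈
                J E (U W x (insert c1 (insert c2 S)) (insert c1 s)) (h + 1 + 1) := by
              rw [hP.V10 hs]; exact hf s hs hcs
            have h7 := hk h6
            rwa [J_of hE3] at h7
          have hB : ∑ i ∈ s, (kap (U W x (insert c1 (insert c2 S)) (insert c1 s)) (x c2) *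
              kap (U W x (insert c1 (insert c2 S)) (insert c1 (s.erase i))) (x i) +
              kap (U W x (insert c1 (insert c2 S)) (insert c2 (s.erase i))) (x i) *
              kap (U W x (insert c1 (insert c2 S)) (insert c1 (s.erase i))) (x c2)) *
              f (s.erase i) ∈
              I (U W x (insert c1 (insert c2 S)) (insert c1 (insert c2 s))) := by
            apply Ideal.sum_mem
            intro c hc
            apply Ideal.mul_mem_right
            have hn1 : c1 ≠ c := fun h => h1s (h ▸ hc)
            have hn2 : c2 ≠ c := fun h => h2s (h ▸ hc)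
            have hs' : s.erase c ⊆ S := (Finset.erase_subset _ _).trans hs
            have h5 := face_U hP.leg (r := insert c1 (insert c2 s)) hr11 (c := c2) (c' := c)
              (Finset.mem_insert_of_mem (Finset.mem_insert_self _ _))
              (Finset.mem_insert_of_mem (Finset.mem_insert_of_mem hc)) hn2
            rw [he2, Finset.erase_insert_of_ne hn1, Finset.erase_insert_of_ne hn1,
              Finset.erase_insert_of_ne hn2, Finset.erase_insert_of_ne hne,
              Finset.erase_insert (fun h => h2s (Finset.mem_of_mem_erase h)),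
              (hP.kapS hs' (hs hc)).2.1] at h5
            exact h5
          have hC : ∑ i ∈ s, kap (U W x (insert c1 (insert c2 S)) (insert c2 (s.erase i))) (x i) *
              (F (insert c2 (s.erase i)) +
              kap (U W x (insert c1 (insert c2 S)) (insert c1 (s.erase i))) (x c2) *
                f (s.erase i)) ∈
              I (U W x (insert c1 (insert c2 S)) (insert c1 (insert c2 s))) := by
            apply Ideal.sum_mem
            intro c hc
            apply Ideal.mul_mem_left
            have hs' : s.erase c ⊆ S := (Finset.erase_subset _ _).trans hs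
            rw [F01 _ hs', hP.V11 hs]
            exact rho_mem (hP.isLoop hs) hP.out1.1 _
          have hsum := Ideal.add_mem _ (Ideal.add_mem _ hA hB) hC
          have e : kap (U W x (insert c1 (insert c2 S)) (insert c1 s)) (x c2) *
              bd (W ⊔ s1 (x c1) ⊔ s0 (x c2)) x S f s +
              ∑ i ∈ s, (kap (U W x (insert c1 (insert c2 S)) (insert c1 s)) (x c2) *
              kap (U W x (insert c1 (insert c2 S)) (insert c1 (s.erase i))) (x i) +
              kap (U W x (insert c1 (insert c2 S)) (insert c2 (s.erase i))) (x i) *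
              kap (U W x (insert c1 (insert c2 S)) (insert c1 (s.erase i))) (x c2)) *
              f (s.erase i) +
              ∑ i ∈ s, kap (U W x (insert c1 (insert c2 S)) (insert c2 (s.erase i))) (x i) *
              (F (insert c2 (s.erase i)) +
              kap (U W x (insert c1 (insert c2 S)) (insert c1 (s.erase i))) (x c2) *
                f (s.erase i)) =
              ∑ c' ∈ s, kap (U W x (insert c1 (insert c2 S))
                (insert c2 (s.erase c'))) (x c') * F (insert c2 (s.erase c')) := by
            rw [hbf s hs, Finset.mul_sum, ← Finset.sum_add_distrib, ← Finset.sum_add_distrib]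
            apply Finset.sum_congr rfl
            intro c hc
            linear_combination (kap (U W x (insert c1 (insert c2 S)) (insert c1 s)) (x c2) *
              kap (U W x (insert c1 (insert c2 S)) (insert c1 (s.erase c))) (x c) *
              f (s.erase c) +
              kap (U W x (insert c1 (insert c2 S)) (insert c2 (s.erase c))) (x c) *
              kap (U W x (insert c1 (insert c2 S)) (insert c1 (s.erase c))) (x c2) *
              f (s.erase c)) * (two0 : (2 : Rg Pt) = 0)
          rw [e] at hsum
          exact hsum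
        · rw [J_not hE1]
          exact Submodule.mem_top
      · -- 00
        have hs : r ⊆ S := by
          intro y hy
          have := hr hy
          rw [Finset.mem_insert, Finset.mem_insert] at this
          rcases this with h | h | h
          · exact absurd (h ▸ hy) h1
          · exact absurd (h ▸ hy) h2
          · exact h
        rw [bd]
        have hz : ∑ c ∈ r, kap (U W x (insert c1 (insert c2 S)) (r.erase c)) (x c) *
            F (r.erase c) = 0 := by
          apply Finset.sum_eq_zero
          intro c hc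
          rw [F00 _ ((Finset.erase_subset _ _).trans hs), mul_zero]
        rw [hz]
        exact Submodule.zero_mem _
  obtain ⟨g, hg⟩ := H F hcoc
  refine ⟨fun s => g (insert c1 s) +
          kap (U W x (insert c1 (insert c2 S)) s) (x c1) * vv (lp W (x c1)) (g (insert c2 s)), ?_⟩
  intro r hr hcard
  have h1r : c1 ∉ r := fun h => hP.h1 (hr h)
  have h2r : c2 ∉ r := fun h => hP.h2 (hr h)
  have hg1 := hg (insert c1 r) (ins_sub r hr c1 c2).2.1
    (by rw [Finset.card_insert_of_notMem h1r, hcard])
  have hg2 := hg (insert c2 r) (ins_sub r hr c1 c2).2.2.1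
    (by rw [Finset.card_insert_of_notMem h2r, hcard])
  rw [F10 r hr] at hg1
  rw [F01 r hr] at hg2
  have hg3 := piJ hE hP hr hg2
  rw [vv_add, vv_of_nl (uu_rho hP.out1.1 _), zero_add] at hg3
  have hpi := pi_bd hP g hr
  have hfin := Ideal.add_mem _ (Ideal.add_mem _ hg1 hg3) (I_le_J (E := E) (k := h + 1) hpi)
  have hV : J (shE E) (U (W ⊔ s1 (x c1) ⊔ s0 (x c2)) x S r) h =
      J E (U W x (insert c1 (insert c2 S)) (insert c1 r)) (h + 1) := by
    rw [hP.V10 hr]; rfl
  rw [hV]
  have e : ∀ a b c d : Rg Pt, (a + b + c + (b + c + d)) = a + d := by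
    intro a b c d
    linear_combination (b + c) * (two0 : (2 : Rg Pt) = 0)
  rw [e] at hfin
  exact hfin

theorem R2nb {E : Setoid Pt → ℕ → Prop} (hE : EOk E) (hP : Pat W x S c1 c2) {r0 : Finset ι}
    (hr : r0 ⊆ S) {t : Rg Pt}
    (H : Bd E W x (insert c1 (insert c2 S)) (insert c1 r0) t) :
    Bd (shE E) (W ⊔ s1 (x c1) ⊔ s0 (x c2)) x S r0 t := by
  obtain ⟨g, hg⟩ := H
  have hne : c1 ≠ c2 := hP.ne
  have h10 : c1 ∉ r0 := fun h => hP.h1 (hr h)
  refine ⟨fun s => g (insert c1 s) +
          kap (U W x (insert c1 (insert c2 S)) s) (x c1) * vv (lp W (x c1)) (g (insert c2 s)), ?_⟩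
  intro r hrS hcard
  have h1r : c1 ∉ r := fun h => hP.h1 (hrS h)
  have h2r : c2 ∉ r := fun h => hP.h2 (hrS h)
  have hg1 := hg (insert c1 r) (ins_sub r hrS c1 c2).2.1
    (by rw [Finset.card_insert_of_notMem h1r, Finset.card_insert_of_notMem h10, hcard])
  have hg2 := hg (insert c2 r) (ins_sub r hrS c1 c2).2.2.1
    (by rw [Finset.card_insert_of_notMem h2r, Finset.card_insert_of_notMem h10, hcard])
  rw [Finset.card_insert_of_notMem h10] at hg1 hg2
  have hneq : insert c2 r ≠ insert c1 r0 := by
    intro h
    have : c1 ∈ insert c2 r := by rw [h]; exact Finset.mem_insert_self _ _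
    rw [Finset.mem_insert] at this
    rcases this with h' | h'
    · exact hne h'
    · exact h1r h'
  rw [if_neg hneq, zero_add] at hg2
  have hif : (if insert c1 r = insert c1 r0 then t else 0) = (if r = r0 then t else 0) := by
    by_cases h : r = r0
    · rw [if_pos h, if_pos (by rw [h])]
    · rw [if_neg h, if_neg]
      intro h'
      apply h
      rw [← Finset.erase_insert h1r, h', Finset.erase_insert h10]
  rw [hif] at hg1
  have hg3 := piJ hE hP hrS hg2
  have hpi := pi_bd hP g hrS
  have hfin := Ideal.add_mem _ (Ideal.add_mem _ hg1 hg3) (I_le_J (E := E) (k := r0.card + 1) hpi)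
  have hV : J (shE E) (U (W ⊔ s1 (x c1) ⊔ s0 (x c2)) x S r) r0.card =
      J E (U W x (insert c1 (insert c2 S)) (insert c1 r)) (r0.card + 1) := by
    rw [hP.V10 hrS]; rfl
  rw [hV]
  have e : ∀ a b c d : Rg Pt, (a + b + c + (b + c + d)) = a + d := by
    intro a b c d
    linear_combination (b + c) * (two0 : (2 : Rg Pt) = 0)
  rw [e] at hfin
  exact hfin

end Pool.HPS
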