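import Pool.Agent.HPS.Leg

/-!
# Module HPS-Tr: transport of exactness (imports Leg only if useful)

PLAN.
* `U_comap`: for `ψ : Pt' → Pt` surjective, `U (Setoid.comap ψ W) x' S r = Setoid.comap ψ (U W (fun c k => ψ (x' c k)) S r)`: `≤` by `U ≤ Z` on
  generators; `≥`: if `U W .. (ψ p) (ψ q)` then show the relation `{(u, v) | ∀ p q, ψ p = u → ψ q = v → U' p q}` is (using surjectivity for
  transitivity, and `comap` for reflexivity: `ψ p = ψ q → comap ψ W p q`) an equivalence relation containing `W` and all smoothings.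
* `rename ψ` maps `I (comap ψ V)` onto... we need: `f ∈ I (comap ψ V) ↔ rename ψ f ∈ I V` (→ on generators; ← choose a section `σ` of `ψ`:
  `f + rename σ (rename ψ f) ∈ I (comap ψ V)` by induction on `f`, and `rename σ` maps `I V` into `I (comap ψ V)`).  `kap (comap ψ V) y` is mapped by
  `rename ψ` to `kap V (ψ ∘ y)`.
* `Ex_comap`: given a cocycle `f` downstairs lift it by `rename σ` to a cocycle upstairs, take a primitive `g`, push down by `rename ψ`.
* `Ex_V4`, `Bd_V4`: `U` is unchanged (`V4_s0`, `V4_s1`), `kap (U (r.erase c)) (x c) + kap (U (r.erase c)) (x' c) ∈ I (U r)` for `c ∈ r ⊆ S` (four cases;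
  `U (r.erase c)` contains `x c 0 ~ x c 1`, `x c 2 ~ x c 3` (`U_rel0`), `U r` contains `x c 0 ~ x c 2`, `x c 1 ~ x c 3` (`U_rel1`)), so the two coboundaries agree modulo
  `I (U r) ≤ J`; hence cocycles and primitives are the same.
* `Ex_image`, `Bd_image`: `U W x (S'.image φ) (r'.image φ) = U W (x ∘ φ) S' r'` for `r' ⊆ S'` (injectivity on `S'`); subsets of `S'.image φ` are images of
  subsets; `(r'.image φ).erase (φ c) = (r'.erase c).image φ`; cochains correspond by `f ↦ fun r' => f (r'.image φ)` and back by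
  `g ↦ fun r => g (S'.filter (fun c => φ c ∈ r))`.
-/

set_option autoImplicit false

open Finset MvPolynomial

namespace Pool.HPS

variable {Pt ι : Type} [DecidableEq ι] {W : Setoid Pt} {x : ι → Fin 4 → Pt} {S : Finset ι}

private theorem tr_U_le {V Z : Setoid Pt} {y : ι → Fin 4 → Pt} {T r : Finset ι} (h0 : V ≤ Z)
    (h1 : ∀ c ∈ T, c ∈ r → Z (y c 0) (y c 2) ∧ Z (y c 1) (y c 3))
    (h2 : ∀ c ∈ T, c ∉ r → Z (y c 0) (y c 1) ∧ Z (y c 2) (y c 3)) : U V y T r ≤ Z := by
  rw [U, sup_le_iff]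
  refine ⟨h0, Finset.sup_le ?_⟩
  intro c hc
  by_cases hcr : c ∈ r
  · rw [if_pos hcr, s1_le]; exact h1 c hc hcr
  · rw [if_neg hcr, s0_le]; exact h2 c hc hcr

private theorem tr_U_comap {Pt' : Type} (ψ : Pt' → Pt) (σ : Pt → Pt') (hσ : ∀ p, ψ (σ p) = p)
    (x' : ι → Fin 4 → Pt') (r : Finset ι) :
    U (Setoid.comap ψ W) x' S r = Setoid.comap ψ (U W (fun c k => ψ (x' c k)) S r) := by
  apply le_antisymm
  · apply tr_U_le
    · rw [Setoid.le_def]
      intro p q hpq
      rw [Setoid.comap_rel] at hpq ⊢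
      exact (le_U : W ≤ U W (fun c k => ψ (x' c k)) S r) hpq
    · intro c hc hcr
      simp only [Setoid.comap_rel]
      exact U_rel1 (W := W) (x := fun c k => ψ (x' c k)) hc hcr
    · intro c hc hcr
      simp only [Setoid.comap_rel]
      exact U_rel0 (W := W) (x := fun c k => ψ (x' c k)) hc hcr
  · have hs : ∀ p, U (Setoid.comap ψ W) x' S r (σ (ψ p)) p := by
      intro p
      apply (le_U : Setoid.comap ψ W ≤ U (Setoid.comap ψ W) x' S r)
      rw [Setoid.comap_rel, hσ]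
    have h3 : U W (fun c k => ψ (x' c k)) S r ≤
        Setoid.comap σ (U (Setoid.comap ψ W) x' S r) := by
      apply tr_U_le
      · rw [Setoid.le_def]
        intro p q hpq
        rw [Setoid.comap_rel]
        apply (le_U : Setoid.comap ψ W ≤ U (Setoid.comap ψ W) x' S r)
        rw [Setoid.comap_rel, hσ, hσ]
        exact hpq
      · intro c hc hcr
        simp only [Setoid.comap_rel]
        obtain ⟨ha, hb⟩ := U_rel1 (W := Setoid.comap ψ W) (x := x') hc hcr
        exact ⟨Setoid.trans' _ (hs _) (Setoid.trans' _ ha (Setoid.symm' _ (hs _))),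
          Setoid.trans' _ (hs _) (Setoid.trans' _ hb (Setoid.symm' _ (hs _)))⟩
      · intro c hc hcr
        simp only [Setoid.comap_rel]
        obtain ⟨ha, hb⟩ := U_rel0 (W := Setoid.comap ψ W) (x := x') hc hcr
        exact ⟨Setoid.trans' _ (hs _) (Setoid.trans' _ ha (Setoid.symm' _ (hs _))),
          Setoid.trans' _ (hs _) (Setoid.trans' _ hb (Setoid.symm' _ (hs _)))⟩
    rw [Setoid.le_def]
    intro p q hpq
    rw [Setoid.comap_rel] at hpq
    have h4 := h3 hpq
    rw [Setoid.comap_rel] at h4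
    exact Setoid.trans' _ (Setoid.symm' _ (hs p)) (Setoid.trans' _ h4 (hs q))

private theorem tr_two (A : Type) (f : Rg A) : f + f = 0 := CharTwo.add_self_eq_zero f

private theorem tr_I_map {A B : Type} (α : A → B) (V : Setoid A) (V' : Setoid B)
    (h : ∀ p q, V p q → V' (α p) (α q)) {f : Rg A} (hf : f ∈ I V) : rename α f ∈ I V' := by
  have h1 : I V ≤ Ideal.comap (rename α : Rg A →ₐ[ZMod 2] Rg B) (I V') := by
    rw [I, Ideal.span_le]
    rintro g (⟨p, rfl⟩ | ⟨p, q, hpq, rfl⟩)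
    · rw [SetLike.mem_coe, Ideal.mem_comap, map_pow, rename_X]
      exact Ideal.subset_span (Or.inl ⟨α p, rfl⟩)
    · rw [SetLike.mem_coe, Ideal.mem_comap, map_add, rename_X, rename_X]
      exact Ideal.subset_span (Or.inr ⟨α p, α q, h p q hpq, rfl⟩)
  exact h1 hf

private theorem tr_I_sec {Pt' : Type} (ψ : Pt' → Pt) (σ : Pt → Pt') (hσ : ∀ p, ψ (σ p) = p)
    (V : Setoid Pt) (f : Rg Pt') : f + rename σ (rename ψ f) ∈ I (Setoid.comap ψ V) := by
  induction f using MvPolynomial.induction_on with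
  | C a => rw [rename_C, rename_C, tr_two]; exact Ideal.zero_mem _
  | add p q hp hq =>
    rw [map_add, map_add]
    have h1 : p + q + (rename σ (rename ψ p) + rename σ (rename ψ q)) =
        (p + rename σ (rename ψ p)) + (q + rename σ (rename ψ q)) := by ring
    rw [h1]
    exact Ideal.add_mem _ hp hq
  | mul_X p n hp =>
    rw [map_mul, map_mul, rename_X, rename_X]
    have h2 : (X n + X (σ (ψ n)) : Rg Pt') ∈ I (Setoid.comap ψ V) := by
      refine Ideal.subset_span (Or.inr ⟨n, σ (ψ n), ?_, rfl⟩)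
      rw [Setoid.comap_rel, hσ]
    have h1 : p * X n + rename σ (rename ψ p) * X (σ (ψ n)) =
        (X n) * (p + rename σ (rename ψ p)) +
          rename σ (rename ψ p) * (X n + X (σ (ψ n))) := by
      have h3 := tr_two Pt' (rename σ (rename ψ p) * X n)
      linear_combination -h3
    rw [h1]
    exact Ideal.add_mem _ (Ideal.mul_mem_left _ _ hp) (Ideal.mul_mem_left _ _ h2)

private theorem tr_I_iff {Pt' : Type} (ψ : Pt' → Pt) (σ : Pt → Pt') (hσ : ∀ p, ψ (σ p) = p)
    (V : Setoid Pt) (f : Rg Pt') : f ∈ I (Setoid.comap ψ V) ↔ rename ψ f ∈ I V := by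
  constructor
  · intro hf
    exact tr_I_map ψ _ _ (fun p q h => h) hf
  · intro hf
    have h1 : rename σ (rename ψ f) ∈ I (Setoid.comap ψ V) := by
      apply tr_I_map σ V _ _ hf
      intro p q h
      rw [Setoid.comap_rel, hσ, hσ]
      exact h
    have h3 : f = (f + rename σ (rename ψ f)) + rename σ (rename ψ f) := by
      rw [add_assoc, tr_two, add_zero]
    rw [h3]
    exact Ideal.add_mem _ (tr_I_sec ψ σ hσ V f) h1

private theorem tr_kap_comap {Pt' : Type} (ψ : Pt' → Pt) (V : Setoid Pt) (y : Fin 4 → Pt') :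
    rename ψ (kap (Setoid.comap ψ V) y) = kap V (fun k => ψ (y k)) := by
  unfold kap
  by_cases h : V (ψ (y 0)) (ψ (y 2))
  · have h' : (Setoid.comap ψ V) (y 0) (y 2) := h
    rw [if_pos h', if_pos h, map_add, rename_X, rename_X]
  · have h' : ¬ (Setoid.comap ψ V) (y 0) (y 2) := h
    rw [if_neg h', if_neg h, map_one]

private theorem tr_J_tt (V : Setoid Pt) (k : ℕ) : J tt V k = I V := by
  unfold J
  exact if_pos trivial

private theorem tr_bd_comap {Pt' : Type} (ψ : Pt' → Pt) (σ : Pt → Pt') (hσ : ∀ p, ψ (σ p) = p)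
    (x' : ι → Fin 4 → Pt') (g : Finset ι → Rg Pt') (r : Finset ι) :
    rename ψ (bd (Setoid.comap ψ W) x' S g r) =
      bd W (fun c k => ψ (x' c k)) S (fun r => rename ψ (g r)) r := by
  unfold bd
  rw [map_sum]
  refine Finset.sum_congr rfl fun c _ => ?_
  rw [map_mul, tr_U_comap ψ σ hσ, tr_kap_comap]

theorem Ex_comap {Pt' : Type} (ψ : Pt' → Pt) (hψ : Function.Surjective ψ)
    (x' : ι → Fin 4 → Pt') {h : ℕ} (H : Ex tt (Setoid.comap ψ W) x' S h) :
    Ex tt W (fun c k => ψ (x' c k)) S h := by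
  obtain ⟨σ, hσ⟩ := hψ.hasRightInverse
  have hσ' : ∀ p, ψ (σ p) = p := hσ
  have hren : ∀ f : Rg Pt, rename ψ (rename σ f) = f := by
    intro f
    rw [rename_rename]
    have : ψ ∘ σ = id := funext hσ'
    rw [this, rename_id_apply]
  intro f hf
  obtain ⟨g, hg⟩ := H (fun r => rename σ (f r)) (by
    intro r hr hc
    rw [tr_J_tt, tr_U_comap ψ σ hσ', tr_I_iff ψ σ hσ', tr_bd_comap ψ σ hσ']
    have h1 := hf r hr hc
    rw [tr_J_tt] at h1
    simp only [hren]
    exact h1)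
  refine ⟨fun r => rename ψ (g r), ?_⟩
  intro r hr hc
  have h1 := hg r hr hc
  rw [tr_J_tt, tr_U_comap ψ σ hσ', tr_I_iff ψ σ hσ', map_add, tr_bd_comap ψ σ hσ', hren] at h1
  rw [tr_J_tt]
  exact h1

private theorem tr_I_le_J (E : Setoid Pt → ℕ → Prop) (V : Setoid Pt) (k : ℕ) : I V ≤ J E V k := by
  unfold J
  split_ifs
  · exact le_refl _
  · exact le_top

private theorem tr_U_V4 {x' : ι → Fin 4 → Pt} (hx : ∀ c ∈ S, V4 (x c) (x' c)) (r : Finset ι) :
    U W x' S r = U W x S r := by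
  rw [U, U]
  congr 1
  apply Finset.sup_congr rfl
  intro c hc
  rw [V4_s0 (hx c hc), V4_s1 (hx c hc)]

private theorem tr_kap_V4 {V Z : Setoid Pt} {y y' : Fin 4 → Pt} (h : V4 y y')
    (h01 : V (y 0) (y 1)) (h23 : V (y 2) (y 3)) (h02 : Z (y 0) (y 2)) (h13 : Z (y 1) (y 3)) :
    kap V y + kap V y' ∈ I Z := by
  have e13 : V (y 1) (y 3) ↔ V (y 0) (y 2) :=
    ⟨fun h => Setoid.trans' _ h01 (Setoid.trans' _ h (Setoid.symm' _ h23)),
      fun h => Setoid.trans' _ (Setoid.symm' _ h01) (Setoid.trans' _ h h23)⟩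
  rcases h with rfl | rfl | rfl | rfl
  · rw [tr_two]; exact Ideal.zero_mem _
  · unfold kap
    simp only [Matrix.cons_val]
    by_cases h1 : V (y 0) (y 2)
    · rw [if_pos h1, if_pos (e13.2 h1), add_comm (X (y 1)), tr_two]; exact Ideal.zero_mem _
    · rw [if_neg h1, if_neg (fun h => h1 (e13.1 h)), tr_two]; exact Ideal.zero_mem _
  · unfold kap
    simp only [Matrix.cons_val]
    by_cases h1 : V (y 0) (y 2)
    · rw [if_pos h1, if_pos (Setoid.symm' _ h1)]
      have h5 : (X (y 0) + X (y 1) + (X (y 2) + X (y 3)) : Rg Pt) =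
          (X (y 0) + X (y 2)) + (X (y 1) + X (y 3)) := by ring
      rw [h5]
      exact Ideal.add_mem _ (Ideal.subset_span (Or.inr ⟨_, _, h02, rfl⟩))
        (Ideal.subset_span (Or.inr ⟨_, _, h13, rfl⟩))
    · rw [if_neg h1, if_neg (fun h => h1 (Setoid.symm' _ h)), tr_two]; exact Ideal.zero_mem _
  · unfold kap
    simp only [Matrix.cons_val]
    by_cases h1 : V (y 0) (y 2)
    · rw [if_pos h1, if_pos (Setoid.symm' _ (e13.2 h1))]
      have h5 : (X (y 0) + X (y 1) + (X (y 3) + X (y 2)) : Rg Pt) =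
          (X (y 0) + X (y 2)) + (X (y 1) + X (y 3)) := by ring
      rw [h5]
      exact Ideal.add_mem _ (Ideal.subset_span (Or.inr ⟨_, _, h02, rfl⟩))
        (Ideal.subset_span (Or.inr ⟨_, _, h13, rfl⟩))
    · rw [if_neg h1, if_neg (fun h => h1 (e13.1 (Setoid.symm' _ h))), tr_two]
      exact Ideal.zero_mem _

private theorem tr_bd_V4 {x' : ι → Fin 4 → Pt} (hx : ∀ c ∈ S, V4 (x c) (x' c))
    (g : Finset ι → Rg Pt) {r : Finset ι} (hr : r ⊆ S) :
    bd W x S g r + bd W x' S g r ∈ I (U W x S r) := by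
  unfold bd
  rw [← Finset.sum_add_distrib]
  refine Ideal.sum_mem _ fun c hc => ?_
  rw [tr_U_V4 hx, ← add_mul]
  refine Ideal.mul_mem_right _ _ ?_
  have hcS := hr hc
  obtain ⟨h0, h1⟩ := U_rel0 (W := W) (x := x) hcS (Finset.notMem_erase c r)
  obtain ⟨h2, h3⟩ := U_rel1 (W := W) (x := x) hcS hc
  exact tr_kap_V4 (hx c hcS) h0 h1 h2 h3

private theorem tr_swap {A : Type} {K : Ideal (Rg A)} {a b b' : Rg A} (h : b + b' ∈ K)
    (h1 : a + b ∈ K) : a + b' ∈ K := by
  have h2 : a + b' = (a + b) + (b + b') := by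
    have h3 := tr_two A b
    linear_combination -h3
  rw [h2]
  exact Ideal.add_mem _ h1 h

theorem Ex_V4 {E : Setoid Pt → ℕ → Prop} {x' : ι → Fin 4 → Pt} (hx : ∀ c ∈ S, V4 (x c) (x' c))
    {h : ℕ} (H : Ex E W x S h) : Ex E W x' S h := by
  intro f hf
  obtain ⟨g, hg⟩ := H f (by
    intro r hr hc
    have h1 := hf r hr hc
    rw [tr_U_V4 hx] at h1
    have h2 := tr_I_le_J E _ (h + 1) (tr_bd_V4 (W := W) hx f hr)
    rw [add_comm (bd W x S f r)] at h2
    have h3 := tr_swap (a := 0) h2 (by rw [zero_add]; exact h1)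
    rwa [zero_add] at h3)
  refine ⟨g, ?_⟩
  intro r hr hc
  rw [tr_U_V4 hx]
  exact tr_swap (tr_I_le_J E _ h (tr_bd_V4 (W := W) hx g hr)) (hg r hr hc)

theorem Bd_V4 {E : Setoid Pt → ℕ → Prop} {x' : ι → Fin 4 → Pt} (hx : ∀ c ∈ S, V4 (x c) (x' c))
    {r0 : Finset ι} (hr : r0 ⊆ S) {t : Rg Pt} (H : Bd E W x S r0 t) : Bd E W x' S r0 t := by
  obtain ⟨g, hg⟩ := H
  refine ⟨g, ?_⟩
  intro r hrS hc
  rw [tr_U_V4 hx]
  exact tr_swap (tr_I_le_J E _ _ (tr_bd_V4 (W := W) hx g hrS)) (hg r hrS hc)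

theorem Ex_congr_x {E : Setoid Pt → ℕ → Prop} {x' : ι → Fin 4 → Pt} (hx : ∀ c ∈ S, x c = x' c)
    {h : ℕ} (H : Ex E W x S h) : Ex E W x' S h :=
  Ex_V4 (fun c hc => Or.inl (hx c hc).symm) H

theorem U_image {ι' : Type} [DecidableEq ι'] (φ : ι' → ι) (S' r' : Finset ι')
    (hφ : Set.InjOn φ (S' : Set ι')) (hr : r' ⊆ S') :
    U W x (S'.image φ) (r'.image φ) = U W (fun c => x (φ c)) S' r' := by
  rw [U, U, Finset.sup_image]
  congr 1
  apply Finset.sup_congr rfl
  intro c hc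
  have h1 : φ c ∈ r'.image φ ↔ c ∈ r' := by
    constructor
    · intro h
      obtain ⟨d, hd, hdc⟩ := Finset.mem_image.1 h
      have := hφ (Finset.mem_coe.2 (hr hd)) (Finset.mem_coe.2 hc) hdc
      rwa [← this]
    · intro h
      exact Finset.mem_image_of_mem φ h
  simp only [Function.comp_apply, h1]

private theorem tr_erase {ι' : Type} [DecidableEq ι'] (φ : ι' → ι) {S' r' : Finset ι'}
    (hφ : Set.InjOn φ (S' : Set ι')) (hr : r' ⊆ S') {c : ι'} (hc : c ∈ S') :
    (r'.image φ).erase (φ c) = (r'.erase c).image φ := by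
  ext d
  simp only [Finset.mem_erase, Finset.mem_image]
  constructor
  · rintro ⟨h1, e, he, rfl⟩
    exact ⟨e, ⟨fun h => h1 (by rw [h]), he⟩, rfl⟩
  · rintro ⟨e, ⟨h1, he⟩, rfl⟩
    exact ⟨fun h => h1 (hφ (Finset.mem_coe.2 (hr he)) (Finset.mem_coe.2 hc) h), e, he, rfl⟩

private theorem tr_bd_image {ι' : Type} [DecidableEq ι'] (φ : ι' → ι) {S' r' : Finset ι'}
    (hφ : Set.InjOn φ (S' : Set ι')) (hr : r' ⊆ S') (g : Finset ι → Rg Pt) :
    bd W x (S'.image φ) g (r'.image φ) =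
      bd W (fun c => x (φ c)) S' (fun r => g (r.image φ)) r' := by
  unfold bd
  rw [Finset.sum_image (fun a ha b hb hab => hφ (Finset.mem_coe.2 (hr ha))
    (Finset.mem_coe.2 (hr hb)) hab)]
  refine Finset.sum_congr rfl fun c hc => ?_
  rw [tr_erase φ hφ hr (hr hc), U_image φ S' _ hφ ((Finset.erase_subset _ _).trans hr)]

private theorem tr_filter {ι' : Type} [DecidableEq ι'] (φ : ι' → ι) {S' r' : Finset ι'}
    (hφ : Set.InjOn φ (S' : Set ι')) (hr : r' ⊆ S') :
    S'.filter (fun c => φ c ∈ r'.image φ) = r' := by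
  ext c
  rw [Finset.mem_filter]
  constructor
  · rintro ⟨h1, h2⟩
    obtain ⟨d, hd, hdc⟩ := Finset.mem_image.1 h2
    have := hφ (Finset.mem_coe.2 (hr hd)) (Finset.mem_coe.2 h1) hdc
    rwa [← this]
  · intro h
    exact ⟨hr h, Finset.mem_image_of_mem φ h⟩

private theorem tr_bd_congr {T : Finset ι} {g g' : Finset ι → Rg Pt} {r : Finset ι}
    (hr : r ⊆ S) (h : ∀ r', r' ⊆ S → g r' = g' r') : bd W x T g r = bd W x T g' r := by
  unfold bd
  refine Finset.sum_congr rfl fun c _ => ?_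
  rw [h _ ((Finset.erase_subset _ _).trans hr)]

theorem Ex_image {E : Setoid Pt → ℕ → Prop} {ι' : Type} [DecidableEq ι'] (φ : ι' → ι)
    (S' : Finset ι') (hφ : Set.InjOn φ (S' : Set ι')) {h : ℕ}
    (H : Ex E W (fun c => x (φ c)) S' h) : Ex E W x (S'.image φ) h := by
  intro f hf
  obtain ⟨g, hg⟩ := H (fun r => f (r.image φ)) (by
    intro r hr hc
    have hcard : (r.image φ).card = h + 1 := by
      rw [Finset.card_image_of_injOn (hφ.mono (Finset.coe_subset.2 hr)), hc]
    have h1 := hf (r.image φ) (Finset.image_subset_image hr) hcard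
    rw [U_image φ S' r hφ hr, tr_bd_image φ hφ hr] at h1
    exact h1)
  refine ⟨fun r => g (S'.filter (fun c => φ c ∈ r)), ?_⟩
  intro r hr hc
  obtain ⟨r', hr', rfl⟩ := Finset.subset_image_iff.1 hr
  have hr2 : r' ⊆ S' := by exact_mod_cast hr'
  have hcard : r'.card = h := by
    rw [← hc, Finset.card_image_of_injOn (hφ.mono (Finset.coe_subset.2 hr2))]
  have h1 := hg r' hr2 hcard
  rw [U_image φ S' r' hφ hr2, tr_bd_image φ hφ hr2]
  rw [tr_bd_congr (S := S') (g' := g) hr2 (fun r'' h'' => by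
    show g (S'.filter (fun c => φ c ∈ r''.image φ)) = g r''
    rw [tr_filter φ hφ h''])]
  exact h1

/-- The converse reindexing. -/
theorem Ex_image' {E : Setoid Pt → ℕ → Prop} {ι' : Type} [DecidableEq ι'] (φ : ι' → ι)
    (S' : Finset ι') (hφ : Set.InjOn φ (S' : Set ι')) {h : ℕ}
    (H : Ex E W x (S'.image φ) h) : Ex E W (fun c => x (φ c)) S' h := by
  intro f hf
  have key : ∀ r', r' ⊆ S' → f (S'.filter (fun c => φ c ∈ r'.image φ)) = f r' := by
    intro r' h'
    rw [tr_filter φ hφ h']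
  obtain ⟨g, hg⟩ := H (fun r => f (S'.filter (fun c => φ c ∈ r))) (by
    intro r hr hc
    obtain ⟨r', hr', rfl⟩ := Finset.subset_image_iff.1 hr
    have hr2 : r' ⊆ S' := by exact_mod_cast hr'
    have hcard : r'.card = h + 1 := by
      rw [← hc, Finset.card_image_of_injOn (hφ.mono (Finset.coe_subset.2 hr2))]
    have h1 := hf r' hr2 hcard
    rw [U_image φ S' r' hφ hr2, tr_bd_image φ hφ hr2,
      tr_bd_congr (S := S') (g' := f) hr2 key]
    exact h1)
  refine ⟨fun r => g (r.image φ), ?_⟩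
  intro r hr hc
  have hcard : (r.image φ).card = h := by
    rw [Finset.card_image_of_injOn (hφ.mono (Finset.coe_subset.2 hr)), hc]
  have h1 := hg (r.image φ) (Finset.image_subset_image hr) hcard
  rw [U_image φ S' r hφ hr, tr_bd_image φ hφ hr, key r hr] at h1
  exact h1

theorem Bd_image {E : Setoid Pt → ℕ → Prop} {ι' : Type} [DecidableEq ι'] (φ : ι' → ι)
    (S' r0 : Finset ι') (hφ : Set.InjOn φ (S' : Set ι')) (hr : r0 ⊆ S') {t : Rg Pt}
    (H : Bd E W x (S'.image φ) (r0.image φ) t) : Bd E W (fun c => x (φ c)) S' r0 t := by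
  obtain ⟨g, hg⟩ := H
  have hc0 : (r0.image φ).card = r0.card :=
    Finset.card_image_of_injOn (hφ.mono (Finset.coe_subset.2 hr))
  refine ⟨fun r => g (r.image φ), ?_⟩
  intro r hrS hc
  have hcard : (r.image φ).card = (r0.image φ).card := by
    rw [Finset.card_image_of_injOn (hφ.mono (Finset.coe_subset.2 hrS)), hc, hc0]
  have h1 := hg (r.image φ) (Finset.image_subset_image hrS) hcard
  rw [U_image φ S' r hφ hrS, tr_bd_image φ hφ hrS, hc0] at h1
  have h2 : r.image φ = r0.image φ ↔ r = r0 := by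
    constructor
    · intro h
      rw [← tr_filter φ hφ hrS, h, tr_filter φ hφ hr]
    · intro h; rw [h]
  simp only [h2] at h1
  exact h1

end Pool.HPS
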