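import Pool.Agent.HPS.DefsB
import Pool.Agent.HPS.R2B
import Pool.Agent.HPS.R2C
import Pool.Agent.HPS.R1
import Pool.Agent.HPS.Tr

/-!
# Module HPS-Stp: one step of a finger

The strands `u` and `v` run parallel and end (end tip) or start (start tip) together; the strand `w` crosses both.
-/

set_option autoImplicit false

open Finset MvPolynomial

namespace Pool.HPS

variable {Pt ι : Type}

theorem V4_symm {y y' : Fin 4 → Pt} (h : V4 y y') : V4 y' y := by
  rcases h with rfl | rfl | rfl | rfl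
  · exact Or.inl rfl
  · refine Or.inr (Or.inl ?_)
    funext k
    fin_cases k <;> rfl
  · refine Or.inr (Or.inr (Or.inl ?_))
    funext k
    fin_cases k <;> rfl
  · refine Or.inr (Or.inr (Or.inr ?_))
    funext k
    fin_cases k <;> rfl

theorem op_comm (i j : ℕ) (h : i ≠ j) : op i j = op j i := by
  unfold op
  split_ifs with h1 h2 h2
  · omega
  · rfl
  · rfl
  · omega

theorem op_V4 (P : ℕ → ℕ → Bool → Pt) (i j : ℕ) (h : i ≠ j) : V4 (qd P (op i j)) (qd P (i, j)) := by
  have _ := h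
  unfold op
  split_ifs with h1
  · exact Or.inl rfl
  · refine Or.inr (Or.inr (Or.inl ?_))
    funext k
    fin_cases k <;> rfl

theorem Rd_zero [DecidableEq ι] (W : Setoid Pt) (x : ι → Fin 4 → Pt) : Rd W x ∅ ∅ 0 := by
  intro E _ S _ _ h H
  rw [U_empty] at H
  rw [Finset.union_empty]
  exact H

theorem RdB_zero [DecidableEq ι] (W : Setoid Pt) (x : ι → Fin 4 → Pt) : RdB W x ∅ ∅ := by
  intro E _ S r0 _ _ _ t H
  rw [Finset.union_empty, Finset.union_empty] at H
  rw [U_empty]
  exact H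

private theorem shN_shN (E : Setoid Pt → ℕ → Prop) (M N : ℕ) :
    shN N (shN M E) = shN (M + N) E := by
  funext V k
  unfold shN
  congr 1
  omega

private theorem U_comp [DecidableEq ι] {W : Setoid Pt} {x : ι → Fin 4 → Pt}
    {T r T' r' : Finset ι} (hT : Disjoint T T') (hr : r ⊆ T) (hr' : r' ⊆ T') :
    U W x (T ∪ T') (r ∪ r') = U (U W x T r) x T' r' := by
  rw [U_union]
  have e1 : U W x T (r ∪ r') = U W x T r := by
    refine U_congr fun c hc => ?_
    rw [Finset.mem_union]
    exact ⟨fun h => h.resolve_right fun h' => Finset.disjoint_left.1 hT hc (hr' h'), Or.inl⟩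
  rw [e1]
  refine U_congr fun c hc => ?_
  rw [Finset.mem_union]
  exact ⟨fun h => h.resolve_left fun h' => Finset.disjoint_left.1 hT (hr h') hc, Or.inr⟩

theorem Rd_comp [DecidableEq ι] {W : Setoid Pt} {x : ι → Fin 4 → Pt} {T r T' r' : Finset ι}
    {N N' : ℕ} (hT : Disjoint T T') (hr : r ⊆ T) (hr' : r' ⊆ T') (h1 : Rd W x T r N)
    (h2 : Rd (U W x T r) x T' r' N') : Rd W x (T ∪ T') (r ∪ r') (N + N') := by
  intro E hE S hS hL h H
  rw [Finset.disjoint_union_right] at hS
  have e1 : S ∪ (T ∪ T') = (S ∪ T') ∪ T := by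
    rw [Finset.union_assoc, Finset.union_comm T T']
  have hd : Disjoint (S ∪ T') T := Finset.disjoint_union_left.2 ⟨hS.1, hT.symm⟩
  rw [e1] at hL ⊢
  rw [U_comp hT hr hr', Finset.card_union_of_disjoint
    (Finset.disjoint_of_subset_left hr (Finset.disjoint_of_subset_right hr' hT)), ← shN_shN] at H
  have h3 := h2 (shN r.card E) (EOk_shN hE _) S hS.2 (legit_U hL hd r) h H
  have h4 := h1 E hE (S ∪ T') hd hL (h + N') h3
  have e2 : h + N' + N = h + (N + N') := by omega
  rw [e2] at h4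
  exact h4

theorem RdB_comp [DecidableEq ι] {W : Setoid Pt} {x : ι → Fin 4 → Pt} {T r T' r' : Finset ι}
    (hT : Disjoint T T') (hr : r ⊆ T) (hr' : r' ⊆ T') (h1 : RdB W x T r)
    (h2 : RdB (U W x T r) x T' r') : RdB W x (T ∪ T') (r ∪ r') := by
  intro E hE S r0 hS hr0 hL t H
  rw [Finset.disjoint_union_right] at hS
  have e1 : S ∪ (T ∪ T') = (S ∪ T') ∪ T := by
    rw [Finset.union_assoc, Finset.union_comm T T']
  have e2 : r0 ∪ (r ∪ r') = (r0 ∪ r') ∪ r := by
    rw [Finset.union_assoc, Finset.union_comm r r']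
  have hd : Disjoint (S ∪ T') T := Finset.disjoint_union_left.2 ⟨hS.1, hT.symm⟩
  rw [e1] at hL
  rw [e1, e2] at H
  have h3 := h1 E hE (S ∪ T') (r0 ∪ r') hd (Finset.union_subset_union hr0 hr') hL t H
  have h4 := h2 (shN r.card E) (EOk_shN hE _) S r0 hS.2 hr0 (legit_U hL hd r) t h3
  rw [shN_shN] at h4
  rw [U_comp hT hr hr', Finset.card_union_of_disjoint
    (Finset.disjoint_of_subset_left hr (Finset.disjoint_of_subset_right hr' hT))]
  exact h4

variable {W : Setoid Pt} {P : ℕ → ℕ → Bool → Pt} {u v w : ℕ}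

private theorem op_ne (huv : u ≠ v) (hwu : w ≠ u) (hwv : w ≠ v) : op w u ≠ op w v := by
  unfold op
  intro h
  split_ifs at h <;> rw [Prod.ext_iff] at h <;> simp only at h <;> omega

/-- The second Reidemeister move for two crossings of a system, up to relabelling. -/
private theorem r2_gen {c1 c2 : ℕ × ℕ} {y1 y2 : Fin 4 → Pt} (hne : c1 ≠ c2)
    (h1 : V4 (qd P c1) y1) (h2 : V4 (qd P c2) y2) (ha : W (y1 2) (y2 2)) (hb : W (y1 3) (y2 0)) :
    Rd W (qd P) {c1, c2} {c1} 1 ∧ RdB W (qd P) {c1, c2} {c1} := by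
  obtain ⟨x', hx1, hx2, hx⟩ : ∃ x' : ℕ × ℕ → Fin 4 → Pt, x' c1 = y1 ∧ x' c2 = y2 ∧
      ∀ c, c ≠ c1 → c ≠ c2 → x' c = qd P c := by
    refine ⟨fun c => if c = c1 then y1 else if c = c2 then y2 else qd P c, ?_, ?_, ?_⟩
    · simp only [if_true]
    · simp only [if_neg hne.symm, if_true]
    · intro c hc hc'
      simp only [if_neg hc, if_neg hc']
  have hV : ∀ c, V4 (qd P c) (x' c) := by
    intro c
    by_cases hc : c = c1
    · rw [hc, hx1]; exact h1
    · by_cases hc' : c = c2
      · rw [hc', hx2]; exact h2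
      · rw [hx c hc hc']; exact Or.inl rfl
  have hU : U W (qd P) {c1, c2} {c1} = W ⊔ s1 (x' c1) ⊔ s0 (x' c2) := by
    have e1 : ({c1, c2} : Finset (ℕ × ℕ)) = insert c1 (insert c2 ∅) := rfl
    rw [e1, U_ins1 (Finset.mem_singleton_self _), U_ins0 (by simpa using hne.symm), U_empty,
      V4_s1 (hV c1), V4_s0 (hV c2)]
  have hset : ∀ S : Finset (ℕ × ℕ), S ∪ {c1, c2} = insert c1 (insert c2 S) := by
    intro S
    ext c
    simp only [Finset.mem_union, Finset.mem_insert, Finset.mem_singleton]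
    tauto
  have hPat : ∀ S : Finset (ℕ × ℕ), Disjoint S {c1, c2} →
      Legit W (qd P) (insert c1 (insert c2 S)) → Pat W x' S c1 c2 := by
    intro S hS hL
    rw [Finset.disjoint_right] at hS
    refine ⟨hne, hS (by simp), hS (by simp), legit_V4 hL fun c _ => hV c, ?_, ?_⟩
    · rw [hx1, hx2]; exact ha
    · rw [hx1, hx2]; exact hb
  constructor
  · intro E hE S hS hL h H
    rw [hset] at hL ⊢
    rw [hU, Finset.card_singleton] at H
    have h3 : Ex (shE E) (W ⊔ s1 (x' c1) ⊔ s0 (x' c2)) x' S h := Ex_V4 (fun c _ => hV c) H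
    exact Ex_V4 (fun c _ => V4_symm (hV c)) (R2dn hE (hPat S hS hL) h3)
  · intro E hE S r0 hS hr0 hL t H
    have e3 : r0 ∪ {c1} = insert c1 r0 := by
      rw [Finset.union_comm, ← Finset.insert_eq]
    rw [hset] at hL
    rw [hset, e3] at H
    have h3 := Bd_V4 (fun c _ => hV c)
      (Finset.insert_subset_insert c1 (hr0.trans (Finset.subset_insert c2 S))) H
    have h4 := R2nb hE (hPat S hS hL) hr0 h3
    have h5 := Bd_V4 (fun c _ => V4_symm (hV c)) hr0 h4
    rw [hU, Finset.card_singleton]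
    exact h5

theorem ST (huv : u ≠ v) (hwu : w ≠ u) (hwv : w ≠ v) (ht : W (P u w false) (P v w false))
    (hw : W (P w u true) (P w v false)) :
    Rd W (qd P) {op w u, op w v} {op w u} 1 ∧ RdB W (qd P) {op w u, op w v} {op w u} :=
  r2_gen (op_ne huv hwu hwv) (op_V4 P w u hwu) (op_V4 P w v hwv) ht hw

theorem ET (huv : u ≠ v) (hwu : w ≠ u) (hwv : w ≠ v) (ht : W (P u w true) (P v w true))
    (hw : W (P w u true) (P w v false)) :
    Rd W (qd P) {op w u, op w v} {op w v} 1 ∧ RdB W (qd P) {op w u, op w v} {op w v} := by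
  rw [Finset.pair_comm]
  have h1 : V4 (qd P (op w v)) (qd P (v, w)) := by
    rw [op_comm w v hwv]
    exact op_V4 P v w hwv.symm
  have h2 : V4 (qd P (op w u)) ![P u w true, P w u false, P w u true, P u w false] := by
    unfold op
    split_ifs with h3
    · refine Or.inr (Or.inl ?_)
      funext k
      fin_cases k <;> rfl
    · refine Or.inr (Or.inr (Or.inr ?_))
      funext k
      fin_cases k <;> rfl
  exact r2_gen (op_ne huv hwu hwv).symm h1 h2 (W.symm hw) (W.symm ht)

/-- The first Reidemeister move for a crossing of a system, up to relabelling. -/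
private theorem r1_gen {c : ℕ × ℕ} {y : Fin 4 → Pt} (h1 : V4 (qd P c) y) (ha : W (y 0) (y 2)) :
    Rd W (qd P) {c} ∅ 1 := by
  obtain ⟨x', hx1, hx⟩ : ∃ x' : ℕ × ℕ → Fin 4 → Pt, x' c = y ∧ ∀ c', c' ≠ c → x' c' = qd P c' := by
    refine ⟨fun c' => if c' = c then y else qd P c', ?_, ?_⟩
    · simp only [if_true]
    · intro c' hc
      simp only [if_neg hc]
  have hV : ∀ c', V4 (qd P c') (x' c') := by
    intro c'
    by_cases hc : c' = c
    · rw [hc, hx1]; exact h1
    · rw [hx c' hc]; exact Or.inl rfl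
  have hU : U W (qd P) {c} ∅ = W ⊔ s0 (x' c) := by
    have e1 : ({c} : Finset (ℕ × ℕ)) = insert c ∅ := rfl
    rw [e1, U_ins0 (Finset.notMem_empty _), U_empty, V4_s0 (hV c)]
  intro E hE S hS hL h H
  have hset : S ∪ {c} = insert c S := by
    rw [Finset.union_comm, ← Finset.insert_eq]
  rw [hset] at hL ⊢
  rw [hU] at H
  have h3 : Ex E (W ⊔ s0 (x' c)) x' S h := Ex_V4 (fun c' _ => hV c') H
  exact Ex_V4 (fun c' _ => V4_symm (hV c')) (R1dn hE (Finset.disjoint_singleton_right.1 hS)
    (legit_V4 hL fun c' _ => hV c') (by rw [hx1]; exact ha) h3)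

theorem KT (huv : u ≠ v) (ht : W (P u v false) (P v u false)) :
    Rd W (qd P) {op u v} ∅ 1 :=
  r1_gen (op_V4 P u v huv) ht

theorem KE (huv : u ≠ v) (ht : W (P u v true) (P v u true)) :
    Rd W (qd P) {op u v} ∅ 1 := by
  have h2 : V4 (qd P (op u v)) ![P v u true, P u v false, P u v true, P v u false] := by
    unfold op
    split_ifs with h3
    · refine Or.inr (Or.inl ?_)
      funext k
      fin_cases k <;> rfl
    · refine Or.inr (Or.inr (Or.inr ?_))
      funext k
      fin_cases k <;> rfl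
  exact r1_gen h2 (W.symm ht)

end Pool.HPS
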