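import Pool.Agent.HPS.DefsC
import Pool.Agent.HPS.Rem
import Pool.Agent.HPS.Tr
import Pool.Agent.HPS.Stp

/-!
# Module HPS-RotM: rotation of the labels of a closed half twist (imports Tr, Leg, Stp (`op_V4`, `V4_symm`), Rem; use them)

PLAN.
* `Cyc_iff` (`2 ≤ n`): `Cyc n P W ↔ ∀ i j, i < n → j < n → i ≠ j → W (P i j true) (P i (cs n i j) false)` with
  `cs n i j = if (j + 1) % n = i then (j + 2) % n else (j + 1) % n` (case distinctions: `j + 1 < n`, `j + 1 = n`, ...; `Lin.a`, `Lin.b`, `c`).
* `Cyc_rot`: `(cs n i j + s) % n = cs n ((i + s) % n) ((j + s) % n)` for `i, j < n` (`Nat.add_mod`, `Nat.mod_mod`; `i ↦ (i + s) % n` is injective on `[0, n)`).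
* For `c ∈ fl n`: `V4 (qd P (rof n s c)) (qd (rotP n s P) c)` (`op_V4`); `rof n s` is injective on `fl n` (a pair `i < j` is determined by the unordered pair
  of rotated labels) and maps `fl n` onto `fl n`.
* `Legit_rot`: `legit_image` (with `(fl n).image (rof n s) = fl n`) and `legit_V4`.
* `Bd_rot`: `Bd_image` with `φ = rof n s`, `S' = fl n`, `r0 = ror p`, then `Bd_V4`; `(ror p).image (rof (2p) (p+1)) = ro p` (verified by `decide` for `p ≤ 5`; proof: `ext`,
  membership, explicit values `(i + (p+1)) % (2p) = i + p + 1` if `i + 1 < p` and `i + 1 - p` if `p ≤ i + 1`; an inverse image of `(a, b)`, `a < p ≤ b < 2p`, is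
  `op ((a + p - 1) % (2p)) ((b + p - 1) % (2p))`).
-/

set_option autoImplicit false

open Finset MvPolynomial

namespace Pool.HPS

variable {Pt : Type} {W : Setoid Pt} {P : ℕ → ℕ → Bool → Pt} {n : ℕ}

/-- the next strand met by strand `i` after strand `j` -/
private def cs (n i j : ℕ) : ℕ := if (j + 1) % n = i then (j + 2) % n else (j + 1) % n

private theorem Cyc_iff {P : ℕ → ℕ → Bool → Pt} (hn : 2 ≤ n) :
    Cyc n P W ↔ ∀ i j, i < n → j < n → i ≠ j → W (P i j true) (P i (cs n i j) false) := by
  constructor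
  · intro h i j hi hj hij
    rcases Nat.lt_or_ge (j + 1) n with h1 | h1
    · have e1 : (j + 1) % n = j + 1 := Nat.mod_eq_of_lt h1
      by_cases h2 : j + 1 = i
      · subst h2
        rcases Nat.lt_or_ge (j + 2) n with h3 | h3
        · have e2 : cs n (j + 1) j = j + 2 := by
            unfold cs
            rw [if_pos e1, Nat.mod_eq_of_lt h3]
          rw [e2]
          exact h.b j h3
        · have e3 : n = j + 2 := by omega
          have e2 : cs n (j + 1) j = 0 := by
            unfold cs
            rw [if_pos e1, e3, Nat.mod_self]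
          have hc := h.c (j + 1) hi
          have e4 : lst n (j + 1) = j := by
            unfold lst
            rw [if_pos (by omega)]
            omega
          have e5 : fst' (j + 1) = 0 := by
            unfold fst'
            rw [if_neg (by omega)]
          rw [e4, e5] at hc
          rw [e2]
          exact hc
      · have e2 : cs n i j = j + 1 := by
          unfold cs
          rw [e1, if_neg h2]
        rw [e2]
        exact h.a i j hi h1 (fun h => hij h.symm) h2
    · have e1 : j + 1 = n := by omega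
      have hc := h.c i hi
      have e4 : lst n i = j := by
        unfold lst
        rw [if_neg (by omega)]
        omega
      by_cases h2 : i = 0
      · have e2 : cs n i j = 1 := by
          have e6 : j + 2 = 1 + n := by omega
          unfold cs
          rw [e1, Nat.mod_self, if_pos h2.symm, e6, Nat.add_mod_right, Nat.mod_eq_of_lt (by omega)]
        have e5 : fst' i = 1 := by
          unfold fst'
          rw [if_pos h2]
        rw [e4, e5] at hc
        rw [e2]
        exact hc
      · have e2 : cs n i j = 0 := by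
          unfold cs
          rw [e1, Nat.mod_self, if_neg (fun h => h2 h.symm)]
        have e5 : fst' i = 0 := by
          unfold fst'
          rw [if_neg h2]
        rw [e4, e5] at hc
        rw [e2]
        exact hc
  · intro h
    refine ⟨⟨?_, ?_⟩, ?_⟩
    · intro i j hi hj hji hji1
      have h1 := h i j hi (by omega) (fun h => hji h.symm)
      have e2 : cs n i j = j + 1 := by
        unfold cs
        rw [Nat.mod_eq_of_lt hj, if_neg hji1]
      rw [e2] at h1
      exact h1
    · intro i hi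
      have h1 := h (i + 1) i (by omega) (by omega) (by omega)
      have e2 : cs n (i + 1) i = i + 2 := by
        unfold cs
        rw [Nat.mod_eq_of_lt (by omega : i + 1 < n), if_pos rfl, Nat.mod_eq_of_lt hi]
      rw [e2] at h1
      exact h1
    · intro i hi
      have hl : lst n i < n := by
        unfold lst
        split_ifs <;> omega
      have hl2 : i ≠ lst n i := by
        unfold lst
        split_ifs <;> omega
      have h1 := h i (lst n i) hi hl hl2
      have e2 : cs n i (lst n i) = fst' i := by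
        unfold cs lst fst'
        by_cases h3 : i + 1 = n
        · rw [if_pos h3, if_neg (by omega : ¬ i = 0)]
          have e3 : n - 2 + 1 = i := by omega
          have e4 : n - 2 + 2 = n := by omega
          rw [e3, e4, Nat.mod_self, Nat.mod_eq_of_lt hi, if_pos rfl]
        · rw [if_neg h3]
          have e3 : n - 1 + 1 = n := by omega
          have e4 : n - 1 + 2 = 1 + n := by omega
          rw [e3, e4, Nat.mod_self, Nat.add_mod_right, Nat.mod_eq_of_lt (by omega : 1 < n)]
          by_cases h4 : i = 0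
          · rw [if_pos h4.symm, if_pos h4]
          · rw [if_neg (fun h => h4 h.symm), if_neg h4]
      rw [e2] at h1
      exact h1

private theorem mod_ne {s i j : ℕ} (hi : i < n) (hj : j < n) (hij : i ≠ j) :
    (i + s) % n ≠ (j + s) % n := by
  intro h
  have h1 : i + s ≡ j + s [MOD n] := h
  have h2 : i ≡ j [MOD n] := Nat.ModEq.add_right_cancel' s h1
  have h3 : i % n = j % n := h2
  rw [Nat.mod_eq_of_lt hi, Nat.mod_eq_of_lt hj] at h3
  exact hij h3

private theorem cs_rot {s i j : ℕ} (hn : 2 ≤ n) (hi : i < n) :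
    (cs n i j + s) % n = cs n ((i + s) % n) ((j + s) % n) := by
  have e1 : ((j + s) % n + 1) % n = (j + 1 + s) % n := by
    rw [Nat.mod_add_mod]
    congr 1
    omega
  have e2 : ((j + s) % n + 2) % n = (j + 2 + s) % n := by
    rw [Nat.mod_add_mod]
    congr 1
    omega
  unfold cs
  rw [e1, e2]
  by_cases h : (j + 1) % n = i
  · rw [if_pos h, if_pos (by rw [← h, Nat.mod_add_mod]), Nat.mod_add_mod]
  · have h2 : ¬ (j + 1 + s) % n = (i + s) % n := by
      intro h3
      have h1 : j + 1 + s ≡ i + s [MOD n] := h3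
      have h4 : j + 1 ≡ i [MOD n] := Nat.ModEq.add_right_cancel' s h1
      have h5 : (j + 1) % n = i % n := h4
      rw [Nat.mod_eq_of_lt hi] at h5
      exact h h5
    rw [if_neg h, if_neg h2, Nat.mod_add_mod]

private theorem mem_fl' {m i j : ℕ} : (i, j) ∈ fl m ↔ i < j ∧ j < m := by
  simp only [fl, Finset.mem_filter, Finset.mem_product, Finset.mem_range]
  omega

private theorem op_mem_fl {m i j : ℕ} (hi : i < m) (hj : j < m) (hij : i ≠ j) :
    op i j ∈ fl m := by
  unfold op
  split_ifs with h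
  · rw [mem_fl']; omega
  · rw [mem_fl']; omega

private theorem rof_op {s i j : ℕ} (hi : i < n) (hj : j < n) (hij : i ≠ j) :
    rof n s (op i j) = op ((i + s) % n) ((j + s) % n) := by
  by_cases h : i < j
  · have e : op i j = (i, j) := by
      unfold op
      rw [if_pos h]
    rw [e]
    rfl
  · have e : op i j = (j, i) := by
      unfold op
      rw [if_neg h]
    rw [e]
    exact op_comm _ _ (mod_ne hj hi (Ne.symm hij))

theorem Cyc_rot (hn : 2 ≤ n) (hC : Cyc n P W) (s : ℕ) : Cyc n (rotP n s P) W := by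
  rw [Cyc_iff hn] at hC ⊢
  intro i j hi hj hij
  have h1 := hC ((i + s) % n) ((j + s) % n) (Nat.mod_lt _ (by omega)) (Nat.mod_lt _ (by omega))
    (mod_ne hi hj hij)
  rw [← cs_rot hn hi] at h1
  exact h1

theorem rof_image (hn : 2 ≤ n) (s : ℕ) : (fl n).image (rof n s) = fl n := by
  ext ⟨a, b⟩
  rw [Finset.mem_image, mem_fl']
  constructor
  · rintro ⟨⟨i, j⟩, h1, h2⟩
    rw [mem_fl'] at h1
    have h3 : op ((i + s) % n) ((j + s) % n) ∈ fl n :=
      op_mem_fl (Nat.mod_lt _ (by omega)) (Nat.mod_lt _ (by omega))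
        (mod_ne (by omega) h1.2 (by omega))
    have h4 : op ((i + s) % n) ((j + s) % n) = (a, b) := h2
    rw [h4, mem_fl'] at h3
    exact h3
  · rintro ⟨hab, hb⟩
    have hback : ∀ a, a < n → ((a + (n - s % n)) % n + s) % n = a := by
      intro a ha
      rw [Nat.mod_add_mod]
      have h5 : s % n < n := Nat.mod_lt _ (by omega)
      have h6 : n * (s / n) + s % n = s := Nat.div_add_mod s n
      have h7 : a + (n - s % n) + s = a + n * (s / n + 1) := by
        rw [Nat.mul_add, Nat.mul_one]
        omega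
      rw [h7, Nat.add_mul_mod_self_left, Nat.mod_eq_of_lt ha]
    have hne : (a + (n - s % n)) % n ≠ (b + (n - s % n)) % n :=
      mod_ne (by omega) hb (by omega)
    refine ⟨op ((a + (n - s % n)) % n) ((b + (n - s % n)) % n),
      op_mem_fl (Nat.mod_lt _ (by omega)) (Nat.mod_lt _ (by omega)) hne, ?_⟩
    rw [rof_op (Nat.mod_lt _ (by omega)) (Nat.mod_lt _ (by omega)) hne, hback a (by omega),
      hback b hb]
    unfold op
    rw [if_pos hab]

private theorem rof_injOn (hn : 2 ≤ n) (s : ℕ) :
    Set.InjOn (rof n s) ((fl n : Finset (ℕ × ℕ)) : Set (ℕ × ℕ)) := by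
  apply Finset.injOn_of_card_image_eq
  rw [rof_image hn]

private theorem rot_V4 (hn : 2 ≤ n) (s : ℕ) (c : ℕ × ℕ) (hc : c ∈ fl n) :
    V4 (qd P (rof n s c)) (qd (rotP n s P) c) := by
  obtain ⟨i, j⟩ := c
  rw [mem_fl'] at hc
  have h := op_V4 P ((i + s) % n) ((j + s) % n) (mod_ne (by omega) hc.2 (by omega))
  exact h

private theorem pr_symm' (a b : Pt) : pr a b = pr b a := by
  have key : ∀ a b : Pt, pr a b ≤ pr b a := by
    intro a b u v huv
    change Relation.EqvGen (fun u v => u = a ∧ v = b) u v at huv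
    change Relation.EqvGen (fun u v => u = b ∧ v = a) u v
    induction huv with
    | rel x y h => exact Relation.EqvGen.symm _ _ (Relation.EqvGen.rel _ _ ⟨h.2, h.1⟩)
    | refl x => exact Relation.EqvGen.refl x
    | symm x y _ ih => exact Relation.EqvGen.symm _ _ ih
    | trans x y z _ _ ih1 ih2 => exact Relation.EqvGen.trans _ _ _ ih1 ih2
  exact le_antisymm (key a b) (key b a)

private theorem V4_s0' {y y' : Fin 4 → Pt} (h : V4 y y') : s0 y = s0 y' := by
  rcases h with rfl | rfl | rfl | rfl
  · rfl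
  · change pr (y 0) (y 1) ⊔ pr (y 2) (y 3) = pr (y 1) (y 0) ⊔ pr (y 3) (y 2)
    rw [pr_symm' (y 1), pr_symm' (y 3)]
  · change pr (y 0) (y 1) ⊔ pr (y 2) (y 3) = pr (y 2) (y 3) ⊔ pr (y 0) (y 1)
    rw [sup_comm]
  · change pr (y 0) (y 1) ⊔ pr (y 2) (y 3) = pr (y 3) (y 2) ⊔ pr (y 1) (y 0)
    rw [pr_symm' (y 1), pr_symm' (y 3), sup_comm]

private theorem V4_s1' {y y' : Fin 4 → Pt} (h : V4 y y') : s1 y = s1 y' := by
  rcases h with rfl | rfl | rfl | rfl
  · rfl
  · change pr (y 0) (y 2) ⊔ pr (y 1) (y 3) = pr (y 1) (y 3) ⊔ pr (y 0) (y 2)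
    rw [sup_comm]
  · change pr (y 0) (y 2) ⊔ pr (y 1) (y 3) = pr (y 2) (y 0) ⊔ pr (y 3) (y 1)
    rw [pr_symm' (y 2), pr_symm' (y 3)]
  · change pr (y 0) (y 2) ⊔ pr (y 1) (y 3) = pr (y 3) (y 1) ⊔ pr (y 2) (y 0)
    rw [pr_symm' (y 2), pr_symm' (y 3), sup_comm]

theorem ror_image {p : ℕ} (hp : 1 ≤ p) : (ror p).image (rof (2 * p) (p + 1)) = ro p := by
  have hlow : ∀ i, i + 1 < p → (i + (p + 1)) % (2 * p) = i + p + 1 := by
    intro i hi
    rw [Nat.mod_eq_of_lt (by omega)]
    omega
  have hhigh : ∀ i, p ≤ i + 1 → i < 2 * p → (i + (p + 1)) % (2 * p) = i + 1 - p := by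
    intro i h1 h2
    have h3 : i + (p + 1) = (i + 1 - p) + 2 * p := by omega
    rw [h3, Nat.add_mod_right, Nat.mod_eq_of_lt (by omega)]
  ext ⟨a, b⟩
  rw [Finset.mem_image]
  constructor
  · rintro ⟨⟨i, j⟩, h1, h2⟩
    have h2' : op ((i + (p + 1)) % (2 * p)) ((j + (p + 1)) % (2 * p)) = (a, b) := h2
    rw [ror, Finset.mem_filter, mem_fl'] at h1
    rw [ro, Finset.mem_filter, mem_fl']
    simp only at h1 ⊢
    obtain ⟨⟨h3, h4⟩, ⟨h5, h6, h7⟩ | ⟨h5, h6⟩⟩ := h1
    · rw [hlow i h5, hhigh j h6 h4] at h2'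
      unfold op at h2'
      rw [if_neg (by omega), Prod.mk.injEq] at h2'
      omega
    · rw [hhigh i h5 (by omega), hhigh j (by omega) h4] at h2'
      unfold op at h2'
      rw [if_pos (by omega), Prod.mk.injEq] at h2'
      omega
  · intro h
    rw [ro, Finset.mem_filter, mem_fl'] at h
    simp only at h
    obtain ⟨⟨h1, h2⟩, h3, h4⟩ := h
    by_cases hb : b = p
    · refine ⟨(a + p - 1, 2 * p - 1), ?_, ?_⟩
      · rw [ror, Finset.mem_filter, mem_fl']
        simp only
        omega
      · change op ((a + p - 1 + (p + 1)) % (2 * p)) ((2 * p - 1 + (p + 1)) % (2 * p)) = (a, b)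
        rw [hhigh (a + p - 1) (by omega) (by omega), hhigh (2 * p - 1) (by omega) (by omega)]
        unfold op
        rw [if_pos (by omega), Prod.mk.injEq]
        omega
    · refine ⟨(b - p - 1, a + p - 1), ?_, ?_⟩
      · rw [ror, Finset.mem_filter, mem_fl']
        simp only
        omega
      · change op ((b - p - 1 + (p + 1)) % (2 * p)) ((a + p - 1 + (p + 1)) % (2 * p)) = (a, b)
        rw [hlow (b - p - 1) (by omega), hhigh (a + p - 1) (by omega) (by omega)]
        unfold op
        rw [if_neg (by omega), Prod.mk.injEq]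
        omega

theorem Legit_rot (hn : 2 ≤ n) (hL : Legit W (qd P) (fl n)) (s : ℕ) :
    Legit W (qd (rotP n s P)) (fl n) := by
  have h1 : Legit W (qd P) ((fl n).image (rof n s)) := by
    rw [rof_image hn]
    exact hL
  exact legit_V4 (legit_image (rof n s) (fl n) (rof_injOn hn s) h1) (rot_V4 hn s)

theorem Bd_rot {p : ℕ} (hp : 1 ≤ p) {E : Setoid Pt → ℕ → Prop} {t : Rg Pt}
    (H : Bd E W (qd P) (fl (2 * p)) (ro p) t) :
    Bd E W (qd (rotP (2 * p) (p + 1) P)) (fl (2 * p)) (ror p) t := by
  have hn : 2 ≤ 2 * p := by omega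
  have hsub : ror p ⊆ fl (2 * p) := Finset.filter_subset _ _
  have h1 : Bd E W (qd P) ((fl (2 * p)).image (rof (2 * p) (p + 1)))
      ((ror p).image (rof (2 * p) (p + 1))) t := by
    rw [rof_image hn, ror_image hp]
    exact H
  exact Bd_V4 (rot_V4 hn (p + 1)) hsub
    (Bd_image (rof (2 * p) (p + 1)) (fl (2 * p)) (ror p) (rof_injOn hn (p + 1)) hsub h1)

theorem U_rot {p : ℕ} (hp : 1 ≤ p) :
    U W (qd (rotP (2 * p) (p + 1) P)) (fl (2 * p)) (ror p) = U W (qd P) (fl (2 * p)) (ro p) := by
  have hn : 2 ≤ 2 * p := by omega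
  have hsub : ror p ⊆ fl (2 * p) := Finset.filter_subset _ _
  have h1 := U_image (W := W) (x := qd P) (rof (2 * p) (p + 1)) (fl (2 * p)) (ror p)
    (rof_injOn hn (p + 1)) hsub
  rw [rof_image hn, ror_image hp] at h1
  rw [h1]
  unfold U
  congr 1
  apply Finset.sup_congr rfl
  intro c hc
  have hV := rot_V4 (P := P) hn (p + 1) c hc
  rw [V4_s0' hV, V4_s1' hV]

end Pool.HPS
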