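import Pool.Agent.HPS.Leg

/-!
# Module HPS-ParG: counting classes

In a legitimate system every class of `W` contains 0 or 2 of the `4|S|` labels (`card_legit`).  After smoothing the crossings
of `T` the classes without labels of `S` are unchanged (`noLab_equiv`); so the numbers of classes before and after are
compared by counting the classes which contain labels of `T` but no other labels (none in `par_rem0`, one in `par_rem1`).
-/

set_option autoImplicit false

open Finset MvPolynomial

namespace Pool.HPS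

variable {Pt ι : Type} [DecidableEq ι] {W : Setoid Pt} {x : ι → Fin 4 → Pt} {S T : Finset ι}

/-- The smoothing partner of a label. -/
def sp (r : Finset ι) (l : ι × Fin 4) : ι × Fin 4 :=
  (l.1, if l.1 ∈ r then ![2, 3, 0, 1] l.2 else ![1, 0, 3, 2] l.2)

theorem card_legit [Finite Pt] (hL : Legit W x S) :
    Nat.card (Quotient W) = 2 * S.card +
      Nat.card {q : Quotient W // ∀ c ∈ S, ∀ k : Fin 4, (Quotient.mk W (x c k)) ≠ q} := by
  classical
  let _ := Fintype.ofFinite (Quotient W)
  let f : ι × Fin 4 → Quotient W := fun l => Quotient.mk W (x l.1 l.2)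
  let Lab : Finset (ι × Fin 4) := S ×ˢ Finset.univ
  have hmem : ∀ l : ι × Fin 4, l ∈ Lab ↔ l.1 ∈ S := by
    intro l
    simp [Lab]
  have h2 : ∀ b ∈ Lab.image f, (Lab.filter (fun a => f a = b)).card = 2 := by
    intro b hb
    obtain ⟨l, hl, rfl⟩ := Finset.mem_image.1 hb
    obtain ⟨l', hl', hne, hW, huniq⟩ := hL l ((hmem l).1 hl)
    have h : Lab.filter (fun a => f a = f l) = {l, l'} := by
      ext a
      simp only [Finset.mem_filter, Finset.mem_insert, Finset.mem_singleton, hmem]
      constructor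
      · rintro ⟨ha, hfa⟩
        by_cases hal : a = l
        · exact Or.inl hal
        · right
          exact huniq a ha hal (W.symm (Quotient.exact hfa))
      · rintro (rfl | rfl)
        · exact ⟨(hmem _).1 hl, rfl⟩
        · exact ⟨hl', Quotient.sound (W.symm hW)⟩
    rw [h, Finset.card_pair hne.symm]
  have h3 := Finset.card_eq_sum_card_image f Lab
  rw [Finset.sum_congr rfl h2, Finset.sum_const, smul_eq_mul] at h3
  have h4 : Lab.card = S.card * 4 := by simp [Lab]
  have h5 : (Lab.image f).card = 2 * S.card := by omega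
  rw [Nat.card_eq_fintype_card, Nat.card_eq_fintype_card, Fintype.card_subtype]
  have h6 : (Finset.univ.filter
      (fun q : Quotient W => ∀ c ∈ S, ∀ k : Fin 4, (Quotient.mk W (x c k)) ≠ q)) =
      (Lab.image f)ᶜ := by
    ext q
    simp only [Finset.mem_filter, Finset.mem_univ, true_and, Finset.mem_compl, Finset.mem_image,
      hmem]
    constructor
    · rintro h ⟨l, hl, rfl⟩
      exact h l.1 hl l.2 rfl
    · intro h c hc k hq
      exact h ⟨(c, k), hc, hq⟩
  rw [h6, Finset.card_compl]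
  have h7 := Finset.card_le_univ (Lab.image f)
  omega

/-- Smoothings identify only labels. -/
private theorem U_le {V : Setoid Pt} {r : Finset ι} (h0 : W ≤ V)
    (h1 : ∀ c ∈ T, c ∉ r → V (x c 0) (x c 1) ∧ V (x c 2) (x c 3))
    (h2 : ∀ c ∈ T, c ∈ r → V (x c 0) (x c 2) ∧ V (x c 1) (x c 3)) : U W x T r ≤ V := by
  refine sup_le h0 (Finset.sup_le fun c hc => ?_)
  by_cases hr : c ∈ r
  · rw [if_pos hr]
    exact s1_le.2 (h2 c hc hr)
  · rw [if_neg hr]
    exact s0_le.2 (h1 c hc hr)

/-- A class without labels does not change. -/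
private theorem noLab_iff (hT : T ⊆ S) (r : Finset ι) {p : Pt}
    (hp : ∀ c ∈ S, ∀ k : Fin 4, ¬ W p (x c k)) {p' : Pt} (h : U W x T r p p') : W p p' := by
  let Z : Setoid Pt :=
    { r := fun u v => W u v ∨ (¬ W p u ∧ ¬ W p v)
      iseqv :=
        { refl := fun u => Or.inl (W.refl u)
          symm := by
            rintro u v (h | ⟨h1, h2⟩)
            · exact Or.inl (W.symm h)
            · exact Or.inr ⟨h2, h1⟩
          trans := by
            rintro u v w (h | ⟨h1, h2⟩) (h' | ⟨h1', h2'⟩)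
            · exact Or.inl (W.trans h h')
            · exact Or.inr ⟨fun h3 => h1' (W.trans h3 h), h2'⟩
            · exact Or.inr ⟨h1, fun h3 => h2 (W.trans h3 (W.symm h'))⟩
            · exact Or.inr ⟨h1, h2'⟩ } }
  have hZ : U W x T r ≤ Z := by
    refine U_le (fun {u v} h => Or.inl h) (fun c hc _ => ?_) (fun c hc _ => ?_)
    · exact ⟨Or.inr ⟨hp c (hT hc) 0, hp c (hT hc) 1⟩, Or.inr ⟨hp c (hT hc) 2, hp c (hT hc) 3⟩⟩
    · exact ⟨Or.inr ⟨hp c (hT hc) 0, hp c (hT hc) 2⟩, Or.inr ⟨hp c (hT hc) 1, hp c (hT hc) 3⟩⟩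
  rcases hZ h with h | ⟨h1, -⟩
  · exact h
  · exact absurd (W.refl p) h1

/-- The classes without labels of `S` are the same before and after smoothing `T`. -/
private theorem noLab_card (hT : T ⊆ S) (r : Finset ι) :
    Nat.card {q : Quotient W // ∀ c ∈ S, ∀ k : Fin 4, (Quotient.mk W (x c k)) ≠ q} =
      Nat.card {q : Quotient (U W x T r) //
        ∀ c ∈ S, ∀ k : Fin 4, (Quotient.mk (U W x T r) (x c k)) ≠ q} := by
  have hle : W ≤ U W x T r := le_U
  -- representatives
  have hrep : ∀ {V : Setoid Pt} {p : Pt},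
      (∀ c ∈ S, ∀ k : Fin 4, (Quotient.mk V (x c k)) ≠ Quotient.mk V p) ↔
        ∀ c ∈ S, ∀ k : Fin 4, ¬ V p (x c k) := by
    intro V p
    constructor
    · intro h c hc k hV
      exact h c hc k (Quotient.sound (V.symm hV))
    · intro h c hc k hq
      exact h c hc k (V.symm (Quotient.exact hq))
  let π : Quotient W → Quotient (U W x T r) := Quotient.map' id (fun _ _ h => hle h)
  have hπ : ∀ p : Pt, π (Quotient.mk W p) = Quotient.mk (U W x T r) p := fun p => rfl
  let F : {q : Quotient W // ∀ c ∈ S, ∀ k : Fin 4, (Quotient.mk W (x c k)) ≠ q} →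
      {q : Quotient (U W x T r) // ∀ c ∈ S, ∀ k : Fin 4, (Quotient.mk (U W x T r) (x c k)) ≠ q} :=
    fun q => ⟨π q.1, by
      obtain ⟨q, hq⟩ := q
      induction q using Quotient.inductionOn with
      | h p =>
        have hp := hrep.1 hq
        change ∀ c ∈ S, ∀ k : Fin 4, (Quotient.mk (U W x T r) (x c k)) ≠ Quotient.mk (U W x T r) p
        exact hrep.2 fun c hc k h => hp c hc k (noLab_iff hT r hp h)⟩
  refine Nat.card_congr (Equiv.ofBijective F ⟨?_, ?_⟩)
  · rintro ⟨q, hq⟩ ⟨q', hq'⟩ h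
    induction q using Quotient.inductionOn with
    | h p =>
      induction q' using Quotient.inductionOn with
      | h p' =>
        have h1 : Quotient.mk (U W x T r) p = Quotient.mk (U W x T r) p' := congrArg Subtype.val h
        exact Subtype.ext (Quotient.sound (noLab_iff hT r (hrep.1 hq) (Quotient.exact h1)))
  · rintro ⟨q, hq⟩
    induction q using Quotient.inductionOn with
    | h p =>
      refine ⟨⟨Quotient.mk W p, hrep.2 fun c hc k h => hrep.1 hq c hc k (hle h)⟩, ?_⟩
      exact Subtype.ext (hπ p)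

theorem par_rem0 [Finite Pt] (hL : Legit W x S) (hT : T ⊆ S) (r : Finset ι)
    (H : ∀ c ∈ T, ∀ k : Fin 4, ∃ c' ∈ S \ T, ∃ k' : Fin 4, U W x T r (x c k) (x c' k')) :
    Nat.card (Quotient (U W x T r)) + 2 * T.card = Nat.card (Quotient W) := by
  have h1 := card_legit hL
  have h2 := card_legit (legit_sdiff hL hT r)
  have h3 := noLab_card (W := W) (x := x) hT r
  have h4 : Nat.card {q : Quotient (U W x T r) //
        ∀ c ∈ S, ∀ k : Fin 4, (Quotient.mk (U W x T r) (x c k)) ≠ q} =
      Nat.card {q : Quotient (U W x T r) //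
        ∀ c ∈ S \ T, ∀ k : Fin 4, (Quotient.mk (U W x T r) (x c k)) ≠ q} := by
    refine Nat.card_congr (Equiv.subtypeEquivRight fun q => ⟨fun h c hc k => ?_, fun h c hc k => ?_⟩)
    · exact h c (Finset.mem_sdiff.1 hc).1 k
    · by_cases hcT : c ∈ T
      · obtain ⟨c', hc', k', hU⟩ := H c hcT k
        rw [Quotient.sound hU]
        exact h c' hc' k'
      · exact h c (Finset.mem_sdiff.2 ⟨hc, hcT⟩) k
  have h5 := Finset.card_sdiff_add_card_eq_card hT
  omega

theorem par_rem1 [Finite Pt] (hL : Legit W x S) (hT : T ⊆ S) (r : Finset ι)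
    (C : Set (ι × Fin 4)) (l0 : ι × Fin 4) (h0 : l0 ∈ C) (hCT : ∀ l ∈ C, l.1 ∈ T)
    (hCW : ∀ l ∈ C, ∀ l' : ι × Fin 4, l'.1 ∈ S → W (x l.1 l.2) (x l'.1 l'.2) → l' ∈ C)
    (hCs : ∀ l ∈ C, sp r l ∈ C)
    (hK : ∀ l ∈ C, U W x T r (x l.1 l.2) (x l0.1 l0.2))
    (hO : ∀ c ∈ T, ∀ k : Fin 4, (c, k) ∉ C →
      ∃ c' ∈ S \ T, ∃ k' : Fin 4, U W x T r (x c k) (x c' k')) :
    Nat.card (Quotient (U W x T r)) + 2 * T.card = Nat.card (Quotient W) + 1 := by
  classical
  have h1 := card_legit hL
  have h2 := card_legit (legit_sdiff hL hT r)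
  have h3 := noLab_card (W := W) (x := x) hT r
  -- the points connected to `C`
  let K : Set Pt := {p | ∃ l ∈ C, W (x l.1 l.2) p}
  have hKl : ∀ c ∈ S, ∀ k : Fin 4, x c k ∈ K ↔ (c, k) ∈ C := by
    intro c hc k
    constructor
    · rintro ⟨l, hl, hW⟩
      exact hCW l hl (c, k) hc hW
    · intro h
      exact ⟨(c, k), h, W.refl _⟩
  let Z : Setoid Pt :=
    { r := fun u v => (u ∈ K ↔ v ∈ K)
      iseqv :=
        { refl := fun u => Iff.rfl
          symm := fun h => h.symm
          trans := fun h h' => h.trans h' } }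
  have hZ : U W x T r ≤ Z := by
    refine U_le ?_ (fun c hc hr => ?_) (fun c hc hr => ?_)
    · intro u v h
      change (u ∈ K ↔ v ∈ K)
      constructor
      · rintro ⟨l, hl, hW⟩
        exact ⟨l, hl, W.trans hW h⟩
      · rintro ⟨l, hl, hW⟩
        exact ⟨l, hl, W.trans hW (W.symm h)⟩
    · have hs : ∀ k : Fin 4, (c, k) ∈ C → (c, ![1, 0, 3, 2] k) ∈ C := by
        intro k hk
        have := hCs _ hk
        rwa [sp, if_neg hr] at this
      constructor
      · change (x c 0 ∈ K ↔ x c 1 ∈ K)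
        rw [hKl c (hT hc), hKl c (hT hc)]
        exact ⟨fun h => hs 0 h, fun h => hs 1 h⟩
      · change (x c 2 ∈ K ↔ x c 3 ∈ K)
        rw [hKl c (hT hc), hKl c (hT hc)]
        exact ⟨fun h => hs 2 h, fun h => hs 3 h⟩
    · have hs : ∀ k : Fin 4, (c, k) ∈ C → (c, ![2, 3, 0, 1] k) ∈ C := by
        intro k hk
        have := hCs _ hk
        rwa [sp, if_pos hr] at this
      constructor
      · change (x c 0 ∈ K ↔ x c 2 ∈ K)
        rw [hKl c (hT hc), hKl c (hT hc)]
        exact ⟨fun h => hs 0 h, fun h => hs 2 h⟩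
      · change (x c 1 ∈ K ↔ x c 3 ∈ K)
        rw [hKl c (hT hc), hKl c (hT hc)]
        exact ⟨fun h => hs 1 h, fun h => hs 3 h⟩
  let q0 : Quotient (U W x T r) := Quotient.mk (U W x T r) (x l0.1 l0.2)
  have hq0 : ∀ c ∈ S \ T, ∀ k : Fin 4, (Quotient.mk (U W x T r) (x c k)) ≠ q0 := by
    intro c hc k hq
    have h4 : (x c k ∈ K ↔ x l0.1 l0.2 ∈ K) := hZ (Quotient.exact hq)
    rw [hKl c (Finset.mem_sdiff.1 hc).1] at h4
    have h5 : (c, k) ∈ C := h4.2 ⟨l0, h0, W.refl _⟩
    exact (Finset.mem_sdiff.1 hc).2 (hCT _ h5)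
  have hq0' : ¬ ∀ c ∈ S, ∀ k : Fin 4, (Quotient.mk (U W x T r) (x c k)) ≠ q0 := fun h =>
    h l0.1 (hT (hCT _ h0)) l0.2 rfl
  let _ := Fintype.ofFinite (Quotient (U W x T r))
  have h4 : Nat.card {q : Quotient (U W x T r) //
        ∀ c ∈ S \ T, ∀ k : Fin 4, (Quotient.mk (U W x T r) (x c k)) ≠ q} =
      Nat.card {q : Quotient (U W x T r) //
        ∀ c ∈ S, ∀ k : Fin 4, (Quotient.mk (U W x T r) (x c k)) ≠ q} + 1 := by
    rw [Nat.card_eq_fintype_card, Nat.card_eq_fintype_card, Fintype.card_subtype,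
      Fintype.card_subtype]
    have h6 : (Finset.univ.filter (fun q : Quotient (U W x T r) =>
        ∀ c ∈ S \ T, ∀ k : Fin 4, (Quotient.mk (U W x T r) (x c k)) ≠ q)) =
        insert q0 (Finset.univ.filter (fun q : Quotient (U W x T r) =>
        ∀ c ∈ S, ∀ k : Fin 4, (Quotient.mk (U W x T r) (x c k)) ≠ q)) := by
      ext q
      simp only [Finset.mem_filter, Finset.mem_univ, true_and, Finset.mem_insert]
      constructor
      · intro h
        by_cases hq : ∀ c ∈ S, ∀ k : Fin 4, (Quotient.mk (U W x T r) (x c k)) ≠ q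
        · exact Or.inr hq
        · left
          push Not at hq
          obtain ⟨c, hc, k, rfl⟩ := hq
          have hcT : c ∈ T := by
            by_contra hcT
            exact h c (Finset.mem_sdiff.2 ⟨hc, hcT⟩) k rfl
          by_cases hkC : (c, k) ∈ C
          · exact Quotient.sound (hK _ hkC)
          · obtain ⟨c', hc', k', hU⟩ := hO c hcT k hkC
            exact absurd (Quotient.sound (Setoid.symm' _ hU)) (h c' hc' k')
      · rintro (rfl | h)
        · exact hq0
        · exact fun c hc k => h c (Finset.mem_sdiff.1 hc).1 k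
    rw [h6, Finset.card_insert_of_notMem]
    simp only [Finset.mem_filter, Finset.mem_univ, true_and]
    exact hq0'
  have h5 := Finset.card_sdiff_add_card_eq_card hT
  omega

end Pool.HPS
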