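import Pool.Agent.HPS.DefsC
import Pool.Agent.HPS.Rem
import Pool.Agent.HPS.ParG

/-!
# Module HPS-Thr1: the environment after the removal of the last two strands of a closed half twist

Let `V = Wb m b P W`, `u = m`, `v = m + 1`.  Smoothings: `{u, v}`: 1; for `w < b`: `{w,u}`: 1, `{w,v}`: 0; for `b ≤ w < m`: `{w,u}`: 0,
`{w,v}`: 1.  `thr1`: the strand `w` passes through; `cyc1`, `leg1`: the remaining strands form a legitimate closed half
twist; `par1`: the number of classes (one closed loop is split off).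
-/

set_option autoImplicit false

open Finset MvPolynomial

namespace Pool.HPS

variable {Pt : Type} {W : Setoid Pt} {P : ℕ → ℕ → Bool → Pt} {m b : ℕ}

private lemma mem_fl1 {m i j : ℕ} : (i, j) ∈ fl m ↔ i < j ∧ j < m := by
  simp only [fl, Finset.mem_filter, Finset.mem_product, Finset.mem_range]
  omega

private lemma mem_Tall1 {m i j : ℕ} :
    (i, j) ∈ Tall (m + 2) m ↔ i < j ∧ (j = m ∨ j = m + 1) := by
  simp only [Tall, Finset.mem_filter, mem_fl1]
  omega

private lemma mem_on1 {u lo hi i j : ℕ} (hu : hi ≤ u) :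
    (i, j) ∈ on u lo hi ↔ lo ≤ i ∧ i < hi ∧ j = u := by
  simp only [on, Finset.mem_image, Finset.mem_Ico]
  constructor
  · rintro ⟨w, ⟨h1, h2⟩, h3⟩
    rw [op, if_pos (by omega), Prod.mk.injEq] at h3
    omega
  · rintro ⟨h1, h2, rfl⟩
    exact ⟨i, ⟨h1, h2⟩, by rw [op, if_pos (by omega)]⟩

private lemma mem_rb {m b i j : ℕ} (hb : b ≤ m) :
    (i, j) ∈ rb m b ↔ (i = m ∧ j = m + 1) ∨ (i < b ∧ j = m) ∨ (b ≤ i ∧ i < m ∧ j = m + 1) := by
  rw [rb, Finset.mem_insert, Finset.mem_union, mem_on1 hb, mem_on1 (Nat.le_succ m), Prod.mk.injEq]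
  omega

/-- The smoothing relations. -/
private structure Sm (m b : ℕ) (P : ℕ → ℕ → Bool → Pt) (V : Setoid Pt) : Prop where
  k0 : V (P m (m + 1) false) (P (m + 1) m false)
  k1 : V (P (m + 1) m true) (P m (m + 1) true)
  lu0 : ∀ w, w < b → V (P w m false) (P m w false)
  lu1 : ∀ w, w < b → V (P m w true) (P w m true)
  lv0 : ∀ w, w < b → V (P w (m + 1) false) (P (m + 1) w true)
  lv1 : ∀ w, w < b → V (P (m + 1) w false) (P w (m + 1) true)
  hu0 : ∀ w, b ≤ w → w < m → V (P w m false) (P m w true)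
  hu1 : ∀ w, b ≤ w → w < m → V (P m w false) (P w m true)
  hv0 : ∀ w, b ≤ w → w < m → V (P w (m + 1) false) (P (m + 1) w false)
  hv1 : ∀ w, b ≤ w → w < m → V (P (m + 1) w true) (P w (m + 1) true)

private lemma sm (hb : b ≤ m) : Sm m b P (Wb m b P W) := by
  have h1 := U_rel1 (W := W) (x := qd P) (S := Tall (m + 2) m) (r := rb m b) (c := (m, m + 1))
    (mem_Tall1.2 (by omega)) ((mem_rb hb).2 (by omega))
  refine ⟨h1.1, h1.2, ?_, ?_, ?_, ?_, ?_, ?_, ?_, ?_⟩
  · intro w hw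
    exact (U_rel1 (W := W) (x := qd P) (S := Tall (m + 2) m) (r := rb m b) (c := (w, m))
      (mem_Tall1.2 (by omega)) ((mem_rb hb).2 (by omega))).1
  · intro w hw
    exact (U_rel1 (W := W) (x := qd P) (S := Tall (m + 2) m) (r := rb m b) (c := (w, m))
      (mem_Tall1.2 (by omega)) ((mem_rb hb).2 (by omega))).2
  · intro w hw
    exact (U_rel0 (W := W) (x := qd P) (S := Tall (m + 2) m) (r := rb m b) (c := (w, m + 1))
      (mem_Tall1.2 (by omega)) (fun h => by rw [mem_rb hb] at h; omega)).1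
  · intro w hw
    exact (U_rel0 (W := W) (x := qd P) (S := Tall (m + 2) m) (r := rb m b) (c := (w, m + 1))
      (mem_Tall1.2 (by omega)) (fun h => by rw [mem_rb hb] at h; omega)).2
  · intro w hw hwm
    exact (U_rel0 (W := W) (x := qd P) (S := Tall (m + 2) m) (r := rb m b) (c := (w, m))
      (mem_Tall1.2 (by omega)) (fun h => by rw [mem_rb hb] at h; omega)).1
  · intro w hw hwm
    exact (U_rel0 (W := W) (x := qd P) (S := Tall (m + 2) m) (r := rb m b) (c := (w, m))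
      (mem_Tall1.2 (by omega)) (fun h => by rw [mem_rb hb] at h; omega)).2
  · intro w hw hwm
    exact (U_rel1 (W := W) (x := qd P) (S := Tall (m + 2) m) (r := rb m b) (c := (w, m + 1))
      (mem_Tall1.2 (by omega)) ((mem_rb hb).2 (by omega))).1
  · intro w hw hwm
    exact (U_rel1 (W := W) (x := qd P) (S := Tall (m + 2) m) (r := rb m b) (c := (w, m + 1))
      (mem_Tall1.2 (by omega)) ((mem_rb hb).2 (by omega))).2

/-- The wires used. -/
private structure Wi (m : ℕ) (P : ℕ → ℕ → Bool → Pt) (V : Setoid Pt) : Prop where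
  cr : ∀ w, w < m → V (P w m true) (P w (m + 1) false)
  su : ∀ w, w + 1 < m → V (P m w true) (P m (w + 1) false)
  sv : ∀ w, w + 1 < m + 1 → V (P (m + 1) w true) (P (m + 1) (w + 1) false)
  ub : ∀ w, w + 1 = m → V (P m w true) (P m (m + 1) false)
  cu : V (P m (m + 1) true) (P m 0 false)
  cv : V (P (m + 1) m true) (P (m + 1) 0 false)
  cw : ∀ w, w < m → V (P w (m + 1) true) (P w (fst' w) false)
  en : ∀ w, w + 1 < m → V (P w (m - 1) true) (P w m false)
  eb : ∀ w, w + 2 = m → V (P (w + 1) w true) (P (w + 1) m false)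

private lemma wi (hC : Cyc (m + 2) P W) (hm : 1 ≤ m) : Wi m P W := by
  refine ⟨?_, ?_, ?_, ?_, ?_, ?_, ?_, ?_, ?_⟩
  · intro w hw
    exact hC.a w m (by omega) (by omega) (by omega) (by omega)
  · intro w hw
    exact hC.a m w (by omega) (by omega) (by omega) (by omega)
  · intro w hw
    exact hC.a (m + 1) w (by omega) (by omega) (by omega) (by omega)
  · rintro w rfl
    exact hC.b w (by omega)
  · have h := hC.c m (by omega)
    rw [lst, if_neg (by omega), fst', if_neg (by omega)] at h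
    exact h
  · have h := hC.c (m + 1) (by omega)
    rw [lst, if_pos rfl, fst', if_neg (by omega)] at h
    exact h
  · intro w hw
    have h := hC.c w (by omega)
    rw [lst, if_neg (by omega)] at h
    exact h
  · intro w hw
    have h := hC.a w (m - 1) (by omega) (by omega) (by omega) (by omega)
    rw [Nat.sub_add_cancel hm] at h
    exact h
  · rintro w rfl
    exact hC.b w (by omega)

private lemma wi_mono {V V' : Setoid Pt} (h : Wi m P V) (hle : V ≤ V') : Wi m P V' :=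
  ⟨fun w hw => hle (h.cr w hw), fun w hw => hle (h.su w hw), fun w hw => hle (h.sv w hw),
    fun w hw => hle (h.ub w hw), hle h.cu, hle h.cv, fun w hw => hle (h.cw w hw),
    fun w hw => hle (h.en w hw), fun w hw => hle (h.eb w hw)⟩

/-- Start tip: before the crossing with `w ≤ b`. -/
private lemma tipA {V : Setoid Pt} (hS : Sm m b P V) (hW : Wi m P V) :
    ∀ w, w ≤ b → w < m → V (P m w false) (P (m + 1) w false) := by
  intro w
  induction w with
  | zero =>
    intro _ _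
    exact V.trans (V.symm hW.cu) (V.trans (V.symm hS.k1) hW.cv)
  | succ w ih =>
    intro h1 h2
    have h3 : V (P m w true) (P (m + 1) w true) :=
      V.trans (hS.lu1 w (by omega)) (V.trans (hW.cr w (by omega)) (hS.lv0 w (by omega)))
    exact V.trans (V.symm (hW.su w h2)) (V.trans h3 (hW.sv w (by omega)))

/-- End tip: after the crossing with `w ≥ b`. -/
private lemma tipB {V : Setoid Pt} (hS : Sm m b P V) (hW : Wi m P V) :
    ∀ k w, w + k + 1 = m → b ≤ w → V (P m w true) (P (m + 1) w true) := by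
  intro k
  induction k with
  | zero =>
    intro w h1 h2
    have h3 := hW.sv w (by omega)
    have h4 := hW.ub w (by omega)
    have h5 : w + 1 = m := by omega
    rw [h5] at h3
    exact V.trans h4 (V.trans hS.k0 (V.symm h3))
  | succ k ih =>
    intro w h1 h2
    have h3 : V (P m (w + 1) false) (P (m + 1) (w + 1) false) :=
      V.trans (hS.hu1 (w + 1) (by omega) (by omega)) (V.trans (hW.cr (w + 1) (by omega))
        (hS.hv0 (w + 1) (by omega) (by omega)))
    exact V.trans (hW.su w (by omega)) (V.trans h3 (V.symm (hW.sv w (by omega))))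

theorem thr1 (hC : Cyc (m + 2) P W) (hm : 1 ≤ m) (hb : b ≤ m) (w : ℕ) (hw : w < m) :
    Wb m b P W (P w m false) (P w (m + 1) true) := by
  have hS := sm (P := P) (W := W) hb
  have hW := wi_mono (wi hC hm) (V' := Wb m b P W) le_U
  generalize Wb m b P W = V at hS hW ⊢
  rcases lt_or_ge w b with h | h
  · exact V.trans (hS.lu0 w h) (V.trans (tipA hS hW w h.le hw) (hS.lv1 w h))
  · obtain ⟨k, hk⟩ := Nat.exists_eq_add_of_lt hw
    exact V.trans (hS.hu0 w h hw) (V.trans (tipB hS hW k w hk.symm h) (hS.hv1 w h hw))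

theorem cyc1 (hC : Cyc (m + 2) P W) (hm : 2 ≤ m) (hb : b ≤ m) : Cyc m P (Wb m b P W) := by
  have h := Cyc_rem (u := m) (W' := Wb m b P W) hC le_U (by omega) hm
    (fun w hw h1 h2 => thr1 hC (by omega) hb w (by omega))
  have e : ∀ i, i < m → sk m i = i := fun i hi => if_pos hi
  have hP : ∀ i j s, i < m → j < m → skP m P i j s = P i j s := by
    intro i j s hi hj
    rw [skP, e i hi, e j hj]
  refine ⟨⟨?_, ?_⟩, ?_⟩
  · intro i j h1 h2 h3 h4
    have h5 := h.a i j h1 h2 h3 h4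
    rw [hP _ _ _ h1 (by omega), hP _ _ _ h1 h2] at h5
    exact h5
  · intro i h1
    have h5 := h.b i h1
    rw [hP _ _ _ (by omega) (by omega), hP _ _ _ (by omega) h1] at h5
    exact h5
  · intro i h1
    have h5 := h.c i h1
    have h6 : lst m i < m := by
      unfold lst
      split_ifs <;> omega
    have h7 : fst' i < m := by
      unfold fst'
      split_ifs <;> omega
    rw [hP _ _ _ h1 h6, hP _ _ _ h1 h7] at h5
    exact h5

private lemma image_skf (m : ℕ) : (fl m).image (skf m) = fl m := by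
  ext ⟨i, j⟩
  rw [Finset.mem_image]
  constructor
  · rintro ⟨⟨a, c⟩, h1, h2⟩
    rw [mem_fl1] at h1
    have h3 : sk m a = i := congrArg Prod.fst h2
    have h4 : sk m c = j := congrArg Prod.snd h2
    rw [sk, if_pos (by omega)] at h3 h4
    rw [mem_fl1]
    omega
  · intro h1
    refine ⟨(i, j), h1, ?_⟩
    rw [mem_fl1] at h1
    rw [skf, sk, sk, if_pos (by omega), if_pos (by omega)]

theorem leg1 (hL : Legit W (qd P) (fl (m + 2))) (b : ℕ) : Legit (Wb m b P W) (qd P) (fl m) := by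
  obtain ⟨h1, h2⟩ := fl_split (m := m) (u := m) (by omega)
  rw [image_skf] at h1 h2
  rw [h1] at hL
  exact legit_U hL h2 _

/-- Partners are unique. -/
private lemma partner {ι : Type} {x : ι → Fin 4 → Pt} {S : Finset ι} (hL : Legit W x S)
    (l l1 : ι × Fin 4) (hl : l.1 ∈ S) (hl1 : l1.1 ∈ S) (hne : l1 ≠ l)
    (h1 : W (x l.1 l.2) (x l1.1 l1.2)) (l' : ι × Fin 4) (hl' : l'.1 ∈ S)
    (h' : W (x l.1 l.2) (x l'.1 l'.2)) : l' = l ∨ l' = l1 := by
  by_cases h : l' = l
  · exact Or.inl h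
  · right
    obtain ⟨l2, -, -, -, hu⟩ := hL l hl
    rw [hu l' hl' h h', hu l1 hl1 hne h1]

/-- The closed loop. -/
private def CL (m w0 : ℕ) : Set ((ℕ × ℕ) × Fin 4) :=
  {l | l = ((w0, m), 1) ∨ l = ((w0, m), 3) ∨ l = ((w0, m + 1), 0) ∨ l = ((w0, m + 1), 1) ∨
    (w0 + 1 < m ∧ (l = ((w0 + 1, m), 2) ∨ l = ((w0 + 1, m), 3) ∨ l = ((w0 + 1, m + 1), 0) ∨
      l = ((w0 + 1, m + 1), 2))) ∨
    (w0 + 1 = m ∧ (l = ((m, m + 1), 0) ∨ l = ((m, m + 1), 2)))}

private lemma CL_T {w0 : ℕ} (hb : w0 + 1 ≤ m) : ∀ l ∈ CL m w0, l.1 ∈ Tall (m + 2) m := by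
  rintro l (rfl | rfl | rfl | rfl | ⟨h, rfl | rfl | rfl | rfl⟩ | ⟨h, rfl | rfl⟩) <;>
    exact mem_Tall1.2 (by omega)

private lemma CL_W {w0 : ℕ} (hb : w0 + 1 ≤ m) (hW : Wi m P W) : ∀ l ∈ CL m w0, ∃ l1 ∈ CL m w0,
    l1 ≠ l ∧ W (qd P l.1 l.2) (qd P l1.1 l1.2) := by
  have hne : ∀ (c c' : ℕ × ℕ) (k k' : Fin 4), k ≠ k' → ((c, k) : (ℕ × ℕ) × Fin 4) ≠ (c', k') :=
    fun c c' k k' h e => h (congrArg Prod.snd e)
  have hne2 : ∀ (c c' : ℕ × ℕ) (k k' : Fin 4), c.2 ≠ c'.2 → ((c, k) : (ℕ × ℕ) × Fin 4) ≠ (c', k') :=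
    fun c c' k k' h e => h (congrArg (fun z : (ℕ × ℕ) × Fin 4 => z.1.2) e)
  rintro l (rfl | rfl | rfl | rfl | ⟨h, rfl | rfl | rfl | rfl⟩ | ⟨h, rfl | rfl⟩)
  · rcases lt_or_eq_of_le hb with h | h
    · exact ⟨((w0 + 1, m), 2), Or.inr (Or.inr (Or.inr (Or.inr (Or.inl ⟨h, Or.inl rfl⟩)))),
        hne _ _ _ _ (by decide), hW.su w0 h⟩
    · exact ⟨((m, m + 1), 0), Or.inr (Or.inr (Or.inr (Or.inr (Or.inr ⟨h, Or.inl rfl⟩)))),
        hne _ _ _ _ (by decide), hW.ub w0 h⟩
  · exact ⟨((w0, m + 1), 0), Or.inr (Or.inr (Or.inl rfl)), hne _ _ _ _ (by decide),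
      hW.cr w0 (by omega)⟩
  · exact ⟨((w0, m), 3), Or.inr (Or.inl rfl), hne _ _ _ _ (by decide),
      W.symm (hW.cr w0 (by omega))⟩
  · rcases lt_or_eq_of_le hb with h | h
    · exact ⟨((w0 + 1, m + 1), 2),
        Or.inr (Or.inr (Or.inr (Or.inr (Or.inl ⟨h, Or.inr (Or.inr (Or.inr rfl))⟩)))),
        hne _ _ _ _ (by decide), hW.sv w0 (by omega)⟩
    · refine ⟨((m, m + 1), 2), Or.inr (Or.inr (Or.inr (Or.inr (Or.inr ⟨h, Or.inr rfl⟩)))),
        hne _ _ _ _ (by decide), ?_⟩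
      have h1 := hW.sv w0 (by omega)
      rw [h] at h1
      exact h1
  · exact ⟨((w0, m), 1), Or.inl rfl, hne _ _ _ _ (by decide), W.symm (hW.su w0 h)⟩
  · exact ⟨((w0 + 1, m + 1), 0),
      Or.inr (Or.inr (Or.inr (Or.inr (Or.inl ⟨h, Or.inr (Or.inr (Or.inl rfl))⟩)))),
      hne _ _ _ _ (by decide), hW.cr (w0 + 1) h⟩
  · exact ⟨((w0 + 1, m), 3),
      Or.inr (Or.inr (Or.inr (Or.inr (Or.inl ⟨h, Or.inr (Or.inl rfl)⟩)))),
      hne _ _ _ _ (by decide), W.symm (hW.cr (w0 + 1) h)⟩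
  · exact ⟨((w0, m + 1), 1), Or.inr (Or.inr (Or.inr (Or.inl rfl))), hne _ _ _ _ (by decide),
      W.symm (hW.sv w0 (by omega))⟩
  · exact ⟨((w0, m), 1), Or.inl rfl, hne _ _ _ _ (by decide), W.symm (hW.ub w0 h)⟩
  · refine ⟨((w0, m + 1), 1), Or.inr (Or.inr (Or.inr (Or.inl rfl))), hne _ _ _ _ (by decide), ?_⟩
    have h1 := hW.sv w0 (by omega)
    rw [h] at h1
    exact W.symm h1

private lemma CL_sp {w0 : ℕ} (hb : w0 + 1 ≤ m) :
    ∀ l ∈ CL m w0, sp (rb m (w0 + 1)) l ∈ CL m w0 := by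
  rintro l (rfl | rfl | rfl | rfl | ⟨h, rfl | rfl | rfl | rfl⟩ | ⟨h, rfl | rfl⟩)
  · rw [sp, if_pos ((mem_rb hb).2 (by omega))]
    exact Or.inr (Or.inl rfl)
  · rw [sp, if_pos ((mem_rb hb).2 (by omega))]
    exact Or.inl rfl
  · rw [sp, if_neg (fun h => by rw [mem_rb hb] at h; omega)]
    exact Or.inr (Or.inr (Or.inr (Or.inl rfl)))
  · rw [sp, if_neg (fun h => by rw [mem_rb hb] at h; omega)]
    exact Or.inr (Or.inr (Or.inl rfl))
  · rw [sp, if_neg (fun h => by rw [mem_rb hb] at h; omega)]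
    exact Or.inr (Or.inr (Or.inr (Or.inr (Or.inl ⟨h, Or.inr (Or.inl rfl)⟩))))
  · rw [sp, if_neg (fun h => by rw [mem_rb hb] at h; omega)]
    exact Or.inr (Or.inr (Or.inr (Or.inr (Or.inl ⟨h, Or.inl rfl⟩))))
  · rw [sp, if_pos ((mem_rb hb).2 (by omega))]
    exact Or.inr (Or.inr (Or.inr (Or.inr (Or.inl ⟨h, Or.inr (Or.inr (Or.inr rfl))⟩))))
  · rw [sp, if_pos ((mem_rb hb).2 (by omega))]
    exact Or.inr (Or.inr (Or.inr (Or.inr (Or.inl ⟨h, Or.inr (Or.inr (Or.inl rfl))⟩))))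
  · rw [sp, if_pos ((mem_rb hb).2 (by omega))]
    exact Or.inr (Or.inr (Or.inr (Or.inr (Or.inr ⟨h, Or.inr rfl⟩))))
  · rw [sp, if_pos ((mem_rb hb).2 (by omega))]
    exact Or.inr (Or.inr (Or.inr (Or.inr (Or.inr ⟨h, Or.inl rfl⟩))))

private lemma CL_K {w0 : ℕ} {V : Setoid Pt} (hb : w0 + 1 ≤ m) (hS : Sm m (w0 + 1) P V)
    (hW : Wi m P V) : ∀ l ∈ CL m w0, V (qd P l.1 l.2) (P m w0 true) := by
  have h1 : V (P w0 m true) (P m w0 true) := V.symm (hS.lu1 w0 (by omega))
  have h2 : V (P w0 (m + 1) false) (P m w0 true) := V.trans (V.symm (hW.cr w0 (by omega))) h1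
  have h3 : V (P (m + 1) w0 true) (P m w0 true) := V.trans (V.symm (hS.lv0 w0 (by omega))) h2
  rintro l (rfl | rfl | rfl | rfl | ⟨h, h'⟩ | ⟨h, h'⟩)
  · exact V.refl _
  · exact h1
  · exact h2
  · exact h3
  · have h4 : V (P m (w0 + 1) false) (P m w0 true) := V.symm (hW.su w0 h)
    have h5 : V (P (w0 + 1) m true) (P m w0 true) := V.trans (V.symm (hS.hu1 (w0 + 1) le_rfl h)) h4
    have h6 : V (P (w0 + 1) (m + 1) false) (P m w0 true) :=
      V.trans (V.symm (hW.cr (w0 + 1) h)) h5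
    have h7 : V (P (m + 1) (w0 + 1) false) (P m w0 true) :=
      V.trans (V.symm (hS.hv0 (w0 + 1) le_rfl h)) h6
    rcases h' with rfl | rfl | rfl | rfl
    · exact h4
    · exact h5
    · exact h6
    · exact h7
  · have h4 : V (P m (m + 1) false) (P m w0 true) := V.symm (hW.ub w0 h)
    rcases h' with rfl | rfl
    · exact h4
    · exact V.trans (V.symm hS.k0) h4

private lemma fin4 : ∀ k : Fin 4, k = 0 ∨ k = 1 ∨ k = 2 ∨ k = 3 := by
  decide

private lemma CL_O {w0 : ℕ} {V : Setoid Pt} {Q : Pt → Prop} (hb : w0 + 1 ≤ m) (hm : 2 ≤ m)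
    (hS : Sm m (w0 + 1) P V) (hW : Wi m P V) (hQ : ∀ p q, V p q → Q q → Q p)
    (hQ0 : ∀ i j s, i < m → j < m → i ≠ j → Q (P i j s)) :
    ∀ c ∈ Tall (m + 2) m, ∀ k : Fin 4, (c, k) ∉ CL m w0 → Q (qd P c k) := by
  have a1 : ∀ w, w < m → Q (P w m false) := by
    intro w hw
    rcases Nat.lt_or_ge (w + 1) m with h | h
    · exact hQ _ _ (V.symm (hW.en w h)) (hQ0 _ _ _ hw (by omega) (by omega))
    · obtain ⟨w', rfl⟩ : ∃ w', w = w' + 1 := ⟨w - 1, by omega⟩
      exact hQ _ _ (V.symm (hW.eb w' (by omega))) (hQ0 _ _ _ hw (by omega) (by omega))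
  have a2 : ∀ w, w < m → Q (P w (m + 1) true) := by
    intro w hw
    have h7 : fst' w < m ∧ w ≠ fst' w := by
      unfold fst'
      split_ifs <;> omega
    exact hQ _ _ (hW.cw w hw) (hQ0 _ _ _ hw h7.1 h7.2)
  have b1 : ∀ w, w < w0 + 1 → Q (P m w false) := fun w hw =>
    hQ _ _ (V.symm (hS.lu0 w hw)) (a1 w (by omega))
  have b2 : ∀ w, w < w0 + 1 → Q (P (m + 1) w false) := fun w hw =>
    hQ _ _ (hS.lv1 w hw) (a2 w (by omega))
  have b3 : ∀ w, w < w0 → Q (P m w true) := fun w hw =>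
    hQ _ _ (hW.su w (by omega)) (b1 (w + 1) (by omega))
  have b4 : ∀ w, w < w0 → Q (P (m + 1) w true) := fun w hw =>
    hQ _ _ (hW.sv w (by omega)) (b2 (w + 1) (by omega))
  have b5 : ∀ w, w < w0 → Q (P w m true) := fun w hw =>
    hQ _ _ (V.symm (hS.lu1 w (by omega))) (b3 w hw)
  have b6 : ∀ w, w < w0 → Q (P w (m + 1) false) := fun w hw =>
    hQ _ _ (hS.lv0 w (by omega)) (b4 w hw)
  have c1 : ∀ w, w0 + 1 ≤ w → w < m → Q (P m w true) := fun w h1 h2 =>
    hQ _ _ (V.symm (hS.hu0 w h1 h2)) (a1 w h2)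
  have c2 : ∀ w, w0 + 1 ≤ w → w < m → Q (P (m + 1) w true) := fun w h1 h2 =>
    hQ _ _ (hS.hv1 w h1 h2) (a2 w h2)
  have c3 : ∀ w, w0 + 1 < w → w < m → Q (P m w false) := by
    intro w h1 h2
    obtain ⟨w', rfl⟩ : ∃ w', w = w' + 1 := ⟨w - 1, by omega⟩
    exact hQ _ _ (V.symm (hW.su w' h2)) (c1 w' (by omega) (by omega))
  have c4 : ∀ w, w0 + 1 < w → w < m → Q (P (m + 1) w false) := by
    intro w h1 h2
    obtain ⟨w', rfl⟩ : ∃ w', w = w' + 1 := ⟨w - 1, by omega⟩
    exact hQ _ _ (V.symm (hW.sv w' (by omega))) (c2 w' (by omega) (by omega))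
  have c5 : ∀ w, w0 + 1 < w → w < m → Q (P w m true) := fun w h1 h2 =>
    hQ _ _ (V.symm (hS.hu1 w h1.le h2)) (c3 w h1 h2)
  have c6 : ∀ w, w0 + 1 < w → w < m → Q (P w (m + 1) false) := fun w h1 h2 =>
    hQ _ _ (hS.hv0 w h1.le h2) (c4 w h1 h2)
  rintro ⟨i, j⟩ hc k hk
  obtain ⟨hij, rfl | rfl⟩ := mem_Tall1.1 hc
  · -- the crossings with `u`
    have e := fin4 k
    rcases e with rfl | rfl | rfl | rfl
    · exact a1 i hij
    · change Q (P j i true)
      rcases lt_trichotomy i w0 with h | h | h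
      · exact b3 i h
      · exact absurd (Or.inl (by rw [h])) hk
      · exact c1 i h hij
    · change Q (P j i false)
      rcases lt_trichotomy i (w0 + 1) with h | h | h
      · exact b1 i h
      · exact absurd (Or.inr (Or.inr (Or.inr (Or.inr (Or.inl ⟨by omega, Or.inl (by rw [h])⟩))))) hk
      · exact c3 i h hij
    · change Q (P i j true)
      rcases lt_trichotomy i (w0 + 1) with h | h | h
      · rcases Nat.lt_or_ge i w0 with h' | h'
        · exact b5 i h'
        · have : i = w0 := by omega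
          exact absurd (Or.inr (Or.inl (by rw [this]))) hk
      · exact absurd (Or.inr (Or.inr (Or.inr (Or.inr (Or.inl
          ⟨by omega, Or.inr (Or.inl (by rw [h]))⟩))))) hk
      · exact c5 i h hij
  · -- the crossings with `v`
    have e := fin4 k
    rcases Nat.lt_or_ge i m with him | him
    · rcases e with rfl | rfl | rfl | rfl
      · change Q (P i (m + 1) false)
        rcases lt_trichotomy i (w0 + 1) with h | h | h
        · rcases Nat.lt_or_ge i w0 with h' | h'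
          · exact b6 i h'
          · have : i = w0 := by omega
            exact absurd (Or.inr (Or.inr (Or.inl (by rw [this])))) hk
        · exact absurd (Or.inr (Or.inr (Or.inr (Or.inr (Or.inl
            ⟨by omega, Or.inr (Or.inr (Or.inl (by rw [h])))⟩))))) hk
        · exact c6 i h him
      · change Q (P (m + 1) i true)
        rcases lt_trichotomy i w0 with h | h | h
        · exact b4 i h
        · exact absurd (Or.inr (Or.inr (Or.inr (Or.inl (by rw [h]))))) hk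
        · exact c2 i h him
      · change Q (P (m + 1) i false)
        rcases lt_trichotomy i (w0 + 1) with h | h | h
        · exact b2 i h
        · exact absurd (Or.inr (Or.inr (Or.inr (Or.inr (Or.inl
            ⟨by omega, Or.inr (Or.inr (Or.inr (by rw [h])))⟩))))) hk
        · exact c4 i h him
      · exact a2 i him
    · obtain rfl : i = m := by omega
      rcases e with rfl | rfl | rfl | rfl
      · change Q (P i (i + 1) false)
        rcases lt_or_eq_of_le hb with h | h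
        · exact hQ _ _ (V.symm (hW.ub (i - 1) (by omega))) (c1 (i - 1) (by omega) (by omega))
        · exact absurd (Or.inr (Or.inr (Or.inr (Or.inr (Or.inr ⟨h, Or.inl rfl⟩))))) hk
      · exact hQ _ _ hW.cv (b2 0 (by omega))
      · change Q (P (i + 1) i false)
        rcases lt_or_eq_of_le hb with h | h
        · exact hQ _ _ (V.trans (V.symm hS.k0) (V.symm (hW.ub (i - 1) (by omega))))
            (c1 (i - 1) (by omega) (by omega))
        · exact absurd (Or.inr (Or.inr (Or.inr (Or.inr (Or.inr ⟨h, Or.inr rfl⟩))))) hk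
      · exact hQ _ _ hW.cu (b1 0 (by omega))

theorem par1 [Finite Pt] (hC : Cyc (m + 2) P W) (hL : Legit W (qd P) (fl (m + 2)))
    (hm : 2 ≤ m) (hb1 : 1 ≤ b) (hb : b ≤ m) :
    Nat.card (Quotient (Wb m b P W)) + 2 * (2 * m + 1) = Nat.card (Quotient W) + 1 := by
  have hT : Tall (m + 2) m ⊆ fl (m + 2) := Finset.filter_subset _ _
  have hS := sm (P := P) (W := W) hb
  have hW0 := wi hC (by omega)
  have hW := wi_mono hW0 (V' := Wb m b P W) le_U
  obtain ⟨w0, rfl⟩ : ∃ w0, b = w0 + 1 := ⟨b - 1, by omega⟩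
  rw [← card_Tall (m := m) (u := m) (by omega)]
  refine par_rem1 hL hT (rb m (w0 + 1)) (CL m w0) ((w0, m), 1) (Or.inl rfl) (CL_T hb) ?_
    (CL_sp hb) (CL_K hb hS hW) ?_
  · intro l hl l' hl' h'
    obtain ⟨l1, hl1, hne, h1⟩ := CL_W hb hW0 l hl
    rcases partner hL l l1 (hT (CL_T hb l hl)) (hT (CL_T hb l1 hl1)) hne h1 l' hl' h' with h | h
    · rw [h]
      exact hl
    · rw [h]
      exact hl1
  · refine CL_O (Q := fun p => ∃ c' ∈ fl (m + 2) \ Tall (m + 2) m, ∃ k' : Fin 4,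
      Wb m (w0 + 1) P W p (qd P c' k')) hb hm hS hW ?_ ?_
    · rintro p q hpq ⟨c', hc', k', h⟩
      exact ⟨c', hc', k', Setoid.trans' _ hpq h⟩
    · intro i j s hi hj hij
      rcases lt_or_gt_of_ne hij with h | h
      · refine ⟨(i, j), ?_, ?_⟩
        · rw [Finset.mem_sdiff, mem_fl1, mem_Tall1]
          omega
        · cases s
          · exact ⟨0, Setoid.refl' _ _⟩
          · exact ⟨3, Setoid.refl' _ _⟩
      · refine ⟨(j, i), ?_, ?_⟩
        · rw [Finset.mem_sdiff, mem_fl1, mem_Tall1]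
          omega
        · cases s
          · exact ⟨2, Setoid.refl' _ _⟩
          · exact ⟨1, Setoid.refl' _ _⟩

end Pool.HPS
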