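import Pool.Agent.HPS.DefsC
import Pool.Agent.HPS.Rem
import Pool.Agent.HPS.ParG

/-!
# Module HPS-Thr2: the environment after the removal of two adjacent strands `j, j + 1` (`j < m`) of a closed half twist
(imports Rem, ParG, Leg; use them)

Let `V = Wrem (m+2) j P W`, `z = m + 1`, `u = j`, `v = j + 1`.  `Tall (m+2) j` are the crossings of `u`, `v`; for `w ≠ u, v`: `{w, u}` is 1-smoothed,
`{w, v}` is 0-smoothed, `{u, v}` is 0-smoothed.  So (`U_rel0`, `U_rel1`, up to the order of the labels) in `V`:
`P w u false ~ P u w false`, `P w u true ~ P u w true`, `P w v false ~ P v w true`, `P v w false ~ P w v true`, `P u v false ~ P v u true`, `P v u false ~ P u v true`.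

PLAN `thr2`, `thr2k`.  Start at `w = z`: `P u z true ~ P z u true ~ P z v false ~ P v z true` (`Lin.a` on the strand `z`).  Closing wires (`lst (m+2) u = z =
lst (m+2) v` since `v < z`): if `1 ≤ j` then `P u 0 false ~ P v 0 false`; if `j = 0` then `P 0 1 false ~ P 1 0 false` (tip of the kink).
Tip before `w` ⟹ tip after `w`: `P u w true ~ P w u true ~ P w v false ~ P v w true` uses only the wire `P w u true ~ P w v false` (`Lin.a`) - in fact the
tips after `w` hold for every `w` directly; tips before `w`: from the previous crossing (`w - 1`, or the kink, or the closing wire), by the wires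
of `u` and `v` (`Lin.a`, `Lin.b`).  Kink: tip before ⟹ all four points `P u v _`, `P v u _` related.  Finally
`P w u false ~ P u w false ~ P v w false ~ P w v true`.
`cyc2`: `Cyc_rem`.  `leg2`: `legit_U` with `fl_split`, `legit_image` (`fun c => qd P (skf j c) = qd (skP j P)` by `rfl`).
`par2`: `par_rem0` with `T = Tall (m+2) j`, `card_Tall`.  Every label of `T` is related to a label of `fl (m+2) \ T` (a point `P w w' _` with `w, w' ∉ {u, v}`):
`P w u false`: it is joined by a wire to `P w w' true` with `w'` the strand met by `w` before `u` (cyclically: `u - 1`, or `u - 2` if `w = u - 1`, or the last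
one if `u = 0` resp. `u = 1, w = 0`; it exists and is `≠ u, v` as `m ≥ 2`); hence also `P u w false, P v w false, P w v true`.  The points after `w`: `P u w true ~ P w u true ~ P w v
false ~ P v w true` are related by a wire of `u` to `P u w⁺ false` with `w⁺` the next strand met by `u`: if `w⁺ ≠ v` this is done above; if `w⁺ = v` it is
related to all kink points, and `P u v true ~ P u (j+2) false` (`j + 2 ≤ m + 1`), done above.  The kink points likewise.
-/

set_option autoImplicit false

open Finset MvPolynomial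

namespace Pool.HPS

variable {Pt : Type} {W : Setoid Pt} {P : ℕ → ℕ → Bool → Pt} {m j : ℕ}

private theorem op_eq {a b c d : ℕ} (h : op a b = op c d) :
    (a = c ∧ b = d) ∨ (a = d ∧ b = c) := by
  unfold op at h
  split_ifs at h <;> rw [Prod.mk.injEq] at h <;> omega

private theorem op_comm' {a b : ℕ} (h : a ≠ b) : op a b = op b a := by
  unfold op
  rcases Nat.lt_or_gt_of_ne h with h1 | h1
  · rw [if_pos h1, if_neg (by omega)]
  · rw [if_neg (by omega), if_pos h1]

private theorem op_mem_fl {n a b : ℕ} (h : a ≠ b) (ha : a < n) (hb : b < n) : op a b ∈ fl n := by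
  unfold op
  rw [fl, mem_filter, mem_product, mem_range, mem_range]
  split_ifs
  · exact ⟨⟨ha, hb⟩, by assumption⟩
  · exact ⟨⟨hb, ha⟩, by simp only; omega⟩

private theorem sm0 {T r : Finset (ℕ × ℕ)} {i i' : ℕ} (hT : op i i' ∈ T) (hr : op i i' ∉ r) :
    U W (qd P) T r (P i i' false) (P i' i true) := by
  have h := U_rel0 (W := W) (x := qd P) hT hr
  by_cases hi : i < i'
  · have e : op i i' = (i, i') := if_pos hi
    rw [e] at h
    exact h.1
  · have e : op i i' = (i', i) := if_neg hi
    rw [e] at h
    exact h.2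

private theorem sm1f {T r : Finset (ℕ × ℕ)} {i i' : ℕ} (hT : op i i' ∈ T) (hr : op i i' ∈ r) :
    U W (qd P) T r (P i i' false) (P i' i false) := by
  have h := U_rel1 (W := W) (x := qd P) hT hr
  by_cases hi : i < i'
  · have e : op i i' = (i, i') := if_pos hi
    rw [e] at h
    exact h.1
  · have e : op i i' = (i', i) := if_neg hi
    rw [e] at h
    exact Setoid.symm' _ h.1

private theorem sm1t {T r : Finset (ℕ × ℕ)} {i i' : ℕ} (hT : op i i' ∈ T) (hr : op i i' ∈ r) :
    U W (qd P) T r (P i i' true) (P i' i true) := by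
  have h := U_rel1 (W := W) (x := qd P) hT hr
  by_cases hi : i < i'
  · have e : op i i' = (i, i') := if_pos hi
    rw [e] at h
    exact Setoid.symm' _ h.2
  · have e : op i i' = (i', i) := if_neg hi
    rw [e] at h
    exact h.2

private theorem memT {i i' : ℕ} (h : i ≠ i') (hi : i < m + 2) (hi' : i' < m + 2)
    (hij : i = j ∨ i = j + 1 ∨ i' = j ∨ i' = j + 1) : op i i' ∈ Tall (m + 2) j := by
  rw [Tall, mem_filter]
  refine ⟨op_mem_fl h hi hi', ?_⟩
  unfold op
  split_ifs
  · exact hij
  · rcases hij with h | h | h | h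
    · exact Or.inr (Or.inr (Or.inl h))
    · exact Or.inr (Or.inr (Or.inr h))
    · exact Or.inl h
    · exact Or.inr (Or.inl h)

private theorem memR {w : ℕ} (hw : w < m + 2) (hwu : w ≠ j) (hwv : w ≠ j + 1) :
    op w j ∈ ron (m + 2) j := by
  rw [ron, mem_union, on, on, mem_image, mem_image]
  rcases Nat.lt_or_ge w j with h | h
  · exact Or.inl ⟨w, mem_Ico.2 ⟨by omega, h⟩, rfl⟩
  · exact Or.inr ⟨w, mem_Ico.2 ⟨by omega, hw⟩, rfl⟩

private theorem notR (w : ℕ) : op w (j + 1) ∉ ron (m + 2) j := by
  rw [ron, mem_union, on, on, mem_image, mem_image]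
  rintro (⟨w', h1, h2⟩ | ⟨w', h1, h2⟩)
  · rw [mem_Ico] at h1
    have := op_eq h2
    omega
  · rw [mem_Ico] at h1
    have := op_eq h2
    omega

/-- tips after `w` -/
private theorem tipA (hC : Cyc (m + 2) P W) (hj : j < m) {w : ℕ} (hw : w < m + 2) (hwu : w ≠ j)
    (hwv : w ≠ j + 1) :
    Wrem (m + 2) j P W (P j w true) (P w j true) ∧
    Wrem (m + 2) j P W (P j w true) (P w (j + 1) false) ∧
    Wrem (m + 2) j P W (P j w true) (P (j + 1) w true) := by
  have h1 : Wrem (m + 2) j P W (P j w true) (P w j true) :=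
    Setoid.symm' _ (sm1t (memT (Ne.symm (Ne.symm hwu)) hw (by omega) (by omega)) (memR hw hwu hwv))
  have h2 : Wrem (m + 2) j P W (P w j true) (P w (j + 1) false) :=
    le_U (hC.a w j hw (by omega) (Ne.symm hwu) (Ne.symm hwv))
  have h3 : Wrem (m + 2) j P W (P w (j + 1) false) (P (j + 1) w true) :=
    sm0 (memT hwv hw (by omega) (by omega)) (notR w)
  exact ⟨h1, Setoid.trans' _ h1 h2, Setoid.trans' _ h1 (Setoid.trans' _ h2 h3)⟩

private theorem lst_lt {n i : ℕ} (h : i + 1 ≠ n) : lst n i = n - 1 := by
  rw [lst, if_neg h]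

theorem thr2k (hC : Cyc (m + 2) P W) (hj : j < m) :
    Wrem (m + 2) j P W (P j (j + 1) false) (P (j + 1) j false) ∧
    Wrem (m + 2) j P W (P j (j + 1) true) (P (j + 1) j true) ∧
    Wrem (m + 2) j P W (P j (j + 1) false) (P j (j + 1) true) := by
  have hk1 : Wrem (m + 2) j P W (P j (j + 1) false) (P (j + 1) j true) :=
    sm0 (memT (by omega) (by omega) (by omega) (by omega)) (notR j)
  have hk2 : Wrem (m + 2) j P W (P (j + 1) j false) (P j (j + 1) true) :=
    sm0 (memT (by omega) (by omega) (by omega) (by omega)) (by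
      rw [op_comm' (by omega)]
      exact notR j)
  have h1 : Wrem (m + 2) j P W (P j (j + 1) false) (P (j + 1) j false) := by
    rcases Nat.eq_zero_or_pos j with rfl | hj0
    · have e1 := hC.c 0 (by omega)
      have e2 := hC.c 1 (by omega)
      rw [lst_lt (by omega)] at e1 e2
      have e3 := (tipA hC hj (w := m + 1) (by omega) (by omega) (by omega)).2.2
      exact Setoid.trans' _ (Setoid.symm' _ (le_U e1)) (Setoid.trans' _ e3 (le_U e2))
    · obtain ⟨i, rfl⟩ : ∃ i, j = i + 1 := ⟨j - 1, by omega⟩
      have e1 := hC.b i (by omega)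
      have e2 := hC.a (i + 1 + 1) i (by omega) (by omega) (by omega) (by omega)
      have e3 := (tipA hC hj (w := i) (by omega) (by omega) (by omega)).2.2
      exact Setoid.trans' _ (Setoid.symm' _ (le_U e1)) (Setoid.trans' _ e3 (le_U e2))
  exact ⟨h1, Setoid.trans' _ (Setoid.symm' _ (Setoid.trans' _ h1 hk2)) hk1,
    Setoid.trans' _ h1 hk2⟩

private theorem tipB (hC : Cyc (m + 2) P W) (hj : j < m) {w : ℕ} (hw : w < m + 2) (hwu : w ≠ j)
    (hwv : w ≠ j + 1) : Wrem (m + 2) j P W (P j w false) (P (j + 1) w false) := by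
  rcases Nat.eq_zero_or_pos w with rfl | hw0
  · have e1 := hC.c j (by omega)
    have e2 := hC.c (j + 1) (by omega)
    rw [lst_lt (by omega)] at e1 e2
    have f1 : fst' j = 0 := if_neg (by omega)
    have f2 : fst' (j + 1) = 0 := if_neg (by omega)
    rw [f1] at e1
    rw [f2] at e2
    have e3 := (tipA hC hj (w := m + 1) (by omega) (by omega) (by omega)).2.2
    exact Setoid.trans' _ (Setoid.symm' _ (le_U e1)) (Setoid.trans' _ e3 (le_U e2))
  · obtain ⟨i, rfl⟩ : ∃ i, w = i + 1 := ⟨w - 1, by omega⟩
    by_cases hi : i = j + 1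
    · subst hi
      have e1 := hC.a j (j + 1) (by omega) (by omega) (by omega) (by omega)
      have e2 := hC.b j (by omega)
      exact Setoid.trans' _ (Setoid.symm' _ (le_U e1)) (Setoid.trans' _ (thr2k hC hj).2.1 (le_U e2))
    · have e1 := hC.a j i (by omega) (by omega) (by omega) (by omega)
      have e2 := hC.a (j + 1) i (by omega) (by omega) (by omega) (by omega)
      have e3 := (tipA hC hj (w := i) (by omega) (by omega) (by omega)).2.2
      exact Setoid.trans' _ (Setoid.symm' _ (le_U e1)) (Setoid.trans' _ e3 (le_U e2))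

theorem thr2 (hC : Cyc (m + 2) P W) (hj : j < m) (w : ℕ) (hw : w < m + 2) (hwu : w ≠ j)
    (hwv : w ≠ j + 1) :
    Wrem (m + 2) j P W (P j w false) (P (j + 1) w false) ∧
    Wrem (m + 2) j P W (P j w true) (P (j + 1) w true) ∧
    Wrem (m + 2) j P W (P w j false) (P w (j + 1) true) := by
  have h1 := tipB hC hj hw hwu hwv
  have h2 : Wrem (m + 2) j P W (P w j false) (P j w false) :=
    sm1f (memT hwu hw (by omega) (by omega)) (memR hw hwu hwv)
  have h3 : Wrem (m + 2) j P W (P (j + 1) w false) (P w (j + 1) true) :=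
    sm0 (memT (Ne.symm hwv) (by omega) hw (by omega)) (by
      rw [op_comm' (Ne.symm hwv)]
      exact notR w)
  exact ⟨h1, (tipA hC hj hw hwu hwv).2.2, Setoid.trans' _ h2 (Setoid.trans' _ h1 h3)⟩

theorem cyc2 (hC : Cyc (m + 2) P W) (hj : j < m) (hm : 2 ≤ m) :
    Cyc m (skP j P) (Wrem (m + 2) j P W) :=
  Cyc_rem hC le_U (by omega) hm fun w hw hwu hwv => (thr2 hC hj w hw hwu hwv).2.2

theorem leg2 (hL : Legit W (qd P) (fl (m + 2))) (hj : j < m) :
    Legit (Wrem (m + 2) j P W) (qd (skP j P)) (fl m) := by
  obtain ⟨h1, h2⟩ := fl_split (m := m) (u := j) (by omega)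
  rw [h1] at hL
  have h3 := legit_U hL h2 (ron (m + 2) j)
  exact legit_image (skf j) (fl m) (skf_inj j).injOn h3

theorem par2 [Finite Pt] (hC : Cyc (m + 2) P W) (hL : Legit W (qd P) (fl (m + 2))) (hj : j < m)
    (hm : 2 ≤ m) :
    Nat.card (Quotient (Wrem (m + 2) j P W)) + 2 * (2 * m + 1) = Nat.card (Quotient W) := by
  have hT : Tall (m + 2) j ⊆ fl (m + 2) := filter_subset _ _
  have hcard := card_Tall (m := m) (u := j) (by omega)
  rw [← hcard]
  -- points related to labels outside `Tall`
  let G : Pt → Prop := fun p => ∃ c' ∈ fl (m + 2) \ Tall (m + 2) j, ∃ k' : Fin 4,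
    Wrem (m + 2) j P W p (qd P c' k')
  have hG : ∀ {p q : Pt}, Wrem (m + 2) j P W p q → G q → G p := by
    rintro p q h ⟨c', hc', k', hk'⟩
    exact ⟨c', hc', k', Setoid.trans' _ h hk'⟩
  have g0 : ∀ {w w' : ℕ} (s : Bool), w < m + 2 → w' < m + 2 → w ≠ w' → w ≠ j → w ≠ j + 1 →
      w' ≠ j → w' ≠ j + 1 → G (P w w' s) := by
    intro w w' s hw hw' hne h1 h2 h3 h4
    refine ⟨op w w', mem_sdiff.2 ⟨op_mem_fl hne hw hw', fun h => ?_⟩, ?_⟩
    · rw [Tall, mem_filter] at h
      have h5 := h.2
      unfold op at h5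
      split_ifs at h5 <;> simp only at h5 <;> omega
    · by_cases hi : w < w'
      · have e : op w w' = (w, w') := if_pos hi
        rw [e]
        cases s
        · exact ⟨0, Setoid.refl' _ _⟩
        · exact ⟨3, Setoid.refl' _ _⟩
      · have e : op w w' = (w', w) := if_neg hi
        rw [e]
        cases s
        · exact ⟨2, Setoid.refl' _ _⟩
        · exact ⟨1, Setoid.refl' _ _⟩
  have g1 : ∀ {w : ℕ}, w < m + 2 → w ≠ j → w ≠ j + 1 → G (P w j false) := by
    intro w hw h1 h2
    rcases Nat.eq_zero_or_pos j with h0 | h0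
    · subst h0
      have e1 := hC.c w hw
      have f1 : fst' w = 0 := if_neg (by omega)
      rw [f1] at e1
      refine hG (Setoid.symm' _ (le_U e1)) ?_
      by_cases hw1 : w + 1 = m + 2
      · have f2 : lst (m + 2) w = m := by rw [lst, if_pos hw1]; omega
        rw [f2]
        exact g0 _ hw (by omega) (by omega) h1 h2 (by omega) (by omega)
      · rw [lst_lt hw1]
        exact g0 _ hw (by omega) (by omega) h1 h2 (by omega) (by omega)
    · by_cases hw1 : w + 1 = j
      · rcases Nat.eq_zero_or_pos w with h3 | h3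
        · subst h3
          have e1 := hC.c 0 hw
          have f1 : fst' 0 = 1 := rfl
          rw [f1, lst_lt (by omega)] at e1
          have hj1 : j = 1 := by omega
          subst hj1
          refine hG (Setoid.symm' _ (le_U e1)) ?_
          exact g0 _ hw (by omega) (by omega) h1 h2 (by omega) (by omega)
        · obtain ⟨i, rfl⟩ : ∃ i, w = i + 1 := ⟨w - 1, by omega⟩
          have e1 := hC.b i (by omega)
          have hj1 : j = i + 2 := by omega
          subst hj1
          refine hG (Setoid.symm' _ (le_U e1)) ?_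
          exact g0 _ hw (by omega) (by omega) h1 h2 (by omega) (by omega)
      · obtain ⟨i, rfl⟩ : ∃ i, j = i + 1 := ⟨j - 1, by omega⟩
        have e1 := hC.a w i hw (by omega) (by omega) (by omega)
        refine hG (Setoid.symm' _ (le_U e1)) ?_
        exact g0 _ hw (by omega) (by omega) h1 h2 (by omega) (by omega)
  have g2 : ∀ {w : ℕ}, w < m + 2 → w ≠ j → w ≠ j + 1 →
      G (P j w false) ∧ G (P (j + 1) w false) ∧ G (P w (j + 1) true) := by
    intro w hw h1 h2
    have a1 : Wrem (m + 2) j P W (P w j false) (P j w false) :=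
      sm1f (memT h1 hw (by omega) (by omega)) (memR hw h1 h2)
    have a2 := thr2 hC hj w hw h1 h2
    have a3 : G (P j w false) := hG (Setoid.symm' _ a1) (g1 hw h1 h2)
    exact ⟨a3, hG (Setoid.symm' _ a2.1) a3, hG (Setoid.symm' _ a2.2.2) (g1 hw h1 h2)⟩
  -- the kink
  have hk := thr2k hC hj
  have k1 : G (P j (j + 1) true) :=
    hG (le_U (hC.a j (j + 1) (by omega) (by omega) (by omega) (by omega)))
      (g2 (w := j + 1 + 1) (by omega) (by omega) (by omega)).1
  have k2 : G (P j (j + 1) false) := hG hk.2.2 k1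
  have k3 : G (P (j + 1) j false) := hG (Setoid.symm' _ hk.1) k2
  have k4 : G (P (j + 1) j true) := hG (Setoid.symm' _ hk.2.1) k1
  have g3 : ∀ {w : ℕ}, w < m + 2 → w ≠ j → w ≠ j + 1 →
      G (P j w true) ∧ G (P w j true) ∧ G (P w (j + 1) false) ∧ G (P (j + 1) w true) := by
    intro w hw h1 h2
    have a1 := tipA hC hj hw h1 h2
    have a2 : G (P j w true) := by
      by_cases hw1 : w + 1 = j
      · subst hw1
        exact hG (le_U (hC.b w (by omega))) k2
      · by_cases hw2 : w + 1 < m + 2
        · exact hG (le_U (hC.a j w (by omega) hw2 h1 hw1))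
            (g2 hw2 (by omega) (by omega)).1
        · have hwm : w = m + 1 := by omega
          subst hwm
          have e1 := hC.c j (by omega)
          rw [lst_lt (by omega)] at e1
          refine hG (le_U e1) ?_
          rcases Nat.eq_zero_or_pos j with h0 | h0
          · subst h0
            exact k2
          · have f1 : fst' j = 0 := if_neg (by omega)
            rw [f1]
            exact (g2 (w := 0) (by omega) (by omega) (by omega)).1
    exact ⟨a2, hG (Setoid.symm' _ a1.1) a2, hG (Setoid.symm' _ a1.2.1) a2,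
      hG (Setoid.symm' _ a1.2.2) a2⟩
  have gall : ∀ (a b : ℕ) (s : Bool), a < m + 2 → b < m + 2 → a ≠ b → G (P a b s) := by
    intro a b s ha hb hab
    by_cases h1 : a = j
    · subst h1
      by_cases h2 : b = a + 1
      · subst h2
        cases s
        · exact k2
        · exact k1
      · cases s
        · exact (g2 hb (Ne.symm hab) h2).1
        · exact (g3 hb (Ne.symm hab) h2).1
    · by_cases h2 : a = j + 1
      · subst h2
        by_cases h3 : b = j
        · subst h3
          cases s
          · exact k3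
          · exact k4
        · cases s
          · exact (g2 hb h3 (Ne.symm hab)).2.1
          · exact (g3 hb h3 (Ne.symm hab)).2.2.2
      · by_cases h3 : b = j
        · subst h3
          cases s
          · exact g1 ha h1 h2
          · exact (g3 ha h1 h2).2.1
        · by_cases h4 : b = j + 1
          · subst h4
            cases s
            · exact (g3 ha h1 h2).2.2.1
            · exact (g2 ha h1 h2).2.2
          · exact g0 s ha hb hab h1 h2 h3 h4
  refine par_rem0 hL hT (ron (m + 2) j) ?_
  rintro ⟨a, b⟩ hc k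
  have hc' := hT hc
  rw [fl, mem_filter, mem_product, mem_range, mem_range] at hc'
  obtain ⟨⟨ha, hb⟩, hab⟩ := hc'
  simp only at ha hb hab
  have hk4 : k = 0 ∨ k = 1 ∨ k = 2 ∨ k = 3 := by
    revert k
    decide
  rcases hk4 with rfl | rfl | rfl | rfl
  · exact gall a b false ha hb (by omega)
  · exact gall b a true hb ha (by omega)
  · exact gall b a false hb ha (by omega)
  · exact gall a b true ha hb (by omega)

end Pool.HPS
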