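import Pool.Agent.HPS.DBase
import Pool.Agent.HPS.Thr1
import Pool.Agent.HPS.Thr2
import Pool.Agent.HPS.Red1
import Pool.Agent.HPS.Red2
import Pool.Agent.HPS.RotM

/-!
# Module HPS-DAsm: assembly of block C
-/

set_option autoImplicit false

open Finset MvPolynomial

namespace Pool.HPS

theorem DD_step2 {m j h : ℕ} (hm : 2 ≤ m) (he : Even m) (hj : j < m) (H : DD m j h)
    (h0 : DD (m + 2) j (h + m + 1)) : DD (m + 2) (j + 1) (h + m + 1) := by
  intro Pt _ W P hC hL
  have hL' : Legit (Wj (m + 2) (j + 1) P W) (qd P) (tr (m + 2) (j + 1)) := leg_Wj hL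
  rw [tr_succ (n := m + 1) (by omega)] at hL' ⊢
  refine cone (EOk_par _) not_mem_tr hL' ?_ ?_
  · have := h0 Pt W P hC hL
    rw [← Wj_succ W P (n := m + 1) (by omega)] at this
    exact this
  · have hL1 := legit1 hL' not_mem_tr
    obtain ⟨e1, e2, e3, e4⟩ := tr_split hj
    rw [e1] at hL1 ⊢
    refine red2 hC hj _ (EOk_shE (EOk_par _)) _ e2 hL1 h ?_
    rw [env2 hj]
    apply Ex_image (skf j) _ (skf_inj j).injOn
    have h2 := H Pt _ _ (cyc2 hC hj hm) (leg2 hL hj)
    have hp := par2 hC hL hj hm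
    have hE : shN ((on j 0 j ∪ ∅) ∪ on j (j + 2) (m + 1)).card
        (shE (par (Nat.card (Quotient W)) : Setoid Pt → ℕ → Prop)) =
        par (Nat.card (Quotient (Wrem (m + 2) j P W))) := by
      rw [card_r2 hj]
      have : shE (par (Nat.card (Quotient W)) : Setoid Pt → ℕ → Prop) =
        par (Nat.card (Quotient W) + 1) := shN_par _ 1
      rw [this, shN_par]
      apply par_congr
      obtain ⟨k, hk⟩ := he
      omega
    rw [hE]
    exact h2

theorem DD_step1 {m h : ℕ} (hm : 2 ≤ m) (he : Even m) (H : DD m (m - 1) h)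
    (h0 : DD (m + 2) m (h + m + 1)) : DD (m + 2) (m + 1) (h + m + 1) := by
  intro Pt _ W P hC hL
  have hL' : Legit (Wj (m + 2) (m + 1) P W) (qd P) (tr (m + 2) (m + 1)) := leg_Wj hL
  rw [tr_succ (n := m + 1) (by omega)] at hL' ⊢
  refine cone (EOk_par _) not_mem_tr hL' ?_ ?_
  · have := h0 Pt W P hC hL
    rw [← Wj_succ W P (n := m + 1) (by omega)] at this
    exact this
  · have hL1 := legit1 hL' not_mem_tr
    rw [Wj_top] at hL1 ⊢
    obtain ⟨e1, e2⟩ := tr_split1 m
    rw [e1] at hL1 ⊢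
    refine red1 hC (by omega) _ (EOk_shE (EOk_par _)) _ e2 hL1 h ?_
    rw [env1m]
    have h2 := H Pt _ _ (cyc1 hC hm le_rfl) (leg1 hL m)
    have hp := par1 hC hL hm (by omega) le_rfl
    have hE : shN (on m 0 m).card
        (shE (par (Nat.card (Quotient W)) : Setoid Pt → ℕ → Prop)) =
        par (Nat.card (Quotient (Wb m m P W))) := by
      rw [card_on _ _ _ (by simp)]
      have : shE (par (Nat.card (Quotient W)) : Setoid Pt → ℕ → Prop) =
        par (Nat.card (Quotient W) + 1) := shN_par _ 1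
      rw [this, shN_par]
      apply par_congr
      obtain ⟨k, hk⟩ := he
      omega
    rw [hE]
    obtain ⟨m', rfl⟩ : ∃ m', m = m' + 1 := ⟨m - 1, by omega⟩
    rw [show m' + 1 - 1 = m' by omega, Wj_top, tr_full] at h2
    exact h2

theorem DD_all (p : ℕ) : ∀ j, j ≤ 2 * p + 1 → DD (2 * p + 2) j ((p + 1) ^ 2 - 1) := by
  induction p with
  | zero => intro j hj; exact DD_two (by omega)
  | succ p ih =>
    have hh : (p + 1 + 1) ^ 2 - 1 = ((p + 1) ^ 2 - 1) + (2 * p + 2) + 1 := by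
      have : 1 ≤ (p + 1) ^ 2 := Nat.one_le_pow _ _ (by omega)
      have h2 : (p + 1 + 1) ^ 2 = (p + 1) ^ 2 + 2 * p + 3 := by ring
      omega
    rw [hh, show 2 * (p + 1) + 2 = (2 * p + 2) + 2 by ring]
    intro j
    induction j with
    | zero =>
      intro _
      apply DD_zero
      have h3 : (2 * p + 2 + 1) ^ 2 / 4 = (p + 1) ^ 2 + (p + 1) := by
        have : (2 * p + 2 + 1) ^ 2 = 4 * ((p + 1) ^ 2 + (p + 1)) + 1 := by ring
        omega
      have : 1 ≤ (p + 1) ^ 2 := Nat.one_le_pow _ _ (by omega)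
      omega
    | succ j ihj =>
      intro hj
      rcases Nat.lt_or_ge j (2 * p + 2) with h1 | h1
      · exact DD_step2 (by omega) ⟨p + 1, by ring⟩ h1 (ih j (by omega)) (ihj (by omega))
      · have hj' : j = 2 * p + 2 := by omega
        subst hj'
        exact DD_step1 (by omega) ⟨p + 1, by ring⟩ (ih _ (by omega)) (ihj (by omega))

/-- Exactness of the even part just below the oriented degree, over `F_2`. -/
theorem Ex_main {p : ℕ} (hp : 1 ≤ p) {Pt : Type} [Finite Pt] {W : Setoid Pt}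
    {P : ℕ → ℕ → Bool → Pt} (hC : Cyc (2 * p) P W) (hL : Legit W (qd P) (fl (2 * p))) :
    Ex (par (Nat.card (Quotient W))) W (qd P) (fl (2 * p)) (p ^ 2 - 1) := by
  obtain ⟨q, rfl⟩ : ∃ q, p = q + 1 := ⟨p - 1, by omega⟩
  have h := DD_all q (2 * q + 1) le_rfl Pt W P hC hL
  rw [show 2 * q + 2 = (2 * q + 1) + 1 by ring, Wj_top, tr_full] at h
  exact h

theorem NB_one : NB 1 := by
  intro Pt _ W P hC hL t H
  have hfl : fl (2 * 1) = insert (0, 1) ∅ := by decide
  have hro : ro 1 = insert (0, 1) ∅ := by decide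
  rw [hfl, hro] at H
  rw [hfl] at hL
  have h0 := DD_two (j := 0) (by omega) Pt W P hC (by rw [show fl 2 = insert (0, 1) ∅ by decide]; exact hL)
  rw [← Wj_succ W P (n := 1) (by omega), show (0 : ℕ) + 1 = 1 by rfl, Wj_top,
    show tr 2 0 = ∅ by decide] at h0
  have h1 := cone_bd (EOk_par _) (by simp) hL (Finset.empty_subset _) (by simpa using h0) H
  have h2 := Bd_empty h1
  rw [hfl, hro, U_ins1 (by simp), U_empty]
  exact h2

theorem NB_step {q : ℕ} (hq : 1 ≤ q) (H : NB q) : NB (q + 1) := by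
  intro Pt _ W P hC hL t hB
  set P' := rotP (2 * (q + 1)) (q + 1 + 1) P with hP'
  have hB' := Bd_rot (by omega) hB
  have hC' := Cyc_rot (by omega) hC (q + 1 + 1)
  have hL' := Legit_rot (by omega) hL (q + 1 + 1)
  rw [← U_rot (by omega)]
  rw [← hP'] at hB' hC' hL' ⊢
  clear_value P'
  clear hB hC hL
  rw [show 2 * (q + 1) = 2 * q + 2 by ring] at hB' hC' hL' ⊢
  obtain ⟨r1, r2⟩ := ror_split q
  obtain ⟨f1, f2, f3⟩ := fl_split1 (m := 2 * q) (b := q) (by omega)
  have hT : tr (2 * q + 2) (2 * q) =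
      fl (2 * q) ∪ (ev (2 * q) (2 * q + 1) 0 q ∪ ev (2 * q) (2 * q + 1) q (2 * q)) := by
    have h1 := tr_succ (n := 2 * q + 1) (k := 2 * q) (by omega)
    have h2 := tr_full (2 * q + 1)
    rw [show 2 * q + 1 + 1 = 2 * q + 2 by ring] at h1 h2
    have h3 : (2 * q, 2 * q + 1) ∉ tr (2 * q + 2) (2 * q) := not_mem_tr
    rw [h2, f1] at h1
    have := congrArg (fun s => s.erase (2 * q, 2 * q + 1)) h1
    simp only [Finset.erase_insert f2, Finset.erase_insert h3] at this
    exact this.symm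
  have hsub : ro q ⊆ fl (2 * q) := Finset.filter_subset _ _
  have hon : on (2 * q) 0 q ∪ on (2 * q + 1) q (2 * q) ⊆
      ev (2 * q) (2 * q + 1) 0 q ∪ ev (2 * q) (2 * q + 1) q (2 * q) := by
    apply Finset.union_subset_union
    · exact Finset.subset_union_left
    · exact Finset.subset_union_right
  have hdr : Disjoint (ro q) (on (2 * q) 0 q ∪ on (2 * q + 1) q (2 * q)) :=
    Finset.disjoint_of_subset_left hsub (Finset.disjoint_of_subset_right hon f3)
  have hcard : (ro q ∪ (on (2 * q) 0 q ∪ on (2 * q + 1) q (2 * q))).card = (q + 1) ^ 2 - 1 := by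
    rw [Finset.card_union_of_disjoint hdr, card_ro, card_onb (by omega)]
    have : (q + 1) ^ 2 = q ^ 2 + 2 * q + 1 := by ring
    omega
  rw [f1, r1] at hB'
  have hL1 := hL'
  rw [f1] at hL1
  have h0 := DD_all q (2 * q) (by omega) Pt W P' hC' hL'
  rw [← Wj_succ W P' (n := 2 * q + 1) (by omega), Wj_top, hT] at h0
  rw [← hcard] at h0
  have h1 := cone_bd (EOk_par _) f2 hL1 (Finset.union_subset_union hsub hon) h0 hB'
  have h2 := red1b hC' (b := q) (by omega) _ (EOk_shE (EOk_par _)) _ _ f3 hsub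
    (legit1 hL1 f2) t h1
  rw [env1 (by omega)] at h2
  have hp := par1 hC' hL' (by omega) hq (by omega)
  have hE : shN (on (2 * q) 0 q ∪ on (2 * q + 1) q (2 * q)).card
      (shE (par (Nat.card (Quotient W)) : Setoid Pt → ℕ → Prop)) =
      par (Nat.card (Quotient (Wb (2 * q) q P' W))) := by
    rw [card_onb (by omega)]
    have : shE (par (Nat.card (Quotient W)) : Setoid Pt → ℕ → Prop) =
      par (Nat.card (Quotient W) + 1) := shN_par _ 1
    rw [this, shN_par]
    apply par_congr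
    omega
  rw [hE] at h2
  have h3 := H Pt _ P' (cyc1 hC' (by omega) (by omega)) (leg1 hL' q) t h2
  have hU : U (Wb (2 * q) q P' W) (qd P') (fl (2 * q)) (ro q) =
      U W (qd P') (fl (2 * q + 2)) (ror (q + 1)) := by
    have e0 : U W (qd P') (fl (2 * q + 2)) (ror (q + 1)) =
        U (U (W ⊔ s1 (qd P' (2 * q, 2 * q + 1))) (qd P')
          (ev (2 * q) (2 * q + 1) 0 q ∪ ev (2 * q) (2 * q + 1) q (2 * q))
          (insert (2 * q, 2 * q + 1) (ro q ∪ (on (2 * q) 0 q ∪ on (2 * q + 1) q (2 * q)))))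
          (qd P') (fl (2 * q))
          (insert (2 * q, 2 * q + 1) (ro q ∪ (on (2 * q) 0 q ∪ on (2 * q + 1) q (2 * q)))) := by
      rw [f1, r1, U_ins1 (by simp), Finset.union_comm (fl (2 * q))]
      exact U_union _
    rw [e0]
    have hd2 : ∀ c ∈ ev (2 * q) (2 * q + 1) 0 q ∪ ev (2 * q) (2 * q + 1) q (2 * q),
        c ∉ ro q ∧ c ≠ (2 * q, 2 * q + 1) := by
      intro c hc
      refine ⟨fun h => Finset.disjoint_left.1 f3 (hsub h) hc, ?_⟩
      rintro rfl
      exact f2 (Finset.mem_union_right _ hc)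
    have e1 : U (W ⊔ s1 (qd P' (2 * q, 2 * q + 1))) (qd P')
        (ev (2 * q) (2 * q + 1) 0 q ∪ ev (2 * q) (2 * q + 1) q (2 * q))
        (insert (2 * q, 2 * q + 1) (ro q ∪ (on (2 * q) 0 q ∪ on (2 * q + 1) q (2 * q)))) =
        U (W ⊔ s1 (qd P' (2 * q, 2 * q + 1))) (qd P')
        (ev (2 * q) (2 * q + 1) 0 q ∪ ev (2 * q) (2 * q + 1) q (2 * q))
        (on (2 * q) 0 q ∪ on (2 * q + 1) q (2 * q)) := by
      apply U_congr
      intro c hc
      have := hd2 c hc
      simp only [Finset.mem_insert, Finset.mem_union]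
      tauto
    rw [e1, env1 (by omega)]
    apply U_congr
    intro c hc
    have h1 : c ∉ on (2 * q) 0 q ∪ on (2 * q + 1) q (2 * q) := fun h =>
      Finset.disjoint_left.1 f3 hc (hon h)
    have h2 : c ≠ (2 * q, 2 * q + 1) := by
      rintro rfl
      exact f2 (Finset.mem_union_left _ hc)
    simp only [Finset.mem_insert, Finset.mem_union] at h1 ⊢
    tauto
  rw [hU] at h3
  have hJ : J (par (Nat.card (Quotient (Wb (2 * q) q P' W))))
      (U W (qd P') (fl (2 * q + 2)) (ror (q + 1))) (q ^ 2) =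
      J (par (Nat.card (Quotient W))) (U W (qd P') (fl (2 * q + 2)) (ror (q + 1)))
        ((q + 1) ^ 2) := by
    unfold J
    congr 1
    unfold par
    have : (q + 1) ^ 2 = q ^ 2 + 2 * q + 1 := by ring
    apply propext
    rw [this, Nat.even_iff, Nat.even_iff]
    omega
  rw [hJ] at h3
  exact h3

theorem NB_all {p : ℕ} (hp : 1 ≤ p) : NB p := by
  induction p, hp using Nat.le_induction with
  | base => exact NB_one
  | succ q hq ih => exact NB_step hq ih

end Pool.HPS
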