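import Pool.Agent.HPS.DefsC
import Pool.Agent.HPS.Rem
import Pool.Agent.HPS.Bk
import Pool.Agent.HPS.Triv

/-!
# Module HPS-DBase: the base cases of the induction

The intermediate environment `Wj n j P W` is the state setoid of the crossings `(i, n - 1)`, `j ≤ i`, at the state `∅`.
-/

set_option autoImplicit false

open Finset MvPolynomial

namespace Pool.HPS

private theorem Wj_eq {Pt : Type} (W : Setoid Pt) (P : ℕ → ℕ → Bool → Pt) (n j : ℕ) :
    Wj n j P W = U W (qd P) ((Finset.Ico j (n - 1)).image (fun i => (i, n - 1))) ∅ := by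
  unfold Wj U
  rw [Finset.sup_image]
  congr 1

private theorem fl_eq (n j : ℕ) :
    fl n = tr n j ∪ (Finset.Ico j (n - 1)).image (fun i => (i, n - 1)) := by
  ext ⟨a, b⟩
  simp only [fl, tr, Finset.mem_union, Finset.mem_image, Finset.mem_Ico, Finset.mem_filter,
    Finset.mem_product, Finset.mem_range, Prod.mk.injEq]
  constructor
  · intro h
    by_cases h1 : b + 1 = n → a < j
    · exact Or.inl ⟨h.1, h.2, h1⟩
    · right
      push Not at h1
      exact ⟨a, by omega, rfl, by omega⟩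
  · rintro (h | ⟨c, h1, h2, h3⟩)
    · exact ⟨h.1, h.2.1⟩
    · omega

private theorem fl_disj (n j : ℕ) :
    Disjoint (tr n j) ((Finset.Ico j (n - 1)).image (fun i => (i, n - 1))) := by
  rw [Finset.disjoint_left]
  rintro ⟨a, b⟩ h1 h2
  simp only [tr, Finset.mem_image, Finset.mem_Ico, Finset.mem_filter,
    Finset.mem_product, Finset.mem_range, Prod.mk.injEq] at h1 h2
  obtain ⟨c, h3, h4, h5⟩ := h2
  have h6 := h1.2.2 (by omega)
  omega

/-- Legitimacy of the intermediate systems (`fl n = tr n j ∪ {(i, n-1) : j ≤ i < n-1}`, and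
`Wj n j P W` is the state setoid of the latter set at the state `∅`; `legit_U`). -/
theorem leg_Wj {Pt : Type} {W : Setoid Pt} {P : ℕ → ℕ → Bool → Pt} {n j : ℕ}
    (hL : Legit W (qd P) (fl n)) : Legit (Wj n j P W) (qd P) (tr n j) := by
  rw [fl_eq n j] at hL
  rw [Wj_eq]
  exact legit_U hL (fl_disj n j) ∅

theorem Wj_succ {Pt : Type} (W : Setoid Pt) (P : ℕ → ℕ → Bool → Pt) {n j : ℕ} (hj : j < n) :
    Wj (n + 1) (j + 1) P W ⊔ s0 (qd P (j, n)) = Wj (n + 1) j P W := by
  unfold Wj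
  rw [Nat.add_sub_cancel]
  have h1 : Finset.Ico j n = insert j (Finset.Ico (j + 1) n) := by
    ext a
    simp only [Finset.mem_insert, Finset.mem_Ico]
    omega
  rw [h1, Finset.sup_insert, sup_assoc, sup_comm (s0 (qd P (j, n)))]

theorem Wj_top {Pt : Type} (W : Setoid Pt) (P : ℕ → ℕ → Bool → Pt) (n : ℕ) :
    Wj (n + 1) n P W = W := by
  unfold Wj
  rw [Nat.add_sub_cancel, Finset.Ico_self, Finset.sup_empty]
  exact sup_bot_eq _

theorem DD_zero {m h : ℕ} (hh : (m + 1) ^ 2 / 4 < h) : DD (m + 2) 0 h := by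
  intro Pt _ W P hC hL
  have h1 : Legit (Wj (m + 2) 0 P W) (qd P) (fl (m + 1)) := by
    rw [← tr_zero]
    exact leg_Wj hL
  rw [show tr (m + 2) 0 = fl (m + 1) from tr_zero (m + 1)]
  exact Ex_of_tt (EOk_par _) h1
    (BB_all (m + 1) Pt _ P (Lin_mono (Lin_of_Cyc hC) le_sup_left) h1 h hh)

theorem DD_two {j : ℕ} (hj : j ≤ 1) : DD 2 j 0 := by
  have _ := hj
  intro Pt _ W P hC hL
  apply Ex_not
  intro r _ hr0
  rw [Finset.card_eq_zero] at hr0
  subst hr0
  have hU : U (Wj 2 j P W) (qd P) (tr 2 j) ∅ = W ⊔ s0 (qd P (0, 1)) := by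
    rw [Wj_eq, ← U_union, Finset.union_comm, ← fl_eq 2 j]
    have h1 : fl 2 = insert (0, 1) ∅ := by decide
    rw [h1, U_ins0 (Finset.notMem_empty _), U_empty]
  have h0 : W (P 0 1 true) (P 0 1 false) := hC.c 0 (by norm_num)
  have h1 : W (P 1 0 true) (P 1 0 false) := hC.c 1 (by norm_num)
  have hV : W ⊔ s0 (qd P (0, 1)) = W ⊔ pr (P 0 1 false) (P 1 0 true) := by
    apply le_antisymm
    · refine sup_le le_sup_left (s0_le.2 ?_)
      set Z := W ⊔ pr (P 0 1 false) (P 1 0 true) with hZ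
      have h2 : Z (P 0 1 false) (P 1 0 true) := pr_le.1 le_sup_right
      have h3 : Z (P 0 1 true) (P 0 1 false) := Setoid.le_def.1 (le_sup_left : W ≤ Z) h0
      have h4 : Z (P 1 0 true) (P 1 0 false) := Setoid.le_def.1 (le_sup_left : W ≤ Z) h1
      refine ⟨h2, ?_⟩
      change Z (P 1 0 false) (P 0 1 true)
      exact Z.trans (Z.symm h4) (Z.trans (Z.symm h2) (Z.symm h3))
    · refine sup_le le_sup_left (pr_le.2 ?_)
      exact (s0_le.1 (le_sup_right : s0 (qd P (0, 1)) ≤ W ⊔ s0 (qd P (0, 1)))).1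
  have hne : ¬ W (P 0 1 false) (P 1 0 true) := by
    intro h2
    have hmem : ∀ k : Fin 4, ((0, 1), k) ∈ {l : (ℕ × ℕ) × Fin 4 | l.1 ∈ fl 2} := by
      intro k
      show (0, 1) ∈ fl 2
      decide
    obtain ⟨l', -, -, -, hu⟩ := hL ((0, 1), 0) (hmem 0)
    have e1 := hu ((0, 1), 1) (hmem 1) (by simp) h2
    have e2 := hu ((0, 1), 3) (hmem 3) (by simp) (W.symm h0)
    have e3 := e1.trans e2.symm
    simp at e3
  rw [hU, hV]
  have hcard := card_join W hne
  unfold par
  rw [← hcard]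
  intro h2
  obtain ⟨a, ha⟩ := h2
  omega

end Pool.HPS
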