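import Mathlib

/-!
# Project HPS (MP_7d3d22_gt, `s(H_p) = 1 - 2p` in `RP^3`), abstract framework over `F_2`

A *system* is a type `Pt` of points, a setoid `W` on `Pt` (the environment), a family
`x : ι → Fin 4 → Pt` of crossings (each crossing has the four points `x c 0, x c 1, x c 2, x c 3`)
and a finite set `S` of crossings.  The 0-smoothing joins `0 ~ 1`, `2 ~ 3`; the 1-smoothing joins
`0 ~ 2`, `1 ~ 3`.
-/

set_option autoImplicit false

open Finset MvPolynomial

namespace Pool.HPS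

noncomputable section

variable {Pt ι : Type}

/-- The coefficient ring `F_2[X_p : p ∈ Pt]`. -/
abbrev Rg (Pt : Type) := MvPolynomial Pt (ZMod 2)

/-- The setoid generated by `p ~ q`. -/
def pr (p q : Pt) : Setoid Pt := Relation.EqvGen.setoid (fun u v => u = p ∧ v = q)

/-- 0-smoothing. -/
def s0 (y : Fin 4 → Pt) : Setoid Pt := pr (y 0) (y 1) ⊔ pr (y 2) (y 3)

/-- 1-smoothing. -/
def s1 (y : Fin 4 → Pt) : Setoid Pt := pr (y 0) (y 2) ⊔ pr (y 1) (y 3)

/-- The state setoid: environment and all smoothings (`c ∈ r`: 1-smoothing). -/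
def U [DecidableEq ι] (W : Setoid Pt) (x : ι → Fin 4 → Pt) (S r : Finset ι) : Setoid Pt :=
  W ⊔ S.sup (fun c => if c ∈ r then s1 (x c) else s0 (x c))

/-- The ideal of the state: `X_p^2` and `X_p + X_q` for `p ~ q`. -/
def I (V : Setoid Pt) : Ideal (Rg Pt) :=
  Ideal.span ({f | ∃ p, f = X p ^ 2} ∪ {f | ∃ p q, V p q ∧ f = X p + X q})

/-- A parity-like predicate: joining two classes flips it, and so does `k ↦ k + 1`. -/
structure EOk (E : Setoid Pt → ℕ → Prop) : Prop where
  up : ∀ (V : Setoid Pt) (a b : Pt) (k : ℕ), ¬ V a b → (E (V ⊔ pr a b) (k + 1) ↔ E V k)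
  dn : ∀ (V : Setoid Pt) (a b : Pt) (k : ℕ), ¬ V a b → (E (V ⊔ pr a b) k ↔ E V (k + 1))

/-- The trivial predicate. -/
def tt : Setoid Pt → ℕ → Prop := fun _ _ => True

/-- The parity predicate. -/
def par (e : ℕ) : Setoid Pt → ℕ → Prop := fun V k => Even (Nat.card (Quotient V) + k + e)

/-- Shift of a predicate. -/
def shE (E : Setoid Pt → ℕ → Prop) : Setoid Pt → ℕ → Prop := fun V k => E V (k + 1)

/-- Iterated shift of a predicate. -/
def shN (N : ℕ) (E : Setoid Pt → ℕ → Prop) : Setoid Pt → ℕ → Prop := fun V k => E V (k + N)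

open Classical in
/-- The ideal used: `I V` if `E V k` holds and everything otherwise. -/
def J (E : Setoid Pt → ℕ → Prop) (V : Setoid Pt) (k : ℕ) : Ideal (Rg Pt) :=
  if E V k then I V else ⊤

open Classical in
/-- The saddle coefficient at a crossing `y` (0-smoothed in `V`). -/
def kap (V : Setoid Pt) (y : Fin 4 → Pt) : Rg Pt :=
  if V (y 0) (y 2) then X (y 0) + X (y 1) else 1

/-- The coboundary. -/
def bd [DecidableEq ι] (W : Setoid Pt) (x : ι → Fin 4 → Pt) (S : Finset ι)
    (g : Finset ι → Rg Pt) (r : Finset ι) : Rg Pt :=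
  ∑ c ∈ r, kap (U W x S (r.erase c)) (x c) * g (r.erase c)

/-- Exactness in degree `h` (on the states where `E` holds). -/
def Ex [DecidableEq ι] (E : Setoid Pt → ℕ → Prop) (W : Setoid Pt) (x : ι → Fin 4 → Pt)
    (S : Finset ι) (h : ℕ) : Prop :=
  ∀ f : Finset ι → Rg Pt,
    (∀ r, r ⊆ S → r.card = h + 1 → bd W x S f r ∈ J E (U W x S r) (h + 1)) →
    ∃ g : Finset ι → Rg Pt, ∀ r, r ⊆ S → r.card = h → f r + bd W x S g r ∈ J E (U W x S r) h

/-- The cochain concentrated at `r0` with value `t` is a coboundary. -/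
def Bd [DecidableEq ι] (E : Setoid Pt → ℕ → Prop) (W : Setoid Pt) (x : ι → Fin 4 → Pt)
    (S r0 : Finset ι) (t : Rg Pt) : Prop :=
  ∃ g : Finset ι → Rg Pt, ∀ r, r ⊆ S → r.card = r0.card →
    (if r = r0 then t else 0) + bd W x S g r ∈ J E (U W x S r) r0.card

/-- `W` is a perfect matching of the labels in `F`. -/
def Mt {L : Type} (F : Set L) (W : Setoid Pt) (y : L → Pt) : Prop :=
  ∀ l ∈ F, ∃ l' ∈ F, l' ≠ l ∧ W (y l) (y l') ∧ ∀ l'' ∈ F, l'' ≠ l → W (y l) (y l'') → l'' = l'

/-- Legitimate systems: `W` is a perfect matching of the `4|S|` labels. -/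
def Legit (W : Setoid Pt) (x : ι → Fin 4 → Pt) (S : Finset ι) : Prop :=
  Mt {l : ι × Fin 4 | l.1 ∈ S} W (fun l => x l.1 l.2)

/-- The four relabellings of a crossing that respect both smoothings. -/
def V4 (y y' : Fin 4 → Pt) : Prop :=
  y' = y ∨ y' = ![y 1, y 0, y 3, y 2] ∨ y' = ![y 2, y 3, y 0, y 1] ∨ y' = ![y 3, y 2, y 1, y 0]

/-- The crossing `{i, j}`, `i < j`, of a half twist with points `P i j s`
(`s = false`: before, `s = true`: after the crossing, on strand `i`, with strand `j`). -/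
def qd (P : ℕ → ℕ → Bool → Pt) : ℕ × ℕ → Fin 4 → Pt :=
  fun c => ![P c.1 c.2 false, P c.2 c.1 true, P c.2 c.1 false, P c.1 c.2 true]

/-- Crossings of the truncated half twist: all pairs below `m - 1`, and `(i, m - 1)` for `i < k`. -/
def tr (m k : ℕ) : Finset (ℕ × ℕ) :=
  ((range m) ×ˢ (range m)).filter (fun c => c.1 < c.2 ∧ (c.2 + 1 = m → c.1 < k))

/-- Crossings of the half twist on `m` strands. -/
def fl (m : ℕ) : Finset (ℕ × ℕ) := ((range m) ×ˢ (range m)).filter (fun c => c.1 < c.2)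

/-- Wires of the truncated half twist (strand `i` meets the others in increasing order). -/
structure LinT (m k : ℕ) (P : ℕ → ℕ → Bool → Pt) (W : Setoid Pt) : Prop where
  a : ∀ i j, i < m → j + 1 < m → j ≠ i → j + 1 ≠ i → (j + 2 = m → i < k) → (i + 1 = m → j + 1 < k) →
    W (P i j true) (P i (j + 1) false)
  b : ∀ i, i + 2 < m → (i + 3 = m → i + 1 < k) → W (P (i + 1) i true) (P (i + 1) (i + 2) false)

/-- Wires of the half twist. -/
structure Lin (m : ℕ) (P : ℕ → ℕ → Bool → Pt) (W : Setoid Pt) : Prop where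
  a : ∀ i j, i < m → j + 1 < m → j ≠ i → j + 1 ≠ i → W (P i j true) (P i (j + 1) false)
  b : ∀ i, i + 2 < m → W (P (i + 1) i true) (P (i + 1) (i + 2) false)

/-- The first strand met by strand `i`. -/
def fst' (i : ℕ) : ℕ := if i = 0 then 1 else 0

/-- The last strand met by strand `i` among `m` strands. -/
def lst (m i : ℕ) : ℕ := if i + 1 = m then m - 2 else m - 1

/-- Wires of the closed half twist on `n` strands. -/
structure Cyc (n : ℕ) (P : ℕ → ℕ → Bool → Pt) (W : Setoid Pt) : Prop extends Lin n P W where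
  c : ∀ i, i < n → W (P i (lst n i) true) (P i (fst' i) false)

/-- The index of the crossing `{i, j}`. -/
def op (i j : ℕ) : ℕ × ℕ := if i < j then (i, j) else (j, i)

/-- The labels other than `u, u + 1`. -/
def sk (u i : ℕ) : ℕ := if i < u then i else i + 2

/-- Removal of the strands `u, u + 1`. -/
def skP (u : ℕ) (P : ℕ → ℕ → Bool → Pt) : ℕ → ℕ → Bool → Pt := fun i j s => P (sk u i) (sk u j) s

/-- Reductions: the crossings of `T` (1-smoothed exactly at `r`) may be removed, with a shift by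
`N` of the homological degree (and a shift by `r.card` of `E`: a kink has `r = ∅`, `N = 1`). -/
def Rd [DecidableEq ι] (W : Setoid Pt) (x : ι → Fin 4 → Pt) (T r : Finset ι) (N : ℕ) : Prop :=
  ∀ E : Setoid Pt → ℕ → Prop, EOk E → ∀ S : Finset ι, Disjoint S T → Legit W x (S ∪ T) →
    ∀ h, Ex (shN r.card E) (U W x T r) x S h → Ex E W x (S ∪ T) (h + N)

/-- Reductions for coboundaries concentrated at one state. -/
def RdB [DecidableEq ι] (W : Setoid Pt) (x : ι → Fin 4 → Pt) (T r : Finset ι) : Prop :=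
  ∀ E : Setoid Pt → ℕ → Prop, EOk E → ∀ S r0 : Finset ι, Disjoint S T → r0 ⊆ S →
    Legit W x (S ∪ T) → ∀ t, Bd E W x (S ∪ T) (r0 ∪ r) t →
      Bd (shN r.card E) (U W x T r) x S r0 t

/-- The environment in which the crossings `(i, n - 1)`, `n - k ≤ i < n - 1`, are 0-smoothed. -/
def Wk (n k : ℕ) (P : ℕ → ℕ → Bool → Pt) (W : Setoid Pt) : Setoid Pt :=
  W ⊔ (Finset.Ico (n - k) (n - 1)).sup (fun i => s0 (qd P (i, n - 1)))

end

end Pool.HPS
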