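import Pool.Agent.HPS.Ub

/-!
# Project HPS, definitions for block B (half twist tangles)
-/

set_option autoImplicit false

open Finset MvPolynomial

namespace Pool.HPS

variable {Pt ι : Type}

/-- The crossings of the strands `w ∈ [lo, hi)` with `u` and `v`. -/
def ev (u v lo hi : ℕ) : Finset (ℕ × ℕ) :=
  (Ico lo hi).image (fun w => op w u) ∪ (Ico lo hi).image (fun w => op w v)

/-- The crossings of the strands `w ∈ [lo, hi)` with `u`. -/
def on (u lo hi : ℕ) : Finset (ℕ × ℕ) := (Ico lo hi).image (fun w => op w u)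

/-- The crossings that involve `u` or `u + 1`. -/
def Tall (n u : ℕ) : Finset (ℕ × ℕ) :=
  (fl n).filter (fun c => c.1 = u ∨ c.1 = u + 1 ∨ c.2 = u ∨ c.2 = u + 1)

/-- Reindexing of crossings after removal of the strands `u, u + 1`. -/
def skf (u : ℕ) (c : ℕ × ℕ) : ℕ × ℕ := (sk u c.1, sk u c.2)

/-- The wires along the strands `u`, `v` between the crossings with `w ∈ [lo, hi)`, and those on the
strands `w` between `u` and `v`. -/
structure Wir (W : Setoid Pt) (P : ℕ → ℕ → Bool → Pt) (u v lo hi : ℕ) : Prop where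
  cr : ∀ w, lo ≤ w → w < hi → W (P w u true) (P w v false)
  su : ∀ w, lo ≤ w → w + 1 < hi → W (P u w true) (P u (w + 1) false)
  sv : ∀ w, lo ≤ w → w + 1 < hi → W (P v w true) (P v (w + 1) false)

/-- No cohomology above `⌊m²/4⌋` for half twists on `m` strands in any environment. -/
def BB (m : ℕ) : Prop := ∀ (Pt : Type) (W : Setoid Pt) (P : ℕ → ℕ → Bool → Pt), Lin m P W →
  Legit W (qd P) (fl m) → ∀ h, m ^ 2 / 4 < h → Ex tt W (qd P) (fl m) h

/-- Crossing labels: those of the half twist and extra ones. -/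
abbrev IX := (ℕ × ℕ) ⊕ ℕ

/-- Crossings of a truncated half twist together with extra crossings `y 0, y 1, …`. -/
def qx (P : ℕ → ℕ → Bool → Pt) (y : ℕ → Fin 4 → Pt) : IX → Fin 4 → Pt := Sum.elim (qd P) y

/-- The labels of the truncated half twist and of the first `t` extra crossings. -/
def ts (m j t : ℕ) : Finset IX := (tr m j).disjSum (range t)

/-- The top points of the truncated half twist, in their geometric order. -/
def tp (m j : ℕ) (P : ℕ → ℕ → Bool → Pt) (i : ℕ) : Pt :=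
  if i < j then P i (m - 1) true else if i = j then P (m - 1) (j - 1) true
  else P (i - 1) (lst (m - 1) (i - 1)) true

/-- In every state of the extra crossings two adjacent top points are joined. -/
def TB (m j : ℕ) (P : ℕ → ℕ → Bool → Pt) (y : ℕ → Fin 4 → Pt) : ℕ → Setoid Pt → Prop
  | 0, W => ∃ i, i + 1 < m ∧ W (tp m j P i) (tp m j P (i + 1))
  | t + 1, W => TB m j P y t (W ⊔ s0 (y t)) ∧ TB m j P y t (W ⊔ s1 (y t))

/-- The claim on truncated half twists with extra crossings. -/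
def QQ (m j t : ℕ) : Prop := ∀ (Pt : Type) (W : Setoid Pt) (P : ℕ → ℕ → Bool → Pt)
  (y : ℕ → Fin 4 → Pt), LinT m j P W → Legit W (qx P y) (ts m j t) → TB m j P y t W →
  ∀ h, m ^ 2 / 4 + t < h → Ex tt W (qx P y) (ts m j t) h

/-- Adding `k` isolated points. -/
def sumS (k : ℕ) (W : Setoid Pt) : Setoid (Pt ⊕ Fin k) where
  r p q := (∃ a b, p = Sum.inl a ∧ q = Sum.inl b ∧ W a b) ∨ (∃ i, p = Sum.inr i ∧ q = Sum.inr i)
  iseqv := by
    refine ⟨?_, ?_, ?_⟩
    · rintro (a | i)
      · exact Or.inl ⟨a, a, rfl, rfl, W.refl a⟩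
      · exact Or.inr ⟨i, rfl, rfl⟩
    · rintro p q (⟨a, b, rfl, rfl, h⟩ | ⟨i, rfl, rfl⟩)
      · exact Or.inl ⟨b, a, rfl, rfl, W.symm h⟩
      · exact Or.inr ⟨i, rfl, rfl⟩
    · rintro p q r (⟨a, b, rfl, rfl, h⟩ | ⟨i, rfl, rfl⟩) (⟨a', b', h1, rfl, h2⟩ | ⟨i', h1, rfl⟩)
      · cases h1; exact Or.inl ⟨a, b', rfl, rfl, W.trans h h2⟩
      · cases h1
      · cases h1
      · cases h1; exact Or.inr ⟨i, rfl, rfl⟩

variable [DecidableEq ι]

/-- Insertion of a second Reidemeister pair at the labels `l`, `m` (`c1`: the crossing to be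
1-smoothed, `c2`: the crossing to be 0-smoothed). -/
def ins2 (x : ι → Fin 4 → Pt) (l m : ι × Fin 4) (c1 c2 : ι) : ι → Fin 4 → Pt ⊕ Fin 4 :=
  fun c k =>
    if c = c1 then ![Sum.inr 2, Sum.inr 3, Sum.inl (x m.1 m.2), Sum.inl (x l.1 l.2)] k
    else if c = c2 then ![Sum.inr 1, Sum.inr 2, Sum.inr 0, Sum.inr 3] k
    else if (c, k) = l then Sum.inr 0
    else if (c, k) = m then Sum.inr 1
    else Sum.inl (x c k)

/-- Insertion of a kink at the label `l`. -/
def ins1 (x : ι → Fin 4 → Pt) (l : ι × Fin 4) (c0 : ι) : ι → Fin 4 → Pt ⊕ Fin 2 :=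
  fun c k =>
    if c = c0 then ![Sum.inr 0, Sum.inr 1, Sum.inl (x l.1 l.2), Sum.inr 1] k
    else if (c, k) = l then Sum.inr 0
    else Sum.inl (x c k)

end Pool.HPS
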