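import Pool.Agent.HPS.Lee

/-!
# Project HPS, definitions for block D (descent from `ℚ` to `F_2`)
-/

set_option autoImplicit false

open Finset MvPolynomial

namespace Pool.HPS

noncomputable section

variable {Pt ι : Type}

/-- Consistent sign systems `ε r : Pt → {±1}`: the sign between two points joined by the environment
does not depend on the state, and the two ends of a smoothing arc have equal signs. -/
structure Sgn (W : Setoid Pt) (x : ι → Fin 4 → Pt) (S : Finset ι)
    (ε : Finset ι → Pt → ℤ) : Prop where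
  pm : ∀ r p, ε r p = 1 ∨ ε r p = -1
  w : ∀ r r' p q, W p q → ε r p * ε r q = ε r' p * ε r' q
  a0 : ∀ r, ∀ c ∈ S, c ∉ r → ε r (x c 0) = ε r (x c 1) ∧ ε r (x c 2) = ε r (x c 3)
  a1 : ∀ r, ∀ c ∈ S, c ∈ r → ε r (x c 0) = ε r (x c 2) ∧ ε r (x c 1) = ε r (x c 3)

/-- The ideal `X_p² = 1`, `X_p = ± X_q` for related points. -/
def IV (K : Type) [CommRing K] (V : Setoid Pt) (η : Pt → ℤ) : Ideal (MvPolynomial Pt K) :=
  Ideal.span ({f | ∃ p, f = X p ^ 2 - 1} ∪
    {f | ∃ p q, V p q ∧ f = X p - C ((η p * η q : ℤ) : K) * X q})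

/-- Elements that are represented by polynomials of degree `≤ B / 2`. -/
def InD (K : Type) [CommRing K] (V : Setoid Pt) (η : Pt → ℤ) (B : ℤ)
    (f : MvPolynomial Pt K) : Prop :=
  ∃ g, f - g ∈ IV K V η ∧ ∀ m ∈ g.support, 2 * (m.degree : ℤ) ≤ B

/-- The substitution `X_p ↦ X_p + 1` over `F_2`. -/
def Phi (Pt : Type) : Rg Pt →ₐ[ZMod 2] Rg Pt := aeval (fun p => X p + 1)

/-- Faces of the cube anticommute, over `K`. -/
def FaceK [DecidableEq ι] (K : Type) [CommRing K] (W : Setoid Pt) (x : ι → Fin 4 → Pt)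
    (S : Finset ι) (ε : Finset ι → Pt → ℤ) (σ : Finset ι → ι → ℤ) : Prop :=
  ∀ r, r ⊆ S → ∀ c ∈ S, ∀ c' ∈ S, c ∉ r → c' ∉ r → c ≠ c' →
    C ((σ r c : K) * (σ (insert c r) c' : K)) * (kL K W x S r c * kL K W x S (insert c r) c') +
      C ((σ r c' : K) * (σ (insert c' r) c : K)) *
        (kL K W x S r c' * kL K W x S (insert c' r) c) ∈
      IV K (U W x S (insert c (insert c' r))) (ε (insert c (insert c' r)))

end

end Pool.HPS
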