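import Pool.Agent.HPS.DefsD

/-!
# Project HPS, definitions for block S (existence of a sign assignment)

The signs come from ordering the circles of a state (wedge product of the circles): the circles are ordered by their smallest
points.
-/

set_option autoImplicit false

open Finset MvPolynomial

namespace Pool.HPS

noncomputable section

variable {Pt ι : Type}

/-- The smallest number of a point in the class of `a`. -/
def rp (ord : Pt → ℕ) (V : Setoid Pt) (a : Pt) : ℕ := sInf {n | ∃ b, V a b ∧ ord b = n}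

/-- The number of classes whose smallest number is `< n`. -/
def ps (ord : Pt → ℕ) (V : Setoid Pt) (n : ℕ) : ℕ :=
  Nat.card {u : ℕ // u < n ∧ ∃ a, rp ord V a = u}

/-- The sign of `C_a ∧ C_b ∧ Y ↦ C_{ab} ∧ Y` with respect to the ordered wedge products. -/
def sg (ord : Pt → ℕ) (V : Setoid Pt) (a b : Pt) : ℤ :=
  (if rp ord V a < rp ord V b then -1 else 1) *
    (-1) ^ ps ord V (max (rp ord V a) (rp ord V b))

open Classical in
/-- The sign of a saddle from `V` to `V'` at the crossing `y`. -/
def sgk (ord : Pt → ℕ) (G : ℤ) (V V' : Setoid Pt) (y : Fin 4 → Pt) : ℤ :=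
  if ¬ V (y 0) (y 2) then sg ord V (y 0) (y 2)
  else if ¬ V' (y 0) (y 1) then G * sg ord V' (y 0) (y 1) else 1

open Classical in
/-- The saddle coefficient from `V` to `V'` at the crossing `y`. -/
def kk (V V' : Setoid Pt) (y : Fin 4 → Pt) : MvPolynomial Pt ℚ :=
  if ¬ V (y 0) (y 2) then 1 else if ¬ V' (y 0) (y 1) then X (y 0) + X (y 1) else 0

/-- Source-sink type of the labels. -/
def ty : Fin 4 → ℤ := ![1, -1, -1, 1]

/-- The signs `η` between labels joined by `W` are given by their types and by the signs `G` of their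
crossings. -/
def OrS (W : Setoid Pt) (x : ι → Fin 4 → Pt) (S : Finset ι) (η : Pt → ℤ) (G : ι → ℤ) : Prop :=
  ∀ c ∈ S, ∀ c' ∈ S, ∀ k k' : Fin 4, (c, k) ≠ (c', k') → W (x c k) (x c' k') →
    η (x c k) * η (x c' k') = -(ty k * ty k' * G c * G c')

/-- The sign of a crossing of `H_p`. -/
def Gc (c : ℕ × ℕ) : ℤ := (-1) ^ (c.1 + c.2 + 1)

/-- A numbering of the half-edges. -/
def ordH (q : ℕ) (h : HE q) : ℕ :=
  2 * ((h.1 : ℕ) * (2 * q + 1) + (h.2.1 : ℕ)) + (if h.2.2 then 1 else 0)

/-- The sign assignment. -/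
def sgA (q : ℕ) (r : Finset (ℕ × ℕ)) (c : ℕ × ℕ) : ℤ :=
  sgk (ordH q) (Gc c) (U (wires q) (hx q) (cr q) r) (U (wires q) (hx q) (cr q) (insert c r))
    (hx q c)

end

end Pool.HPS
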