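import Pool.Agent.HPS.Leg

/-!
# Module HPS-Sad: one saddle

`sad`: the four labels `(c, 0..3)` are perfectly matched by `W`; `sad_U`: the three cases split, merge, neutral;
`kap_J`: the saddle coefficient maps the ideal before the saddle to the ideal after it; `card_join`: joining two classes
lowers the number of classes by one.
-/

set_option autoImplicit false

open Finset MvPolynomial

namespace Pool.HPS

variable {Pt ι : Type}

theorem I_mono {V V' : Setoid Pt} (h : V ≤ V') : I V ≤ I V' := by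
  refine Ideal.span_mono (Set.union_subset_union_right _ ?_)
  rintro f ⟨p, q, hpq, rfl⟩
  exact ⟨p, q, h hpq, rfl⟩

theorem mem_I {V : Setoid Pt} {p q : Pt} (h : V p q) : (X p + X q : Rg Pt) ∈ I V :=
  Ideal.subset_span (Or.inr ⟨p, q, h, rfl⟩)

theorem J_of {E : Setoid Pt → ℕ → Prop} {V : Setoid Pt} {k : ℕ} (h : E V k) : J E V k = I V := by
  rw [J, if_pos h]

theorem J_not {E : Setoid Pt → ℕ → Prop} {V : Setoid Pt} {k : ℕ} (h : ¬ E V k) : J E V k = ⊤ := by
  rw [J, if_neg h]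

theorem I_le_J {E : Setoid Pt → ℕ → Prop} {V : Setoid Pt} {k : ℕ} : I V ≤ J E V k := by
  by_cases h : E V k
  · rw [J_of h]
  · rw [J_not h]
    exact le_top

private theorem fin4_0 : ∀ j : Fin 4, j ≠ 0 → j = 1 ∨ j = 2 ∨ j = 3 := by decide

private theorem fin4_1 : ∀ j : Fin 4, j ≠ 1 → j = 0 ∨ j = 2 ∨ j = 3 := by decide

private theorem fin4_2 : ∀ j : Fin 4, j ≠ 2 → j = 0 ∨ j = 1 ∨ j = 3 := by decide

private theorem sq_mem {V : Setoid Pt} (p : Pt) : (X p ^ 2 : Rg Pt) ∈ I V :=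
  Ideal.subset_span (Or.inl ⟨p, rfl⟩)

private theorem self_add (f : Rg Pt) : f + f = 0 := CharTwo.add_self_eq_zero f

/-- the split case -/
private theorem split_mul {V0 V1 : Setoid Pt} {a b : Pt} (h : V0 = V1 ⊔ pr a b) {f : Rg Pt}
    (hf : f ∈ I V0) : (X a + X b) * f ∈ I V1 := by
  have hab : ((X a + X b) * (X a + X b) : Rg Pt) ∈ I V1 := by
    rw [← sq, CharTwo.add_sq]
    exact (I V1).add_mem (sq_mem a) (sq_mem b)
  have key : I V0 ≤ Submodule.comap (LinearMap.mulLeft (Rg Pt) (X a + X b)) (I V1) := by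
    refine Submodule.span_le.2 ?_
    rintro g (⟨p, rfl⟩ | ⟨p, q, hpq, rfl⟩)
    · exact (I V1).mul_mem_left _ (sq_mem p)
    · show (X a + X b) * (X p + X q) ∈ I V1
      rw [h, sup_pr] at hpq
      rcases hpq with h1 | ⟨h1, h2⟩ | ⟨h1, h2⟩
      · exact (I V1).mul_mem_left _ (mem_I h1)
      · have e : ((X a + X b) * (X p + X q) : Rg Pt) = (X a + X b) * (X p + X a) +
            (X a + X b) * (X b + X q) + (X a + X b) * (X a + X b) := by
          have e1 := self_add (Pt := Pt) (X a)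
          have e2 := self_add (Pt := Pt) (X b)
          linear_combination (-(X a + X b)) * e1 + (-(X a + X b)) * e2
        rw [e]
        exact (I V1).add_mem ((I V1).add_mem ((I V1).mul_mem_left _ (mem_I h1))
          ((I V1).mul_mem_left _ (mem_I h2))) hab
      · have e : ((X a + X b) * (X p + X q) : Rg Pt) = (X a + X b) * (X p + X b) +
            (X a + X b) * (X a + X q) + (X a + X b) * (X a + X b) := by
          have e1 := self_add (Pt := Pt) (X a)
          have e2 := self_add (Pt := Pt) (X b)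
          linear_combination (-(X a + X b)) * e1 + (-(X a + X b)) * e2
        rw [e]
        exact (I V1).add_mem ((I V1).add_mem ((I V1).mul_mem_left _ (mem_I h1))
          ((I V1).mul_mem_left _ (mem_I h2))) hab
  exact key hf

private theorem kap_pos {V : Setoid Pt} {y : Fin 4 → Pt} (h : V (y 0) (y 2)) :
    kap V y = X (y 0) + X (y 1) := by
  rw [kap, if_pos h]

private theorem kap_neg {V : Setoid Pt} {y : Fin 4 → Pt} (h : ¬ V (y 0) (y 2)) :
    kap V y = 1 := by
  rw [kap, if_neg h]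

private theorem s0_rel {V : Setoid Pt} {y : Fin 4 → Pt} :
    (V ⊔ s0 y) (y 0) (y 1) ∧ (V ⊔ s0 y) (y 2) (y 3) :=
  s0_le.1 le_sup_right

private theorem s1_rel {V : Setoid Pt} {y : Fin 4 → Pt} :
    (V ⊔ s1 y) (y 0) (y 2) ∧ (V ⊔ s1 y) (y 1) (y 3) :=
  s1_le.1 le_sup_right

variable [DecidableEq ι] {W : Setoid Pt} {x : ι → Fin 4 → Pt} {S : Finset ι} {c : ι}

theorem sad (h : Legit W x {c}) :
    (W (x c 0) (x c 2) ∧ W (x c 1) (x c 3) ∧ ¬ W (x c 0) (x c 1)) ∨
    (W (x c 0) (x c 1) ∧ W (x c 2) (x c 3) ∧ ¬ W (x c 0) (x c 2)) ∨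
    (W (x c 0) (x c 3) ∧ W (x c 1) (x c 2) ∧ ¬ W (x c 0) (x c 1)) := by
  have key : ∀ i : Fin 4, ∃ j : Fin 4, j ≠ i ∧ W (x c i) (x c j) ∧
      ∀ k : Fin 4, k ≠ i → W (x c i) (x c k) → k = j := by
    intro i
    obtain ⟨⟨c', j⟩, hj, hne, hW, hu⟩ := h (c, i) (Finset.mem_singleton_self c)
    obtain rfl : c' = c := Finset.mem_singleton.1 hj
    refine ⟨j, fun e => hne (by rw [e]), hW, fun k hk hWk => ?_⟩
    have h1 := hu (c', k) (Finset.mem_singleton_self c')
      (fun e => hk (Prod.mk.inj e).2) hWk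
    exact (Prod.mk.inj h1).2
  obtain ⟨j, hj, hW, hu⟩ := key 0
  have hne : ∀ k : Fin 4, k ≠ 0 → k ≠ j → ¬ W (x c 0) (x c k) := fun k h1 h2 h3 =>
    h2 (hu k h1 h3)
  obtain ⟨j1, hj1, hW1, -⟩ := key 1
  obtain ⟨j2, hj2, hW2, -⟩ := key 2
  have hj' := fin4_0 j hj
  rcases hj' with rfl | rfl | rfl
  · right
    left
    refine ⟨hW, ?_, hne 2 (by decide) (by decide)⟩
    have hj2' := fin4_2 j2 hj2
    rcases hj2' with rfl | rfl | rfl
    · exact absurd (W.symm hW2) (hne 2 (by decide) (by decide))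
    · exact absurd (W.trans hW (W.symm hW2)) (hne 2 (by decide) (by decide))
    · exact hW2
  · left
    refine ⟨hW, ?_, hne 1 (by decide) (by decide)⟩
    have hj1' := fin4_1 j1 hj1
    rcases hj1' with rfl | rfl | rfl
    · exact absurd (W.symm hW1) (hne 1 (by decide) (by decide))
    · exact absurd (W.trans hW (W.symm hW1)) (hne 1 (by decide) (by decide))
    · exact hW1
  · right
    right
    refine ⟨hW, ?_, hne 1 (by decide) (by decide)⟩
    have hj1' := fin4_1 j1 hj1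
    rcases hj1' with rfl | rfl | rfl
    · exact absurd (W.symm hW1) (hne 1 (by decide) (by decide))
    · exact hW1
    · exact absurd (W.trans hW (W.symm hW1)) (hne 1 (by decide) (by decide))

/-- Split, merge or neutral. -/
theorem sad_U (h : Legit W x {c}) :
    ((W ⊔ s0 (x c)) (x c 0) (x c 2) ∧ ¬ (W ⊔ s1 (x c)) (x c 0) (x c 1) ∧
      W ⊔ s0 (x c) = (W ⊔ s1 (x c)) ⊔ pr (x c 0) (x c 1)) ∨
    (¬ (W ⊔ s0 (x c)) (x c 0) (x c 2) ∧ (W ⊔ s1 (x c)) (x c 0) (x c 1) ∧
      W ⊔ s1 (x c) = (W ⊔ s0 (x c)) ⊔ pr (x c 0) (x c 2)) ∨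
    ((W ⊔ s0 (x c)) (x c 0) (x c 2) ∧ (W ⊔ s1 (x c)) (x c 0) (x c 1) ∧
      W ⊔ s0 (x c) = W ⊔ s1 (x c)) := by
  have i0 : W ≤ W ⊔ s0 (x c) := le_sup_left
  have i1 : W ≤ W ⊔ s1 (x c) := le_sup_left
  rcases sad h with ⟨h1, h2, h3⟩ | ⟨h1, h2, h3⟩ | ⟨h1, h2, h3⟩
  · left
    have e : W ⊔ s1 (x c) = W := sup_eq_left.2 (s1_le.2 ⟨h1, h2⟩)
    refine ⟨i0 h1, by rwa [e], ?_⟩
    rw [e]
    apply le_antisymm
    · refine sup_le le_sup_left (s0_le.2 ?_)
      have j : W ≤ W ⊔ pr (x c 0) (x c 1) := le_sup_left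
      have j2 : (W ⊔ pr (x c 0) (x c 1)) (x c 0) (x c 1) := pr_le.1 le_sup_right
      exact ⟨j2, Setoid.trans' _ (Setoid.symm' _ (j h1)) (Setoid.trans' _ j2 (j h2))⟩
    · exact sup_le le_sup_left (pr_le.2 s0_rel.1)
  · right
    left
    have e : W ⊔ s0 (x c) = W := sup_eq_left.2 (s0_le.2 ⟨h1, h2⟩)
    refine ⟨by rwa [e], i1 h1, ?_⟩
    rw [e]
    apply le_antisymm
    · refine sup_le le_sup_left (s1_le.2 ?_)
      have j : W ≤ W ⊔ pr (x c 0) (x c 2) := le_sup_left
      have j2 : (W ⊔ pr (x c 0) (x c 2)) (x c 0) (x c 2) := pr_le.1 le_sup_right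
      exact ⟨j2, Setoid.trans' _ (Setoid.symm' _ (j h1)) (Setoid.trans' _ j2 (j h2))⟩
    · exact sup_le le_sup_left (pr_le.2 s1_rel.1)
  · right
    right
    have a1 := (s0_rel (V := W) (y := x c)).1
    have a2 := (s0_rel (V := W) (y := x c)).2
    have b1 := (s1_rel (V := W) (y := x c)).1
    have b2 := (s1_rel (V := W) (y := x c)).2
    refine ⟨Setoid.trans' _ a1 (i0 h2), Setoid.trans' _ b1 (Setoid.symm' _ (i1 h2)), ?_⟩
    apply le_antisymm
    · refine sup_le le_sup_left (s0_le.2 ⟨Setoid.trans' _ b1 (Setoid.symm' _ (i1 h2)),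
        Setoid.trans' _ (Setoid.symm' _ (i1 h2)) b2⟩)
    · refine sup_le le_sup_left (s1_le.2 ⟨Setoid.trans' _ a1 (i0 h2),
        Setoid.trans' _ (i0 h2) a2⟩)

theorem kap_J {E : Setoid Pt → ℕ → Prop} (hE : EOk E) (h : Legit W x {c}) {k : ℕ} {f : Rg Pt}
    (hf : f ∈ J E (W ⊔ s0 (x c)) k) :
    kap (W ⊔ s0 (x c)) (x c) * f ∈ J E (W ⊔ s1 (x c)) (k + 1) := by
  by_cases hk : E (W ⊔ s1 (x c)) (k + 1)
  swap
  · rw [J_not hk]
    exact Submodule.mem_top
  rw [J_of hk]
  rcases sad_U h with ⟨h1, h2, h3⟩ | ⟨h1, h2, h3⟩ | ⟨h1, h2, h3⟩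
  · have h4 : E (W ⊔ s0 (x c)) k := by
      rw [h3]
      exact (hE.dn _ _ _ _ h2).2 hk
    rw [J_of h4] at hf
    rw [kap_pos h1]
    exact split_mul h3 hf
  · have h4 : E (W ⊔ s0 (x c)) k := by
      rw [h3] at hk
      exact (hE.up _ _ _ _ h1).1 hk
    rw [J_of h4] at hf
    rw [kap_neg h1, one_mul, h3]
    exact I_mono le_sup_left hf
  · rw [kap_pos h1]
    exact Ideal.mul_mem_right _ _ (mem_I h2)

private theorem U_er {r : Finset ι} (hc : c ∈ S) :
    U W x S (r.erase c) = U W x (S.erase c) r ⊔ s0 (x c) := by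
  rw [U_last0 hc (Finset.notMem_erase c r)]
  congr 1
  apply U_congr
  intro c' hc'
  rw [Finset.mem_erase]
  exact ⟨fun h1 => h1.2, fun h1 => ⟨(Finset.mem_erase.1 hc').1, h1⟩⟩

/-- The same inside a system. -/
theorem kap_JU {E : Setoid Pt → ℕ → Prop} (hE : EOk E) (h : Legit W x S) {r : Finset ι}
    (hr : r ⊆ S) (hc : c ∈ r) {k : ℕ} {f : Rg Pt} (hf : f ∈ J E (U W x S (r.erase c)) k) :
    kap (U W x S (r.erase c)) (x c) * f ∈ J E (U W x S r) (k + 1) := by
  rw [U_er (hr hc)] at hf ⊢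
  rw [U_last1 (hr hc) hc]
  exact kap_J hE (legit_one h (hr hc) r) hf

/-- If `E` fails before the saddle and holds after it, the saddle coefficient is zero. -/
theorem kap_neutral {E : Setoid Pt → ℕ → Prop} (hE : EOk E) (h : Legit W x S) {r : Finset ι}
    (hr : r ⊆ S) (hc : c ∈ r) {k : ℕ} (h0 : ¬ E (U W x S (r.erase c)) k)
    (h1 : E (U W x S r) (k + 1)) :
    kap (U W x S (r.erase c)) (x c) ∈ I (U W x S r) := by
  rw [U_er (hr hc)] at h0 ⊢
  rw [U_last1 (hr hc) hc] at h1 ⊢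
  rcases sad_U (legit_one h (hr hc) r) with ⟨h2, h3, h4⟩ | ⟨h2, h3, h4⟩ | ⟨h2, h3, h4⟩
  · refine absurd ?_ h0
    rw [h4]
    exact (hE.dn _ _ _ _ h3).2 h1
  · refine absurd ?_ h0
    rw [h4] at h1
    exact (hE.up _ _ _ _ h2).1 h1
  · rw [kap_pos h2]
    exact mem_I h3

theorem card_join [Finite Pt] (V : Setoid Pt) {a b : Pt} (h : ¬ V a b) :
    Nat.card (Quotient (V ⊔ pr a b)) + 1 = Nat.card (Quotient V) := by
  classical
  have hle : V ≤ V ⊔ pr a b := le_sup_left
  let g : Quotient V → Quotient (V ⊔ pr a b) := Quotient.map' id (fun p q hpq => hle hpq)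
  let f : {q : Quotient V // q ≠ Quotient.mk V b} → Quotient (V ⊔ pr a b) := fun q => g q.1
  have hf : Function.Bijective f := by
    constructor
    · rintro ⟨q1, h1⟩ ⟨q2, h2⟩ h12
      induction q1 using Quotient.inductionOn with
      | h p1 =>
      induction q2 using Quotient.inductionOn with
      | h p2 =>
      have h3 : (V ⊔ pr a b) p1 p2 := Quotient.exact h12
      have h1' : ¬ V p1 b := fun e => h1 (Quotient.sound e)
      have h2' : ¬ V b p2 := fun e => h2 (Quotient.sound (V.symm e))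
      rw [sup_pr] at h3
      rcases h3 with h3 | ⟨h3, h4⟩ | ⟨h3, h4⟩
      · exact Subtype.ext (Quotient.sound h3)
      · exact absurd h4 h2'
      · exact absurd h3 h1'
    · intro q
      induction q using Quotient.inductionOn with
      | h p =>
      by_cases hp : V p b
      · refine ⟨⟨Quotient.mk V a, fun e => h (Quotient.exact e)⟩, ?_⟩
        refine Quotient.sound ?_
        show (V ⊔ pr a b) a p
        rw [sup_pr]
        exact Or.inr (Or.inl ⟨V.refl a, V.symm hp⟩)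
      · exact ⟨⟨Quotient.mk V p, fun e => hp (Quotient.exact e)⟩, rfl⟩
  rw [← Nat.card_congr (Equiv.ofBijective f hf), ← Finite.card_option,
    Nat.card_congr (Equiv.optionSubtypeNe (Quotient.mk V b))]

theorem EOk_tt : EOk (tt : Setoid Pt → ℕ → Prop) :=
  ⟨fun _ _ _ _ _ => Iff.rfl, fun _ _ _ _ _ => Iff.rfl⟩

theorem EOk_par [Finite Pt] (e : ℕ) : EOk (par e : Setoid Pt → ℕ → Prop) := by
  constructor
  · intro V a b k h
    have h1 := card_join V h
    unfold par
    rw [← h1, Nat.even_iff, Nat.even_iff]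
    omega
  · intro V a b k h
    have h1 := card_join V h
    unfold par
    rw [← h1, Nat.even_iff, Nat.even_iff]
    omega

theorem EOk_shE {E : Setoid Pt → ℕ → Prop} (hE : EOk E) : EOk (shE E) :=
  ⟨fun V a b k h => hE.up V a b (k + 1) h, fun V a b k h => hE.dn V a b (k + 1) h⟩

theorem EOk_shN {E : Setoid Pt → ℕ → Prop} (hE : EOk E) (N : ℕ) : EOk (shN N E) := by
  constructor
  · intro V a b k h
    have h1 := hE.up V a b (k + N) h
    have e : k + 1 + N = k + N + 1 := by omega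
    unfold shN
    rw [e]
    exact h1
  · intro V a b k h
    have h1 := hE.dn V a b (k + N) h
    have e : k + 1 + N = k + N + 1 := by omega
    unfold shN
    rw [e]
    exact h1

theorem shN_par (e N : ℕ) : shN N (par e : Setoid Pt → ℕ → Prop) = par (e + N) := by
  funext V k
  unfold shN par
  have e1 : Nat.card (Quotient V) + (k + N) + e = Nat.card (Quotient V) + k + (e + N) := by omega
  rw [e1]

theorem par_congr {e e' : ℕ} (h : e % 2 = e' % 2) :
    (par e : Setoid Pt → ℕ → Prop) = par e' := by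
  funext V k
  apply propext
  unfold par
  rw [Nat.even_iff, Nat.even_iff]
  omega

end Pool.HPS
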