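import Pool.Agent.HPS.DefsD
import Pool.Agent.HPS.Sad

/-!
# Module HPS-Lv: the Lee differential over a ring `K`: well defined, filtered, `d² = 0` (imports Sad, Leg; use `sad_U`, `card_join`, `legit_one`)

PLAN.
* `InD_add`, `InD_C_mul`, `InD_X_mul`, `InD_mono`, `InD_of_mem`: direct (`support_add`, `support_C_mul`, `support_X_mul` / degree of `X h * m`).
* `Sgn.rel` : if `p, q` are related in `U W x (S.erase c) r` then `ε s p * ε s q = ε s' p * ε s' q` whenever `s`, `s'` agree with `r` away from `c` (on `S.erase c`): the relation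
  `ε s p * ε s q = ε s' p * ε s' q` is a setoid (signs are `±1`) containing `W` (`Sgn.w`) and the arcs (`a0`, `a1`).
* `kL_IV` (`s = r.erase c`, `V0 = U W x S s`, `V1 = U W x S r`, both `= V' ⊔ s?(x c)`, `V' = U W x (S.erase c) s`, `U_last0`, `U_last1`, `U_congr`; cases by `sad_U`):
  merge (`kL = 1`): `V0 ≤ V1`... here `V0 = V'` and a generator `X_p - C (ε s p * ε s q) X_q` of `IV V0` is a generator of `IV V1` since `V0 = V' ≤ V1` and the signs
  agree (`Sgn.rel`).  split (`kL = X_a + X_b`, `a = x c 0`, `b = x c 1`, `V1 = V'`, `V0 = V' ⊔ pr a b`): by `sup_pr` a generator of `IV V0` is either one of `IV V1`, or it comes from `p ~ a`, `q ~ b` in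
  `V1`; modulo `IV V1` it is a multiple of `X_a - C(..) X_b` with sign `ε s a * ε s b = 1` (arc of the state `s`), and `(X_a + X_b)(X_a - X_b) = X_a² - X_b² ∈ IV V1`.
  neutral: `kL = 0`.
* `kL_InD`: as before, with `circ r = circ s - 1` (merge), `circ s + 1` (split), `r.card = s.card + 1` (`card_join`, `[Finite Pt]`), `InD_X_mul`.
* `dL_IV`, `dL_InD`: sums.  `dL_dL`: pair `(c, c')` and `(c', c)`; use `FaceK` at `(r.erase c).erase c'`.
-/

set_option autoImplicit false

open Finset MvPolynomial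

namespace Pool.HPS

section basic

variable {Pt : Type} {K : Type} [CommRing K] {V : Setoid Pt} {η : Pt → ℤ} {B B' : ℤ}
  {f g : MvPolynomial Pt K}

private theorem lv_self (h : ∀ m ∈ f.support, 2 * (m.degree : ℤ) ≤ B) : InD K V η B f :=
  ⟨f, by rw [sub_self]; exact Ideal.zero_mem _, h⟩

theorem InD_add (h1 : InD K V η B f) (h2 : InD K V η B g) : InD K V η B (f + g) := by
  classical
  obtain ⟨f', hf, hf'⟩ := h1
  obtain ⟨g', hg, hg'⟩ := h2
  refine ⟨f' + g', ?_, ?_⟩
  · have e : f + g - (f' + g') = (f - f') + (g - g') := by ring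
    rw [e]
    exact Ideal.add_mem _ hf hg
  · intro m hm
    rcases Finset.mem_union.1 (MvPolynomial.support_add hm) with h | h
    · exact hf' m h
    · exact hg' m h

theorem InD_neg (h1 : InD K V η B f) : InD K V η B (-f) := by
  obtain ⟨f', hf, hf'⟩ := h1
  refine ⟨-f', ?_, ?_⟩
  · have e : -f - -f' = -(f - f') := by ring
    rw [e]
    exact (Ideal.neg_mem_iff _).2 hf
  · intro m hm
    rw [MvPolynomial.support_neg] at hm
    exact hf' m hm

theorem InD_zero : InD K V η B (0 : MvPolynomial Pt K) :=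
  lv_self (by intro m hm; rw [MvPolynomial.support_zero] at hm; exact absurd hm (Finset.notMem_empty m))

theorem InD_C_mul (a : K) (h1 : InD K V η B f) : InD K V η B (C a * f) := by
  obtain ⟨f', hf, hf'⟩ := h1
  refine ⟨C a * f', ?_, ?_⟩
  · rw [← mul_sub]
    exact Ideal.mul_mem_left _ _ hf
  · intro m hm
    rw [C_mul'] at hm
    exact hf' m (MvPolynomial.support_smul hm)

theorem InD_X_mul (p : Pt) (h1 : InD K V η B f) : InD K V η (B + 2) (X p * f) := by
  classical
  obtain ⟨f', hf, hf'⟩ := h1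
  refine ⟨X p * f', ?_, ?_⟩
  · rw [← mul_sub]
    exact Ideal.mul_mem_left _ _ hf
  · intro m hm
    rw [MvPolynomial.support_X_mul, Finset.mem_map] at hm
    obtain ⟨m', hm', rfl⟩ := hm
    have h2 := hf' m' hm'
    have h3 : (addLeftEmbedding (Finsupp.single p 1) m').degree = 1 + m'.degree := by
      show (Finsupp.single p 1 + m').degree = 1 + m'.degree
      rw [map_add, Finsupp.degree_single]
    rw [h3]
    push_cast
    linarith

theorem InD_mono (hB : B ≤ B') (h1 : InD K V η B f) : InD K V η B' f := by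
  obtain ⟨f', hf, hf'⟩ := h1
  exact ⟨f', hf, fun m hm => (hf' m hm).trans hB⟩

theorem InD_of_mem (h : f ∈ IV K V η) : InD K V η B f :=
  ⟨0, by rw [sub_zero]; exact h, by
    intro m hm; rw [MvPolynomial.support_zero] at hm; exact absurd hm (Finset.notMem_empty m)⟩

theorem InD_congr (h : f - g ∈ IV K V η) (h1 : InD K V η B g) : InD K V η B f := by
  obtain ⟨g', hg, hg'⟩ := h1
  refine ⟨g', ?_, hg'⟩
  have e : f - g' = (f - g) + (g - g') := by ring
  rw [e]
  exact Ideal.add_mem _ h hg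

end basic

variable {Pt ι : Type} [DecidableEq ι] {W : Setoid Pt} {x : ι → Fin 4 → Pt} {S : Finset ι}
  {ε : Finset ι → Pt → ℤ} {σ : Finset ι → ι → ℤ} (K : Type) [CommRing K]

private theorem lv_sq (hS : Sgn W x S ε) (r : Finset ι) (p : Pt) : ε r p * ε r p = 1 := by
  rcases hS.pm r p with h | h <;> rw [h] <;> norm_num

/-- Signs between points related away from the changed crossings agree. -/
private theorem lv_rel (hS : Sgn W x S ε) {T : Finset ι} (hT : T ⊆ S) {s s' : Finset ι}
    (h : ∀ c ∈ T, (c ∈ s ↔ c ∈ s')) {p q : Pt} (hpq : U W x T s p q) :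
    ε s p * ε s q = ε s' p * ε s' q := by
  let R : Setoid Pt :=
    { r := fun p q => ε s p * ε s q = ε s' p * ε s' q
      iseqv := by
        refine ⟨?_, ?_, ?_⟩
        · intro u
          show ε s u * ε s u = ε s' u * ε s' u
          rw [lv_sq hS, lv_sq hS]
        · intro u v huv
          have huv' : ε s u * ε s v = ε s' u * ε s' v := huv
          show ε s v * ε s u = ε s' v * ε s' u
          rw [mul_comm, huv', mul_comm]
        · intro u v w huv hvw
          have huv' : ε s u * ε s v = ε s' u * ε s' v := huv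
          have hvw' : ε s v * ε s w = ε s' v * ε s' w := hvw
          show ε s u * ε s w = ε s' u * ε s' w
          have h1 := lv_sq hS s v
          have h2 := lv_sq hS s' v
          have e1 : ε s u * ε s w = (ε s u * ε s v) * (ε s v * ε s w) := by
            linear_combination (-(ε s u * ε s w)) * h1
          have e2 : ε s' u * ε s' w = (ε s' u * ε s' v) * (ε s' v * ε s' w) := by
            linear_combination (-(ε s' u * ε s' w)) * h2
          rw [e1, e2, huv', hvw'] }
  have hR : ∀ u v, R u v ↔ ε s u * ε s v = ε s' u * ε s' v := fun u v => Iff.rfl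
  have h1 : U W x T s ≤ R := by
    rw [U, sup_le_iff]
    refine ⟨?_, Finset.sup_le ?_⟩
    · rw [Setoid.le_def]
      intro u v huv
      exact hS.w s s' u v huv
    · intro c hc
      by_cases hcs : c ∈ s
      · have hcs' := (h c hc).1 hcs
        rw [if_pos hcs, s1_le, hR, hR]
        obtain ⟨a1, a2⟩ := hS.a1 s c (hT hc) hcs
        obtain ⟨b1, b2⟩ := hS.a1 s' c (hT hc) hcs'
        rw [a1, a2, b1, b2, lv_sq hS, lv_sq hS, lv_sq hS, lv_sq hS]
        exact ⟨rfl, rfl⟩
      · have hcs' : c ∉ s' := fun e => hcs ((h c hc).2 e)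
        rw [if_neg hcs, s0_le, hR, hR]
        obtain ⟨a1, a2⟩ := hS.a0 s c (hT hc) hcs
        obtain ⟨b1, b2⟩ := hS.a0 s' c (hT hc) hcs'
        rw [a1, a2, b1, b2, lv_sq hS, lv_sq hS, lv_sq hS, lv_sq hS]
        exact ⟨rfl, rfl⟩
  exact h1 hpq

private theorem lv_U0 {r : Finset ι} {c : ι} (hc : c ∈ S) :
    U W x S (r.erase c) = U W x (S.erase c) r ⊔ s0 (x c) := by
  rw [U_last0 hc (Finset.notMem_erase c r)]
  congr 1
  apply U_congr
  intro c' hc'
  rw [Finset.mem_erase]
  exact ⟨fun h1 => h1.2, fun h1 => ⟨(Finset.mem_erase.1 hc').1, h1⟩⟩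

/-- The three kinds of saddles. -/
private theorem lv_cases (hL : Legit W x S) {r : Finset ι} (hr : r ⊆ S) {c : ι} (hc : c ∈ r) :
    (kL K W x S (r.erase c) c = X (x c 0) + X (x c 1) ∧
      U W x S r = U W x (S.erase c) r ∧
      U W x S (r.erase c) = U W x (S.erase c) r ⊔ pr (x c 0) (x c 1) ∧
      ¬ U W x (S.erase c) r (x c 0) (x c 1)) ∨
    (kL K W x S (r.erase c) c = 1 ∧
      U W x S (r.erase c) = U W x (S.erase c) r ∧
      U W x S r = U W x (S.erase c) r ⊔ pr (x c 0) (x c 2) ∧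
      ¬ U W x (S.erase c) r (x c 0) (x c 2)) ∨
    (kL K W x S (r.erase c) c = 0 ∧ U W x S (r.erase c) = U W x S r) := by
  have hcS := hr hc
  have hU0 : U W x S (r.erase c) = U W x (S.erase c) r ⊔ s0 (x c) := lv_U0 hcS
  have hU1 : U W x S r = U W x (S.erase c) r ⊔ s1 (x c) := U_last1 hcS hc
  have hk1 : ¬ U W x S (r.erase c) (x c 0) (x c 2) → kL K W x S (r.erase c) c = 1 := by
    intro h
    unfold kL
    rw [if_pos h]
  have hk2 : U W x S (r.erase c) (x c 0) (x c 2) → ¬ U W x S r (x c 0) (x c 1) →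
      kL K W x S (r.erase c) c = X (x c 0) + X (x c 1) := by
    intro h h'
    unfold kL
    rw [if_neg (not_not.2 h), Finset.insert_erase hc, if_pos h']
  have hk3 : U W x S (r.erase c) (x c 0) (x c 2) → U W x S r (x c 0) (x c 1) →
      kL K W x S (r.erase c) c = 0 := by
    intro h h'
    unfold kL
    rw [if_neg (not_not.2 h), Finset.insert_erase hc, if_neg (not_not.2 h')]
  set V' := U W x (S.erase c) r with hV'
  have hle0 : V' ≤ V' ⊔ s0 (x c) := le_sup_left
  have hle1 : V' ≤ V' ⊔ s1 (x c) := le_sup_left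
  have a0 : (V' ⊔ s0 (x c)) (x c 0) (x c 1) ∧ (V' ⊔ s0 (x c)) (x c 2) (x c 3) :=
    s0_le.1 le_sup_right
  have a1 : (V' ⊔ s1 (x c)) (x c 0) (x c 2) ∧ (V' ⊔ s1 (x c)) (x c 1) (x c 3) :=
    s1_le.1 le_sup_right
  rcases sad (legit_one hL hcS r) with ⟨h1, h2, h3⟩ | ⟨h1, h2, h3⟩ | ⟨h1, h2, h3⟩
  · left
    have e1 : V' ⊔ s1 (x c) = V' := sup_eq_left.2 (s1_le.2 ⟨h1, h2⟩)
    have e0 : V' ⊔ s0 (x c) = V' ⊔ pr (x c 0) (x c 1) := by
      apply le_antisymm
      · refine sup_le le_sup_left (s0_le.2 ⟨?_, ?_⟩)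
        · exact (le_sup_right : pr (x c 0) (x c 1) ≤ V' ⊔ pr (x c 0) (x c 1)) (pr_rel _ _)
        · have i : V' ≤ V' ⊔ pr (x c 0) (x c 1) := le_sup_left
          exact Setoid.trans' _ (Setoid.symm' _ (i h1)) (Setoid.trans' _
            ((le_sup_right : pr (x c 0) (x c 1) ≤ V' ⊔ pr (x c 0) (x c 1)) (pr_rel _ _)) (i h2))
      · exact sup_le le_sup_left (pr_le.2 a0.1)
    refine ⟨?_, ?_, ?_, h3⟩
    · apply hk2
      · rw [hU0]; exact hle0 h1
      · rw [hU1, e1]; exact h3
    · rw [hU1, e1]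
    · rw [hU0, e0]
  · right; left
    have e0 : V' ⊔ s0 (x c) = V' := sup_eq_left.2 (s0_le.2 ⟨h1, h2⟩)
    have e1 : V' ⊔ s1 (x c) = V' ⊔ pr (x c 0) (x c 2) := by
      apply le_antisymm
      · refine sup_le le_sup_left (s1_le.2 ⟨?_, ?_⟩)
        · exact (le_sup_right : pr (x c 0) (x c 2) ≤ V' ⊔ pr (x c 0) (x c 2)) (pr_rel _ _)
        · have i : V' ≤ V' ⊔ pr (x c 0) (x c 2) := le_sup_left
          exact Setoid.trans' _ (Setoid.symm' _ (i h1)) (Setoid.trans' _
            ((le_sup_right : pr (x c 0) (x c 2) ≤ V' ⊔ pr (x c 0) (x c 2)) (pr_rel _ _)) (i h2))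
      · exact sup_le le_sup_left (pr_le.2 a1.1)
    refine ⟨?_, ?_, ?_, h3⟩
    · apply hk1
      rw [hU0, e0]; exact h3
    · rw [hU0, e0]
    · rw [hU1, e1]
  · right; right
    have b0 : (V' ⊔ s0 (x c)) (x c 0) (x c 2) :=
      Setoid.trans' _ (hle0 h1) (Setoid.symm' _ a0.2)
    have b1 : (V' ⊔ s1 (x c)) (x c 0) (x c 1) :=
      Setoid.trans' _ (hle1 h1) (Setoid.symm' _ a1.2)
    refine ⟨?_, ?_⟩
    · apply hk3
      · rw [hU0]; exact b0
      · rw [hU1]; exact b1
    · rw [hU0, hU1]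
      apply le_antisymm
      · refine sup_le le_sup_left (s0_le.2 ⟨b1, ?_⟩)
        exact Setoid.trans' _ (Setoid.symm' _ a1.1) (Setoid.trans' _ b1 a1.2)
      · refine sup_le le_sup_left (s1_le.2 ⟨b0, ?_⟩)
        exact Setoid.trans' _ (Setoid.symm' _ a0.1) (Setoid.trans' _ b0 a0.2)

private theorem lv_gen {V : Setoid Pt} {η : Pt → ℤ} {p q : Pt} (h : V p q) :
    (X p - C ((η p * η q : ℤ) : K) * X q : MvPolynomial Pt K) ∈ IV K V η :=
  Ideal.subset_span (Or.inr ⟨p, q, h, rfl⟩)

private theorem lv_sqg {V : Setoid Pt} {η : Pt → ℤ} (p : Pt) :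
    (X p ^ 2 - 1 : MvPolynomial Pt K) ∈ IV K V η :=
  Ideal.subset_span (Or.inl ⟨p, rfl⟩)

/-- the split relation -/
private theorem lv_split {V : Setoid Pt} {η : Pt → ℤ} {p q a b : Pt} (sp sq sa sb : ℤ)
    (hsq : sq * sq = 1) (hab : sa = sb) (hpa : sp * sa = η p * η a) (hqb : sq * sb = η q * η b)
    (h1 : V p a) (h2 : V q b) :
    ((X a + X b) * (X p - C ((sp * sq : ℤ) : K) * X q) : MvPolynomial Pt K) ∈ IV K V η := by
  have g1 := lv_gen K (η := η) h1
  have g2 := lv_gen K (η := η) h2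
  rw [← hpa] at g1
  rw [← hqb] at g2
  have g3 := lv_sqg K (V := V) (η := η) a
  have g4 := lv_sqg K (V := V) (η := η) b
  have hc : (C ((sq : ℤ) : K) * C ((sq : ℤ) : K) : MvPolynomial Pt K) = 1 := by
    rw [← C_mul, ← Int.cast_mul, hsq, Int.cast_one, C_1]
  have e : ((X a + X b) * (X p - C ((sp * sq : ℤ) : K) * X q) : MvPolynomial Pt K) =
      (X a + X b) * (X p - C ((sp * sa : ℤ) : K) * X a) -
      (C ((sp * sq : ℤ) : K) * (X a + X b)) * (X q - C ((sq * sb : ℤ) : K) * X b) +
      C ((sp * sa : ℤ) : K) * ((X a ^ 2 - 1) - (X b ^ 2 - 1)) := by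
    subst hab
    simp only [Int.cast_mul, C_mul]
    linear_combination (-(C (sp : K)) * C (sa : K) * (X a + X b) * X b) * hc
  rw [e]
  exact Ideal.add_mem _ (Ideal.sub_mem _ (Ideal.mul_mem_left _ _ g1) (Ideal.mul_mem_left _ _ g2))
    (Ideal.mul_mem_left _ _ (Ideal.sub_mem _ g3 g4))

theorem kL_IV (hL : Legit W x S) (hS : Sgn W x S ε) {r : Finset ι} (hr : r ⊆ S) {c : ι}
    (hc : c ∈ r) {f : MvPolynomial Pt K}
    (hf : f ∈ IV K (U W x S (r.erase c)) (ε (r.erase c))) :
    kL K W x S (r.erase c) c * f ∈ IV K (U W x S r) (ε r) := by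
  have hcS := hr hc
  have hsgn : ∀ p q, U W x (S.erase c) r p q →
      ε (r.erase c) p * ε (r.erase c) q = ε r p * ε r q := by
    intro p q hpq
    refine (lv_rel hS (Finset.erase_subset c S) (s := r) (s' := r.erase c) ?_ hpq).symm
    intro c' hc'
    rw [Finset.mem_erase]
    exact ⟨fun h => ⟨(Finset.mem_erase.1 hc').1, h⟩, fun h => h.2⟩
  rcases lv_cases K hL hr hc with ⟨hk, h1, h0, -⟩ | ⟨hk, h0, h1, -⟩ | ⟨hk, -⟩
  · rw [hk, h1]
    have key : IV K (U W x S (r.erase c)) (ε (r.erase c)) ≤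
        Submodule.comap (LinearMap.mulLeft (MvPolynomial Pt K) (X (x c 0) + X (x c 1)))
          (IV K (U W x (S.erase c) r) (ε r)) := by
      refine Submodule.span_le.2 ?_
      rintro g (⟨p, rfl⟩ | ⟨p, q, hpq, rfl⟩)
      · exact Ideal.mul_mem_left _ _ (lv_sqg K p)
      · show (X (x c 0) + X (x c 1)) * _ ∈ IV K (U W x (S.erase c) r) (ε r)
        have hab := (hS.a0 (r.erase c) c hcS (Finset.notMem_erase c r)).1
        rw [h0] at hpq
        rcases (sup_pr _ _ _ _ _).1 hpq with h2 | ⟨h2, h3⟩ | ⟨h2, h3⟩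
        · rw [hsgn p q h2]
          exact Ideal.mul_mem_left _ _ (lv_gen K h2)
        · have h3' := Setoid.symm' _ h3
          exact lv_split K _ _ (ε (r.erase c) (x c 0)) (ε (r.erase c) (x c 1))
            (lv_sq hS _ _) hab (hsgn _ _ h2) (hsgn _ _ h3') h2 h3'
        · have h3' := Setoid.symm' _ h3
          rw [add_comm (X (x c 0))]
          exact lv_split K _ _ (ε (r.erase c) (x c 1)) (ε (r.erase c) (x c 0))
            (lv_sq hS _ _) hab.symm (hsgn _ _ h2) (hsgn _ _ h3') h2 h3'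
    exact key hf
  · rw [hk, one_mul, h1]
    have key : IV K (U W x S (r.erase c)) (ε (r.erase c)) ≤
        IV K (U W x (S.erase c) r ⊔ pr (x c 0) (x c 2)) (ε r) := by
      refine Ideal.span_le.2 ?_
      rintro g (⟨p, rfl⟩ | ⟨p, q, hpq, rfl⟩)
      · exact lv_sqg K p
      · rw [h0] at hpq
        rw [hsgn p q hpq]
        exact lv_gen K ((le_sup_left : U W x (S.erase c) r ≤ _) hpq)
    exact key hf
  · rw [hk, zero_mul]
    exact Ideal.zero_mem _

theorem kL_InD [Finite Pt] (hL : Legit W x S) (hS : Sgn W x S ε) {r : Finset ι} (hr : r ⊆ S)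
    {c : ι} (hc : c ∈ r) {f : MvPolynomial Pt K} {L : ℤ}
    (hf : InD K (U W x S (r.erase c)) (ε (r.erase c))
      ((circ W x S (r.erase c) : ℤ) + (r.erase c).card - L) f) :
    InD K (U W x S r) (ε r) ((circ W x S r : ℤ) + r.card - L)
      (kL K W x S (r.erase c) c * f) := by
  obtain ⟨g, hg, hg'⟩ := hf
  have hcard : (r.erase c).card + 1 = r.card := Finset.card_erase_add_one hc
  have hcard' : ((r.erase c).card : ℤ) + 1 = r.card := by exact_mod_cast hcard
  refine InD_congr (g := kL K W x S (r.erase c) c * g) ?_ ?_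
  · rw [← mul_sub]
    exact kL_IV K hL hS hr hc hg
  have hself := lv_self (V := U W x S r) (η := ε r) hg'
  rcases lv_cases K hL hr hc with ⟨hk, h1, h0, hn⟩ | ⟨hk, h0, h1, hn⟩ | ⟨hk, -⟩
  · rw [hk, add_mul]
    have hcirc : circ W x S (r.erase c) + 1 = circ W x S r := by
      unfold circ
      rw [h0, h1]
      exact card_join _ hn
    have hcirc' : (circ W x S (r.erase c) : ℤ) + 1 = circ W x S r := by exact_mod_cast hcirc
    have e : (circ W x S r : ℤ) + r.card - L =
        (circ W x S (r.erase c) : ℤ) + (r.erase c).card - L + 2 := by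
      rw [← hcirc', ← hcard']; ring
    rw [e]
    exact InD_add (InD_X_mul _ hself) (InD_X_mul _ hself)
  · rw [hk, one_mul]
    have hcirc : circ W x S r + 1 = circ W x S (r.erase c) := by
      unfold circ
      rw [h0, h1]
      exact card_join _ hn
    have hcirc' : (circ W x S r : ℤ) + 1 = circ W x S (r.erase c) := by exact_mod_cast hcirc
    refine InD_mono ?_ hself
    rw [← hcirc', ← hcard']
    linarith
  · rw [hk, zero_mul]
    exact InD_zero

theorem dL_IV (hL : Legit W x S) (hS : Sgn W x S ε) {w : Finset ι → MvPolynomial Pt K}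
    {r : Finset ι} (hr : r ⊆ S)
    (hw : ∀ c ∈ r, w (r.erase c) ∈ IV K (U W x S (r.erase c)) (ε (r.erase c))) :
    dL K W x S σ w r ∈ IV K (U W x S r) (ε r) := by
  unfold dL
  refine Ideal.sum_mem _ fun c hc => ?_
  rw [mul_assoc]
  exact Ideal.mul_mem_left _ _ (kL_IV K hL hS hr hc (hw c hc))

private theorem lv_sum {V : Setoid Pt} {η : Pt → ℤ} {B : ℤ} (T : Finset ι)
    (F : ι → MvPolynomial Pt K) (h : ∀ c ∈ T, InD K V η B (F c)) :
    InD K V η B (∑ c ∈ T, F c) := by
  induction T using Finset.induction_on with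
  | empty => rw [Finset.sum_empty]; exact InD_zero
  | insert c T hc ih =>
    rw [Finset.sum_insert hc]
    exact InD_add (h c (Finset.mem_insert_self c T))
      (ih fun c' hc' => h c' (Finset.mem_insert_of_mem hc'))

theorem dL_InD [Finite Pt] (hL : Legit W x S) (hS : Sgn W x S ε) {r : Finset ι} (hr : r ⊆ S)
    {w : Finset ι → MvPolynomial Pt K} {L : ℤ}
    (hw : ∀ c ∈ r, InD K (U W x S (r.erase c)) (ε (r.erase c))
      ((circ W x S (r.erase c) : ℤ) + (r.erase c).card - L) (w (r.erase c))) :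
    InD K (U W x S r) (ε r) ((circ W x S r : ℤ) + r.card - L) (dL K W x S σ w r) := by
  unfold dL
  refine lv_sum K r _ fun c hc => ?_
  rw [mul_assoc]
  exact InD_C_mul _ (kL_InD K hL hS hr hc (hw c hc))

theorem dL_dL (hL : Legit W x S) (hS : Sgn W x S ε) (hF : FaceK K W x S ε σ)
    (w : Finset ι → MvPolynomial Pt K) {r : Finset ι} (hr : r ⊆ S) :
    dL K W x S σ (dL K W x S σ w) r ∈ IV K (U W x S r) (ε r) := by
  rw [← Ideal.Quotient.eq_zero_iff_mem]
  unfold dL
  simp only [Finset.mul_sum]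
  rw [Finset.sum_sigma', map_sum]
  refine Finset.sum_involution (fun a _ => ⟨a.2, a.1⟩) ?_ ?_ ?_ ?_
  · rintro ⟨c, c'⟩ ha
    rw [Finset.mem_sigma, Finset.mem_erase] at ha
    obtain ⟨hc, hne, hc'⟩ := ha
    simp only at hc hne hc'
    rw [← map_add, Ideal.Quotient.eq_zero_iff_mem]
    have hcomm : (r.erase c').erase c = (r.erase c).erase c' := Finset.erase_right_comm
    have h1 : insert c' ((r.erase c).erase c') = r.erase c :=
      Finset.insert_erase (Finset.mem_erase.2 ⟨hne, hc'⟩)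
    have h2 : insert c ((r.erase c).erase c') = r.erase c' := by
      rw [← hcomm]
      exact Finset.insert_erase (Finset.mem_erase.2 ⟨hne.symm, hc⟩)
    have h3 : insert c (insert c' ((r.erase c).erase c')) = r := by
      rw [h1]; exact Finset.insert_erase hc
    have h4 := hF ((r.erase c).erase c')
      (((Finset.erase_subset _ _).trans (Finset.erase_subset _ _)).trans hr) c (hr hc) c' (hr hc')
      (fun h => (Finset.mem_erase.1 (Finset.mem_erase.1 h).2).1 rfl)
      (Finset.notMem_erase c' _) hne.symm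
    rw [h3, h1, h2] at h4
    have h5 := Ideal.mul_mem_left _ (w ((r.erase c).erase c')) h4
    have e : (C ((σ (r.erase c) c : ℤ) : K) * kL K W x S (r.erase c) c *
          (C ((σ ((r.erase c).erase c') c' : ℤ) : K) * kL K W x S ((r.erase c).erase c') c' *
            w ((r.erase c).erase c')) +
        C ((σ (r.erase c') c' : ℤ) : K) * kL K W x S (r.erase c') c' *
          (C ((σ ((r.erase c').erase c) c : ℤ) : K) * kL K W x S ((r.erase c').erase c) c *
            w ((r.erase c').erase c))) =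
        w ((r.erase c).erase c') *
          (C ((σ ((r.erase c).erase c') c : K) * (σ (r.erase c') c' : K)) *
            (kL K W x S ((r.erase c).erase c') c * kL K W x S (r.erase c') c') +
          C ((σ ((r.erase c).erase c') c' : K) * (σ (r.erase c) c : K)) *
            (kL K W x S ((r.erase c).erase c') c' * kL K W x S (r.erase c) c)) := by
      rw [hcomm]
      simp only [C_mul]
      ring
    rw [e]
    exact h5
  · rintro ⟨c, c'⟩ ha _ h
    rw [Finset.mem_sigma, Finset.mem_erase] at ha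
    have := congrArg Sigma.fst h
    exact ha.2.1 this
  · rintro ⟨c, c'⟩ ha
    rw [Finset.mem_sigma, Finset.mem_erase] at ha ⊢
    exact ⟨ha.2.2, ha.2.1.symm, ha.1⟩
  · rintro ⟨c, c'⟩ ha
    rfl

theorem dL_add (w w' : Finset ι → MvPolynomial Pt K) (r : Finset ι) :
    dL K W x S σ (fun s => w s + w' s) r = dL K W x S σ w r + dL K W x S σ w' r := by
  unfold dL
  rw [← Finset.sum_add_distrib]
  exact Finset.sum_congr rfl fun c _ => mul_add _ _ _

theorem dL_mul (a : MvPolynomial Pt K) (w : Finset ι → MvPolynomial Pt K) (r : Finset ι) :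
    dL K W x S σ (fun s => a * w s) r = a * dL K W x S σ w r := by
  unfold dL
  rw [Finset.mul_sum]
  exact Finset.sum_congr rfl fun c _ => by ring

theorem dL_congr {w w' : Finset ι → MvPolynomial Pt K} {r : Finset ι}
    (h : ∀ c ∈ r, w (r.erase c) = w' (r.erase c)) :
    dL K W x S σ w r = dL K W x S σ w' r := by
  unfold dL
  exact Finset.sum_congr rfl fun c hc => by rw [h c hc]

theorem map_kL (r : Finset ι) (c : ι) :
    MvPolynomial.map (Int.castRingHom K) (kL ℤ W x S r c) = kL K W x S r c := by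
  unfold kL
  split_ifs <;> simp

/-- Changing `ℤ` to `K`. -/
theorem map_dL (w : Finset ι → MvPolynomial Pt ℤ) (r : Finset ι) :
    MvPolynomial.map (Int.castRingHom K) (dL ℤ W x S σ w r) =
      dL K W x S σ (fun s => MvPolynomial.map (Int.castRingHom K) (w s)) r := by
  unfold dL
  rw [map_sum]
  refine Finset.sum_congr rfl fun c _ => ?_
  rw [map_mul, map_mul, MvPolynomial.map_C, map_kL, Int.cast_id, eq_intCast]

/-- Only the states with the right parity matter: `par e` fails before or after a saddle exactly when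
`kL = 0`. -/
theorem kL_par [Finite Pt] (hL : Legit W x S) {r : Finset ι} (hr : r ⊆ S) {c : ι} (hc : c ∈ r)
    (e k : ℕ) (h : ¬ (par e (U W x S (r.erase c)) k ↔ par e (U W x S r) (k + 1))) :
    kL K W x S (r.erase c) c = 0 := by
  have hE := EOk_par (Pt := Pt) e
  rcases lv_cases K hL hr hc with ⟨hk, h1, h0, hn⟩ | ⟨hk, h0, h1, hn⟩ | ⟨hk, -⟩
  · exfalso
    apply h
    rw [h1, h0]
    exact hE.dn _ _ _ _ hn
  · exfalso
    apply h
    rw [h1, h0]
    exact (hE.up _ _ _ _ hn).symm
  · exact hk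

end Pool.HPS
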