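import Pool.Agent.HPS.DefsD

/-!
# Module HPS-NF: normal forms in `K[X_p] / (X_p² = 1, X_p = ± X_q)`

`LL` is the normal form: the coefficients with respect to the basis `g ∈ (ℤ/2)^(Quotient V)`.
-/

set_option autoImplicit false

open Finset MvPolynomial

namespace Pool.HPS

section NFaux

open Classical

variable {Pt : Type} [Fintype Pt] {V : Setoid Pt} {η : Pt → ℤ}

private noncomputable def cls (V : Setoid Pt) : (Pt →₀ ℕ) →+ (Quotient V → ZMod 2) where
  toFun m k := ((∑ p ∈ univ.filter (fun p : Pt => Quotient.mk V p = k), m p : ℕ) : ZMod 2)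
  map_zero' := by
    funext k
    simp
  map_add' m m' := by
    funext k
    simp [Finset.sum_add_distrib]

private lemma cls_apply (m : Pt →₀ ℕ) (k : Quotient V) : cls V m k =
    ((∑ p ∈ univ.filter (fun p : Pt => Quotient.mk V p = k), m p : ℕ) : ZMod 2) := rfl

private lemma cls_single (p : Pt) (n : ℕ) (k : Quotient V) :
    cls V (Finsupp.single p n) k = if Quotient.mk V p = k then (n : ZMod 2) else 0 := by
  rw [cls_apply, Finset.sum_filter]
  have h1 : ∑ q : Pt, (if Quotient.mk V q = k then (Finsupp.single p n) q else 0) =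
      if Quotient.mk V p = k then n else 0 := by
    rw [Finset.sum_eq_single p]
    · rw [Finsupp.single_eq_same]
    · intro q _ hq
      rw [Finsupp.single_eq_of_ne hq]
      exact ite_self 0
    · intro h
      exact absurd (Finset.mem_univ p) h
  rw [h1]
  split_ifs <;> simp

private def sg (η : Pt → ℤ) (m : Pt →₀ ℕ) : ℤ := ∏ p, η p ^ m p

private lemma sg_add (m m' : Pt →₀ ℕ) : sg η (m + m') = sg η m * sg η m' := by
  unfold sg
  rw [← Finset.prod_mul_distrib]
  exact Finset.prod_congr rfl fun p _ => by rw [Finsupp.add_apply, pow_add]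

private lemma sg_single (p : Pt) (n : ℕ) : sg η (Finsupp.single p n) = η p ^ n := by
  unfold sg
  rw [Finset.prod_eq_single p]
  · rw [Finsupp.single_eq_same]
  · intro q _ hq
    rw [Finsupp.single_eq_of_ne hq, pow_zero]
  · intro h
    exact absurd (Finset.mem_univ p) h

private lemma sg_sq (hη : ∀ p, η p = 1 ∨ η p = -1) (m : Pt →₀ ℕ) : sg η m * sg η m = 1 := by
  unfold sg
  rw [← Finset.prod_mul_distrib]
  refine Finset.prod_eq_one fun p _ => ?_
  rw [← mul_pow]
  rcases hη p with h | h <;> rw [h] <;> simp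

private noncomputable def LL (K : Type) [CommRing K] (V : Setoid Pt) (η : Pt → ℤ) :
    MvPolynomial Pt K →ₗ[K] ((Quotient V → ZMod 2) → K) :=
  (MvPolynomial.basisMonomials Pt K).constr K
    (fun m => Pi.single (cls V m) ((sg η m : ℤ) : K))

variable {K : Type} [CommRing K]

private lemma LL_monomial (m : Pt →₀ ℕ) (a : K) :
    LL K V η (monomial m a) = Pi.single (cls V m) (a * ((sg η m : ℤ) : K)) := by
  have h1 : (monomial m a : MvPolynomial Pt K) = a • MvPolynomial.basisMonomials Pt K m := by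
    rw [MvPolynomial.coe_basisMonomials, MvPolynomial.smul_monomial, smul_eq_mul, mul_one]
  rw [h1, map_smul]
  unfold LL
  rw [Module.Basis.constr_basis]
  rw [← Pi.single_smul, smul_eq_mul]

private lemma LL_mul_gen (hη : ∀ p, η p = 1 ∨ η p = -1) (f : MvPolynomial Pt K) (p : Pt) :
    LL K V η (f * (X p ^ 2 - 1)) = 0 := by
  induction f using MvPolynomial.induction_on' with
  | monomial m a =>
    rw [mul_sub, mul_one, map_sub, X_pow_eq_monomial, monomial_mul, mul_one, LL_monomial,
      LL_monomial, map_add, sg_add, sg_single]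
    have h1 : cls V (Finsupp.single p 2) = 0 := by
      funext k
      rw [cls_single]
      split_ifs
      · rfl
      · rfl
    have h2 : η p ^ 2 = 1 := by rcases hη p with h | h <;> rw [h] <;> norm_num
    rw [h1, h2, add_zero, mul_one, sub_self]
  | add f g hf hg => rw [add_mul, map_add, hf, hg, add_zero]

private lemma LL_mul_gen2 (hη : ∀ p, η p = 1 ∨ η p = -1) (f : MvPolynomial Pt K) {p q : Pt}
    (hpq : V p q) : LL K V η (f * (X p - C ((η p * η q : ℤ) : K) * X q)) = 0 := by
  induction f using MvPolynomial.induction_on' with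
  | monomial m a =>
    have h0 : (C ((η p * η q : ℤ) : K) * X q : MvPolynomial Pt K) =
        monomial (Finsupp.single q 1) ((η p * η q : ℤ) : K) := by
      rw [C_mul_X_eq_monomial]
    rw [mul_sub, map_sub, h0, monomial_mul]
    have h00 : (X p : MvPolynomial Pt K) = monomial (Finsupp.single p 1) 1 := rfl
    rw [h00, monomial_mul, mul_one, LL_monomial,
      LL_monomial, map_add, map_add, sg_add, sg_single, sg_add, sg_single]
    have h1 : cls V (Finsupp.single p 1) = cls V (Finsupp.single q 1) := by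
      funext k
      rw [cls_single, cls_single]
      have h3 : Quotient.mk V p = Quotient.mk V q := Quotient.sound hpq
      rw [h3]
    have h2 : a * ((η p * η q : ℤ) : K) * ((sg η m * η q ^ 1 : ℤ) : K) =
        a * ((sg η m * η p ^ 1 : ℤ) : K) := by
      rw [mul_assoc, ← Int.cast_mul]
      congr 2
      have h4 : η q * η q = 1 := by rcases hη q with h | h <;> rw [h] <;> norm_num
      linear_combination (η p * sg η m) * h4
    rw [h1, h2, sub_self]
  | add f g hf hg => rw [add_mul, map_add, hf, hg, add_zero]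

private lemma LL_IV (hη : ∀ p, η p = 1 ∨ η p = -1) {f : MvPolynomial Pt K}
    (hf : f ∈ IV K V η) : LL K V η f = 0 := by
  have key : ∀ a : MvPolynomial Pt K, LL K V η (a * f) = 0 := by
    unfold IV at hf
    refine Submodule.span_induction (p := fun x _ => ∀ a : MvPolynomial Pt K,
      LL K V η (a * x) = 0) ?_ ?_ ?_ ?_ hf
    · rintro x (⟨p, rfl⟩ | ⟨p, q, hpq, rfl⟩) a
      · exact LL_mul_gen hη a p
      · exact LL_mul_gen2 hη a hpq
    · intro a
      rw [mul_zero, map_zero]
    · intro x y _ _ hx hy a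
      rw [mul_add, map_add, hx a, hy a, add_zero]
    · intro b x _ hx a
      rw [smul_eq_mul, ← mul_assoc]
      exact hx _
  have := key 1
  rwa [one_mul] at this

private lemma LL_map {K' : Type} [CommRing K'] (φ : K →+* K') (f : MvPolynomial Pt K)
    (g : Quotient V → ZMod 2) :
    LL K' V η (MvPolynomial.map φ f) g = φ (LL K V η f g) := by
  induction f using MvPolynomial.induction_on' with
  | monomial m a =>
    rw [MvPolynomial.map_monomial, LL_monomial, LL_monomial]
    rw [Pi.single_apply, Pi.single_apply]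
    split_ifs
    · rw [map_mul, map_intCast]
    · rw [map_zero]
  | add f g' hf hg => rw [map_add, map_add, map_add, Pi.add_apply, Pi.add_apply, map_add, hf, hg]

private lemma LL_ne {f : MvPolynomial Pt K} {g : Quotient V → ZMod 2} (h : LL K V η f g ≠ 0) :
    ∃ m ∈ f.support, cls V m = g := by
  by_contra hcon
  push Not at hcon
  apply h
  have h1 : LL K V η f = ∑ m ∈ f.support, LL K V η (monomial m (coeff m f)) := by
    conv_lhs => rw [← MvPolynomial.support_sum_monomial_coeff f]
    rw [map_sum]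
  rw [h1, Finset.sum_apply]
  refine Finset.sum_eq_zero fun m hm => ?_
  rw [LL_monomial, Pi.single_apply, if_neg]
  exact fun h2 => hcon m hm h2.symm

private noncomputable def wt (g : Quotient V → ZMod 2) : ℕ := ∑ k, (g k).val

private lemma wt_cls (m : Pt →₀ ℕ) : wt (cls V m) ≤ m.degree := by
  unfold wt
  rw [Finsupp.degree_eq_sum]
  calc ∑ k, (cls V m k).val ≤
      ∑ k : Quotient V, ∑ p ∈ univ.filter (fun p : Pt => Quotient.mk V p = k), m p := by
        refine Finset.sum_le_sum fun k _ => ?_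
        rw [cls_apply, ZMod.val_natCast]
        exact Nat.mod_le _ _
    _ = ∑ p, m p := Finset.sum_fiberwise _ _ _

private noncomputable def mm (g : Quotient V → ZMod 2) : Pt →₀ ℕ :=
  ∑ k : Quotient V, Finsupp.single k.out (g k).val

private lemma cls_mm (g : Quotient V → ZMod 2) : cls V (mm g) = g := by
  unfold mm
  rw [map_sum]
  funext k
  rw [Finset.sum_apply, Finset.sum_eq_single k]
  · rw [cls_single, Quotient.out_eq, if_pos rfl, ZMod.natCast_zmod_val]
  · intro k' _ hk'
    rw [cls_single, Quotient.out_eq, if_neg hk']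
  · intro h
    exact absurd (Finset.mem_univ k) h

private lemma degree_mm (g : Quotient V → ZMod 2) : (mm g).degree = wt g := by
  unfold mm wt
  rw [map_sum]
  exact Finset.sum_congr rfl fun k _ => Finsupp.degree_single _ _

private noncomputable def lf (V : Setoid Pt) (η : Pt → ℤ)
    (a : (Quotient V → ZMod 2) → K) : MvPolynomial Pt K :=
  ∑ g : Quotient V → ZMod 2, monomial (mm g) (a g * ((sg η (mm g) : ℤ) : K))

private lemma LL_lf (hη : ∀ p, η p = 1 ∨ η p = -1) (a : (Quotient V → ZMod 2) → K) :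
    LL K V η (lf V η a) = a := by
  unfold lf
  rw [map_sum]
  funext g
  rw [Finset.sum_apply, Finset.sum_eq_single g]
  · rw [LL_monomial, cls_mm, Pi.single_eq_same, mul_assoc, ← Int.cast_mul, sg_sq hη]
    simp
  · intro g' _ hg'
    rw [LL_monomial, cls_mm, Pi.single_eq_of_ne hg'.symm]
  · intro h
    exact absurd (Finset.mem_univ g) h

private lemma supp_lf {a : (Quotient V → ZMod 2) → K} {m : Pt →₀ ℕ}
    (hm : m ∈ (lf V η a).support) : ∃ g, a g ≠ 0 ∧ mm g = m := by
  by_contra hcon
  push Not at hcon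
  rw [MvPolynomial.mem_support_iff] at hm
  apply hm
  unfold lf
  rw [MvPolynomial.coeff_sum]
  refine Finset.sum_eq_zero fun g _ => ?_
  rw [MvPolynomial.coeff_monomial]
  split_ifs with h
  · by_cases h1 : a g = 0
    · rw [h1, zero_mul]
    · exact absurd h (hcon g h1)
  · rfl

private noncomputable def yy (K : Type) [CommRing K] (V : Setoid Pt) (η : Pt → ℤ)
    (k : Quotient V) : MvPolynomial Pt K ⧸ IV K V η :=
  Ideal.Quotient.mk (IV K V η) (C ((η k.out : ℤ) : K) * X k.out)

omit [Fintype Pt] in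
private lemma yy_sq (hη : ∀ p, η p = 1 ∨ η p = -1) (k : Quotient V) :
    yy K V η k * yy K V η k = 1 := by
  unfold yy
  rw [← map_mul, ← map_one (Ideal.Quotient.mk (IV K V η)), Ideal.Quotient.eq]
  have h1 : (X k.out ^ 2 - 1 : MvPolynomial Pt K) ∈ IV K V η :=
    Ideal.subset_span (Or.inl ⟨_, rfl⟩)
  have h2 : (C ((η k.out : ℤ) : K) * C ((η k.out : ℤ) : K) : MvPolynomial Pt K) = 1 := by
    rw [← map_mul, ← Int.cast_mul]
    have h3 : η k.out * η k.out = 1 := by rcases hη k.out with h | h <;> rw [h] <;> norm_num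
    rw [h3, Int.cast_one, map_one]
  have h4 : (C ((η k.out : ℤ) : K) * X k.out * (C ((η k.out : ℤ) : K) * X k.out) - 1 :
      MvPolynomial Pt K) = X k.out ^ 2 - 1 := by
    linear_combination (X k.out ^ 2) * h2
  rw [h4]
  exact h1

omit [Fintype Pt] in
private lemma X_yy (p : Pt) :
    Ideal.Quotient.mk (IV K V η) (X p) =
      Ideal.Quotient.mk (IV K V η) (C ((η p : ℤ) : K)) * yy K V η (Quotient.mk V p) := by
  unfold yy
  rw [← map_mul, Ideal.Quotient.eq]
  have h1 : (X p - C ((η p * η (Quotient.mk V p).out : ℤ) : K) * X (Quotient.mk V p).out :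
      MvPolynomial Pt K) ∈ IV K V η := by
    refine Ideal.subset_span (Or.inr ⟨_, _, ?_, rfl⟩)
    exact V.symm (Quotient.mk_out p)
  have h2 : (X p - C ((η p : ℤ) : K) * (C ((η (Quotient.mk V p).out : ℤ) : K) *
      X (Quotient.mk V p).out) : MvPolynomial Pt K) =
      X p - C ((η p * η (Quotient.mk V p).out : ℤ) : K) * X (Quotient.mk V p).out := by
    rw [Int.cast_mul, map_mul]
    ring
  rw [h2]
  exact h1

omit [Fintype Pt] in
private lemma pow_yy (hη : ∀ p, η p = 1 ∨ η p = -1) (k : Quotient V) (n : ℕ) :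
    yy K V η k ^ n = yy K V η k ^ (n : ZMod 2).val := by
  rw [ZMod.val_natCast]
  conv_lhs => rw [← Nat.div_add_mod n 2]
  rw [pow_add, pow_mul, pow_two, yy_sq hη, one_pow, one_mul]

private lemma mk_monomial (hη : ∀ p, η p = 1 ∨ η p = -1) (m : Pt →₀ ℕ) (a : K) :
    Ideal.Quotient.mk (IV K V η) (monomial m a) =
      Ideal.Quotient.mk (IV K V η) (C (a * ((sg η m : ℤ) : K))) *
        ∏ k : Quotient V, yy K V η k ^ (cls V m k).val := by
  have h1 : (monomial m a : MvPolynomial Pt K) = C a * ∏ p, X p ^ m p := by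
    rw [MvPolynomial.monomial_eq, Finsupp.prod_fintype _ _ (fun p => pow_zero _)]
  have h2 : ∏ k : Quotient V, yy K V η k ^ (cls V m k).val =
      ∏ p : Pt, yy K V η (Quotient.mk V p) ^ m p := by
    rw [← Finset.prod_fiberwise (s := (univ : Finset Pt)) (g := fun p : Pt => Quotient.mk V p)]
    refine Finset.prod_congr rfl fun k _ => ?_
    rw [cls_apply, ← pow_yy hη, ← Finset.prod_pow_eq_pow_sum]
    refine Finset.prod_congr rfl fun p hp => ?_
    rw [(Finset.mem_filter.1 hp).2]
  rw [h1, h2, map_mul, map_prod, map_mul, map_mul, mul_assoc]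
  congr 1
  have h3 : (Ideal.Quotient.mk (IV K V η)) (C ((sg η m : ℤ) : K)) =
      ∏ p, (Ideal.Quotient.mk (IV K V η) (C ((η p : ℤ) : K))) ^ m p := by
    unfold sg
    rw [Int.cast_prod, map_prod, map_prod]
    refine Finset.prod_congr rfl fun p _ => ?_
    rw [Int.cast_pow, map_pow, map_pow]
  rw [h3, ← Finset.prod_mul_distrib]
  refine Finset.prod_congr rfl fun p _ => ?_
  rw [map_pow, X_yy p, mul_pow]

private noncomputable def Psi (K : Type) [CommRing K] (V : Setoid Pt)
    (η : Pt → ℤ) (a : (Quotient V → ZMod 2) → K) : MvPolynomial Pt K ⧸ IV K V η :=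
  ∑ g : Quotient V → ZMod 2, Ideal.Quotient.mk (IV K V η) (C (a g)) *
    ∏ k : Quotient V, yy K V η k ^ (g k).val

private lemma mk_Psi (hη : ∀ p, η p = 1 ∨ η p = -1) (f : MvPolynomial Pt K) :
    Ideal.Quotient.mk (IV K V η) f = Psi K V η (LL K V η f) := by
  induction f using MvPolynomial.induction_on' with
  | monomial m a =>
    rw [mk_monomial hη, LL_monomial]
    unfold Psi
    rw [Finset.sum_eq_single (cls V m)]
    · rw [Pi.single_eq_same]
    · intro g _ hg
      rw [Pi.single_eq_of_ne hg, map_zero, map_zero, zero_mul]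
    · intro h
      exact absurd (Finset.mem_univ _) h
  | add f g hf hg =>
    rw [map_add, hf, hg, map_add]
    unfold Psi
    rw [← Finset.sum_add_distrib]
    refine Finset.sum_congr rfl fun g _ => ?_
    rw [Pi.add_apply, map_add, map_add, add_mul]

private lemma mk_lf (hη : ∀ p, η p = 1 ∨ η p = -1) (a : (Quotient V → ZMod 2) → K) :
    Ideal.Quotient.mk (IV K V η) (lf V η a) = Psi K V η a := by
  rw [mk_Psi hη, LL_lf hη]

private lemma sub_lf (hη : ∀ p, η p = 1 ∨ η p = -1) (f : MvPolynomial Pt K) :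
    f - lf V η (LL K V η f) ∈ IV K V η := by
  rw [← Ideal.Quotient.eq, mk_lf hη, mk_Psi hη]

private lemma IV_iff (hη : ∀ p, η p = 1 ∨ η p = -1) (f : MvPolynomial Pt K) :
    f ∈ IV K V η ↔ LL K V η f = 0 := by
  refine ⟨LL_IV hη, fun h => ?_⟩
  have h1 := sub_lf (V := V) hη f
  rw [h] at h1
  have h2 : lf V η (0 : (Quotient V → ZMod 2) → K) = 0 := by
    unfold lf
    refine Finset.sum_eq_zero fun g _ => ?_
    rw [Pi.zero_apply, zero_mul, map_zero]
  rwa [h2, sub_zero] at h1

private lemma InD_iff (hη : ∀ p, η p = 1 ∨ η p = -1) (B : ℤ) (f : MvPolynomial Pt K) :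
    InD K V η B f ↔ ∀ g, LL K V η f g ≠ 0 → 2 * (wt g : ℤ) ≤ B := by
  constructor
  · rintro ⟨g', h1, h2⟩ g hg
    have h3 := LL_IV hη h1
    rw [map_sub, sub_eq_zero] at h3
    rw [h3] at hg
    obtain ⟨m, hm, rfl⟩ := LL_ne hg
    have h4 := h2 m hm
    have h5 : (wt (cls V m) : ℤ) ≤ (m.degree : ℤ) := by exact_mod_cast wt_cls m
    linarith
  · intro h
    refine ⟨lf V η (LL K V η f), sub_lf hη f, ?_⟩
    intro m hm
    obtain ⟨g, hg, rfl⟩ := supp_lf hm
    rw [degree_mm]
    exact h g hg

end NFaux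

variable {Pt : Type} [Finite Pt] {V : Setoid Pt} {η : Pt → ℤ} {B : ℤ}

theorem InD_two (hη : ∀ p, η p = 1 ∨ η p = -1) {f : MvPolynomial Pt ℤ}
    (h : InD ℤ V η B (2 * f)) : InD ℤ V η B f := by
  have := Fintype.ofFinite Pt
  rw [InD_iff hη] at h ⊢
  intro g hg
  refine h g ?_
  rw [two_mul, map_add, Pi.add_apply]
  intro h1
  apply hg
  omega

theorem InD_map (hη : ∀ p, η p = 1 ∨ η p = -1) {f : MvPolynomial Pt ℤ}
    (h : InD ℚ V η B (MvPolynomial.map (Int.castRingHom ℚ) f)) : InD ℤ V η B f := by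
  have := Fintype.ofFinite Pt
  rw [InD_iff hη] at h ⊢
  intro g hg
  refine h g ?_
  rw [LL_map]
  intro h1
  apply hg
  have h2 : ((LL ℤ V η f g : ℤ) : ℚ) = 0 := h1
  exact_mod_cast h2

theorem IV_map (hη : ∀ p, η p = 1 ∨ η p = -1) {f : MvPolynomial Pt ℤ}
    (h : MvPolynomial.map (Int.castRingHom ℚ) f ∈ IV ℚ V η) : f ∈ IV ℤ V η := by
  have := Fintype.ofFinite Pt
  rw [IV_iff hη] at h ⊢
  funext g
  have h1 := congrFun h g
  rw [LL_map, Pi.zero_apply] at h1
  rw [Pi.zero_apply]
  have h2 : ((LL ℤ V η f g : ℤ) : ℚ) = 0 := h1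
  exact_mod_cast h2

theorem InD_mod (hη : ∀ p, η p = 1 ∨ η p = -1) {f : MvPolynomial Pt ℤ}
    (h : InD (ZMod 2) V η B (MvPolynomial.map (Int.castRingHom (ZMod 2)) f)) :
    ∃ g k : MvPolynomial Pt ℤ, f = g + 2 * k ∧ InD ℤ V η B g := by
  have := Fintype.ofFinite Pt
  set k : MvPolynomial Pt ℤ := lf V η (fun g => LL ℤ V η f g / 2) with hk
  refine ⟨f - 2 * k, k, by ring, ?_⟩
  rw [InD_iff hη] at h ⊢
  intro g hg
  by_contra hcon
  have h1 : LL (ZMod 2) V η (MvPolynomial.map (Int.castRingHom (ZMod 2)) f) g = 0 := by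
    by_contra h2
    exact hcon (h g h2)
  rw [LL_map] at h1
  have h2 : (2 : ℤ) ∣ LL ℤ V η f g := by
    have h3 : ((LL ℤ V η f g : ℤ) : ZMod 2) = 0 := h1
    exact_mod_cast (ZMod.intCast_zmod_eq_zero_iff_dvd _ 2).1 h3
  apply hg
  rw [map_sub, two_mul, map_add, hk, LL_lf hη, Pi.sub_apply, Pi.add_apply]
  omega

end Pool.HPS
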