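import Pool.Agent.HPS.DefsD
import Pool.Agent.HPS.Sad

/-!
# Module HPS-PhiM: Lee theory modulo 2 is Khovanov theory modulo 2

The substitution `x = 1 + y` over `F_2` is an involution of the coefficient ring.  It exchanges the
ideals `IV` (relations `X_p² = 1`, `X_p = ± X_q`) and `I` (relations `X_p² = 0`, `X_p = X_q`), it does
not raise degrees, and it carries the Lee differential `dL` to the Khovanov coboundary `bd`.
-/

set_option autoImplicit false

open Finset MvPolynomial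

namespace Pool.HPS

variable {Pt ι : Type} [DecidableEq ι] {W : Setoid Pt} {x : ι → Fin 4 → Pt} {S : Finset ι}

private theorem two_rg (f : Rg Pt) : f + f = 0 := CharTwo.add_self_eq_zero f

private theorem Phi_X (p : Pt) : Phi Pt (X p) = X p + 1 := by
  rw [Phi, aeval_X]

theorem Phi_Phi (f : Rg Pt) : Phi Pt (Phi Pt f) = f := by
  have h : (Phi Pt).comp (Phi Pt) = AlgHom.id (ZMod 2) (Rg Pt) := by
    apply MvPolynomial.algHom_ext
    intro p
    rw [AlgHom.comp_apply, Phi_X, map_add, map_one, Phi_X, AlgHom.id_apply, add_assoc,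
      two_rg, add_zero]
  have h2 := DFunLike.congr_fun h f
  rwa [AlgHom.comp_apply, AlgHom.id_apply] at h2

private theorem sgn_cast {a : ℤ} (h : a = 1 ∨ a = -1) : ((a : ℤ) : ZMod 2) = 1 := by
  rcases h with rfl | rfl
  · exact Int.cast_one
  · decide

private theorem sgn_mul {a b : ℤ} (h : a = 1 ∨ a = -1) (h' : b = 1 ∨ b = -1) :
    a * b = 1 ∨ a * b = -1 := by
  rcases h with rfl | rfl <;> rcases h' with rfl | rfl <;> simp

private theorem Phi_sq (p : Pt) : Phi Pt (X p ^ 2 - 1) = X p ^ 2 := by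
  rw [map_sub, map_pow, map_one, Phi_X]
  have h : (X p + 1 : Rg Pt) ^ 2 - 1 = X p ^ 2 + (X p + X p) := by ring
  rw [h, two_rg, add_zero]

private theorem Phi_sq' (p : Pt) : Phi Pt (X p ^ 2) = X p ^ 2 - 1 := by
  have h := Phi_Phi (X p ^ 2 - 1 : Rg Pt)
  rwa [Phi_sq] at h

private theorem sub_add (f g : Rg Pt) : f - g = f + g := CharTwo.sub_eq_add f g

private theorem Phi_pair (p q : Pt) : Phi Pt (X p + X q) = X p + X q := by
  rw [map_add, Phi_X, Phi_X]
  have h : (X p + 1 + (X q + 1) : Rg Pt) = X p + X q + (1 + 1) := by ring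
  rw [h, two_rg, add_zero]

private theorem IV_le {V : Setoid Pt} {η : Pt → ℤ} (hη : ∀ p, η p = 1 ∨ η p = -1) :
    IV (ZMod 2) V η ≤ (I V).comap (Phi Pt) := by
  rw [IV, Ideal.span_le]
  rintro f (⟨p, rfl⟩ | ⟨p, q, hpq, rfl⟩)
  · show Phi Pt (X p ^ 2 - 1) ∈ I V
    rw [Phi_sq]
    exact Ideal.subset_span (Or.inl ⟨p, rfl⟩)
  · show Phi Pt (X p - C ((η p * η q : ℤ) : ZMod 2) * X q) ∈ I V
    rw [sgn_cast (sgn_mul (hη p) (hη q)), map_one, one_mul, sub_add, Phi_pair]
    exact mem_I hpq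

private theorem le_IV {V : Setoid Pt} {η : Pt → ℤ} (hη : ∀ p, η p = 1 ∨ η p = -1) :
    I V ≤ (IV (ZMod 2) V η).comap (Phi Pt) := by
  rw [I, Ideal.span_le]
  rintro f (⟨p, rfl⟩ | ⟨p, q, hpq, rfl⟩)
  · show Phi Pt (X p ^ 2) ∈ IV (ZMod 2) V η
    rw [Phi_sq']
    exact Ideal.subset_span (Or.inl ⟨p, rfl⟩)
  · show Phi Pt (X p + X q) ∈ IV (ZMod 2) V η
    rw [Phi_pair]
    refine Ideal.subset_span (Or.inr ⟨p, q, hpq, ?_⟩)
    rw [sgn_cast (sgn_mul (hη p) (hη q)), map_one, one_mul, sub_add]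

theorem Phi_IV {V : Setoid Pt} {η : Pt → ℤ} (hη : ∀ p, η p = 1 ∨ η p = -1) (f : Rg Pt) :
    f ∈ IV (ZMod 2) V η ↔ Phi Pt f ∈ I V := by
  constructor
  · intro h
    exact IV_le hη h
  · intro h
    have h2 := le_IV hη h
    rw [Ideal.mem_comap, Phi_Phi] at h2
    exact h2

private theorem deg_le (g : Rg Pt) : (Phi Pt g).totalDegree ≤ g.totalDegree := by
  classical
  rw [Phi, aeval_def, eval₂_eq]
  refine (totalDegree_finsetSum _ _).trans (Finset.sup_le ?_)
  intro d hd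
  refine (totalDegree_mul _ _).trans ?_
  have h1 : (algebraMap (ZMod 2) (Rg Pt) (coeff d g)).totalDegree = 0 := totalDegree_C _
  rw [h1, zero_add]
  refine (totalDegree_finsetProd _ _).trans ?_
  refine le_trans ?_ (le_totalDegree hd)
  refine Finset.sum_le_sum ?_
  intro i _
  refine (totalDegree_pow _ _).trans ?_
  have h2 : (X i + 1 : Rg Pt).totalDegree ≤ 1 := by
    refine (totalDegree_add _ _).trans ?_
    rw [totalDegree_X, totalDegree_one]
    simp
  calc d i * (X i + 1 : Rg Pt).totalDegree ≤ d i * 1 := Nat.mul_le_mul_left _ h2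
    _ = d i := Nat.mul_one _

private theorem deg_B {B : ℤ} {g : Rg Pt} (h : ∀ m ∈ g.support, 2 * (m.degree : ℤ) ≤ B) :
    ∀ m ∈ (Phi Pt g).support, 2 * (m.degree : ℤ) ≤ B := by
  classical
  intro m hm
  by_cases hg : g = 0
  · rw [hg, map_zero] at hm
    simp at hm
  · have hne : g.support.Nonempty := by
      rw [Finset.nonempty_iff_ne_empty]
      intro h0
      exact hg (MvPolynomial.support_eq_empty.1 h0)
    have h1 : m.degree ≤ (Phi Pt g).totalDegree := le_totalDegree hm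
    have h2 := h1.trans (deg_le g)
    obtain ⟨d, hd, hd2⟩ := Finset.exists_mem_eq_sup g.support hne
      (fun s => s.sum fun _ e => e)
    have h3 : g.totalDegree = d.degree := hd2
    have h4 := h d hd
    rw [h3] at h2
    omega

theorem Phi_InD {V : Setoid Pt} {η : Pt → ℤ} (hη : ∀ p, η p = 1 ∨ η p = -1) {B : ℤ}
    (f : Rg Pt) : InD (ZMod 2) V η B f ↔
      ∃ u : Rg Pt, Phi Pt f + u ∈ I V ∧ ∀ m ∈ u.support, 2 * (m.degree : ℤ) ≤ B := by
  constructor
  · rintro ⟨g, hg, hB⟩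
    refine ⟨Phi Pt g, ?_, deg_B hB⟩
    have h := (Phi_IV hη _).1 hg
    rwa [map_sub, sub_add] at h
  · rintro ⟨u, hu, hB⟩
    refine ⟨Phi Pt u, ?_, deg_B hB⟩
    rw [Phi_IV hη, map_sub, Phi_Phi, sub_add]
    exact hu

theorem kL_kap (hL : Legit W x S) {r : Finset ι} (hr : r ⊆ S) {c : ι} (hc : c ∈ S)
    (hcr : c ∉ r) :
    kL (ZMod 2) W x S r c + kap (U W x S r) (x c) ∈ I (U W x S (insert c r)) := by
  by_cases h1 : U W x S r (x c 0) (x c 2)
  · by_cases h2 : U W x S (insert c r) (x c 0) (x c 1)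
    · rw [kL, kap, if_neg (not_not.2 h1), if_neg (not_not.2 h2), if_pos h1, zero_add]
      exact mem_I h2
    · rw [kL, kap, if_neg (not_not.2 h1), if_pos h2, if_pos h1, two_rg]
      exact zero_mem _
  · rw [kL, kap, if_pos h1, if_neg h1, two_rg]
    exact zero_mem _

private theorem Phi_kL (r : Finset ι) (c : ι) :
    Phi Pt (kL (ZMod 2) W x S r c) = kL (ZMod 2) W x S r c := by
  by_cases h1 : U W x S r (x c 0) (x c 2)
  · by_cases h2 : U W x S (insert c r) (x c 0) (x c 1)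
    · rw [kL, if_neg (not_not.2 h1), if_neg (not_not.2 h2), map_zero]
    · rw [kL, if_neg (not_not.2 h1), if_pos h2, Phi_pair]
  · rw [kL, if_pos h1, map_one]

theorem Phi_dL (hL : Legit W x S) {σ : Finset ι → ι → ℤ} (hσ : ∀ r c, σ r c = 1 ∨ σ r c = -1)
    (w : Finset ι → Rg Pt) {r : Finset ι} (hr : r ⊆ S) :
    Phi Pt (dL (ZMod 2) W x S σ w r) + bd W x S (fun s => Phi Pt (w s)) r ∈
      I (U W x S r) := by
  rw [dL, bd, map_sum, ← Finset.sum_add_distrib]
  refine sum_mem ?_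
  intro c hc
  rw [sgn_cast (hσ _ _), map_one, one_mul, map_mul, Phi_kL, ← add_mul]
  apply Ideal.mul_mem_right
  have h := kL_kap hL ((Finset.erase_subset c r).trans hr) (hr hc) (Finset.notMem_erase c r)
  rwa [Finset.insert_erase hc] at h

end Pool.HPS
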