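import Pool.Agent.HPS.Grad
import Pool.Agent.HPS.Lv
import Pool.Agent.HPS.NF
import Pool.Agent.HPS.PhiM

/-!
# Module HPS-Desc: descent from `ℤ` to `F_2` (imports Grad, Lv, NF, PhiM; use them)

PLAN.  Strong induction on `N ≥ 1`, for all `w`.  Write `V r = U W x S r`, `B r = circ r + |r| - L - 1`, `δ r = if r = r0 then 1 else 0`, and suppose
`InD ℤ (V r) (ε r) (B r) (δ r * N * v0 + dL ℤ w r)` for all `r ⊆ S`, `|r| = h + 1`.
0. Replace `w` by `w' s := if par e (V s) s.card then w s else 0`: for `r` with `par e (V r) r.card` nothing changes, and for the other `r` (then `r ≠ r0`, since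
   `circ r0 + |r0| = L + 2 d0 ≡ e`) `dL ℤ w' r = 0` (`kL_par`: the saddles between states of different parity are zero); so the hypothesis persists.
1. Reduce modulo 2 and apply `Phi` (`map_dL`, `Phi_InD`, `Phi_dL`; a `ℤ`-witness of `InD` maps to a `ZMod 2`-witness, prove `InD_map2 : InD ℤ V η B f → InD (ZMod 2) V η B (map f)`): with
   `g s = Phi (map (w s))`: `δ r * N * Phi (map v0) + bd g r + u ∈ I (V r)`, `2 deg u ≤ B r`.
2. `N` odd: `N = 1` in `ZMod 2`, and `Phi (map v0) ≡ t + (degrees ≤ B r0 / 2)` by `hv`; so `grA` gives `Bd (par e) W x S r0 t`, contradicting `hnb`.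
3. `N = 2 M`: `N = 0` in `ZMod 2`: `bd g r + u ∈ I (V r)`; `grB` gives `g'` with `g s + bd g' s + u' ∈ I (V s)` for `|s| = h`.  Let `w̃ s` be an integral lift of `Phi (g' s)` (coefficientwise,
   `ZMod.val`; `map (w̃ s) = Phi (g' s)`).  By `Phi_dL`, `Phi_Phi`, `Phi_InD` (in the direction `←`): `InD (ZMod 2) (V s) (ε s) (B s) (map (w s - dL ℤ w̃ s))`, so
   `w s - dL ℤ w̃ s = a s + 2 k s` with `InD ℤ (V s) (ε s) (B s) (a s)` (`InD_mod`).  Then for `|r| = h + 1`:
   `δ r N v0 + dL w r = δ r 2 M v0 + dL (dL w̃) r + dL a r + 2 dL k r` (`dL_congr`, `dL_add`, `dL_mul`), where `dL (dL w̃) r ∈ IV` (`dL_dL`) and `dL a r` is `InD .. (B r)` (`dL_InD` with `L + 1`).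
   So `2 (δ r M v0 + dL k r)` is `InD ℤ .. (B r)`, and by `InD_two` the hypothesis holds for `M < N` and `k`: induction (`M ≥ 1`).
-/

set_option autoImplicit false

open Finset MvPolynomial

namespace Pool.HPS

variable {Pt ι : Type} [DecidableEq ι] [Finite Pt] {W : Setoid Pt} {x : ι → Fin 4 → Pt}
  {S : Finset ι} {ε : Finset ι → Pt → ℤ} {σ : Finset ι → ι → ℤ}

private theorem InD_map2 {V : Setoid Pt} {η : Pt → ℤ} {B : ℤ} {f : MvPolynomial Pt ℤ}
    (h : InD ℤ V η B f) :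
    InD (ZMod 2) V η B (MvPolynomial.map (Int.castRingHom (ZMod 2)) f) := by
  obtain ⟨g, hg, hd⟩ := h
  refine ⟨MvPolynomial.map (Int.castRingHom (ZMod 2)) g, ?_, fun m hm => hd m ?_⟩
  · rw [← map_sub]
    have key : IV ℤ V η ≤ Ideal.comap (MvPolynomial.map (Int.castRingHom (ZMod 2)))
        (IV (ZMod 2) V η) := by
      refine Ideal.span_le.2 ?_
      rintro q (⟨p, rfl⟩ | ⟨p, q, hpq, rfl⟩)
      · rw [SetLike.mem_coe, Ideal.mem_comap]
        refine Ideal.subset_span (Or.inl ⟨p, ?_⟩)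
        simp
      · rw [SetLike.mem_coe, Ideal.mem_comap]
        refine Ideal.subset_span (Or.inr ⟨p, q, hpq, ?_⟩)
        rw [map_sub, map_mul, MvPolynomial.map_X, MvPolynomial.map_X, MvPolynomial.map_C]
        simp
    exact key hg
  · rw [mem_support_iff] at hm ⊢
    intro h0
    rw [coeff_map, h0, map_zero] at hm
    exact hm rfl

private theorem par_r0 {r0 : Finset ι} {L : ℤ} {e d0 : ℕ} (he : Even (L - e))
    (hd : (circ W x S r0 : ℤ) + r0.card - 2 * d0 = L) : par e (U W x S r0) r0.card := by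
  obtain ⟨k, hk⟩ := he
  have h1 : Even (((circ W x S r0 + r0.card + e : ℕ)) : ℤ) := by
    refine ⟨k + e + d0, ?_⟩
    push_cast
    linarith
  exact (Int.even_coe_nat _).1 h1

private theorem card_er {r : Finset ι} {c : ι} {h : ℕ} (hr : r.card = h + 1) (hc : c ∈ r) :
    (r.erase c).card = h := by
  rw [card_erase_of_mem hc, hr]
  rfl

private theorem step0 (hL : Legit W x S) {r0 : Finset ι} {L : ℤ} {e d0 h : ℕ}
    (hc : r0.card = h + 1) (he : Even (L - e))
    (hd : (circ W x S r0 : ℤ) + r0.card - 2 * d0 = L) (v : MvPolynomial Pt ℤ)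
    (w w' : Finset ι → MvPolynomial Pt ℤ)
    (hw1 : ∀ s, par e (U W x S s) s.card → w' s = w s)
    (hw2 : ∀ s, ¬ par e (U W x S s) s.card → w' s = 0)
    (H : ∀ r, r ⊆ S → r.card = h + 1 →
      InD ℤ (U W x S r) (ε r) ((circ W x S r : ℤ) + r.card - L - 1)
        ((if r = r0 then v else 0) + dL ℤ W x S σ w r)) :
    ∀ r, r ⊆ S → r.card = h + 1 →
      InD ℤ (U W x S r) (ε r) ((circ W x S r : ℤ) + r.card - L - 1)
        ((if r = r0 then v else 0) + dL ℤ W x S σ w' r) := by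
  intro r hr hrc
  by_cases hp : par e (U W x S r) (h + 1)
  · have e1 : dL ℤ W x S σ w' r = dL ℤ W x S σ w r := by
      rw [dL, dL]
      refine sum_congr rfl fun c hcr => ?_
      by_cases hp' : par e (U W x S (r.erase c)) (r.erase c).card
      · rw [hw1 _ hp']
      · have : kL ℤ W x S (r.erase c) c = 0 := by
          refine kL_par ℤ hL hr hcr e h ?_
          rw [card_er hrc hcr] at hp'
          exact fun h1 => hp' (h1.2 hp)
        rw [this, mul_zero, zero_mul, zero_mul]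
    rw [e1]
    exact H r hr hrc
  · have hne : r ≠ r0 := by
      rintro rfl
      exact hp (hrc ▸ par_r0 he hd)
    have e1 : dL ℤ W x S σ w' r = 0 := by
      rw [dL]
      refine sum_eq_zero fun c hcr => ?_
      by_cases hp' : par e (U W x S (r.erase c)) (r.erase c).card
      · have : kL ℤ W x S (r.erase c) c = 0 := by
          refine kL_par ℤ hL hr hcr e h ?_
          rw [card_er hrc hcr] at hp'
          exact fun h1 => hp (h1.1 hp')
        rw [this, mul_zero, zero_mul]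
      · rw [hw2 _ hp', mul_zero]
    rw [e1, if_neg hne, add_zero]
    exact InD_zero

private theorem two0 (f : Rg Pt) : f + f = 0 := CharTwo.add_self_eq_zero f

/-- Step 1: reduction modulo 2. -/
private theorem step1 (hL : Legit W x S) (hS : Sgn W x S ε)
    (hσ : ∀ r c, σ r c = 1 ∨ σ r c = -1) {r0 : Finset ι} {L : ℤ}
    (v : MvPolynomial Pt ℤ) (w : Finset ι → MvPolynomial Pt ℤ) {r : Finset ι} (hr : r ⊆ S)
    (H : InD ℤ (U W x S r) (ε r) ((circ W x S r : ℤ) + r.card - L - 1)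
        ((if r = r0 then v else 0) + dL ℤ W x S σ w r)) :
    ∃ u : Rg Pt,
      (if r = r0 then Phi Pt (MvPolynomial.map (Int.castRingHom (ZMod 2)) v) else 0) +
        bd W x S (fun s => Phi Pt (MvPolynomial.map (Int.castRingHom (ZMod 2)) (w s))) r + u ∈
          I (U W x S r) ∧
      ∀ m ∈ u.support, 2 * (m.degree : ℤ) ≤ (circ W x S r : ℤ) + r.card - L - 1 := by
  obtain ⟨u, hu, hdeg⟩ := (Phi_InD (hS.pm r) _).1 (InD_map2 H)
  refine ⟨u, ?_, hdeg⟩
  have h2 := Phi_dL hL hσ (fun s => MvPolynomial.map (Int.castRingHom (ZMod 2)) (w s)) hr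
  have h3 := (I (U W x S r)).add_mem hu h2
  rw [map_add, map_add, map_dL (ZMod 2)] at h3
  have e1 : Phi Pt (MvPolynomial.map (Int.castRingHom (ZMod 2)) (if r = r0 then v else 0)) =
      if r = r0 then Phi Pt (MvPolynomial.map (Int.castRingHom (ZMod 2)) v) else 0 := by
    split_ifs
    · rfl
    · rw [map_zero, map_zero]
  rw [e1] at h3
  have e2 := two0 (Phi Pt (dL (ZMod 2) W x S σ
    (fun s => MvPolynomial.map (Int.castRingHom (ZMod 2)) (w s)) r))
  convert h3 using 1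
  linear_combination -e2

private theorem supp_add {u v : Rg Pt} {B : ℤ} (hu : ∀ m ∈ u.support, 2 * (m.degree : ℤ) ≤ B)
    (hv : ∀ m ∈ v.support, 2 * (m.degree : ℤ) ≤ B) :
    ∀ m ∈ (u + v).support, 2 * (m.degree : ℤ) ≤ B := by
  classical
  intro m hm
  rcases Finset.mem_union.1 (MvPolynomial.support_add hm) with h | h
  · exact hu m h
  · exact hv m h

private theorem phiC (a : ZMod 2) (f : Rg Pt) : Phi Pt (C a * f) = C a * Phi Pt f := by
  rw [map_mul]
  congr 1
  rw [Phi]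
  simp

/-- Step 2: odd `N`. -/
private theorem step2 (hL : Legit W x S) (hS : Sgn W x S ε)
    (hσ : ∀ r c, σ r c = 1 ∨ σ r c = -1) {r0 : Finset ι} (hr0 : r0 ⊆ S) {L : ℤ} {e d0 h : ℕ}
    (hc : r0.card = h + 1) (he : Even (L - e)) {t : Rg Pt}
    (ht : t.IsHomogeneous d0) (hd : (circ W x S r0 : ℤ) + r0.card - 2 * d0 = L)
    (v0 : MvPolynomial Pt ℤ)
    (hv : ∀ m ∈ (Phi Pt (MvPolynomial.map (Int.castRingHom (ZMod 2)) v0) + t).support,
      2 * (m.degree : ℤ) ≤ (circ W x S r0 : ℤ) + r0.card - L - 1)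
    (N : ℕ) (hN : (N : ZMod 2) = 1) (w : Finset ι → MvPolynomial Pt ℤ)
    (H : ∀ r, r ⊆ S → r.card = h + 1 →
      InD ℤ (U W x S r) (ε r) ((circ W x S r : ℤ) + r.card - L - 1)
        ((if r = r0 then C (N : ℤ) * v0 else 0) + dL ℤ W x S σ w r)) :
    Bd (par e) W x S r0 t := by
  refine grA hL hr0 he ht hd
    (fun s => Phi Pt (MvPolynomial.map (Int.castRingHom (ZMod 2)) (w s))) fun r hr hrc => ?_
  obtain ⟨u, hu, hdeg⟩ := step1 hL hS hσ _ w hr (H r hr (hrc.trans hc))
  have e1 : Phi Pt (MvPolynomial.map (Int.castRingHom (ZMod 2)) (C (N : ℤ) * v0)) =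
      Phi Pt (MvPolynomial.map (Int.castRingHom (ZMod 2)) v0) := by
    rw [map_mul, MvPolynomial.map_C, phiC]
    have : (Int.castRingHom (ZMod 2)) (N : ℤ) = 1 := by
      rw [eq_intCast, Int.cast_natCast, hN]
    rw [this, C_1, one_mul]
  rw [e1] at hu
  by_cases hrr : r = r0
  · subst hrr
    rw [if_pos rfl] at hu ⊢
    refine ⟨u + (Phi Pt (MvPolynomial.map (Int.castRingHom (ZMod 2)) v0) + t), ?_,
      supp_add hdeg hv⟩
    convert hu using 1
    have e2 := two0 t
    linear_combination e2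
  · rw [if_neg hrr] at hu ⊢
    exact ⟨u, hu, hdeg⟩

/-- Step 3: even `N`. -/
private theorem step3 (hL : Legit W x S) (hS : Sgn W x S ε)
    (hσ : ∀ r c, σ r c = 1 ∨ σ r c = -1)
    (hF : FaceK ℤ W x S ε σ) {r0 : Finset ι} {L : ℤ} {e h : ℕ}
    (he : Even (L - e)) (hEx : Ex (par e) W x S h)
    (v0 : MvPolynomial Pt ℤ)
    (M : ℕ) (w : Finset ι → MvPolynomial Pt ℤ)
    (hw : ∀ s, ¬ par e (U W x S s) s.card → w s = 0)
    (H : ∀ r, r ⊆ S → r.card = h + 1 →
      InD ℤ (U W x S r) (ε r) ((circ W x S r : ℤ) + r.card - L - 1)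
        ((if r = r0 then C ((M + M : ℕ) : ℤ) * v0 else 0) + dL ℤ W x S σ w r)) :
    ∃ k : Finset ι → MvPolynomial Pt ℤ, ∀ r, r ⊆ S → r.card = h + 1 →
      InD ℤ (U W x S r) (ε r) ((circ W x S r : ℤ) + r.card - L - 1)
        ((if r = r0 then C (M : ℤ) * v0 else 0) + dL ℤ W x S σ k r) := by
  obtain ⟨g', hg'⟩ := grB hL he hEx
    (fun s => Phi Pt (MvPolynomial.map (Int.castRingHom (ZMod 2)) (w s)))
    (fun s hs hsc hp => by
      show Phi Pt (MvPolynomial.map (Int.castRingHom (ZMod 2)) (w s)) = 0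
      rw [hw s (by rw [hsc]; exact hp), map_zero, map_zero])
    (fun r hr hrc => by
      obtain ⟨u, hu, hdeg⟩ := step1 hL hS hσ _ w hr (H r hr hrc)
      have e1 : Phi Pt (MvPolynomial.map (Int.castRingHom (ZMod 2))
          (C ((M + M : ℕ) : ℤ) * v0)) = 0 := by
        rw [map_mul, MvPolynomial.map_C, phiC]
        have : (Int.castRingHom (ZMod 2)) ((M + M : ℕ) : ℤ) = 0 := by
          rw [eq_intCast, Int.cast_natCast, Nat.cast_add]
          exact CharTwo.add_self_eq_zero _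
        rw [this, C_0, zero_mul]
      rw [e1, ite_self, zero_add] at hu
      exact ⟨u, hu, hdeg⟩)
  have hsurj : Function.Surjective (MvPolynomial.map (σ := Pt) (Int.castRingHom (ZMod 2))) :=
    MvPolynomial.map_surjective _ ZMod.intCast_surjective
  choose lift hlift using hsurj
  set wt : Finset ι → MvPolynomial Pt ℤ := fun s => lift (Phi Pt (g' s)) with hwt
  have hmod : ∀ s, s ⊆ S → s.card = h → ∃ a k : MvPolynomial Pt ℤ,
      w s - dL ℤ W x S σ wt s = a + 2 * k ∧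
        InD ℤ (U W x S s) (ε s) ((circ W x S s : ℤ) + s.card - L - 1) a := by
    intro s hs hsc
    refine InD_mod (hS.pm s) ((Phi_InD (hS.pm s) _).2 ?_)
    obtain ⟨u, hu, hdeg⟩ := hg' s hs hsc
    refine ⟨u, ?_, hdeg⟩
    have h2 := Phi_dL hL hσ (fun s => Phi Pt (g' s)) hs
    simp only [Phi_Phi] at h2
    have h3 := (I (U W x S s)).sub_mem hu h2
    have e1 : (fun s => MvPolynomial.map (Int.castRingHom (ZMod 2)) (wt s)) =
        fun s => Phi Pt (g' s) := by
      funext s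
      exact hlift _
    rw [map_sub, map_sub, map_dL (ZMod 2), e1]
    convert h3 using 1
    ring
  choose! a k hak using hmod
  refine ⟨k, fun r hr hrc => InD_two (hS.pm r) ?_⟩
  have hsub : ∀ c ∈ r, r.erase c ⊆ S ∧ (r.erase c).card = h := fun c hcr =>
    ⟨(erase_subset c r).trans hr, card_er hrc hcr⟩
  have e1 : dL ℤ W x S σ w r = dL ℤ W x S σ (dL ℤ W x S σ wt) r + dL ℤ W x S σ a r +
      2 * dL ℤ W x S σ k r := by
    rw [← dL_mul, ← dL_add, ← dL_add]
    refine dL_congr ℤ fun c hcr => ?_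
    have := (hak _ (hsub c hcr).1 (hsub c hcr).2).1
    linear_combination this
  have h1 : InD ℤ (U W x S r) (ε r) ((circ W x S r : ℤ) + r.card - L - 1)
      (dL ℤ W x S σ (dL ℤ W x S σ wt) r) := InD_of_mem (dL_dL ℤ hL hS hF wt hr)
  have h2 : InD ℤ (U W x S r) (ε r) ((circ W x S r : ℤ) + r.card - L - 1)
      (dL ℤ W x S σ a r) := by
    have := dL_InD (σ := σ) ℤ hL hS hr (w := a) (L := L + 1) (fun c hcr => by
      have := (hak _ (hsub c hcr).1 (hsub c hcr).2).2
      rwa [sub_sub] at this)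
    rwa [← sub_sub] at this
  have h3 := InD_add (H r hr hrc) (InD_neg (InD_add h1 h2))
  convert h3 using 1
  rw [e1]
  have e2 : (C ((M + M : ℕ) : ℤ) : MvPolynomial Pt ℤ) = C (M : ℤ) + C (M : ℤ) := by
    rw [← C_add]
    push_cast
    rfl
  split_ifs
  · rw [e2]
    ring
  · ring

theorem descent (hL : Legit W x S) (hS : Sgn W x S ε) (hσ : ∀ r c, σ r c = 1 ∨ σ r c = -1)
    (hF : FaceK ℤ W x S ε σ) {r0 : Finset ι} (hr0 : r0 ⊆ S) {L : ℤ} {e d0 h : ℕ}
    (hc : r0.card = h + 1) (he : Even (L - e)) (hEx : Ex (par e) W x S h) {t : Rg Pt}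
    (ht : t.IsHomogeneous d0) (hd : (circ W x S r0 : ℤ) + r0.card - 2 * d0 = L)
    (hnb : ¬ Bd (par e) W x S r0 t) (v0 : MvPolynomial Pt ℤ)
    (hv : ∀ m ∈ (Phi Pt (MvPolynomial.map (Int.castRingHom (ZMod 2)) v0) + t).support,
      2 * (m.degree : ℤ) ≤ (circ W x S r0 : ℤ) + r0.card - L - 1)
    (N : ℕ) (hN : 1 ≤ N) (w : Finset ι → MvPolynomial Pt ℤ) :
    ¬ ∀ r, r ⊆ S → r.card = h + 1 →
      InD ℤ (U W x S r) (ε r) ((circ W x S r : ℤ) + r.card - L - 1)
        ((if r = r0 then C (N : ℤ) * v0 else 0) + dL ℤ W x S σ w r) := by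
  classical
  induction N using Nat.strong_induction_on generalizing w with
  | _ N ih =>
  intro H
  obtain ⟨w', hw1, hw2⟩ : ∃ w' : Finset ι → MvPolynomial Pt ℤ,
      (∀ s, par e (U W x S s) s.card → w' s = w s) ∧
      (∀ s, ¬ par e (U W x S s) s.card → w' s = 0) :=
    ⟨fun s => if par e (U W x S s) s.card then w s else 0, fun s hs => if_pos hs,
      fun s hs => if_neg hs⟩
  have H' := step0 hL hc he hd _ w w' hw1 hw2 H
  rcases Nat.even_or_odd N with ⟨M, rfl⟩ | hodd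
  · obtain ⟨k, hk⟩ := step3 hL hS hσ hF he hEx v0 M w' hw2 H'
    exact ih M (by omega) (by omega) k hk
  · have hN1 : (N : ZMod 2) = 1 := by
      obtain ⟨m, rfl⟩ := hodd
      push_cast
      have : (2 : ZMod 2) = 0 := rfl
      rw [this, zero_mul, zero_add]
    exact hnb (step2 hL hS hσ hr0 hc he ht hd v0 hv N hN1 w' H')

end Pool.HPS
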