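import Mathlib

/-!
# Module HPS-TwoCol: the union of two perfect matchings is bipartite (Mathlib only)

PLAN.  Let `σ, τ : Equiv.Perm α` be fixed-point-free involutions, `ρ = σ * τ`, `H = Subgroup.zpowers ρ`.  Colour the `H`-orbits (`MulAction.orbitRel`
or `Setoid` `∃ k : ℤ, y = (ρ^k) x`).  `σ ρ^k σ = ρ^{-k}`, so `σ` and `τ` map orbits of `ρ` to orbits, and `τ x = σ (ρ x)`-type relations show that
`σ x` and `τ x` lie in the same `ρ`-orbit.  Key fact: `σ x` is not in the `ρ`-orbit of `x`: if `σ x = ρ^k x` and `k = 2m` then `y = ρ^m x` satisfies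
`σ y = σ ρ^m x = ρ^{-m} σ x = ρ^{m} x = y`, a contradiction; if `k = 2m + 1` then similarly `τ y = y` for a suitable `y` (`τ = σ ρ`..., `τ ρ^m x`).
So the quotient `β = α / ρ` carries a fixed-point-free involution `σ'` (induced by `σ`, equal to the one induced by `τ`): choose a colouring `t' : β → Bool` with
`t' (σ' b) = ! t' b`: for instance with a linear order (well-order) on `β`: `t' b = decide (b < σ' b)`.  Then `t x = t' ⟦x⟧`.
-/

set_option autoImplicit false

namespace Pool.HPS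

theorem two_col {α : Type} (σ τ : α → α) (hσ : ∀ a, σ (σ a) = a) (hτ : ∀ a, τ (τ a) = a)
    (hσ' : ∀ a, σ a ≠ a) (hτ' : ∀ a, τ a ≠ a) :
    ∃ t : α → Bool, (∀ a, t (σ a) = !(t a)) ∧ (∀ a, t (τ a) = !(t a)) := by
  classical
  let S : Equiv.Perm α := ⟨σ, σ, hσ, hσ⟩
  let T : Equiv.Perm α := ⟨τ, τ, hτ, hτ⟩
  have hS : ∀ x, S x = σ x := fun _ => rfl
  have hT : ∀ x, T x = τ x := fun _ => rfl
  have hSS : S * S = 1 := by ext x; simp [hS, hσ]
  have hTT : T * T = 1 := by ext x; simp [hT, hτ]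
  have hSi : S⁻¹ = S := inv_eq_of_mul_eq_one_left hSS
  have hTi : T⁻¹ = T := inv_eq_of_mul_eq_one_left hTT
  obtain ⟨ρ, hρ⟩ : ∃ ρ : Equiv.Perm α, ρ = S * T := ⟨_, rfl⟩
  have hSc : SemiconjBy S ρ ρ⁻¹ := by
    show S * ρ = ρ⁻¹ * S
    rw [hρ, mul_inv_rev, hSi, hTi, ← mul_assoc, hSS, one_mul, mul_assoc, hSS, mul_one]
  have hTc : SemiconjBy T ρ ρ⁻¹ := by
    show T * ρ = ρ⁻¹ * T
    rw [hρ, mul_inv_rev, hSi, hTi, mul_assoc]
  have hSk : ∀ (k : ℤ) (x : α), S ((ρ ^ k) x) = (ρ ^ (-k)) (S x) := by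
    intro k x
    have h := (hSc.zpow_right k)
    have h2 : S * ρ ^ k = (ρ⁻¹) ^ k * S := h
    have h3 := congrArg (fun f : Equiv.Perm α => f x) h2
    simpa [Equiv.Perm.mul_apply, inv_zpow', zpow_neg] using h3
  have hTk : ∀ (k : ℤ) (x : α), T ((ρ ^ k) x) = (ρ ^ (-k)) (T x) := by
    intro k x
    have h := (hTc.zpow_right k)
    have h2 : T * ρ ^ k = (ρ⁻¹) ^ k * T := h
    have h3 := congrArg (fun f : Equiv.Perm α => f x) h2
    simpa [Equiv.Perm.mul_apply, inv_zpow', zpow_neg] using h3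
  have hadd : ∀ (i j : ℤ) (x : α), (ρ ^ i) ((ρ ^ j) x) = (ρ ^ (i + j)) x := by
    intro i j x
    rw [zpow_add, Equiv.Perm.mul_apply]
  have hST : ∀ x, S x = ρ (T x) := by
    intro x
    rw [hρ, Equiv.Perm.mul_apply]
    show S x = S (τ (τ x))
    rw [hτ]
  have hTS : ∀ x, T x = (ρ ^ (-1 : ℤ)) (S x) := by
    intro x
    rw [hST x, ← zpow_one ρ, ← zpow_mul, hadd]
    simp
  let q : α → Quotient (Equiv.Perm.SameCycle.setoid ρ) := fun x => Quotient.mk _ x
  have hq : ∀ x y, q x = q y ↔ ρ.SameCycle x y := fun x y => Quotient.eq (r := Equiv.Perm.SameCycle.setoid ρ)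
  have hne : ∀ x, q x ≠ q (σ x) := by
    intro x h
    rw [hq] at h
    obtain ⟨k, hk⟩ := h
    rcases Int.even_or_odd' k with ⟨m, rfl | rfl⟩
    · apply hσ' ((ρ ^ m) x)
      show S ((ρ ^ m) x) = _
      rw [hSk, hS, ← hk, hadd]
      congr 2; ring
    · apply hτ' ((ρ ^ m) x)
      show T ((ρ ^ m) x) = _
      rw [hTk, hTS, hS, ← hk, hadd, hadd]
      congr 2; ring
  have hστ : ∀ x, q (τ x) = q (σ x) := by
    intro x
    rw [hq]
    refine ⟨1, ?_⟩
    rw [zpow_one]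
    exact (hST x).symm
  have hρx : ∀ x, q (σ (τ x)) = q x := by
    intro x
    rw [hq]
    refine Equiv.Perm.SameCycle.symm ⟨1, ?_⟩
    rw [zpow_one, hρ]
    rfl
  let W := WellOrderingRel (α := Quotient (Equiv.Perm.SameCycle.setoid ρ))
  have key : ∀ a b : Quotient (Equiv.Perm.SameCycle.setoid ρ), a ≠ b → (decide (W b a) = !(decide (W a b))) := by
    intro a b hab
    rcases trichotomous_of W a b with h | h | h
    · have h' : ¬ W b a := asymm_of W h
      simp [h, h']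
    · exact absurd h hab
    · have h' : ¬ W a b := asymm_of W h
      simp [h, h']
  refine ⟨fun x => decide (W (q x) (q (σ x))), ?_, ?_⟩
  · intro a
    show decide (W (q (σ a)) (q (σ (σ a)))) = !(decide (W (q a) (q (σ a))))
    rw [hσ]
    exact key _ _ (hne a)
  · intro a
    show decide (W (q (τ a)) (q (σ (τ a)))) = !(decide (W (q a) (q (σ a))))
    rw [hστ, hρx]
    exact key _ _ (hne a)

end Pool.HPS
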