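import Pool.Agent.HPS.DefsD
import Pool.Agent.HPS.TwoCol

/-!
# Module HPS-Eps: the circles of the states of `H_p` cross the line at infinity an even number of times
(imports TwoCol; use it)

PLAN.
* Every half-edge `(i, t, s)` belongs to exactly one crossing `c ∈ cr q` and label `k : Fin 4`, `hx q c k = (i, t, s)`: the other strand is `j = t` if `t < i`, else
  `j = t + 1`; `c = (min, max)`.  So for a state `r` the smoothing gives a fixed-point-free involution `τ` of `HE q` (`(c,k) ↦ (c, k')`, `k' = 0↔1, 2↔3` if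
  `c ∉ r` and `0↔2, 1↔3` if `c ∈ r`), and the wires give `σ (i,t,true) = (i,t+1,false)`, `σ (i,t,false) = (i,t-1,true)`.
  Explicitly: `other (i,t) = (j, t')` with `j = t`, `t' = i - 1` if `t < i` and `j = t+1`, `t' = i` if `t ≥ i` (values in ℕ); 0-smoothing: `(i,t,s) ↦ (j,t',!s)`; 1-smoothing:
  `(i,t,s) ↦ (j,t',s)`.
* `two_col` gives `t r : HE q → Bool` changing under both.  Put `δ (i,t,s) = (if t r (i,t,s) = s then 1 else -1)` (direction of travel: it is constant along
  wires, constant along 0-smoothings, changes along 1-smoothings) and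
  `ε r (i,t,s) = δ (i,t,s) * (-1)^(i+t) * (if s then -1 else 1)`.
* Check: wires: `ε (i,t,true) = eps q t * ε (i,t+1,false)` (for `t < 2q`: `(-1)^(i+t) (-1) = (-1)^(i+t+1)`; for `t = 2q = last`: `t + 1 = 0` and
  `(-1)^(i+2q) (-1) = - (-1)^i`).  0-smoothing at `(i,j)`, `i < j`: `(i, j-1, s)` and `(j, i, !s)`: `(-1)^(i+j-1)` and `-(-1)^(j+i)`, same `δ`: equal.  1-smoothing:
  `(i, j-1, s)` and `(j, i, s)`: `(-1)^(i+j-1)` and `(-1)^(i+j)`, opposite `δ`: equal.
* `Sgn.w` (`wires q a b`: `a = b`, or `a = (i,t,true)`, `b = (i,t+1,false)` or conversely): the product of signs is `1` resp. `eps q t`.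
* `IL_eq`: for any sign function `η` consistent at `r`, `IL K q r = IV K (U ..) η`.  `≤`: generators of `IL` are generators of `IV` (`U_rel0`, `U_rel1`; the sign of a wire is
  `η (i,t,true) * η (i,t+1,false) = eps q t`).  `≥`: the relation `X a - C (η a * η b) X b ∈ IL K q r` is an equivalence relation (`η² = 1`) that contains
  `wires q` and the smoothings, so it contains `U ..` (`sup_le_iff`, `Finset.sup_le_iff`, `s0_le`, `s1_le`).
-/

set_option autoImplicit false

open Finset MvPolynomial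

namespace Pool.HPS

/-- A sign function that is consistent at the state `r`. -/
structure Cons (q : ℕ) (r : Finset (ℕ × ℕ)) (η : HE q → ℤ) : Prop where
  pm : ∀ h, η h = 1 ∨ η h = -1
  w : ∀ i t, η (i, t, true) = eps q t * η (i, t + 1, false)
  a0 : ∀ c ∈ cr q, c ∉ r → η (hx q c 0) = η (hx q c 1) ∧ η (hx q c 2) = η (hx q c 3)
  a1 : ∀ c ∈ cr q, c ∈ r → η (hx q c 0) = η (hx q c 2) ∧ η (hx q c 1) = η (hx q c 3)

private theorem mem_cr {q : ℕ} {c : ℕ × ℕ} : c ∈ cr q ↔ c.1 < c.2 ∧ c.2 < 2 * q + 2 := by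
  simp only [cr, fl, Finset.mem_filter, Finset.mem_product, Finset.mem_range]
  omega

private theorem he_1 {q i : ℕ} (j : ℕ) (hi : i < 2 * q + 2) (s : Bool) :
    ((he q i j s).1 : ℕ) = i := by
  simp only [he, Fin.val_ofNat]
  exact Nat.mod_eq_of_lt hi

private theorem he_2 {q i j : ℕ} (hi : i < 2 * q + 2) (hj : j < 2 * q + 2) (_hij : i ≠ j)
    (s : Bool) : ((he q i j s).2.1 : ℕ) = if j < i then j else j - 1 := by
  simp only [he, Fin.val_ofNat]
  apply Nat.mod_eq_of_lt
  split_ifs <;> omega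

private theorem he_3 {q : ℕ} (i j : ℕ) (s : Bool) : (he q i j s).2.2 = s := rfl

private def A {q : ℕ} (h : HE q) : ℕ := (h.1 : ℕ)

private def B {q : ℕ} (h : HE q) : ℕ := if (h.2.1 : ℕ) < (h.1 : ℕ) then (h.2.1 : ℕ) else (h.2.1 : ℕ) + 1

private theorem A_lt {q : ℕ} (h : HE q) : A h < 2 * q + 2 := h.1.2

private theorem B_lt {q : ℕ} (h : HE q) : B h < 2 * q + 2 := by
  have h1 := h.1.2
  have h2 := h.2.1.2
  unfold B
  split_ifs <;> omega

private theorem A_ne_B {q : ℕ} (h : HE q) : A h ≠ B h := by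
  unfold A B
  split_ifs <;> omega

private theorem he_AB {q : ℕ} (h : HE q) : he q (A h) (B h) h.2.2 = h := by
  obtain ⟨i, t, s⟩ := h
  have h1 := i.2
  have h2 := t.2
  refine Prod.ext ?_ (Prod.ext ?_ rfl)
  · apply Fin.ext
    exact he_1 _ (A_lt _) _
  · apply Fin.ext
    rw [he_2 (A_lt _) (B_lt _) (A_ne_B _)]
    simp only [A, B]
    split_ifs <;> omega

private theorem A_he {q i j : ℕ} (hi : i < 2 * q + 2) (s : Bool) : A (he q i j s) = i :=
  he_1 j hi s

private theorem B_he {q i j : ℕ} (hi : i < 2 * q + 2) (hj : j < 2 * q + 2) (hij : i ≠ j)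
    (s : Bool) : B (he q i j s) = j := by
  unfold B
  rw [he_1 j hi s, he_2 hi hj hij s]
  split_ifs <;> omega

private theorem mk_cons (q : ℕ) (r : Finset (ℕ × ℕ)) (δ : HE q → ℤ)
    (pm : ∀ h, δ h = 1 ∨ δ h = -1) (hw : ∀ i t, δ (i, t, true) = δ (i, t + 1, false))
    (h0 : ∀ c ∈ cr q, c ∉ r → δ (hx q c 0) = δ (hx q c 1) ∧ δ (hx q c 2) = δ (hx q c 3))
    (h1 : ∀ c ∈ cr q, c ∈ r → δ (hx q c 0) = - δ (hx q c 2) ∧ δ (hx q c 1) = - δ (hx q c 3)) :
    Cons q r (fun h => δ h * (-1) ^ ((h.1 : ℕ) + (h.2.1 : ℕ)) * (if h.2.2 then -1 else 1)) := by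
  have key : ∀ c ∈ cr q, ∃ e : ℤ, ∀ δ' : HE q → ℤ,
      (δ' (hx q c 0) * (-1) ^ (((hx q c 0).1 : ℕ) + ((hx q c 0).2.1 : ℕ)) *
        (if (hx q c 0).2.2 then -1 else 1) = δ' (hx q c 0) * e) ∧
      (δ' (hx q c 1) * (-1) ^ (((hx q c 1).1 : ℕ) + ((hx q c 1).2.1 : ℕ)) *
        (if (hx q c 1).2.2 then -1 else 1) = δ' (hx q c 1) * e) ∧
      (δ' (hx q c 2) * (-1) ^ (((hx q c 2).1 : ℕ) + ((hx q c 2).2.1 : ℕ)) *
        (if (hx q c 2).2.2 then -1 else 1) = - (δ' (hx q c 2) * e)) ∧
      (δ' (hx q c 3) * (-1) ^ (((hx q c 3).1 : ℕ) + ((hx q c 3).2.1 : ℕ)) *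
        (if (hx q c 3).2.2 then -1 else 1) = - (δ' (hx q c 3) * e)) := by
    rintro ⟨i, j⟩ hc
    obtain ⟨hij, hj⟩ := mem_cr.1 hc
    simp only at hij hj
    have hi : i < 2 * q + 2 := by omega
    have e0 : hx q (i, j) 0 = he q i j false := rfl
    have e1 : hx q (i, j) 1 = he q j i true := rfl
    have e2 : hx q (i, j) 2 = he q j i false := rfl
    have e3 : hx q (i, j) 3 = he q i j true := rfl
    have hne : i ≠ j := by omega
    have hne' : j ≠ i := by omega
    obtain ⟨m, rfl⟩ : ∃ m, j = m + 1 := ⟨j - 1, by omega⟩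
    refine ⟨(-1) ^ (i + m), fun δ' => ⟨?_, ?_, ?_, ?_⟩⟩
    · rw [e0, he_1 _ hi, he_2 hi hj hne, he_3, if_neg (by omega : ¬ m + 1 < i)]
      simp
    · rw [e1, he_1 _ hj, he_2 hj hi hne', he_3, if_pos (by omega : i < m + 1)]
      simp only [if_true]
      have : m + 1 + i = (i + m) + 1 := by ring
      rw [this, pow_succ]; ring
    · rw [e2, he_1 _ hj, he_2 hj hi hne', he_3, if_pos (by omega : i < m + 1)]
      have : m + 1 + i = (i + m) + 1 := by ring
      rw [this, pow_succ]; simp
    · rw [e3, he_1 _ hi, he_2 hi hj hne, he_3, if_neg (by omega : ¬ m + 1 < i)]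
      simp
  refine ⟨?_, ?_, ?_, ?_⟩
  · intro h
    rcases pm h with h' | h' <;> rcases neg_one_pow_eq_or ℤ ((h.1 : ℕ) + (h.2.1 : ℕ)) with h'' | h''
      <;> rw [h', h''] <;> split_ifs <;> simp
  · intro i t
    simp only
    rw [hw]
    by_cases ht : t = Fin.last (2 * q)
    · subst ht
      rw [eps, if_pos rfl, Fin.last_add_one]
      simp only [if_true, Fin.val_last, Fin.val_zero, add_zero, Bool.false_eq_true, if_false]
      have : ((-1 : ℤ)) ^ ((i : ℕ) + 2 * q) = (-1) ^ (i : ℕ) := by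
        rw [pow_add, pow_mul]; simp
      rw [this]; ring
    · rw [eps, if_neg ht, Fin.val_add_one_of_lt (Fin.lt_last_iff_ne_last.2 ht)]
      simp only [if_true, Bool.false_eq_true, if_false]
      rw [← add_assoc, pow_succ]; ring
  · intro c hc hr
    obtain ⟨e, he⟩ := key c hc
    obtain ⟨k0, k1, k2, k3⟩ := he δ
    obtain ⟨g0, g1⟩ := h0 c hc hr
    rw [k0, k1, k2, k3, g0, g1]
    exact ⟨rfl, rfl⟩
  · intro c hc hr
    obtain ⟨e, he⟩ := key c hc
    obtain ⟨k0, k1, k2, k3⟩ := he δ
    obtain ⟨g0, g1⟩ := h1 c hc hr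
    rw [k0, k1, k2, k3, g0, g1]
    constructor <;> ring

private theorem op_comm {i j : ℕ} (h : i ≠ j) : op i j = op j i := by
  unfold op
  by_cases h1 : i < j
  · rw [if_pos h1, if_neg (by omega)]
  · rw [if_neg h1, if_pos (by omega)]

theorem exists_cons (q : ℕ) (r : Finset (ℕ × ℕ)) : ∃ η, Cons q r η := by
  classical
  set σ : HE q → HE q := fun h => if h.2.2 then (h.1, h.2.1 + 1, false) else (h.1, h.2.1 - 1, true)
    with hσdef
  set τ : HE q → HE q := fun h => he q (B h) (A h)
    (if op (A h) (B h) ∈ r then h.2.2 else !h.2.2) with hτdef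
  have hσ : ∀ a, σ (σ a) = a := by
    rintro ⟨i, t, s⟩
    cases s <;> simp [hσdef]
  have hσ' : ∀ a, σ a ≠ a := by
    rintro ⟨i, t, s⟩
    cases s <;> simp [hσdef]
  have hτ : ∀ a, τ (τ a) = a := by
    intro h
    have h1 : A (τ h) = B h := A_he (B_lt h) _
    have h2 : B (τ h) = A h := B_he (B_lt h) (A_lt h) (A_ne_B h).symm _
    have h3 : (τ h).2.2 = if op (A h) (B h) ∈ r then h.2.2 else !h.2.2 := rfl
    have h4 : τ (τ h) = he q (B (τ h)) (A (τ h))
      (if op (A (τ h)) (B (τ h)) ∈ r then (τ h).2.2 else !(τ h).2.2) := rfl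
    rw [h4, h1, h2, h3, op_comm (A_ne_B h).symm]
    by_cases hr : op (A h) (B h) ∈ r
    · rw [if_pos hr, if_pos hr]; exact he_AB h
    · rw [if_neg hr, if_neg hr, Bool.not_not]; exact he_AB h
  have hτ' : ∀ a, τ a ≠ a := by
    intro h hh
    have h1 : A (τ h) = B h := A_he (B_lt h) _
    rw [hh] at h1
    exact A_ne_B h h1
  obtain ⟨t, ht1, ht2⟩ := two_col σ τ hσ hτ hσ' hτ'
  have hτ_he : ∀ i j s, i < 2 * q + 2 → j < 2 * q + 2 → i ≠ j →
      τ (he q i j s) = he q j i (if op i j ∈ r then s else !s) := by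
    intro i j s hi hj hij
    have h4 : τ (he q i j s) = he q (B (he q i j s)) (A (he q i j s))
      (if op (A (he q i j s)) (B (he q i j s)) ∈ r then s else !s) := rfl
    rw [h4, A_he hi, B_he hi hj hij]
  refine ⟨_, mk_cons q r (fun h => if t h = h.2.2 then 1 else -1) ?_ ?_ ?_ ?_⟩
  · intro h
    split_ifs <;> simp
  · intro i u
    have h1 : t (i, u + 1, false) = !(t (i, u, true)) := by
      rw [← ht1]; simp [hσdef]
    simp only
    rw [h1]
    cases t (i, u, true) <;> simp
  · rintro ⟨i, j⟩ hc hr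
    obtain ⟨hij, hj⟩ := mem_cr.1 hc
    simp only at hij hj
    have hi : i < 2 * q + 2 := by omega
    have hop : op i j = (i, j) := by rw [op, if_pos hij]
    have e0 : hx q (i, j) 0 = he q i j false := rfl
    have e1 : hx q (i, j) 1 = he q j i true := rfl
    have e2 : hx q (i, j) 2 = he q j i false := rfl
    have e3 : hx q (i, j) 3 = he q i j true := rfl
    have f1 := hτ_he i j false hi hj (by omega)
    have f3 := hτ_he i j true hi hj (by omega)
    rw [hop, if_neg hr] at f1 f3
    have g1 := ht2 (he q i j false)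
    have g3 := ht2 (he q i j true)
    rw [f1] at g1
    rw [f3] at g3
    simp only [Bool.not_false, Bool.not_true] at g1 g3
    rw [e0, e1, e2, e3, he_3, he_3, he_3, he_3, g1, g3]
    constructor
    · cases t (he q i j false) <;> simp
    · cases t (he q i j true) <;> simp
  · rintro ⟨i, j⟩ hc hr
    obtain ⟨hij, hj⟩ := mem_cr.1 hc
    simp only at hij hj
    have hi : i < 2 * q + 2 := by omega
    have hop : op i j = (i, j) := by rw [op, if_pos hij]
    have e0 : hx q (i, j) 0 = he q i j false := rfl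
    have e1 : hx q (i, j) 1 = he q j i true := rfl
    have e2 : hx q (i, j) 2 = he q j i false := rfl
    have e3 : hx q (i, j) 3 = he q i j true := rfl
    have f1 := hτ_he i j false hi hj (by omega)
    have f3 := hτ_he i j true hi hj (by omega)
    rw [hop, if_pos hr] at f1 f3
    have g1 := ht2 (he q i j false)
    have g3 := ht2 (he q i j true)
    rw [f1] at g1
    rw [f3] at g3
    rw [e0, e1, e2, e3, he_3, he_3, he_3, he_3, g1, g3]
    constructor
    · cases t (he q i j false) <;> simp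
    · cases t (he q i j true) <;> simp

private theorem wires_cases {q : ℕ} {a b : HE q} (h : wires q a b) :
    a = b ∨ (∃ i t, a = (i, t, true) ∧ b = (i, t + 1, false)) ∨
      (∃ i t, a = (i, t + 1, false) ∧ b = (i, t, true)) := by
  obtain ⟨i, t, s⟩ := a
  obtain ⟨i', t', s'⟩ := b
  have h' : wire q (i, t, s) = wire q (i', t', s') := h
  simp only [wire, Prod.mk.injEq] at h'
  obtain ⟨rfl, h2⟩ := h'
  cases s <;> cases s'
  · left
    simp only [Bool.false_eq_true, if_false, sub_left_inj] at h2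
    rw [h2]
  · right; right
    simp only [Bool.false_eq_true, if_false, if_true] at h2
    exact ⟨i, t', by rw [← h2, sub_add_cancel], rfl⟩
  · right; left
    simp only [Bool.false_eq_true, if_false, if_true] at h2
    exact ⟨i, t, rfl, by rw [h2, sub_add_cancel]⟩
  · left
    simp only [if_true] at h2
    rw [h2]

private theorem wires_w {q : ℕ} (i : Fin (2 * q + 2)) (t : Fin (2 * q + 1)) :
    wires q (i, t, true) (i, t + 1, false) := by
  change wire q (i, t, true) = wire q (i, t + 1, false)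
  simp [wire]

private theorem sq_one {z : ℤ} (h : z = 1 ∨ z = -1) : z * z = 1 := by
  rcases h with rfl | rfl <;> norm_num

theorem IL_eq (K : Type) [CommRing K] (q : ℕ) (r : Finset (ℕ × ℕ)) {η : HE q → ℤ}
    (h : Cons q r η) : IL K q r = IV K (U (wires q) (hx q) (cr q) r) η := by
  apply le_antisymm
  · rw [IL, Ideal.span_le]
    rintro f (((⟨p, rfl⟩ | ⟨i, t, rfl⟩) | ⟨c, hc, hr, hf⟩) | ⟨c, hc, hr, hf⟩)
    · exact Ideal.subset_span (Or.inl ⟨p, rfl⟩)
    · refine Ideal.subset_span (Or.inr ⟨(i, t, true), (i, t + 1, false), le_U (wires_w i t), ?_⟩)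
      rw [h.w i t, mul_assoc, sq_one (h.pm _), mul_one]
    · obtain ⟨g0, g1⟩ := U_rel0 (W := wires q) (x := hx q) hc hr
      obtain ⟨k0, k1⟩ := h.a0 c hc hr
      rcases hf with rfl | rfl
      · refine Ideal.subset_span (Or.inr ⟨_, _, g0, ?_⟩)
        rw [k0, sq_one (h.pm _), Int.cast_one, C_1, one_mul]
      · refine Ideal.subset_span (Or.inr ⟨_, _, g1, ?_⟩)
        rw [k1, sq_one (h.pm _), Int.cast_one, C_1, one_mul]
    · obtain ⟨g0, g1⟩ := U_rel1 (W := wires q) (x := hx q) hc hr
      obtain ⟨k0, k1⟩ := h.a1 c hc hr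
      rcases hf with rfl | rfl
      · refine Ideal.subset_span (Or.inr ⟨_, _, g0, ?_⟩)
        rw [k0, sq_one (h.pm _), Int.cast_one, C_1, one_mul]
      · refine Ideal.subset_span (Or.inr ⟨_, _, g1, ?_⟩)
        rw [k1, sq_one (h.pm _), Int.cast_one, C_1, one_mul]
  · let R : Setoid (HE q) :=
      { r := fun a b => X a - C ((η a * η b : ℤ) : K) * X b ∈ IL K q r
        iseqv := by
          refine ⟨?_, ?_, ?_⟩
          · intro a
            rw [sq_one (h.pm a), Int.cast_one, C_1, one_mul, sub_self]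
            exact Ideal.zero_mem _
          · intro a b hab
            have h1 : (X b - C ((η b * η a : ℤ) : K) * X a : MvPolynomial (HE q) K) =
                - C ((η a * η b : ℤ) : K) * (X a - C ((η a * η b : ℤ) : K) * X b) := by
              have h2 : C ((η a * η b : ℤ) : K) * C ((η a * η b : ℤ) : K) =
                  (1 : MvPolynomial (HE q) K) := by
                rw [← C_mul, ← Int.cast_mul]
                have : η a * η b * (η a * η b) = 1 := by
                  calc η a * η b * (η a * η b) = (η a * η a) * (η b * η b) := by ring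
                    _ = 1 := by rw [sq_one (h.pm a), sq_one (h.pm b)]; norm_num
                rw [this, Int.cast_one, C_1]
              rw [mul_comm (η b) (η a)]
              linear_combination (-X b : MvPolynomial (HE q) K) * h2
            rw [h1]
            exact Ideal.mul_mem_left _ _ hab
          · intro a b c hab hbc
            have h1 : (X a - C ((η a * η c : ℤ) : K) * X c : MvPolynomial (HE q) K) =
                (X a - C ((η a * η b : ℤ) : K) * X b) +
                  C ((η a * η b : ℤ) : K) * (X b - C ((η b * η c : ℤ) : K) * X c) := by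
              have h2 : C ((η a * η b : ℤ) : K) * C ((η b * η c : ℤ) : K) =
                  (C ((η a * η c : ℤ) : K) : MvPolynomial (HE q) K) := by
                rw [← C_mul, ← Int.cast_mul]
                have : η a * η b * (η b * η c) = η a * η c := by
                  calc η a * η b * (η b * η c) = η a * (η b * η b) * η c := by ring
                    _ = η a * η c := by rw [sq_one (h.pm b)]; ring
                rw [this]
              linear_combination (X c : MvPolynomial (HE q) K) * h2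
            rw [h1]
            exact Ideal.add_mem _ hab (Ideal.mul_mem_left _ _ hbc) }
    have hR : ∀ a b, R a b ↔ X a - C ((η a * η b : ℤ) : K) * X b ∈ IL K q r := fun a b => Iff.rfl
    have hle : U (wires q) (hx q) (cr q) r ≤ R := by
      rw [U, sup_le_iff, Finset.sup_le_iff]
      constructor
      · intro a b hab
        rcases wires_cases hab with rfl | ⟨i, t, rfl, rfl⟩ | ⟨i, t, rfl, rfl⟩
        · exact R.refl _
        · rw [hR, h.w i t, mul_assoc, sq_one (h.pm _), mul_one]
          exact Ideal.subset_span (Or.inl (Or.inl (Or.inr ⟨i, t, rfl⟩)))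
        · refine R.symm ?_
          change R (i, t, true) (i, t + 1, false)
          rw [hR, h.w i t, mul_assoc, sq_one (h.pm _), mul_one]
          exact Ideal.subset_span (Or.inl (Or.inl (Or.inr ⟨i, t, rfl⟩)))
      · intro c hc
        by_cases hr : c ∈ r
        · rw [if_pos hr, s1_le, hR, hR]
          obtain ⟨k0, k1⟩ := h.a1 c hc hr
          rw [k0, k1, sq_one (h.pm _), sq_one (h.pm _), Int.cast_one, C_1, one_mul, one_mul]
          exact ⟨Ideal.subset_span (Or.inr ⟨c, hc, hr, Or.inl rfl⟩),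
            Ideal.subset_span (Or.inr ⟨c, hc, hr, Or.inr rfl⟩)⟩
        · rw [if_neg hr, s0_le, hR, hR]
          obtain ⟨k0, k1⟩ := h.a0 c hc hr
          rw [k0, k1, sq_one (h.pm _), sq_one (h.pm _), Int.cast_one, C_1, one_mul, one_mul]
          exact ⟨Ideal.subset_span (Or.inl (Or.inr ⟨c, hc, hr, Or.inl rfl⟩)),
            Ideal.subset_span (Or.inl (Or.inr ⟨c, hc, hr, Or.inr rfl⟩))⟩
    rw [IV, Ideal.span_le]
    rintro f (⟨p, rfl⟩ | ⟨a, b, hab, rfl⟩)
    · exact Ideal.subset_span (Or.inl (Or.inl (Or.inl ⟨p, rfl⟩)))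
    · exact (hR a b).1 (hle hab)

theorem Sgn_of_cons (q : ℕ) (ε : Finset (ℕ × ℕ) → HE q → ℤ) (h : ∀ r, Cons q r (ε r)) :
    Sgn (wires q) (hx q) (cr q) ε := by
  refine ⟨fun r p => (h r).pm p, ?_, fun r c hc hr => (h r).a0 c hc hr,
    fun r c hc hr => (h r).a1 c hc hr⟩
  intro r r' a b hab
  rcases wires_cases hab with rfl | ⟨i, t, rfl, rfl⟩ | ⟨i, t, rfl, rfl⟩
  · rw [sq_one ((h r).pm _), sq_one ((h r').pm _)]
  · rw [(h r).w, (h r').w, mul_assoc, mul_assoc, sq_one ((h r).pm _), sq_one ((h r').pm _)]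
  · rw [mul_comm, mul_comm (ε r' _), (h r).w, (h r').w, mul_assoc, mul_assoc,
      sq_one ((h r).pm _), sq_one ((h r').pm _)]

/-- The signs of the Lee generator are consistent at the oriented resolution. -/
theorem cons_eo (q : ℕ) : Cons q (rO q) (eo q) := by
  have := mk_cons q (rO q) (fun h => if (h.1 : ℕ) < q + 1 then 1 else -1) ?_ ?_ ?_ ?_
  · exact this
  · intro h
    split_ifs <;> simp
  · intro i t
    rfl
  · rintro ⟨i, j⟩ hc hr
    obtain ⟨hij, hj⟩ := mem_cr.1 hc
    simp only at hij hj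
    have hi : i < 2 * q + 2 := by omega
    have e0 : hx q (i, j) 0 = he q i j false := rfl
    have e1 : hx q (i, j) 1 = he q j i true := rfl
    have e2 : hx q (i, j) 2 = he q j i false := rfl
    have e3 : hx q (i, j) 3 = he q i j true := rfl
    have hr' : ¬ (i < q + 1 ∧ q + 1 ≤ j) := fun hh => hr (Finset.mem_filter.2 ⟨hc, hh⟩)
    rw [e0, e1, e2, e3]
    simp only [he_1 _ hi, he_1 _ hj]
    constructor <;> split_ifs <;> first | rfl | (exfalso; omega)
  · rintro ⟨i, j⟩ hc hr
    obtain ⟨hij, hj⟩ := mem_cr.1 hc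
    simp only at hij hj
    have hi : i < 2 * q + 2 := by omega
    have e0 : hx q (i, j) 0 = he q i j false := rfl
    have e1 : hx q (i, j) 1 = he q j i true := rfl
    have e2 : hx q (i, j) 2 = he q j i false := rfl
    have e3 : hx q (i, j) 3 = he q i j true := rfl
    have hr' : i < q + 1 ∧ q + 1 ≤ j := (Finset.mem_filter.1 hr).2
    rw [e0, e1, e2, e3]
    simp only [he_1 _ hi, he_1 _ hj]
    rw [if_pos hr'.1, if_neg (by omega : ¬ j < q + 1)]
    constructor <;> norm_num

end Pool.HPS
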