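import Pool.Agent.HPS.Lv

/-!
# Module HPS-Gen: the Lee generators (imports Lv; use `InD_add`, …)

General setting: a finite type `Pt`, `V : Setoid Pt`, signs `η : Pt → {±1}`, `R : Finset Pt` a transversal of the classes of `V` (`hR1`: every point is related to a point of `R`;
`hR2`: different points of `R` are not related).  `gen d = ∏ h, (1/2) (1 + d η_h X_h)` (`d = ±1`).

PLAN.
* `a_h := C (1/2) * (1 + C (d η_h) X_h)` satisfies `a_h² - a_h ∈ IV` (`X_h² = 1`, `η² = d² = 1`) and `a_h - a_h' ∈ IV` if `V h h'` (`X_h - η_h η_h' X_h' ∈ IV`, `η_h' = η_h η_h η_h'`).  So in the quotient ring the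
  product over a class is `a_R` (idempotent), and the product over all points (`Fintype`) is the product over `R`: `gen d - ∏ h ∈ R, a_h ∈ IV` (`Finset.prod_fiberwise`-type grouping by the
  representative, work in the quotient ring `MvPolynomial Pt ℚ ⧸ IV`).
* Expansion: `∏ h ∈ R, (1 + C (d η_h) X_h) = ∑ A ∈ R.powerset, ∏ h ∈ A, C (d η_h) X_h` (`Finset.prod_one_add` or `prod_add`), `d^{|A|}`.
  `v0 R η b := ∑ A ∈ R.powerset with |A| ≡ b (mod 2), ∏ h ∈ A, (C η_h * X_h)` over `ℤ`.  Then `gen 1 + gen (-1) ≡ 2^{1-|R|} v0 0`, `gen 1 - gen (-1) ≡ 2^{1-|R|} v0 1` modulo `IV`.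
* `v0_deg`: all monomials of `v0 R η b` have degree `≤ |R|`, and `≤ |R| - 1` if `b ≢ |R|`.
* `v0_top`: modulo 2, `Phi (v0) + ∏ h ∈ R, X h` has only monomials of degree `≤ |R| - 1` if `b ≡ |R|`: `Phi (∏_{h ∈ A} X_h) = ∏_{h ∈ A} (X_h + 1)` has degree `≤ |A|`, and for `A = R` its top part
  is `∏_{h ∈ R} X_h` (expand by `Finset.prod_add`).
* `gen_X`: `X h * gen d - C (d η_h) * gen d ∈ IV` (`X_h a_h - d η_h a_h ∈ IV`).
-/

set_option autoImplicit false

open Finset MvPolynomial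

namespace Pool.HPS

variable {Pt : Type} [Fintype Pt]

/-- The product of idempotents. -/
noncomputable def gen (η : Pt → ℤ) (d : ℤ) : MvPolynomial Pt ℚ :=
  ∏ h : Pt, C (1 / 2) * (1 + C ((d * η h : ℤ) : ℚ) * X h)

open Classical in
/-- The part of given parity of `∏ h ∈ R, (1 + η_h X_h)`. -/
noncomputable def v0 (R : Finset Pt) (η : Pt → ℤ) (b : ℕ) : MvPolynomial Pt ℤ :=
  ∑ A ∈ R.powerset.filter (fun A => A.card % 2 = b % 2), ∏ h ∈ A, (C (η h) * X h)

variable {V : Setoid Pt} {η : Pt → ℤ} {R : Finset Pt}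

private theorem cast_sq {s : ℤ} (h : s = 1 ∨ s = -1) : ((s : ℤ) : ℚ) * ((s : ℤ) : ℚ) = 1 := by
  rcases h with rfl | rfl <;> norm_num

private theorem pm_mul {s t : ℤ} (h : s = 1 ∨ s = -1) (h' : t = 1 ∨ t = -1) :
    s * t = 1 ∨ s * t = -1 := by
  rcases h with rfl | rfl <;> rcases h' with rfl | rfl <;> norm_num

/-- One factor. -/
private noncomputable def fac (η : Pt → ℤ) (d : ℤ) (h : Pt) : MvPolynomial Pt ℚ :=
  C (1 / 2) * (1 + C ((d * η h : ℤ) : ℚ) * X h)

omit [Fintype Pt] in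
private theorem fac_X (hη : ∀ p, η p = 1 ∨ η p = -1) {d : ℤ} (hd : d = 1 ∨ d = -1) (h : Pt) :
    X h * fac η d h - C ((d * η h : ℤ) : ℚ) * fac η d h ∈ IV ℚ V η := by
  have h1 : (X h ^ 2 - 1 : MvPolynomial Pt ℚ) ∈ IV ℚ V η := Ideal.subset_span (Or.inl ⟨h, rfl⟩)
  have h2 : (C ((d * η h : ℤ) : ℚ) * C ((d * η h : ℤ) : ℚ) : MvPolynomial Pt ℚ) = 1 := by
    rw [← C_mul, cast_sq (pm_mul hd (hη h)), C_1]
  have e : X h * fac η d h - C ((d * η h : ℤ) : ℚ) * fac η d h =
      (C (1 / 2) * C ((d * η h : ℤ) : ℚ)) * (X h ^ 2 - 1) := by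
    unfold fac
    linear_combination (-(C (1 / 2) * X h)) * h2
  rw [e]
  exact Ideal.mul_mem_left _ _ h1

omit [Fintype Pt] in
private theorem fac_idem (hη : ∀ p, η p = 1 ∨ η p = -1) {d : ℤ} (hd : d = 1 ∨ d = -1) (h : Pt) :
    fac η d h * fac η d h - fac η d h ∈ IV ℚ V η := by
  have h1 := fac_X (V := V) hη hd h
  have h2 : (C ((d * η h : ℤ) : ℚ) * C ((d * η h : ℤ) : ℚ) : MvPolynomial Pt ℚ) = 1 := by
    rw [← C_mul, cast_sq (pm_mul hd (hη h)), C_1]
  have h3 : (C (1 / 2) + C (1 / 2) : MvPolynomial Pt ℚ) = 1 := by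
    rw [← C_add, ← C_1]
    norm_num
  have e : fac η d h * fac η d h - fac η d h =
      (C (1 / 2) * C ((d * η h : ℤ) : ℚ)) *
        (X h * fac η d h - C ((d * η h : ℤ) : ℚ) * fac η d h) := by
    have e1 : fac η d h * fac η d h =
        C (1 / 2) * (1 + C ((d * η h : ℤ) : ℚ) * X h) * fac η d h := rfl
    rw [e1]
    linear_combination (C (1 / 2) * fac η d h) * h2 + fac η d h * h3
  rw [e]
  exact Ideal.mul_mem_left _ _ h1

omit [Fintype Pt] in
private theorem fac_rel (hη : ∀ p, η p = 1 ∨ η p = -1) (d : ℤ) {h a : Pt} (hV : V h a) :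
    fac η d h - fac η d a ∈ IV ℚ V η := by
  have h1 : (X h - C ((η h * η a : ℤ) : ℚ) * X a : MvPolynomial Pt ℚ) ∈ IV ℚ V η :=
    Ideal.subset_span (Or.inr ⟨h, a, hV, rfl⟩)
  have h2 : ((d * η h : ℤ) : ℚ) * ((η h * η a : ℤ) : ℚ) = ((d * η a : ℤ) : ℚ) := by
    have := cast_sq (hη h)
    push_cast
    linear_combination ((d : ℚ) * (η a : ℚ)) * this
  have e : fac η d h - fac η d a = (C (1 / 2) * C ((d * η h : ℤ) : ℚ)) *
      (X h - C ((η h * η a : ℤ) : ℚ) * X a) := by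
    have h3 : (C ((d * η h : ℤ) : ℚ) * C ((η h * η a : ℤ) : ℚ) : MvPolynomial Pt ℚ) =
        C ((d * η a : ℤ) : ℚ) := by rw [← C_mul, h2]
    unfold fac
    linear_combination (C (1 / 2) * X a) * h3
  rw [e]
  exact Ideal.mul_mem_left _ _ h1

private theorem gen_prod (hη : ∀ p, η p = 1 ∨ η p = -1) (hR1 : ∀ p, ∃ a ∈ R, V p a)
    (hR2 : ∀ a ∈ R, ∀ b ∈ R, V a b → a = b) {d : ℤ} (hd : d = 1 ∨ d = -1) :
    gen η d - ∏ h ∈ R, fac η d h ∈ IV ℚ V η := by
  classical
  choose rep hrep1 hrep2 using hR1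
  rw [← Ideal.Quotient.eq]
  have e0 : gen η d = ∏ h : Pt, fac η d h := rfl
  have hr : ∀ a ∈ R, rep a = a := fun a ha => (hR2 a ha _ (hrep1 a) (hrep2 a)).symm
  rw [e0, map_prod, map_prod,
    ← Finset.prod_fiberwise_of_maps_to (s := (Finset.univ : Finset Pt)) (t := R)
      (g := rep) (fun p _ => hrep1 p)]
  refine Finset.prod_congr rfl fun a ha => ?_
  have h1 : ∀ p ∈ (Finset.univ : Finset Pt).filter (fun p => rep p = a),
      (Ideal.Quotient.mk (IV ℚ V η)) (fac η d p) = (Ideal.Quotient.mk (IV ℚ V η)) (fac η d a) := by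
    intro p hp
    rw [Finset.mem_filter] at hp
    rw [Ideal.Quotient.eq]
    exact fac_rel hη d (by rw [← hp.2]; exact hrep2 p)
  rw [Finset.prod_congr rfl h1, Finset.prod_const]
  have h2 : IsIdempotentElem ((Ideal.Quotient.mk (IV ℚ V η)) (fac η d a)) := by
    unfold IsIdempotentElem
    rw [← map_mul, Ideal.Quotient.eq]
    exact fac_idem hη hd a
  have h3 : 0 < ((Finset.univ : Finset Pt).filter (fun p => rep p = a)).card :=
    Finset.card_pos.2 ⟨a, by rw [Finset.mem_filter]; exact ⟨Finset.mem_univ _, hr a ha⟩⟩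
  obtain ⟨k, hk⟩ := Nat.exists_eq_succ_of_ne_zero h3.ne'
  rw [hk]
  exact h2.pow_succ_eq k

omit [Fintype Pt] in
private theorem prod_fac (d : ℤ) :
    ∏ h ∈ R, fac η d h = C ((1 / 2 : ℚ) ^ R.card) *
      ∑ A ∈ R.powerset, C ((d : ℚ) ^ A.card) * ∏ h ∈ A, (C ((η h : ℤ) : ℚ) * X h) := by
  unfold fac
  rw [Finset.prod_mul_distrib, Finset.prod_const, ← C_pow, Finset.prod_one_add]
  congr 1
  refine Finset.sum_congr rfl fun A _ => ?_
  rw [C_pow, ← Finset.prod_const, ← Finset.prod_mul_distrib]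
  refine Finset.prod_congr rfl fun h _ => ?_
  rw [Int.cast_mul, C_mul, mul_assoc]

omit [Fintype Pt] in
open Classical in
private theorem map_v0 {K : Type} [CommRing K] (b : ℕ) :
    MvPolynomial.map (Int.castRingHom K) (v0 R η b) =
      ∑ A ∈ R.powerset.filter (fun A => A.card % 2 = b % 2),
        ∏ h ∈ A, (C ((η h : ℤ) : K) * X h) := by
  unfold v0
  rw [map_sum]
  refine Finset.sum_congr rfl fun A _ => ?_
  rw [map_prod]
  refine Finset.prod_congr rfl fun h _ => ?_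
  rw [map_mul, map_C, map_X]
  rfl

theorem gen_add (hη : ∀ p, η p = 1 ∨ η p = -1) (hR1 : ∀ p, ∃ a ∈ R, V p a)
    (hR2 : ∀ a ∈ R, ∀ b ∈ R, V a b → a = b) :
    gen η 1 + gen η (-1) - C (2 / 2 ^ R.card : ℚ) *
      MvPolynomial.map (Int.castRingHom ℚ) (v0 R η 0) ∈ IV ℚ V η := by
  classical
  have h1 := gen_prod hη hR1 hR2 (Or.inl rfl)
  have h2 := gen_prod hη hR1 hR2 (Or.inr rfl)
  have e : (∏ h ∈ R, fac η 1 h) + ∏ h ∈ R, fac η (-1) h = C (2 / 2 ^ R.card : ℚ) *
      MvPolynomial.map (Int.castRingHom ℚ) (v0 R η 0) := by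
    have e1 : (2 / 2 ^ R.card : ℚ) = (1 / 2) ^ R.card * 2 := by
      rw [one_div, inv_pow]; ring
    rw [prod_fac, prod_fac, map_v0, ← mul_add, ← Finset.sum_add_distrib, e1, C_mul, mul_assoc]
    congr 1
    rw [Finset.mul_sum, Finset.sum_filter]
    refine Finset.sum_congr rfl fun A _ => ?_
    rw [← add_mul, ← C_add]
    by_cases hA : A.card % 2 = 0 % 2
    · rw [if_pos hA]
      have h3 : Even A.card := Nat.even_iff.2 hA
      congr 2
      push_cast
      rw [h3.neg_one_pow]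
      norm_num
    · rw [if_neg hA]
      have h3 : Odd A.card := Nat.odd_iff.2 (by omega)
      push_cast
      rw [h3.neg_one_pow]
      norm_num
  rw [← e]
  have e2 : gen η 1 + gen η (-1) - ((∏ h ∈ R, fac η 1 h) + ∏ h ∈ R, fac η (-1) h) =
      (gen η 1 - ∏ h ∈ R, fac η 1 h) + (gen η (-1) - ∏ h ∈ R, fac η (-1) h) := by ring
  rw [e2]
  exact Ideal.add_mem _ h1 h2

theorem gen_sub (hη : ∀ p, η p = 1 ∨ η p = -1) (hR1 : ∀ p, ∃ a ∈ R, V p a)
    (hR2 : ∀ a ∈ R, ∀ b ∈ R, V a b → a = b) :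
    gen η 1 - gen η (-1) - C (2 / 2 ^ R.card : ℚ) *
      MvPolynomial.map (Int.castRingHom ℚ) (v0 R η 1) ∈ IV ℚ V η := by
  classical
  have h1 := gen_prod hη hR1 hR2 (Or.inl rfl)
  have h2 := gen_prod hη hR1 hR2 (Or.inr rfl)
  have e : (∏ h ∈ R, fac η 1 h) - ∏ h ∈ R, fac η (-1) h = C (2 / 2 ^ R.card : ℚ) *
      MvPolynomial.map (Int.castRingHom ℚ) (v0 R η 1) := by
    have e1 : (2 / 2 ^ R.card : ℚ) = (1 / 2) ^ R.card * 2 := by
      rw [one_div, inv_pow]; ring
    rw [prod_fac, prod_fac, map_v0, ← mul_sub, ← Finset.sum_sub_distrib, e1, C_mul, mul_assoc]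
    congr 1
    rw [Finset.mul_sum, Finset.sum_filter]
    refine Finset.sum_congr rfl fun A _ => ?_
    rw [← sub_mul, ← C_sub]
    by_cases hA : A.card % 2 = 1 % 2
    · rw [if_pos hA]
      have h3 : Odd A.card := Nat.odd_iff.2 hA
      congr 2
      push_cast
      rw [h3.neg_one_pow]
      norm_num
    · rw [if_neg hA]
      have h3 : Even A.card := Nat.even_iff.2 (by omega)
      push_cast
      rw [h3.neg_one_pow]
      norm_num
  rw [← e]
  have e2 : gen η 1 - gen η (-1) - ((∏ h ∈ R, fac η 1 h) - ∏ h ∈ R, fac η (-1) h) =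
      (gen η 1 - ∏ h ∈ R, fac η 1 h) - (gen η (-1) - ∏ h ∈ R, fac η (-1) h) := by ring
  rw [e2]
  exact Ideal.sub_mem _ h1 h2

omit [Fintype Pt] in
/-- The monomials of a product of `|A|` polynomials of degree at most one. -/
private theorem deg_prod {K : Type} [CommRing K] (A : Finset Pt) (f : Pt → MvPolynomial Pt K)
    (hf : ∀ h ∈ A, (f h).totalDegree ≤ 1) : ∀ m ∈ (∏ h ∈ A, f h).support, m.degree ≤ A.card := by
  intro m hm
  have h1 : m.degree ≤ (∏ h ∈ A, f h).totalDegree := le_totalDegree hm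
  have h2 : (∏ h ∈ A, f h).totalDegree ≤ ∑ h ∈ A, (f h).totalDegree := totalDegree_finsetProd A f
  have h3 : ∑ h ∈ A, (f h).totalDegree ≤ ∑ _h ∈ A, 1 := Finset.sum_le_sum hf
  rw [Finset.sum_const, smul_eq_mul, mul_one] at h3
  omega

omit [Fintype Pt] in
private theorem deg_CX {K : Type} [CommRing K] (a : K) (h : Pt) :
    (C a * X h : MvPolynomial Pt K).totalDegree ≤ 1 := by
  rw [C_mul_X_eq_monomial]
  refine (totalDegree_monomial_le _ _).trans ?_
  rw [Finsupp.sum_single_index rfl]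
  exact le_refl _

omit [Fintype Pt] in
private theorem deg_sum {α : Type} {K : Type} [CommRing K] (s : Finset α)
    (f : α → MvPolynomial Pt K) (n : ℕ) (hf : ∀ a ∈ s, ∀ m ∈ (f a).support, m.degree + 1 ≤ n) :
    ∀ m ∈ (∑ a ∈ s, f a).support, m.degree + 1 ≤ n := by
  classical
  intro m hm
  have h1 := support_sum hm
  rw [Finset.mem_biUnion] at h1
  obtain ⟨a, ha, hma⟩ := h1
  exact hf a ha m hma

theorem v0_deg (b : ℕ) : ∀ m ∈ (v0 R η b).support, m.degree ≤ R.card := by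
  classical
  intro m hm
  have h1 := deg_sum (R.powerset.filter (fun A => A.card % 2 = b % 2))
    (fun A => ∏ h ∈ A, (C (η h) * X h : MvPolynomial Pt ℤ)) (R.card + 1) (by
      intro A hA m hm
      have h2 := deg_prod A (fun h => (C (η h) * X h : MvPolynomial Pt ℤ))
        (fun h _ => deg_CX _ h) m hm
      have h3 := Finset.card_le_card (Finset.mem_powerset.1 (Finset.mem_filter.1 hA).1)
      omega) m hm
  omega

theorem v0_deg' {b : ℕ} (hb : b % 2 ≠ R.card % 2) :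
    ∀ m ∈ (v0 R η b).support, m.degree + 1 ≤ R.card := by
  classical
  intro m hm
  refine deg_sum (R.powerset.filter (fun A => A.card % 2 = b % 2))
    (fun A => ∏ h ∈ A, (C (η h) * X h : MvPolynomial Pt ℤ)) R.card ?_ m hm
  intro A hA m hm
  have h2 := deg_prod A (fun h => (C (η h) * X h : MvPolynomial Pt ℤ))
    (fun h _ => deg_CX _ h) m hm
  rw [Finset.mem_filter, Finset.mem_powerset] at hA
  have h3 := Finset.card_le_card hA.1
  have h4 : A.card ≠ R.card := fun e => hb (by rw [← e, hA.2])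
  omega

theorem v0_top (hη : ∀ p, η p = 1 ∨ η p = -1) {b : ℕ} (hb : b % 2 = R.card % 2) :
    ∀ m ∈ (Phi Pt (MvPolynomial.map (Int.castRingHom (ZMod 2)) (v0 R η b)) +
      ∏ h ∈ R, X h).support, m.degree + 1 ≤ R.card := by
  classical
  have hη2 : ∀ p, ((η p : ℤ) : ZMod 2) = 1 := by
    intro p
    rcases hη p with h | h <;> rw [h]
    · norm_num
    · rw [Int.cast_neg, Int.cast_one]
      exact CharTwo.neg_eq 1
  have e1 : Phi Pt (MvPolynomial.map (Int.castRingHom (ZMod 2)) (v0 R η b)) =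
      ∑ A ∈ R.powerset.filter (fun A => A.card % 2 = b % 2), ∏ h ∈ A, (X h + 1 : Rg Pt) := by
    rw [map_v0, map_sum]
    refine Finset.sum_congr rfl fun A _ => ?_
    rw [map_prod]
    refine Finset.prod_congr rfl fun h _ => ?_
    rw [hη2, C_1, one_mul, Phi, aeval_X]
  have e2 : R ∈ R.powerset.filter (fun A => A.card % 2 = b % 2) := by
    rw [Finset.mem_filter, Finset.mem_powerset]
    exact ⟨Finset.Subset.refl _, hb.symm⟩
  have e3 : ∏ h ∈ R, (X h + 1 : Rg Pt) = (∏ h ∈ R, X h) +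
      ∑ A ∈ R.powerset.erase R, ∏ h ∈ A, (X h : Rg Pt) := by
    have e4 : ∏ h ∈ R, (X h + 1 : Rg Pt) = ∏ h ∈ R, (1 + X h) :=
      Finset.prod_congr rfl fun h _ => add_comm _ _
    rw [e4, Finset.prod_one_add]
    exact (Finset.add_sum_erase _ (fun A => ∏ h ∈ A, (X h : Rg Pt))
      (Finset.mem_powerset_self R)).symm
  have e5 : Phi Pt (MvPolynomial.map (Int.castRingHom (ZMod 2)) (v0 R η b)) + ∏ h ∈ R, X h =
      ∑ A ∈ R.powerset.erase R, ∏ h ∈ A, (X h : Rg Pt) +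
      ∑ A ∈ (R.powerset.filter (fun A => A.card % 2 = b % 2)).erase R,
        ∏ h ∈ A, (X h + 1 : Rg Pt) := by
    have e6 : (∏ h ∈ R, X h : Rg Pt) + ∏ h ∈ R, X h = 0 := CharTwo.add_self_eq_zero _
    rw [e1, ← Finset.add_sum_erase _ _ e2, e3]
    linear_combination e6
  rw [e5]
  intro m hm
  rcases Finset.mem_union.1 (support_add hm) with h1 | h1
  · refine deg_sum _ _ R.card ?_ m h1
    intro A hA m hm
    rw [Finset.mem_erase, Finset.mem_powerset] at hA
    have h2 := deg_prod A (fun h => (X h : Rg Pt)) (fun h _ => (totalDegree_X h).le) m hm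
    have h3 := Finset.card_lt_card (Finset.ssubset_iff_subset_ne.2 ⟨hA.2, hA.1⟩)
    omega
  · refine deg_sum _ _ R.card ?_ m h1
    intro A hA m hm
    rw [Finset.mem_erase, Finset.mem_filter, Finset.mem_powerset] at hA
    have h2 := deg_prod A (fun h => (X h + 1 : Rg Pt)) (fun h _ => by
      refine (totalDegree_add _ _).trans ?_
      rw [totalDegree_X, totalDegree_one]
      exact le_of_eq (by norm_num)) m hm
    have h3 := Finset.card_lt_card (Finset.ssubset_iff_subset_ne.2 ⟨hA.2.1, hA.1⟩)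
    omega

theorem gen_X (hη : ∀ p, η p = 1 ∨ η p = -1) {d : ℤ} (hd : d = 1 ∨ d = -1) (h : Pt) :
    X h * gen η d - C ((d * η h : ℤ) : ℚ) * gen η d ∈ IV ℚ V η := by
  classical
  have e : gen η d = fac η d h * ∏ p ∈ Finset.univ.erase h, fac η d p :=
    (Finset.mul_prod_erase Finset.univ (fac η d) (Finset.mem_univ h)).symm
  have e2 : X h * gen η d - C ((d * η h : ℤ) : ℚ) * gen η d =
      (∏ p ∈ Finset.univ.erase h, fac η d p) *
        (X h * fac η d h - C ((d * η h : ℤ) : ℚ) * fac η d h) := by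
    rw [e]; ring
  rw [e2]
  exact Ideal.mul_mem_left _ _ (fac_X hη hd h)

end Pool.HPS
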