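import Pool.Agent.HPS.Lv
import Pool.Agent.HPS.NF

/-!
# Module HPS-QZ: clearing denominators (imports Lv, NF; use `InD_map`, `IV_map`, `map_dL`, `map_kL`, `InD_C_mul`, `dL_mul`)

PLAN.
* `exists_lift`: a finite family of rational polynomials has a common denominator: for `w : Finset ι → MvPolynomial Pt ℚ` there are `D ≥ 1` (natural) and `w' : Finset ι → MvPolynomial Pt ℤ` with
  `map (w' r) = C D * w r` for all `r ⊆ S` (finite: `S.powerset`; product of the denominators of all coefficients).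
* `clear`: `H` for `w`, `a ≠ 0`.  Choose `D` for `w` and `a` (`D * a = b ∈ ℤ`, `b ≠ 0`); multiply the hypothesis by `C D` (`InD_C_mul`, `dL_mul`): `InD ℚ .. (δ b v0 + dL ℚ (map w') r)`
  which is `map (δ b v0 + dL ℤ w' r)` (`map_dL`); `InD_map` gives `InD ℤ`.  If `b < 0` multiply by `-1`.  `dL` only uses `w` at subsets `r.erase c` of `S`
  (`dL_congr`).
* `face_ZQ`: `FaceK ℚ → FaceK ℤ` by `map_kL` and `IV_map`.
-/

set_option autoImplicit false

open Finset MvPolynomial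

namespace Pool.HPS

variable {Pt ι : Type} [DecidableEq ι] [Finite Pt] {W : Setoid Pt} {x : ι → Fin 4 → Pt}
  {S : Finset ι} {ε : Finset ι → Pt → ℤ} {σ : Finset ι → ι → ℤ}

omit [Finite Pt] in
private theorem qz_one (f : MvPolynomial Pt ℚ) : ∃ N : ℕ, 1 ≤ N ∧ ∃ g : MvPolynomial Pt ℤ,
    MvPolynomial.map (Int.castRingHom ℚ) g = C (N : ℚ) * f := by
  induction f using MvPolynomial.induction_on with
  | C a =>
    refine ⟨a.den, a.den_pos, C a.num, ?_⟩
    rw [MvPolynomial.map_C, ← C_mul]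
    congr 1
    rw [mul_comm, Rat.mul_den_eq_num]
    rfl
  | add p q hp hq =>
    obtain ⟨N, hN, g, hg⟩ := hp
    obtain ⟨N', hN', g', hg'⟩ := hq
    refine ⟨N * N', Nat.mul_pos hN hN', C (N' : ℤ) * g + C (N : ℤ) * g', ?_⟩
    rw [map_add, map_mul, map_mul, MvPolynomial.map_C, MvPolynomial.map_C, hg, hg']
    simp only [eq_intCast, Int.cast_natCast, Nat.cast_mul, C_mul]
    ring
  | mul_X p i hp =>
    obtain ⟨N, hN, g, hg⟩ := hp
    refine ⟨N, hN, g * X i, ?_⟩
    rw [map_mul, MvPolynomial.map_X, hg, mul_assoc]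

omit [DecidableEq ι] [Finite Pt] in
private theorem qz_fam (w : Finset ι → MvPolynomial Pt ℚ) (T : Finset (Finset ι)) :
    ∃ N : ℕ, 1 ≤ N ∧ ∃ w' : Finset ι → MvPolynomial Pt ℤ, ∀ r ∈ T,
      MvPolynomial.map (Int.castRingHom ℚ) (w' r) = C (N : ℚ) * w r := by
  classical
  choose N hN g hg using fun r => qz_one (w r)
  refine ⟨∏ r ∈ T, N r, Nat.one_le_iff_ne_zero.2 (Finset.prod_ne_zero_iff.2 fun r _ =>
    Nat.one_le_iff_ne_zero.1 (hN r)), fun r => C ((∏ s ∈ T.erase r, N s : ℕ) : ℤ) * g r,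
    fun r hr => ?_⟩
  rw [map_mul, MvPolynomial.map_C, hg, ← Finset.mul_prod_erase T N hr]
  simp only [eq_intCast, Int.cast_natCast, Nat.cast_mul, C_mul]
  ring

theorem clear (hε : ∀ r p, ε r p = 1 ∨ ε r p = -1) {r0 : Finset ι} {k : ℕ}
    {B : Finset ι → ℤ} {v0 : MvPolynomial Pt ℤ} {a : ℚ} (ha : a ≠ 0)
    {w : Finset ι → MvPolynomial Pt ℚ}
    (H : ∀ r, r ⊆ S → r.card = k → InD ℚ (U W x S r) (ε r) (B r)
      ((if r = r0 then C a * MvPolynomial.map (Int.castRingHom ℚ) v0 else 0) +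
        dL ℚ W x S σ w r)) :
    ∃ N : ℕ, 1 ≤ N ∧ ∃ w' : Finset ι → MvPolynomial Pt ℤ, ∀ r, r ⊆ S → r.card = k →
      InD ℤ (U W x S r) (ε r) (B r)
        ((if r = r0 then C (N : ℤ) * v0 else 0) + dL ℤ W x S σ w' r) := by
  obtain ⟨D, hD, w1, hw1⟩ := qz_fam w S.powerset
  have hden : a.den ≠ 0 := a.den_ne_zero
  have hnum : a.num ≠ 0 := Rat.num_ne_zero.2 ha
  set b : ℤ := D * a.num with hb
  have hb0 : b ≠ 0 := mul_ne_zero (by exact_mod_cast Nat.one_le_iff_ne_zero.1 hD) hnum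
  obtain ⟨s, hs⟩ : ∃ s : ℤ, s * b = (b.natAbs : ℤ) := by
    rcases Int.natAbs_eq b with h | h
    · exact ⟨1, by rw [one_mul]; exact h⟩
    · exact ⟨-1, by rw [neg_one_mul]; omega⟩
  refine ⟨b.natAbs, Nat.one_le_iff_ne_zero.2 (Int.natAbs_ne_zero.2 hb0),
    fun r => C (s * a.den) * w1 r, fun r hr hk => ?_⟩
  apply InD_map (hε r)
  have h1 := InD_C_mul (((s * a.den : ℤ) : ℚ) * (D : ℚ)) (H r hr hk)
  have e1 : MvPolynomial.map (Int.castRingHom ℚ)
      ((if r = r0 then C ((b.natAbs : ℕ) : ℤ) * v0 else 0) +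
        dL ℤ W x S σ (fun r => C (s * a.den) * w1 r) r) =
      C (((s * a.den : ℤ) : ℚ) * (D : ℚ)) *
        ((if r = r0 then C a * MvPolynomial.map (Int.castRingHom ℚ) v0 else 0) +
          dL ℚ W x S σ w r) := by
    rw [map_add, map_dL, mul_add, ← dL_mul]
    congr 1
    · by_cases h2 : r = r0
      · rw [if_pos h2, if_pos h2, map_mul, MvPolynomial.map_C, ← mul_assoc, ← C_mul]
        congr 2
        rw [← hs, hb]
        have h3 : (a.den : ℚ) * a = a.num := by rw [mul_comm, Rat.mul_den_eq_num]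
        simp only [eq_intCast, Int.cast_mul, Int.cast_natCast]
        rw [← h3]
        ring
      · rw [if_neg h2, if_neg h2, map_zero, mul_zero]
    · refine dL_congr _ fun c _ => ?_
      rw [map_mul, MvPolynomial.map_C, hw1 _ (Finset.mem_powerset.2
        ((Finset.erase_subset c r).trans hr)), ← mul_assoc, ← C_mul]
      rfl
  rw [e1]
  exact h1

theorem face_ZQ (hε : ∀ r p, ε r p = 1 ∨ ε r p = -1) (h : FaceK ℚ W x S ε σ) :
    FaceK ℤ W x S ε σ := by
  intro r hr c hc c' hc' h1 h2 h3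
  apply IV_map (hε _)
  have h4 := h r hr c hc c' hc' h1 h2 h3
  simp only [map_add, map_mul, MvPolynomial.map_C, map_kL]
  simpa using h4

end Pool.HPS
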