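import Pool.Agent.HPS.Desc
import Pool.Agent.HPS.QZ
import Pool.Agent.HPS.Conc
import Pool.Agent.HPS.CircO
import Pool.Agent.HPS.Gen
import Pool.Agent.HPS.Eps

/-!
# Module HPS-Fin: the s-invariant of `H_p` (assembly)
-/

set_option autoImplicit false

open Finset MvPolynomial

namespace Pool.HPS

variable (q : ℕ)

theorem circ_rO : circ (wires q) (hx q) (cr q) (rO q) = q + 1 := by
  have h := card_ror (p := q + 1) (by omega) (cyc_con q) (legit_con q)
  rw [card_wires] at h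
  have h2 : 2 * ((q + 1) * (2 * (q + 1) - 1)) = (2 * q + 2) * (2 * q + 1) := by
    rw [show 2 * (q + 1) - 1 = 2 * q + 1 by omega]; ring
  rw [h2] at h
  exact Nat.add_right_cancel h

theorem card_rO : (rO q).card = (q + 1) ^ 2 := card_ro (q + 1)

theorem rO_sub : rO q ⊆ cr q := Finset.filter_subset _ _

theorem qlev_rO (d : ℕ) : qlev q (rO q) d = -2 * d := by
  rw [qlev, circ_rO, card_rO]
  push_cast
  ring

/-- A consistent system of signs that is `eo` at the oriented resolution. -/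
theorem exists_eps : ∃ ε : Finset (ℕ × ℕ) → HE q → ℤ, (∀ r, Cons q r (ε r)) ∧ ε (rO q) = eo q := by
  classical
  choose ε hε using exists_cons q
  refine ⟨fun r => if r = rO q then eo q else ε r, fun r => ?_, by simp⟩
  by_cases h : r = rO q
  · subst h; simpa using cons_eo q
  · simpa [h] using hε r

theorem InF_iff {K : Type} [CommRing K] {r : Finset (ℕ × ℕ)} {η : HE q → ℤ} (h : Cons q r η)
    (j : ℤ) (f : MvPolynomial (HE q) K) :
    InF K q r j f ↔ InD K (U (wires q) (hx q) (cr q) r) η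
      ((circ (wires q) (hx q) (cr q) r : ℤ) + r.card + (q + 1) * q - 2 * (q + 1) ^ 2 - j) f := by
  unfold InF InD qlev
  rw [IL_eq K q r h]
  constructor
  · rintro ⟨g, hg, h2⟩
    exact ⟨g, hg, fun m hm => by have := h2 m hm; linarith⟩
  · rintro ⟨g, hg, h2⟩
    exact ⟨g, hg, fun m hm => by have := h2 m hm; linarith⟩

theorem exists_transversal {Pt : Type} [Fintype Pt] (V : Setoid Pt) :
    ∃ R : Finset Pt, (∀ p, ∃ a ∈ R, V p a) ∧ (∀ a ∈ R, ∀ b ∈ R, V a b → a = b) ∧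
      R.card = Nat.card (Quotient V) := by
  classical
  haveI : Fintype (Quotient V) := Fintype.ofFinite _
  refine ⟨Finset.univ.image (fun k : Quotient V => k.out), ?_, ?_, ?_⟩
  · intro p
    refine ⟨(Quotient.mk V p).out, Finset.mem_image_of_mem _ (Finset.mem_univ _), ?_⟩
    exact V.symm (Quotient.mk_out p)
  · intro a ha b hb hab
    simp only [Finset.mem_image, Finset.mem_univ, true_and] at ha hb
    obtain ⟨k, rfl⟩ := ha
    obtain ⟨l, rfl⟩ := hb
    have : k = l := by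
      rw [← Quotient.out_eq k, ← Quotient.out_eq l]
      exact Quotient.sound hab
    rw [this]
  · rw [Finset.card_image_of_injective _ Quotient.out_injective, Finset.card_univ,
      Nat.card_eq_fintype_card]

/-- The key upper bound. -/
theorem no_high {σ : Finset (ℕ × ℕ) → ℕ × ℕ → ℤ} (hσ : IsSign q σ) {R : Finset (HE q)}
    (hR2 : ∀ a ∈ R, ∀ b ∈ R, U (wires q) (hx q) (cr q) (rO q) a b → a = b)
    (hR : R.card = q + 1) {b : ℕ} (hb : b % 2 = (q + 1) % 2) {a : ℚ} (ha : a ≠ 0)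
    (w : Finset (ℕ × ℕ) → MvPolynomial (HE q) ℚ) :
    ¬ ∀ r, r ⊆ cr q → r.card = (q + 1) ^ 2 → InF ℚ q r (-2 * (q + 1) + 1)
      ((if r = rO q then C a * MvPolynomial.map (Int.castRingHom ℚ) (v0 R (eo q) b) else 0) +
        dL ℚ (wires q) (hx q) (cr q) σ w r) := by
  intro H
  obtain ⟨ε, hε, hεO⟩ := exists_eps q
  have hpm : ∀ r p, ε r p = 1 ∨ ε r p = -1 := fun r p => (hε r).pm p
  have hS := Sgn_of_cons q ε hε
  have hL := legit_con q
  -- clear denominators
  obtain ⟨N, hN, w', hw'⟩ := clear (S := cr q) (W := wires q) (x := hx q) (σ := σ) (w := w)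
    (B := fun r => (circ (wires q) (hx q) (cr q) r : ℤ) + r.card - ((q + 1) * q : ℤ) - 1)
    hpm (k := (q + 1) ^ 2) (r0 := rO q) (v0 := v0 R (eo q) b) ha (by
      intro r hr hk
      have := (InF_iff q (hε r) _ _).1 (H r hr hk)
      refine InD_mono (le_of_eq ?_) this
      ring)
  -- faces
  have hF : FaceK ℤ (wires q) (hx q) (cr q) ε σ := by
    apply face_ZQ hpm
    intro r hr c hc c' hc' h1 h2 h3
    have := hσ.face r hr c hc c' hc' h1 h2 h3
    rw [IL_eq ℚ q _ (hε _)] at this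
    exact this
  have hp1 : 1 ≤ q + 1 := by omega
  have hsq : (q + 1) ^ 2 = ((q + 1) ^ 2 - 1) + 1 := by
    have : 1 ≤ (q + 1) ^ 2 := Nat.one_le_pow _ _ (by omega)
    omega
  have hEx := Ex_main hp1 (cyc_con q) (legit_con q)
  have hfl : fl (2 * (q + 1)) = cr q := rfl
  set e := Nat.card (Quotient (wires q)) with hedef
  have hce : circ (wires q) (hx q) (cr q) (rO q) = q + 1 := circ_rO q
  -- not a boundary
  have hnb : ¬ Bd (par e) (wires q) (hx q) (cr q) (rO q) (∏ h ∈ R, X h) := by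
    intro hB
    have h1 := NB_all hp1 (HE q) (wires q) (he q) (cyc_con q) (legit_con q) _ hB
    rw [J_of] at h1
    · exact prod_not_mem R hR2 h1
    · change Even (circ (wires q) (hx q) (cr q) (rO q) + (q + 1) ^ 2 + Nat.card (Quotient (wires q)))
      rw [hce, card_wires]
      have : q + 1 + (q + 1) ^ 2 + (2 * q + 2) * (2 * q + 1) = (q + 1) * (q + 2) +
        2 * ((q + 1) * (2 * q + 1)) := by ring
      rw [this]
      exact (Nat.even_mul_succ_self (q + 1)).add (even_two_mul _)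
  have hLe : Even (((q + 1) * q : ℤ) - e) := by
    rw [hedef, card_wires]
    have h1 : Even ((q + 1) * q : ℤ) := by
      have := Int.even_mul_succ_self (q : ℤ)
      rwa [mul_comm] at this
    have h2 : Even (((2 * q + 2) * (2 * q + 1) : ℕ) : ℤ) := by
      push_cast
      exact ⟨(q + 1) * (2 * q + 1), by ring⟩
    exact h1.sub h2
  refine descent (L := (q + 1) * q) (e := e) (d0 := q + 1) (h := (q + 1) ^ 2 - 1)
    (t := ∏ h ∈ R, X h) hL hS hσ.pm hF (rO_sub q) (by rw [card_rO]; exact hsq) hLe hEx ?_ ?_ hnb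
    (v0 R (eo q) b) ?_ N hN w' ?_
  · have : (∏ h ∈ R, X h : Rg (HE q)).IsHomogeneous (∑ _h ∈ R, 1) :=
      MvPolynomial.IsHomogeneous.prod _ _ _ (fun i _ => isHomogeneous_X _ _)
    rwa [Finset.sum_const, smul_eq_mul, mul_one, hR] at this
  · rw [hce, card_rO]; push_cast; ring
  · intro m hm
    have h1 := v0_top (η := eo q) (R := R) (cons_eo q).pm (b := b) (by rw [hR]; exact hb) m hm
    rw [hce, card_rO]
    rw [hR] at h1
    push_cast
    have : (m.degree : ℤ) ≤ q := by exact_mod_cast (by omega : m.degree ≤ q)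
    nlinarith
  · intro r hr hk
    exact hw' r hr (by rw [hk]; exact hsq.symm)

/-! ## The Lee generators -/

theorem sO_rO (d : ℤ) : sO q d (rO q) = gen (eo q) d := by
  rw [sO, if_pos rfl, gen]

theorem sO_ne (d : ℤ) {r : Finset (ℕ × ℕ)} (h : r ≠ rO q) : sO q d r = 0 := by
  rw [sO, if_neg h]

theorem dL_zero (σ : Finset (ℕ × ℕ) → ℕ × ℕ → ℤ) (r : Finset (ℕ × ℕ)) :
    dL ℚ (wires q) (hx q) (cr q) σ (fun _ => 0) r = 0 := by
  simp [dL]

/-- Transversal of the circles of the oriented resolution. -/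
theorem exists_R : ∃ R : Finset (HE q),
    (∀ p, ∃ a ∈ R, U (wires q) (hx q) (cr q) (rO q) p a) ∧
    (∀ a ∈ R, ∀ b ∈ R, U (wires q) (hx q) (cr q) (rO q) a b → a = b) ∧ R.card = q + 1 := by
  obtain ⟨R, h1, h2, h3⟩ := exists_transversal (U (wires q) (hx q) (cr q) (rO q))
  exact ⟨R, h1, h2, by rw [h3]; exact circ_rO q⟩

theorem HasRep_mono {σ : Finset (ℕ × ℕ) → ℕ × ℕ → ℤ}
    {z : Finset (ℕ × ℕ) → MvPolynomial (HE q) ℚ} {j j' : ℤ} (h : j' ≤ j)
    (H : HasRep q σ z j) : HasRep q σ z j' := by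
  obtain ⟨w, hw⟩ := H
  refine ⟨w, fun r hr hk => ?_⟩
  obtain ⟨g, hg, h2⟩ := hw r hr hk
  exact ⟨g, hg, fun m hm => h.trans (h2 m hm)⟩

/-- A cochain `z` concentrated at the oriented resolution and congruent there to
`a * v0 R eo b`. -/
def Rep (R : Finset (HE q)) (b : ℕ) (a : ℚ) (z : Finset (ℕ × ℕ) → MvPolynomial (HE q) ℚ) : Prop :=
  (∀ r, r ≠ rO q → z r = 0) ∧
    z (rO q) - C a * MvPolynomial.map (Int.castRingHom ℚ) (v0 R (eo q) b) ∈ IL ℚ q (rO q)

theorem supp_map {Pt : Type} (f : MvPolynomial Pt ℤ) (a : ℚ) :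
    (C a * MvPolynomial.map (Int.castRingHom ℚ) f).support ⊆ f.support := by
  intro m hm
  rw [MvPolynomial.mem_support_iff, MvPolynomial.coeff_C_mul, MvPolynomial.coeff_map] at hm
  rw [MvPolynomial.mem_support_iff]
  intro h
  apply hm
  rw [h]; simp

/-- Lower bounds. -/
theorem low_bound {σ : Finset (ℕ × ℕ) → ℕ × ℕ → ℤ} {R : Finset (HE q)} (hR : R.card = q + 1)
    {b : ℕ} {a : ℚ} {z : Finset (ℕ × ℕ) → MvPolynomial (HE q) ℚ} (hz : Rep q R b a z) :
    HasRep q σ z (if b % 2 = (q + 1) % 2 then -2 * (q + 1) else -2 * q) := by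
  refine ⟨fun _ => 0, fun r hr hk => ?_⟩
  rw [dL_zero, add_zero]
  by_cases h : r = rO q
  · subst h
    refine ⟨_, hz.2, fun m hm => ?_⟩
    have hm' := supp_map _ _ hm
    rw [qlev_rO]
    split_ifs with hb
    · have := v0_deg b m hm'
      rw [hR] at this
      have : (m.degree : ℤ) ≤ q + 1 := by exact_mod_cast this
      linarith
    · have := v0_deg' (R := R) (η := eo q) (b := b) (by rw [hR]; exact hb) m hm'
      rw [hR] at this
      have : (m.degree : ℤ) ≤ q := by exact_mod_cast (by omega : m.degree ≤ q)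
      linarith
  · rw [hz.1 r h]
    exact ⟨0, by simp, fun m hm => by simp at hm⟩

/-- Upper bound for the combination that contains the top monomial. -/
theorem up_top {σ : Finset (ℕ × ℕ) → ℕ × ℕ → ℤ} (hσ : IsSign q σ) {R : Finset (HE q)}
    (hR2 : ∀ a ∈ R, ∀ b ∈ R, U (wires q) (hx q) (cr q) (rO q) a b → a = b)
    (hR : R.card = q + 1) {b : ℕ} (hb : b % 2 = (q + 1) % 2) {a : ℚ} (ha : a ≠ 0)
    {z : Finset (ℕ × ℕ) → MvPolynomial (HE q) ℚ} (hz : Rep q R b a z) {j : ℤ}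
    (H : HasRep q σ z j) : j ≤ -2 * (q + 1) := by
  by_contra hj
  push Not at hj
  obtain ⟨w, hw⟩ := HasRep_mono q (j' := -2 * (q + 1) + 1) (by linarith) H
  refine no_high q hσ hR2 hR hb ha w (fun r hr hk => ?_)
  obtain ⟨g, hg, h2⟩ := hw r hr hk
  refine ⟨g, ?_, h2⟩
  by_cases h : r = rO q
  · subst h
    rw [if_pos rfl]
    have := (IL ℚ q (rO q)).sub_mem hg hz.2
    convert this using 1
    ring
  · rw [if_neg h]
    rw [hz.1 r h] at hg
    exact hg

/-- Upper bound for the other combination. -/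
theorem up_oth {σ : Finset (ℕ × ℕ) → ℕ × ℕ → ℤ}
    {z z' : Finset (ℕ × ℕ) → MvPolynomial (HE q) ℚ} (h : HE q)
    (hz : ∀ r, X h * z r - z' r ∈ IL ℚ q r) {j : ℤ} (H : HasRep q σ z j) :
    HasRep q σ z' (j - 2) := by
  obtain ⟨w, hw⟩ := H
  refine ⟨fun s => X h * w s, fun r hr hk => ?_⟩
  rw [dL_mul]
  obtain ⟨ε, hε, -⟩ := exists_eps q
  have h1 := (InF_iff q (hε r) _ _).1 (hw r hr hk)
  have h2 := InD_X_mul h h1
  rw [InF_iff q (hε r)]
  refine InD_congr (g := X h * (z r + dL ℚ (wires q) (hx q) (cr q) σ w r)) ?_ ?_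
  · rw [← IL_eq ℚ q r (hε r)]
    have := (IL ℚ q r).neg_mem (hz r)
    convert this using 1
    ring
  · refine InD_mono (le_of_eq ?_) h2
    ring

theorem Rep_add {R : Finset (HE q)}
    (hR1 : ∀ p, ∃ a ∈ R, U (wires q) (hx q) (cr q) (rO q) p a)
    (hR2 : ∀ a ∈ R, ∀ b ∈ R, U (wires q) (hx q) (cr q) (rO q) a b → a = b) :
    Rep q R 0 (2 / 2 ^ R.card) (fun r => sO q 1 r + sO q (-1) r) := by
  refine ⟨fun r hr => by simp [sO_ne q _ hr], ?_⟩
  simp only [sO_rO]
  rw [IL_eq ℚ q _ (cons_eo q)]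
  exact gen_add (cons_eo q).pm hR1 hR2

theorem Rep_sub {R : Finset (HE q)}
    (hR1 : ∀ p, ∃ a ∈ R, U (wires q) (hx q) (cr q) (rO q) p a)
    (hR2 : ∀ a ∈ R, ∀ b ∈ R, U (wires q) (hx q) (cr q) (rO q) a b → a = b) :
    Rep q R 1 (2 / 2 ^ R.card) (fun r => sO q 1 r - sO q (-1) r) := by
  refine ⟨fun r hr => by simp [sO_ne q _ hr], ?_⟩
  simp only [sO_rO]
  rw [IL_eq ℚ q _ (cons_eo q)]
  exact gen_sub (cons_eo q).pm hR1 hR2

/-- Multiplication by a dot exchanges the two combinations. -/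
theorem dot_swap (h : HE q) (r : Finset (ℕ × ℕ)) :
    (X h * (sO q 1 r + sO q (-1) r) - C (eo q h : ℚ) * (sO q 1 r - sO q (-1) r) ∈ IL ℚ q r) ∧
    (X h * (sO q 1 r - sO q (-1) r) - C (eo q h : ℚ) * (sO q 1 r + sO q (-1) r) ∈ IL ℚ q r) := by
  by_cases hr : r = rO q
  · subst hr
    simp only [sO_rO]
    rw [IL_eq ℚ q _ (cons_eo q)]
    have h1 := gen_X (V := U (wires q) (hx q) (cr q) (rO q)) (cons_eo q).pm (d := 1) (by simp) h
    have h2 := gen_X (V := U (wires q) (hx q) (cr q) (rO q)) (cons_eo q).pm (d := -1) (by simp) h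
    constructor
    · have := (IV ℚ (U (wires q) (hx q) (cr q) (rO q)) (eo q)).add_mem h1 h2
      convert this using 1
      push_cast
      simp only [map_mul, map_neg, map_one, one_mul, neg_mul]
      ring
    · have := (IV ℚ (U (wires q) (hx q) (cr q) (rO q)) (eo q)).sub_mem h1 h2
      convert this using 1
      push_cast
      simp only [map_mul, map_neg, map_one, one_mul, neg_mul]
      ring
  · simp [sO_ne q _ hr]

/-- Scaling a representative. -/
theorem Rep_C {R : Finset (HE q)} {b : ℕ} {a : ℚ} {z : Finset (ℕ × ℕ) → MvPolynomial (HE q) ℚ}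
    (hz : Rep q R b a z) (k : ℚ) : Rep q R b (k * a) (fun r => C k * z r) := by
  refine ⟨fun r hr => by simp only [hz.1 r hr, mul_zero], ?_⟩
  have := (IL ℚ q (rO q)).mul_mem_left (C k) hz.2
  convert this using 1
  rw [map_mul]
  ring

theorem greatest {σ : Finset (ℕ × ℕ) → ℕ × ℕ → ℤ} (hσ : IsSign q σ) {R : Finset (HE q)}
    (hR2 : ∀ a ∈ R, ∀ b ∈ R, U (wires q) (hx q) (cr q) (rO q) a b → a = b)
    (hR : R.card = q + 1) {b b' : ℕ} (hb : b % 2 = (q + 1) % 2) (hb' : b' % 2 ≠ (q + 1) % 2)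
    {a a' : ℚ} (ha : a ≠ 0) {z z' : Finset (ℕ × ℕ) → MvPolynomial (HE q) ℚ}
    (hz : Rep q R b a z) (hz' : Rep q R b' a' z') (h : HE q)
    (hs : ∀ r, X h * z' r - C (eo q h : ℚ) * z r ∈ IL ℚ q r) :
    IsGreatest {j : ℤ | HasRep q σ z j} (-2 * (q + 1)) ∧
      IsGreatest {j : ℤ | HasRep q σ z' j} (-2 * q) := by
  refine ⟨⟨?_, fun j hj => up_top q hσ hR2 hR hb ha hz hj⟩, ⟨?_, fun j hj => ?_⟩⟩
  · have := low_bound q (σ := σ) hR hz
    rwa [if_pos hb] at this
  · have := low_bound q (σ := σ) hR hz'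
    rwa [if_neg hb'] at this
  · have h1 := up_oth q h hs hj
    have he : ((eo q h : ℤ) : ℚ) * a ≠ 0 := by
      apply mul_ne_zero _ ha
      rcases (cons_eo q).pm h with h2 | h2 <;> rw [h2] <;> norm_num
    have h2 := up_top q hσ hR2 hR hb he (Rep_C q hz ((eo q h : ℤ) : ℚ)) h1
    linarith

/-- **The quantum filtration degrees of the Lee classes of `H_p`**, `p = q + 1`. -/
theorem main {σ : Finset (ℕ × ℕ) → ℕ × ℕ → ℤ} (hσ : IsSign q σ) :
    IsGreatest {j : ℤ | HasRep q σ (fun r => sO q 1 r + sO q (-1) r) j}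
      (if Even (q + 1) then -2 * (q + 1) else -2 * q) ∧
    IsGreatest {j : ℤ | HasRep q σ (fun r => sO q 1 r - sO q (-1) r) j}
      (if Even (q + 1) then -2 * q else -2 * (q + 1)) := by
  obtain ⟨R, hR1, hR2, hR⟩ := exists_R q
  have ha : (2 / 2 ^ R.card : ℚ) ≠ 0 := by positivity
  have h0 : HE q := (0, 0, false)
  by_cases he : Even (q + 1)
  · rw [if_pos he, if_pos he]
    have h1 : (q + 1) % 2 = 0 := Nat.even_iff.1 he
    exact greatest q hσ hR2 hR (b := 0) (b' := 1) (by omega) (by omega) ha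
      (Rep_add q hR1 hR2) (Rep_sub q hR1 hR2) h0 (fun r => (dot_swap q h0 r).2)
  · rw [if_neg he, if_neg he]
    have h1 : (q + 1) % 2 = 1 := Nat.not_even_iff.1 he
    have := greatest q hσ hR2 hR (b := 1) (b' := 0) (by omega) (by omega) ha
      (Rep_sub q hR1 hR2) (Rep_add q hR1 hR2) h0 (fun r => (dot_swap q h0 r).1)
    exact ⟨this.2, this.1⟩

/-- **The s-invariant of `H_p`** is `1 - 2p`, `p = q + 1`. -/
theorem sInv_eq {σ : Finset (ℕ × ℕ) → ℕ × ℕ → ℤ} (hσ : IsSign q σ) :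
    sInv q σ = 1 - 2 * ((q : ℚ) + 1) := by
  obtain ⟨h1, h2⟩ := main q hσ
  rw [sInv, qdeg, qdeg, h1.csSup_eq, h2.csSup_eq]
  by_cases he : Even (q + 1)
  · rw [if_pos he, if_pos he]; push_cast; ring
  · rw [if_neg he, if_neg he]; push_cast; ring

end Pool.HPS
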