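import Pool.Agent.HPS.DefsD
import Pool.Agent.HPS.Sad

/-!
# Module HPS-Grad: using the quantum grading over `F_2` (imports Sad, Leg; use `sad_U`, `card_join`, `legit_one`)

Write `c r = circ W x S r = Nat.card (Quotient (U W x S r))`, and the level of a monomial of degree `d` at the state `r` is `c r + |r| - 2 d`.

PLAN.
* `I V` is homogeneous: for `f ∈ I V`, every homogeneous component of `f` is in `I V` (generators are homogeneous; `Submodule.span_induction` with
  `MvPolynomial.homogeneousComponent`, or: the set of `f` all of whose components are in `I V` is an ideal: for a product of a monomial and `f` components shift).  Hence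
  `lowp (P : ℕ → Prop) f := ∑ d ∈ range (f.totalDegree + 1) with P d, homogeneousComponent d f` (or `Finsupp.filter` on the degree) maps `I V` to itself; it is additive, and
  `lowp P (κ f) = κ * lowp (P ∘ (· + δ)) f` for `κ` homogeneous of degree `δ`.
* `κ = kap (U .. (r.erase c)) (x c)`: by `sad_U` (`legit_one`, `U_last0`, `U_last1`, `card_join`): merge: `κ = 1`, `c r + 1 = c (r.erase c)`; split: `κ = X_a + X_b`,
  `c r = c (r.erase c) + 1`; neutral: `κ ∈ I (U r)` and `c r = c (r.erase c)`.  With `|r| = |r.erase c| + 1` a non-neutral saddle preserves levels: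
  (merge, `δ = 0`) and (split, `δ = 1`).
* `grA`: let `g' s := ` the homogeneous component of `g s` of degree `d` with `c s + |s| - 2 d = L` (0 if there is no such `d`).  At `r` with `par e` (`|r| = |r0|`): `c r + |r| ≡ e ≡ L`
  mod 2; take the component of degree `D`, `c r + |r| - 2 D = L`, of `H` (if `D` would be negative every component involved is 0): `u` contributes nothing
  (`2 deg m ≤ c r + |r| - L - 1 < 2 D`), `t` contributes `t` at `r = r0` (`D = d0`), and `κ g(r.erase c)` contributes `κ g'(r.erase c)` modulo `I (U r)`.  At `r` without `par e` the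
  ideal is `⊤`.
* `grB`: `f s := ` the part of `g s` of degrees `d` with `c s + |s| - 2 d ≤ L`.  Taking the part of levels `≤ L` of `H` shows that `f` is a cocycle (at `r` with `par e`; otherwise
  `⊤`; the terms from states without `par e` vanish as `g = 0` there, `hg`).  `hEx` gives `g1`; put `g̃ s := if par e (U s) (h-1) then g1 s else 0`.  For `s` with `par e`: `f s + bd g̃ s ∈ I (U s)` (terms
  from states without `par e` are in `I` anyway: neutral saddles), `u := f s + g s` (the part of levels `> L`).  For `s` without `par e`: `g s = 0` and `bd g̃ s ∈ I (U s)`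
  (neutral saddles), `u = 0`.
-/

set_option autoImplicit false

open Finset MvPolynomial

namespace Pool.HPS

section Cut

variable {Pt : Type}

private theorem self_add' (f : Rg Pt) : f + f = 0 := CharTwo.add_self_eq_zero f

open Classical in
/-- the part of `f` in the degrees satisfying `P` -/
private noncomputable def cut (P : ℕ → Prop) (f : Rg Pt) : Rg Pt :=
  ∑ m ∈ f.support.filter (fun m => P m.degree), monomial m (f.coeff m)

open Classical in
private theorem coeff_cut (P : ℕ → Prop) (f : Rg Pt) (m : Pt →₀ ℕ) :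
    coeff m (cut P f) = if P m.degree then coeff m f else 0 := by
  rw [cut, coeff_sum]
  simp only [coeff_monomial]
  rw [Finset.sum_ite_eq']
  by_cases h : P m.degree
  · rw [if_pos h]
    by_cases h0 : coeff m f = 0
    · rw [h0]; split_ifs <;> rfl
    · rw [if_pos (Finset.mem_filter.2 ⟨mem_support_iff.2 h0, h⟩)]
  · rw [if_neg h, if_neg]
    intro h1
    exact h (Finset.mem_filter.1 h1).2

private theorem cut_add (P : ℕ → Prop) (f g : Rg Pt) : cut P (f + g) = cut P f + cut P g := by
  classical
  ext m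
  rw [coeff_add, coeff_cut, coeff_cut, coeff_cut, coeff_add]
  split_ifs
  · rfl
  · rw [add_zero]

private theorem cut_zero (P : ℕ → Prop) : cut P (0 : Rg Pt) = 0 := by
  classical
  ext m
  rw [coeff_cut, coeff_zero, ite_self]

private theorem cut_sum {κ : Type} (P : ℕ → Prop) (s : Finset κ) (f : κ → Rg Pt) :
    cut P (∑ i ∈ s, f i) = ∑ i ∈ s, cut P (f i) := by
  classical
  induction s using Finset.induction_on with
  | empty => rw [Finset.sum_empty, Finset.sum_empty, cut_zero]
  | insert a s ha ih => rw [Finset.sum_insert ha, Finset.sum_insert ha, cut_add, ih]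

private theorem cut_hom {P : ℕ → Prop} {f : Rg Pt} {δ : ℕ} (hf : ∀ m, coeff m f ≠ 0 → m.degree = δ)
    (hP : P δ) : cut P f = f := by
  classical
  ext m
  rw [coeff_cut]
  by_cases h0 : coeff m f = 0
  · rw [h0, ite_self]
  · rw [hf m h0, if_pos hP]

private theorem cut_hom' {P : ℕ → Prop} {f : Rg Pt} (hf : ∀ m, coeff m f ≠ 0 → ¬ P m.degree) :
    cut P f = 0 := by
  classical
  ext m
  rw [coeff_cut, coeff_zero]
  by_cases h0 : coeff m f = 0
  · rw [h0, ite_self]
  · rw [if_neg (hf m h0)]

private theorem cut_mul {P : ℕ → Prop} {κ : Rg Pt} {δ : ℕ}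
    (hκ : ∀ m, coeff m κ ≠ 0 → m.degree = δ) (f : Rg Pt) :
    cut P (κ * f) = κ * cut (fun d => P (d + δ)) f := by
  classical
  ext m
  rw [coeff_cut, coeff_mul, coeff_mul]
  have key : ∀ y ∈ Finset.HasAntidiagonal.antidiagonal m,
      coeff y.1 κ * coeff y.2 (cut (fun d => P (d + δ)) f) =
      if P m.degree then coeff y.1 κ * coeff y.2 f else 0 := by
    intro y hy
    rw [Finset.HasAntidiagonal.mem_antidiagonal] at hy
    by_cases h0 : coeff y.1 κ = 0
    · rw [h0, zero_mul, zero_mul, ite_self]
    · have h1 := hκ _ h0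
      have h2 : m.degree = y.2.degree + δ := by
        rw [← hy, map_add, h1, add_comm]
      rw [coeff_cut, h2]
      by_cases h3 : P (y.2.degree + δ)
      · rw [if_pos h3, if_pos h3]
      · rw [if_neg h3, if_neg h3, mul_zero]
  rw [Finset.sum_congr rfl key]
  by_cases h : P m.degree
  · simp only [if_pos h]
  · simp only [if_neg h, Finset.sum_const_zero]

private theorem hom_C (a : ZMod 2) : ∀ m, coeff m (C a : Rg Pt) ≠ 0 → m.degree = 0 := by
  classical
  intro m hm
  rw [coeff_C] at hm
  by_cases h : 0 = m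
  · rw [← h, map_zero]
  · rw [if_neg h] at hm; exact absurd rfl hm

private theorem hom_X (p : Pt) : ∀ m, coeff m (X p : Rg Pt) ≠ 0 → m.degree = 1 := by
  classical
  intro m hm
  rw [coeff_X] at hm
  by_cases h : Finsupp.single p 1 = m
  · rw [← h, Finsupp.degree_single]
  · rw [if_neg h] at hm; exact absurd rfl hm

private theorem hom_add {f g : Rg Pt} {δ : ℕ} (hf : ∀ m, coeff m f ≠ 0 → m.degree = δ)
    (hg : ∀ m, coeff m g ≠ 0 → m.degree = δ) : ∀ m, coeff m (f + g) ≠ 0 → m.degree = δ := by
  intro m hm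
  by_cases h : coeff m f = 0
  · by_cases h' : coeff m g = 0
    · rw [coeff_add, h, h', add_zero] at hm; exact absurd rfl hm
    · exact hg m h'
  · exact hf m h

private theorem hom_mul {f g : Rg Pt} {δ δ' : ℕ} (hf : ∀ m, coeff m f ≠ 0 → m.degree = δ)
    (hg : ∀ m, coeff m g ≠ 0 → m.degree = δ') :
    ∀ m, coeff m (f * g) ≠ 0 → m.degree = δ + δ' := by
  classical
  intro m hm
  rw [coeff_mul] at hm
  obtain ⟨y, hy, hy0⟩ := Finset.exists_ne_zero_of_sum_ne_zero hm
  rw [Finset.HasAntidiagonal.mem_antidiagonal] at hy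
  rw [← hy, map_add, hf _ (left_ne_zero_of_mul hy0), hg _ (right_ne_zero_of_mul hy0)]

private theorem cut_mem {V : Setoid Pt} {f : Rg Pt} (hf : f ∈ I V) : ∀ P, cut P f ∈ I V := by
  have hgen : ∀ (g : Rg Pt) (δ : ℕ), g ∈ I V → (∀ m, coeff m g ≠ 0 → m.degree = δ) →
      ∀ P, cut P g ∈ I V := by
    intro g δ hg hδ P
    by_cases h : P δ
    · rw [cut_hom hδ h]; exact hg
    · rw [cut_hom' (fun m hm => by rw [hδ m hm]; exact h)]
      exact Submodule.zero_mem _
  have hmul : ∀ (a : Rg Pt) (y : Rg Pt), (∀ P, cut P y ∈ I V) → ∀ P, cut P (a * y) ∈ I V := by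
    intro a
    induction a using MvPolynomial.induction_on with
    | C a =>
      intro y hy P
      rw [cut_mul (hom_C a)]
      exact Ideal.mul_mem_left _ _ (hy _)
    | add a b ha hb =>
      intro y hy P
      rw [add_mul, cut_add]
      exact Ideal.add_mem _ (ha y hy P) (hb y hy P)
    | mul_X a p ha =>
      intro y hy P
      rw [mul_assoc]
      refine ha (X p * y) (fun P' => ?_) P
      rw [cut_mul (hom_X p)]
      exact Ideal.mul_mem_left _ _ (hy _)
  rw [I] at hf
  induction hf using Submodule.span_induction with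
  | mem g hg =>
    have hgI : g ∈ I V := Ideal.subset_span hg
    rcases hg with ⟨p, rfl⟩ | ⟨p, q, hpq, rfl⟩
    · refine hgen _ (1 + 1) hgI ?_
      rw [sq]
      exact hom_mul (hom_X p) (hom_X p)
    · exact hgen _ 1 hgI (hom_add (hom_X p) (hom_X q))
  | zero => intro P; rw [cut_zero]; exact Submodule.zero_mem _
  | add a b _ _ ha hb => intro P; rw [cut_add]; exact Ideal.add_mem _ (ha P) (hb P)
  | smul a b _ hb => intro P; rw [smul_eq_mul]; exact hmul a b hb P

end Cut

variable {Pt ι : Type} [DecidableEq ι] [Finite Pt] {W : Setoid Pt} {x : ι → Fin 4 → Pt}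
  {S : Finset ι}

/-- The saddle is neutral or homogeneous and preserves the levels. -/
private theorem kap_lv (hL : Legit W x S) {r : Finset ι} (hr : r ⊆ S) {c : ι} (hc : c ∈ r) :
    kap (U W x S (r.erase c)) (x c) ∈ I (U W x S r) ∨
    ∃ δ : ℕ, (∀ m, coeff m (kap (U W x S (r.erase c)) (x c)) ≠ 0 → m.degree = δ) ∧
      (circ W x S r : ℤ) + r.card =
        circ W x S (r.erase c) + (r.erase c).card + 2 * δ := by
  have h0 : U W x S (r.erase c) = U W x (S.erase c) r ⊔ s0 (x c) := by
    rw [U_last0 (hr hc) (Finset.notMem_erase c r)]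
    congr 1
    apply U_congr
    intro c' hc'
    rw [Finset.mem_erase]
    exact ⟨fun h1 => h1.2, fun h1 => ⟨(Finset.mem_erase.1 hc').1, h1⟩⟩
  have h1 : U W x S r = U W x (S.erase c) r ⊔ s1 (x c) := U_last1 (hr hc) hc
  have hcard : ((r.erase c).card : ℤ) + 1 = r.card := by
    have := Finset.card_erase_add_one hc
    exact_mod_cast this
  unfold circ
  rw [h0, h1]
  rcases sad_U (legit_one hL (hr hc) r) with ⟨h2, h3, h4⟩ | ⟨h2, h3, h4⟩ | ⟨h2, h3, h4⟩
  · right
    refine ⟨1, ?_, ?_⟩
    · rw [kap, if_pos h2]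
      exact hom_add (hom_X _) (hom_X _)
    · have h5 := card_join _ h3
      rw [← h4] at h5
      have h6 : ((Nat.card (Quotient (U W x (S.erase c) r ⊔ s0 (x c))) : ℕ) : ℤ) + 1 =
          Nat.card (Quotient (U W x (S.erase c) r ⊔ s1 (x c))) := by exact_mod_cast h5
      push_cast
      linarith
  · right
    refine ⟨0, ?_, ?_⟩
    · rw [kap, if_neg h2, ← C_1]
      exact hom_C 1
    · have h5 := card_join _ h2
      rw [← h4] at h5
      have h6 : ((Nat.card (Quotient (U W x (S.erase c) r ⊔ s1 (x c))) : ℕ) : ℤ) + 1 =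
          Nat.card (Quotient (U W x (S.erase c) r ⊔ s0 (x c))) := by exact_mod_cast h5
      push_cast
      linarith
  · left
    rw [kap, if_pos h2]
    exact mem_I h3

private theorem cut_bd (hL : Legit W x S) {r : Finset ι} (hr : r ⊆ S)
    (Q : Finset ι → ℕ → Prop)
    (hQ : ∀ c ∈ r, ∀ δ d : ℕ, (circ W x S r : ℤ) + r.card =
        circ W x S (r.erase c) + (r.erase c).card + 2 * δ → (Q r (d + δ) ↔ Q (r.erase c) d))
    (g : Finset ι → Rg Pt) :
    cut (Q r) (bd W x S g r) + bd W x S (fun s => cut (Q s) (g s)) r ∈ I (U W x S r) := by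
  rw [bd, bd, cut_sum, ← Finset.sum_add_distrib]
  apply Ideal.sum_mem
  intro c hc
  rcases kap_lv hL hr hc with h | ⟨δ, h1, h2⟩
  · exact Ideal.add_mem _ (cut_mem (Ideal.mul_mem_right _ _ h) _) (Ideal.mul_mem_right _ _ h)
  · rw [cut_mul h1]
    have h3 : (fun d => Q r (d + δ)) = Q (r.erase c) := by
      funext d
      exact propext (hQ c hc δ d h2)
    rw [h3, self_add']
    exact Submodule.zero_mem _

theorem grA (hL : Legit W x S) {r0 : Finset ι} (hr0 : r0 ⊆ S) {L : ℤ} {e d0 : ℕ}
    (he : Even (L - e)) {t : Rg Pt} (ht : t.IsHomogeneous d0)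
    (hd : (circ W x S r0 : ℤ) + r0.card - 2 * d0 = L) (g : Finset ι → Rg Pt)
    (H : ∀ r, r ⊆ S → r.card = r0.card → ∃ u : Rg Pt,
      (if r = r0 then t else 0) + bd W x S g r + u ∈ I (U W x S r) ∧
      ∀ m ∈ u.support, 2 * (m.degree : ℤ) ≤ (circ W x S r : ℤ) + r.card - L - 1) :
    Bd (par e) W x S r0 t := by
  classical
  obtain ⟨Q, hQ⟩ : ∃ Q : Finset ι → ℕ → Prop,
      Q = fun (s : Finset ι) (d : ℕ) => 2 * (d : ℤ) = (circ W x S s : ℤ) + s.card - L := ⟨_, rfl⟩
  refine ⟨fun s => cut (Q s) (g s), ?_⟩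
  intro r hr hcard
  apply I_le_J
  obtain ⟨u, hu, hu2⟩ := H r hr hcard
  have h1 := cut_mem hu (Q r)
  rw [cut_add, cut_add] at h1
  have hu0 : cut (Q r) u = 0 := by
    apply cut_hom'
    intro m hm
    have h2 := hu2 m (mem_support_iff.2 hm)
    rw [hQ]
    intro h3
    have h3' : 2 * (m.degree : ℤ) = (circ W x S r : ℤ) + r.card - L := h3
    linarith
  have ht0 : cut (Q r) (if r = r0 then t else 0) = if r = r0 then t else 0 := by
    by_cases h : r = r0
    · rw [if_pos h, h]
      refine cut_hom (δ := d0) ?_ ?_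
      · intro m hm
        have h2 := ht hm
        rw [Finsupp.degree_eq_weight_one]
        exact h2
      · rw [hQ]
        show 2 * (d0 : ℤ) = (circ W x S r0 : ℤ) + r0.card - L
        linarith
    · rw [if_neg h, cut_zero]
  rw [hu0, ht0, add_zero] at h1
  have h2 := cut_bd hL hr Q (by
    intro c hc δ d h3
    rw [hQ]
    show 2 * ((d + δ : ℕ) : ℤ) = (circ W x S r : ℤ) + r.card - L ↔
      2 * (d : ℤ) = (circ W x S (r.erase c) : ℤ) + (r.erase c).card - L
    push_cast
    constructor <;> intro h4 <;> linarith) g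
  have h3 := Ideal.add_mem _ h1 h2
  have e : (if r = r0 then t else 0) + cut (Q r) (bd W x S g r) +
      (cut (Q r) (bd W x S g r) + bd W x S (fun s => cut (Q s) (g s)) r) =
      (if r = r0 then t else 0) + bd W x S (fun s => cut (Q s) (g s)) r := by
    linear_combination self_add' (cut (Q r) (bd W x S g r))
  rw [e] at h3
  exact h3

theorem grB (hL : Legit W x S) {L : ℤ} {e h : ℕ} (he : Even (L - e))
    (hEx : Ex (par e) W x S h) (g : Finset ι → Rg Pt)
    (hg : ∀ r, r ⊆ S → r.card = h → ¬ par e (U W x S r) h → g r = 0)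
    (H : ∀ r, r ⊆ S → r.card = h + 1 → ∃ u : Rg Pt,
      bd W x S g r + u ∈ I (U W x S r) ∧
      ∀ m ∈ u.support, 2 * (m.degree : ℤ) ≤ (circ W x S r : ℤ) + r.card - L - 1) :
    ∃ g' : Finset ι → Rg Pt, ∀ r, r ⊆ S → r.card = h → ∃ u : Rg Pt,
      g r + bd W x S g' r + u ∈ I (U W x S r) ∧
      ∀ m ∈ u.support, 2 * (m.degree : ℤ) ≤ (circ W x S r : ℤ) + r.card - L - 1 := by
  classical
  obtain ⟨Q, hQ⟩ : ∃ Q : Finset ι → ℕ → Prop,
      Q = fun (s : Finset ι) (d : ℕ) => (circ W x S s : ℤ) + s.card - 2 * (d : ℤ) ≤ L := ⟨_, rfl⟩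
  have hQr : ∀ r : Finset ι, ∀ c ∈ r, ∀ δ d : ℕ, (circ W x S r : ℤ) + r.card =
        circ W x S (r.erase c) + (r.erase c).card + 2 * δ →
        (Q r (d + δ) ↔ Q (r.erase c) d) := by
    intro r c hc δ d h3
    rw [hQ]
    show (circ W x S r : ℤ) + r.card - 2 * ((d + δ : ℕ) : ℤ) ≤ L ↔
      (circ W x S (r.erase c) : ℤ) + (r.erase c).card - 2 * (d : ℤ) ≤ L
    push_cast
    constructor <;> intro h4 <;> linarith
  -- the part of levels `≤ L` is a cocycle
  have hcoc : ∀ r, r ⊆ S → r.card = h + 1 →
      bd W x S (fun s => cut (Q s) (g s)) r ∈ J (par e) (U W x S r) (h + 1) := by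
    intro r hr hcard
    apply I_le_J
    obtain ⟨u, hu, hu2⟩ := H r hr hcard
    have h1 := cut_mem hu (Q r)
    rw [cut_add] at h1
    have hu0 : cut (Q r) u = 0 := by
      apply cut_hom'
      intro m hm
      have h2 := hu2 m (mem_support_iff.2 hm)
      rw [hQ]
      intro h3
      have h3' : (circ W x S r : ℤ) + r.card - 2 * (m.degree : ℤ) ≤ L := h3
      linarith
    rw [hu0, add_zero] at h1
    have h2 := cut_bd hL hr Q (hQr r) g
    have h3 := Ideal.add_mem _ h1 h2
    have e1 : cut (Q r) (bd W x S g r) +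
        (cut (Q r) (bd W x S g r) + bd W x S (fun s => cut (Q s) (g s)) r) =
        bd W x S (fun s => cut (Q s) (g s)) r := by
      linear_combination self_add' (cut (Q r) (bd W x S g r))
    rw [e1] at h3
    exact h3
  obtain ⟨g1, hg1⟩ := hEx _ hcoc
  refine ⟨fun s => if par e (U W x S s) s.card then g1 s else 0, ?_⟩
  intro r hr hcard
  have hpar : ∀ c ∈ r, kap (U W x S (r.erase c)) (x c) ∈ I (U W x S r) ∨
      (par e (U W x S (r.erase c)) (r.erase c).card ↔ par e (U W x S r) r.card) := by
    intro c hc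
    rcases kap_lv hL hr hc with h1 | ⟨δ, _, h2⟩
    · exact Or.inl h1
    · right
      unfold par
      unfold circ at h2
      rw [Nat.even_iff, Nat.even_iff]
      omega
  by_cases hp : par e (U W x S r) h
  · refine ⟨cut (Q r) (g r) + g r, ?_, ?_⟩
    · have h1 := hg1 r hr hcard
      rw [J_of hp] at h1
      have h2 : bd W x S g1 r + bd W x S
          (fun s => if par e (U W x S s) s.card then g1 s else 0) r ∈ I (U W x S r) := by
        rw [bd, bd, ← Finset.sum_add_distrib]
        apply Ideal.sum_mem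
        intro c hc
        rcases hpar c hc with h3 | h3
        · exact Ideal.add_mem _ (Ideal.mul_mem_right _ _ h3) (Ideal.mul_mem_right _ _ h3)
        · rw [← hcard] at hp
          simp only [if_pos (h3.2 hp)]
          rw [self_add']
          exact Submodule.zero_mem _
      have h3 := Ideal.add_mem _ h1 h2
      have e1 : cut (Q r) (g r) + bd W x S g1 r + (bd W x S g1 r + bd W x S
          (fun s => if par e (U W x S s) s.card then g1 s else 0) r) =
          g r + bd W x S (fun s => if par e (U W x S s) s.card then g1 s else 0) r +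
            (cut (Q r) (g r) + g r) := by
        linear_combination self_add' (bd W x S g1 r) - self_add' (g r)
      rw [e1] at h3
      exact h3
    · intro m hm
      rw [mem_support_iff, coeff_add, coeff_cut] at hm
      by_cases h1 : Q r m.degree
      · rw [if_pos h1, CharTwo.add_self_eq_zero] at hm
        exact absurd rfl hm
      · rw [hQ] at h1
        have h2 : ¬ ((circ W x S r : ℤ) + r.card - 2 * (m.degree : ℤ) ≤ L) := h1
        omega
  · refine ⟨0, ?_, ?_⟩
    · rw [hg r hr hcard hp, zero_add, add_zero, bd]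
      apply Ideal.sum_mem
      intro c hc
      rcases hpar c hc with h3 | h3
      · exact Ideal.mul_mem_right _ _ h3
      · rw [← hcard] at hp
        have h4 : ¬ par e (U W x S (r.erase c)) (r.erase c).card := fun h5 => hp (h3.1 h5)
        simp only [if_neg h4, mul_zero]
        exact Submodule.zero_mem _
    · intro m hm
      rw [support_zero] at hm
      exact absurd hm (Finset.notMem_empty _)

end Pool.HPS
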