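import Pool.Agent.HPS.InsG
import Pool.Agent.HPS.Rem
import Pool.Agent.HPS.QTop

/-!
# Module HPS-InsB1: completing a truncated half twist by a kink
(imports InsG, Rem, Tr, Leg, QTop; use them)

Notation `z = m - 1` (last strand), `3 ≤ m`.

PLAN for `P1E` (`k + 1 < m`): the system `(W ⊔ s1 (qd P (k, z)), tr m k)` is completed by a kink: `l` = label of the top of `k` (`P k ℓ true`,
`ℓ = lst (m-1) k`), `x' = ins1 (qx P y0) l (inl (k, z))`, `Pt' = Pt ⊕ Fin 2`, `y0` arbitrary, `t = 0`,
`P' i i' s := if (i,i',s) = (k, ℓ, true) then inr 0 else if (i,i',s) = (k, z, false) then inr 0 else if (i,i',s) = (z, k, true) then inr 1 else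
 if (i,i',s) = (z, k, false) then inl (P k ℓ true) else if (i,i',s) = (k, z, true) then inr 1 else inl (P i i' s)`.
`LinT m (k+1) P' (sumS 2 (W ⊔ s1 ..))`: the new wires are `P' k ℓ true ~ P' k z false` (both `inr 0`) and, for `1 ≤ k`, `P' z (k-1) true ~ P' z k false`, i.e.
`P z (k-1) true ~ P k ℓ true` in `W ⊔ s1`: `P z (k-1) true ~ P z k false` (`LinT m (k+1)`), `P z k false ~ P k z false` (`s1`), `P k ℓ true ~ P k z false`
(`LinT m (k+1)`).  `TB` at `0`: `tp m (k+1) P' k = P' k z true = inr 1 = P' z k true = tp m (k+1) P' (k+1)`.  Then `QQ m (k+1) 0` in degree `h + 1`, `ins1_Ex`,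
and reindexing `ι = ℕ × ℕ` versus `IX` (`legit_image`, `Ex_image'` with `Sum.inl`).
-/

set_option autoImplicit false

open Finset MvPolynomial

namespace Pool.HPS

/-- The points of the completed half twist. -/
private def P1 {Pt : Type} (P : ℕ → ℕ → Bool → Pt) (k l n : ℕ) : ℕ → ℕ → Bool → Pt ⊕ Fin 2
  | i, i', true => if i = k ∧ i' = l then Sum.inr 0
      else if (i = n ∧ i' = k) ∨ (i = k ∧ i' = n) then Sum.inr 1 else Sum.inl (P i i' true)
  | i, i', false => if i = k ∧ i' = n then Sum.inr 0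
      else if i = n ∧ i' = k then Sum.inl (P k l true) else Sum.inl (P i i' false)

section

variable {Pt : Type} {P : ℕ → ℕ → Bool → Pt} {k l n : ℕ}

private theorem P1_t (i i' : ℕ) : P1 P k l n i i' true = if i = k ∧ i' = l then Sum.inr 0
      else if (i = n ∧ i' = k) ∨ (i = k ∧ i' = n) then Sum.inr 1 else Sum.inl (P i i' true) := rfl

private theorem P1_f (i i' : ℕ) : P1 P k l n i i' false = if i = k ∧ i' = n then Sum.inr 0
      else if i = n ∧ i' = k then Sum.inl (P k l true) else Sum.inl (P i i' false) := rfl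

private theorem P1_t0 {i i' : ℕ} (h1 : ¬ (i = k ∧ i' = l)) (h2 : ¬ (i = n ∧ i' = k))
    (h3 : ¬ (i = k ∧ i' = n)) : P1 P k l n i i' true = Sum.inl (P i i' true) := by
  rw [P1_t, if_neg h1, if_neg (by tauto)]

private theorem P1_f0 {i i' : ℕ} (h1 : ¬ (i = k ∧ i' = n)) (h2 : ¬ (i = n ∧ i' = k)) :
    P1 P k l n i i' false = Sum.inl (P i i' false) := by
  rw [P1_f, if_neg h1, if_neg h2]

private theorem P1_last (hkn : k < n) (hln : l ≠ n) :
    qd (P1 P k l n) (k, n) = ![Sum.inr 0, Sum.inr 1, Sum.inl (P k l true), Sum.inr 1] := by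
  have e1 : P1 P k l n k n false = Sum.inr 0 := by rw [P1_f, if_pos ⟨rfl, rfl⟩]
  have e2 : P1 P k l n n k true = Sum.inr 1 := by
    rw [P1_t, if_neg (by omega), if_pos (Or.inl ⟨rfl, rfl⟩)]
  have e3 : P1 P k l n n k false = Sum.inl (P k l true) := by
    rw [P1_f, if_neg (by omega), if_pos ⟨rfl, rfl⟩]
  have e4 : P1 P k l n k n true = Sum.inr 1 := by
    rw [P1_t, if_neg (by omega), if_pos (Or.inr ⟨rfl, rfl⟩)]
  unfold qd
  rw [e1, e2, e3, e4]

private theorem mem_tr {m j a b : ℕ} : (a, b) ∈ tr m j ↔ (a < m ∧ b < m) ∧ a < b ∧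
    (b + 1 = m → a < j) := by
  unfold tr
  rw [Finset.mem_filter, Finset.mem_product, Finset.mem_range, Finset.mem_range]

/-- The label of the top of strand `k`. -/
private theorem exists_label (hkn : k < n) (hn : 2 ≤ n) (y0 : ℕ → Fin 4 → Pt) :
    ∃ lb : IX × Fin 4, lb.1 ∈ (tr (n + 1) k).image Sum.inl ∧
      qx P y0 lb.1 lb.2 = P k (lst n k) true ∧
      ∀ c ∈ tr (n + 1) k, ∀ j : Fin 4, qd (P1 P k (lst n k) n) c j =
        if ((Sum.inl c : IX), j) = lb then Sum.inr 0 else Sum.inl (qd P c j) := by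
  by_cases hc : k + 1 = n
  · have hl : lst n k = n - 2 := by
      unfold lst
      rw [if_pos hc]
    rw [hl]
    refine ⟨(Sum.inl (n - 2, k), 1), ?_, rfl, ?_⟩
    · apply Finset.mem_image_of_mem
      rw [mem_tr]
      refine ⟨⟨by omega, by omega⟩, by omega, fun h => by omega⟩
    · rintro ⟨a, b⟩ hab j
      rw [mem_tr] at hab
      obtain ⟨⟨h1, h2⟩, h3, h4⟩ := hab
      fin_cases j
      · change P1 P k (n - 2) n a b false = if ((Sum.inl (a, b) : IX), (0 : Fin 4)) =
          (Sum.inl (n - 2, k), 1) then Sum.inr 0 else Sum.inl (P a b false)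
        rw [P1_f0 (by omega) (by omega), if_neg (by simp)]
      · change P1 P k (n - 2) n b a true = if ((Sum.inl (a, b) : IX), (1 : Fin 4)) =
          (Sum.inl (n - 2, k), 1) then Sum.inr 0 else Sum.inl (P b a true)
        by_cases hq : b = k ∧ a = n - 2
        · rw [P1_t, if_pos hq, if_pos (by rw [hq.1, hq.2])]
        · rw [P1_t0 hq (by omega) (by omega), if_neg ?_]
          intro he
          apply hq
          simp only [Prod.mk.injEq, Sum.inl.injEq, and_true] at he
          exact ⟨he.2, he.1⟩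
      · change P1 P k (n - 2) n b a false = if ((Sum.inl (a, b) : IX), (2 : Fin 4)) =
          (Sum.inl (n - 2, k), 1) then Sum.inr 0 else Sum.inl (P b a false)
        rw [P1_f0 (by omega) (by omega), if_neg (by simp)]
      · change P1 P k (n - 2) n a b true = if ((Sum.inl (a, b) : IX), (3 : Fin 4)) =
          (Sum.inl (n - 2, k), 1) then Sum.inr 0 else Sum.inl (P a b true)
        rw [P1_t0 (by omega) (by omega) (by omega), if_neg (by simp)]
  · have hl : lst n k = n - 1 := by
      unfold lst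
      rw [if_neg hc]
    rw [hl]
    refine ⟨(Sum.inl (k, n - 1), 3), ?_, rfl, ?_⟩
    · apply Finset.mem_image_of_mem
      rw [mem_tr]
      refine ⟨⟨by omega, by omega⟩, by omega, fun h => by omega⟩
    · rintro ⟨a, b⟩ hab j
      rw [mem_tr] at hab
      obtain ⟨⟨h1, h2⟩, h3, h4⟩ := hab
      fin_cases j
      · change P1 P k (n - 1) n a b false = if ((Sum.inl (a, b) : IX), (0 : Fin 4)) =
          (Sum.inl (k, n - 1), 3) then Sum.inr 0 else Sum.inl (P a b false)
        rw [P1_f0 (by omega) (by omega), if_neg (by simp)]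
      · change P1 P k (n - 1) n b a true = if ((Sum.inl (a, b) : IX), (1 : Fin 4)) =
          (Sum.inl (k, n - 1), 3) then Sum.inr 0 else Sum.inl (P b a true)
        rw [P1_t0 (by omega) (by omega) (by omega), if_neg (by simp)]
      · change P1 P k (n - 1) n b a false = if ((Sum.inl (a, b) : IX), (2 : Fin 4)) =
          (Sum.inl (k, n - 1), 3) then Sum.inr 0 else Sum.inl (P b a false)
        rw [P1_f0 (by omega) (by omega), if_neg (by simp)]
      · change P1 P k (n - 1) n a b true = if ((Sum.inl (a, b) : IX), (3 : Fin 4)) =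
          (Sum.inl (k, n - 1), 3) then Sum.inr 0 else Sum.inl (P a b true)
        by_cases hq : a = k ∧ b = n - 1
        · rw [P1_t, if_pos hq, if_pos (by rw [hq.1, hq.2])]
        · rw [P1_t0 hq (by omega) (by omega), if_neg ?_]
          intro he
          apply hq
          simp only [Prod.mk.injEq, Sum.inl.injEq, and_true] at he
          exact ⟨he.1, he.2⟩

private theorem lst_cases (hkn : k < n) :
    (k + 1 = n ∧ lst n k = n - 2) ∨ (k + 1 < n ∧ lst n k = n - 1) := by
  unfold lst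
  split_ifs with hc
  · exact Or.inl ⟨hc, rfl⟩
  · exact Or.inr ⟨by omega, rfl⟩

/-- The wires of the completed half twist. -/
private theorem lin_P1 (hkn : k < n) (hn : 2 ≤ n) {W : Setoid Pt} (hLin : LinT (n + 1) (k + 1) P W) :
    LinT (n + 1) (k + 1) (P1 P k (lst n k) n) (sumS 2 (W ⊔ s1 (qd P (k, n)))) := by
  have hW : ∀ a b, W a b → (W ⊔ s1 (qd P (k, n))) a b := fun a b hab =>
    (le_sup_left : W ≤ W ⊔ s1 (qd P (k, n))) hab
  have hs : (W ⊔ s1 (qd P (k, n))) (P n k false) (P k n false) := by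
    have h1 : s1 (qd P (k, n)) ≤ W ⊔ s1 (qd P (k, n)) := le_sup_right
    exact Setoid.symm' _ (s1_le.1 h1).1
  have htop : W (P k (lst n k) true) (P k n false) := by
    rcases lst_cases hkn with ⟨h1, h2⟩ | ⟨h1, h2⟩
    · rw [h2]
      obtain ⟨q, rfl⟩ : ∃ q, n = q + 2 := ⟨n - 2, by omega⟩
      have hk : k = q + 1 := by omega
      subst hk
      exact hLin.b q (by omega) (fun _ => by omega)
    · rw [h2]
      obtain ⟨q, rfl⟩ : ∃ q, n = q + 1 := ⟨n - 1, by omega⟩
      exact hLin.a k q (by omega) (by omega) (by omega) (by omega) (fun _ => by omega)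
        (fun h => by omega)
  have inl' : ∀ a b : Pt, (W ⊔ s1 (qd P (k, n))) a b →
      (sumS 2 (W ⊔ s1 (qd P (k, n)))) (Sum.inl a) (Sum.inl b) := fun a b hab =>
    Or.inl ⟨a, b, rfl, rfl, hab⟩
  have inr' : ∀ a : Fin 2, (sumS 2 (W ⊔ s1 (qd P (k, n)))) (Sum.inr a) (Sum.inr a) := fun a =>
    Or.inr ⟨a, rfl, rfl⟩
  have hl := lst_cases hkn
  refine ⟨?_, ?_⟩
  · intro i j hi hj hji hji1 hc1 hc2
    by_cases h1 : i = k ∧ j = lst n k
    · have h2 : j + 1 = n := by omega
      rw [P1_t, if_pos h1, P1_f, if_pos ⟨h1.1, h2⟩]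
    · rw [P1_t0 h1 (by omega) (by omega)]
      have h3 : ¬ (i = k ∧ j + 1 = n) := by
        rintro ⟨e1, e2⟩
        apply h1
        refine ⟨e1, ?_⟩
        omega
      by_cases h2 : i = n ∧ j + 1 = k
      · rw [P1_f, if_neg h3, if_pos h2]
        apply inl'
        have e1 := hLin.a i j hi hj hji hji1 hc1 hc2
        rw [h2.1, h2.2] at e1
        rw [h2.1]
        exact Setoid.trans' _ (hW _ _ e1) (Setoid.trans' _ hs (Setoid.symm' _ (hW _ _ htop)))
      · rw [P1_f0 h3 h2]
        exact inl' _ _ (hW _ _ (hLin.a i j hi hj hji hji1 hc1 hc2))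
  · intro i hi hc1
    by_cases h1 : i + 1 = k ∧ i = lst n k
    · have h2 : i + 2 = n := by omega
      rw [P1_t, if_pos h1, P1_f, if_pos ⟨h1.1, h2⟩]
    · rw [P1_t0 h1 (by omega) (by omega), P1_f0 (by omega) (by omega)]
      exact inl' _ _ (hW _ _ (hLin.b i hi hc1))

end

theorem P1E {m k : ℕ} (hm : 3 ≤ m) (hk : k + 1 < m) (H : QQ m (k + 1) 0)
    {Pt : Type} {W : Setoid Pt} {P : ℕ → ℕ → Bool → Pt} (hLin : LinT m (k + 1) P W)
    (hL : Legit W (qd P) (tr m (k + 1))) {h : ℕ} (hh : m ^ 2 / 4 ≤ h) :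
    Ex tt (W ⊔ s1 (qd P (k, m - 1))) (qd P) (tr m k) h := by
  obtain ⟨n, rfl⟩ : ∃ n, m = n + 1 := ⟨m - 1, by omega⟩
  have hkn : k < n := by omega
  have hn : 2 ≤ n := by omega
  change Ex tt (W ⊔ s1 (qd P (k, n))) (qd P) (tr (n + 1) k) h
  have hnot : (k, n) ∉ tr (n + 1) k := not_mem_tr
  have hLV : Legit (W ⊔ s1 (qd P (k, n))) (qd P) (tr (n + 1) k) := by
    apply legit1 _ hnot
    rw [← tr_succ hkn]
    exact hL
  have hln : lst n k ≠ n := by
    have := lst_cases hkn
    omega
  have y0 : ℕ → Fin 4 → Pt := fun _ _ => P 0 0 true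
  obtain ⟨lb, hlb, hval, hx⟩ := exists_label (P := P) hkn hn y0
  have hS : Legit (W ⊔ s1 (qd P (k, n))) (qx P y0) ((tr (n + 1) k).image Sum.inl) := by
    have e1 : ((tr (n + 1) k).image (Sum.inl : ℕ × ℕ → IX)).image
        (Sum.elim id (fun _ => ((0, 0) : ℕ × ℕ)) : IX → ℕ × ℕ) = tr (n + 1) k := by
      rw [Finset.image_image]
      exact Finset.image_id
    have e2 := legit_image (x := qd P) (W := W ⊔ s1 (qd P (k, n)))
      (Sum.elim id (fun _ => ((0, 0) : ℕ × ℕ)) : IX → ℕ × ℕ)
      ((tr (n + 1) k).image (Sum.inl : ℕ × ℕ → IX)) (by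
        intro a ha b hb hab
        rw [Finset.mem_coe, Finset.mem_image] at ha hb
        obtain ⟨a', -, rfl⟩ := ha
        obtain ⟨b', -, rfl⟩ := hb
        have : a' = b' := hab
        rw [this]) (by rw [e1]; exact hLV)
    refine legit_congr e2 ?_
    intro c hc
    rw [Finset.mem_image] at hc
    obtain ⟨c', -, rfl⟩ := hc
    rfl
  have hc0 : (Sum.inl (k, n) : IX) ∉ (tr (n + 1) k).image Sum.inl := by
    rw [Finset.mem_image]
    rintro ⟨c, hc, he⟩
    rw [Sum.inl.injEq] at he
    rw [he] at hc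
    exact hnot hc
  have hts : ts (n + 1) (k + 1) 0 = insert (Sum.inl (k, n)) ((tr (n + 1) k).image Sum.inl) := by
    unfold ts
    rw [Finset.range_zero, Finset.disjSum_empty, Finset.map_eq_image, tr_succ hkn,
      Finset.image_insert]
    rfl
  have hcongr : ∀ c ∈ insert (Sum.inl (k, n) : IX) ((tr (n + 1) k).image Sum.inl),
      ins1 (qx P y0) lb (Sum.inl (k, n)) c =
        qx (P1 P k (lst n k) n) (fun _ _ => Sum.inr 0) c := by
    intro c hc
    rw [Finset.mem_insert] at hc
    rcases hc with rfl | hc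
    · change _ = qd (P1 P k (lst n k) n) (k, n)
      rw [P1_last hkn hln]
      funext j
      unfold ins1
      rw [if_pos rfl, hval]
    · have hne : c ≠ Sum.inl (k, n) := by
        rintro rfl
        exact hc0 hc
      rw [Finset.mem_image] at hc
      obtain ⟨c', hc', rfl⟩ := hc
      funext j
      change _ = qd (P1 P k (lst n k) n) c' j
      rw [hx c' hc' j]
      unfold ins1
      rw [if_neg hne]
      rfl
  have hleg := ins1_legit hS hlb hc0
  have hEx := H (Pt ⊕ Fin 2) (sumS 2 (W ⊔ s1 (qd P (k, n)))) (P1 P k (lst n k) n)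
    (fun _ _ => Sum.inr 0) (lin_P1 hkn hn hLin) (by
      rw [hts]
      exact legit_congr hleg hcongr) (by
      refine ⟨k, by omega, ?_⟩
      have e1 : tp (n + 1) (k + 1) (P1 P k (lst n k) n) k = Sum.inr 1 := by
        unfold tp
        rw [if_pos (by omega)]
        change P1 P k (lst n k) n k n true = _
        rw [P1_t, if_neg (by omega), if_pos (Or.inr ⟨rfl, rfl⟩)]
      have e2 : tp (n + 1) (k + 1) (P1 P k (lst n k) n) (k + 1) = Sum.inr 1 := by
        unfold tp
        rw [if_neg (by omega), if_pos rfl]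
        change P1 P k (lst n k) n n k true = _
        rw [P1_t, if_neg (by omega), if_pos (Or.inl ⟨rfl, rfl⟩)]
      rw [e1, e2]) (h + 1) (by omega)
  rw [hts] at hEx
  have hEx2 := ins1_Ex hS hlb hc0 (Ex_congr_x (fun c hc => (hcongr c hc).symm) hEx)
  have hEx3 := Ex_image' (x := qx P y0) (Sum.inl : ℕ × ℕ → IX) (tr (n + 1) k)
    (Sum.inl_injective.injOn) hEx2
  exact hEx3

end Pool.HPS
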