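import Pool.Agent.HPS.DefsB
import Pool.Agent.HPS.R2C
import Pool.Agent.HPS.R1
import Pool.Agent.HPS.Tr

/-!
# Module HPS-InsG: inserting a kink or a second Reidemeister pair (imports R2C, R1, Tr, Leg; use them)

PLAN.
* `ins1_legit`: labels of `insert c0 S`: `(c0,0) ~ l` (both `inr 0`), `(c0,1) ~ (c0,3)` (both `inr 1`), `(c0,2)` (point `inl (x l)`) is matched with the
  old partner of `l`; all other labels keep their partners.  Uniqueness: `inr` points are related only to the same `inr` point, `inl a ~ inl b` iff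
  `W a b`; if `l''` is an old label `≠ l` related to another old label `≠ l` use uniqueness for `W`; note that `(c0, 2)` plays the
  role of `l`.  (Suggestion: define the map label ↦ old label or new class, and treat the cases; `rcases`, `fin_cases k`.)
* `ins1_Ex`: `R1up` for the relabelled crossing `![y 1, y 0, y 3, y 2]` of `y = ins1 x l c0 c0` (its points 0, 2 are `inr 1`, `inr 1`), via `Ex_V4`,
  gives `Ex tt (sumS 2 W ⊔ s0 y) x' S h`; and `sumS 2 W ⊔ s0 y = Setoid.comap ψ W` with `ψ (inl p) = p`, `ψ (inr _) = x l.1 l.2`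
  (`≤` on generators; `≥`: `inl p ~ inl q` if `W p q`; `inr 0 ~ inr 1 ~ inl (x l)` by `s0`); `Ex_comap`, and `ψ (x' c k) = x c k` for `c ∈ S` (`c ≠ c0`):
  `Ex_congr_x`.
* `ins2_legit`: new labels: `(c1,0) ~ (c2,1)` (`inr 2`), `(c1,1) ~ (c2,3)` (`inr 3`), `(c2,0) ~ m` (`inr 1`), `(c2,2) ~ l` (`inr 0`), `(c1,2)` plays the role of `m`
  and `(c1,3)` that of `l` in the old matching (if `l` and `m` were partners then `(c1,2) ~ (c1,3)`).
* `ins2_Ex`: relabel `c1` by `![y 3, y 2, y 1, y 0]` and `c2` by `![y 1, y 0, y 3, y 2]`: `Pat` holds (`inr 3 ~ inr 3`, `inr 2 ~ inr 2`), `R2up` (`shE tt = tt` by `rfl`):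
  exactness of `(sumS 4 W ⊔ s1 (x' c1) ⊔ s0 (x' c2), S)` in degree `h`, and this setoid is `Setoid.comap ψ W` with `ψ (inl p) = p`,
  `ψ (inr 0) = ψ (inr 3) = x l.1 l.2`, `ψ (inr 1) = ψ (inr 2) = x m.1 m.2`.
-/

set_option autoImplicit false

open Finset MvPolynomial

namespace Pool.HPS

variable {Pt ι : Type} [DecidableEq ι] {W : Setoid Pt} {x : ι → Fin 4 → Pt} {S : Finset ι}

private theorem eok_tt : EOk (tt : Setoid Pt → ℕ → Prop) :=
  ⟨fun _ _ _ _ _ => Iff.rfl, fun _ _ _ _ _ => Iff.rfl⟩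

private theorem sumS_inl {n : ℕ} {a b : Pt} :
    (sumS n W) (Sum.inl a) (Sum.inl b) ↔ W a b := by
  constructor
  · rintro (⟨a', b', h1, h2, h⟩ | ⟨i, h1, -⟩)
    · cases h1; cases h2; exact h
    · cases h1
  · intro h
    exact Or.inl ⟨a, b, rfl, rfl, h⟩

private theorem sumS_inl_left {n : ℕ} {a : Pt} {q : Pt ⊕ Fin n}
    (h : (sumS n W) (Sum.inl a) q) : ∃ b, q = Sum.inl b ∧ W a b := by
  rcases h with ⟨a', b', h1, h2, h⟩ | ⟨i, h1, -⟩
  · cases h1; exact ⟨b', h2, h⟩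
  · cases h1

private theorem sumS_inr_left {n : ℕ} {i : Fin n} {q : Pt ⊕ Fin n}
    (h : (sumS n W) (Sum.inr i) q) : q = Sum.inr i := by
  rcases h with ⟨a', b', h1, h2, h⟩ | ⟨j, h1, h2⟩
  · cases h1
  · cases h1; exact h2

/-- Matchings after adding isolated points. -/
private theorem mt_sum {L L' : Type} {n : ℕ} {F : Set L} {F' : Set L'} {y : L → Pt}
    {y' : L' → Pt ⊕ Fin n} (ρ : L → L') (h : Mt F W y)
    (hA : ∀ a ∈ F', (∃ b ∈ F, y' a = Sum.inl (y b) ∧ a = ρ b) ∨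
      (∃ a' ∈ F', a' ≠ a ∧ ∃ i, y' a = Sum.inr i ∧ y' a' = Sum.inr i ∧
        ∀ a'' ∈ F', y' a'' = Sum.inr i → a'' = a ∨ a'' = a'))
    (hB : ∀ b ∈ F, ρ b ∈ F' ∧ y' (ρ b) = Sum.inl (y b))
    (hC : ∀ b ∈ F, ∀ b' ∈ F, ρ b = ρ b' → b = b') : Mt F' (sumS n W) y' := by
  intro a ha
  rcases hA a ha with ⟨b, hb, e, rfl⟩ | ⟨a', ha', hne, i, e, e', hu⟩
  · obtain ⟨b', hb', hne, hW, hu⟩ := h b hb
    refine ⟨ρ b', (hB b' hb').1, fun he => hne (hC _ hb' _ hb he), ?_, ?_⟩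
    · rw [e, (hB b' hb').2]
      exact sumS_inl.2 hW
    · intro a'' ha'' hne' hW'
      rw [e] at hW'
      obtain ⟨q, hq, hWq⟩ := sumS_inl_left hW'
      rcases hA a'' ha'' with ⟨b'', hb'', e'', rfl⟩ | ⟨-, -, -, j, e'', -⟩
      · rw [e''] at hq
        cases hq
        rw [hu b'' hb'' (fun he => hne' (by rw [he])) hWq]
      · rw [e''] at hq
        cases hq
  · refine ⟨a', ha', hne, ?_, ?_⟩
    · rw [e, e']
    · intro a'' ha'' hne' hW'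
      rw [e] at hW'
      rcases hu a'' ha'' (sumS_inr_left hW') with h1 | h1
      · exact absurd h1 hne'
      · exact h1

private theorem ins1_old {l : ι × Fin 4} {c0 : ι} {a : ι × Fin 4} (h0 : a.1 ≠ c0) (h1 : a ≠ l) :
    ins1 x l c0 a.1 a.2 = Sum.inl (x a.1 a.2) := by
  unfold ins1
  rw [if_neg h0, if_neg h1]

private theorem ins1_l {l : ι × Fin 4} {c0 : ι} (h0 : l.1 ≠ c0) :
    ins1 x l c0 l.1 l.2 = Sum.inr 0 := by
  unfold ins1
  rw [if_neg h0, if_pos rfl]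

private theorem ins1_new {l : ι × Fin 4} {c0 : ι} (k : Fin 4) :
    ins1 x l c0 c0 k = ![Sum.inr 0, Sum.inr 1, Sum.inl (x l.1 l.2), Sum.inr 1] k := by
  unfold ins1
  rw [if_pos rfl]

theorem ins1_legit (hL : Legit W x S) {l : ι × Fin 4} {c0 : ι} (hl : l.1 ∈ S) (h0 : c0 ∉ S) :
    Legit (sumS 2 W) (ins1 x l c0) (insert c0 S) := by
  have hlc : l.1 ≠ c0 := fun h => h0 (h ▸ hl)
  refine mt_sum (fun b => if b = l then (c0, 2) else b) hL ?_ ?_ ?_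
  · rintro ⟨c, k⟩ hc
    have hu0 : ∀ a'' : ι × Fin 4, ins1 x l c0 a''.1 a''.2 = Sum.inr 0 →
        a'' = (c0, 0) ∨ a'' = l := by
      rintro ⟨d, j⟩ hd
      by_cases hdc : d = c0
      · subst hdc
        rw [ins1_new] at hd
        fin_cases j
        · exact Or.inl rfl
        · simp at hd
        · simp at hd
        · simp at hd
      · by_cases hdl : (d, j) = l
        · exact Or.inr hdl
        · rw [ins1_old hdc hdl] at hd
          cases hd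
    have hu1 : ∀ a'' : ι × Fin 4, ins1 x l c0 a''.1 a''.2 = Sum.inr 1 →
        a'' = (c0, 1) ∨ a'' = (c0, 3) := by
      rintro ⟨d, j⟩ hd
      by_cases hdc : d = c0
      · subst hdc
        rw [ins1_new] at hd
        fin_cases j
        · simp at hd
        · exact Or.inl rfl
        · simp at hd
        · exact Or.inr rfl
      · by_cases hdl : (d, j) = l
        · rw [hdl, ins1_l hlc] at hd
          simp at hd
        · rw [ins1_old hdc hdl] at hd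
          cases hd
    by_cases hcc : c = c0
    · subst hcc
      fin_cases k
      · refine Or.inr ⟨l, Finset.mem_insert_of_mem hl, fun h => hlc (Prod.ext_iff.1 h).1, 0,
          ins1_new 0, ins1_l hlc, fun a'' _ h => hu0 a'' h⟩
      · refine Or.inr ⟨(c, 3), Finset.mem_insert_self _ _, fun h => by simp at h, 1,
          ins1_new 1, ins1_new 3, fun a'' _ h => hu1 a'' h⟩
      · refine Or.inl ⟨l, hl, ins1_new 2, ?_⟩
        simp
      · refine Or.inr ⟨(c, 1), Finset.mem_insert_self _ _, fun h => by simp at h, 1,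
          ins1_new 3, ins1_new 1, fun a'' _ h => (hu1 a'' h).symm⟩
    · have hcS : c ∈ S := (Finset.mem_insert.1 hc).resolve_left hcc
      by_cases hcl : (c, k) = l
      · rw [hcl]
        refine Or.inr ⟨(c0, 0), Finset.mem_insert_self _ _,
          fun h => hlc (Prod.ext_iff.1 h).1.symm, 0, ins1_l hlc, ins1_new 0,
          fun a'' _ h => (hu0 a'' h).symm⟩
      · refine Or.inl ⟨(c, k), hcS, ins1_old hcc hcl, ?_⟩
        simp only [if_neg hcl]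
  · intro b hb
    have hbS : b.1 ∈ S := hb
    by_cases hbl : b = l
    · simp only [if_pos hbl]
      refine ⟨Finset.mem_insert_self _ _, ?_⟩
      rw [hbl]
      exact ins1_new 2
    · simp only [if_neg hbl]
      exact ⟨Finset.mem_insert_of_mem hbS, ins1_old (fun h => h0 (h ▸ hbS)) hbl⟩
  · intro b hb b' hb' h
    have hbS : b.1 ≠ c0 := fun h => h0 (h ▸ (hb : b.1 ∈ S))
    have hbS' : b'.1 ≠ c0 := fun h => h0 (h ▸ (hb' : b'.1 ∈ S))
    by_cases hbl : b = l <;> by_cases hbl' : b' = l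
    · rw [hbl, hbl']
    · simp only [if_pos hbl, if_neg hbl'] at h
      exact absurd (Prod.ext_iff.1 h).1.symm hbS'
    · simp only [if_neg hbl, if_pos hbl'] at h
      exact absurd (Prod.ext_iff.1 h).1 hbS
    · simp only [if_neg hbl, if_neg hbl'] at h
      exact h


private theorem comap_eq {n : ℕ} {V : Setoid (Pt ⊕ Fin n)} (g : Fin n → Pt)
    (hV : V ≤ Setoid.comap (Sum.elim id g) W) (h1 : sumS n W ≤ V)
    (h2 : ∀ i, V (Sum.inr i) (Sum.inl (g i))) : V = Setoid.comap (Sum.elim id g) W := by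
  refine le_antisymm hV ?_
  have key : ∀ p : Pt ⊕ Fin n, V p (Sum.inl (Sum.elim id g p)) := by
    rintro (a | i)
    · exact V.refl _
    · exact h2 i
  rw [Setoid.le_def]
  intro p q hpq
  have hpq' : W (Sum.elim id g p) (Sum.elim id g q) := hpq
  exact V.trans (key p) (V.trans (h1 (sumS_inl.2 hpq')) (V.symm (key q)))

private theorem sumS_le_comap {n : ℕ} (g : Fin n → Pt) :
    sumS n W ≤ Setoid.comap (Sum.elim id g) W := by
  rw [Setoid.le_def]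
  rintro p q (⟨a, b, rfl, rfl, h⟩ | ⟨i, rfl, rfl⟩)
  · exact h
  · exact W.refl _

private theorem elim_surj {n : ℕ} (g : Fin n → Pt) :
    Function.Surjective (Sum.elim id g : Pt ⊕ Fin n → Pt) := fun a => ⟨Sum.inl a, rfl⟩

theorem ins1_Ex (hL : Legit W x S) {l : ι × Fin 4} {c0 : ι} (hl : l.1 ∈ S) (h0 : c0 ∉ S) {h : ℕ}
    (H : Ex tt (sumS 2 W) (ins1 x l c0) (insert c0 S) (h + 1)) : Ex tt W x S h := by
  have hlc : l.1 ≠ c0 := fun h => h0 (h ▸ hl)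
  obtain ⟨x2, hx2⟩ : ∃ x2 : ι → Fin 4 → Pt ⊕ Fin 2, x2 = fun c => if c = c0 then
    ![ins1 x l c0 c 1, ins1 x l c0 c 0, ins1 x l c0 c 3, ins1 x l c0 c 2] else ins1 x l c0 c :=
    ⟨_, rfl⟩
  have hV : ∀ c ∈ insert c0 S, V4 (ins1 x l c0 c) (x2 c) := by
    intro c _
    rw [hx2]
    by_cases hc : c = c0
    · simp only [if_pos hc]
      exact Or.inr (Or.inl rfl)
    · simp only [if_neg hc]
      exact Or.inl rfl
  have e0 : x2 c0 = ![Sum.inr 1, Sum.inr 0, Sum.inr 1, Sum.inl (x l.1 l.2)] := by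
    rw [hx2]
    simp only [if_true, ins1_new]
    rfl
  have hL2 := legit_V4 (ins1_legit hL hl h0) hV
  have H2 := Ex_V4 hV H
  have hW : (sumS 2 W) (x2 c0 0) (x2 c0 2) := by
    rw [e0]
    exact (sumS 2 W).refl _
  have H3 := R1up eok_tt h0 hL2 hW H2
  have hs : sumS 2 W ⊔ s0 (x2 c0) =
      Setoid.comap (Sum.elim id (fun _ : Fin 2 => x l.1 l.2)) W := by
    have r0 : (sumS 2 W ⊔ s0 (x2 c0)) (x2 c0 0) (x2 c0 1) ∧
        (sumS 2 W ⊔ s0 (x2 c0)) (x2 c0 2) (x2 c0 3) := s0_le.1 le_sup_right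
    rw [e0] at r0 ⊢
    refine comap_eq _ (sup_le (sumS_le_comap _) (s0_le.2 ⟨W.refl _, W.refl _⟩)) le_sup_left ?_
    intro i
    fin_cases i
    · exact Setoid.trans' _ (Setoid.symm' _ r0.1) r0.2
    · exact r0.2
  rw [hs] at H3
  have H4 := Ex_comap _ (elim_surj _) x2 H3
  refine Ex_congr_x (fun c hc => ?_) H4
  have hcc : c ≠ c0 := fun h => h0 (h ▸ hc)
  funext k
  rw [hx2]
  simp only [if_neg hcc]
  by_cases hcl : (c, k) = l
  · rw [show ins1 x l c0 c k = Sum.inr 0 from by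
      have := ins1_l (x := x) hlc
      rw [← hcl] at this ⊢
      exact this]
    rw [← hcl]
    rfl
  · rw [show ins1 x l c0 c k = Sum.inl (x c k) from ins1_old (a := (c, k)) hcc hcl]
    rfl

private theorem ins2_c1 {l m : ι × Fin 4} {c1 c2 : ι} (k : Fin 4) : ins2 x l m c1 c2 c1 k =
    ![Sum.inr 2, Sum.inr 3, Sum.inl (x m.1 m.2), Sum.inl (x l.1 l.2)] k := by
  unfold ins2
  rw [if_pos rfl]

private theorem ins2_c2 {l m : ι × Fin 4} {c1 c2 : ι} (h12 : c1 ≠ c2) (k : Fin 4) :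
    ins2 x l m c1 c2 c2 k = ![Sum.inr 1, Sum.inr 2, Sum.inr 0, Sum.inr 3] k := by
  unfold ins2
  rw [if_neg h12.symm, if_pos rfl]

private theorem ins2_l {l m : ι × Fin 4} {c1 c2 : ι} (h1 : l.1 ≠ c1) (h2 : l.1 ≠ c2) :
    ins2 x l m c1 c2 l.1 l.2 = Sum.inr 0 := by
  unfold ins2
  rw [if_neg h1, if_neg h2, if_pos rfl]

private theorem ins2_m {l m : ι × Fin 4} {c1 c2 : ι} (hlm : l ≠ m) (h1 : m.1 ≠ c1)
    (h2 : m.1 ≠ c2) : ins2 x l m c1 c2 m.1 m.2 = Sum.inr 1 := by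
  unfold ins2
  rw [if_neg h1, if_neg h2, if_neg (fun h : (m.1, m.2) = l => hlm h.symm), if_pos rfl]

private theorem ins2_old {l m : ι × Fin 4} {c1 c2 : ι} {a : ι × Fin 4} (h1 : a.1 ≠ c1)
    (h2 : a.1 ≠ c2) (hl : a ≠ l) (hm : a ≠ m) :
    ins2 x l m c1 c2 a.1 a.2 = Sum.inl (x a.1 a.2) := by
  unfold ins2
  rw [if_neg h1, if_neg h2, if_neg hl, if_neg hm]

/-- All labels and their values. -/
private theorem ins2_cases {l m : ι × Fin 4} {c1 c2 : ι} (hlm : l ≠ m) (h12 : c1 ≠ c2)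
    (hl1 : l.1 ≠ c1) (hl2 : l.1 ≠ c2) (hm1 : m.1 ≠ c1) (hm2 : m.1 ≠ c2) (a : ι × Fin 4) :
    (a = (c1, 0) ∧ ins2 x l m c1 c2 a.1 a.2 = Sum.inr 2) ∨
    (a = (c1, 1) ∧ ins2 x l m c1 c2 a.1 a.2 = Sum.inr 3) ∨
    (a = (c1, 2) ∧ ins2 x l m c1 c2 a.1 a.2 = Sum.inl (x m.1 m.2)) ∨
    (a = (c1, 3) ∧ ins2 x l m c1 c2 a.1 a.2 = Sum.inl (x l.1 l.2)) ∨
    (a = (c2, 0) ∧ ins2 x l m c1 c2 a.1 a.2 = Sum.inr 1) ∨
    (a = (c2, 1) ∧ ins2 x l m c1 c2 a.1 a.2 = Sum.inr 2) ∨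
    (a = (c2, 2) ∧ ins2 x l m c1 c2 a.1 a.2 = Sum.inr 0) ∨
    (a = (c2, 3) ∧ ins2 x l m c1 c2 a.1 a.2 = Sum.inr 3) ∨
    (a = l ∧ ins2 x l m c1 c2 a.1 a.2 = Sum.inr 0) ∨
    (a = m ∧ ins2 x l m c1 c2 a.1 a.2 = Sum.inr 1) ∨
    (a.1 ≠ c1 ∧ a.1 ≠ c2 ∧ a ≠ l ∧ a ≠ m ∧
      ins2 x l m c1 c2 a.1 a.2 = Sum.inl (x a.1 a.2)) := by
  obtain ⟨c, k⟩ := a
  by_cases hc1 : c = c1
  · subst hc1
    fin_cases k
    · exact Or.inl ⟨rfl, ins2_c1 0⟩
    · exact Or.inr (Or.inl ⟨rfl, ins2_c1 1⟩)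
    · exact Or.inr (Or.inr (Or.inl ⟨rfl, ins2_c1 2⟩))
    · exact Or.inr (Or.inr (Or.inr (Or.inl ⟨rfl, ins2_c1 3⟩)))
  by_cases hc2 : c = c2
  · subst hc2
    fin_cases k
    · exact Or.inr (Or.inr (Or.inr (Or.inr (Or.inl ⟨rfl, ins2_c2 h12 0⟩))))
    · exact Or.inr (Or.inr (Or.inr (Or.inr (Or.inr (Or.inl ⟨rfl, ins2_c2 h12 1⟩)))))
    · exact Or.inr (Or.inr (Or.inr (Or.inr (Or.inr (Or.inr (Or.inl ⟨rfl, ins2_c2 h12 2⟩))))))
    · exact Or.inr (Or.inr (Or.inr (Or.inr (Or.inr (Or.inr (Or.inr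
        (Or.inl ⟨rfl, ins2_c2 h12 3⟩)))))))
  by_cases hcl : (c, k) = l
  · refine Or.inr (Or.inr (Or.inr (Or.inr (Or.inr (Or.inr (Or.inr (Or.inr
      (Or.inl ⟨hcl, ?_⟩))))))))
    rw [hcl]
    exact ins2_l hl1 hl2
  by_cases hcm : (c, k) = m
  · refine Or.inr (Or.inr (Or.inr (Or.inr (Or.inr (Or.inr (Or.inr (Or.inr
      (Or.inr (Or.inl ⟨hcm, ?_⟩)))))))))
    rw [hcm]
    exact ins2_m hlm hm1 hm2
  · exact Or.inr (Or.inr (Or.inr (Or.inr (Or.inr (Or.inr (Or.inr (Or.inr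
      (Or.inr (Or.inr ⟨hc1, hc2, hcl, hcm, ins2_old (a := (c, k)) hc1 hc2 hcl hcm⟩)))))))))

theorem ins2_legit (hL : Legit W x S) {l m : ι × Fin 4} {c1 c2 : ι} (hl : l.1 ∈ S)
    (hm : m.1 ∈ S) (hlm : l ≠ m) (h12 : c1 ≠ c2) (h1 : c1 ∉ S) (h2 : c2 ∉ S) :
    Legit (sumS 4 W) (ins2 x l m c1 c2) (insert c1 (insert c2 S)) := by
  have hl1 : l.1 ≠ c1 := fun h => h1 (h ▸ hl)
  have hl2 : l.1 ≠ c2 := fun h => h2 (h ▸ hl)
  have hm1 : m.1 ≠ c1 := fun h => h1 (h ▸ hm)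
  have hm2 : m.1 ≠ c2 := fun h => h2 (h ▸ hm)
  have ca := ins2_cases (x := x) hlm h12 hl1 hl2 hm1 hm2
  have s1' : c1 ∈ insert c1 (insert c2 S) := Finset.mem_insert_self _ _
  have s2' : c2 ∈ insert c1 (insert c2 S) :=
    Finset.mem_insert_of_mem (Finset.mem_insert_self _ _)
  have sS : ∀ c ∈ S, c ∈ insert c1 (insert c2 S) := fun c hc =>
    Finset.mem_insert_of_mem (Finset.mem_insert_of_mem hc)
  have u0 : ∀ a : ι × Fin 4, ins2 x l m c1 c2 a.1 a.2 = Sum.inr 0 → a = (c2, 2) ∨ a = l := by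
    intro a ha
    rcases ca a with ⟨e, h⟩ | ⟨e, h⟩ | ⟨e, h⟩ | ⟨e, h⟩ | ⟨e, h⟩ | ⟨e, h⟩ | ⟨e, h⟩ | ⟨e, h⟩ |
      ⟨e, h⟩ | ⟨e, h⟩ | ⟨-, -, -, -, h⟩ <;> first
      | exact Or.inl e | exact Or.inr e | (rw [h] at ha; simp at ha)
  have u1 : ∀ a : ι × Fin 4, ins2 x l m c1 c2 a.1 a.2 = Sum.inr 1 → a = (c2, 0) ∨ a = m := by
    intro a ha
    rcases ca a with ⟨e, h⟩ | ⟨e, h⟩ | ⟨e, h⟩ | ⟨e, h⟩ | ⟨e, h⟩ | ⟨e, h⟩ | ⟨e, h⟩ | ⟨e, h⟩ |
      ⟨e, h⟩ | ⟨e, h⟩ | ⟨-, -, -, -, h⟩ <;> first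
      | exact Or.inl e | exact Or.inr e | (rw [h] at ha; simp at ha)
  have u2 : ∀ a : ι × Fin 4, ins2 x l m c1 c2 a.1 a.2 = Sum.inr 2 →
      a = (c1, 0) ∨ a = (c2, 1) := by
    intro a ha
    rcases ca a with ⟨e, h⟩ | ⟨e, h⟩ | ⟨e, h⟩ | ⟨e, h⟩ | ⟨e, h⟩ | ⟨e, h⟩ | ⟨e, h⟩ | ⟨e, h⟩ |
      ⟨e, h⟩ | ⟨e, h⟩ | ⟨-, -, -, -, h⟩ <;> first
      | exact Or.inl e | exact Or.inr e | (rw [h] at ha; simp at ha)
  have u3 : ∀ a : ι × Fin 4, ins2 x l m c1 c2 a.1 a.2 = Sum.inr 3 →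
      a = (c1, 1) ∨ a = (c2, 3) := by
    intro a ha
    rcases ca a with ⟨e, h⟩ | ⟨e, h⟩ | ⟨e, h⟩ | ⟨e, h⟩ | ⟨e, h⟩ | ⟨e, h⟩ | ⟨e, h⟩ | ⟨e, h⟩ |
      ⟨e, h⟩ | ⟨e, h⟩ | ⟨-, -, -, -, h⟩ <;> first
      | exact Or.inl e | exact Or.inr e | (rw [h] at ha; simp at ha)
  refine mt_sum (fun b => if b = l then (c1, 3) else if b = m then (c1, 2) else b) hL ?_ ?_ ?_
  · intro a ha
    rcases ca a with ⟨e, h⟩ | ⟨e, h⟩ | ⟨e, h⟩ | ⟨e, h⟩ | ⟨e, h⟩ | ⟨e, h⟩ | ⟨e, h⟩ | ⟨e, h⟩ |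
      ⟨e, h⟩ | ⟨e, h⟩ | ⟨e1, e2, e3, e4, h⟩
    · subst e
      exact Or.inr ⟨(c2, 1), s2', fun h' => h12 (Prod.ext_iff.1 h').1.symm, 2, h,
        ins2_c2 h12 1, fun a'' _ h'' => u2 a'' h''⟩
    · subst e
      exact Or.inr ⟨(c2, 3), s2', fun h' => h12 (Prod.ext_iff.1 h').1.symm, 3, h,
        ins2_c2 h12 3, fun a'' _ h'' => u3 a'' h''⟩
    · subst e
      refine Or.inl ⟨m, hm, h, ?_⟩
      simp only [if_neg hlm.symm, if_true]
    · subst e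
      refine Or.inl ⟨l, hl, h, ?_⟩
      simp only [if_true]
    · subst e
      exact Or.inr ⟨m, sS _ hm, fun h' => hm2 (Prod.ext_iff.1 h').1, 1, h,
        ins2_m hlm hm1 hm2, fun a'' _ h'' => u1 a'' h''⟩
    · subst e
      exact Or.inr ⟨(c1, 0), s1', fun h' => h12 (Prod.ext_iff.1 h').1, 2, h,
        ins2_c1 0, fun a'' _ h'' => (u2 a'' h'').symm⟩
    · subst e
      exact Or.inr ⟨l, sS _ hl, fun h' => hl2 (Prod.ext_iff.1 h').1, 0, h,
        ins2_l hl1 hl2, fun a'' _ h'' => u0 a'' h''⟩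
    · subst e
      exact Or.inr ⟨(c1, 1), s1', fun h' => h12 (Prod.ext_iff.1 h').1, 3, h,
        ins2_c1 1, fun a'' _ h'' => (u3 a'' h'').symm⟩
    · subst e
      exact Or.inr ⟨(c2, 2), s2', fun h' => hl2 (Prod.ext_iff.1 h').1.symm, 0, h,
        ins2_c2 h12 2, fun a'' _ h'' => (u0 a'' h'').symm⟩
    · subst e
      exact Or.inr ⟨(c2, 0), s2', fun h' => hm2 (Prod.ext_iff.1 h').1.symm, 1, h,
        ins2_c2 h12 0, fun a'' _ h'' => (u1 a'' h'').symm⟩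
    · refine Or.inl ⟨a, ?_, h, ?_⟩
      · exact ((Finset.mem_insert.1 (ha : a.1 ∈ insert c1 (insert c2 S))).resolve_left
          e1 |> Finset.mem_insert.1).resolve_left e2
      · simp only [if_neg e3, if_neg e4]
  · intro b hb
    have hbS : b.1 ∈ S := hb
    by_cases hbl : b = l
    · simp only [if_pos hbl]
      refine ⟨s1', ?_⟩
      rw [hbl]
      exact ins2_c1 3
    · by_cases hbm : b = m
      · simp only [if_neg hbl, if_pos hbm]
        refine ⟨s1', ?_⟩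
        rw [hbm]
        exact ins2_c1 2
      · simp only [if_neg hbl, if_neg hbm]
        exact ⟨sS _ hbS, ins2_old (fun h => h1 (h ▸ hbS)) (fun h => h2 (h ▸ hbS)) hbl hbm⟩
  · intro b hb b' hb' h
    have hbS : b.1 ≠ c1 := fun h => h1 (h ▸ (hb : b.1 ∈ S))
    have hbS' : b'.1 ≠ c1 := fun h => h1 (h ▸ (hb' : b'.1 ∈ S))
    by_cases hbl : b = l <;> by_cases hbl' : b' = l
    · rw [hbl, hbl']
    · by_cases hbm' : b' = m
      · simp only [if_pos hbl, if_neg hbl', if_pos hbm'] at h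
        exact absurd (Prod.ext_iff.1 h).2 (show ¬ ((3 : Fin 4) = 2) by decide)
      · simp only [if_pos hbl, if_neg hbl', if_neg hbm'] at h
        exact absurd (Prod.ext_iff.1 h).1.symm hbS'
    · by_cases hbm : b = m
      · simp only [if_neg hbl, if_pos hbl', if_pos hbm] at h
        exact absurd (Prod.ext_iff.1 h).2 (show ¬ ((2 : Fin 4) = 3) by decide)
      · simp only [if_neg hbl, if_pos hbl', if_neg hbm] at h
        exact absurd (Prod.ext_iff.1 h).1 hbS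
    · by_cases hbm : b = m <;> by_cases hbm' : b' = m
      · rw [hbm, hbm']
      · simp only [if_neg hbl, if_neg hbl', if_pos hbm, if_neg hbm'] at h
        exact absurd (Prod.ext_iff.1 h).1.symm hbS'
      · simp only [if_neg hbl, if_neg hbl', if_neg hbm, if_pos hbm'] at h
        exact absurd (Prod.ext_iff.1 h).1 hbS
      · simp only [if_neg hbl, if_neg hbl', if_neg hbm, if_neg hbm'] at h
        exact h

theorem ins2_Ex (hL : Legit W x S) {l m : ι × Fin 4} {c1 c2 : ι} (hl : l.1 ∈ S)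
    (hm : m.1 ∈ S) (hlm : l ≠ m) (h12 : c1 ≠ c2) (h1 : c1 ∉ S) (h2 : c2 ∉ S) {h : ℕ}
    (H : Ex tt (sumS 4 W) (ins2 x l m c1 c2) (insert c1 (insert c2 S)) (h + 1)) :
    Ex tt W x S h := by
  have hl1 : l.1 ≠ c1 := fun h => h1 (h ▸ hl)
  have hl2 : l.1 ≠ c2 := fun h => h2 (h ▸ hl)
  have hm1 : m.1 ≠ c1 := fun h => h1 (h ▸ hm)
  have hm2 : m.1 ≠ c2 := fun h => h2 (h ▸ hm)
  obtain ⟨x2, hx2⟩ : ∃ x2 : ι → Fin 4 → Pt ⊕ Fin 4, x2 = fun c => if c = c1 then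
    ![ins2 x l m c1 c2 c 3, ins2 x l m c1 c2 c 2, ins2 x l m c1 c2 c 1, ins2 x l m c1 c2 c 0]
    else if c = c2 then
    ![ins2 x l m c1 c2 c 1, ins2 x l m c1 c2 c 0, ins2 x l m c1 c2 c 3, ins2 x l m c1 c2 c 2]
    else ins2 x l m c1 c2 c := ⟨_, rfl⟩
  have hV : ∀ c ∈ insert c1 (insert c2 S), V4 (ins2 x l m c1 c2 c) (x2 c) := by
    intro c _
    rw [hx2]
    by_cases hc : c = c1
    · simp only [if_pos hc]
      exact Or.inr (Or.inr (Or.inr rfl))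
    · by_cases hc2 : c = c2
      · simp only [if_neg hc, if_pos hc2]
        exact Or.inr (Or.inl rfl)
      · simp only [if_neg hc, if_neg hc2]
        exact Or.inl rfl
  have e1 : x2 c1 = ![Sum.inl (x l.1 l.2), Sum.inl (x m.1 m.2), Sum.inr 3, Sum.inr 2] := by
    rw [hx2]
    simp only [if_true, ins2_c1]
    rfl
  have e2 : x2 c2 = ![Sum.inr 2, Sum.inr 1, Sum.inr 3, Sum.inr 0] := by
    rw [hx2]
    simp only [if_neg h12.symm, if_true, ins2_c2 h12]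
    rfl
  have hL2 := legit_V4 (ins2_legit hL hl hm hlm h12 h1 h2) hV
  have H2 := Ex_V4 hV H
  have hP : Pat (sumS 4 W) x2 S c1 c2 := by
    refine ⟨h12, h1, h2, hL2, ?_, ?_⟩
    · rw [e1, e2]
      exact (sumS 4 W).refl _
    · rw [e1, e2]
      exact (sumS 4 W).refl _
  have H3 : Ex tt (sumS 4 W ⊔ s1 (x2 c1) ⊔ s0 (x2 c2)) x2 S h := R2up eok_tt hP H2
  have hs : sumS 4 W ⊔ s1 (x2 c1) ⊔ s0 (x2 c2) = Setoid.comap
      (Sum.elim id ![x l.1 l.2, x m.1 m.2, x m.1 m.2, x l.1 l.2]) W := by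
    have r1 : (sumS 4 W ⊔ s1 (x2 c1) ⊔ s0 (x2 c2)) (x2 c1 0) (x2 c1 2) ∧
        (sumS 4 W ⊔ s1 (x2 c1) ⊔ s0 (x2 c2)) (x2 c1 1) (x2 c1 3) :=
      s1_le.1 (le_trans le_sup_right le_sup_left)
    have r0 : (sumS 4 W ⊔ s1 (x2 c1) ⊔ s0 (x2 c2)) (x2 c2 0) (x2 c2 1) ∧
        (sumS 4 W ⊔ s1 (x2 c1) ⊔ s0 (x2 c2)) (x2 c2 2) (x2 c2 3) := s0_le.1 le_sup_right
    rw [e1, e2] at r0 r1 ⊢
    refine comap_eq _ (sup_le (sup_le (sumS_le_comap _) (s1_le.2 ⟨W.refl _, W.refl _⟩))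
      (s0_le.2 ⟨W.refl _, W.refl _⟩)) (le_trans le_sup_left le_sup_left) ?_
    intro i
    fin_cases i
    · exact Setoid.trans' _ (Setoid.symm' _ r0.2) (Setoid.symm' _ r1.1)
    · exact Setoid.trans' _ (Setoid.symm' _ r0.1) (Setoid.symm' _ r1.2)
    · exact Setoid.symm' _ r1.2
    · exact Setoid.symm' _ r1.1
  rw [hs] at H3
  have H4 := Ex_comap _ (elim_surj _) x2 H3
  refine Ex_congr_x (fun c hc => ?_) H4
  have hc1 : c ≠ c1 := fun h => h1 (h ▸ hc)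
  have hc2 : c ≠ c2 := fun h => h2 (h ▸ hc)
  funext k
  rw [hx2]
  simp only [if_neg hc1, if_neg hc2]
  by_cases hcl : (c, k) = l
  · have e : ins2 x l m c1 c2 c k = Sum.inr 0 := by
      have := ins2_l (x := x) (m := m) hl1 hl2
      rw [← hcl] at this ⊢
      exact this
    rw [e, ← hcl]
    rfl
  · by_cases hcm : (c, k) = m
    · have e : ins2 x l m c1 c2 c k = Sum.inr 1 := by
        have := ins2_m (x := x) hlm hm1 hm2
        rw [← hcm] at this ⊢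
        exact this
      rw [e, ← hcm]
      rfl
    · rw [show ins2 x l m c1 c2 c k = Sum.inl (x c k) from
        ins2_old (a := (c, k)) hc1 hc2 hcl hcm]
      rfl

end Pool.HPS
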