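import Pool.Agent.HPS.Ub

/-!
# Project HPS: the Lee complex of the standard diagram of `H_p` in `RP^2`

`H_p` is the projective closure of the positive half twist on `2p` strands, `p = q + 1`; the first
`p` strands are oriented upwards, the last `p` downwards.  In the half twist strand `i` meets the
other strands `0, …, i-1, i+1, …, 2p-1` in this order, and then it crosses the line at infinity of
`RP^2` and closes up.
-/

set_option autoImplicit false

open Finset MvPolynomial

namespace Pool.HPS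

noncomputable section

/-! ## General part: cubes of smoothings -/

variable {Pt ι : Type} [DecidableEq ι]

open Classical in
/-- The saddle coefficient at `c` from the state `r` to the state `insert c r`: `1` for a merge,
`X_a + X_b` for a split (`a, b` on the two new circles) and `0` for a `1 → 1` bifurcation. -/
def kL (K : Type) [CommRing K] (W : Setoid Pt) (x : ι → Fin 4 → Pt) (S r : Finset ι) (c : ι) :
    MvPolynomial Pt K :=
  if ¬ U W x S r (x c 0) (x c 2) then 1
  else if ¬ U W x S (insert c r) (x c 0) (x c 1) then X (x c 0) + X (x c 1) else 0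

/-- The differential with signs `σ`. -/
def dL (K : Type) [CommRing K] (W : Setoid Pt) (x : ι → Fin 4 → Pt) (S : Finset ι)
    (σ : Finset ι → ι → ℤ) (w : Finset ι → MvPolynomial Pt K) (r : Finset ι) :
    MvPolynomial Pt K :=
  ∑ c ∈ r, C (σ (r.erase c) c : K) * kL K W x S (r.erase c) c * w (r.erase c)

/-- The number of circles of the state `r`. -/
def circ (W : Setoid Pt) (x : ι → Fin 4 → Pt) (S r : Finset ι) : ℕ :=
  Nat.card (Quotient (U W x S r))

/-! ## The diagram of `H_p`, `p = q + 1` -/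

/-- Half-edges: `(i, t, false)` and `(i, t, true)` are the points of strand `i` just before and just
after its `t`-th crossing. -/
abbrev HE (q : ℕ) : Type := Fin (2 * q + 2) × Fin (2 * q + 1) × Bool

/-- The half-edge of strand `i` before (`s = false`) or after (`s = true`) its crossing with the
strand `j`. -/
def he (q : ℕ) (i j : ℕ) (s : Bool) : HE q :=
  (Fin.ofNat (2 * q + 2) i, Fin.ofNat (2 * q + 1) (if j < i then j else j - 1), s)

/-- The wire of a half-edge: the `t`-th wire of strand `i` leads from its `t`-th crossing to its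
`(t+1)`-th crossing (cyclically). -/
def wire (q : ℕ) (h : HE q) : Fin (2 * q + 2) × Fin (2 * q + 1) :=
  (h.1, if h.2.2 then h.2.1 else h.2.1 - 1)

/-- Half-edges on the same wire. -/
def wires (q : ℕ) : Setoid (HE q) := Setoid.ker (wire q)

/-- The crossings: pairs `(i, j)`, `i < j < 2p`. -/
def cr (q : ℕ) : Finset (ℕ × ℕ) := fl (2 * q + 2)

/-- The four half-edges at a crossing. -/
def hx (q : ℕ) : ℕ × ℕ → Fin 4 → HE q := qd (he q)

/-- The last wire of a strand crosses the line at infinity, where dots change sign. -/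
def eps (q : ℕ) (t : Fin (2 * q + 1)) : ℤ := if t = Fin.last (2 * q) then -1 else 1

/-- The ideal of relations of the algebra of the state `r` (Lee deformation: `X² = 1`): a dot may be
moved along the circles, and it changes sign when it crosses the line at infinity. -/
def IL (K : Type) [CommRing K] (q : ℕ) (r : Finset (ℕ × ℕ)) : Ideal (MvPolynomial (HE q) K) :=
  Ideal.span ({f | ∃ h, f = X h ^ 2 - 1} ∪
    {f | ∃ i t, f = X (i, t, true) - C (eps q t : K) * X (i, t + 1, false)} ∪
    {f | ∃ c ∈ cr q, c ∉ r ∧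
      (f = X (hx q c 0) - X (hx q c 1) ∨ f = X (hx q c 2) - X (hx q c 3))} ∪
    {f | ∃ c ∈ cr q, c ∈ r ∧
      (f = X (hx q c 0) - X (hx q c 2) ∨ f = X (hx q c 1) - X (hx q c 3))})

/-- Sign assignments: the faces of the cube anticommute. -/
structure IsSign (q : ℕ) (σ : Finset (ℕ × ℕ) → ℕ × ℕ → ℤ) : Prop where
  pm : ∀ r c, σ r c = 1 ∨ σ r c = -1
  face : ∀ r, r ⊆ cr q → ∀ c ∈ cr q, ∀ c' ∈ cr q, c ∉ r → c' ∉ r → c ≠ c' →
    C (σ r c * σ (insert c r) c' : ℚ) * (kL ℚ (wires q) (hx q) (cr q) r c *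
        kL ℚ (wires q) (hx q) (cr q) (insert c r) c') +
      C (σ r c' * σ (insert c' r) c : ℚ) * (kL ℚ (wires q) (hx q) (cr q) r c' *
        kL ℚ (wires q) (hx q) (cr q) (insert c' r) c) ∈ IL ℚ q (insert c (insert c' r))

/-- The quantum degree of a monomial of degree `d` at the state `r`: `#circles - 2d + |r| + n₊ -
2n₋` with `n₊ = p(p-1)` and `n₋ = p²`. -/
def qlev (q : ℕ) (r : Finset (ℕ × ℕ)) (d : ℕ) : ℤ :=
  (circ (wires q) (hx q) (cr q) r : ℤ) - 2 * d + r.card + (q + 1) * q - 2 * (q + 1) ^ 2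

/-- The `j`-th step of the quantum filtration at the state `r`. -/
def InF (K : Type) [CommRing K] (q : ℕ) (r : Finset (ℕ × ℕ)) (j : ℤ)
    (f : MvPolynomial (HE q) K) : Prop :=
  ∃ g, f - g ∈ IL K q r ∧ ∀ m ∈ g.support, j ≤ qlev q r m.degree

/-- A cochain `z` in homological degree `0` (i.e. `|r| = n₋ = p²`) is cohomologous to a cochain in
the `j`-th step of the filtration. -/
def HasRep (q : ℕ) (σ : Finset (ℕ × ℕ) → ℕ × ℕ → ℤ)
    (z : Finset (ℕ × ℕ) → MvPolynomial (HE q) ℚ) (j : ℤ) : Prop :=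
  ∃ w : Finset (ℕ × ℕ) → MvPolynomial (HE q) ℚ, ∀ r, r ⊆ cr q → r.card = (q + 1) ^ 2 →
    InF ℚ q r j (z r + dL ℚ (wires q) (hx q) (cr q) σ w r)

/-- The quantum filtration degree of the class of `z`. -/
def qdeg (q : ℕ) (σ : Finset (ℕ × ℕ) → ℕ × ℕ → ℤ)
    (z : Finset (ℕ × ℕ) → MvPolynomial (HE q) ℚ) : ℤ := sSup {j : ℤ | HasRep q σ z j}

/-- The oriented resolution: strands `i < p ≤ j` are antiparallel. -/
def rO (q : ℕ) : Finset (ℕ × ℕ) := (cr q).filter (fun c => c.1 < q + 1 ∧ q + 1 ≤ c.2)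

/-- The signs of the Lee generator: orientation `o_i` of the strand, times `(-1)^(i+t)`, times `-1`
after the crossing. -/
def eo (q : ℕ) (h : HE q) : ℤ :=
  (if (h.1 : ℕ) < q + 1 then 1 else -1) * (-1) ^ ((h.1 : ℕ) + (h.2.1 : ℕ)) *
    (if h.2.2 then -1 else 1)

/-- The Lee generator `s_o` (`d = 1`) or `s_ō` (`d = -1`): the product of the idempotents
`(1 ± X_h)/2` at the oriented resolution. -/
def sO (q : ℕ) (d : ℤ) (r : Finset (ℕ × ℕ)) : MvPolynomial (HE q) ℚ :=
  if r = rO q then ∏ h : HE q, C (1 / 2) * (1 + C ((d * eo q h : ℤ) : ℚ) * X h) else 0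

/-- The s-invariant of `H_p`, `p = q + 1`. -/
def sInv (q : ℕ) (σ : Finset (ℕ × ℕ) → ℕ × ℕ → ℤ) : ℚ :=
  ((qdeg q σ (fun r => sO q 1 r + sO q (-1) r) : ℚ) +
    (qdeg q σ (fun r => sO q 1 r - sO q (-1) r) : ℚ)) / 2

end

end Pool.HPS
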