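import Pool.Agent.HPS.Ub

/-!
# Module HPS-Leg: legitimate systems stay legitimate under smoothing

The relation `W ⊔ pr a b`, joining two labels of a perfect matching, smoothing of crossings, and the
invariance of legitimate systems under relabelling and reindexing.
-/

set_option autoImplicit false

open Finset MvPolynomial

namespace Pool.HPS

variable {Pt ι : Type}

theorem sup_pr (W : Setoid Pt) (a b p q : Pt) :
    (W ⊔ pr a b) p q ↔ W p q ∨ (W p a ∧ W b q) ∨ (W p b ∧ W a q) := by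
  constructor
  · intro h
    let R : Setoid Pt :=
      { r := fun p q => W p q ∨ (W p a ∧ W b q) ∨ (W p b ∧ W a q)
        iseqv := by
          refine ⟨fun p => Or.inl (W.refl p), ?_, ?_⟩
          · rintro u v (h | ⟨h1, h2⟩ | ⟨h1, h2⟩)
            · exact Or.inl (W.symm h)
            · exact Or.inr (Or.inr ⟨W.symm h2, W.symm h1⟩)
            · exact Or.inr (Or.inl ⟨W.symm h2, W.symm h1⟩)
          · rintro u v w (h | ⟨h1, h2⟩ | ⟨h1, h2⟩) (h' | ⟨h1', h2'⟩ | ⟨h1', h2'⟩)
            · exact Or.inl (W.trans h h')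
            · exact Or.inr (Or.inl ⟨W.trans h h1', h2'⟩)
            · exact Or.inr (Or.inr ⟨W.trans h h1', h2'⟩)
            · exact Or.inr (Or.inl ⟨h1, W.trans h2 h'⟩)
            · exact Or.inr (Or.inl ⟨h1, h2'⟩)
            · exact Or.inl (W.trans h1 h2')
            · exact Or.inr (Or.inr ⟨h1, W.trans h2 h'⟩)
            · exact Or.inl (W.trans h1 h2')
            · exact Or.inr (Or.inr ⟨h1, h2'⟩) }
    have hle : W ⊔ pr a b ≤ R := by
      apply sup_le
      · intro u v huv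
        exact Or.inl huv
      · rw [pr_le]
        exact Or.inr (Or.inl ⟨W.refl a, W.refl b⟩)
    exact hle h
  · have hW : W ≤ W ⊔ pr a b := le_sup_left
    have hab : (W ⊔ pr a b) a b := (le_sup_right : pr a b ≤ W ⊔ pr a b) (pr_rel a b)
    rintro (h | ⟨h1, h2⟩ | ⟨h1, h2⟩)
    · exact hW h
    · exact Setoid.trans' _ (hW h1) (Setoid.trans' _ hab (hW h2))
    · exact Setoid.trans' _ (hW h1) (Setoid.trans' _ (Setoid.symm' _ hab) (hW h2))

theorem mt_join {L : Type} {F : Set L} {W : Setoid Pt} {y : L → Pt} (h : Mt F W y) {a b : L}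
    (ha : a ∈ F) (hb : b ∈ F) (hab : a ≠ b) : Mt (F \ {a, b}) (W ⊔ pr (y a) (y b)) y := by
  have uq : ∀ l ∈ F, ∀ u ∈ F, ∀ v ∈ F, u ≠ l → v ≠ l → W (y l) (y u) → W (y l) (y v) → u = v := by
    intro l hl u hu v hv hul hvl h1 h2
    obtain ⟨m, -, -, -, hm⟩ := h l hl
    rw [hm u hu hul h1, hm v hv hvl h2]
  intro l hl
  obtain ⟨hlF, hlab⟩ := hl
  have hla : l ≠ a := fun e => hlab (Or.inl e)
  have hlb : l ≠ b := fun e => hlab (Or.inr e)
  obtain ⟨l1, hl1F, hl1l, hl1, hu1⟩ := h l hlF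
  by_cases e1 : l1 = a
  · subst e1
    obtain ⟨b', hb'F, hb'b, hb', hub'⟩ := h b hb
    have hb'a : b' ≠ l1 := by
      intro e
      rw [e] at hb'
      have := uq l1 ha l hlF b hb hla (Ne.symm hab) (W.symm hl1) (W.symm hb')
      exact hlb this
    have hb'l : b' ≠ l := by
      intro e
      rw [e] at hb'
      have := uq l hlF l1 ha b hb hl1l (Ne.symm hlb) hl1 (W.symm hb')
      exact hab this
    refine ⟨b', ⟨hb'F, ?_⟩, hb'l, ?_, ?_⟩
    · rintro (e | e)
      · exact hb'a e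
      · exact hb'b e
    · rw [sup_pr]
      exact Or.inr (Or.inl ⟨hl1, hb'⟩)
    · intro l2 hl2 hl2l hl2W
      obtain ⟨hl2F, hl2ab⟩ := hl2
      have hl2a : l2 ≠ l1 := fun e => hl2ab (Or.inl e)
      have hl2b : l2 ≠ b := fun e => hl2ab (Or.inr e)
      rw [sup_pr] at hl2W
      rcases hl2W with hw | ⟨hw1, hw2⟩ | ⟨hw1, hw2⟩
      · exact absurd (hu1 l2 hl2F hl2l hw) hl2a
      · exact hub' l2 hl2F hl2b hw2
      · exact absurd (uq l hlF l1 ha b hb hl1l (Ne.symm hlb) hl1 hw1) hab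
  · by_cases e2 : l1 = b
    · subst e2
      obtain ⟨a', ha'F, ha'a, ha', hua'⟩ := h a ha
      have ha'b : a' ≠ l1 := by
        intro e
        rw [e] at ha'
        have := uq l1 hb l hlF a ha hlb hab (W.symm hl1) (W.symm ha')
        exact hla this
      have ha'l : a' ≠ l := by
        intro e
        rw [e] at ha'
        have := uq l hlF l1 hb a ha hl1l (Ne.symm hla) hl1 (W.symm ha')
        exact hab this.symm
      refine ⟨a', ⟨ha'F, ?_⟩, ha'l, ?_, ?_⟩
      · rintro (e | e)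
        · exact ha'a e
        · exact ha'b e
      · rw [sup_pr]
        exact Or.inr (Or.inr ⟨hl1, ha'⟩)
      · intro l2 hl2 hl2l hl2W
        obtain ⟨hl2F, hl2ab⟩ := hl2
        have hl2a : l2 ≠ a := fun e => hl2ab (Or.inl e)
        have hl2b : l2 ≠ l1 := fun e => hl2ab (Or.inr e)
        rw [sup_pr] at hl2W
        rcases hl2W with hw | ⟨hw1, hw2⟩ | ⟨hw1, hw2⟩
        · exact absurd (hu1 l2 hl2F hl2l hw) hl2b
        · exact absurd (uq l hlF a ha l1 hb (Ne.symm hla) hl1l hw1 hl1) hab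
        · exact hua' l2 hl2F hl2a hw2
    · refine ⟨l1, ⟨hl1F, ?_⟩, hl1l, ?_, ?_⟩
      · rintro (e | e)
        · exact e1 e
        · exact e2 e
      · rw [sup_pr]
        exact Or.inl hl1
      · intro l2 hl2 hl2l hl2W
        obtain ⟨hl2F, hl2ab⟩ := hl2
        rw [sup_pr] at hl2W
        rcases hl2W with hw | ⟨hw1, hw2⟩ | ⟨hw1, hw2⟩
        · exact hu1 l2 hl2F hl2l hw
        · exact absurd (hu1 a ha (Ne.symm hla) hw1).symm e1
        · exact absurd (hu1 b hb (Ne.symm hlb) hw1).symm e2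

variable [DecidableEq ι] {W : Setoid Pt} {x : ι → Fin 4 → Pt} {S T : Finset ι} {c c' : ι}

private theorem lab_set (hc : c ∉ S) (p q r s : Fin 4)
    (hall : ∀ j : Fin 4, j = p ∨ j = q ∨ j = r ∨ j = s) :
    (({l : ι × Fin 4 | l.1 ∈ insert c S} \ {(c, p), (c, q)}) \ {(c, r), (c, s)} : Set (ι × Fin 4))
      = {l : ι × Fin 4 | l.1 ∈ S} := by
  ext ⟨i, j⟩
  simp only [Set.mem_sdiff, Set.mem_setOf_eq, Finset.mem_insert, Set.mem_insert_iff,
    Set.mem_singleton_iff, Prod.mk.injEq]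
  constructor
  · rintro ⟨⟨h1, h2⟩, h3⟩
    rcases h1 with h1 | h1
    · exfalso
      rcases hall j with e | e | e | e
      · exact h2 (Or.inl ⟨h1, e⟩)
      · exact h2 (Or.inr ⟨h1, e⟩)
      · exact h3 (Or.inl ⟨h1, e⟩)
      · exact h3 (Or.inr ⟨h1, e⟩)
    · exact h1
  · intro h1
    have hic : i ≠ c := fun e => hc (e ▸ h1)
    refine ⟨⟨Or.inr h1, ?_⟩, ?_⟩
    · rintro (⟨e, -⟩ | ⟨e, -⟩) <;> exact hic e
    · rintro (⟨e, -⟩ | ⟨e, -⟩) <;> exact hic e

private theorem mt_two {p q r s : Fin 4} (h : Legit W x (insert c S)) (hc : c ∉ S)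
    (hpq : p ≠ q) (hrs : r ≠ s) (hrp : r ≠ p) (hrq : r ≠ q) (hsp : s ≠ p) (hsq : s ≠ q)
    (hall : ∀ j : Fin 4, j = p ∨ j = q ∨ j = r ∨ j = s) :
    Legit (W ⊔ (pr (x c p) (x c q) ⊔ pr (x c r) (x c s))) x S := by
  have hmem : ∀ j : Fin 4, ((c, j) : ι × Fin 4) ∈ {l : ι × Fin 4 | l.1 ∈ insert c S} := by
    intro j
    exact Finset.mem_insert_self c S
  have h1 := mt_join h (hmem p) (hmem q) (fun e => hpq (Prod.ext_iff.1 e).2)
  have hr1 : ((c, r) : ι × Fin 4) ∈ ({l : ι × Fin 4 | l.1 ∈ insert c S} \ {(c, p), (c, q)} :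
      Set (ι × Fin 4)) := by
    refine ⟨hmem r, ?_⟩
    rintro (e | e)
    · exact hrp (Prod.ext_iff.1 e).2
    · exact hrq (Prod.ext_iff.1 e).2
  have hs1 : ((c, s) : ι × Fin 4) ∈ ({l : ι × Fin 4 | l.1 ∈ insert c S} \ {(c, p), (c, q)} :
      Set (ι × Fin 4)) := by
    refine ⟨hmem s, ?_⟩
    rintro (e | e)
    · exact hsp (Prod.ext_iff.1 e).2
    · exact hsq (Prod.ext_iff.1 e).2
  have h2 := mt_join h1 hr1 hs1 (fun e => hrs (Prod.ext_iff.1 e).2)
  rw [lab_set hc p q r s hall] at h2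
  rw [Legit, ← sup_assoc]
  exact h2

theorem legit0 (h : Legit W x (insert c S)) (hc : c ∉ S) : Legit (W ⊔ s0 (x c)) x S := by
  rw [s0]
  exact mt_two h hc (by decide) (by decide) (by decide) (by decide) (by decide) (by decide)
    (by decide)

theorem legit1 (h : Legit W x (insert c S)) (hc : c ∉ S) : Legit (W ⊔ s1 (x c)) x S := by
  rw [s1]
  exact mt_two h hc (by decide) (by decide) (by decide) (by decide) (by decide) (by decide)
    (by decide)

/-- Smoothing the crossings of `T`. -/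
theorem legit_U (h : Legit W x (S ∪ T)) (hST : Disjoint S T) (r : Finset ι) :
    Legit (U W x T r) x S := by
  induction T using Finset.induction_on generalizing W with
  | empty =>
    rw [U_empty]
    rw [Finset.union_empty] at h
    exact h
  | insert c T hcT ih =>
    rw [Finset.disjoint_insert_right] at hST
    have hc : c ∉ S ∪ T := by
      rw [Finset.mem_union]
      rintro (e | e)
      · exact hST.1 e
      · exact hcT e
    rw [Finset.union_insert] at h
    by_cases hr : c ∈ r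
    · rw [U_ins1 hr]
      exact ih (legit1 h hc) hST.2
    · rw [U_ins0 hr]
      exact ih (legit0 h hc) hST.2

theorem legit_sdiff (h : Legit W x S) (hT : T ⊆ S) (r : Finset ι) :
    Legit (U W x T r) x (S \ T) := by
  apply legit_U _ Finset.sdiff_disjoint
  rw [Finset.sdiff_union_of_subset hT]
  exact h

theorem legit_one (h : Legit W x S) (hc : c ∈ S) (r : Finset ι) :
    Legit (U W x (S.erase c) r) x {c} := by
  have h1 := legit_sdiff h (Finset.erase_subset c S) r
  have h2 : S \ S.erase c = {c} := by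
    ext i
    simp only [Finset.mem_sdiff, Finset.mem_erase, Finset.mem_singleton, not_and]
    constructor
    · rintro ⟨h1, h2⟩
      by_contra hne
      exact h2 hne h1
    · rintro rfl
      exact ⟨hc, fun hne => absurd rfl hne⟩
  rwa [h2] at h1

theorem legit_two (h : Legit W x S) (hc : c ∈ S) (hc' : c' ∈ S) (hne : c ≠ c') (r : Finset ι) :
    Legit (U W x ((S.erase c).erase c') r) x {c, c'} := by
  have h1 := legit_sdiff h ((Finset.erase_subset c' (S.erase c)).trans (Finset.erase_subset c S)) r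
  have h2 : S \ (S.erase c).erase c' = {c, c'} := by
    ext i
    simp only [Finset.mem_sdiff, Finset.mem_erase, Finset.mem_singleton, Finset.mem_insert,
      not_and]
    constructor
    · rintro ⟨h1, h2⟩
      by_contra hno
      rw [not_or] at hno
      exact h2 hno.2 hno.1 h1
    · rintro (rfl | rfl)
      · exact ⟨hc, fun _ hne' => absurd rfl hne'⟩
      · exact ⟨hc', fun hne' => absurd rfl hne'⟩
  rwa [h2] at h1

/-- The points may be changed as long as the labels keep their points. -/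
theorem legit_congr {x' : ι → Fin 4 → Pt} (h : Legit W x S) (hx : ∀ c ∈ S, x c = x' c) :
    Legit W x' S := by
  intro l hl
  obtain ⟨l', hl', hne, hW, hu⟩ := h l hl
  have e : ∀ m : ι × Fin 4, m ∈ {l : ι × Fin 4 | l.1 ∈ S} → x' m.1 m.2 = x m.1 m.2 := by
    intro m hm
    rw [hx m.1 hm]
  refine ⟨l', hl', hne, ?_, ?_⟩
  · show W (x' l.1 l.2) (x' l'.1 l'.2)
    rw [e l hl, e l' hl']
    exact hW
  · intro m hm hml hmW
    apply hu m hm hml
    have hmW' : W (x' l.1 l.2) (x' m.1 m.2) := hmW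
    rw [e l hl, e m hm] at hmW'
    exact hmW'

private theorem mt_invol {L : Type} {F : Set L} {W : Setoid Pt} {y y' : L → Pt} (h : Mt F W y)
    (e : L → L) (heF : ∀ l ∈ F, e l ∈ F) (hee : ∀ l ∈ F, e (e l) = l)
    (hy : ∀ l ∈ F, y' l = y (e l)) : Mt F W y' := by
  intro l hl
  obtain ⟨m, hm, hne, hW, hu⟩ := h (e l) (heF l hl)
  refine ⟨e m, heF m hm, ?_, ?_, ?_⟩
  · intro h1
    apply hne
    rw [← h1, hee m hm]
  · rw [hy l hl, hy (e m) (heF m hm), hee m hm]
    exact hW
  · intro k hk hkl hkW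
    rw [hy l hl, hy k hk] at hkW
    have h1 : e k ≠ e l := by
      intro h2
      apply hkl
      rw [← hee k hk, h2, hee l hl]
    rw [← hu (e k) (heF k hk) h1 hkW, hee k hk]

/-- Relabelling crossings by `V4` does not matter. -/
theorem legit_V4 {x' : ι → Fin 4 → Pt} (h : Legit W x S) (hx : ∀ c ∈ S, V4 (x c) (x' c)) :
    Legit W x' S := by
  have hσ : ∀ c ∈ S, ∃ σ : Fin 4 → Fin 4, (∀ j, σ (σ j) = j) ∧ ∀ j, x' c j = x c (σ j) := by
    intro c hc
    rcases hx c hc with e | e | e | e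
    · exact ⟨fun j => j, fun j => rfl, fun j => by rw [e]⟩
    · refine ⟨![1, 0, 3, 2], by decide, ?_⟩
      intro j
      rw [e]
      fin_cases j <;> rfl
    · refine ⟨![2, 3, 0, 1], by decide, ?_⟩
      intro j
      rw [e]
      fin_cases j <;> rfl
    · refine ⟨![3, 2, 1, 0], by decide, ?_⟩
      intro j
      rw [e]
      fin_cases j <;> rfl
  choose! σ h1 h2 using hσ
  refine mt_invol h (fun l => (l.1, σ l.1 l.2)) ?_ ?_ ?_
  · intro l hl
    exact hl
  · intro l hl
    have := h1 l.1 hl l.2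
    show (l.1, σ l.1 (σ l.1 l.2)) = l
    rw [this]
  · intro l hl
    exact h2 l.1 hl l.2

/-- Reindexing along an injective map. -/
theorem legit_image {ι' : Type} [DecidableEq ι'] (φ : ι' → ι) (S' : Finset ι')
    (hφ : Set.InjOn φ (S' : Set ι')) (h : Legit W x (S'.image φ)) :
    Legit W (fun c => x (φ c)) S' := by
  rintro ⟨c, j⟩ hl
  have hc : c ∈ S' := hl
  obtain ⟨⟨d, k⟩, hd, hne, hW, hu⟩ := h (φ c, j) (Finset.mem_image_of_mem φ hc)
  have hd' : d ∈ S'.image φ := hd
  obtain ⟨d0, hd0, rfl⟩ := Finset.mem_image.1 hd'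
  refine ⟨(d0, k), hd0, ?_, hW, ?_⟩
  · intro e
    apply hne
    obtain ⟨e1, e2⟩ := Prod.ext_iff.1 e
    exact Prod.ext (congrArg φ e1) e2
  · rintro ⟨e, m⟩ he hem heW
    have he' : e ∈ S' := he
    have h3 : ((φ e, m) : ι × Fin 4) ≠ (φ c, j) := by
      intro h4
      apply hem
      obtain ⟨e1, e2⟩ := Prod.ext_iff.1 h4
      exact Prod.ext (hφ he' hc e1) e2
    have h5 := hu (φ e, m) (Finset.mem_image_of_mem φ he') h3 heW
    obtain ⟨e1, e2⟩ := Prod.ext_iff.1 h5
    exact Prod.ext (hφ he' hd0 e1) e2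

end Pool.HPS
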