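import Pool.Agent.HPS.Sad

/-!
# Module HPS-Loop: algebra of a free loop

`L` is a set of points which is a class of the setoid `V` (a closed circle): `IsLoop V L a`.
Writing `f = u f + X_a v f` (mod `I V`) with `u f, v f` free of the points of `L`.
-/

set_option autoImplicit false

open Finset MvPolynomial

namespace Pool.HPS

variable {Pt : Type}

open Classical in
/-- Loop points to `ε`, the others to themselves. -/
noncomputable def th (L : Set Pt) : Rg Pt →ₐ[ZMod 2] DualNumber (Rg Pt) :=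
  aeval (fun p => if p ∈ L then DualNumber.eps else TrivSqZeroExt.inl (X p))

noncomputable def uu (L : Set Pt) (f : Rg Pt) : Rg Pt := (th L f).fst

noncomputable def vv (L : Set Pt) (f : Rg Pt) : Rg Pt := (th L f).snd

open Classical in
/-- Substitute `X q` for the loop points. -/
noncomputable def rho (L : Set Pt) (q : Pt) : Rg Pt →ₐ[ZMod 2] Rg Pt :=
  aeval (fun p => if p ∈ L then X q else X p)

/-- `L` is the class of `a` in `V`. -/
def IsLoop (V : Setoid Pt) (L : Set Pt) (a : Pt) : Prop := ∀ p, p ∈ L ↔ V a p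

variable {L : Set Pt} {V : Setoid Pt} {a q : Pt}

private theorem th_X_mem {p : Pt} (hp : p ∈ L) : th L (X p : Rg Pt) = DualNumber.eps := by
  simp [th, hp]

private theorem th_X_not {p : Pt} (hp : p ∉ L) :
    th L (X p : Rg Pt) = TrivSqZeroExt.inl (X p) := by
  simp [th, hp]

private theorem two_zero (f : Rg Pt) : f + f = 0 := CharTwo.add_self_eq_zero f

theorem uu_add (f g : Rg Pt) : uu L (f + g) = uu L f + uu L g := by
  simp [uu]

theorem vv_add (f g : Rg Pt) : vv L (f + g) = vv L f + vv L g := by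
  simp [vv]

theorem uu_zero : uu L (0 : Rg Pt) = 0 := by
  simp [uu]

theorem vv_zero : vv L (0 : Rg Pt) = 0 := by
  simp [vv]

theorem uu_one : uu L (1 : Rg Pt) = 1 := by
  simp [uu]

theorem uu_sum {ι : Type} (s : Finset ι) (f : ι → Rg Pt) :
    uu L (∑ i ∈ s, f i) = ∑ i ∈ s, uu L (f i) := by
  classical
  induction s using Finset.induction_on with
  | empty => simp [uu_zero]
  | insert i s hi ih => rw [Finset.sum_insert hi, Finset.sum_insert hi, uu_add, ih]

theorem vv_sum {ι : Type} (s : Finset ι) (f : ι → Rg Pt) :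
    vv L (∑ i ∈ s, f i) = ∑ i ∈ s, vv L (f i) := by
  classical
  induction s using Finset.induction_on with
  | empty => simp [vv_zero]
  | insert i s hi ih => rw [Finset.sum_insert hi, Finset.sum_insert hi, vv_add, ih]

theorem uu_mul (f g : Rg Pt) : uu L (f * g) = uu L f * uu L g := by
  simp [uu]

theorem vv_mul (f g : Rg Pt) : vv L (f * g) = uu L f * vv L g + vv L f * uu L g := by
  simp only [vv, uu, map_mul, TrivSqZeroExt.snd_mul, smul_eq_mul, MulOpposite.smul_eq_mul_unop,
    MulOpposite.unop_op]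

theorem uu_X {p : Pt} (hp : p ∉ L) : uu L (X p : Rg Pt) = X p := by
  simp [uu, th_X_not hp]

theorem uu_X_mem {p : Pt} (hp : p ∈ L) : uu L (X p : Rg Pt) = 0 := by
  simp [uu, th_X_mem hp]

theorem vv_X_mem {p : Pt} (hp : p ∈ L) : vv L (X p : Rg Pt) = 1 := by
  simp [vv, th_X_mem hp]

private theorem vv_X {p : Pt} (hp : p ∉ L) : vv L (X p : Rg Pt) = 0 := by
  simp [vv, th_X_not hp]

private theorem uu_C (c : ZMod 2) : uu L (C c : Rg Pt) = C c := by
  have h : th L (C c : Rg Pt) = algebraMap (ZMod 2) (DualNumber (Rg Pt)) c := by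
    rw [← MvPolynomial.algebraMap_eq]
    exact (th L).commutes c
  rw [uu, h]
  rfl

private theorem vv_C (c : ZMod 2) : vv L (C c : Rg Pt) = 0 := by
  have h : th L (C c : Rg Pt) = algebraMap (ZMod 2) (DualNumber (Rg Pt)) c := by
    rw [← MvPolynomial.algebraMap_eq]
    exact (th L).commutes c
  rw [vv, h]
  rfl

private theorem rho_X_mem {p : Pt} (hp : p ∈ L) : rho L q (X p : Rg Pt) = X q := by
  simp [rho, hp]

private theorem rho_X {p : Pt} (hp : p ∉ L) : rho L q (X p : Rg Pt) = X p := by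
  simp [rho, hp]

private theorem rho_C (c : ZMod 2) : rho L q (C c : Rg Pt) = C c := by
  rw [← MvPolynomial.algebraMap_eq]
  exact (rho L q).commutes c

/-- `uu f` and `vv f` contain no loop points. -/
theorem uu_uu (f : Rg Pt) : uu L (uu L f) = uu L f := by
  induction f using MvPolynomial.induction_on with
  | C c => rw [uu_C, uu_C]
  | add f g hf hg => rw [uu_add, uu_add, hf, hg]
  | mul_X f p hf =>
    rw [uu_mul, uu_mul, hf]
    by_cases hp : p ∈ L
    · rw [uu_X_mem hp, uu_zero]
    · rw [uu_X hp, uu_X hp]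

theorem uu_vv (f : Rg Pt) : uu L (vv L f) = vv L f := by
  induction f using MvPolynomial.induction_on with
  | C c => rw [vv_C, uu_zero]
  | add f g hf hg => rw [vv_add, uu_add, hf, hg]
  | mul_X f p hf =>
    rw [vv_mul, uu_add, uu_mul, uu_mul, hf, uu_uu, uu_uu]
    by_cases hp : p ∈ L
    · rw [vv_X_mem hp, uu_one]
    · rw [vv_X hp, uu_zero]

theorem vv_of_nl {f : Rg Pt} (hf : uu L f = f) : vv L f = 0 := by
  have key : ∀ g : Rg Pt, vv L (uu L g) = 0 := by
    intro g
    induction g using MvPolynomial.induction_on with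
    | C c => rw [uu_C, vv_C]
    | add f g hf hg => rw [uu_add, vv_add, hf, hg, add_zero]
    | mul_X f p hf =>
      rw [uu_mul, vv_mul, hf, zero_mul, add_zero]
      by_cases hp : p ∈ L
      · rw [uu_X_mem hp, vv_zero, mul_zero]
      · rw [uu_X hp, vv_X hp, mul_zero]
  rw [← hf]
  exact key f

theorem rho_of_nl {f : Rg Pt} (hf : uu L f = f) (q : Pt) : rho L q f = f := by
  have key : ∀ g : Rg Pt, rho L q (uu L g) = uu L g := by
    intro g
    induction g using MvPolynomial.induction_on with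
    | C c => rw [uu_C, rho_C]
    | add f g hf hg => rw [uu_add, map_add, hf, hg]
    | mul_X f p hf =>
      rw [uu_mul, map_mul, hf]
      by_cases hp : p ∈ L
      · rw [uu_X_mem hp, map_zero]
      · rw [uu_X hp, rho_X hp]
  rw [← hf]
  exact key f

theorem uu_rho (hq : q ∉ L) (f : Rg Pt) : uu L (rho L q f) = rho L q f := by
  induction f using MvPolynomial.induction_on with
  | C c => rw [rho_C, uu_C]
  | add f g hf hg => rw [map_add, uu_add, hf, hg]
  | mul_X f p hf =>
    rw [map_mul, uu_mul, hf]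
    by_cases hp : p ∈ L
    · rw [rho_X_mem hp, uu_X hq]
    · rw [rho_X hp, uu_X hp]

private theorem sq_mem (V : Setoid Pt) (p : Pt) : (X p ^ 2 : Rg Pt) ∈ I V :=
  Ideal.subset_span (Or.inl ⟨p, rfl⟩)

private theorem add_mem' {V : Setoid Pt} {p q : Pt} (h : V p q) : (X p + X q : Rg Pt) ∈ I V :=
  Ideal.subset_span (Or.inr ⟨p, q, h, rfl⟩)

private theorem I_le {V V' : Setoid Pt} (h : V ≤ V') : I V ≤ I V' := by
  refine Ideal.span_le.2 ?_
  rintro f (⟨p, rfl⟩ | ⟨p, q, hpq, rfl⟩)
  · exact sq_mem V' p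
  · exact add_mem' (h hpq)

private theorem loop_iff (hL : IsLoop V L a) {p p' : Pt} (h : V p p') : p ∈ L ↔ p' ∈ L := by
  rw [hL p, hL p']
  exact ⟨fun h' => V.trans h' h, fun h' => V.trans h' (V.symm h)⟩

private theorem uv_mem (hL : IsLoop V L a) {f : Rg Pt} (hf : f ∈ I V) :
    uu L f ∈ I V ∧ vv L f ∈ I V := by
  refine Submodule.span_induction (p := fun f _ => uu L f ∈ I V ∧ vv L f ∈ I V) ?_ ?_ ?_ ?_ hf
  · rintro f (⟨p, rfl⟩ | ⟨p, p', hpp, rfl⟩)
    · by_cases hp : p ∈ L
      · rw [pow_two, uu_mul, vv_mul, uu_X_mem hp, zero_mul, mul_zero, zero_mul, add_zero]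
        exact ⟨zero_mem _, zero_mem _⟩
      · rw [pow_two, uu_mul, vv_mul, uu_X hp, vv_X hp, zero_mul, mul_zero, add_zero, ← pow_two]
        exact ⟨sq_mem V p, zero_mem _⟩
    · by_cases hp : p ∈ L
      · have hp' : p' ∈ L := (loop_iff hL hpp).1 hp
        rw [uu_add, vv_add, uu_X_mem hp, uu_X_mem hp', vv_X_mem hp, vv_X_mem hp', two_zero,
          two_zero]
        exact ⟨zero_mem _, zero_mem _⟩
      · have hp' : p' ∉ L := fun h => hp ((loop_iff hL hpp).2 h)
        rw [uu_add, vv_add, uu_X hp, uu_X hp', vv_X hp, vv_X hp', two_zero]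
        exact ⟨add_mem' hpp, zero_mem _⟩
  · rw [uu_zero, vv_zero]
    exact ⟨zero_mem _, zero_mem _⟩
  · intro f g _ _ hf hg
    rw [uu_add, vv_add]
    exact ⟨add_mem hf.1 hg.1, add_mem hf.2 hg.2⟩
  · intro b f _ hf
    rw [smul_eq_mul, uu_mul, vv_mul]
    exact ⟨Ideal.mul_mem_left _ _ hf.1,
      add_mem (Ideal.mul_mem_left _ _ hf.2) (Ideal.mul_mem_left _ _ hf.1)⟩

theorem uu_mem (hL : IsLoop V L a) {f : Rg Pt} (hf : f ∈ I V) : uu L f ∈ I V :=
  (uv_mem hL hf).1

theorem vv_mem (hL : IsLoop V L a) {f : Rg Pt} (hf : f ∈ I V) : vv L f ∈ I V :=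
  (uv_mem hL hf).2

theorem split_mem (hL : IsLoop V L a) (f : Rg Pt) : f + (uu L f + X a * vv L f) ∈ I V := by
  induction f using MvPolynomial.induction_on with
  | C c =>
    rw [uu_C, vv_C, mul_zero, add_zero, two_zero]
    exact zero_mem _
  | add f g hf hg =>
    have h := add_mem hf hg
    rw [uu_add, vv_add]
    convert h using 1
    ring
  | mul_X f p hf =>
    rw [uu_mul, vv_mul]
    by_cases hp : p ∈ L
    · rw [uu_X_mem hp, vv_X_mem hp]
      have h1 : (X p + X a : Rg Pt) ∈ I V := add_mem' (V.symm ((hL p).1 hp))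
      have h2 := add_mem (add_mem (Ideal.mul_mem_left _ (X p) hf)
        (Ideal.mul_mem_left _ (uu L f + X a * vv L f) h1)) (Ideal.mul_mem_left _ (vv L f) (sq_mem V a))
      convert h2 using 1
      have e1 := two_zero (X p * uu L f)
      have e2 := two_zero (X p * (X a * vv L f))
      have e3 := two_zero (X a ^ 2 * vv L f)
      linear_combination -e1 - e2 - e3
    · rw [uu_X hp, vv_X hp]
      have h2 := Ideal.mul_mem_left _ (X p) hf
      convert h2 using 1
      ring

private theorem rho_mem_aux (hL : IsLoop V L a) (hq : q ∉ L) {f : Rg Pt}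
    (hf : f ∈ I (V ⊔ pr a q)) : rho L q f ∈ I V := by
  classical
  have ha : a ∈ L := (hL a).2 (V.refl a)
  have hle : V ⊔ pr a q ≤ Setoid.comap (fun p => if p ∈ L then q else p) V := by
    refine sup_le ?_ (pr_le.2 ?_)
    · intro p p' hpp
      rw [Setoid.comap_rel]
      by_cases hp : p ∈ L
      · have hp' : p' ∈ L := (loop_iff hL hpp).1 hp
        simp only [hp, hp', if_true]
        exact V.refl q
      · have hp' : p' ∉ L := fun h => hp ((loop_iff hL hpp).2 h)
        simp only [hp, hp', if_false]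
        exact hpp
    · rw [Setoid.comap_rel]
      simp only [ha, hq, if_true, if_false]
      exact V.refl q
  have hX : ∀ p, rho L q (X p : Rg Pt) = X (if p ∈ L then q else p) := by
    intro p
    by_cases hp : p ∈ L
    · rw [rho_X_mem hp, if_pos hp]
    · rw [rho_X hp, if_neg hp]
  refine Submodule.span_induction (p := fun f _ => rho L q f ∈ I V) ?_ ?_ ?_ ?_ hf
  · rintro f (⟨p, rfl⟩ | ⟨p, p', hpp, rfl⟩)
    · rw [map_pow, hX]
      exact sq_mem V _
    · rw [map_add, hX, hX]
      exact add_mem' (hle hpp)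
  · rw [map_zero]
    exact zero_mem _
  · intro f g _ _ hf hg
    rw [map_add]
    exact add_mem hf hg
  · intro b f _ hf
    rw [smul_eq_mul, map_mul]
    exact Ideal.mul_mem_left _ _ hf

theorem nl_mem (hL : IsLoop V L a) (hq : q ∉ L) {f : Rg Pt} (hf : uu L f = f) :
    f ∈ I (V ⊔ pr a q) ↔ f ∈ I V := by
  constructor
  · intro h
    rw [← rho_of_nl hf q]
    exact rho_mem_aux hL hq h
  · intro h
    exact I_le le_sup_left h

theorem rho_mem (hL : IsLoop V L a) (hq : q ∉ L) (f : Rg Pt) : rho L q f + f ∈ I (V ⊔ pr a q) := by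
  induction f using MvPolynomial.induction_on with
  | C c =>
    rw [rho_C, two_zero]
    exact zero_mem _
  | add f g hf hg =>
    have h := add_mem hf hg
    rw [map_add]
    convert h using 1
    ring
  | mul_X f p hf =>
    rw [map_mul]
    by_cases hp : p ∈ L
    · rw [rho_X_mem hp]
      have hqp : (V ⊔ pr a q) q p := by
        have e1 : (V ⊔ pr a q) a p := (le_sup_left : V ≤ V ⊔ pr a q) ((hL p).1 hp)
        have e2 : (V ⊔ pr a q) a q := (le_sup_right : pr a q ≤ V ⊔ pr a q) (pr_rel a q)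
        exact (V ⊔ pr a q).trans ((V ⊔ pr a q).symm e2) e1
      have h2 := add_mem (Ideal.mul_mem_left _ (X q) hf) (Ideal.mul_mem_left _ f (add_mem' hqp))
      convert h2 using 1
      have e1 := two_zero (X q * f)
      linear_combination -e1
    · rw [rho_X hp]
      have h2 := Ideal.mul_mem_left _ (X p) hf
      convert h2 using 1
      ring

theorem rho_mem' (hL : IsLoop V L a) (hq : q ∉ L) {f : Rg Pt} (hf : f ∈ I (V ⊔ pr a q)) :
    rho L q f ∈ I V :=
  rho_mem_aux hL hq hf

theorem zero_of (hL : IsLoop V L a) (hq : q ∉ L) {f : Rg Pt} (hf : uu L f = f)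
    (h : (X a + X q) * f ∈ I V) : f ∈ I V := by
  have ha : a ∈ L := (hL a).2 (V.refl a)
  have h1 := vv_mem hL h
  rw [vv_mul, vv_add, vv_X_mem ha, vv_X hq, hf, vv_of_nl hf, mul_zero, zero_add, add_zero,
    one_mul] at h1
  exact h1

end Pool.HPS
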