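import Pool.Agent.HPS.Loop

/-!
# Module HPS-R2A: the setoids around a second Reidemeister pattern (imports Leg, Sad, Loop)

Pattern: `W (x c1 2) (x c2 2)` and `W (x c1 3) (x c2 0)`.  In the states with `c1` 0-smoothed and `c2` 1-smoothed the points
`x c1 2 ~ x c1 3 ~ x c2 0 ~ x c2 2` form a closed loop `lp W (x c1)`.

Main tool: `U_le'` (an upper bound for the state setoid) and the uniqueness of partners in a legitimate system.
-/

set_option autoImplicit false

open Finset MvPolynomial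

namespace Pool.HPS

variable {Pt ι : Type} [DecidableEq ι]

/-- The loop of the pattern. -/
def lp (W : Setoid Pt) (y : Fin 4 → Pt) : Set Pt := {p | W (y 2) p ∨ W (y 3) p}

/-- Second Reidemeister pattern. -/
structure Pat (W : Setoid Pt) (x : ι → Fin 4 → Pt) (S : Finset ι) (c1 c2 : ι) : Prop where
  ne : c1 ≠ c2
  h1 : c1 ∉ S
  h2 : c2 ∉ S
  leg : Legit W x (insert c1 (insert c2 S))
  a : W (x c1 2) (x c2 2)
  b : W (x c1 3) (x c2 0)

variable {W : Setoid Pt} {x : ι → Fin 4 → Pt} {S : Finset ι} {c1 c2 : ι}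

private theorem U_le' {Z : Setoid Pt} {T r : Finset ι} (hW : W ≤ Z)
    (h1 : ∀ c ∈ T, c ∈ r → Z (x c 0) (x c 2) ∧ Z (x c 1) (x c 3))
    (h0 : ∀ c ∈ T, c ∉ r → Z (x c 0) (x c 1) ∧ Z (x c 2) (x c 3)) : U W x T r ≤ Z := by
  rw [U]
  refine sup_le hW (Finset.sup_le ?_)
  intro c hc
  by_cases hr : c ∈ r
  · rw [if_pos hr, s1_le]; exact h1 c hc hr
  · rw [if_neg hr, s0_le]; exact h0 c hc hr

omit [DecidableEq ι] in
private theorem uniq (h : Legit W x S) {l l' l'' : ι × Fin 4} (hl : l.1 ∈ S) (hl' : l'.1 ∈ S)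
    (hl'' : l''.1 ∈ S) (h1 : l' ≠ l) (h2 : l'' ≠ l) (w1 : W (x l.1 l.2) (x l'.1 l'.2))
    (w2 : W (x l.1 l.2) (x l''.1 l''.2)) : l' = l'' := by
  obtain ⟨m, _, _, _, hu⟩ := h l hl
  rw [hu l' hl' h1 w1, hu l'' hl'' h2 w2]

private theorem Pat.m1 (_h : Pat W x S c1 c2) : c1 ∈ insert c1 (insert c2 S) :=
  Finset.mem_insert_self _ _

private theorem Pat.m2 (_h : Pat W x S c1 c2) : c2 ∈ insert c1 (insert c2 S) :=
  Finset.mem_insert_of_mem (Finset.mem_insert_self _ _)

private theorem Pat.mS (_h : Pat W x S c1 c2) {c : ι} (hc : c ∈ S) :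
    c ∈ insert c1 (insert c2 S) :=
  Finset.mem_insert_of_mem (Finset.mem_insert_of_mem hc)

/-- The labels of the loop. -/
private theorem Pat.lab (h : Pat W x S c1 c2) {l : ι × Fin 4}
    (hl : l.1 ∈ insert c1 (insert c2 S)) (hp : x l.1 l.2 ∈ lp W (x c1)) :
    l = (c1, 2) ∨ l = (c1, 3) ∨ l = (c2, 0) ∨ l = (c2, 2) := by
  have hne := h.ne
  rcases hp with hp | hp
  · by_cases e : l = (c1, 2)
    · exact Or.inl e
    · refine Or.inr (Or.inr (Or.inr ?_))
      exact uniq h.leg (l := (c1, 2)) (l' := l) (l'' := (c2, 2)) h.m1 hl h.m2 e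
        (fun e' => hne (Prod.ext_iff.1 e').1.symm) hp h.a
  · by_cases e : l = (c1, 3)
    · exact Or.inr (Or.inl e)
    · refine Or.inr (Or.inr (Or.inl ?_))
      exact uniq h.leg (l := (c1, 3)) (l' := l) (l'' := (c2, 0)) h.m1 hl h.m2 e
        (fun e' => hne (Prod.ext_iff.1 e').1.symm) hp h.b

private theorem Pat.nr (h : Pat W x S c1 c2) {r : Finset ι} (hr : r ⊆ S) : c1 ∉ insert c2 r := by
  intro h'
  rcases Finset.mem_insert.1 h' with e | e
  · exact h.ne e
  · exact h.h1 (hr e)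

private theorem Pat.nr1 (h : Pat W x S c1 c2) {r : Finset ι} (hr : r ⊆ S) : c1 ∉ r :=
  fun e => h.h1 (hr e)

private theorem Pat.nr2 (h : Pat W x S c1 c2) {r : Finset ι} (hr : r ⊆ S) : c2 ∉ r :=
  fun e => h.h2 (hr e)

theorem Pat.out (h : Pat W x S c1 c2) {c : ι} (hc : c ∈ S) (k : Fin 4) :
    x c k ∉ lp W (x c1) := by
  intro hp
  rcases h.lab (l := (c, k)) (h.mS hc) hp with e | e | e | e
  · have e1 : c = c1 := (Prod.ext_iff.1 e).1
    exact h.h1 (e1 ▸ hc)
  · have e1 : c = c1 := (Prod.ext_iff.1 e).1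
    exact h.h1 (e1 ▸ hc)
  · have e1 : c = c2 := (Prod.ext_iff.1 e).1
    exact h.h2 (e1 ▸ hc)
  · have e1 : c = c2 := (Prod.ext_iff.1 e).1
    exact h.h2 (e1 ▸ hc)

theorem Pat.out1 (h : Pat W x S c1 c2) : x c1 0 ∉ lp W (x c1) ∧ x c1 1 ∉ lp W (x c1) := by
  have hne := h.ne
  constructor
  · intro hp
    rcases h.lab (l := (c1, 0)) h.m1 hp with e | e | e | e
    · exact absurd (show (0 : Fin 4) = 2 from (Prod.ext_iff.1 e).2) (by decide)
    · exact absurd (show (0 : Fin 4) = 3 from (Prod.ext_iff.1 e).2) (by decide)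
    · exact hne (Prod.ext_iff.1 e).1
    · exact hne (Prod.ext_iff.1 e).1
  · intro hp
    rcases h.lab (l := (c1, 1)) h.m1 hp with e | e | e | e
    · exact absurd (show (1 : Fin 4) = 2 from (Prod.ext_iff.1 e).2) (by decide)
    · exact absurd (show (1 : Fin 4) = 3 from (Prod.ext_iff.1 e).2) (by decide)
    · exact hne (Prod.ext_iff.1 e).1
    · exact hne (Prod.ext_iff.1 e).1

theorem Pat.out2 (h : Pat W x S c1 c2) : x c2 1 ∉ lp W (x c1) ∧ x c2 3 ∉ lp W (x c1) := by
  have hne := h.ne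
  constructor
  · intro hp
    rcases h.lab (l := (c2, 1)) h.m2 hp with e | e | e | e
    · exact hne (Prod.ext_iff.1 e).1.symm
    · exact hne (Prod.ext_iff.1 e).1.symm
    · exact absurd (show (1 : Fin 4) = 0 from (Prod.ext_iff.1 e).2) (by decide)
    · exact absurd (show (1 : Fin 4) = 2 from (Prod.ext_iff.1 e).2) (by decide)
  · intro hp
    rcases h.lab (l := (c2, 3)) h.m2 hp with e | e | e | e
    · exact hne (Prod.ext_iff.1 e).1.symm
    · exact hne (Prod.ext_iff.1 e).1.symm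
    · exact absurd (show (3 : Fin 4) = 0 from (Prod.ext_iff.1 e).2) (by decide)
    · exact absurd (show (3 : Fin 4) = 2 from (Prod.ext_iff.1 e).2) (by decide)

private theorem Pat.in2 (_h : Pat W x S c1 c2) : x c1 2 ∈ lp W (x c1) := Or.inl (W.refl _)

private theorem Pat.in3 (_h : Pat W x S c1 c2) : x c1 3 ∈ lp W (x c1) := Or.inr (W.refl _)

private theorem Pat.in20 (h : Pat W x S c1 c2) : x c2 0 ∈ lp W (x c1) := Or.inr h.b

private theorem Pat.in22 (h : Pat W x S c1 c2) : x c2 2 ∈ lp W (x c1) := Or.inl h.a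

/-- The partition into loop points and other points. -/
private def zz (L : Set Pt) : Setoid Pt where
  r p q := (p ∈ L ↔ q ∈ L)
  iseqv := ⟨fun _ => Iff.rfl, fun h => h.symm, fun h h' => h.trans h'⟩

private theorem zz_in {L : Set Pt} {p q : Pt} (hp : p ∈ L) (hq : q ∈ L) : zz L p q :=
  ⟨fun _ => hq, fun _ => hp⟩

private theorem zz_out {L : Set Pt} {p q : Pt} (hp : p ∉ L) (hq : q ∉ L) : zz L p q :=
  ⟨fun e => absurd e hp, fun e => absurd e hq⟩

private theorem W_zz (y : Fin 4 → Pt) : W ≤ zz (lp W y) := by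
  rw [Setoid.le_def]
  intro p q hpq
  constructor
  · rintro (e | e)
    · exact Or.inl (W.trans e hpq)
    · exact Or.inr (W.trans e hpq)
  · rintro (e | e)
    · exact Or.inl (W.trans e (W.symm hpq))
    · exact Or.inr (W.trans e (W.symm hpq))

theorem Pat.isLoop (h : Pat W x S c1 c2) {r : Finset ι} (hr : r ⊆ S) :
    IsLoop (U W x (insert c1 (insert c2 S)) (insert c2 r)) (lp W (x c1)) (x c1 2) := by
  intro p
  constructor
  · intro hp
    rcases hp with hp | hp
    · exact le_U hp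
    · exact Setoid.trans' _ (U_rel0 h.m1 (h.nr hr)).2 (le_U hp)
  · intro hp
    have hle : U W x (insert c1 (insert c2 S)) (insert c2 r) ≤ zz (lp W (x c1)) := by
      refine U_le' (W_zz _) ?_ ?_
      · intro c hc hcr
        rcases Finset.mem_insert.1 hc with rfl | hc
        · exact absurd hcr (h.nr hr)
        rcases Finset.mem_insert.1 hc with rfl | hc
        · exact ⟨zz_in h.in20 h.in22, zz_out h.out2.1 h.out2.2⟩
        · exact ⟨zz_out (h.out hc 0) (h.out hc 2), zz_out (h.out hc 1) (h.out hc 3)⟩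
      · intro c hc hcr
        rcases Finset.mem_insert.1 hc with rfl | hc
        · exact ⟨zz_out h.out1.1 h.out1.2, zz_in h.in2 h.in3⟩
        rcases Finset.mem_insert.1 hc with rfl | hc
        · exact absurd (Finset.mem_insert_self _ _) hcr
        · exact ⟨zz_out (h.out hc 0) (h.out hc 1), zz_out (h.out hc 2) (h.out hc 3)⟩
    exact (hle hp).1 h.in2

private theorem Pat.a00 (h : Pat W x S c1 c2) {r : Finset ι} (hr : r ⊆ S) :
    U W x (insert c1 (insert c2 S)) r (x c2 0) (x c2 2) :=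
  Setoid.trans' _ (le_U (W.symm h.b)) (Setoid.trans' _
    (Setoid.symm' _ (U_rel0 h.m1 (h.nr1 hr)).2) (le_U h.a))

theorem Pat.V00 (h : Pat W x S c1 c2) {r : Finset ι} (hr : r ⊆ S) :
    U W x (insert c1 (insert c2 S)) r =
      U W x (insert c1 (insert c2 S)) (insert c2 r) ⊔ pr (x c1 2) (x c2 1) := by
  have k1 := U_rel0 (W := W) (x := x) h.m1 (h.nr1 hr)
  have k2 := U_rel0 (W := W) (x := x) h.m2 (h.nr2 hr)
  have l1 := U_rel0 (W := W) (x := x) h.m1 (h.nr hr)
  have l2 := U_rel1 (W := W) (x := x) h.m2 (Finset.mem_insert_self c2 r)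
  apply le_antisymm
  · have hle : U W x (insert c1 (insert c2 S)) (insert c2 r) ≤
        U W x (insert c1 (insert c2 S)) (insert c2 r) ⊔ pr (x c1 2) (x c2 1) := le_sup_left
    have hpr : (U W x (insert c1 (insert c2 S)) (insert c2 r) ⊔ pr (x c1 2) (x c2 1))
        (x c1 2) (x c2 1) := pr_le.1 le_sup_right
    refine U_le' (le_trans le_U hle) ?_ ?_
    · intro c hc hcr
      exact ⟨hle (U_rel1 hc (Finset.mem_insert_of_mem hcr)).1,
        hle (U_rel1 hc (Finset.mem_insert_of_mem hcr)).2⟩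
    · intro c hc hcr
      by_cases e : c = c2
      · subst e
        exact ⟨Setoid.trans' _ (hle (le_U (W.symm h.b))) (Setoid.trans' _
            (hle (Setoid.symm' _ l1.2)) hpr),
          Setoid.trans' _ (hle (le_U (W.symm h.a))) (Setoid.trans' _ hpr (hle l2.2))⟩
      · have hn : c ∉ insert c2 r := fun e' => (Finset.mem_insert.1 e').elim e hcr
        exact ⟨hle (U_rel0 hc hn).1, hle (U_rel0 hc hn).2⟩
  · refine sup_le (U_le' le_U ?_ ?_) (pr_le.2 ?_)
    · intro c hc hcr
      by_cases e : c = c2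
      · subst e
        exact ⟨h.a00 hr, Setoid.trans' _ (Setoid.symm' _ k2.1) (Setoid.trans' _ (h.a00 hr) k2.2)⟩
      · have hn : c ∈ r := (Finset.mem_insert.1 hcr).elim (fun e' => absurd e' e) id
        exact U_rel1 hc hn
    · intro c hc hcr
      exact U_rel0 hc (fun e => hcr (Finset.mem_insert_of_mem e))
    · exact Setoid.trans' _ k1.2 (Setoid.trans' _ (le_U h.b) k2.1)

theorem Pat.V11 (h : Pat W x S c1 c2) {r : Finset ι} (hr : r ⊆ S) :
    U W x (insert c1 (insert c2 S)) (insert c1 (insert c2 r)) =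
      U W x (insert c1 (insert c2 S)) (insert c2 r) ⊔ pr (x c1 2) (x c1 0) := by
  have k1 := U_rel1 (W := W) (x := x) h.m1 (Finset.mem_insert_self c1 (insert c2 r))
  have k2 := U_rel1 (W := W) (x := x) h.m2
    (Finset.mem_insert_of_mem (a := c2) (b := c1) (Finset.mem_insert_self c2 r))
  have l1 := U_rel0 (W := W) (x := x) h.m1 (h.nr hr)
  apply le_antisymm
  · have hle : U W x (insert c1 (insert c2 S)) (insert c2 r) ≤
        U W x (insert c1 (insert c2 S)) (insert c2 r) ⊔ pr (x c1 2) (x c1 0) := le_sup_left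
    have hpr : (U W x (insert c1 (insert c2 S)) (insert c2 r) ⊔ pr (x c1 2) (x c1 0))
        (x c1 2) (x c1 0) := pr_le.1 le_sup_right
    refine U_le' (le_trans le_U hle) ?_ ?_
    · intro c hc hcr
      by_cases e : c = c1
      · subst e
        exact ⟨Setoid.symm' _ hpr, Setoid.trans' _ (hle (Setoid.symm' _ l1.1))
          (Setoid.trans' _ (Setoid.symm' _ hpr) (hle l1.2))⟩
      · have hn : c ∈ insert c2 r := (Finset.mem_insert.1 hcr).elim (fun e' => absurd e' e) id
        exact ⟨hle (U_rel1 hc hn).1, hle (U_rel1 hc hn).2⟩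
    · intro c hc hcr
      have hn : c ∉ insert c2 r := fun e => hcr (Finset.mem_insert_of_mem e)
      exact ⟨hle (U_rel0 hc hn).1, hle (U_rel0 hc hn).2⟩
  · have h23 : U W x (insert c1 (insert c2 S)) (insert c1 (insert c2 r)) (x c1 2) (x c1 3) :=
      Setoid.trans' _ (le_U h.a) (Setoid.trans' _ (Setoid.symm' _ k2.1) (le_U (W.symm h.b)))
    refine sup_le (U_le' le_U ?_ ?_) (pr_le.2 (Setoid.symm' _ k1.1))
    · intro c hc hcr
      exact U_rel1 hc (Finset.mem_insert_of_mem hcr)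
    · intro c hc hcr
      by_cases e : c = c1
      · subst e
        exact ⟨Setoid.trans' _ k1.1 (Setoid.trans' _ h23 (Setoid.symm' _ k1.2)), h23⟩
      · exact U_rel0 hc (fun e' => (Finset.mem_insert.1 e').elim e hcr)

theorem Pat.V10 (h : Pat W x S c1 c2) {r : Finset ι} (hr : r ⊆ S) :
    U W x (insert c1 (insert c2 S)) (insert c1 r) = U (W ⊔ s1 (x c1) ⊔ s0 (x c2)) x S r := by
  have hn : c2 ∉ insert c1 r :=
    fun e => (Finset.mem_insert.1 e).elim (fun e' => h.ne e'.symm) (h.nr2 hr)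
  rw [U_ins1 (Finset.mem_insert_self c1 r), U_ins0 hn]
  apply U_congr
  intro c hc
  constructor
  · intro e
    exact (Finset.mem_insert.1 e).elim (fun e' => absurd (e' ▸ hc) h.h1) id
  · exact fun e => Finset.mem_insert_of_mem e

theorem Pat.kap2 (h : Pat W x S c1 c2) {r : Finset ι} (hr : r ⊆ S) :
    kap (U W x (insert c1 (insert c2 S)) r) (x c2) = X (x c2 0) + X (x c2 1) := by
  rw [kap, if_pos (h.a00 hr)]

theorem Pat.kap1 (h : Pat W x S c1 c2) {r : Finset ι} (hr : r ⊆ S) :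
    kap (U W x (insert c1 (insert c2 S)) (insert c2 r)) (x c1) = 1 := by
  rw [kap, if_neg]
  intro e
  exact h.out1.1 ((h.isLoop hr _).2 (Setoid.symm' _ e))

private theorem kap_congr' {V V' : Setoid Pt} {y : Fin 4 → Pt}
    (h : V (y 0) (y 2) ↔ V' (y 0) (y 2)) : kap V y = kap V' y := by
  rw [kap, kap]
  by_cases e : V (y 0) (y 2)
  · rw [if_pos e, if_pos (h.1 e)]
  · rw [if_neg e, if_neg (fun e' => e (h.2 e'))]

/-- Joining the loop to another point does not change the relation between other points. -/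
private theorem sup_out {V : Setoid Pt} {L : Set Pt} {a b p q : Pt} (hL : IsLoop V L a)
    (hp : p ∉ L) (hq : q ∉ L) : (V ⊔ pr a b) p q ↔ V p q := by
  rw [sup_pr]
  constructor
  · rintro (e | e | e)
    · exact e
    · exact absurd ((hL p).2 (V.symm e.1)) hp
    · exact absurd ((hL q).2 e.2) hq
  · exact fun e => Or.inl e

theorem Pat.kapS (h : Pat W x S c1 c2) {r : Finset ι} (hr : r ⊆ S) {c : ι} (hc : c ∈ S) :
    kap (U W x (insert c1 (insert c2 S)) r) (x c) =
        kap (U W x (insert c1 (insert c2 S)) (insert c2 r)) (x c) ∧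
      kap (U W x (insert c1 (insert c2 S)) (insert c1 (insert c2 r))) (x c) =
        kap (U W x (insert c1 (insert c2 S)) (insert c2 r)) (x c) ∧
      uu (lp W (x c1)) (kap (U W x (insert c1 (insert c2 S)) (insert c2 r)) (x c)) =
        kap (U W x (insert c1 (insert c2 S)) (insert c2 r)) (x c) := by
  have o0 := h.out hc 0
  have o1 := h.out hc 1
  have o2 := h.out hc 2
  have hL := h.isLoop hr
  refine ⟨?_, ?_, ?_⟩
  · rw [h.V00 hr]
    exact kap_congr' (sup_out hL o0 o2)
  · rw [h.V11 hr]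
    exact kap_congr' (sup_out hL o0 o2)
  · rw [kap]
    split_ifs
    · rw [uu_add, uu_X o0, uu_X o1]
    · exact uu_one

/-- `E` agrees on the states `00`, `01`, `11`. -/
theorem Pat.E (h : Pat W x S c1 c2) {E : Setoid Pt → ℕ → Prop} (hE : EOk E) {r : Finset ι}
    (hr : r ⊆ S) (k : ℕ) :
    (E (U W x (insert c1 (insert c2 S)) r) k ↔
      E (U W x (insert c1 (insert c2 S)) (insert c2 r)) (k + 1)) ∧
    (E (U W x (insert c1 (insert c2 S)) (insert c1 (insert c2 r))) (k + 2) ↔
      E (U W x (insert c1 (insert c2 S)) (insert c2 r)) (k + 1)) := by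
  have hL := h.isLoop hr
  constructor
  · rw [h.V00 hr]
    exact hE.dn _ _ _ _ (fun e => h.out2.1 ((hL _).2 e))
  · rw [h.V11 hr]
    exact hE.up _ _ _ (k + 1) (fun e => h.out1.1 ((hL _).2 e))

end Pool.HPS
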