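import Pool.Agent.HPS.DefsS
import Pool.Agent.HPS.Leg

/-!
# Module HPS-Sg1: signs from ordered circles (imports Leg; use `sup_pr`)

The sign `sg` of the wedge product of ordered circles: joining two circles removes the larger of
their smallest numbers (`rp_sup`, `ps_sup`), and two commuting joins give the sign `-1` (`sg_two`),
which is a statement on four natural numbers (`num`).
-/

set_option autoImplicit false

open Finset MvPolynomial

namespace Pool.HPS

variable {Pt : Type} [Finite Pt] {ord : Pt → ℕ} {V : Setoid Pt} {a b c d : Pt}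

/-! ### The smallest numbers of the classes -/

private theorem rp_mem (ord : Pt → ℕ) (V : Setoid Pt) (a : Pt) :
    ∃ b, V a b ∧ ord b = rp ord V a := by
  have h : sInf {n | ∃ b, V a b ∧ ord b = n} ∈ {n | ∃ b, V a b ∧ ord b = n} :=
    Nat.sInf_mem ⟨ord a, a, V.refl a, rfl⟩
  exact h

private theorem rp_le (ord : Pt → ℕ) {V : Setoid Pt} {a b : Pt} (h : V a b) :
    rp ord V a ≤ ord b :=
  Nat.sInf_le ⟨b, h, rfl⟩

private theorem rp_congr (ord : Pt → ℕ) {V : Setoid Pt} {a b : Pt} (h : V a b) :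
    rp ord V a = rp ord V b := by
  apply le_antisymm
  · obtain ⟨c, hc, hc2⟩ := rp_mem ord V b
    rw [← hc2]
    exact rp_le ord (V.trans h hc)
  · obtain ⟨c, hc, hc2⟩ := rp_mem ord V a
    rw [← hc2]
    exact rp_le ord (V.trans (V.symm h) hc)

private theorem rp_iff (ho : Function.Injective ord) (a b : Pt) :
    V a b ↔ rp ord V a = rp ord V b := by
  constructor
  · exact rp_congr ord
  · intro h
    obtain ⟨c, hc, hc2⟩ := rp_mem ord V a
    obtain ⟨d, hd, hd2⟩ := rp_mem ord V b
    have h1 : c = d := ho (by rw [hc2, hd2, h])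
    rw [← h1] at hd
    exact V.trans hc (V.symm hd)

private theorem rp_sup_pos {x : Pt} (h : V x a ∨ V x b) :
    rp ord (V ⊔ pr a b) x = min (rp ord V a) (rp ord V b) := by
  apply le_antisymm
  · apply le_min
    · obtain ⟨c, hc, hc2⟩ := rp_mem ord V a
      rw [← hc2]
      apply rp_le
      rw [sup_pr]
      rcases h with h | h
      · exact Or.inl (V.trans h hc)
      · exact Or.inr (Or.inr ⟨h, hc⟩)
    · obtain ⟨c, hc, hc2⟩ := rp_mem ord V b
      rw [← hc2]
      apply rp_le
      rw [sup_pr]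
      rcases h with h | h
      · exact Or.inr (Or.inl ⟨h, hc⟩)
      · exact Or.inl (V.trans h hc)
  · obtain ⟨c, hc, hc2⟩ := rp_mem ord (V ⊔ pr a b) x
    rw [← hc2]
    rw [sup_pr] at hc
    rcases hc with hc | ⟨_, hc⟩ | ⟨_, hc⟩
    · rcases h with h | h
      · exact (min_le_left _ _).trans (rp_le ord (V.trans (V.symm h) hc))
      · exact (min_le_right _ _).trans (rp_le ord (V.trans (V.symm h) hc))
    · exact (min_le_right _ _).trans (rp_le ord hc)
    · exact (min_le_left _ _).trans (rp_le ord hc)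

private theorem rp_sup_neg {x : Pt} (ha : ¬ V x a) (hb : ¬ V x b) :
    rp ord (V ⊔ pr a b) x = rp ord V x := by
  have h : {n | ∃ y, (V ⊔ pr a b) x y ∧ ord y = n} = {n | ∃ y, V x y ∧ ord y = n} := by
    ext n
    constructor
    · rintro ⟨y, hy, hn⟩
      rw [sup_pr] at hy
      rcases hy with hy | ⟨hy, _⟩ | ⟨hy, _⟩
      · exact ⟨y, hy, hn⟩
      · exact absurd hy ha
      · exact absurd hy hb
    · rintro ⟨y, hy, hn⟩
      refine ⟨y, ?_, hn⟩
      rw [sup_pr]
      exact Or.inl hy
  unfold rp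
  rw [h]

private theorem rp_sup (ho : Function.Injective ord) (x : Pt) :
    rp ord (V ⊔ pr a b) x =
      if rp ord V x = rp ord V a ∨ rp ord V x = rp ord V b then
        min (rp ord V a) (rp ord V b) else rp ord V x := by
  split_ifs with h
  · apply rp_sup_pos
    rw [rp_iff ho, rp_iff ho]
    exact h
  · rw [not_or] at h
    apply rp_sup_neg
    · rw [rp_iff ho]
      exact h.1
    · rw [rp_iff ho]
      exact h.2

/-! ### The positions -/

open Classical in
private theorem ps_eq (ord : Pt → ℕ) (V : Setoid Pt) (n : ℕ) :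
    ps ord V n = ((range n).filter (fun u => ∃ a, rp ord V a = u)).card := by
  unfold ps
  refine Nat.subtype_card _ fun u => ?_
  rw [Finset.mem_filter, Finset.mem_range]

private theorem ps_sup (ho : Function.Injective ord) (h : ¬ V a b) (n : ℕ) :
    ps ord V n = ps ord (V ⊔ pr a b) n +
      if max (rp ord V a) (rp ord V b) < n then 1 else 0 := by
  classical
  have hne : rp ord V a ≠ rp ord V b := fun e => h ((rp_iff ho a b).mpr e)
  obtain ⟨M, hM⟩ : ∃ M, M = max (rp ord V a) (rp ord V b) := ⟨_, rfl⟩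
  have hPM : ∃ x, rp ord V x = M := by
    rcases max_choice (rp ord V a) (rp ord V b) with e | e
    · exact ⟨a, by rw [hM, e]⟩
    · exact ⟨b, by rw [hM, e]⟩
  have hiff : ∀ u, (∃ x, rp ord (V ⊔ pr a b) x = u) ↔ ((∃ x, rp ord V x = u) ∧ u ≠ M) := by
    intro u
    constructor
    · rintro ⟨x, hx⟩
      rw [rp_sup ho] at hx
      split_ifs at hx with hc
      · constructor
        · rcases min_choice (rp ord V a) (rp ord V b) with e | e
          · exact ⟨a, by rw [← hx, e]⟩
          · exact ⟨b, by rw [← hx, e]⟩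
        · rw [hM, ← hx]
          intro e
          omega
      · refine ⟨⟨x, hx⟩, ?_⟩
        rw [hM, ← hx]
        intro e
        omega
    · rintro ⟨⟨x, hx⟩, hu⟩
      by_cases hc : rp ord V x = rp ord V a ∨ rp ord V x = rp ord V b
      · refine ⟨x, ?_⟩
        rw [rp_sup ho, if_pos hc]
        omega
      · refine ⟨x, ?_⟩
        rw [rp_sup ho, if_neg hc]
        exact hx
  rw [ps_eq, ps_eq, ← hM]
  have h1 : (range n).filter (fun u => ∃ x, rp ord (V ⊔ pr a b) x = u) =
      ((range n).filter (fun u => ∃ x, rp ord V x = u)).erase M := by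
    ext u
    rw [Finset.mem_filter, Finset.mem_erase, Finset.mem_filter, hiff]
    tauto
  rw [h1]
  split_ifs with hn
  · have h2 : M ∈ (range n).filter (fun u => ∃ x, rp ord V x = u) := by
      rw [Finset.mem_filter, Finset.mem_range]
      exact ⟨hn, hPM⟩
    rw [Finset.card_erase_add_one h2]
  · have h2 : M ∉ (range n).filter (fun u => ∃ x, rp ord V x = u) := by
      rw [Finset.mem_filter, Finset.mem_range]
      exact fun h3 => hn h3.1
    rw [Finset.erase_eq_of_notMem h2, add_zero]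

/-! ### Signs of numbers -/

private def sn (x y : ℕ) : ℤ := if x < y then -1 else 1

private theorem sn_lt {x y : ℕ} (h : x < y) : sn x y = -1 := if_pos h

private theorem sn_ge {x y : ℕ} (h : y < x) : sn x y = 1 := if_neg (not_lt.mpr h.le)

private theorem sn_sq (x y : ℕ) : sn x y * sn x y = 1 := by
  unfold sn
  split_ifs <;> norm_num

private def FF (e : ℕ → ℤ) (α β γ δ γ' δ' α' β' : ℕ) : ℤ :=
  sn α β * e (max α β) * (sn γ' δ' * (e (max γ' δ') * sn (max α β) (max γ' δ'))) *
    (sn γ δ * e (max γ δ) * (sn α' β' * (e (max α' β') * sn (max γ δ) (max α' β'))))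

private theorem num_none (e : ℕ → ℤ) (he : ∀ n, e n * e n = 1) {α β γ δ : ℕ}
    (h : max α β ≠ max γ δ) : FF e α β γ δ γ δ α β = -1 := by
  have h1 : sn (max α β) (max γ δ) * sn (max γ δ) (max α β) = -1 := by
    rcases lt_or_gt_of_ne h with h2 | h2
    · rw [sn_lt h2, sn_ge h2]
      norm_num
    · rw [sn_lt h2, sn_ge h2]
      norm_num
  have h2 := sn_sq α β
  have h3 := sn_sq γ δ
  have h4 := he (max α β)
  have h5 := he (max γ δ)
  have h6 : FF e α β γ δ γ δ α β = (sn α β * sn α β) * (sn γ δ * sn γ δ) *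
      (e (max α β) * e (max α β)) * (e (max γ δ) * e (max γ δ)) *
      (sn (max α β) (max γ δ) * sn (max γ δ) (max α β)) := by
    unfold FF
    ring
  rw [h6, h1, h2, h3, h4, h5]
  norm_num

private theorem num_tac (e : ℕ → ℤ) (he : ∀ n, e n * e n = 1) {x y z : ℕ} (h1 : x ≠ y)
    (h2 : y ≠ z) (h3 : x ≠ z) :
    FF e x y y z (min x y) z x (min y z) = -1 ∧ FF e x y x z (min x y) z (min x z) y = -1 ∧
    FF e x y z x z (min x y) (min z x) y = -1 ∧ FF e x y z y z (min x y) x (min z y) = -1 := by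
  have hx := he x
  have hy := he y
  have hz := he z
  have hx' : e x = 1 ∨ e x = -1 := mul_self_eq_one_iff.mp hx
  have hy' : e y = 1 ∨ e y = -1 := mul_self_eq_one_iff.mp hy
  have hz' : e z = 1 ∨ e z = -1 := mul_self_eq_one_iff.mp hz
  unfold FF
  rcases lt_or_gt_of_ne h1 with g1 | g1 <;> rcases lt_or_gt_of_ne h2 with g2 | g2 <;>
    rcases lt_or_gt_of_ne h3 with g3 | g3 <;>
    first
    | (exfalso; omega)
    | (simp only [max_eq_left_of_lt g1, max_eq_right_of_lt g1, min_eq_left_of_lt g1,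
        min_eq_right_of_lt g1, max_eq_left_of_lt g2, max_eq_right_of_lt g2,
        min_eq_left_of_lt g2, min_eq_right_of_lt g2, max_eq_left_of_lt g3,
        max_eq_right_of_lt g3, min_eq_left_of_lt g3, min_eq_right_of_lt g3,
        sn_lt g1, sn_lt g2, sn_lt g3, sn_ge g1, sn_ge g2, sn_ge g3]
       rcases hx' with hx' | hx' <;> rcases hy' with hy' | hy' <;> rcases hz' with hz' | hz' <;>
         simp only [hx', hy', hz'] <;> norm_num)

private theorem num (e : ℕ → ℤ) (he : ∀ n, e n * e n = 1) {α β γ δ : ℕ} (hab : α ≠ β)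
    (hcd : γ ≠ δ) (h1 : ¬ (γ = α ∧ β = δ)) (h2 : ¬ (γ = β ∧ α = δ)) :
    FF e α β γ δ (if γ = α ∨ γ = β then min α β else γ) (if δ = α ∨ δ = β then min α β else δ)
      (if α = γ ∨ α = δ then min γ δ else α) (if β = γ ∨ β = δ then min γ δ else β) = -1 := by
  by_cases c1 : γ = α
  · subst c1
    have g1 : δ ≠ β := fun e => h1 ⟨rfl, e.symm⟩
    rw [if_pos (Or.inl rfl), if_neg (not_or.mpr ⟨hcd.symm, g1⟩), if_pos (Or.inl rfl),
      if_neg (not_or.mpr ⟨hab.symm, g1.symm⟩)]
    exact (num_tac e he hab g1.symm hcd).2.1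
  · by_cases c2 : γ = β
    · subst c2
      have g1 : δ ≠ α := fun e => h2 ⟨rfl, e.symm⟩
      rw [if_pos (Or.inr rfl), if_neg (not_or.mpr ⟨g1, hcd.symm⟩),
        if_neg (not_or.mpr ⟨hab, g1.symm⟩), if_pos (Or.inl rfl)]
      exact (num_tac e he hab hcd g1.symm).1
    · rw [if_neg (not_or.mpr ⟨c1, c2⟩)]
      by_cases c3 : δ = α
      · subst c3
        rw [if_pos (Or.inl rfl), if_pos (Or.inr rfl),
          if_neg (not_or.mpr ⟨fun e => c2 e.symm, hab.symm⟩)]
        exact (num_tac e he hab (fun e => c2 e.symm) (fun e => c1 e.symm)).2.2.1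
      · by_cases c4 : δ = β
        · subst c4
          rw [if_pos (Or.inr rfl), if_neg (not_or.mpr ⟨fun e => c1 e.symm, hab⟩),
            if_pos (Or.inr rfl)]
          exact (num_tac e he hab (fun e => c2 e.symm) (fun e => c1 e.symm)).2.2.2
        · rw [if_neg (not_or.mpr ⟨c3, c4⟩),
            if_neg (not_or.mpr ⟨fun e => c1 e.symm, fun e => c3 e.symm⟩),
            if_neg (not_or.mpr ⟨fun e => c2 e.symm, fun e => c4 e.symm⟩)]
          apply num_none e he
          omega

/-! ### The sign of a join -/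

theorem sg_pm : sg ord V a b = 1 ∨ sg ord V a b = -1 := by
  unfold sg
  rcases neg_one_pow_eq_or ℤ (ps ord V (max (rp ord V a) (rp ord V b))) with h | h
  · rw [h]
    split_ifs
    · right
      norm_num
    · left
      norm_num
  · rw [h]
    split_ifs
    · left
      norm_num
    · right
      norm_num

theorem sg_swap (ho : Function.Injective ord) (h : ¬ V a b) : sg ord V b a = -sg ord V a b := by
  have hne : rp ord V a ≠ rp ord V b := fun e => h ((rp_iff ho a b).mpr e)
  unfold sg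
  rw [max_comm (rp ord V b) (rp ord V a), ← neg_mul]
  congr 1
  rcases lt_or_gt_of_ne hne with h1 | h1
  · rw [if_pos h1, if_neg (not_lt.mpr h1.le), neg_neg]
  · rw [if_pos h1, if_neg (not_lt.mpr h1.le)]

theorem sg_congr {a' b' : Pt} (ha : V a a') (hb : V b b') : sg ord V a b = sg ord V a' b' := by
  unfold sg
  rw [rp_congr ord ha, rp_congr ord hb]

private theorem sg_sn : sg ord V a b = sn (rp ord V a) (rp ord V b) *
    (fun n => (-1 : ℤ) ^ ps ord V n) (max (rp ord V a) (rp ord V b)) := rfl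

private theorem sg_sup (ho : Function.Injective ord) (hab : ¬ V a b) (c d : Pt) :
    sg ord (V ⊔ pr a b) c d = sn (rp ord (V ⊔ pr a b) c) (rp ord (V ⊔ pr a b) d) *
      ((fun n => (-1 : ℤ) ^ ps ord V n)
        (max (rp ord (V ⊔ pr a b) c) (rp ord (V ⊔ pr a b) d)) *
      sn (max (rp ord V a) (rp ord V b))
        (max (rp ord (V ⊔ pr a b) c) (rp ord (V ⊔ pr a b) d))) := by
  rw [sg_sn]
  congr 1
  obtain ⟨n, hn⟩ : ∃ n, n = max (rp ord (V ⊔ pr a b) c) (rp ord (V ⊔ pr a b) d) := ⟨_, rfl⟩
  rw [← hn]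
  dsimp only
  rw [ps_sup ho hab n]
  unfold sn
  split_ifs
  · rw [pow_add]
    norm_num
  · rw [add_zero, mul_one]

theorem sg_two (ho : Function.Injective ord) (hab : ¬ V a b) (hcd : ¬ V c d)
    (h : ¬ (V ⊔ pr a b) c d) :
    sg ord V a b * sg ord (V ⊔ pr a b) c d * (sg ord V c d * sg ord (V ⊔ pr c d) a b) = -1 := by
  rw [sup_pr, not_or, not_or] at h
  obtain ⟨_, h1, h2⟩ := h
  rw [sg_sup ho hab, sg_sup ho hcd, sg_sn, sg_sn]
  rw [rp_sup ho, rp_sup ho, rp_sup ho, rp_sup ho]
  rw [rp_iff ho] at hab hcd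
  rw [rp_iff ho, rp_iff ho] at h1 h2
  exact num (fun n => (-1 : ℤ) ^ ps ord V n)
    (fun n => by
      rw [← pow_add, ← two_mul, pow_mul]
      norm_num) hab hcd h1 h2

end Pool.HPS
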