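import Pool.Agent.HPS.DefsS
import Pool.Agent.HPS.Leg
import Pool.Agent.HPS.Eps

/-!
# Module HPS-Sg2: source-sink types

Every half-edge `h = (i, t, s)` has exactly one label `(c, k)`, and `ty k * Gc c = (-1) ^ (i + t)`.
This gives `OrS_wires`.  The statement `OrM` is `OrS` for an arbitrary set of labels with a type
function; joining two labels of opposite types and equal signs keeps it (`orM_join`).
-/

set_option autoImplicit false

open Finset MvPolynomial

namespace Pool.HPS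

private theorem mem_cr {q : ℕ} {c : ℕ × ℕ} : c ∈ cr q ↔ c.1 < c.2 ∧ c.2 < 2 * q + 2 := by
  simp only [cr, fl, Finset.mem_filter, Finset.mem_product, Finset.mem_range]
  omega

private theorem he_1 {q i : ℕ} (j : ℕ) (hi : i < 2 * q + 2) (s : Bool) :
    ((he q i j s).1 : ℕ) = i := by
  simp only [he, Fin.val_ofNat]
  exact Nat.mod_eq_of_lt hi

private theorem he_2 {q i j : ℕ} (hi : i < 2 * q + 2) (hj : j < 2 * q + 2) (_hij : i ≠ j)
    (s : Bool) : ((he q i j s).2.1 : ℕ) = if j < i then j else j - 1 := by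
  simp only [he, Fin.val_ofNat]
  apply Nat.mod_eq_of_lt
  split_ifs <;> omega

private theorem he_3 {q : ℕ} (i j : ℕ) (s : Bool) : (he q i j s).2.2 = s := rfl

private theorem ty_Gc {q : ℕ} {c : ℕ × ℕ} (hc : c ∈ cr q) (k : Fin 4) :
    ty k * Gc c = (-1) ^ (((hx q c k).1 : ℕ) + ((hx q c k).2.1 : ℕ)) := by
  obtain ⟨i, j⟩ := c
  obtain ⟨hij, hj⟩ := mem_cr.1 hc
  simp only at hij hj
  have hi : i < 2 * q + 2 := by omega
  have e0 : hx q (i, j) 0 = he q i j false := rfl
  have e1 : hx q (i, j) 1 = he q j i true := rfl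
  have e2 : hx q (i, j) 2 = he q j i false := rfl
  have e3 : hx q (i, j) 3 = he q i j true := rfl
  have hne : i ≠ j := by omega
  have hne' : j ≠ i := by omega
  obtain ⟨m, rfl⟩ : ∃ m, j = m + 1 := ⟨j - 1, by omega⟩
  have hG : Gc (i, m + 1) = (-1) ^ (i + m) := by
    unfold Gc
    have : i + (m + 1) + 1 = (i + m) + 2 := by ring
    simp only
    rw [this, pow_add]
    norm_num
  rw [hG]
  fin_cases k
  · simp only [Fin.zero_eta]
    rw [e0, he_1 _ hi, he_2 hi hj hne, if_neg (by omega : ¬ m + 1 < i)]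
    simp [ty]
  · simp only [Fin.mk_one]
    rw [e1, he_1 _ hj, he_2 hj hi hne', if_pos (by omega : i < m + 1)]
    have : m + 1 + i = (i + m) + 1 := by ring
    rw [this, pow_succ]
    simp [ty]
  · simp only [Fin.reduceFinMk]
    rw [e2, he_1 _ hj, he_2 hj hi hne', if_pos (by omega : i < m + 1)]
    have : m + 1 + i = (i + m) + 1 := by ring
    rw [this, pow_succ]
    simp [ty]
  · simp only [Fin.reduceFinMk]
    rw [e3, he_1 _ hi, he_2 hi hj hne, if_neg (by omega : ¬ m + 1 < i)]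
    simp [ty]

private def lab {q : ℕ} (h : HE q) : (ℕ × ℕ) × Fin 4 :=
  if (h.2.1 : ℕ) < (h.1 : ℕ) then (((h.2.1 : ℕ), (h.1 : ℕ)), if h.2.2 then 1 else 2)
  else (((h.1 : ℕ), (h.2.1 : ℕ) + 1), if h.2.2 then 3 else 0)

private theorem lab_he {q i j : ℕ} (hi : i < 2 * q + 2) (hj : j < 2 * q + 2) (hij : i ≠ j)
    (s : Bool) : lab (he q i j s) =
      if j < i then ((j, i), if s then 1 else 2) else ((i, j), if s then 3 else 0) := by
  unfold lab
  simp only [he_1 _ hi, he_2 hi hj hij, he_3]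
  by_cases h : j < i
  · simp only [if_pos h]
    cases s <;> rfl
  · simp only [if_neg h]
    rw [if_neg (by omega)]
    have : j - 1 + 1 = j := by omega
    rw [this]
    cases s <;> rfl

private theorem lab_hx {q : ℕ} {c : ℕ × ℕ} (hc : c ∈ cr q) (k : Fin 4) :
    lab (hx q c k) = (c, k) := by
  obtain ⟨i, j⟩ := c
  obtain ⟨hij, hj⟩ := mem_cr.1 hc
  simp only at hij hj
  have hi : i < 2 * q + 2 := by omega
  have hne : i ≠ j := by omega
  have hne' : j ≠ i := by omega
  have hji : ¬ j < i := by omega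
  fin_cases k
  · change lab (he q i j false) = _
    rw [lab_he hi hj hne, if_neg hji]
    simp
  · change lab (he q j i true) = _
    rw [lab_he hj hi hne', if_pos hij]
    simp
  · change lab (he q j i false) = _
    rw [lab_he hj hi hne', if_pos hij]
    simp
  · change lab (he q i j true) = _
    rw [lab_he hi hj hne, if_neg hji]
    simp

private theorem wires_cases {q : ℕ} {a b : HE q} (h : wires q a b) :
    a = b ∨ (∃ i t, a = (i, t, true) ∧ b = (i, t + 1, false)) ∨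
      (∃ i t, a = (i, t + 1, false) ∧ b = (i, t, true)) := by
  obtain ⟨i, t, s⟩ := a
  obtain ⟨i', t', s'⟩ := b
  have h' : wire q (i, t, s) = wire q (i', t', s') := h
  simp only [wire, Prod.mk.injEq] at h'
  obtain ⟨rfl, h2⟩ := h'
  cases s <;> cases s'
  · left
    simp only [Bool.false_eq_true, if_false, sub_left_inj] at h2
    rw [h2]
  · right; right
    simp only [Bool.false_eq_true, if_false, if_true] at h2
    exact ⟨i, t', by rw [← h2, sub_add_cancel], rfl⟩
  · right; left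
    simp only [Bool.false_eq_true, if_false, if_true] at h2
    exact ⟨i, t, rfl, by rw [h2, sub_add_cancel]⟩
  · left
    simp only [if_true] at h2
    rw [h2]

private theorem sq_one {z : ℤ} (h : z = 1 ∨ z = -1) : z * z = 1 := by
  rcases h with rfl | rfl <;> norm_num

private theorem eps_eq {q : ℕ} (i : Fin (2 * q + 2)) (t : Fin (2 * q + 1)) :
    eps q t = -((-1) ^ ((i : ℕ) + (t : ℕ)) * (-1) ^ ((i : ℕ) + ((t + 1 : Fin (2 * q + 1)) : ℕ))) := by
  have hi : ((-1 : ℤ)) ^ (i : ℕ) * (-1) ^ (i : ℕ) = 1 := sq_one (neg_one_pow_eq_or ℤ _)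
  by_cases ht : t = Fin.last (2 * q)
  · subst ht
    rw [eps, if_pos rfl, Fin.last_add_one]
    simp only [Fin.val_last, Fin.val_zero, add_zero]
    have : ((-1 : ℤ)) ^ ((i : ℕ) + 2 * q) = (-1) ^ (i : ℕ) := by
      rw [pow_add, pow_mul]; simp
    rw [this, hi]
  · rw [eps, if_neg ht, Fin.val_add_one_of_lt (Fin.lt_last_iff_ne_last.2 ht)]
    have ht' : ((-1 : ℤ)) ^ (t : ℕ) * (-1) ^ (t : ℕ) = 1 := sq_one (neg_one_pow_eq_or ℤ _)
    rw [pow_add, pow_add, pow_succ]
    linear_combination (-(((-1 : ℤ)) ^ (t : ℕ) * (-1) ^ (t : ℕ))) * hi - ht'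

theorem OrS_wires (q : ℕ) {r : Finset (ℕ × ℕ)} {η : HE q → ℤ} (h : Cons q r η) :
    OrS (wires q) (hx q) (cr q) η Gc := by
  intro c hc c' hc' k k' hne hW
  have h1 := ty_Gc hc k
  have h2 := ty_Gc hc' k'
  have h3 : -(ty k * ty k' * Gc c * Gc c') = -((ty k * Gc c) * (ty k' * Gc c')) := by ring
  rw [h3, h1, h2]
  rcases wires_cases hW with e | ⟨i, t, ea, eb⟩ | ⟨i, t, ea, eb⟩
  · exfalso
    apply hne
    rw [← lab_hx hc k, ← lab_hx hc' k', e]
  · rw [ea, eb, h.w i t, mul_assoc, sq_one (h.pm _), mul_one, eps_eq i t]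
  · rw [ea, eb, h.w i t, mul_comm (η _), mul_assoc, sq_one (h.pm _), mul_one, eps_eq i t]
    ring

variable {Pt ι : Type} [DecidableEq ι] {W : Setoid Pt} {x : ι → Fin 4 → Pt} {S T : Finset ι}
  {η : Pt → ℤ} {G : ι → ℤ}

private def OrM {L : Type} (F : Set L) (W : Setoid Pt) (y : L → Pt) (η : Pt → ℤ) (T : L → ℤ) :
    Prop :=
  ∀ l ∈ F, ∀ l' ∈ F, l ≠ l' → W (y l) (y l') → η (y l) * η (y l') = -(T l * T l')

private theorem orM_join {L : Type} {F F' : Set L} {W : Setoid Pt} {y : L → Pt} {T : L → ℤ}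
    (hη : ∀ p, η p = 1 ∨ η p = -1) (hT : ∀ l, T l = 1 ∨ T l = -1) (h : OrM F W y η T) {a b : L}
    (ha : a ∈ F) (hb : b ∈ F) (he : η (y a) = η (y b)) (hab : T a = -T b)
    (hF : ∀ l ∈ F', l ∈ F ∧ l ≠ a ∧ l ≠ b) : OrM F' (W ⊔ pr (y a) (y b)) y η T := by
  intro l hl l' hl' hne hW
  obtain ⟨hlF, hla, hlb⟩ := hF l hl
  obtain ⟨hl'F, hl'a, hl'b⟩ := hF l' hl'
  have hTb := sq_one (hT b)
  have hηb := sq_one (hη (y b))
  rw [sup_pr] at hW
  rcases hW with h1 | ⟨h1, h2⟩ | ⟨h1, h2⟩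
  · exact h l hlF l' hl'F hne h1
  · have e1 := h l hlF a ha hla h1
    have e2 := h b hb l' hl'F (Ne.symm hl'b) h2
    rw [he, hab] at e1
    calc η (y l) * η (y l') = (η (y l) * η (y b)) * (η (y b) * η (y l')) := by
          linear_combination (-(η (y l) * η (y l'))) * hηb
      _ = -(T l * T l') := by
          rw [e1, e2]
          linear_combination (-(T l * T l')) * hTb
  · have e1 := h l hlF b hb hlb h1
    have e2 := h a ha l' hl'F (Ne.symm hl'a) h2
    rw [he, hab] at e2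
    calc η (y l) * η (y l') = (η (y l) * η (y b)) * (η (y b) * η (y l')) := by
          linear_combination (-(η (y l) * η (y l'))) * hηb
      _ = -(T l * T l') := by
          rw [e1, e2]
          linear_combination (-(T l * T l')) * hTb

private theorem ty_pm (k : Fin 4) : ty k = 1 ∨ ty k = -1 := by
  fin_cases k <;> simp [ty]

omit [DecidableEq ι] in
private theorem orS_iff : OrS W x S η G ↔
    OrM {l : ι × Fin 4 | l.1 ∈ S} W (fun l => x l.1 l.2) η (fun l => ty l.2 * G l.1) := by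
  constructor
  · rintro h ⟨c, k⟩ hl ⟨c', k'⟩ hl' hne hW
    have := h c hl c' hl' k k' hne hW
    simp only
    rw [this]
    ring
  · intro h c hc c' hc' k k' hne hW
    have := h (c, k) hc (c', k') hc' hne hW
    simp only at this
    rw [this]
    ring

private theorem orS_two {c : ι} {p q r s : Fin 4} (hη : ∀ p, η p = 1 ∨ η p = -1)
    (hG : ∀ c, G c = 1 ∨ G c = -1) (hc : c ∉ S) (h : OrS W x (insert c S) η G)
    (hrp : r ≠ p) (hrq : r ≠ q) (hsp : s ≠ p) (hsq : s ≠ q)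
    (t1 : ty p = -ty q) (t2 : ty r = -ty s)
    (e1 : η (x c p) = η (x c q)) (e2 : η (x c r) = η (x c s)) :
    OrS (W ⊔ (pr (x c p) (x c q) ⊔ pr (x c r) (x c s))) x S η G := by
  rw [orS_iff] at h ⊢
  have hT : ∀ l : ι × Fin 4, ty l.2 * G l.1 = 1 ∨ ty l.2 * G l.1 = -1 := by
    intro l
    rcases ty_pm l.2 with h1 | h1 <;> rcases hG l.1 with h2 | h2 <;> rw [h1, h2] <;> simp
  have hmem : ∀ k : Fin 4, ((c, k) : ι × Fin 4) ∈ {l : ι × Fin 4 | l.1 ∈ insert c S} :=
    fun k => Finset.mem_insert_self c S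
  rw [← sup_assoc]
  refine orM_join (a := (c, r)) (b := (c, s)) hη hT
    (F := {l : ι × Fin 4 | l.1 ∈ insert c S ∧ l ≠ (c, p) ∧ l ≠ (c, q)})
    (orM_join (a := (c, p)) (b := (c, q)) hη hT h (hmem p) (hmem q) e1 ?_ ?_) ?_ ?_ e2 ?_ ?_
  · simp only
    rw [t1]; ring
  · rintro l ⟨h1, h2, h3⟩
    exact ⟨h1, h2, h3⟩
  · exact ⟨hmem r, fun e => hrp (Prod.ext_iff.1 e).2, fun e => hrq (Prod.ext_iff.1 e).2⟩
  · exact ⟨hmem s, fun e => hsp (Prod.ext_iff.1 e).2, fun e => hsq (Prod.ext_iff.1 e).2⟩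
  · simp only
    rw [t2]; ring
  · intro l hl
    have hl' : l.1 ∈ S := hl
    have hne : ∀ k : Fin 4, l ≠ (c, k) := by
      intro k e
      rw [e] at hl'
      exact hc hl'
    exact ⟨⟨Finset.mem_insert_of_mem hl', hne p, hne q⟩, hne r, hne s⟩

theorem OrS_U (hη : ∀ p, η p = 1 ∨ η p = -1) (hG : ∀ c, G c = 1 ∨ G c = -1)
    (hL : Legit W x (S ∪ T)) (hST : Disjoint S T) (h : OrS W x (S ∪ T) η G) (r : Finset ι)
    (h0 : ∀ c ∈ T, c ∉ r → η (x c 0) = η (x c 1) ∧ η (x c 2) = η (x c 3))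
    (h1 : ∀ c ∈ T, c ∈ r → η (x c 0) = η (x c 2) ∧ η (x c 1) = η (x c 3)) :
    OrS (U W x T r) x S η G := by
  clear hL
  induction T using Finset.induction_on generalizing W with
  | empty =>
    rw [U_empty]
    rw [Finset.union_empty] at h
    exact h
  | insert c T hcT ih =>
    rw [Finset.disjoint_insert_right] at hST
    have hc : c ∉ S ∪ T := by
      rw [Finset.mem_union]
      rintro (e | e)
      · exact hST.1 e
      · exact hcT e
    rw [Finset.union_insert] at h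
    have h0' : ∀ d ∈ T, d ∉ r → η (x d 0) = η (x d 1) ∧ η (x d 2) = η (x d 3) :=
      fun d hd => h0 d (Finset.mem_insert_of_mem hd)
    have h1' : ∀ d ∈ T, d ∈ r → η (x d 0) = η (x d 2) ∧ η (x d 1) = η (x d 3) :=
      fun d hd => h1 d (Finset.mem_insert_of_mem hd)
    by_cases hr : c ∈ r
    · rw [U_ins1 hr]
      obtain ⟨g0, g1⟩ := h1 c (Finset.mem_insert_self _ _) hr
      exact ih hST.2 (orS_two hη hG hc h (by decide) (by decide) (by decide) (by decide)
        (by simp [ty]) (by simp [ty]) g0 g1) h0' h1'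
    · rw [U_ins0 hr]
      obtain ⟨g0, g1⟩ := h0 c (Finset.mem_insert_self _ _) hr
      exact ih hST.2 (orS_two hη hG hc h (by decide) (by decide) (by decide) (by decide)
        (by simp [ty]) (by simp [ty]) g0 g1) h0' h1'

theorem ordH_inj (q : ℕ) : Function.Injective (ordH q) := by
  rintro ⟨i, t, s⟩ ⟨i', t', s'⟩ h
  have ht := t.2
  have ht' := t'.2
  unfold ordH at h
  simp only at h
  have hs : s = s' ∧ (i : ℕ) * (2 * q + 1) + t = (i' : ℕ) * (2 * q + 1) + t' := by
    cases s <;> cases s' <;> simp at h ⊢ <;> omega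
  obtain ⟨rfl, h2⟩ := hs
  have h3 : (i : ℕ) = i' := by
    have e1 : ((i : ℕ) * (2 * q + 1) + t) / (2 * q + 1) = i := by
      rw [mul_comm, Nat.mul_add_div (by omega), Nat.div_eq_of_lt ht, add_zero]
    have e2 : ((i' : ℕ) * (2 * q + 1) + t') / (2 * q + 1) = i' := by
      rw [mul_comm, Nat.mul_add_div (by omega), Nat.div_eq_of_lt ht', add_zero]
    rw [← e1, h2, e2]
  rw [h3] at h2
  have h4 : (t : ℕ) = t' := by omega
  exact Prod.ext (Fin.ext h3) (Prod.ext (Fin.ext h4) rfl)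

end Pool.HPS
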