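import Pool.Agent.HPS.DefsS
import Pool.Agent.HPS.Leg
import Pool.Agent.HPS.Sad
import Pool.Agent.HPS.Sg1

/-!
# Module HPS-Sg3: faces anticommute

`Legit W x {c, c'}`: the 8 labels are perfectly matched by `W`.  The classes of the four states on the labels, and the
relative signs in the last state, are computed by `sf_mrg`, `sf_em` from the matching; the kernel checks for all 105
matchings and both values of `G c * G c'` the criterion `SfGood`, which implies that the two signed products of saddle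
coefficients add up to an element of the ideal.
-/

set_option autoImplicit false

open Finset MvPolynomial

namespace Pool.HPS

/-- merge the classes of `a` and `b` -/
private def sfMrg (f : Fin 8 → ℕ) (a b : Fin 8) : Fin 8 → ℕ := fun i => if f i = f b then f a else f i

/-- the signs after joining `a` and `b`, which have equal signs -/
private def sfEm (f : Fin 8 → ℕ) (e : Fin 8 → Bool) (a b : Fin 8) : Fin 8 → Bool :=
  fun i => if f i = f b then xor (e i) (xor (e a) (e b)) else e i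

/-- the classes of a matching -/
private def sfBase (t : Fin 8 → Fin 8) : Fin 8 → ℕ := fun i => min i.val (t i).val

/-- the types of the labels, with the sign `g` at the second crossing -/
private def sfLb (g : Bool) (i : Fin 8) : Bool :=
  xor (decide (i.val % 4 = 1 ∨ i.val % 4 = 2)) (decide (4 ≤ i.val) && g)

/-- the signs of a matching -/
private def sfEb (g : Bool) (t : Fin 8 → Fin 8) : Fin 8 → Bool :=
  fun i => if i.val ≤ (t i).val then false else !(xor (sfLb g i) (sfLb g (t i)))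

private def sf00 (t : Fin 8 → Fin 8) : Fin 8 → ℕ :=
  sfMrg (sfMrg (sfMrg (sfMrg (sfBase t) 0 1) 2 3) 4 5) 6 7

private def sf10 (t : Fin 8 → Fin 8) : Fin 8 → ℕ :=
  sfMrg (sfMrg (sfMrg (sfMrg (sfBase t) 0 2) 1 3) 4 5) 6 7

private def sf01 (t : Fin 8 → Fin 8) : Fin 8 → ℕ :=
  sfMrg (sfMrg (sfMrg (sfMrg (sfBase t) 0 1) 2 3) 4 6) 5 7

private def sf11 (t : Fin 8 → Fin 8) : Fin 8 → ℕ :=
  sfMrg (sfMrg (sfMrg (sfMrg (sfBase t) 0 2) 1 3) 4 6) 5 7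

private def sfE (g : Bool) (t : Fin 8 → Fin 8) : Fin 8 → Bool :=
  sfEm (sfMrg (sfMrg (sfMrg (sfBase t) 0 2) 1 3) 4 6)
    (sfEm (sfMrg (sfMrg (sfBase t) 0 2) 1 3)
      (sfEm (sfMrg (sfBase t) 0 2)
        (sfEm (sfBase t) (sfEb g t) 0 2) 1 3) 4 6) 5 7

/-- the first product lies in the ideal -/
private def SfZ1 (f00 f10 f11 : Fin 8 → ℕ) (e : Fin 8 → Bool) : Prop :=
  (f00 0 = f00 2 ∧ f10 0 = f10 1) ∨ (f10 4 = f10 6 ∧ f11 4 = f11 5) ∨
    (f00 0 = f00 2 ∧ ¬ f10 0 = f10 1 ∧ ¬ f10 4 = f10 6 ∧ f11 0 = f11 1 ∧ xor (e 0) (e 1) = true)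

/-- the second product lies in the ideal -/
private def SfZ2 (f00 f01 f11 : Fin 8 → ℕ) (e : Fin 8 → Bool) : Prop :=
  (f00 4 = f00 6 ∧ f01 4 = f01 5) ∨ (f01 0 = f01 2 ∧ f11 0 = f11 1) ∨
    (f00 4 = f00 6 ∧ ¬ f01 4 = f01 5 ∧ ¬ f01 0 = f01 2 ∧ f11 4 = f11 5 ∧ xor (e 4) (e 5) = true)

/-- two pairs of classes agree, directly (`false`) or crosswise (`true`) -/
private def SfR (f : Fin 8 → ℕ) (a b p q : Fin 8) (u : Bool) : Prop :=
  (u = false ∧ f p = f a ∧ f q = f b) ∨ (u = true ∧ f p = f b ∧ f q = f a)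

/-- merge then split, both ways -/
private def SfMS (f00 f11 : Fin 8 → ℕ) (e : Fin 8 → Bool) (g : Bool) (u v : Bool) : Prop :=
  SfR f00 0 2 4 6 u ∧
    ((v = false ∧ f11 4 = f11 0 ∧ f11 5 = f11 1 ∧ xor (e 4) (e 0) = !(xor g (xor u v)) ∧
        xor (e 5) (e 1) = !(xor g (xor u v))) ∨
      (v = true ∧ f11 4 = f11 1 ∧ f11 5 = f11 0 ∧ xor (e 4) (e 1) = !(xor g (xor u v)) ∧
        xor (e 5) (e 0) = !(xor g (xor u v))))

/-- split then merge, both ways -/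
private def SfSM (f10 f01 f11 : Fin 8 → ℕ) (e : Fin 8 → Bool) (g : Bool) (u v : Bool) : Prop :=
  SfR f10 0 1 4 6 u ∧ SfR f01 4 5 0 2 v ∧ f11 4 = f11 0 ∧ f11 5 = f11 1 ∧
    xor (e 4) (e 0) = !(xor g (xor u v)) ∧ xor (e 5) (e 1) = !(xor g (xor u v))

/-- the criterion -/
private def SfGood (f00 f10 f01 f11 : Fin 8 → ℕ) (e : Fin 8 → Bool) (g : Bool) : Prop :=
  (SfZ1 f00 f10 f11 e ∧ SfZ2 f00 f01 f11 e) ∨
    (¬ f00 0 = f00 2 ∧ ¬ f10 4 = f10 6 ∧ ¬ f00 4 = f00 6 ∧ ¬ f01 0 = f01 2) ∨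
    ((f00 0 = f00 2 ∧ ¬ f10 0 = f10 1 ∧ f10 4 = f10 6 ∧ ¬ f11 4 = f11 5) ∧
      (f00 4 = f00 6 ∧ ¬ f01 4 = f01 5 ∧ f01 0 = f01 2 ∧ ¬ f11 0 = f11 1)) ∨
    ((¬ f00 0 = f00 2 ∧ f10 4 = f10 6 ∧ ¬ f11 4 = f11 5) ∧
      (f00 4 = f00 6 ∧ ¬ f01 4 = f01 5 ∧ ¬ f01 0 = f01 2)) ∨
    ((f00 0 = f00 2 ∧ ¬ f10 0 = f10 1 ∧ ¬ f10 4 = f10 6) ∧
      (¬ f00 4 = f00 6 ∧ f01 0 = f01 2 ∧ ¬ f11 0 = f11 1)) ∨
    ((¬ f00 0 = f00 2 ∧ f10 4 = f10 6 ∧ ¬ f11 4 = f11 5) ∧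
      (¬ f00 4 = f00 6 ∧ f01 0 = f01 2 ∧ ¬ f11 0 = f11 1) ∧
      (SfMS f00 f11 e g false false ∨ SfMS f00 f11 e g false true ∨
        SfMS f00 f11 e g true false ∨ SfMS f00 f11 e g true true)) ∨
    ((f00 0 = f00 2 ∧ ¬ f10 0 = f10 1 ∧ ¬ f10 4 = f10 6) ∧
      (f00 4 = f00 6 ∧ ¬ f01 4 = f01 5 ∧ ¬ f01 0 = f01 2) ∧
      (SfSM f10 f01 f11 e g false false ∨ SfSM f10 f01 f11 e g false true ∨
        SfSM f10 f01 f11 e g true false ∨ SfSM f10 f01 f11 e g true true))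

private instance sfDecZ1 (f00 f10 f11 : Fin 8 → ℕ) (e : Fin 8 → Bool) :
    Decidable (SfZ1 f00 f10 f11 e) := by
  unfold SfZ1
  infer_instance

private instance sfDecZ2 (f00 f01 f11 : Fin 8 → ℕ) (e : Fin 8 → Bool) :
    Decidable (SfZ2 f00 f01 f11 e) := by
  unfold SfZ2
  infer_instance

private instance sfDecR (f : Fin 8 → ℕ) (a b p q : Fin 8) (u : Bool) :
    Decidable (SfR f a b p q u) := by
  unfold SfR
  infer_instance

private instance sfDecMS (f00 f11 : Fin 8 → ℕ) (e : Fin 8 → Bool) (g u v : Bool) :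
    Decidable (SfMS f00 f11 e g u v) := by
  unfold SfMS
  infer_instance

private instance sfDecSM (f10 f01 f11 : Fin 8 → ℕ) (e : Fin 8 → Bool) (g u v : Bool) :
    Decidable (SfSM f10 f01 f11 e g u v) := by
  unfold SfSM
  infer_instance

private instance sfDecGood (f00 f10 f01 f11 : Fin 8 → ℕ) (e : Fin 8 → Bool) (g : Bool) :
    Decidable (SfGood f00 f10 f01 f11 e g) := by
  unfold SfGood
  infer_instance

private def sfTab (t0 t1 t2 t3 t4 t5 t6 t7 : Fin 8) : Fin 8 → Fin 8 := fun i =>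
  if i.val = 0 then t0 else if i.val = 1 then t1 else if i.val = 2 then t2 else if i.val = 3 then t3
  else if i.val = 4 then t4 else if i.val = 5 then t5 else if i.val = 6 then t6 else t7

/-- compatibility of two values of a fixed point free involution -/
private def SfOk (j k tj tk : Fin 8) : Prop := (tj = k ↔ tk = j) ∧ tj ≠ tk

private instance sfDecOk (j k tj tk : Fin 8) : Decidable (SfOk j k tj tk) := by
  unfold SfOk
  infer_instance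

private def SfA7 (g : Bool) (t0 t1 t2 t3 t4 t5 t6 : Fin 8) : Prop :=
  ∀ t7 : Fin 8, t7 ≠ 7 ∧ SfOk 0 7 t0 t7 ∧ SfOk 1 7 t1 t7 ∧ SfOk 2 7 t2 t7 ∧ SfOk 3 7 t3 t7 ∧
    SfOk 4 7 t4 t7 ∧ SfOk 5 7 t5 t7 ∧ SfOk 6 7 t6 t7 →
    SfGood (sf00 (sfTab t0 t1 t2 t3 t4 t5 t6 t7)) (sf10 (sfTab t0 t1 t2 t3 t4 t5 t6 t7))
      (sf01 (sfTab t0 t1 t2 t3 t4 t5 t6 t7)) (sf11 (sfTab t0 t1 t2 t3 t4 t5 t6 t7))
      (sfE g (sfTab t0 t1 t2 t3 t4 t5 t6 t7)) g

private instance sfDecA7 (g : Bool) (t0 t1 t2 t3 t4 t5 t6 : Fin 8) :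
    Decidable (SfA7 g t0 t1 t2 t3 t4 t5 t6) := by
  unfold SfA7
  infer_instance

private def SfA6 (g : Bool) (t0 t1 t2 t3 t4 t5 : Fin 8) : Prop :=
  ∀ t6 : Fin 8, t6 ≠ 6 ∧ SfOk 0 6 t0 t6 ∧ SfOk 1 6 t1 t6 ∧ SfOk 2 6 t2 t6 ∧ SfOk 3 6 t3 t6 ∧
    SfOk 4 6 t4 t6 ∧ SfOk 5 6 t5 t6 → SfA7 g t0 t1 t2 t3 t4 t5 t6

private instance sfDecA6 (g : Bool) (t0 t1 t2 t3 t4 t5 : Fin 8) :
    Decidable (SfA6 g t0 t1 t2 t3 t4 t5) := by
  unfold SfA6
  infer_instance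

private def SfA5 (g : Bool) (t0 t1 t2 t3 t4 : Fin 8) : Prop :=
  ∀ t5 : Fin 8, t5 ≠ 5 ∧ SfOk 0 5 t0 t5 ∧ SfOk 1 5 t1 t5 ∧ SfOk 2 5 t2 t5 ∧ SfOk 3 5 t3 t5 ∧
    SfOk 4 5 t4 t5 → SfA6 g t0 t1 t2 t3 t4 t5

private instance sfDecA5 (g : Bool) (t0 t1 t2 t3 t4 : Fin 8) :
    Decidable (SfA5 g t0 t1 t2 t3 t4) := by
  unfold SfA5
  infer_instance

private def SfA4 (g : Bool) (t0 t1 t2 t3 : Fin 8) : Prop :=
  ∀ t4 : Fin 8, t4 ≠ 4 ∧ SfOk 0 4 t0 t4 ∧ SfOk 1 4 t1 t4 ∧ SfOk 2 4 t2 t4 ∧ SfOk 3 4 t3 t4 →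
    SfA5 g t0 t1 t2 t3 t4

private instance sfDecA4 (g : Bool) (t0 t1 t2 t3 : Fin 8) : Decidable (SfA4 g t0 t1 t2 t3) := by
  unfold SfA4
  infer_instance

private def SfA3 (g : Bool) (t0 t1 t2 : Fin 8) : Prop :=
  ∀ t3 : Fin 8, t3 ≠ 3 ∧ SfOk 0 3 t0 t3 ∧ SfOk 1 3 t1 t3 ∧ SfOk 2 3 t2 t3 → SfA4 g t0 t1 t2 t3

private instance sfDecA3 (g : Bool) (t0 t1 t2 : Fin 8) : Decidable (SfA3 g t0 t1 t2) := by
  unfold SfA3
  infer_instance

private def SfA2 (g : Bool) (t0 t1 : Fin 8) : Prop :=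
  ∀ t2 : Fin 8, t2 ≠ 2 ∧ SfOk 0 2 t0 t2 ∧ SfOk 1 2 t1 t2 → SfA3 g t0 t1 t2

private instance sfDecA2 (g : Bool) (t0 t1 : Fin 8) : Decidable (SfA2 g t0 t1) := by
  unfold SfA2
  infer_instance

private def SfA1 (g : Bool) (t0 : Fin 8) : Prop :=
  ∀ t1 : Fin 8, t1 ≠ 1 ∧ SfOk 0 1 t0 t1 → SfA2 g t0 t1

private instance sfDecA1 (g : Bool) (t0 : Fin 8) : Decidable (SfA1 g t0) := by
  unfold SfA1
  infer_instance

private theorem sf_check : ∀ g : Bool, ∀ t0 : Fin 8, t0 ≠ 0 → SfA1 g t0 := by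
  decide +kernel

private theorem sf_good (g : Bool) (t : Fin 8 → Fin 8) (h1 : ∀ i, t (t i) = i) (h2 : ∀ i, t i ≠ i) :
    SfGood (sf00 t) (sf10 t) (sf01 t) (sf11 t) (sfE g t) g := by
  have ht : t = sfTab (t 0) (t 1) (t 2) (t 3) (t 4) (t 5) (t 6) (t 7) := by
    funext i
    fin_cases i <;> rfl
  have hok : ∀ j k : Fin 8, j ≠ k → SfOk j k (t j) (t k) := by
    intro j k hjk
    refine ⟨⟨fun h => ?_, fun h => ?_⟩, fun h => ?_⟩
    · rw [← h, h1]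
    · rw [← h, h1]
    · apply hjk
      rw [← h1 j, h, h1]
  rw [ht]
  exact sf_check g _ (h2 0) _ ⟨h2 1, hok 0 1 (by decide)⟩ _
    ⟨h2 2, hok 0 2 (by decide), hok 1 2 (by decide)⟩ _
    ⟨h2 3, hok 0 3 (by decide), hok 1 3 (by decide), hok 2 3 (by decide)⟩ _
    ⟨h2 4, hok 0 4 (by decide), hok 1 4 (by decide), hok 2 4 (by decide), hok 3 4 (by decide)⟩ _
    ⟨h2 5, hok 0 5 (by decide), hok 1 5 (by decide), hok 2 5 (by decide), hok 3 5 (by decide),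
      hok 4 5 (by decide)⟩ _
    ⟨h2 6, hok 0 6 (by decide), hok 1 6 (by decide), hok 2 6 (by decide), hok 3 6 (by decide),
      hok 4 6 (by decide), hok 5 6 (by decide)⟩ _
    ⟨h2 7, hok 0 7 (by decide), hok 1 7 (by decide), hok 2 7 (by decide), hok 3 7 (by decide),
      hok 4 7 (by decide), hok 5 7 (by decide), hok 6 7 (by decide)⟩

/-- the sign of a Boolean -/
private def sfZ (b : Bool) : ℤ := if b then -1 else 1

private theorem sfZ_xor (a b : Bool) : sfZ (xor a b) = sfZ a * sfZ b := by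
  cases a <;> cases b <;> rfl

private theorem sfZ_not (a : Bool) : sfZ (!a) = -sfZ a := by
  cases a <;> rfl

private theorem sfZ_sq (a : Bool) : sfZ a * sfZ a = 1 := by
  cases a <;> rfl

private theorem sfZ_ex {n : ℤ} (h : n = 1 ∨ n = -1) : ∃ b, n = sfZ b := by
  rcases h with h | h
  · exact ⟨false, h⟩
  · exact ⟨true, h⟩

section signs

variable {P : Fin 8 → ℤ}

private theorem sf_em (hP : ∀ i, P i * P i = 1) {f : Fin 8 → ℕ} {e : Fin 8 → Bool}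
    (h : ∀ i j, f i = f j → P i * P j = sfZ (e i) * sfZ (e j)) {a b : Fin 8} (hab : P a = P b) :
    ∀ i j, sfMrg f a b i = sfMrg f a b j →
      P i * P j = sfZ (sfEm f e a b i) * sfZ (sfEm f e a b j) := by
  intro i j hij
  unfold sfMrg at hij
  unfold sfEm
  by_cases hi : f i = f b
  · by_cases hj : f j = f b
    · rw [if_pos hi, if_pos hj, sfZ_xor (e i), sfZ_xor (e j), h i j (hi.trans hj.symm)]
      have h1 := sfZ_sq (xor (e a) (e b))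
      linear_combination (-(sfZ (e i) * sfZ (e j))) * h1
    · rw [if_pos hi, if_neg hj] at hij
      rw [if_pos hi, if_neg hj, sfZ_xor, sfZ_xor]
      have h1 := h i b hi
      have h2 := h a j hij
      have h3 := hP b
      have h4 : P i * P j = (P i * P b) * (P a * P j) := by
        rw [hab]
        linear_combination (-(P i * P j)) * h3
      rw [h4, h1, h2]
      ring
  · by_cases hj : f j = f b
    · rw [if_neg hi, if_pos hj] at hij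
      rw [if_neg hi, if_pos hj, sfZ_xor, sfZ_xor]
      have h1 := h j b hj
      have h2 := h a i hij.symm
      have h3 := hP b
      have h4 : P i * P j = (P j * P b) * (P a * P i) := by
        rw [hab]
        linear_combination (-(P i * P j)) * h3
      rw [h4, h1, h2]
      ring
    · rw [if_neg hi, if_neg hj] at hij
      rw [if_neg hi, if_neg hj]
      exact h i j hij

private theorem sf_eb (hP : ∀ i, P i * P i = 1) {t : Fin 8 → Fin 8} {g : Bool}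
    (h1 : ∀ i, t (t i) = i) (h2 : ∀ i, t i ≠ i)
    (h3 : ∀ i, P i * P (t i) = -(sfZ (sfLb g i) * sfZ (sfLb g (t i)))) :
    ∀ i j, sfBase t i = sfBase t j → P i * P j = sfZ (sfEb g t i) * sfZ (sfEb g t j) := by
  intro i j hf
  have h4 : j = i ∨ j = t i := by
    unfold sfBase at hf
    rcases Nat.le_total i.val (t i).val with h5 | h5 <;>
      rcases Nat.le_total j.val (t j).val with h6 | h6
    · rw [Nat.min_eq_left h5, Nat.min_eq_left h6] at hf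
      exact Or.inl (Fin.ext hf.symm)
    · rw [Nat.min_eq_left h5, Nat.min_eq_right h6] at hf
      right
      rw [Fin.ext hf, h1]
    · rw [Nat.min_eq_right h5, Nat.min_eq_left h6] at hf
      right
      exact (Fin.ext hf).symm
    · rw [Nat.min_eq_right h5, Nat.min_eq_right h6] at hf
      left
      rw [← h1 i, ← h1 j, Fin.ext hf]
  rcases h4 with h4 | h4
  · rw [h4, hP i, sfZ_sq]
  · rw [h4, h3 i]
    unfold sfEb
    rw [h1]
    rcases Nat.lt_or_ge i.val (t i).val with h5 | h5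
    · rw [if_pos h5.le, if_neg (not_le.2 h5), sfZ_not, sfZ_xor]
      have h6 : sfZ false = 1 := rfl
      rw [h6]
      ring
    · have h6 : (t i).val < i.val := by
        refine lt_of_le_of_ne h5 (fun h7 => h2 i (Fin.ext h7))
      rw [if_neg (not_le.2 h6), if_pos h6.le, sfZ_not, sfZ_xor]
      have h7 : sfZ false = 1 := rfl
      rw [h7]
      ring

end signs

section ideal

variable {Pt : Type}

private theorem sf_mem {V : Setoid Pt} {η : Pt → ℤ} {p q : Pt} (h : V p q) :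
    (X p - C ((η p * η q : ℤ) : ℚ) * X q : MvPolynomial Pt ℚ) ∈ IV ℚ V η :=
  Ideal.subset_span (Or.inr ⟨p, q, h, rfl⟩)

private theorem sf_rel {V : Setoid Pt} {η : Pt → ℤ} {a b a' b' : Pt} {ζ : ℤ} (h1 : V a' a)
    (h2 : V b' b) (z1 : η a' * η a = ζ) (z2 : η b' * η b = ζ) :
    ((X a' + X b') - C (ζ : ℚ) * (X a + X b) : MvPolynomial Pt ℚ) ∈ IV ℚ V η := by
  have e1 := sf_mem (η := η) h1
  have e2 := sf_mem (η := η) h2
  rw [z1] at e1
  rw [z2] at e2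
  have e3 := (IV ℚ V η).add_mem e1 e2
  have e4 : ((X a' + X b') - C (ζ : ℚ) * (X a + X b) : MvPolynomial Pt ℚ) =
      X a' - C (ζ : ℚ) * X a + (X b' - C (ζ : ℚ) * X b) := by ring
  rw [e4]
  exact e3

private theorem sf_pq {V : Setoid Pt} {η : Pt → ℤ} {p q ζ : ℤ} {P Q : MvPolynomial Pt ℚ}
    (h : P - C (ζ : ℚ) * Q ∈ IV ℚ V η) (hpq : p * ζ + q = 0) :
    C (p : ℚ) * P + C (q : ℚ) * Q ∈ IV ℚ V η := by
  have h1 : (C (p : ℚ) * C (ζ : ℚ) + C (q : ℚ) : MvPolynomial Pt ℚ) = 0 := by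
    rw [← C_mul, ← C_add]
    have h2 : ((p : ℚ) * (ζ : ℚ) + (q : ℚ)) = 0 := by
      exact_mod_cast hpq
    rw [h2, C_0]
  have h3 : C (p : ℚ) * P + C (q : ℚ) * Q = C (p : ℚ) * (P - C (ζ : ℚ) * Q) := by
    linear_combination Q * h1
  rw [h3]
  exact (IV ℚ V η).mul_mem_left _ h

private theorem sf_pq1 {V : Setoid Pt} {η : Pt → ℤ} {p q : ℤ} {P Q : MvPolynomial Pt ℚ}
    (hPQ : P = Q) (hp : p = 1 ∨ p = -1) (hpq : p * q = -1) :
    C (p : ℚ) * P + C (q : ℚ) * Q ∈ IV ℚ V η := by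
  apply sf_pq (ζ := 1)
  · rw [hPQ, Int.cast_one, C_1, one_mul, sub_self]
    exact (IV ℚ V η).zero_mem
  · rcases hp with h | h
    · rw [h] at hpq ⊢
      linarith
    · rw [h] at hpq ⊢
      linarith

variable {V V' : Setoid Pt} {y : Fin 4 → Pt} {ord : Pt → ℕ} {G : ℤ}

private theorem sgk_m (h : ¬ V (y 0) (y 2)) : sgk ord G V V' y = sg ord V (y 0) (y 2) := by
  unfold sgk
  rw [if_pos h]

private theorem sgk_s (h : V (y 0) (y 2)) (h' : ¬ V' (y 0) (y 1)) :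
    sgk ord G V V' y = G * sg ord V' (y 0) (y 1) := by
  unfold sgk
  rw [if_neg (not_not.2 h), if_pos h']

private theorem kk_m (h : ¬ V (y 0) (y 2)) : kk V V' y = 1 := by
  unfold kk
  rw [if_pos h]

private theorem kk_s (h : V (y 0) (y 2)) (h' : ¬ V' (y 0) (y 1)) :
    kk V V' y = X (y 0) + X (y 1) := by
  unfold kk
  rw [if_neg (not_not.2 h), if_pos h']

private theorem kk_n (h : V (y 0) (y 2)) (h' : V' (y 0) (y 1)) : kk V V' y = 0 := by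
  unfold kk
  rw [if_neg (not_not.2 h), if_neg (not_not.2 h')]

private theorem sf_z {V0 V1 V2 : Setoid Pt} {y y' : Fin 4 → Pt} {η : Pt → ℤ}
    (h : (V0 (y 0) (y 2) ∧ V1 (y 0) (y 1)) ∨ (V1 (y' 0) (y' 2) ∧ V2 (y' 0) (y' 1)) ∨
      (V0 (y 0) (y 2) ∧ ¬ V1 (y 0) (y 1) ∧ ¬ V1 (y' 0) (y' 2) ∧ V2 (y 0) (y 1) ∧
        η (y 0) * η (y 1) = -1)) :
    kk V0 V1 y * kk V1 V2 y' ∈ IV ℚ V2 η := by
  rcases h with ⟨h1, h2⟩ | ⟨h1, h2⟩ | ⟨h1, h2, h3, h4, h5⟩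
  · rw [kk_n h1 h2, zero_mul]
    exact (IV ℚ V2 η).zero_mem
  · rw [kk_n h1 h2, mul_zero]
    exact (IV ℚ V2 η).zero_mem
  · rw [kk_s h1 h2, kk_m h3, mul_one]
    have h6 := sf_mem (η := η) h4
    rw [h5, Int.cast_neg, Int.cast_one, C_neg, C_1, neg_one_mul, sub_neg_eq_add] at h6
    exact h6

private theorem sf_sg [Finite Pt] (ho : Function.Injective ord) {a b p q : Pt} {u : Bool}
    (hab : ¬ V a b) (h : (u = false ∧ V p a ∧ V q b) ∨ (u = true ∧ V p b ∧ V q a)) :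
    sg ord V p q = sfZ u * sg ord V a b := by
  rcases h with ⟨hu, h1, h2⟩ | ⟨hu, h1, h2⟩
  · rw [hu, sg_congr h1 h2]
    exact (one_mul _).symm
  · rw [hu, sg_congr h1 h2, sg_swap ho hab]
    exact (neg_one_mul _).symm

/-- the sum of the two signed products -/
private noncomputable def sfT (ord : Pt → ℕ) (G G' : ℤ) (V00 V10 V01 V11 : Setoid Pt)
    (y y' : Fin 4 → Pt) : MvPolynomial Pt ℚ :=
  C (((sgk ord G V00 V10 y * sgk ord G' V10 V11 y' : ℤ)) : ℚ) * (kk V00 V10 y * kk V10 V11 y') +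
    C (((sgk ord G' V00 V01 y' * sgk ord G V01 V11 y : ℤ)) : ℚ) *
      (kk V00 V01 y' * kk V01 V11 y)

variable [Finite Pt] {G' : ℤ} {V00 V10 V01 V11 : Setoid Pt} {y' : Fin 4 → Pt} {η : Pt → ℤ}

private theorem pm_mul {a b : ℤ} (ha : a = 1 ∨ a = -1) (hb : b = 1 ∨ b = -1) :
    a * b = 1 ∨ a * b = -1 := by
  rcases ha with rfl | rfl <;> rcases hb with rfl | rfl <;> decide

private theorem sf_mm (ho : Function.Injective ord) (h1 : ¬ V00 (y 0) (y 2))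
    (h2 : ¬ V10 (y' 0) (y' 2)) (h3 : ¬ V00 (y' 0) (y' 2)) (h4 : ¬ V01 (y 0) (y 2))
    (e1 : V10 = V00 ⊔ pr (y 0) (y 2)) (e2 : V01 = V00 ⊔ pr (y' 0) (y' 2)) :
    sfT ord G G' V00 V10 V01 V11 y y' ∈ IV ℚ V11 η := by
  unfold sfT
  rw [sgk_m h1, sgk_m h2, sgk_m h3, sgk_m h4, kk_m h1, kk_m h2, kk_m h3, kk_m h4]
  refine sf_pq1 rfl (pm_mul sg_pm sg_pm) ?_
  subst e1 e2
  exact sg_two ho h1 h3 h2

private theorem sf_ss (ho : Function.Injective ord) (hG : G * G = 1) (hG' : G' * G' = 1)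
    (h1 : V00 (y 0) (y 2)) (h2 : ¬ V10 (y 0) (y 1)) (h3 : V10 (y' 0) (y' 2))
    (h4 : ¬ V11 (y' 0) (y' 1)) (h5 : V00 (y' 0) (y' 2)) (h6 : ¬ V01 (y' 0) (y' 1))
    (h7 : V01 (y 0) (y 2)) (h8 : ¬ V11 (y 0) (y 1))
    (e1 : V10 = V11 ⊔ pr (y' 0) (y' 1)) (e2 : V01 = V11 ⊔ pr (y 0) (y 1))
    (hp : G = 1 ∨ G = -1) (hp' : G' = 1 ∨ G' = -1) :
    sfT ord G G' V00 V10 V01 V11 y y' ∈ IV ℚ V11 η := by
  unfold sfT
  rw [sgk_s h1 h2, sgk_s h3 h4, sgk_s h5 h6, sgk_s h7 h8, kk_s h1 h2, kk_s h3 h4, kk_s h5 h6,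
    kk_s h7 h8]
  refine sf_pq1 (mul_comm _ _) (pm_mul (pm_mul hp sg_pm) (pm_mul hp' sg_pm)) ?_
  have key := sg_two ho (V := V11) (a := y 0) (b := y 1) (c := y' 0) (d := y' 1) h8 h4
    (by rw [← e2]; exact h6)
  rw [← e1, ← e2] at key
  calc G * sg ord V10 (y 0) (y 1) * (G' * sg ord V11 (y' 0) (y' 1)) *
        (G' * sg ord V01 (y' 0) (y' 1) * (G * sg ord V11 (y 0) (y 1))) =
      (G * G) * (G' * G') * (sg ord V11 (y 0) (y 1) * sg ord V01 (y' 0) (y' 1) *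
        (sg ord V11 (y' 0) (y' 1) * sg ord V10 (y 0) (y 1))) := by ring
    _ = -1 := by rw [hG, hG', key]; rfl

private theorem sf_mssm (ho : Function.Injective ord) (hG' : G' * G' = 1)
    (h1 : ¬ V00 (y 0) (y 2)) (h3 : V10 (y' 0) (y' 2))
    (h4 : ¬ V11 (y' 0) (y' 1)) (h5 : V00 (y' 0) (y' 2)) (h6 : ¬ V01 (y' 0) (y' 1))
    (h7 : ¬ V01 (y 0) (y 2))
    (e1 : V00 = V01 ⊔ pr (y' 0) (y' 1)) (e2 : V11 = V01 ⊔ pr (y 0) (y 2))
    (hp' : G' = 1 ∨ G' = -1) :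
    sfT ord G G' V00 V10 V01 V11 y y' ∈ IV ℚ V11 η := by
  unfold sfT
  rw [sgk_m h1, sgk_s h3 h4, sgk_s h5 h6, sgk_m h7, kk_m h1, kk_s h3 h4, kk_s h5 h6,
    kk_m h7]
  refine sf_pq1 (mul_comm _ _) (pm_mul sg_pm (pm_mul hp' sg_pm)) ?_
  have key := sg_two ho (V := V01) (a := y 0) (b := y 2) (c := y' 0) (d := y' 1) h7 h6
    (by rw [← e2]; exact h4)
  rw [← e1, ← e2] at key
  calc sg ord V00 (y 0) (y 2) * (G' * sg ord V11 (y' 0) (y' 1)) *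
        (G' * sg ord V01 (y' 0) (y' 1) * sg ord V01 (y 0) (y 2)) =
      (G' * G') * (sg ord V01 (y 0) (y 2) * sg ord V11 (y' 0) (y' 1) *
        (sg ord V01 (y' 0) (y' 1) * sg ord V00 (y 0) (y 2))) := by ring
    _ = -1 := by rw [hG', key]; rfl

private theorem sf_smms (ho : Function.Injective ord) (hG : G * G = 1)
    (h1 : V00 (y 0) (y 2)) (h2 : ¬ V10 (y 0) (y 1)) (h3 : ¬ V10 (y' 0) (y' 2))
    (h5 : ¬ V00 (y' 0) (y' 2))
    (h7 : V01 (y 0) (y 2)) (h8 : ¬ V11 (y 0) (y 1))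
    (e1 : V00 = V10 ⊔ pr (y 0) (y 1)) (e2 : V11 = V10 ⊔ pr (y' 0) (y' 2))
    (hp : G = 1 ∨ G = -1) :
    sfT ord G G' V00 V10 V01 V11 y y' ∈ IV ℚ V11 η := by
  unfold sfT
  rw [sgk_s h1 h2, sgk_m h3, sgk_m h5, sgk_s h7 h8, kk_s h1 h2, kk_m h3, kk_m h5,
    kk_s h7 h8]
  refine sf_pq1 (mul_comm _ _) (pm_mul (pm_mul hp sg_pm) sg_pm) ?_
  have key := sg_two ho (V := V10) (a := y' 0) (b := y' 2) (c := y 0) (d := y 1) h3 h2
    (by rw [← e2]; exact h8)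
  rw [← e1, ← e2] at key
  calc G * sg ord V10 (y 0) (y 1) * sg ord V10 (y' 0) (y' 2) *
        (sg ord V00 (y' 0) (y' 2) * (G * sg ord V11 (y 0) (y 1))) =
      (G * G) * (sg ord V10 (y' 0) (y' 2) * sg ord V11 (y 0) (y 1) *
        (sg ord V10 (y 0) (y 1) * sg ord V00 (y' 0) (y' 2))) := by ring
    _ = -1 := by rw [hG, key]; rfl

private theorem sf_msms {g u v : Bool} (hg : G * G' = sfZ g) (hG' : G' * G' = 1)
    (h1 : ¬ V00 (y 0) (y 2)) (h3 : V10 (y' 0) (y' 2))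
    (h4 : ¬ V11 (y' 0) (y' 1)) (h5 : ¬ V00 (y' 0) (y' 2))
    (h7 : V01 (y 0) (y 2)) (h8 : ¬ V11 (y 0) (y 1))
    (s1 : sg ord V00 (y' 0) (y' 2) = sfZ u * sg ord V00 (y 0) (y 2))
    (s2 : sg ord V11 (y' 0) (y' 1) = sfZ v * sg ord V11 (y 0) (y 1))
    (hr : (X (y' 0) + X (y' 1) - C ((sfZ (!(xor g (xor u v))) : ℤ) : ℚ) * (X (y 0) + X (y 1)) :
      MvPolynomial Pt ℚ) ∈ IV ℚ V11 η) :
    sfT ord G G' V00 V10 V01 V11 y y' ∈ IV ℚ V11 η := by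
  unfold sfT
  rw [sgk_m h1, sgk_s h3 h4, sgk_m h5, sgk_s h7 h8, kk_m h1, kk_s h3 h4, kk_m h5,
    kk_s h7 h8, one_mul, one_mul]
  refine sf_pq hr ?_
  rw [s1, s2, sfZ_not, sfZ_xor, sfZ_xor, ← hg]
  have hv := sfZ_sq v
  linear_combination
    (-(sg ord V00 (y 0) (y 2) * sg ord V11 (y 0) (y 1) * G * sfZ u * (G' * G'))) * hv -
      (sg ord V00 (y 0) (y 2) * sg ord V11 (y 0) (y 1) * G * sfZ u) * hG'

private theorem sf_smsm {g u v : Bool} (hg : G * G' = sfZ g) (hG' : G' * G' = 1)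
    (h1 : V00 (y 0) (y 2)) (h2 : ¬ V10 (y 0) (y 1)) (h3 : ¬ V10 (y' 0) (y' 2))
    (h5 : V00 (y' 0) (y' 2)) (h6 : ¬ V01 (y' 0) (y' 1))
    (h7 : ¬ V01 (y 0) (y 2))
    (s1 : sg ord V10 (y' 0) (y' 2) = sfZ u * sg ord V10 (y 0) (y 1))
    (s2 : sg ord V01 (y 0) (y 2) = sfZ v * sg ord V01 (y' 0) (y' 1))
    (hr : (X (y' 0) + X (y' 1) - C ((sfZ (!(xor g (xor u v))) : ℤ) : ℚ) * (X (y 0) + X (y 1)) :
      MvPolynomial Pt ℚ) ∈ IV ℚ V11 η) :
    sfT ord G G' V00 V10 V01 V11 y y' ∈ IV ℚ V11 η := by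
  unfold sfT
  rw [sgk_s h1 h2, sgk_m h3, sgk_s h5 h6, sgk_m h7, kk_s h1 h2, kk_m h3, kk_s h5 h6,
    kk_m h7, mul_one, mul_one, add_comm]
  refine sf_pq hr ?_
  have q1 : sg ord V10 (y 0) (y 1) * sg ord V10 (y 0) (y 1) = 1 := by
    rcases sg_pm (ord := ord) (V := V10) (a := y 0) (b := y 1) with h | h <;> rw [h] <;> rfl
  have q2 : sg ord V01 (y' 0) (y' 1) * sg ord V01 (y' 0) (y' 1) = 1 := by
    rcases sg_pm (ord := ord) (V := V01) (a := y' 0) (b := y' 1) with h | h <;> rw [h] <;> rfl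
  rw [s1, s2, sfZ_not, sfZ_xor, sfZ_xor, ← hg]
  have hv := sfZ_sq v
  linear_combination (G * sfZ u) * q1 - (G * sfZ u * (G' * G') * (sfZ v * sfZ v)) * q2 -
    (G * sfZ u * (G' * G')) * hv - (G * sfZ u) * hG'

/-- the labels as points -/
private def sfz (y y' : Fin 4 → Pt) : Fin 8 → Pt := ![y 0, y 1, y 2, y 3, y' 0, y' 1, y' 2, y' 3]

private theorem sf_final (ho : Function.Injective ord) {g : Bool} (hg : G * G' = sfZ g)
    (hp : G = 1 ∨ G = -1) (hp' : G' = 1 ∨ G' = -1)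
    {f00 f10 f01 f11 : Fin 8 → ℕ} {e : Fin 8 → Bool}
    (h00 : ∀ i j, V00 (sfz y y' i) (sfz y y' j) ↔ f00 i = f00 j)
    (h10 : ∀ i j, V10 (sfz y y' i) (sfz y y' j) ↔ f10 i = f10 j)
    (h01 : ∀ i j, V01 (sfz y y' i) (sfz y y' j) ↔ f01 i = f01 j)
    (h11 : ∀ i j, V11 (sfz y y' i) (sfz y y' j) ↔ f11 i = f11 j)
    (he : ∀ i j, f11 i = f11 j →
      η (sfz y y' i) * η (sfz y y' j) = sfZ (e i) * sfZ (e j))
    (a1m : ¬ V00 (y 0) (y 2) → V10 = V00 ⊔ pr (y 0) (y 2))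
    (a1s : ¬ V10 (y 0) (y 1) → V00 = V10 ⊔ pr (y 0) (y 1))
    (b1m : ¬ V10 (y' 0) (y' 2) → V11 = V10 ⊔ pr (y' 0) (y' 2))
    (b1s : ¬ V11 (y' 0) (y' 1) → V10 = V11 ⊔ pr (y' 0) (y' 1))
    (b2m : ¬ V00 (y' 0) (y' 2) → V01 = V00 ⊔ pr (y' 0) (y' 2))
    (b2s : ¬ V01 (y' 0) (y' 1) → V00 = V01 ⊔ pr (y' 0) (y' 1))
    (a2m : ¬ V01 (y 0) (y 2) → V11 = V01 ⊔ pr (y 0) (y 2))
    (a2s : ¬ V11 (y 0) (y 1) → V01 = V11 ⊔ pr (y 0) (y 1))
    (hgood : SfGood f00 f10 f01 f11 e g) :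
    sfT ord G G' V00 V10 V01 V11 y y' ∈ IV ℚ V11 η := by
  have hG : G * G = 1 := by rcases hp with h | h <;> rw [h] <;> rfl
  have hG' : G' * G' = 1 := by rcases hp' with h | h <;> rw [h] <;> rfl
  have r1 : V00 (y 0) (y 2) ↔ f00 0 = f00 2 := h00 0 2
  have r2 : V10 (y 0) (y 1) ↔ f10 0 = f10 1 := h10 0 1
  have r3 : V10 (y' 0) (y' 2) ↔ f10 4 = f10 6 := h10 4 6
  have r4 : V11 (y' 0) (y' 1) ↔ f11 4 = f11 5 := h11 4 5
  have r5 : V00 (y' 0) (y' 2) ↔ f00 4 = f00 6 := h00 4 6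
  have r6 : V01 (y' 0) (y' 1) ↔ f01 4 = f01 5 := h01 4 5
  have r7 : V01 (y 0) (y 2) ↔ f01 0 = f01 2 := h01 0 2
  have r8 : V11 (y 0) (y 1) ↔ f11 0 = f11 1 := h11 0 1
  have hz : ∀ b : Bool, b = true → sfZ b = -1 := fun b hb => by rw [hb]; rfl
  have hMS : ∀ u v : Bool, SfMS f00 f11 e g u v → ¬ V00 (y 0) (y 2) → V10 (y' 0) (y' 2) →
      ¬ V11 (y' 0) (y' 1) → ¬ V00 (y' 0) (y' 2) → V01 (y 0) (y 2) → ¬ V11 (y 0) (y 1) →
      sfT ord G G' V00 V10 V01 V11 y y' ∈ IV ℚ V11 η := by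
    rintro u v ⟨hR, hM⟩ q1 q2 q3 q4 q5 q6
    have s1 : sg ord V00 (y' 0) (y' 2) = sfZ u * sg ord V00 (y 0) (y 2) := by
      apply sf_sg ho q1
      rcases hR with ⟨k1, k2, k3⟩ | ⟨k1, k2, k3⟩
      · exact Or.inl ⟨k1, (h00 4 0).2 k2, (h00 6 2).2 k3⟩
      · exact Or.inr ⟨k1, (h00 4 2).2 k2, (h00 6 0).2 k3⟩
    rcases hM with ⟨k1, k2, k3, k4, k5⟩ | ⟨k1, k2, k3, k4, k5⟩
    · refine sf_msms (u := u) (v := v) hg hG' q1 q2 q3 q4 q5 q6 s1 ?_ ?_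
      · exact sf_sg ho q6 (Or.inl ⟨k1, (h11 4 0).2 k2, (h11 5 1).2 k3⟩)
      · refine sf_rel ((h11 4 0).2 k2) ((h11 5 1).2 k3) ?_ ?_
        · rw [← k4, sfZ_xor]
          exact he 4 0 k2
        · rw [← k5, sfZ_xor]
          exact he 5 1 k3
    · refine sf_msms (u := u) (v := v) hg hG' q1 q2 q3 q4 q5 q6 s1 ?_ ?_
      · exact sf_sg ho q6 (Or.inr ⟨k1, (h11 4 1).2 k2, (h11 5 0).2 k3⟩)
      · rw [add_comm (X (y 0)) (X (y 1))]
        refine sf_rel ((h11 4 1).2 k2) ((h11 5 0).2 k3) ?_ ?_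
        · rw [← k4, sfZ_xor]
          exact he 4 1 k2
        · rw [← k5, sfZ_xor]
          exact he 5 0 k3
  have hSM : ∀ u v : Bool, SfSM f10 f01 f11 e g u v → V00 (y 0) (y 2) → ¬ V10 (y 0) (y 1) →
      ¬ V10 (y' 0) (y' 2) → V00 (y' 0) (y' 2) → ¬ V01 (y' 0) (y' 1) → ¬ V01 (y 0) (y 2) →
      sfT ord G G' V00 V10 V01 V11 y y' ∈ IV ℚ V11 η := by
    rintro u v ⟨hR1, hR2, k2, k3, k4, k5⟩ q1 q2 q3 q4 q5 q6
    refine sf_smsm (u := u) (v := v) hg hG' q1 q2 q3 q4 q5 q6 ?_ ?_ ?_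
    · apply sf_sg ho q2
      rcases hR1 with ⟨k1, k2, k3⟩ | ⟨k1, k2, k3⟩
      · exact Or.inl ⟨k1, (h10 4 0).2 k2, (h10 6 1).2 k3⟩
      · exact Or.inr ⟨k1, (h10 4 1).2 k2, (h10 6 0).2 k3⟩
    · apply sf_sg ho q5
      rcases hR2 with ⟨k1, k2, k3⟩ | ⟨k1, k2, k3⟩
      · exact Or.inl ⟨k1, (h01 0 4).2 k2, (h01 2 5).2 k3⟩
      · exact Or.inr ⟨k1, (h01 0 5).2 k2, (h01 2 4).2 k3⟩
    · refine sf_rel ((h11 4 0).2 k2) ((h11 5 1).2 k3) ?_ ?_
      · rw [← k4, sfZ_xor]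
        exact he 4 0 k2
      · rw [← k5, sfZ_xor]
        exact he 5 1 k3
  rcases hgood with ⟨hz1, hz2⟩ | ⟨q1, q2, q3, q4⟩ | ⟨⟨q1, q2, q3, q4⟩, q5, q6, q7, q8⟩ |
    ⟨⟨q1, q2, q3⟩, q4, q5, q6⟩ | ⟨⟨q1, q2, q3⟩, q4, q5, q6⟩ |
    ⟨⟨q1, q2, q3⟩, ⟨q4, q5, q6⟩, hm⟩ | ⟨⟨q1, q2, q3⟩, ⟨q4, q5, q6⟩, hm⟩
  · unfold sfT
    refine (IV ℚ V11 η).add_mem ((IV ℚ V11 η).mul_mem_left _ (sf_z ?_))
      ((IV ℚ V11 η).mul_mem_left _ (sf_z ?_))
    · rcases hz1 with ⟨k1, k2⟩ | ⟨k1, k2⟩ | ⟨k1, k2, k3, k4, k5⟩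
      · exact Or.inl ⟨r1.2 k1, r2.2 k2⟩
      · exact Or.inr (Or.inl ⟨r3.2 k1, r4.2 k2⟩)
      · refine Or.inr (Or.inr ⟨r1.2 k1, fun h => k2 (r2.1 h), fun h => k3 (r3.1 h), r8.2 k4, ?_⟩)
        have h1 := he 0 1 k4
        rw [← sfZ_xor, hz _ k5] at h1
        exact h1
    · rcases hz2 with ⟨k1, k2⟩ | ⟨k1, k2⟩ | ⟨k1, k2, k3, k4, k5⟩
      · exact Or.inl ⟨r5.2 k1, r6.2 k2⟩
      · exact Or.inr (Or.inl ⟨r7.2 k1, r8.2 k2⟩)
      · refine Or.inr (Or.inr ⟨r5.2 k1, fun h => k2 (r6.1 h), fun h => k3 (r7.1 h), r4.2 k4, ?_⟩)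
        have h1 := he 4 5 k4
        rw [← sfZ_xor, hz _ k5] at h1
        exact h1
  · have q1' := mt r1.1 q1
    have q3' := mt r5.1 q3
    exact sf_mm ho q1' (mt r3.1 q2) q3' (mt r7.1 q4) (a1m q1') (b2m q3')
  · have q4' := mt r4.1 q4
    have q8' := mt r8.1 q8
    exact sf_ss ho hG hG' (r1.2 q1) (mt r2.1 q2) (r3.2 q3) q4' (r5.2 q5) (mt r6.1 q6) (r7.2 q7) q8'
      (b1s q4') (a2s q8') hp hp'
  · have q5' := mt r6.1 q5
    have q6' := mt r7.1 q6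
    exact sf_mssm ho hG' (mt r1.1 q1) (r3.2 q2) (mt r4.1 q3) (r5.2 q4) q5' q6' (b2s q5') (a2m q6')
      hp'
  · have q2' := mt r2.1 q2
    have q3' := mt r3.1 q3
    exact sf_smms ho hG (r1.2 q1) q2' q3' (mt r5.1 q4) (r7.2 q5) (mt r8.1 q6) (a1s q2') (b1m q3')
      hp
  · have k : ∀ u v, SfMS f00 f11 e g u v → sfT ord G G' V00 V10 V01 V11 y y' ∈ IV ℚ V11 η :=
      fun u v h => hMS u v h (mt r1.1 q1) (r3.2 q2) (mt r4.1 q3) (mt r5.1 q4) (r7.2 q5)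
        (mt r8.1 q6)
    rcases hm with h | h | h | h
    · exact k _ _ h
    · exact k _ _ h
    · exact k _ _ h
    · exact k _ _ h
  · have k : ∀ u v, SfSM f10 f01 f11 e g u v → sfT ord G G' V00 V10 V01 V11 y y' ∈ IV ℚ V11 η :=
      fun u v h => hSM u v h (r1.2 q1) (mt r2.1 q2) (mt r3.1 q3) (r5.2 q4) (mt r6.1 q5)
        (mt r7.1 q6)
    rcases hm with h | h | h | h
    · exact k _ _ h
    · exact k _ _ h
    · exact k _ _ h
    · exact k _ _ h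

end ideal

section classes

variable {Pt : Type}

private theorem sf_nat (x y a b : ℕ) : (x = y ∨ (x = a ∧ b = y) ∨ (x = b ∧ a = y)) ↔
    ((if x = b then a else x) = (if y = b then a else y)) := by
  by_cases hx : x = b
  · by_cases hy : y = b
    · rw [if_pos hx, if_pos hy]
      exact ⟨fun _ => rfl, fun _ => Or.inl (hx.trans hy.symm)⟩
    · rw [if_pos hx, if_neg hy]
      constructor
      · rintro (h | ⟨h1, h2⟩ | ⟨h1, h2⟩)
        · exact absurd (h.symm.trans hx) hy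
        · exact absurd h2.symm hy
        · exact h2
      · exact fun h => Or.inr (Or.inr ⟨hx, h⟩)
  · by_cases hy : y = b
    · rw [if_neg hx, if_pos hy]
      constructor
      · rintro (h | ⟨h1, h2⟩ | ⟨h1, h2⟩)
        · exact absurd (h.trans hy) hx
        · exact h1
        · exact absurd h1 hx
      · exact fun h => Or.inr (Or.inl ⟨h, hy.symm⟩)
    · rw [if_neg hx, if_neg hy]
      constructor
      · rintro (h | ⟨h1, h2⟩ | ⟨h1, h2⟩)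
        · exact h
        · exact absurd h2.symm hy
        · exact absurd h1 hx
      · exact fun h => Or.inl h

private theorem sf_mrg {V : Setoid Pt} {z : Fin 8 → Pt} {f : Fin 8 → ℕ}
    (h : ∀ i j, V (z i) (z j) ↔ f i = f j) (a b : Fin 8) :
    ∀ i j, (V ⊔ pr (z a) (z b)) (z i) (z j) ↔ sfMrg f a b i = sfMrg f a b j := by
  intro i j
  rw [sup_pr, h, h, h, h, h]
  exact sf_nat (f i) (f j) (f a) (f b)

end classes

section match8

variable {Pt ι : Type} [DecidableEq ι] {W : Setoid Pt} {x : ι → Fin 4 → Pt} {c c' : ι}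

/-- the labels -/
private def sfLab (c c' : ι) : Fin 8 → ι × Fin 4 :=
  ![(c, 0), (c, 1), (c, 2), (c, 3), (c', 0), (c', 1), (c', 2), (c', 3)]

private theorem sfLab_z (x : ι → Fin 4 → Pt) (c c' : ι) (i : Fin 8) :
    x (sfLab c c' i).1 (sfLab c c' i).2 = sfz (x c) (x c') i := by
  fin_cases i <;> rfl

private theorem sfLab_mem (i : Fin 8) : (sfLab c c' i).1 ∈ ({c, c'} : Finset ι) := by
  rw [Finset.mem_insert, Finset.mem_singleton]
  fin_cases i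
  · exact Or.inl rfl
  · exact Or.inl rfl
  · exact Or.inl rfl
  · exact Or.inl rfl
  · exact Or.inr rfl
  · exact Or.inr rfl
  · exact Or.inr rfl
  · exact Or.inr rfl

private theorem sfLab_inj (hne : c ≠ c') : Function.Injective (sfLab c c') := by
  have hnum : ∀ i, (sfLab c c' i).2.val + (if (sfLab c c' i).1 = c then 0 else 4) = i.val := by
    intro i
    fin_cases i
    · exact congrArg (0 + ·) (if_pos rfl)
    · exact congrArg (1 + ·) (if_pos rfl)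
    · exact congrArg (2 + ·) (if_pos rfl)
    · exact congrArg (3 + ·) (if_pos rfl)
    · exact congrArg (0 + ·) (if_neg hne.symm)
    · exact congrArg (1 + ·) (if_neg hne.symm)
    · exact congrArg (2 + ·) (if_neg hne.symm)
    · exact congrArg (3 + ·) (if_neg hne.symm)
  intro i j hij
  apply Fin.ext
  rw [← hnum i, ← hnum j, hij]

private theorem sf_match (h : Legit W x {c, c'}) (hne : c ≠ c') :
    ∃ t : Fin 8 → Fin 8, (∀ i, t (t i) = i) ∧ (∀ i, t i ≠ i) ∧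
      (∀ i, W (sfz (x c) (x c') i) (sfz (x c) (x c') (t i))) ∧
      ∀ i j, W (sfz (x c) (x c') i) (sfz (x c) (x c') j) ↔ sfBase t i = sfBase t j := by
  have hinj := sfLab_inj hne
  have hsurj : ∀ l : ι × Fin 4, l.1 ∈ ({c, c'} : Finset ι) → ∃ i, sfLab c c' i = l := by
    rintro ⟨d, k⟩ hl
    rw [Finset.mem_insert, Finset.mem_singleton] at hl
    rcases hl with hl | hl
    · have hd : d = c := hl
      subst hd
      fin_cases k
      · exact ⟨0, rfl⟩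
      · exact ⟨1, rfl⟩
      · exact ⟨2, rfl⟩
      · exact ⟨3, rfl⟩
    · have hd : d = c' := hl
      subst hd
      fin_cases k
      · exact ⟨4, rfl⟩
      · exact ⟨5, rfl⟩
      · exact ⟨6, rfl⟩
      · exact ⟨7, rfl⟩
  have hex : ∀ i : Fin 8, ∃ j : Fin 8, j ≠ i ∧ W (sfz (x c) (x c') i) (sfz (x c) (x c') j) ∧
      ∀ k : Fin 8, k ≠ i → W (sfz (x c) (x c') i) (sfz (x c) (x c') k) → k = j := by
    intro i
    obtain ⟨l', hl1, hl2, hl3, hl4⟩ := h (sfLab c c' i) (sfLab_mem i)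
    obtain ⟨j, rfl⟩ := hsurj l' hl1
    refine ⟨j, fun hji => hl2 (by rw [hji]), ?_, ?_⟩
    · have h5 : W (x (sfLab c c' i).1 (sfLab c c' i).2) (x (sfLab c c' j).1 (sfLab c c' j).2) := hl3
      rw [sfLab_z x, sfLab_z x] at h5
      exact h5
    · intro k hki hW
      apply hinj
      refine hl4 (sfLab c c' k) (sfLab_mem k) (fun h6 => hki (hinj h6)) ?_
      have h5 : W (x (sfLab c c' i).1 (sfLab c c' i).2) (x (sfLab c c' k).1 (sfLab c c' k).2) := by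
        rw [sfLab_z x, sfLab_z x]
        exact hW
      exact h5
  choose t ht1 ht2 ht3 using hex
  have hinv : ∀ i, t (t i) = i := by
    intro i
    exact (ht3 (t i) i (fun h1 => ht1 i h1.symm) (W.symm (ht2 i))).symm
  refine ⟨t, hinv, ht1, ht2, ?_⟩
  intro i j
  constructor
  · intro hW
    by_cases hij : j = i
    · rw [hij]
    · have h1 := ht3 i j hij hW
      unfold sfBase
      rw [h1, hinv, Nat.min_comm]
  · intro hf
    unfold sfBase at hf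
    have h1 : i = j ∨ i = t j ∨ t i = j ∨ t i = t j := by
      rcases Nat.le_total i.val (t i).val with h2 | h2 <;>
        rcases Nat.le_total j.val (t j).val with h3 | h3
      · rw [Nat.min_eq_left h2, Nat.min_eq_left h3] at hf
        exact Or.inl (Fin.ext hf)
      · rw [Nat.min_eq_left h2, Nat.min_eq_right h3] at hf
        exact Or.inr (Or.inl (Fin.ext hf))
      · rw [Nat.min_eq_right h2, Nat.min_eq_left h3] at hf
        exact Or.inr (Or.inr (Or.inl (Fin.ext hf)))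
      · rw [Nat.min_eq_right h2, Nat.min_eq_right h3] at hf
        exact Or.inr (Or.inr (Or.inr (Fin.ext hf)))
    rcases h1 with h1 | h1 | h1 | h1
    · rw [h1]
    · rw [h1]
      exact W.symm (ht2 j)
    · rw [← h1]
      exact ht2 i
    · have h2 : i = j := by rw [← hinv i, h1, hinv]
      rw [h2]

private theorem sad_m (h : Legit W x {c}) (hm : ¬ (W ⊔ s0 (x c)) (x c 0) (x c 2)) :
    W ⊔ s1 (x c) = W ⊔ s0 (x c) ⊔ pr (x c 0) (x c 2) := by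
  rcases sad_U h with ⟨h1, -, -⟩ | ⟨-, -, h3⟩ | ⟨h1, -, -⟩
  · exact absurd h1 hm
  · exact h3
  · exact absurd h1 hm

private theorem sad_s (h : Legit W x {c}) (hm : ¬ (W ⊔ s1 (x c)) (x c 0) (x c 1)) :
    W ⊔ s0 (x c) = W ⊔ s1 (x c) ⊔ pr (x c 0) (x c 1) := by
  rcases sad_U h with ⟨-, -, h3⟩ | ⟨-, h1, -⟩ | ⟨-, h1, -⟩
  · exact h3
  · exact absurd h1 hm
  · exact absurd h1 hm

/-- types and signs of the crossings -/
private theorem sf_ty {G : ι → ℤ} {g : Bool} (hG : G c * G c = 1) (hg : G c * G c' = sfZ g)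
    (i : Fin 8) : ty (sfLab c c' i).2 * G (sfLab c c' i).1 = G c * sfZ (sfLb g i) := by
  have h1 : G c' = G c * sfZ g := by
    rw [← hg, ← mul_assoc, hG, one_mul]
  fin_cases i
  · show (1 : ℤ) * G c = G c * sfZ false
    simp [sfZ]
  · show (-1 : ℤ) * G c = G c * sfZ true
    simp [sfZ]
  · show (-1 : ℤ) * G c = G c * sfZ true
    simp [sfZ]
  · show (1 : ℤ) * G c = G c * sfZ false
    simp [sfZ]
  · show (1 : ℤ) * G c' = G c * sfZ (xor false (true && g))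
    rw [h1]
    cases g <;> simp [sfZ]
  · show (-1 : ℤ) * G c' = G c * sfZ (xor true (true && g))
    rw [h1]
    cases g <;> simp [sfZ]
  · show (-1 : ℤ) * G c' = G c * sfZ (xor true (true && g))
    rw [h1]
    cases g <;> simp [sfZ]
  · show (1 : ℤ) * G c' = G c * sfZ (xor false (true && g))
    rw [h1]
    cases g <;> simp [sfZ]

end match8

variable {Pt ι : Type} [Finite Pt] [DecidableEq ι] {W : Setoid Pt} {x : ι → Fin 4 → Pt}
  {c c' : ι} {η : Pt → ℤ} {G : ι → ℤ} {ord : Pt → ℕ}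

theorem sface (ho : Function.Injective ord) (hL : Legit W x {c, c'}) (hne : c ≠ c')
    (hη : ∀ p, η p = 1 ∨ η p = -1) (hG : ∀ c, G c = 1 ∨ G c = -1)
    (hOr : OrS W x {c, c'} η G)
    (h1 : η (x c 0) = η (x c 2) ∧ η (x c 1) = η (x c 3))
    (h2 : η (x c' 0) = η (x c' 2) ∧ η (x c' 1) = η (x c' 3)) :
    C (((sgk ord (G c) (W ⊔ s0 (x c) ⊔ s0 (x c')) (W ⊔ s1 (x c) ⊔ s0 (x c')) (x c) *
        sgk ord (G c') (W ⊔ s1 (x c) ⊔ s0 (x c')) (W ⊔ s1 (x c) ⊔ s1 (x c')) (x c') : ℤ)) : ℚ) *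
      (kk (W ⊔ s0 (x c) ⊔ s0 (x c')) (W ⊔ s1 (x c) ⊔ s0 (x c')) (x c) *
        kk (W ⊔ s1 (x c) ⊔ s0 (x c')) (W ⊔ s1 (x c) ⊔ s1 (x c')) (x c')) +
    C (((sgk ord (G c') (W ⊔ s0 (x c) ⊔ s0 (x c')) (W ⊔ s0 (x c) ⊔ s1 (x c')) (x c') *
        sgk ord (G c) (W ⊔ s0 (x c) ⊔ s1 (x c')) (W ⊔ s1 (x c) ⊔ s1 (x c')) (x c) : ℤ)) : ℚ) *
      (kk (W ⊔ s0 (x c) ⊔ s0 (x c')) (W ⊔ s0 (x c) ⊔ s1 (x c')) (x c') *
        kk (W ⊔ s0 (x c) ⊔ s1 (x c')) (W ⊔ s1 (x c) ⊔ s1 (x c')) (x c)) ∈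
      IV ℚ (W ⊔ s1 (x c) ⊔ s1 (x c')) η := by
  obtain ⟨t, ht1, ht2, ht3, ht4⟩ := sf_match hL hne
  have sqG : ∀ d, G d * G d = 1 := by
    intro d
    rcases hG d with h | h <;> rw [h] <;> rfl
  have hP : ∀ i, η (sfz (x c) (x c') i) * η (sfz (x c) (x c') i) = 1 := by
    intro i
    rcases hη (sfz (x c) (x c') i) with h | h <;> rw [h] <;> rfl
  obtain ⟨g, hg⟩ : ∃ g, G c * G c' = sfZ g := by
    apply sfZ_ex
    rcases hG c with h | h <;> rcases hG c' with h' | h' <;> rw [h, h'] <;> decide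
  have hB : ∀ i, η (sfz (x c) (x c') i) * η (sfz (x c) (x c') (t i)) =
      -(sfZ (sfLb g i) * sfZ (sfLb g (t i))) := by
    intro i
    have k1 := hOr (sfLab c c' i).1 (sfLab_mem i) (sfLab c c' (t i)).1 (sfLab_mem (t i))
      (sfLab c c' i).2 (sfLab c c' (t i)).2
      (fun h => ht2 i (sfLab_inj hne h).symm)
      (by rw [sfLab_z x, sfLab_z x]; exact ht3 i)
    rw [sfLab_z x, sfLab_z x] at k1
    rw [k1]
    have k2 := sf_ty (sqG c) hg i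
    have k3 := sf_ty (sqG c) hg (t i)
    have k4 := sqG c
    calc -(ty (sfLab c c' i).2 * ty (sfLab c c' (t i)).2 * G (sfLab c c' i).1 *
          G (sfLab c c' (t i)).1) = -((ty (sfLab c c' i).2 * G (sfLab c c' i).1) *
          (ty (sfLab c c' (t i)).2 * G (sfLab c c' (t i)).1)) := by ring
      _ = -((G c * G c) * (sfZ (sfLb g i) * sfZ (sfLb g (t i)))) := by rw [k2, k3]; ring
      _ = -(sfZ (sfLb g i) * sfZ (sfLb g (t i))) := by rw [k4, one_mul]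
  have he : ∀ i j, sf11 t i = sf11 t j → η (sfz (x c) (x c') i) * η (sfz (x c) (x c') j) =
      sfZ (sfE g t i) * sfZ (sfE g t j) := by
    have m0 := sf_eb (P := fun i => η (sfz (x c) (x c') i)) hP ht1 ht2 hB
    have m1 := sf_em (P := fun i => η (sfz (x c) (x c') i)) hP m0 (a := 0) (b := 2) h1.1
    have m2 := sf_em (P := fun i => η (sfz (x c) (x c') i)) hP m1 (a := 1) (b := 3) h1.2
    have m3 := sf_em (P := fun i => η (sfz (x c) (x c') i)) hP m2 (a := 4) (b := 6) h2.1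
    exact sf_em (P := fun i => η (sfz (x c) (x c') i)) hP m3 (a := 5) (b := 7) h2.2
  have a0 : s0 (x c) = pr (sfz (x c) (x c') 0) (sfz (x c) (x c') 1) ⊔
    pr (sfz (x c) (x c') 2) (sfz (x c) (x c') 3) := rfl
  have a1 : s1 (x c) = pr (sfz (x c) (x c') 0) (sfz (x c) (x c') 2) ⊔
    pr (sfz (x c) (x c') 1) (sfz (x c) (x c') 3) := rfl
  have b0 : s0 (x c') = pr (sfz (x c) (x c') 4) (sfz (x c) (x c') 5) ⊔
    pr (sfz (x c) (x c') 6) (sfz (x c) (x c') 7) := rfl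
  have b1 : s1 (x c') = pr (sfz (x c) (x c') 4) (sfz (x c) (x c') 6) ⊔
    pr (sfz (x c) (x c') 5) (sfz (x c) (x c') 7) := rfl
  have v00 : ∀ i j, (W ⊔ s0 (x c) ⊔ s0 (x c')) (sfz (x c) (x c') i) (sfz (x c) (x c') j) ↔
      sf00 t i = sf00 t j := by
    rw [a0, b0, ← sup_assoc, ← sup_assoc]
    exact sf_mrg (sf_mrg (sf_mrg (sf_mrg ht4 0 1) 2 3) 4 5) 6 7
  have v10 : ∀ i j, (W ⊔ s1 (x c) ⊔ s0 (x c')) (sfz (x c) (x c') i) (sfz (x c) (x c') j) ↔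
      sf10 t i = sf10 t j := by
    rw [a1, b0, ← sup_assoc, ← sup_assoc]
    exact sf_mrg (sf_mrg (sf_mrg (sf_mrg ht4 0 2) 1 3) 4 5) 6 7
  have v01 : ∀ i j, (W ⊔ s0 (x c) ⊔ s1 (x c')) (sfz (x c) (x c') i) (sfz (x c) (x c') j) ↔
      sf01 t i = sf01 t j := by
    rw [a0, b1, ← sup_assoc, ← sup_assoc]
    exact sf_mrg (sf_mrg (sf_mrg (sf_mrg ht4 0 1) 2 3) 4 6) 5 7
  have v11 : ∀ i j, (W ⊔ s1 (x c) ⊔ s1 (x c')) (sfz (x c) (x c') i) (sfz (x c) (x c') j) ↔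
      sf11 t i = sf11 t j := by
    rw [a1, b1, ← sup_assoc, ← sup_assoc]
    exact sf_mrg (sf_mrg (sf_mrg (sf_mrg ht4 0 2) 1 3) 4 6) 5 7
  have L1 : Legit W x (insert c {c'}) := hL
  have L2 : Legit W x (insert c' {c}) := by
    rw [Finset.pair_comm]
    exact hL
  have n1 : c ∉ ({c'} : Finset ι) := fun h => hne (Finset.mem_singleton.1 h)
  have n2 : c' ∉ ({c} : Finset ι) := fun h => hne (Finset.mem_singleton.1 h).symm
  have la0 : Legit (W ⊔ s0 (x c)) x {c'} := legit0 L1 n1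
  have la1 : Legit (W ⊔ s1 (x c)) x {c'} := legit1 L1 n1
  have lb0 : Legit (W ⊔ s0 (x c')) x {c} := legit0 L2 n2
  have lb1 : Legit (W ⊔ s1 (x c')) x {c} := legit1 L2 n2
  refine sf_final ho hg (hG c) (hG c') v00 v10 v01 v11 he ?_ ?_ ?_ ?_ ?_ ?_ ?_ ?_
    (sf_good g t ht1 ht2)
  · intro h
    rw [sup_right_comm] at h
    rw [sup_right_comm, sad_m lb0 h, sup_right_comm W]
  · intro h
    rw [sup_right_comm] at h
    rw [sup_right_comm, sad_s lb0 h, sup_right_comm W]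
  · exact fun h => sad_m la1 h
  · exact fun h => sad_s la1 h
  · exact fun h => sad_m la0 h
  · exact fun h => sad_s la0 h
  · intro h
    rw [sup_right_comm] at h
    rw [sup_right_comm, sad_m lb1 h, sup_right_comm W]
  · intro h
    rw [sup_right_comm] at h
    rw [sup_right_comm, sad_s lb1 h, sup_right_comm W]

end Pool.HPS
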