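import Pool.Agent.HPS.Sg2
import Pool.Agent.HPS.Sg3
import Pool.Agent.HPS.Conc

/-!
# Module HPS-Sg4: a sign assignment exists (assembly of block S)
-/

set_option autoImplicit false

open Finset MvPolynomial

namespace Pool.HPS

theorem sgk_pm {Pt : Type} [Finite Pt] {ord : Pt → ℕ} {G : ℤ} (hG : G = 1 ∨ G = -1)
    {V V' : Setoid Pt} {y : Fin 4 → Pt} : sgk ord G V V' y = 1 ∨ sgk ord G V V' y = -1 := by
  unfold sgk
  by_cases h1 : V (y 0) (y 2)
  · rw [if_neg (not_not.2 h1)]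
    by_cases h2 : V' (y 0) (y 1)
    · rw [if_neg (not_not.2 h2)]; exact Or.inl rfl
    · rw [if_pos h2]
      rcases hG with h | h <;>
        rcases sg_pm (ord := ord) (V := V') (a := y 0) (b := y 1) with h' | h' <;>
        rw [h, h'] <;> norm_num
  · rw [if_pos h1]
    exact sg_pm

theorem Gc_pm (c : ℕ × ℕ) : Gc c = 1 ∨ Gc c = -1 := by
  unfold Gc
  exact neg_one_pow_eq_or ℤ _

theorem isSign_sgA (q : ℕ) : IsSign q (sgA q) := by
  refine ⟨fun r c => sgk_pm (Gc_pm c), ?_⟩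
  intro r hr c hc c' hc' h1 h2 hne
  obtain ⟨η, hη⟩ := exists_cons q (insert c (insert c' r))
  rw [IL_eq ℚ q _ hη]
  set S := cr q with hS
  set W := U (wires q) (hx q) ((S.erase c).erase c') r with hW
  have hc2 : c' ∈ S.erase c := Finset.mem_erase.2 ⟨hne.symm, hc'⟩
  have key : ∀ s : Finset (ℕ × ℕ), (∀ d ∈ (S.erase c).erase c', (d ∈ s ↔ d ∈ r)) →
      U (wires q) (hx q) S s = W ⊔ (if c ∈ s then s1 (hx q c) else s0 (hx q c)) ⊔
        (if c' ∈ s then s1 (hx q c') else s0 (hx q c')) := by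
    intro s hs
    have e1 : S = insert c' (insert c ((S.erase c).erase c')) := by
      rw [Finset.insert_comm, Finset.insert_erase hc2, Finset.insert_erase hc]
    have e2 : U (wires q) (hx q) ((S.erase c).erase c') s = W := U_congr hs
    conv_lhs => rw [e1]
    rw [U, Finset.sup_insert, Finset.sup_insert, ← e2, U]
    ac_rfl
  have k00 : U (wires q) (hx q) S r = W ⊔ s0 (hx q c) ⊔ s0 (hx q c') := by
    rw [key r (fun d _ => Iff.rfl), if_neg h1, if_neg h2]
  have k10 : U (wires q) (hx q) S (insert c r) = W ⊔ s1 (hx q c) ⊔ s0 (hx q c') := by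
    rw [key, if_pos (Finset.mem_insert_self _ _), if_neg]
    · simp only [Finset.mem_insert, not_or]; exact ⟨hne.symm, h2⟩
    · intro d hd
      simp only [Finset.mem_erase] at hd
      simp [hd.2.1]
  have k01 : U (wires q) (hx q) S (insert c' r) = W ⊔ s0 (hx q c) ⊔ s1 (hx q c') := by
    rw [key, if_neg, if_pos (Finset.mem_insert_self _ _)]
    · simp only [Finset.mem_insert, not_or]; exact ⟨hne, h1⟩
    · intro d hd
      simp only [Finset.mem_erase] at hd
      simp [hd.1]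
  have k11 : U (wires q) (hx q) S (insert c (insert c' r)) = W ⊔ s1 (hx q c) ⊔ s1 (hx q c') := by
    rw [key, if_pos (Finset.mem_insert_self _ _), if_pos]
    · simp
    · intro d hd
      simp only [Finset.mem_erase] at hd
      simp [hd.1, hd.2.1]
  have k11' : U (wires q) (hx q) S (insert c' (insert c r)) = W ⊔ s1 (hx q c) ⊔ s1 (hx q c') := by
    rw [Finset.insert_comm, k11]
  have hL := legit_con q
  have hSU : S = ({c, c'} : Finset (ℕ × ℕ)) ∪ ((S.erase c).erase c') := by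
    ext d
    simp only [Finset.mem_union, Finset.mem_insert, Finset.mem_singleton, Finset.mem_erase]
    constructor
    · intro hd
      by_cases hd1 : d = c
      · exact Or.inl (Or.inl hd1)
      · by_cases hd2 : d = c'
        · exact Or.inl (Or.inr hd2)
        · exact Or.inr ⟨hd2, hd1, hd⟩
    · rintro ((rfl | rfl) | ⟨-, -, hd⟩)
      · exact hc
      · exact hc'
      · exact hd
  have hdis : Disjoint ({c, c'} : Finset (ℕ × ℕ)) ((S.erase c).erase c') := by
    rw [Finset.disjoint_left]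
    intro d hd hd2
    simp only [Finset.mem_insert, Finset.mem_singleton, Finset.mem_erase] at hd hd2
    rcases hd with rfl | rfl
    · exact hd2.2.1 rfl
    · exact hd2.1 rfl
  have hOr : OrS W (hx q) {c, c'} η Gc := by
    refine OrS_U hη.pm Gc_pm (by rw [← hSU]; exact hL) hdis
      (by rw [← hSU]; exact OrS_wires q hη) r ?_ ?_
    · intro d hd hdr
      simp only [Finset.mem_erase] at hd
      exact hη.a0 d hd.2.2 (by simp [hd.1, hd.2.1, hdr])
    · intro d hd hdr
      simp only [Finset.mem_erase] at hd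
      exact hη.a1 d hd.2.2 (by simp [hdr])
  have hLW : Legit W (hx q) {c, c'} := legit_two hL hc hc' hne r
  have main := sface (ordH_inj q) hLW hne hη.pm Gc_pm hOr
    (hη.a1 c hc (by simp)) (hη.a1 c' hc' (by simp))
  have e1 : kL ℚ (wires q) (hx q) S r c =
      kk (W ⊔ s0 (hx q c) ⊔ s0 (hx q c')) (W ⊔ s1 (hx q c) ⊔ s0 (hx q c')) (hx q c) := by
    unfold kL kk; rw [k00, k10]
  have e2 : kL ℚ (wires q) (hx q) S (insert c r) c' =
      kk (W ⊔ s1 (hx q c) ⊔ s0 (hx q c')) (W ⊔ s1 (hx q c) ⊔ s1 (hx q c')) (hx q c') := by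
    unfold kL kk; rw [k10, k11']
  have e3 : kL ℚ (wires q) (hx q) S r c' =
      kk (W ⊔ s0 (hx q c) ⊔ s0 (hx q c')) (W ⊔ s0 (hx q c) ⊔ s1 (hx q c')) (hx q c') := by
    unfold kL kk; rw [k00, k01]
  have e4 : kL ℚ (wires q) (hx q) S (insert c' r) c =
      kk (W ⊔ s0 (hx q c) ⊔ s1 (hx q c')) (W ⊔ s1 (hx q c) ⊔ s1 (hx q c')) (hx q c) := by
    unfold kL kk; rw [k01, k11]
  have f1 : sgA q r c = sgk (ordH q) (Gc c) (W ⊔ s0 (hx q c) ⊔ s0 (hx q c'))
      (W ⊔ s1 (hx q c) ⊔ s0 (hx q c')) (hx q c) := by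
    unfold sgA; rw [← hS, k00, k10]
  have f2 : sgA q (insert c r) c' = sgk (ordH q) (Gc c') (W ⊔ s1 (hx q c) ⊔ s0 (hx q c'))
      (W ⊔ s1 (hx q c) ⊔ s1 (hx q c')) (hx q c') := by
    unfold sgA; rw [← hS, k10, k11']
  have f3 : sgA q r c' = sgk (ordH q) (Gc c') (W ⊔ s0 (hx q c) ⊔ s0 (hx q c'))
      (W ⊔ s0 (hx q c) ⊔ s1 (hx q c')) (hx q c') := by
    unfold sgA; rw [← hS, k00, k01]
  have f4 : sgA q (insert c' r) c = sgk (ordH q) (Gc c) (W ⊔ s0 (hx q c) ⊔ s1 (hx q c'))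
      (W ⊔ s1 (hx q c) ⊔ s1 (hx q c')) (hx q c) := by
    unfold sgA; rw [← hS, k01, k11]
  rw [e1, e2, e3, e4, f1, f2, f3, f4, k11]
  push_cast at main ⊢
  exact main

end Pool.HPS
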