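import Pool.Agent.HPS.Defs

/-! Basic lemmas on the state setoid `U`. -/

set_option autoImplicit false

open Finset MvPolynomial

namespace Pool.HPS

variable {Pt ι : Type}

theorem pr_rel (p q : Pt) : (pr p q) p q := Relation.EqvGen.rel _ _ ⟨rfl, rfl⟩

theorem pr_le {p q : Pt} {V : Setoid Pt} : pr p q ≤ V ↔ V p q := by
  constructor
  · intro h; exact h (pr_rel p q)
  · intro h
    rw [pr, Setoid.le_def]
    intro u v huv
    induction huv with
    | rel u v h' => obtain ⟨rfl, rfl⟩ := h'; exact h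
    | refl u => exact V.refl _
    | symm u v _ ih => exact V.symm ih
    | trans u v w _ _ ih1 ih2 => exact V.trans ih1 ih2

theorem pr_comm (p q : Pt) : pr p q = pr q p :=
  le_antisymm (pr_le.2 (Setoid.symm' _ (pr_rel q p))) (pr_le.2 (Setoid.symm' _ (pr_rel p q)))

theorem s0_le {y : Fin 4 → Pt} {V : Setoid Pt} : s0 y ≤ V ↔ V (y 0) (y 1) ∧ V (y 2) (y 3) := by
  rw [s0, sup_le_iff, pr_le, pr_le]

theorem s1_le {y : Fin 4 → Pt} {V : Setoid Pt} : s1 y ≤ V ↔ V (y 0) (y 2) ∧ V (y 1) (y 3) := by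
  rw [s1, sup_le_iff, pr_le, pr_le]

variable [DecidableEq ι] {W : Setoid Pt} {x : ι → Fin 4 → Pt} {S r : Finset ι} {c : ι}

theorem le_U : W ≤ U W x S r := le_sup_left

theorem U_ins (c : ι) : U W x (insert c S) r =
    U (W ⊔ (if c ∈ r then s1 (x c) else s0 (x c))) x S r := by
  rw [U, U, Finset.sup_insert, sup_assoc]

theorem U_ins0 (hr : c ∉ r) : U W x (insert c S) r = U (W ⊔ s0 (x c)) x S r := by
  rw [U_ins, if_neg hr]

theorem U_ins1 (hr : c ∈ r) : U W x (insert c S) r = U (W ⊔ s1 (x c)) x S r := by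
  rw [U_ins, if_pos hr]

theorem U_congr {r' : Finset ι} (h : ∀ c ∈ S, (c ∈ r ↔ c ∈ r')) : U W x S r = U W x S r' := by
  rw [U, U]
  congr 1
  apply Finset.sup_congr rfl
  intro c hc
  by_cases h1 : c ∈ r
  · rw [if_pos h1, if_pos ((h c hc).1 h1)]
  · rw [if_neg h1, if_neg (fun h2 => h1 ((h c hc).2 h2))]

theorem U_congr_x {x' : ι → Fin 4 → Pt} (h : ∀ c ∈ S, x c = x' c) : U W x S r = U W x' S r := by
  rw [U, U]
  congr 1
  apply Finset.sup_congr rfl
  intro c hc
  rw [h c hc]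

@[simp] theorem U_empty : U W x ∅ r = W := by
  rw [U, Finset.sup_empty]; exact sup_bot_eq _

/-- Smooth the crossings of `T` first. -/
theorem U_union (T : Finset ι) : U W x (T ∪ S) r = U (U W x T r) x S r := by
  rw [U, U, U, Finset.sup_union, sup_assoc]

theorem U_sdiff {T : Finset ι} (h : T ⊆ S) : U (U W x T r) x (S \ T) r = U W x S r := by
  rw [← U_union, Finset.union_sdiff_of_subset h]

theorem U_mono_W {W' : Setoid Pt} (h : W ≤ W') : U W x S r ≤ U W' x S r :=
  sup_le_sup_right h _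

/-- The state setoid with the crossing `c` smoothed last. -/
theorem U_last0 (hc : c ∈ S) (hr : c ∉ r) : U W x S r = U W x (S.erase c) r ⊔ s0 (x c) := by
  conv_lhs => rw [← Finset.insert_erase hc]
  rw [U, U, Finset.sup_insert, if_neg hr, sup_assoc, sup_comm (s0 (x c))]

theorem U_last1 (hc : c ∈ S) (hr : c ∈ r) : U W x S r = U W x (S.erase c) r ⊔ s1 (x c) := by
  conv_lhs => rw [← Finset.insert_erase hc]
  rw [U, U, Finset.sup_insert, if_pos hr, sup_assoc, sup_comm (s1 (x c))]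

theorem U_sup (V : Setoid Pt) : U (W ⊔ V) x S r = U W x S r ⊔ V := by
  rw [U, U, sup_assoc, sup_assoc, sup_comm V]

theorem U_rel0 (hc : c ∈ S) (hr : c ∉ r) :
    U W x S r (x c 0) (x c 1) ∧ U W x S r (x c 2) (x c 3) := by
  rw [← s0_le, U_last0 hc hr]; exact le_sup_right

theorem U_rel1 (hc : c ∈ S) (hr : c ∈ r) :
    U W x S r (x c 0) (x c 2) ∧ U W x S r (x c 1) (x c 3) := by
  rw [← s1_le, U_last1 hc hr]; exact le_sup_right

theorem V4_s0 {y y' : Fin 4 → Pt} (h : V4 y y') : s0 y' = s0 y := by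
  rcases h with rfl | rfl | rfl | rfl
  · rfl
  · simp only [s0, Matrix.cons_val]; rw [pr_comm (y 1), pr_comm (y 3)]
  · simp only [s0, Matrix.cons_val]; rw [sup_comm]
  · simp only [s0, Matrix.cons_val]; rw [sup_comm, pr_comm (y 3), pr_comm (y 1)]

theorem V4_s1 {y y' : Fin 4 → Pt} (h : V4 y y') : s1 y' = s1 y := by
  rcases h with rfl | rfl | rfl | rfl
  · rfl
  · simp only [s1, Matrix.cons_val]; rw [sup_comm]
  · simp only [s1, Matrix.cons_val]; rw [pr_comm (y 2), pr_comm (y 3)]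
  · simp only [s1, Matrix.cons_val]; rw [sup_comm, pr_comm (y 3), pr_comm (y 2)]

end Pool.HPS
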